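import Pool.Agent.MP70c477.AEnergy

set_option autoImplicit false
set_option linter.unusedVariables false

open MeasureTheory Set Filter Topology ContinuousLinearMap
open scoped Convolution ENNReal NNReal Pointwise

namespace Pool.Agent.MP70c477

noncomputable section

/-- squared Euclidean distance -/
def d2 (P p : PP) : ℝ := (p.1 - P.1) ^ 2 + (p.2 - P.2) ^ 2

lemma d2_nonneg (P p : PP) : 0 ≤ d2 P p := by unfold d2; positivity

/-- the weight `1/(σ²+|p-P|²)` -/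
def zt (σ : ℝ) (P p : PP) : ℝ := (σ ^ 2 + d2 P p)⁻¹

lemma zt_pos {σ : ℝ} (hσ : 0 < σ) (P p : PP) : 0 < zt σ P p := by
  unfold zt; have := d2_nonneg P p; positivity

lemma zt_contDiff {σ : ℝ} (hσ : 0 < σ) (P : PP) {n : WithTop ℕ∞} : ContDiff ℝ n (zt σ P) := by
  unfold zt d2
  apply ContDiff.inv
  · fun_prop
  · intro p; positivity

lemma zt_hasFDerivAt {σ : ℝ} (hσ : 0 < σ) (P p : PP) :
    HasFDerivAt (zt σ P) ((-(zt σ P p) ^ 2) • ((2 * (p.1 - P.1)) • ContinuousLinearMap.fst ℝ ℝ ℝ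
      + (2 * (p.2 - P.2)) • ContinuousLinearMap.snd ℝ ℝ ℝ)) p := by
  have h1 := ((hasFDerivAt_fst_sub P.1 p).pow 2)
  have h2 := ((hasFDerivAt_snd_sub P.2 p).pow 2)
  have h3 : HasFDerivAt (fun p : PP => σ ^ 2 + ((p.1 - P.1) ^ 2 + (p.2 - P.2) ^ 2)) _ p :=
    (h1.add h2).const_add (σ ^ 2)
  have hne : σ ^ 2 + ((p.1 - P.1) ^ 2 + (p.2 - P.2) ^ 2) ≠ 0 := by positivity
  have h4 := (hasDerivAt_inv hne).comp_hasFDerivAt p h3
  have e : zt σ P = (fun x : ℝ => x⁻¹) ∘ (fun p : PP => σ ^ 2 + ((p.1 - P.1) ^ 2 + (p.2 - P.2) ^ 2)) := by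
    ext q; simp [zt, d2]
  rw [e]
  refine h4.congr_fderiv ?_
  ext <;> simp

lemma zt_fderiv {σ : ℝ} (hσ : 0 < σ) (P p v : PP) :
    fderiv ℝ (zt σ P) p v = -(zt σ P p) ^ 2 * (2 * (p.1 - P.1) * v.1 + 2 * (p.2 - P.2) * v.2) := by
  rw [(zt_hasFDerivAt hσ P p).fderiv]
  simp
  ring

lemma zt_identity {σ : ℝ} (hσ : 0 < σ) (P p : PP) :
    zt σ P p - (zt σ P p) ^ 2 * d2 P p = σ ^ 2 * (zt σ P p) ^ 2 := by
  have : σ ^ 2 + d2 P p ≠ 0 := by have := d2_nonneg P p; positivity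
  unfold zt; field_simp; ring

lemma zt_le {σ : ℝ} (hσ : 0 < σ) (P p : PP) : zt σ P p ≤ (σ ^ 2)⁻¹ := by
  unfold zt
  apply inv_anti₀ (by positivity)
  have := d2_nonneg P p; linarith

lemma zt_mul_d2_le {σ : ℝ} (hσ : 0 < σ) (P p : PP) : zt σ P p * d2 P p ≤ 1 := by
  have := d2_nonneg P p
  unfold zt
  rw [inv_mul_le_iff₀ (by positivity)]
  nlinarith [sq_nonneg σ]

/-- radial derivative times radius -/
def rad (U : PP → ℝ) (P p : PP) : ℝ := (p.1 - P.1) * fderiv ℝ U p ex + (p.2 - P.2) * fderiv ℝ U p ey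

lemma rad_rot (U : PP → ℝ) (P p : PP) :
    (rad U P p) ^ 2 + (fderiv ℝ U p (rot P p)) ^ 2 = d2 P p * gsq U p := by
  rw [fderiv_rot]; unfold rad d2 gsq; ring

section
variable {Ω : Set PP} {U : PP → ℝ} {P : PP} {n1 n2 : ℝ} {σ : ℝ}

lemma Tst.rad_cont (hU : Tst 1 Ω U) (P : PP) : Continuous (rad U P) := by
  unfold rad
  have c1 : Continuous (fun p => fderiv ℝ U p ex) := hU.cont_fderiv le_rfl ex
  have c2 : Continuous (fun p => fderiv ℝ U p ey) := hU.cont_fderiv le_rfl ey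
  fun_prop

lemma Tst.rad_comp (hU : Tst 1 Ω U) (P : PP) : HasCompactSupport (rad U P) := by
  have hf : HasCompactSupport (fun p => fderiv ℝ U p) := hU.2.1.fderiv ℝ
  apply hf.mono
  intro p hp h0
  apply hp
  show rad U P p = 0
  have : fderiv ℝ U p = 0 := h0
  simp [rad, this]

lemma Tst.rot_cont (hU : Tst 1 Ω U) (P : PP) : Continuous (fun p => fderiv ℝ U p (rot P p)) := by
  simp_rw [fderiv_rot]
  have c1 : Continuous (fun p => fderiv ℝ U p ex) := hU.cont_fderiv le_rfl ex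
  have c2 : Continuous (fun p => fderiv ℝ U p ey) := hU.cont_fderiv le_rfl ey
  fun_prop

lemma Tst.rot_comp (hU : Tst 1 Ω U) (P : PP) :
    HasCompactSupport (fun p => fderiv ℝ U p (rot P p)) := by
  have hf : HasCompactSupport (fun p => fderiv ℝ U p) := hU.2.1.fderiv ℝ
  apply hf.mono
  intro p hp h0
  apply hp
  show fderiv ℝ U p (rot P p) = 0
  have : fderiv ℝ U p = 0 := h0
  rw [this]; simp

lemma Tst.gsq_cont (hU : Tst 1 Ω U) : Continuous (gsq U) := by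
  unfold gsq
  have c1 : Continuous (fun p => fderiv ℝ U p ex) := hU.cont_fderiv le_rfl ex
  have c2 : Continuous (fun p => fderiv ℝ U p ey) := hU.cont_fderiv le_rfl ey
  fun_prop

lemma Tst.gsq_comp (hU : Tst 1 Ω U) : HasCompactSupport (gsq U) := by
  have hf : HasCompactSupport (fun p => fderiv ℝ U p) := hU.2.1.fderiv ℝ
  apply hf.mono
  intro p hp h0
  apply hp
  show gsq U p = 0
  have : fderiv ℝ U p = 0 := h0
  simp [gsq, this]

/-- the weighted L2 norm is controlled by the energy -/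
lemma weighted_L2_le (hn : ∀ p ∈ Ω, 0 < n1 * (p.1 - P.1) + n2 * (p.2 - P.2))
    (hU : Tst 1 Ω U) (hσ : 0 < σ) : ∫ p, zt σ P p * U p ^ 2 ≤ En U := by
  have h1 := wirtinger hn hU (zt_contDiff hσ P) (fun p => (zt_pos hσ P p).le) (fun p => by
    rw [zt_fderiv hσ]; unfold rot; ring)
  refine h1.trans ?_
  unfold En
  apply integral_mono
  · exact integrable_of_cont ((zt_contDiff hσ P (n := 1)).continuous.mul ((hU.rot_cont P).pow 2))
      (hasCompactSupport_sq (hU.rot_comp P)).mul_left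
  · exact hU.int_gsq le_rfl
  · intro p
    show zt σ P p * (fderiv ℝ U p (rot P p)) ^ 2 ≤ gsq U p
    have h2 : (fderiv ℝ U p (rot P p)) ^ 2 ≤ d2 P p * gsq U p := by
      rw [← rad_rot]; nlinarith [sq_nonneg (rad U P p)]
    calc zt σ P p * (fderiv ℝ U p (rot P p)) ^ 2 ≤ zt σ P p * (d2 P p * gsq U p) :=
          mul_le_mul_of_nonneg_left h2 (zt_pos hσ P p).le
      _ = (zt σ P p * d2 P p) * gsq U p := by ring
      _ ≤ 1 * gsq U p := mul_le_mul_of_nonneg_right (zt_mul_d2_le hσ P p) (gsq_nonneg U p)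
      _ = gsq U p := one_mul _

/-- energy of `ζ U` -/
lemma En_zt_le (hU : Tst 1 Ω U) (hσ : 0 < σ) :
    En (fun p => zt σ P p * U p) ≤ 2 * (σ ^ 2)⁻¹ ^ 2 * En U + 8 * (σ ^ 2)⁻¹ ^ 3 * Nm U := by
  have hW : Tst 1 Ω (fun p => zt σ P p * U p) := hU.mul_fun (zt_contDiff hσ P)
  unfold En Nm
  rw [← integral_const_mul, ← integral_const_mul, ← integral_add ((hU.int_gsq le_rfl).const_mul _)
    (hU.int_sq.const_mul _)]
  apply integral_mono (hW.int_gsq le_rfl) (((hU.int_gsq le_rfl).const_mul _).add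
    (hU.int_sq.const_mul _))
  intro p
  show gsq (fun p => zt σ P p * U p) p ≤ 2 * (σ ^ 2)⁻¹ ^ 2 * gsq U p + 8 * (σ ^ 2)⁻¹ ^ 3 * U p ^ 2
  have hd : ∀ v, fderiv ℝ (fun p => zt σ P p * U p) p v
      = zt σ P p * fderiv ℝ U p v + U p * fderiv ℝ (zt σ P) p v := by
    intro v
    have h1 := ((zt_contDiff hσ P (n := 1)).differentiable (by simp) p).hasFDerivAt.mul
      (hU.1.differentiable (by simp) p).hasFDerivAt
    have h2 : fderiv ℝ (fun p => zt σ P p * U p) p = _ := h1.fderiv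
    rw [h2]
    simp
  unfold gsq
  rw [hd, hd, zt_fderiv hσ, zt_fderiv hσ]
  simp only [ex, ey, mul_one, mul_zero, add_zero, zero_add]
  set z := zt σ P p
  set a := fderiv ℝ U p (1, 0)
  set b := fderiv ℝ U p (0, 1)
  set X := p.1 - P.1
  set Y := p.2 - P.2
  set c := (σ ^ 2)⁻¹
  have hz : 0 < z := zt_pos hσ P p
  have hzc : z ≤ c := zt_le hσ P p
  have hzd : z * (X ^ 2 + Y ^ 2) ≤ 1 := zt_mul_d2_le hσ P p
  have e1 : (z * a + U p * (-z ^ 2 * (2 * X))) ^ 2 ≤ 2 * (z * a) ^ 2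
      + 2 * (U p * (-z ^ 2 * (2 * X))) ^ 2 := by
    nlinarith [sq_nonneg (z * a - U p * (-z ^ 2 * (2 * X)))]
  have e2 : (z * b + U p * (-z ^ 2 * (2 * Y))) ^ 2 ≤ 2 * (z * b) ^ 2
      + 2 * (U p * (-z ^ 2 * (2 * Y))) ^ 2 := by
    nlinarith [sq_nonneg (z * b - U p * (-z ^ 2 * (2 * Y)))]
  have e3 : 2 * (z * a) ^ 2 + 2 * (z * b) ^ 2 ≤ 2 * c ^ 2 * (a ^ 2 + b ^ 2) := by
    have : z ^ 2 ≤ c ^ 2 := by gcongr
    nlinarith [sq_nonneg a, sq_nonneg b]
  have e4 : 2 * (U p * (-z ^ 2 * (2 * X))) ^ 2 + 2 * (U p * (-z ^ 2 * (2 * Y))) ^ 2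
      ≤ 8 * c ^ 3 * U p ^ 2 := by
    have h5 : 2 * (U p * (-z ^ 2 * (2 * X))) ^ 2 + 2 * (U p * (-z ^ 2 * (2 * Y))) ^ 2
        = 8 * (z ^ 3 * (z * (X ^ 2 + Y ^ 2))) * U p ^ 2 := by ring
    rw [h5]
    have h6 : z ^ 3 * (z * (X ^ 2 + Y ^ 2)) ≤ c ^ 3 := by
      calc z ^ 3 * (z * (X ^ 2 + Y ^ 2)) ≤ z ^ 3 * 1 := by gcongr
        _ = z ^ 3 := mul_one _
        _ ≤ c ^ 3 := by gcongr
    nlinarith [sq_nonneg (U p)]
  linarith

/-- main weighted energy estimate -/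
theorem weighted_energy_le (hΩ : IsOpen Ω)
    (hn : ∀ p ∈ Ω, 0 < n1 * (p.1 - P.1) + n2 * (p.2 - P.2))
    (hU : Tst 1 Ω U) (hσ : 0 < σ) :
    ∫ p, σ ^ 2 * (zt σ P p) ^ 2 * gsq U p ≤ lamP Ω * En U
      + Real.sqrt (Qf (lamP Ω) U * (2 * (σ ^ 2)⁻¹ ^ 2 * En U + 8 * (σ ^ 2)⁻¹ ^ 3 * Nm U)) := by
  set l := lamP Ω with hl
  have hl0 : 0 ≤ l := lamP_nonneg Ω
  have hW : Tst 1 Ω (fun p => zt σ P p * U p) := hU.mul_fun (zt_contDiff hσ P)
  have hQ : 0 ≤ Qf l U := by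
    have := lamP_mul_le_C1 hΩ hU
    unfold Qf; linarith
  have hB := Bf_sq_le hΩ (le_refl l) hU hW
  have hQW : Qf l (fun p => zt σ P p * U p) ≤ 2 * (σ ^ 2)⁻¹ ^ 2 * En U
      + 8 * (σ ^ 2)⁻¹ ^ 3 * Nm U := by
    have h1 := En_zt_le (P := P) hU hσ
    have h2 := Nm_nonneg (fun p => zt σ P p * U p)
    unfold Qf
    nlinarith
  have hBle : Bf l U (fun p => zt σ P p * U p) ≤ Real.sqrt (Qf l U *
      (2 * (σ ^ 2)⁻¹ ^ 2 * En U + 8 * (σ ^ 2)⁻¹ ^ 3 * Nm U)) := by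
    apply Real.le_sqrt_of_sq_le
    exact hB.trans (mul_le_mul_of_nonneg_left hQW hQ)
  -- lower bound for Bf
  have czt : Continuous (zt σ P) := (zt_contDiff hσ P (n := 1)).continuous
  have ig : Integrable (fun p => zt σ P p * gsq U p) :=
    integrable_of_cont (czt.mul hU.gsq_cont) hU.gsq_comp.mul_left
  have iU : Integrable (fun p => zt σ P p * U p ^ 2) :=
    integrable_of_cont (czt.mul (hU.1.continuous.pow 2)) (hasCompactSupport_sq hU.2.1).mul_left
  have iU2 : Integrable (fun p => (zt σ P p) ^ 2 * U p ^ 2) :=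
    integrable_of_cont ((czt.pow 2).mul (hU.1.continuous.pow 2))
      (hasCompactSupport_sq hU.2.1).mul_left
  have iD : Integrable (fun p => (zt σ P p) ^ 2 * (rad U P p) ^ 2) :=
    integrable_of_cont ((czt.pow 2).mul ((hU.rad_cont P).pow 2))
      (hasCompactSupport_sq (hU.rad_comp P)).mul_left
  have iR : Integrable (fun p => (zt σ P p) ^ 2 * (fderiv ℝ U p (rot P p)) ^ 2) :=
    integrable_of_cont ((czt.pow 2).mul ((hU.rot_cont P).pow 2))
      (hasCompactSupport_sq (hU.rot_comp P)).mul_left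
  have iS : Integrable (fun p => σ ^ 2 * (zt σ P p) ^ 2 * gsq U p) :=
    integrable_of_cont (by have := hU.gsq_cont; fun_prop) hU.gsq_comp.mul_left
  have hlow : (∫ p, zt σ P p * gsq U p) - (∫ p, (zt σ P p) ^ 2 * U p ^ 2)
      - (∫ p, (zt σ P p) ^ 2 * (rad U P p) ^ 2) - l * (∫ p, zt σ P p * U p ^ 2)
      ≤ Bf l U (fun p => zt σ P p * U p) := by
    have e : (∫ p, zt σ P p * gsq U p) - (∫ p, (zt σ P p) ^ 2 * U p ^ 2)
      - (∫ p, (zt σ P p) ^ 2 * (rad U P p) ^ 2) - l * (∫ p, zt σ P p * U p ^ 2)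
      = ∫ p, (((zt σ P p * gsq U p - (zt σ P p) ^ 2 * U p ^ 2)
        - (zt σ P p) ^ 2 * (rad U P p) ^ 2) - l * (zt σ P p * U p ^ 2)) := by
      have j1 : Integrable (fun p => zt σ P p * gsq U p - (zt σ P p) ^ 2 * U p ^ 2) := ig.sub iU2
      have j2 : Integrable (fun p => (zt σ P p * gsq U p - (zt σ P p) ^ 2 * U p ^ 2)
        - (zt σ P p) ^ 2 * (rad U P p) ^ 2) := j1.sub iD
      rw [integral_sub j2 (iU.const_mul _), integral_sub j1 iD,
        integral_sub ig iU2, integral_const_mul]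
    rw [e]
    unfold Bf
    apply integral_mono
    · exact ((ig.sub iU2).sub iD).sub (iU.const_mul _)
    · exact ((hU.int_fprod le_rfl le_rfl hW ex).add (hU.int_fprod le_rfl le_rfl hW ey)).sub
        ((hU.int_prod hW).const_mul _)
    · intro p
      show ((zt σ P p * gsq U p - (zt σ P p) ^ 2 * U p ^ 2)
        - (zt σ P p) ^ 2 * (rad U P p) ^ 2) - l * (zt σ P p * U p ^ 2) ≤
        (fderiv ℝ U p ex * fderiv ℝ (fun p => zt σ P p * U p) p ex
        + fderiv ℝ U p ey * fderiv ℝ (fun p => zt σ P p * U p) p ey)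
        - l * (U p * (zt σ P p * U p))
      have hd : ∀ v, fderiv ℝ (fun p => zt σ P p * U p) p v
          = zt σ P p * fderiv ℝ U p v + U p * fderiv ℝ (zt σ P) p v := by
        intro v
        have h1 := ((zt_contDiff hσ P (n := 1)).differentiable (by simp) p).hasFDerivAt.mul
          (hU.1.differentiable (by simp) p).hasFDerivAt
        have h2 : fderiv ℝ (fun p => zt σ P p * U p) p = _ := h1.fderiv
        rw [h2]
        simp
      rw [hd, hd, zt_fderiv hσ, zt_fderiv hσ]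
      unfold gsq rad
      simp only [ex, ey, mul_one, mul_zero, add_zero, zero_add]
      set z := zt σ P p
      set a := fderiv ℝ U p (1, 0)
      set b := fderiv ℝ U p (0, 1)
      set X := p.1 - P.1
      set Y := p.2 - P.2
      nlinarith [mul_nonneg (sq_nonneg z) (sq_nonneg (U p - (X * a + Y * b)))]
  have hwir := wirtinger hn hU ((zt_contDiff hσ P).pow 2) (fun p => sq_nonneg (zt σ P p)) (fun p => by
    have h1 := ((zt_contDiff hσ P (n := 1)).differentiable (by simp) p).hasFDerivAt.pow 2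
    have h2 : fderiv ℝ (fun p => zt σ P p ^ 2) p = _ := h1.fderiv
    rw [h2]
    simp only [smul_apply, zt_fderiv hσ]
    have h5 : 2 * (p.1 - P.1) * (rot P p).1 + 2 * (p.2 - P.2) * (rot P p).2 = 0 := by
      unfold rot; ring
    rw [h5]; simp)
  have hw2 := weighted_L2_le hn hU hσ
  have hsplit : (∫ p, σ ^ 2 * (zt σ P p) ^ 2 * gsq U p) = (∫ p, zt σ P p * gsq U p)
      - (∫ p, (zt σ P p) ^ 2 * (fderiv ℝ U p (rot P p)) ^ 2)
      - (∫ p, (zt σ P p) ^ 2 * (rad U P p) ^ 2) := by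
    rw [← integral_sub ig iR]
    have iGR : Integrable (fun p => zt σ P p * gsq U p
      - (zt σ P p) ^ 2 * (fderiv ℝ U p (rot P p)) ^ 2) := ig.sub iR
    rw [← integral_sub iGR iD]
    congr 1; ext p
    have h1 := zt_identity hσ P p
    have h2 := rad_rot U P p
    rw [← h1]
    nlinarith
  rw [hsplit]
  have h3 : l * (∫ p, zt σ P p * U p ^ 2) ≤ l * En U := mul_le_mul_of_nonneg_left hw2 hl0
  linarith

/-- Euclidean disc -/
def disc (P : PP) (σ : ℝ) : Set PP := {p | d2 P p < σ ^ 2}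

lemma disc_open (P : PP) (σ : ℝ) : IsOpen (disc P σ) := by
  unfold disc d2
  exact isOpen_lt (by fun_prop) (by fun_prop)

/-- energy in a disc centred on (or beyond) the boundary -/
theorem energy_disc_le (hΩ : IsOpen Ω)
    (hn : ∀ p ∈ Ω, 0 < n1 * (p.1 - P.1) + n2 * (p.2 - P.2))
    (hU : Tst 1 Ω U) (hσ : 0 < σ) :
    ∫ p in disc P σ, gsq U p ≤ 4 * σ ^ 2 * (lamP Ω * En U
      + Real.sqrt (Qf (lamP Ω) U * (2 * (σ ^ 2)⁻¹ ^ 2 * En U + 8 * (σ ^ 2)⁻¹ ^ 3 * Nm U))) := by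
  have h1 := weighted_energy_le hΩ hn hU hσ
  have czt : Continuous (zt σ P) := (zt_contDiff hσ P (n := 1)).continuous
  have iS : Integrable (fun p => σ ^ 2 * (zt σ P p) ^ 2 * gsq U p) :=
    integrable_of_cont (by have := hU.gsq_cont; fun_prop) hU.gsq_comp.mul_left
  have h2 : ∫ p in disc P σ, gsq U p ≤ ∫ p in disc P σ, 4 * σ ^ 2 * (σ ^ 2 * (zt σ P p) ^ 2 * gsq U p) := by
    apply setIntegral_mono_on (hU.int_gsq le_rfl).integrableOn (iS.const_mul _).integrableOn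
      (disc_open P σ).measurableSet
    intro p hp
    have hp' : d2 P p < σ ^ 2 := hp
    have h3 : 1 ≤ 4 * σ ^ 2 * (σ ^ 2 * (zt σ P p) ^ 2) := by
      unfold zt
      have hpos : 0 < σ ^ 2 + d2 P p := by have := d2_nonneg P p; positivity
      rw [inv_pow, show 4 * σ ^ 2 * (σ ^ 2 * ((σ ^ 2 + d2 P p) ^ 2)⁻¹)
        = (4 * σ ^ 4) / (σ ^ 2 + d2 P p) ^ 2 by ring]
      rw [le_div_iff₀ (by positivity)]
      have := d2_nonneg P p
      nlinarith
    have hg := gsq_nonneg U p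
    nlinarith
  have h3 : ∫ p in disc P σ, 4 * σ ^ 2 * (σ ^ 2 * (zt σ P p) ^ 2 * gsq U p)
      ≤ ∫ p, 4 * σ ^ 2 * (σ ^ 2 * (zt σ P p) ^ 2 * gsq U p) := by
    apply setIntegral_le_integral (iS.const_mul _)
    exact Eventually.of_forall (fun p => by
      have := gsq_nonneg U p
      show 0 ≤ 4 * σ ^ 2 * (σ ^ 2 * (zt σ P p) ^ 2 * gsq U p)
      positivity)
  rw [integral_const_mul (r := 4 * σ ^ 2) (μ := (volume : Measure PP))] at h3
  have h4 := mul_le_mul_of_nonneg_left h1 (show 0 ≤ 4 * σ ^ 2 by positivity)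
  linarith

/-- L2 norm in a disc centred on (or beyond) the boundary -/
theorem L2_disc_le (hn : ∀ p ∈ Ω, 0 < n1 * (p.1 - P.1) + n2 * (p.2 - P.2))
    (hU : Tst 1 Ω U) (hσ : 0 < σ) :
    ∫ p in disc P σ, U p ^ 2 ≤ 2 * σ ^ 2 * En U := by
  have h1 := weighted_L2_le hn hU hσ
  have czt : Continuous (zt σ P) := (zt_contDiff hσ P (n := 1)).continuous
  have iU : Integrable (fun p => zt σ P p * U p ^ 2) :=
    integrable_of_cont (czt.mul (hU.1.continuous.pow 2)) (hasCompactSupport_sq hU.2.1).mul_left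
  have h2 : ∫ p in disc P σ, U p ^ 2 ≤ ∫ p in disc P σ, 2 * σ ^ 2 * (zt σ P p * U p ^ 2) := by
    apply setIntegral_mono_on hU.int_sq.integrableOn (iU.const_mul _).integrableOn
      (disc_open P σ).measurableSet
    intro p hp
    have hp' : d2 P p < σ ^ 2 := hp
    have h3 : 1 ≤ 2 * σ ^ 2 * zt σ P p := by
      unfold zt
      have hpos : 0 < σ ^ 2 + d2 P p := by have := d2_nonneg P p; positivity
      rw [← div_eq_mul_inv, le_div_iff₀ hpos]
      linarith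
    have hg := sq_nonneg (U p)
    nlinarith
  have h3 : ∫ p in disc P σ, 2 * σ ^ 2 * (zt σ P p * U p ^ 2)
      ≤ ∫ p, 2 * σ ^ 2 * (zt σ P p * U p ^ 2) := by
    apply setIntegral_le_integral (iU.const_mul _)
    exact Eventually.of_forall (fun p => by
      have := zt_pos hσ P p
      show 0 ≤ 2 * σ ^ 2 * (zt σ P p * U p ^ 2)
      positivity)
  rw [integral_const_mul (r := 2 * σ ^ 2) (μ := (volume : Measure PP))] at h3
  have h4 := mul_le_mul_of_nonneg_left h1 (show 0 ≤ 2 * σ ^ 2 by positivity)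
  linarith

end

end

end Pool.Agent.MP70c477
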