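import Pool.Agent.MP70c477.APos

set_option autoImplicit false
set_option linter.unusedVariables false

open MeasureTheory Set Filter Topology ContinuousLinearMap
open scoped Convolution ENNReal NNReal Pointwise

namespace Pool.Agent.MP70c477

noncomputable section

lemma hasDerivAt_posp (n : ℕ) (t : ℝ) :
    HasDerivAt (fun t : ℝ => (max 0 t) ^ (n + 2)) ((n + 2) * (max 0 t) ^ (n + 1)) t := by
  rcases lt_trichotomy t 0 with h | h | h
  · have hev : (fun t : ℝ => (max 0 t) ^ (n + 2)) =ᶠ[𝓝 t] fun _ => 0 := by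
      filter_upwards [gt_mem_nhds h] with s hs
      rw [max_eq_left hs.le]; simp
    rw [max_eq_left h.le]
    simpa using (hasDerivAt_const t (0:ℝ)).congr_of_eventuallyEq hev
  · subst h
    simp only [max_self, ne_eq, Nat.add_eq_zero_iff, one_ne_zero, and_false, not_false_eq_true,
      zero_pow, mul_zero]
    rw [hasDerivAt_iff_isLittleO]
    simp only [max_self, ne_eq, Nat.add_eq_zero_iff, OfNat.ofNat_ne_zero, and_false,
      not_false_eq_true, zero_pow, sub_zero, smul_eq_mul, mul_zero]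
    have h1 : (fun t : ℝ => (max 0 t) ^ (n + 2)) =O[𝓝 0] fun t : ℝ => t ^ (n + 2) := by
      apply Asymptotics.IsBigO.of_bound 1
      filter_upwards with s
      rw [one_mul, norm_pow, norm_pow]
      apply pow_le_pow_left₀ (norm_nonneg _)
      rw [Real.norm_eq_abs, Real.norm_eq_abs, abs_of_nonneg (le_max_left _ _)]
      exact max_le (abs_nonneg _) (le_abs_self _)
    refine h1.trans_isLittleO ?_
    have h2 := Asymptotics.isLittleO_pow_pow (𝕜 := ℝ) (show 1 < n + 2 by omega)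
    simpa using h2
  · have hev : (fun t : ℝ => (max 0 t) ^ (n + 2)) =ᶠ[𝓝 t] fun t => t ^ (n + 2) := by
      filter_upwards [lt_mem_nhds h] with s hs
      rw [max_eq_right hs.le]
    rw [max_eq_right h.le]
    have := (hasDerivAt_pow (n + 2) t).congr_of_eventuallyEq hev
    refine this.congr_deriv ?_
    push_cast; ring_nf

/-- the positive part of `R² - |p-c|²` -/
def mb (R : ℝ) (c p : PP) : ℝ := max 0 (R ^ 2 - d2 c p)

lemma mb_nonneg (R : ℝ) (c p : PP) : 0 ≤ mb R c p := le_max_left _ _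
lemma mb_le (R : ℝ) (c p : PP) : mb R c p ≤ R ^ 2 := by
  unfold mb; have := d2_nonneg c p
  exact max_le (sq_nonneg _) (by linarith)

lemma mb_cont (R : ℝ) (c : PP) : Continuous (mb R c) := by
  unfold mb d2; fun_prop

def dl (c p : PP) : PP →L[ℝ] ℝ := (-(2 * (p.1 - c.1))) • ContinuousLinearMap.fst ℝ ℝ ℝ
      + (-(2 * (p.2 - c.2))) • ContinuousLinearMap.snd ℝ ℝ ℝ

lemma dl_ex (c p : PP) : dl c p ex = -(2 * (p.1 - c.1)) := by simp [dl, ex]
lemma dl_ey (c p : PP) : dl c p ey = -(2 * (p.2 - c.2)) := by simp [dl, ey]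

lemma hasFDerivAt_Rd2 (R : ℝ) (c p : PP) : HasFDerivAt (fun p => R ^ 2 - d2 c p) (dl c p) p := by
  have h1 := ((hasFDerivAt_fst_sub c.1 p).pow 2)
  have h2 := ((hasFDerivAt_snd_sub c.2 p).pow 2)
  have h3 : HasFDerivAt (fun p : PP => R ^ 2 - ((p.1 - c.1) ^ 2 + (p.2 - c.2) ^ 2)) _ p :=
    (h1.add h2).const_sub (R ^ 2)
  refine h3.congr_fderiv ?_
  unfold dl
  ext <;> simp

lemma hasFDerivAt_mb_pow (R : ℝ) (c p : PP) (n : ℕ) :
    HasFDerivAt (fun p => mb R c p ^ (n + 2)) (((n + 2) * mb R c p ^ (n + 1)) • dl c p) p := by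
  have h := (hasDerivAt_posp n (R ^ 2 - d2 c p)).comp_hasFDerivAt p (hasFDerivAt_Rd2 R c p)
  exact h

lemma dl_cont (c : PP) : Continuous (dl c) := by
  unfold dl; fun_prop

lemma contDiff_mb_pow (R : ℝ) (c : PP) (n : ℕ) : ContDiff ℝ 1 (fun p => mb R c p ^ (n + 2)) := by
  rw [contDiff_one_iff_fderiv]
  refine ⟨fun p => (hasFDerivAt_mb_pow R c p n).differentiableAt, ?_⟩
  have : fderiv ℝ (fun p => mb R c p ^ (n + 2)) = fun p => ((n + 2) * mb R c p ^ (n + 1)) • dl c p := by
    ext1 p; exact (hasFDerivAt_mb_pow R c p n).fderiv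
  rw [this]
  have h1 := mb_cont R c
  have h2 := dl_cont c
  fun_prop

/-- the barrier -/
def bw (R : ℝ) (c p : PP) : ℝ := mb R c p ^ 4

lemma closedDisc_compact (R : ℝ) (c : PP) : IsCompact {p : PP | d2 c p ≤ R ^ 2} := by
  apply Metric.isCompact_of_isClosed_isBounded
  · exact isClosed_le (by unfold d2; fun_prop) continuous_const
  · rw [Metric.isBounded_iff_subset_closedBall c]
    refine ⟨|R|, ?_⟩
    intro p hp
    have hp' : (p.1 - c.1) ^ 2 + (p.2 - c.2) ^ 2 ≤ R ^ 2 := hp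
    rw [Metric.mem_closedBall, Prod.dist_eq]
    apply max_le
    · rw [Real.dist_eq]
      apply sq_le_sq.1
      nlinarith [sq_nonneg (p.2 - c.2)]
    · rw [Real.dist_eq]
      apply sq_le_sq.1
      nlinarith [sq_nonneg (p.1 - c.1)]

lemma bw_tst {Ω : Set PP} {R : ℝ} {c : PP} (hR : 0 < R) (h : ∀ p, d2 c p ≤ R ^ 2 → p ∈ Ω) :
    Tst 1 Ω (bw R c) := by
  have hsupp : tsupport (bw R c) ⊆ {p : PP | d2 c p ≤ R ^ 2} := by
    apply closure_minimal _ (closedDisc_compact R c).isClosed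
    intro p hp
    by_contra hcon
    apply hp
    have : R ^ 2 - d2 c p ≤ 0 := by
      have : ¬ d2 c p ≤ R ^ 2 := hcon
      linarith
    unfold bw mb
    rw [max_eq_left this]; simp
  refine ⟨contDiff_mb_pow R c 2, ?_, fun p hp => h p (hsupp hp)⟩
  exact (closedDisc_compact R c).of_isClosed_subset (isClosed_tsupport _) hsupp

lemma bw_fderiv (R : ℝ) (c p v : PP) : fderiv ℝ (bw R c) p v = 4 * mb R c p ^ 3 * dl c p v := by
  have := (hasFDerivAt_mb_pow R c p 2).fderiv
  have h2 : fderiv ℝ (bw R c) p = _ := this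
  rw [h2]; simp; norm_num

/-- integration by parts in one direction -/
lemma ibp_dir {Ω : Set PP} {u f : PP → ℝ} (hu : Tst 1 Ω u) (hf : ContDiff ℝ 1 f) (v : PP) :
    ∫ p, f p * fderiv ℝ u p v = - ∫ p, fderiv ℝ f p v * u p := by
  have cf : Continuous (fun p => fderiv ℝ f p v) :=
    (hf.continuous_fderiv (by simp)).clm_apply continuous_const
  have cu := hu.cont_fderiv le_rfl v
  have cU := hu.1.continuous
  have cF := hf.continuous
  apply integral_mul_fderiv_eq_neg_fderiv_mul_of_integrable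
  · exact integrable_of_cont (by fun_prop) hu.2.1.mul_left
  · exact integrable_of_cont (by fun_prop) (hu.comp_fderiv v).mul_left
  · exact integrable_of_cont (by fun_prop) hu.2.1.mul_left
  · intro p _; exact hf.differentiable (by simp) p
  · intro p _; exact hu.1.differentiable (by simp) p

lemma barrier_ineq {Ω : Set PP} (hΩ : IsOpen Ω) {R : ℝ} {c : PP} (hR : 0 < R)
    (h : ∀ p, d2 c p ≤ R ^ 2 → p ∈ Ω) {u : PP → ℝ} (hu : Tst 1 Ω u) (hu0 : ∀ p, 0 ≤ u p) :
    lamP Ω * ∫ p, u p * bw R c p ≤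
      Real.sqrt (Qf (lamP Ω) u * Qf (lamP Ω) (bw R c)) + 16 * R ^ 6 * ∫ p in disc c (R / 2), u p := by
  set l := lamP Ω with hl
  have hw := bw_tst hR h
  have hB := Bf_sq_le hΩ (le_refl (lamP Ω)) hu hw
  have hB2 : |Bf l u (bw R c)| ≤ Real.sqrt (Qf l u * Qf l (bw R c)) := Real.abs_le_sqrt hB
  -- compute the bilinear form
  have cu := hu.1.continuous
  have hmc := mb_cont R c
  set f1 : PP → ℝ := fun p => (-(8 * (p.1 - c.1))) * mb R c p ^ 3 with hf1
  set f2 : PP → ℝ := fun p => (-(8 * (p.2 - c.2))) * mb R c p ^ 3 with hf2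
  have hf1s : ContDiff ℝ 1 f1 := by
    rw [hf1]
    have := contDiff_mb_pow R c 1
    exact ContDiff.mul (by fun_prop) this
  have hf2s : ContDiff ℝ 1 f2 := by
    rw [hf2]
    have := contDiff_mb_pow R c 1
    exact ContDiff.mul (by fun_prop) this
  have hf1d : ∀ p, fderiv ℝ f1 p ex = -8 * mb R c p ^ 3 + 48 * (p.1 - c.1) ^ 2 * mb R c p ^ 2 := by
    intro p
    have h1 : HasFDerivAt (fun p : PP => -(8 * (p.1 - c.1))) _ p :=
      ((hasFDerivAt_fst_sub c.1 p).const_mul 8).neg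
    have h2 := h1.mul (hasFDerivAt_mb_pow R c p 1)
    have h3 : fderiv ℝ f1 p = _ := h2.fderiv
    rw [h3]
    simp [dl_ex]
    simp [ex]
    ring
  have hf2d : ∀ p, fderiv ℝ f2 p ey = -8 * mb R c p ^ 3 + 48 * (p.2 - c.2) ^ 2 * mb R c p ^ 2 := by
    intro p
    have h1 : HasFDerivAt (fun p : PP => -(8 * (p.2 - c.2))) _ p :=
      ((hasFDerivAt_snd_sub c.2 p).const_mul 8).neg
    have h2 := h1.mul (hasFDerivAt_mb_pow R c p 1)
    have h3 : fderiv ℝ f2 p = _ := h2.fderiv
    rw [h3]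
    simp [dl_ey]
    simp [ey]
    ring
  have e1 := ibp_dir hu hf1s ex
  have e2 := ibp_dir hu hf2s ey
  have cx := hu.cont_fderiv le_rfl ex
  have cy := hu.cont_fderiv le_rfl ey
  have cf1 := hf1s.continuous
  have cf2 := hf2s.continuous
  have i1 : Integrable (fun p => f1 p * fderiv ℝ u p ex) :=
    integrable_of_cont (by fun_prop) (hu.comp_fderiv ex).mul_left
  have i2 : Integrable (fun p => f2 p * fderiv ℝ u p ey) :=
    integrable_of_cont (by fun_prop) (hu.comp_fderiv ey).mul_left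
  have i3 : Integrable (fun p => u p * bw R c p) := hu.int_prod hw
  have i4 : Integrable (fun p => fderiv ℝ f1 p ex * u p) := by
    apply integrable_of_cont _ hu.2.1.mul_left
    simp_rw [hf1d]; fun_prop
  have i5 : Integrable (fun p => fderiv ℝ f2 p ey * u p) := by
    apply integrable_of_cont _ hu.2.1.mul_left
    simp_rw [hf2d]; fun_prop
  have hBeq : Bf l u (bw R c) = -(∫ p, fderiv ℝ f1 p ex * u p) - (∫ p, fderiv ℝ f2 p ey * u p)
      - l * ∫ p, u p * bw R c p := by
    have : Bf l u (bw R c) = ∫ p, ((f1 p * fderiv ℝ u p ex + f2 p * fderiv ℝ u p ey)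
        - l * (u p * bw R c p)) := by
      unfold Bf
      congr 1; ext p
      rw [bw_fderiv, bw_fderiv, dl_ex, dl_ey, hf1, hf2]
      ring
    have s1 : ∫ p, ((f1 p * fderiv ℝ u p ex + f2 p * fderiv ℝ u p ey)
        - l * (u p * bw R c p)) = (∫ p, (f1 p * fderiv ℝ u p ex + f2 p * fderiv ℝ u p ey))
        - ∫ p, l * (u p * bw R c p) := integral_sub (i1.add i2) (i3.const_mul l)
    have s2 : ∫ p, (f1 p * fderiv ℝ u p ex + f2 p * fderiv ℝ u p ey) =
        (∫ p, f1 p * fderiv ℝ u p ex) + ∫ p, f2 p * fderiv ℝ u p ey := integral_add i1 i2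
    rw [this, s1, s2, e1, e2, integral_const_mul]
    ring
  -- the lower bound for the Laplacian
  have iu : Integrable (fun p => u p) := integrable_of_cont cu hu.2.1
  have hm := (disc_open c (R / 2)).measurableSet
  have hlap : -(∫ p, fderiv ℝ f1 p ex * u p) - (∫ p, fderiv ℝ f2 p ey * u p) ≤
      16 * R ^ 6 * ∫ p in disc c (R / 2), u p := by
    have i4n : Integrable (fun p => -(fderiv ℝ f1 p ex * u p)) := i4.neg
    have s3 : ∫ p, (-(fderiv ℝ f1 p ex * u p) - fderiv ℝ f2 p ey * u p) =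
        -(∫ p, fderiv ℝ f1 p ex * u p) - (∫ p, fderiv ℝ f2 p ey * u p) := by
      rw [← integral_neg]; exact integral_sub i4n i5
    rw [← s3, ← integral_indicator hm, ← integral_const_mul]
    apply integral_mono (i4n.sub i5) ((iu.indicator hm).const_mul _)
    intro p
    show -(fderiv ℝ f1 p ex * u p) - fderiv ℝ f2 p ey * u p ≤
      16 * R ^ 6 * (disc c (R / 2)).indicator (fun p => u p) p
    rw [hf1d, hf2d]
    have hup := hu0 p
    have hd := d2_nonneg c p
    have hdd : d2 c p = (p.1 - c.1) ^ 2 + (p.2 - c.2) ^ 2 := rfl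
    set m := mb R c p with hmdef
    have hm0 : 0 ≤ m := mb_nonneg R c p
    have hmle : m ≤ R ^ 2 := mb_le R c p
    have hexp : -((-8 * m ^ 3 + 48 * (p.1 - c.1) ^ 2 * m ^ 2) * u p) -
        (-8 * m ^ 3 + 48 * (p.2 - c.2) ^ 2 * m ^ 2) * u p = 16 * m ^ 2 * (m - 3 * d2 c p) * u p := by
      rw [hdd]; ring
    rw [hexp]
    by_cases hp : p ∈ disc c (R / 2)
    · rw [indicator_of_mem hp]
      apply mul_le_mul_of_nonneg_right _ hup
      have h1 : m - 3 * d2 c p ≤ R ^ 2 := by linarith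
      have h2 : m ^ 2 ≤ (R ^ 2) ^ 2 := by gcongr
      calc 16 * m ^ 2 * (m - 3 * d2 c p) ≤ 16 * m ^ 2 * R ^ 2 :=
            mul_le_mul_of_nonneg_left h1 (by positivity)
        _ ≤ 16 * (R ^ 2) ^ 2 * R ^ 2 := by gcongr
        _ = _ := by ring
    · rw [indicator_of_notMem hp, mul_zero]
      have hd2 : (R / 2) ^ 2 ≤ d2 c p := not_lt.1 hp
      rcases le_or_gt (R ^ 2 - d2 c p) 0 with h3 | h3
      · have : m = 0 := by rw [hmdef]; unfold mb; exact max_eq_left h3
        rw [this]; simp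
      · have hmeq : m = R ^ 2 - d2 c p := by rw [hmdef]; unfold mb; exact max_eq_right h3.le
        have h4 : m - 3 * d2 c p ≤ 0 := by rw [hmeq]; nlinarith
        have h5 : 16 * m ^ 2 * (m - 3 * d2 c p) ≤ 0 :=
          mul_nonpos_of_nonneg_of_nonpos (by positivity) h4
        exact mul_nonpos_of_nonpos_of_nonneg h5 hup
  have h6 := (abs_le.1 hB2).1
  rw [hBeq] at h6
  linarith

end

end Pool.Agent.MP70c477
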