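import Pool.Agent.MP70c477.Defs

/-!
# Lines in direction `θ` and the averaging formula
-/

namespace Pool.MP70c477

open MeasureTheory Set Filter Topology
open scoped ENNReal RealInnerProductSpace

/-- unit vector in direction `θ` -/
noncomputable def dirE (θ : ℝ) : Pl := !₂[Real.cos θ, Real.sin θ]

/-- unit normal to direction `θ` -/
noncomputable def dirN (θ : ℝ) : Pl := !₂[-Real.sin θ, Real.cos θ]

/-- the point `p n(θ) + t e(θ)` -/
noncomputable def lin (θ p t : ℝ) : Pl := p • dirN θ + t • dirE θ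

@[simp] lemma dirE_zero (θ : ℝ) : dirE θ 0 = Real.cos θ := by simp [dirE]
@[simp] lemma dirE_one (θ : ℝ) : dirE θ 1 = Real.sin θ := by simp [dirE]
@[simp] lemma dirN_zero (θ : ℝ) : dirN θ 0 = -Real.sin θ := by simp [dirN]
@[simp] lemma dirN_one (θ : ℝ) : dirN θ 1 = Real.cos θ := by simp [dirN]

lemma inner_pl (x y : Pl) : ⟪x, y⟫ = x 0 * y 0 + x 1 * y 1 := by
  simp [PiLp.inner_apply, Fin.sum_univ_two]; ring

lemma norm_sq_pl (x : Pl) : ‖x‖ ^ 2 = x 0 ^ 2 + x 1 ^ 2 := by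
  rw [EuclideanSpace.norm_sq_eq, Fin.sum_univ_two]; simp

@[simp] lemma norm_dirE (θ : ℝ) : ‖dirE θ‖ = 1 := by
  have h := norm_sq_pl (dirE θ)
  have h2 : ‖dirE θ‖ ^ 2 = 1 := by rw [h]; simp
  nlinarith [norm_nonneg (dirE θ), sq_nonneg (‖dirE θ‖ - 1)]

@[simp] lemma norm_dirN (θ : ℝ) : ‖dirN θ‖ = 1 := by
  have h := norm_sq_pl (dirN θ)
  have h2 : ‖dirN θ‖ ^ 2 = 1 := by rw [h]; simp
  nlinarith [norm_nonneg (dirN θ), sq_nonneg (‖dirN θ‖ - 1)]

@[simp] lemma inner_dirE_dirN (θ : ℝ) : ⟪dirE θ, dirN θ⟫ = 0 := by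
  rw [inner_pl]; simp; ring

@[simp] lemma inner_dirN_dirE (θ : ℝ) : ⟪dirN θ, dirE θ⟫ = 0 := by
  rw [inner_pl]; simp; ring

@[simp] lemma inner_dirN_dirN (θ : ℝ) : ⟪dirN θ, dirN θ⟫ = 1 := by
  rw [real_inner_self_eq_norm_sq]; simp

@[simp] lemma inner_dirE_dirE (θ : ℝ) : ⟪dirE θ, dirE θ⟫ = 1 := by
  rw [real_inner_self_eq_norm_sq]; simp

@[simp] lemma inner_lin_dirN (θ p t : ℝ) : ⟪lin θ p t, dirN θ⟫ = p := by
  simp [lin, inner_add_left, inner_smul_left]

@[simp] lemma inner_lin_dirE (θ p t : ℝ) : ⟪lin θ p t, dirE θ⟫ = t := by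
  simp [lin, inner_add_left, inner_smul_left]

lemma lin_of_inner (θ : ℝ) (x : Pl) : lin θ ⟪x, dirN θ⟫ ⟪x, dirE θ⟫ = x := by
  ext i
  have h := Real.sin_sq_add_cos_sq θ
  fin_cases i
  · simp [lin, inner_pl]
    linear_combination (x 0) * h
  · simp [lin, inner_pl]
    linear_combination (x 1) * h

lemma continuous_dirE : Continuous dirE := by
  refine (PiLp.continuous_toLp 2 _).comp (continuous_pi fun i => ?_)
  fin_cases i <;> simp <;> fun_prop

lemma continuous_dirN : Continuous dirN := by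
  refine (PiLp.continuous_toLp 2 _).comp (continuous_pi fun i => ?_)
  fin_cases i <;> simp <;> fun_prop

lemma continuous_lin : Continuous (fun q : ℝ × ℝ × ℝ => lin q.1 q.2.1 q.2.2) := by
  unfold lin
  have h1 := continuous_dirE
  have h2 := continuous_dirN
  fun_prop

/-- the orthonormal basis `(n(θ), e(θ))` -/
noncomputable def rotBasis (θ : ℝ) : OrthonormalBasis (Fin 2) ℝ Pl :=
  (basisOfOrthonormalOfCardEqFinrank (v := ![dirN θ, dirE θ]) (by
    rw [orthonormal_iff_ite]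
    intro i j
    fin_cases i <;> fin_cases j <;> simp) (by simp)).toOrthonormalBasis (by
    rw [coe_basisOfOrthonormalOfCardEqFinrank, orthonormal_iff_ite]
    intro i j
    fin_cases i <;> fin_cases j <;> simp)

lemma rotBasis_apply (θ : ℝ) : ⇑(rotBasis θ) = ![dirN θ, dirE θ] := by
  simp [rotBasis]

/-- `(p, t) ↦ lin θ p t` as a measurable equivalence. -/
noncomputable def linEquiv (θ : ℝ) : ℝ × ℝ ≃ᵐ Pl :=
  (MeasurableEquiv.finTwoArrow (α := ℝ)).symm.trans
    ((MeasurableEquiv.toLp 2 (Fin 2 → ℝ)).trans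
      (rotBasis θ).repr.symm.toHomeomorph.toMeasurableEquiv)

lemma linEquiv_apply (θ : ℝ) (q : ℝ × ℝ) : linEquiv θ q = lin θ q.1 q.2 := by
  have : linEquiv θ q = (rotBasis θ).repr.symm (WithLp.toLp 2 ![q.1, q.2]) := by
    simp [linEquiv]
  rw [this, ← OrthonormalBasis.sum_repr_symm]
  simp [Fin.sum_univ_two, rotBasis_apply, lin]

lemma measurePreserving_linEquiv (θ : ℝ) : MeasurePreserving (linEquiv θ) := by
  have h1 : MeasurePreserving (MeasurableEquiv.finTwoArrow (α := ℝ)).symm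
      (volume : Measure (ℝ × ℝ)) (volume : Measure (Fin 2 → ℝ)) :=
    (volume_preserving_finTwoArrow ℝ).symm
  have h2 : MeasurePreserving (MeasurableEquiv.toLp 2 (Fin 2 → ℝ)) :=
    EuclideanSpace.volume_preserving_symm_measurableEquiv_toLp (Fin 2) |>.symm _ |> fun h => by
      simpa using h
  have h3 : MeasurePreserving ((rotBasis θ).repr.symm.toHomeomorph.toMeasurableEquiv) :=
    (rotBasis θ).measurePreserving_repr_symm
  exact (h3.comp h2).comp h1

lemma lintegral_lin {f : Pl → ℝ≥0∞} (hf : Measurable f) (θ : ℝ) :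
    ∫⁻ x, f x = ∫⁻ p, ∫⁻ t, f (lin θ p t) := by
  rw [← (measurePreserving_linEquiv θ).lintegral_comp hf]
  rw [Measure.volume_eq_prod, lintegral_prod _ ?_]
  · simp only [linEquiv_apply]
  · exact (hf.comp (linEquiv θ).measurable).aemeasurable

/-! ### The angular average -/

lemma integral_abs_cos_shift (φ : ℝ) :
    ∫ θ in (0)..(2 * Real.pi), |Real.cos (θ - φ)| = 4 := by
  have hper : Function.Periodic (fun θ : ℝ => |Real.cos θ|) (2 * Real.pi) := by
    intro x; simp [Real.cos_add_two_pi]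
  have h1 : ∫ θ in (0)..(2 * Real.pi), |Real.cos (θ - φ)| =
      ∫ θ in (-φ)..(-φ + 2 * Real.pi), |Real.cos θ| := by
    rw [intervalIntegral.integral_comp_sub_right (fun θ => |Real.cos θ|) φ]
    congr 1 <;> ring
  rw [h1, hper.intervalIntegral_add_eq (-φ) (-(Real.pi / 2))]
  have hi : ∀ a b : ℝ, IntervalIntegrable (fun θ => |Real.cos θ|) volume a b := fun a b =>
    (Real.continuous_cos.abs).intervalIntegrable a b
  rw [← intervalIntegral.integral_add_adjacent_intervals (b := Real.pi / 2) (hi _ _) (hi _ _)]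
  have e1 : ∫ θ in (-(Real.pi / 2))..(Real.pi / 2), |Real.cos θ| = 2 := by
    have : ∫ θ in (-(Real.pi / 2))..(Real.pi / 2), |Real.cos θ| =
        ∫ θ in (-(Real.pi / 2))..(Real.pi / 2), Real.cos θ := by
      apply intervalIntegral.integral_congr
      intro x hx
      rw [uIcc_of_le (by linarith [Real.pi_pos])] at hx
      exact abs_of_nonneg (Real.cos_nonneg_of_mem_Icc hx)
    rw [this, integral_cos]
    simp; norm_num
  have e2 : ∫ θ in (Real.pi / 2)..(-(Real.pi / 2) + 2 * Real.pi), |Real.cos θ| = 2 := by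
    have : ∫ θ in (Real.pi / 2)..(-(Real.pi / 2) + 2 * Real.pi), |Real.cos θ| =
        ∫ θ in (Real.pi / 2)..(-(Real.pi / 2) + 2 * Real.pi), -Real.cos θ := by
      apply intervalIntegral.integral_congr
      intro x hx
      rw [uIcc_of_le (by linarith [Real.pi_pos])] at hx
      exact abs_of_nonpos (Real.cos_nonpos_of_pi_div_two_le_of_le hx.1 (by linarith [hx.2]))
    rw [this, intervalIntegral.integral_neg, integral_cos]
    have : -(Real.pi / 2) + 2 * Real.pi = Real.pi + Real.pi / 2 := by ring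
    rw [this, Real.sin_add]
    simp; norm_num
  rw [e1, e2]; norm_num

lemma exists_polar (a b : ℝ) : ∃ φ : ℝ, a = Real.sqrt (a ^ 2 + b ^ 2) * Real.cos φ ∧
    b = Real.sqrt (a ^ 2 + b ^ 2) * Real.sin φ := by
  refine ⟨Complex.arg ⟨a, b⟩, ?_, ?_⟩
  · have h := Complex.norm_mul_cos_arg ⟨a, b⟩
    rw [Complex.norm_def, Complex.normSq_mk] at h
    simp only at h
    rw [show a * a + b * b = a ^ 2 + b ^ 2 by ring] at h
    exact h.symm
  · have h := Complex.norm_mul_sin_arg ⟨a, b⟩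
    rw [Complex.norm_def, Complex.normSq_mk] at h
    simp only at h
    rw [show a * a + b * b = a ^ 2 + b ^ 2 by ring] at h
    exact h.symm

lemma integral_abs_lincomb (a b : ℝ) :
    ∫ θ in (0)..(2 * Real.pi), |a * Real.cos θ + b * Real.sin θ| =
      4 * Real.sqrt (a ^ 2 + b ^ 2) := by
  obtain ⟨φ, h1, h2⟩ := exists_polar a b
  set ρ := Real.sqrt (a ^ 2 + b ^ 2) with hρ
  have hρ0 : 0 ≤ ρ := Real.sqrt_nonneg _
  have : ∀ θ, |a * Real.cos θ + b * Real.sin θ| = ρ * |Real.cos (θ - φ)| := by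
    intro θ
    rw [h1, h2, Real.cos_sub, ← abs_of_nonneg hρ0, ← abs_mul, abs_of_nonneg hρ0]
    congr 1; ring
  simp only [this]
  rw [intervalIntegral.integral_const_mul, integral_abs_cos_shift]; ring

lemma clm_dirE (L : Pl →L[ℝ] ℝ) (θ : ℝ) :
    L (dirE θ) = L !₂[1, 0] * Real.cos θ + L !₂[0, 1] * Real.sin θ := by
  have : dirE θ = Real.cos θ • (!₂[1, 0] : Pl) + Real.sin θ • (!₂[0, 1] : Pl) := by
    ext i; fin_cases i <;> simp [dirE]
  rw [this, map_add, map_smul, map_smul]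
  simp [mul_comm]

lemma norm_clm (L : Pl →L[ℝ] ℝ) :
    ‖L‖ = Real.sqrt ((L !₂[1, 0]) ^ 2 + (L !₂[0, 1]) ^ 2) := by
  obtain ⟨v, rfl⟩ := (InnerProductSpace.toDual ℝ Pl).surjective L
  rw [LinearIsometryEquiv.norm_map, EuclideanSpace.norm_eq, Fin.sum_univ_two]
  simp [InnerProductSpace.toDual_apply_apply, inner_pl]

/-- The average of `|L(e(θ))|` over the circle. -/
lemma lintegral_abs_clm (L : Pl →L[ℝ] ℝ) :
    ∫⁻ θ in Ioc 0 (2 * Real.pi), ‖L (dirE θ)‖ₑ = 4 * ‖L‖ₑ := by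
  have h0 : (0 : ℝ) ≤ 2 * Real.pi := by positivity
  have h1 : ∫ θ in Ioc 0 (2 * Real.pi), ‖L (dirE θ)‖ = 4 * ‖L‖ := by
    rw [← intervalIntegral.integral_of_le h0]
    simp only [clm_dirE, Real.norm_eq_abs]
    rw [integral_abs_lincomb, norm_clm]
  have hc : Continuous fun θ => L (dirE θ) := L.continuous.comp continuous_dirE
  have hi : Integrable (fun θ => L (dirE θ)) (volume.restrict (Ioc 0 (2 * Real.pi))) :=
    (hc.intervalIntegrable 0 (2 * Real.pi)).1
  rw [← ofReal_integral_norm_eq_lintegral_enorm hi, h1, ENNReal.ofReal_mul (by norm_num),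
    ofReal_norm]
  norm_num

end Pool.MP70c477
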