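import Pool.Agent.MP70c477.AMollify
import Pool.Agent.MP70c477.Slice

set_option autoImplicit false
set_option linter.unusedVariables false

open MeasureTheory Set Filter Topology ContinuousLinearMap
open scoped Convolution ENNReal NNReal Pointwise

namespace Pool.Agent.MP70c477

open Pool.MP70c477

noncomputable section

/-- the linear isomorphism between pairs and the Euclidean plane -/
def EF : PP ≃L[ℝ] Pl :=
  ((EuclideanSpace.equiv (Fin 2) ℝ).trans (ContinuousLinearEquiv.finTwoArrow ℝ ℝ)).symm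

lemma EF_symm_apply (x : Pl) : EF.symm x = (x 0, x 1) := rfl

lemma EF_apply (v : PP) : EF v = !₂[v.1, v.2] := by
  apply EF.symm.injective
  rw [EF.symm_apply_apply, EF_symm_apply]
  simp

@[simp] lemma EF_apply_zero (v : PP) : (EF v) 0 = v.1 := by rw [EF_apply]; simp
@[simp] lemma EF_apply_one (v : PP) : (EF v) 1 = v.2 := by rw [EF_apply]; simp

lemma EF_symm_mp : MeasurePreserving (EF.symm : Pl → PP) volume volume := by
  have h1 : MeasurePreserving (@WithLp.ofLp 2 (Fin 2 → ℝ)) := PiLp.volume_preserving_ofLp (Fin 2)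
  have h2 : MeasurePreserving (MeasurableEquiv.finTwoArrow : (Fin 2 → ℝ) ≃ᵐ ℝ × ℝ)
    volume volume := volume_preserving_finTwoArrow ℝ
  exact h2.comp h1

lemma EF_me : MeasurableEmbedding (EF : PP → Pl) := EF.toHomeomorph.measurableEmbedding
lemma EF_symm_me : MeasurableEmbedding (EF.symm : Pl → PP) :=
  EF.symm.toHomeomorph.measurableEmbedding

lemma EF_mp : MeasurePreserving (EF : PP → Pl) volume volume := by
  have h := EF_symm_mp
  exact MeasurePreserving.symm (EF.symm.toHomeomorph.toMeasurableEquiv) h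

lemma integral_EF (f : Pl → ℝ) : ∫ v, f (EF v) = ∫ x, f x :=
  EF_mp.integral_comp EF_me f

lemma EF_ex : EF ex = !₂[1, 0] := by rw [EF_apply]; simp [ex]
lemma EF_ey : EF ey = !₂[0, 1] := by rw [EF_apply]; simp [ey]

lemma gsq_comp_EF {u : Pl → ℝ} (hu : Differentiable ℝ u) (v : PP) :
    gsq (fun v => u (EF v)) v = ‖fderiv ℝ u (EF v)‖ ^ 2 := by
  have h1 : fderiv ℝ (fun v => u (EF v)) v = (fderiv ℝ u (EF v)).comp (EF : PP →L[ℝ] Pl) := by
    have h2 : HasFDerivAt (EF : PP → Pl) (EF : PP →L[ℝ] Pl) v := EF.hasFDerivAt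
    exact ((hu (EF v)).hasFDerivAt.comp v h2).fderiv
  unfold gsq
  rw [h1, norm_clm, Real.sq_sqrt (by positivity)]
  simp only [ContinuousLinearMap.comp_apply, ContinuousLinearEquiv.coe_coe, EF_ex, EF_ey]

lemma tst_of_isTest {Ω : Set Pl} {u : Pl → ℝ} (hu : IsTest Ω u) :
    Tst ((⊤ : ℕ∞) : WithTop ℕ∞) (EF ⁻¹' Ω) (fun v => u (EF v)) := by
  obtain ⟨h1, h2, h3, -⟩ := hu
  refine ⟨h1.comp EF.contDiff, ?_, ?_⟩
  · exact h2.comp_homeomorph EF.toHomeomorph
  · have : tsupport (fun v => u (EF v)) ⊆ EF ⁻¹' (tsupport u) := by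
      apply closure_minimal _ ((isClosed_tsupport u).preimage EF.continuous)
      intro v hv
      exact subset_tsupport u hv
    exact this.trans (preimage_mono h3)

lemma isTest_of_tst {Ω : Set Pl} {U : PP → ℝ} (hU : Tst ((⊤ : ℕ∞) : WithTop ℕ∞) (EF ⁻¹' Ω) U)
    (h0 : U ≠ 0) : IsTest Ω (fun x => U (EF.symm x)) := by
  obtain ⟨h1, h2, h3⟩ := hU
  refine ⟨h1.comp EF.symm.contDiff, ?_, ?_, ?_⟩
  · exact h2.comp_homeomorph EF.symm.toHomeomorph
  · have h4 : tsupport (fun x => U (EF.symm x)) ⊆ EF.symm ⁻¹' (tsupport U) := by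
      apply closure_minimal _ ((isClosed_tsupport U).preimage EF.symm.continuous)
      intro v hv
      exact subset_tsupport U hv
    refine h4.trans ?_
    intro x hx
    have := h3 hx
    simpa using this
  · intro h
    apply h0
    ext v
    have := congrFun h (EF v)
    simpa using this

lemma lam_eq (Ω : Set Pl) : lam Ω = lamP (EF ⁻¹' Ω) := by
  unfold lam lamP
  congr 1
  ext q
  constructor
  · rintro ⟨u, hu, rfl⟩
    refine ⟨fun v => u (EF v), tst_of_isTest hu, ?_, ?_⟩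
    · intro h
      apply hu.2.2.2
      ext x
      have := congrFun h (EF.symm x)
      simpa using this
    · have hd : Differentiable ℝ u := hu.1.differentiable (by simp)
      unfold En Nm
      simp_rw [gsq_comp_EF hd]
      rw [integral_EF (fun x => ‖fderiv ℝ u x‖ ^ 2), integral_EF (fun x => u x ^ 2)]
  · rintro ⟨U, hU, h0, rfl⟩
    have ht := isTest_of_tst hU h0
    refine ⟨fun x => U (EF.symm x), ht, ?_⟩
    have hd : Differentiable ℝ (fun x => U (EF.symm x)) := ht.1.differentiable (by simp)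
    have e1 : (fun v => U (EF.symm (EF v))) = U := by ext v; simp
    have e2 := gsq_comp_EF hd
    simp only [ContinuousLinearEquiv.symm_apply_apply] at e2
    unfold En Nm
    rw [← integral_EF, ← integral_EF]
    simp only [ContinuousLinearEquiv.symm_apply_apply]
    congr 1
    congr 1
    ext v
    exact e2 v

lemma isOpen_EF {Ω : Set Pl} (h : IsOpen Ω) : IsOpen (EF ⁻¹' Ω) := h.preimage EF.continuous

lemma convex_EF {Ω : Set Pl} (h : Convex ℝ Ω) : Convex ℝ (EF ⁻¹' Ω) :=
  h.linear_preimage (EF : PP →ₗ[ℝ] Pl)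

lemma nonempty_EF {Ω : Set Pl} (h : Ω.Nonempty) : (EF ⁻¹' Ω).Nonempty := by
  obtain ⟨x, hx⟩ := h
  exact ⟨EF.symm x, by simpa using hx⟩

lemma isBounded_EF {Ω : Set Pl} (h : Bornology.IsBounded Ω) : Bornology.IsBounded (EF ⁻¹' Ω) := by
  have h1 : EF ⁻¹' Ω = EF.symm '' Ω := by
    ext v
    constructor
    · intro hv; exact ⟨EF v, hv, by simp⟩
    · rintro ⟨x, hx, rfl⟩; simpa using hx
  rw [h1]
  exact (EF.symm : Pl →L[ℝ] PP).lipschitz.isBounded_image h

lemma mem_EF {Ω : Set Pl} {v : PP} : v ∈ EF ⁻¹' Ω ↔ (!₂[v.1, v.2] : Pl) ∈ Ω := by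
  rw [mem_preimage, EF_apply]

end

end Pool.Agent.MP70c477
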