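import Pool.Agent.MP70c477.AMollify

set_option autoImplicit false
set_option linter.unusedVariables false

open MeasureTheory Set Filter Topology ContinuousLinearMap
open scoped Convolution ENNReal NNReal Pointwise

namespace Pool.Agent.MP70c477

noncomputable section

lemma tsupport_add_sub {U W : PP → ℝ} {Ω : Set PP} (hU : tsupport U ⊆ Ω) (hW : tsupport W ⊆ Ω) :
    tsupport (fun p => U p + W p) ⊆ Ω := by
  have h1 : Function.support (fun p => U p + W p) ⊆ tsupport U ∪ tsupport W := by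
    intro p hp
    by_contra hcon
    rw [mem_union, not_or] at hcon
    have h1 : U p = 0 := image_eq_zero_of_notMem_tsupport hcon.1
    have h2 : W p = 0 := image_eq_zero_of_notMem_tsupport hcon.2
    exact hp (by simp [h1, h2])
  have h2 : tsupport (fun p => U p + W p) ⊆ tsupport U ∪ tsupport W :=
    closure_minimal h1 ((isClosed_tsupport U).union (isClosed_tsupport W))
  exact h2.trans (union_subset hU hW)

lemma Tst.add {n : WithTop ℕ∞} {Ω : Set PP} {U W : PP → ℝ} (hU : Tst n Ω U) (hW : Tst n Ω W) :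
    Tst n Ω (fun p => U p + W p) :=
  ⟨hU.1.add hW.1, hU.2.1.add hW.2.1, tsupport_add_sub hU.2.2 hW.2.2⟩

lemma Tst.mul_fun {n : WithTop ℕ∞} {Ω : Set PP} {U : PP → ℝ} (hU : Tst n Ω U) {f : PP → ℝ}
    (hf : ContDiff ℝ n f) : Tst n Ω (fun p => f p * U p) :=
  ⟨hf.mul hU.1, hU.2.1.mul_left, (closure_mono (fun p hp => by
    intro h0
    exact hp (by simp [h0]))).trans hU.2.2⟩

lemma Tst.const_mul {n : WithTop ℕ∞} {Ω : Set PP} {U : PP → ℝ} (hU : Tst n Ω U) (c : ℝ) :
    Tst n Ω (fun p => c * U p) := hU.mul_fun (f := fun _ => c) contDiff_const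

lemma Tst.mono {n : WithTop ℕ∞} {Ω Ω' : Set PP} {U : PP → ℝ} (hU : Tst n Ω U) (h : Ω ⊆ Ω') :
    Tst n Ω' U := ⟨hU.1, hU.2.1, hU.2.2.trans h⟩

lemma Tst.of_le {n m : WithTop ℕ∞} {Ω : Set PP} {U : PP → ℝ} (hU : Tst n Ω U) (h : m ≤ n) :
    Tst m Ω U := ⟨hU.1.of_le h, hU.2.1, hU.2.2⟩

/-- the polarised Dirichlet form minus `lam` times the L2 product -/
def Bf (l : ℝ) (U W : PP → ℝ) : ℝ :=
  ∫ p, ((fderiv ℝ U p ex * fderiv ℝ W p ex + fderiv ℝ U p ey * fderiv ℝ W p ey) - l * (U p * W p))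

def Qf (l : ℝ) (U : PP → ℝ) : ℝ := En U - l * Nm U

lemma Tst.int_prod {n m : WithTop ℕ∞} {Ω : Set PP} {U W : PP → ℝ} (hU : Tst n Ω U)
    (hW : Tst m Ω W) : Integrable (fun p => U p * W p) :=
  integrable_of_cont (hU.1.continuous.mul hW.1.continuous) hU.2.1.mul_right

lemma Tst.int_fprod {n m : WithTop ℕ∞} (hn : 1 ≤ n) (hm : 1 ≤ m) {Ω : Set PP} {U W : PP → ℝ}
    (hU : Tst n Ω U) (hW : Tst m Ω W) (v : PP) :
    Integrable (fun p => fderiv ℝ U p v * fderiv ℝ W p v) :=
  integrable_of_cont ((hU.cont_fderiv hn v).mul (hW.cont_fderiv hm v)) (hU.comp_fderiv v).mul_right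

lemma Qf_add_smul {Ω : Set PP} {U W : PP → ℝ} (l : ℝ) (hU : Tst 1 Ω U) (hW : Tst 1 Ω W) (t : ℝ) :
    Qf l (fun p => U p + t * W p) = Qf l U + 2 * t * Bf l U W + t ^ 2 * Qf l W := by
  have hd : ∀ p v, fderiv ℝ (fun p => U p + t * W p) p v = fderiv ℝ U p v + t * fderiv ℝ W p v := by
    intro p v
    have h1 : HasFDerivAt (fun p => U p + t * W p) (fderiv ℝ U p + t • fderiv ℝ W p) p :=
      ((hU.1.differentiable (by simp) p).hasFDerivAt).add
        (((hW.1.differentiable (by simp) p).hasFDerivAt).const_mul t)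
    rw [h1.fderiv]; simp
  have hEn : En (fun p => U p + t * W p) = En U + 2 * t * (∫ p, (fderiv ℝ U p ex * fderiv ℝ W p ex
      + fderiv ℝ U p ey * fderiv ℝ W p ey)) + t ^ 2 * En W := by
    unfold En
    have hx := hU.int_fprod le_rfl le_rfl hW ex
    have hy := hU.int_fprod le_rfl le_rfl hW ey
    have e : (fun p => gsq (fun p => U p + t * W p) p) = fun p => (gsq U p + 2 * t *
        (fderiv ℝ U p ex * fderiv ℝ W p ex + fderiv ℝ U p ey * fderiv ℝ W p ey))
        + t ^ 2 * gsq W p := by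
      ext p
      unfold gsq
      rw [hd, hd]
      ring
    rw [e, integral_add, integral_add, integral_const_mul, integral_const_mul]
    · exact hU.int_gsq le_rfl
    · exact (hx.add hy).const_mul _
    · exact (hU.int_gsq le_rfl).add ((hx.add hy).const_mul _)
    · exact (hW.int_gsq le_rfl).const_mul _
  have hNm : Nm (fun p => U p + t * W p) = Nm U + 2 * t * (∫ p, U p * W p) + t ^ 2 * Nm W := by
    unfold Nm
    have hx := hU.int_prod hW
    have e : (fun p => (U p + t * W p) ^ 2) = fun p => (U p ^ 2 + 2 * t * (U p * W p))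
        + t ^ 2 * W p ^ 2 := by
      ext p; ring
    rw [e, integral_add, integral_add, integral_const_mul, integral_const_mul]
    · exact hU.int_sq
    · exact hx.const_mul _
    · exact hU.int_sq.add (hx.const_mul _)
    · exact hW.int_sq.const_mul _
  have hB : Bf l U W = (∫ p, (fderiv ℝ U p ex * fderiv ℝ W p ex
      + fderiv ℝ U p ey * fderiv ℝ W p ey)) - l * ∫ p, U p * W p := by
    unfold Bf
    rw [integral_sub, integral_const_mul]
    · exact (hU.int_fprod le_rfl le_rfl hW ex).add (hU.int_fprod le_rfl le_rfl hW ey)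
    · exact (hU.int_prod hW).const_mul _
  unfold Qf
  rw [hEn, hNm, hB]
  ring

lemma sq_le_of_quad {a b c : ℝ} (h : ∀ t : ℝ, 0 ≤ a + 2 * t * b + t ^ 2 * c) : b ^ 2 ≤ a * c := by
  have h1 : ∀ t : ℝ, 0 ≤ c * (t * t) + (2 * b) * t + a := by
    intro t; have := h t; nlinarith
  have h2 := discrim_le_zero h1
  unfold discrim at h2
  nlinarith

/-- Cauchy-Schwarz for the nonnegative form -/
theorem Bf_sq_le {Ω : Set PP} (hΩ : IsOpen Ω) {l : ℝ} (hl : l ≤ lamP Ω) {U W : PP → ℝ}
    (hU : Tst 1 Ω U) (hW : Tst 1 Ω W) :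
    (Bf l U W) ^ 2 ≤ Qf l U * Qf l W := by
  apply sq_le_of_quad
  intro t
  rw [← Qf_add_smul l hU hW t]
  have h1 := lamP_mul_le_C1 hΩ (hU.add (hW.const_mul t))
  unfold Qf
  have h2 := Nm_nonneg (fun p => U p + t * W p)
  nlinarith

/-- the rotation field around `P` -/
def rot (P p : PP) : PP := (-(p.2 - P.2), p.1 - P.1)

lemma rot_eq (P p : PP) : rot P p = (-(p.2 - P.2)) • ex + (p.1 - P.1) • ey := by
  unfold rot ex ey; ext <;> simp

lemma fderiv_rot (G : PP → ℝ) (P p : PP) : fderiv ℝ G p (rot P p)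
    = -(p.2 - P.2) * fderiv ℝ G p ex + (p.1 - P.1) * fderiv ℝ G p ey := by
  rw [rot_eq, map_add, map_smul, map_smul]; simp

lemma hasFDerivAt_fst_sub (c : ℝ) (p : PP) :
    HasFDerivAt (fun p : PP => p.1 - c) (ContinuousLinearMap.fst ℝ ℝ ℝ) p := by
  have := (ContinuousLinearMap.fst ℝ ℝ ℝ).hasFDerivAt (x := p)
  exact this.sub_const c

lemma hasFDerivAt_snd_sub (c : ℝ) (p : PP) :
    HasFDerivAt (fun p : PP => p.2 - c) (ContinuousLinearMap.snd ℝ ℝ ℝ) p := by
  have := (ContinuousLinearMap.snd ℝ ℝ ℝ).hasFDerivAt (x := p)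
  exact this.sub_const c

lemma integral_rot_eq_zero {G : PP → ℝ} (hG : ContDiff ℝ 1 G) (hc : HasCompactSupport G) (P : PP) :
    ∫ p, fderiv ℝ G p (rot P p) = 0 := by
  have hT : Tst 1 Set.univ G := ⟨hG, hc, subset_univ _⟩
  simp_rw [fderiv_rot]
  have c1 : Continuous (fun p => fderiv ℝ G p ex) := hT.cont_fderiv le_rfl ex
  have c2 : Continuous (fun p => fderiv ℝ G p ey) := hT.cont_fderiv le_rfl ey
  have i1 : Integrable (fun p : PP => (p.2 - P.2) * fderiv ℝ G p ex) :=
    integrable_of_cont (by fun_prop) (hT.comp_fderiv ex).mul_left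
  have i2 : Integrable (fun p : PP => (p.1 - P.1) * fderiv ℝ G p ey) :=
    integrable_of_cont (by fun_prop) (hT.comp_fderiv ey).mul_left
  have e1 : ∫ p : PP, (p.2 - P.2) * fderiv ℝ G p ex = 0 := by
    have hz : ∀ p : PP, fderiv ℝ (fun p : PP => p.2 - P.2) p ex = 0 := by
      intro p; rw [(hasFDerivAt_snd_sub P.2 p).fderiv]; simp [ex]
    rw [integral_mul_fderiv_eq_neg_fderiv_mul_of_integrable]
    · simp_rw [hz]; simp
    · simp_rw [hz]; simp
    · exact i1
    · exact integrable_of_cont (by have := hG.continuous; fun_prop) hc.mul_left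
    · intro p _; exact (hasFDerivAt_snd_sub P.2 p).differentiableAt
    · intro p _; exact hG.differentiable (by simp) p
  have e2 : ∫ p : PP, (p.1 - P.1) * fderiv ℝ G p ey = 0 := by
    have hz : ∀ p : PP, fderiv ℝ (fun p : PP => p.1 - P.1) p ey = 0 := by
      intro p; rw [(hasFDerivAt_fst_sub P.1 p).fderiv]; simp [ey]
    rw [integral_mul_fderiv_eq_neg_fderiv_mul_of_integrable]
    · simp_rw [hz]; simp
    · simp_rw [hz]; simp
    · exact i2
    · exact integrable_of_cont (by have := hG.continuous; fun_prop) hc.mul_left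
    · intro p _; exact (hasFDerivAt_fst_sub P.1 p).differentiableAt
    · intro p _; exact hG.differentiable (by simp) p
  have e3 : (fun p : PP => -(p.2 - P.2) * fderiv ℝ G p ex + (p.1 - P.1) * fderiv ℝ G p ey)
      = fun p : PP => (p.1 - P.1) * fderiv ℝ G p ey - (p.2 - P.2) * fderiv ℝ G p ex := by
    ext p; ring
  rw [e3, integral_sub i2 i1, e1, e2]; simp

/-- weighted Wirtinger inequality for functions supported in a half plane through `P` -/
theorem wirtinger {Ω : Set PP} {U F : PP → ℝ} {P : PP} {n1 n2 : ℝ}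
    (hn : ∀ p ∈ Ω, 0 < n1 * (p.1 - P.1) + n2 * (p.2 - P.2))
    (hU : Tst 1 Ω U) (hF : ContDiff ℝ 1 F) (hF0 : ∀ p, 0 ≤ F p)
    (hFr : ∀ p, fderiv ℝ F p (rot P p) = 0) :
    ∫ p, F p * U p ^ 2 ≤ ∫ p, F p * (fderiv ℝ U p (rot P p)) ^ 2 := by
  set ξ : PP → ℝ := fun p => n2 * (p.1 - P.1) - n1 * (p.2 - P.2) with hξ
  set ζ : PP → ℝ := fun p => n1 * (p.1 - P.1) + n2 * (p.2 - P.2) with hζ
  have hξd : ∀ p, HasFDerivAt ξ (n2 • ContinuousLinearMap.fst ℝ ℝ ℝ
      - n1 • ContinuousLinearMap.snd ℝ ℝ ℝ) p := by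
    intro p
    exact ((hasFDerivAt_fst_sub P.1 p).const_mul n2).sub ((hasFDerivAt_snd_sub P.2 p).const_mul n1)
  have hζd : ∀ p, HasFDerivAt ζ (n1 • ContinuousLinearMap.fst ℝ ℝ ℝ
      + n2 • ContinuousLinearMap.snd ℝ ℝ ℝ) p := by
    intro p
    exact ((hasFDerivAt_fst_sub P.1 p).const_mul n1).add ((hasFDerivAt_snd_sub P.2 p).const_mul n2)
  have hξs : ContDiff ℝ 1 ξ := by rw [hξ]; fun_prop
  have hζs : ContDiff ℝ 1 ζ := by rw [hζ]; fun_prop
  set H : PP → ℝ := fun p => F p * U p ^ 2 * (ξ p / ζ p) with hH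
  have hζpos : ∀ p ∈ tsupport U, 0 < ζ p := fun p hp => hn p (hU.2.2 hp)
  have hHc : HasCompactSupport H := by
    apply hU.2.1.mono
    intro p hp h0
    exact hp (by simp [hH, h0])
  have hHs : ContDiff ℝ 1 H := by
    rw [contDiff_iff_contDiffAt]
    intro p
    by_cases hp' : p ∈ tsupport U
    swap
    · have hev : H =ᶠ[𝓝 p] fun _ => 0 := by
        have hev : ∀ᶠ q in 𝓝 p, q ∉ tsupport U :=
          (isClosed_tsupport U).isOpen_compl.mem_nhds hp'
        filter_upwards [hev] with q hq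
        have : U q = 0 := image_eq_zero_of_notMem_tsupport hq
        simp [hH, this]
      exact (contDiffAt_const (c := (0:ℝ))).congr_of_eventuallyEq hev
    have hz := hζpos p hp'
    rw [hH]
    apply ContDiffAt.mul
    · exact (hF.contDiffAt).mul (hU.1.contDiffAt.pow 2)
    · exact (hξs.contDiffAt).div (hζs.contDiffAt) hz.ne'
  have hint := integral_rot_eq_zero hHs hHc P
  -- derivative of H along the rotation field
  have hder : ∀ p, fderiv ℝ H p (rot P p) ≤
      F p * (fderiv ℝ U p (rot P p)) ^ 2 - F p * U p ^ 2 := by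
    intro p
    by_cases hp : p ∈ tsupport U
    · have hz := hζpos p hp
      have hUd : HasFDerivAt U (fderiv ℝ U p) p := (hU.1.differentiable (by simp) p).hasFDerivAt
      have hFd : HasFDerivAt F (fderiv ℝ F p) p := (hF.differentiable (by simp) p).hasFDerivAt
      have hline : HasDerivAt (fun t : ℝ => p + t • rot P p) (rot P p) 0 := by
        simpa using ((hasDerivAt_id (0:ℝ)).smul_const (rot P p)).const_add p
      have hl : ∀ {G : PP → ℝ} {G' : PP →L[ℝ] ℝ}, HasFDerivAt G G' p →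
          HasDerivAt (fun t : ℝ => G (p + t • rot P p)) (G' (rot P p)) 0 := by
        intro G G' hG
        have : HasFDerivAt G G' (p + (0:ℝ) • rot P p) := by simpa using hG
        exact this.comp_hasDerivAt (0:ℝ) hline
      have dU := hl hUd
      have dF := hl hFd
      have dξ := hl (hξd p)
      have dζ := hl (hζd p)
      have dH := hl ((hHs.differentiable (by simp) p).hasFDerivAt)
      have hz0 : ζ (p + (0:ℝ) • rot P p) ≠ 0 := by simpa using hz.ne'
      have dH2 := (dF.mul (dU.pow 2)).mul (dξ.div dζ hz0)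
      have huniq := dH.unique dH2
      rw [huniq]
      have v1 : (n2 • ContinuousLinearMap.fst ℝ ℝ ℝ
          - n1 • ContinuousLinearMap.snd ℝ ℝ ℝ) (rot P p) = - ζ p := by
        simp [rot, hζ]; ring
      have v2 : (n1 • ContinuousLinearMap.fst ℝ ℝ ℝ
          + n2 • ContinuousLinearMap.snd ℝ ℝ ℝ) (rot P p) = ξ p := by
        simp [rot, hξ]; ring
      rw [v1, v2, hFr p]
      simp only [zero_smul, add_zero, Pi.mul_apply, Pi.pow_apply, Pi.div_apply]
      have hzne := hz.ne'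
      have hrhs : (0 * U p ^ 2 + F p * (((2:ℕ):ℝ) * U p ^ (2 - 1) * fderiv ℝ U p (rot P p)))
          * (ξ p / ζ p) + F p * U p ^ 2 * ((-ζ p * ζ p - ξ p * ξ p) / ζ p ^ 2)
          = F p * (fderiv ℝ U p (rot P p)) ^ 2 - F p * U p ^ 2
            - F p * (fderiv ℝ U p (rot P p) - U p * (ξ p / ζ p)) ^ 2 := by
        field_simp
        ring
      have hfin := mul_nonneg (hF0 p) (sq_nonneg (fderiv ℝ U p (rot P p) - U p * (ξ p / ζ p)))
      calc _ = F p * (fderiv ℝ U p (rot P p)) ^ 2 - F p * U p ^ 2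
            - F p * (fderiv ℝ U p (rot P p) - U p * (ξ p / ζ p)) ^ 2 := by
              rw [← hrhs]
        _ ≤ _ := by linarith
    · have h0 : U p = 0 := image_eq_zero_of_notMem_tsupport hp
      have h1 : H =ᶠ[𝓝 p] fun _ => 0 := by
        have hev : ∀ᶠ q in 𝓝 p, q ∉ tsupport U :=
          (isClosed_tsupport U).isOpen_compl.mem_nhds hp
        filter_upwards [hev] with q hq
        have : U q = 0 := image_eq_zero_of_notMem_tsupport hq
        simp [hH, this]
      have h2 : fderiv ℝ H p = 0 := by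
        rw [h1.fderiv_eq]; simp
      rw [h2, h0]
      simp only [zero_apply]
      have := mul_nonneg (hF0 p) (sq_nonneg (fderiv ℝ U p (rot P p)))
      nlinarith
  have crot : Continuous (fun p => fderiv ℝ U p (rot P p)) := by
    simp_rw [fderiv_rot]
    have c1 : Continuous (fun p => fderiv ℝ U p ex) := hU.cont_fderiv le_rfl ex
    have c2 : Continuous (fun p => fderiv ℝ U p ey) := hU.cont_fderiv le_rfl ey
    fun_prop
  have hsrot : HasCompactSupport (fun p => fderiv ℝ U p (rot P p)) := by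
    have hf : HasCompactSupport (fun p => fderiv ℝ U p) := hU.2.1.fderiv ℝ
    apply hf.mono
    intro p hp h0
    apply hp
    show fderiv ℝ U p (rot P p) = 0
    have : fderiv ℝ U p = 0 := h0
    rw [this]; simp
  have i1 : Integrable (fun p => F p * (fderiv ℝ U p (rot P p)) ^ 2) :=
    integrable_of_cont (hF.continuous.mul (crot.pow 2)) (hasCompactSupport_sq hsrot).mul_left
  have i2 : Integrable (fun p => F p * U p ^ 2) :=
    integrable_of_cont (hF.continuous.mul (hU.1.continuous.pow 2))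
      (hasCompactSupport_sq hU.2.1).mul_left
  have hHT : Tst 1 Set.univ H := ⟨hHs, hHc, subset_univ _⟩
  have crotH : Continuous (fun p => fderiv ℝ H p (rot P p)) := by
    simp_rw [fderiv_rot]
    have c1 : Continuous (fun p => fderiv ℝ H p ex) := hHT.cont_fderiv le_rfl ex
    have c2 : Continuous (fun p => fderiv ℝ H p ey) := hHT.cont_fderiv le_rfl ey
    fun_prop
  have hsrotH : HasCompactSupport (fun p => fderiv ℝ H p (rot P p)) := by
    have hf : HasCompactSupport (fun p => fderiv ℝ H p) := hHc.fderiv ℝ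
    apply hf.mono
    intro p hp h0
    apply hp
    show fderiv ℝ H p (rot P p) = 0
    have : fderiv ℝ H p = 0 := h0
    rw [this]; simp
  have hm := integral_mono (integrable_of_cont crotH hsrotH) (i1.sub i2) hder
  have hm2 : ∫ p, (F p * (fderiv ℝ U p (rot P p)) ^ 2 - F p * U p ^ 2)
      = (∫ p, F p * (fderiv ℝ U p (rot P p)) ^ 2) - ∫ p, F p * U p ^ 2 := integral_sub i1 i2
  have hm3 : (∫ p, fderiv ℝ H p (rot P p)) ≤
      ∫ p, (F p * (fderiv ℝ U p (rot P p)) ^ 2 - F p * U p ^ 2) := hm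
  rw [hint, hm2] at hm3
  linarith

end

end Pool.Agent.MP70c477
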