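import Pool.Agent.MP70c477.ASecond

set_option autoImplicit false
set_option linter.unusedVariables false

open MeasureTheory Set Filter Topology ContinuousLinearMap
open scoped Convolution ENNReal NNReal Pointwise

namespace Pool.Agent.MP70c477

noncomputable section

namespace SD

variable {D : SD} {e : ℝ}

/-- the inclusion for the cut domain -/
lemma incl_cut {Ω L : Set PP} {τ0 : ℝ} (hτ0 : D.τ ≤ τ0) (h0 : 0 ≤ e) (he : e ≤ D.τ / 4)
    (hbelow : ∀ v : PP, v.1 ∈ Icc D.p D.q → v.2 ≤ D.g v.1 → v ∉ Ω)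
    (habove : ∀ x ∈ Icc D.p D.q, ∀ z : ℝ, 0 < z → z ≤ 2 * τ0 → ((x, D.g x + z) : PP) ∈ Ω)
    (hL : ∀ v ∈ Ω, ¬ (v.1 ∈ Icc D.p D.q ∧ v.2 ≤ D.g v.1 + e * D.η v.1) → v ∈ L) :
    ∀ v : PP, ((v.1, D.SS e v) : PP) ∈ Ω → v ∈ L := by
  intro v hv
  have hτ := D.hτ
  have hea : |e| ≤ D.τ / 4 := by rwa [abs_of_nonneg h0]
  have hη0 := D.hη0 v.1
  have hη1 := D.hη1 v.1
  have heη : e * D.η v.1 ≤ D.τ / 4 := (abs_le.1 (eη_le hea v.1)).2
  have heη0 : 0 ≤ e * D.η v.1 := mul_nonneg h0 hη0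
  by_cases hx : v.1 ∈ Ioo D.p D.q
  · have hxc : v.1 ∈ Icc D.p D.q := ⟨hx.1.le, hx.2.le⟩
    have hy : D.g v.1 < D.SS e v := by
      by_contra hcon
      push Not at hcon
      exact hbelow (v.1, D.SS e v) hxc hcon hv
    have hk0 : 0 ≤ D.kk e v.1 := by
      unfold kk; exact div_nonneg heη0 (den_pos hea v.1).le
    rcases le_or_gt (D.g v.1 + D.τ) v.2 with h1 | h1
    · have hw : D.ww v = 0 := by
        unfold ww; apply max_eq_left
        exact (min_le_left _ _).trans (by linarith)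
      have hS : D.SS e v = v.2 := by unfold SS; rw [hw]; simp
      rw [hS] at hv
      apply hL v hv
      rintro ⟨_, h2⟩
      linarith
    · rcases le_or_gt v.2 (D.g v.1 - D.τ) with h2 | h2
      · exfalso
        have := mul_nonneg (ww_nonneg (D := D) v) hk0
        unfold SS at hy
        linarith
      · have hw : D.ww v = D.τ - v.2 + D.g v.1 := by
          unfold ww
          rw [min_eq_left (by linarith), max_eq_right (by linarith)]
        have hkey : D.g v.1 + e * D.η v.1 < v.2 := by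
          unfold SS at hy; rw [hw] at hy
          unfold kk at hy
          have hd := den_pos hea v.1
          have h3 : v.2 - (D.τ - v.2 + D.g v.1) * (e * D.η v.1 / (D.τ - e * D.η v.1)) - D.g v.1
              = D.τ * (v.2 - D.g v.1 - e * D.η v.1) / (D.τ - e * D.η v.1) := by
            field_simp; ring
          have h4 : 0 < D.τ * (v.2 - D.g v.1 - e * D.η v.1) / (D.τ - e * D.η v.1) := by
            rw [← h3]; linarith
          have h5 : 0 < D.τ * (v.2 - D.g v.1 - e * D.η v.1) := by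
            by_contra hcon
            push Not at hcon
            exact absurd h4 (not_lt.2 (div_nonpos_of_nonpos_of_nonneg hcon hd.le))
          have h6 := pos_of_mul_pos_right h5 hτ.le
          linarith
        have hvΩ : v ∈ Ω := by
          have h7 := habove v.1 hxc (v.2 - D.g v.1) (by linarith) (by linarith)
          have h8 : ((v.1, D.g v.1 + (v.2 - D.g v.1)) : PP) = v := by ext <;> simp
          rwa [h8] at h7
        apply hL v hvΩ
        rintro ⟨_, h9⟩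
        linarith
  · have hS : D.SS e v = v.2 := by unfold SS; rw [kk_zero hx]; simp
    rw [hS] at hv
    apply hL v hv
    rintro ⟨h1, h2⟩
    rw [D.hηs v.1 hx, mul_zero, add_zero] at h2
    exact hbelow v h1 h2 hv

/-- the inclusion for the enlarged domain -/
lemma incl_add {Ω M : Set PP} {τ0 : ℝ} (hτ0 : D.τ ≤ τ0) (h0 : 0 ≤ e) (he : e ≤ D.τ / 4)
    (hbelow : ∀ v : PP, v.1 ∈ Icc D.p D.q → v.2 ≤ D.g v.1 → v ∉ Ω)
    (habove : ∀ x ∈ Icc D.p D.q, ∀ z : ℝ, 0 < z → z ≤ 2 * τ0 → ((x, D.g x + z) : PP) ∈ Ω)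
    (hM : Ω ⊆ M)
    (hM2 : ∀ v : PP, v.1 ∈ Ioo D.p D.q → D.g v.1 - e * D.η v.1 < v.2 → v.2 ≤ D.g v.1 → v ∈ M) :
    ∀ v : PP, ((v.1, D.SS (-e) v) : PP) ∈ Ω → v ∈ M := by
  intro v hv
  have hτ := D.hτ
  have hea : |(-e)| ≤ D.τ / 4 := by rwa [abs_neg, abs_of_nonneg h0]
  have hη0 := D.hη0 v.1
  have heη0 : 0 ≤ e * D.η v.1 := mul_nonneg h0 hη0
  by_cases hx : v.1 ∈ Ioo D.p D.q
  · have hxc : v.1 ∈ Icc D.p D.q := ⟨hx.1.le, hx.2.le⟩
    have hy : D.g v.1 < D.SS (-e) v := by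
      by_contra hcon
      push Not at hcon
      exact hbelow (v.1, D.SS (-e) v) hxc hcon hv
    rcases le_or_gt (D.g v.1 + D.τ) v.2 with h1 | h1
    · have hw : D.ww v = 0 := by
        unfold ww; apply max_eq_left
        exact (min_le_left _ _).trans (by linarith)
      have hS : D.SS (-e) v = v.2 := by unfold SS; rw [hw]; simp
      rw [hS] at hv
      exact hM hv
    · rcases le_or_gt v.2 (D.g v.1 - D.τ) with h2 | h2
      · exfalso
        have := (abs_le.1 (SS_sub_le hea v)).2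
        linarith
      · have hw : D.ww v = D.τ - v.2 + D.g v.1 := by
          unfold ww
          rw [min_eq_left (by linarith), max_eq_right (by linarith)]
        have hkey : D.g v.1 - e * D.η v.1 < v.2 := by
          unfold SS at hy; rw [hw] at hy
          unfold kk at hy
          have hd := den_pos hea v.1
          have h3 : v.2 - (D.τ - v.2 + D.g v.1) * (-e * D.η v.1 / (D.τ - -e * D.η v.1)) - D.g v.1
              = D.τ * (v.2 - D.g v.1 + e * D.η v.1) / (D.τ - -e * D.η v.1) := by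
            have hd2 : D.τ - -e * D.η v.1 ≠ 0 := hd.ne'
            rw [eq_div_iff hd2, sub_mul, sub_mul, mul_assoc (D.τ - v.2 + D.g v.1) _ _,
              div_mul_cancel₀ _ hd2]
            ring
          have h4 : 0 < D.τ * (v.2 - D.g v.1 + e * D.η v.1) / (D.τ - -e * D.η v.1) := by
            rw [← h3]; linarith
          have h5 : 0 < D.τ * (v.2 - D.g v.1 + e * D.η v.1) := by
            by_contra hcon
            push Not at hcon
            exact absurd h4 (not_lt.2 (div_nonpos_of_nonpos_of_nonneg hcon hd.le))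
          have h6 := pos_of_mul_pos_right h5 hτ.le
          linarith
        rcases le_or_gt v.2 (D.g v.1) with h8 | h8
        · exact hM2 v hx hkey h8
        · have h7 := habove v.1 hxc (v.2 - D.g v.1) (by linarith) (by linarith)
          have h9 : ((v.1, D.g v.1 + (v.2 - D.g v.1)) : PP) = v := by ext <;> simp
          rw [h9] at h7
          exact hM h7
  · have hS : D.SS (-e) v = v.2 := by unfold SS; rw [kk_zero hx]; simp
    rw [hS] at hv
    exact hM hv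

/-- pointwise computation -/
lemma alg_sum {a b s β η : ℝ} (h0 : 0 ≤ s) (hs : s ≤ 1 / 4) (hη0 : 0 ≤ η) (hη1 : η ≤ 1) :
    (1 - s * η) * ((a - s / (1 - s * η) * β * b) ^ 2 + (b / (1 - s * η)) ^ 2) +
    (1 + s * η) * ((a + s / (1 + s * η) * β * b) ^ 2 + (b / (1 + s * η)) ^ 2) ≤
      2 * (a ^ 2 + b ^ 2) + 3 * s ^ 2 * (η ^ 2 + β ^ 2) * (a ^ 2 + b ^ 2) := by
  have hsη0 : 0 ≤ s * η := mul_nonneg h0 hη0
  have hsη : s * η ≤ 1 / 4 := by
    calc s * η ≤ (1 / 4) * 1 := mul_le_mul hs hη1 hη0 (by norm_num)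
      _ = _ := by ring
  have d1 : 0 < 1 - s * η := by linarith
  have d2 : 0 < 1 + s * η := by linarith
  have e1 : (1 - s * η) * ((a - s / (1 - s * η) * β * b) ^ 2 + (b / (1 - s * η)) ^ 2) +
    (1 + s * η) * ((a + s / (1 + s * η) * β * b) ^ 2 + (b / (1 + s * η)) ^ 2) =
    2 * a ^ 2 + (1 + s ^ 2 * β ^ 2) * b ^ 2 * (2 / (1 - (s * η) ^ 2)) := by
    have d3 : (1 - (s * η) ^ 2) = (1 - s * η) * (1 + s * η) := by ring
    rw [d3]
    field_simp
    ring
  rw [e1]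
  have ht : (s * η) ^ 2 ≤ 1 / 16 := by nlinarith
  have ht0 : 0 ≤ (s * η) ^ 2 := sq_nonneg _
  have hd : 0 < 1 - (s * η) ^ 2 := by linarith
  have h1 : 2 / (1 - (s * η) ^ 2) ≤ 2 + 5 / 2 * (s * η) ^ 2 := by
    rw [div_le_iff₀ hd]
    nlinarith
  have hb : 0 ≤ b ^ 2 := sq_nonneg _
  have ha : 0 ≤ a ^ 2 := sq_nonneg _
  have hβ : 0 ≤ s ^ 2 * β ^ 2 := by positivity
  have h2 : (1 + s ^ 2 * β ^ 2) * b ^ 2 * (2 / (1 - (s * η) ^ 2)) ≤
      (1 + s ^ 2 * β ^ 2) * b ^ 2 * (2 + 5 / 2 * (s * η) ^ 2) :=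
    mul_le_mul_of_nonneg_left h1 (by positivity)
  have h3 : (1 + s ^ 2 * β ^ 2) * b ^ 2 * (2 + 5 / 2 * (s * η) ^ 2) =
      2 * b ^ 2 + 5 / 2 * (s * η) ^ 2 * b ^ 2 + s ^ 2 * β ^ 2 * b ^ 2 * (2 + 5 / 2 * (s * η) ^ 2) := by ring
  have h4 : s ^ 2 * β ^ 2 * b ^ 2 * (2 + 5 / 2 * (s * η) ^ 2) ≤ s ^ 2 * β ^ 2 * b ^ 2 * 3 :=
    mul_le_mul_of_nonneg_left (by linarith) (by positivity)
  have h5 : 5 / 2 * (s * η) ^ 2 * b ^ 2 ≤ 3 * (s ^ 2 * η ^ 2) * b ^ 2 := by
    have : 0 ≤ (s * η) ^ 2 * b ^ 2 := by positivity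
    nlinarith
  have h6 : 0 ≤ 3 * s ^ 2 * (η ^ 2 + β ^ 2) * a ^ 2 := by positivity
  nlinarith

lemma alg_diff {a b s β η : ℝ} (h0 : 0 ≤ s) (hs : s ≤ 1 / 4) (hη0 : 0 ≤ η) (hη1 : η ≤ 1) :
    |(1 - s * η) * ((a - s / (1 - s * η) * β * b) ^ 2 + (b / (1 - s * η)) ^ 2) -
    (1 + s * η) * ((a + s / (1 + s * η) * β * b) ^ 2 + (b / (1 + s * η)) ^ 2)| ≤
      4 * s * (1 + β ^ 2) * (a ^ 2 + b ^ 2) := by
  have hsη0 : 0 ≤ s * η := mul_nonneg h0 hη0
  have hsη : s * η ≤ 1 / 4 := by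
    calc s * η ≤ (1 / 4) * 1 := mul_le_mul hs hη1 hη0 (by norm_num)
      _ = _ := by ring
  have d1 : 0 < 1 - s * η := by linarith
  have d2 : 0 < 1 + s * η := by linarith
  have e1 : (1 - s * η) * ((a - s / (1 - s * η) * β * b) ^ 2 + (b / (1 - s * η)) ^ 2) -
    (1 + s * η) * ((a + s / (1 + s * η) * β * b) ^ 2 + (b / (1 + s * η)) ^ 2) =
    -(2 * (s * η) * a ^ 2) - 4 * s * β * a * b
      + (1 + s ^ 2 * β ^ 2) * b ^ 2 * (2 * (s * η) / (1 - (s * η) ^ 2)) := by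
    have d3 : (1 - (s * η) ^ 2) = (1 - s * η) * (1 + s * η) := by ring
    rw [d3]
    field_simp
    ring
  rw [e1]
  have ht : (s * η) ^ 2 ≤ 1 / 16 := by nlinarith
  have hd : 0 < 1 - (s * η) ^ 2 := by linarith
  have hsηs : s * η ≤ s := by nlinarith
  have h1 : 2 * (s * η) / (1 - (s * η) ^ 2) ≤ 12 / 5 * s := by
    rw [div_le_iff₀ hd]
    nlinarith
  have h10 : 0 ≤ 2 * (s * η) / (1 - (s * η) ^ 2) := by positivity
  have hb : 0 ≤ b ^ 2 := sq_nonneg _
  have ha : 0 ≤ a ^ 2 := sq_nonneg _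
  have hβ : 0 ≤ s ^ 2 * β ^ 2 := by positivity
  have h2 : (1 + s ^ 2 * β ^ 2) * b ^ 2 * (2 * (s * η) / (1 - (s * η) ^ 2)) ≤
      (1 + s ^ 2 * β ^ 2) * b ^ 2 * (12 / 5 * s) :=
    mul_le_mul_of_nonneg_left h1 (by positivity)
  have h20 : 0 ≤ (1 + s ^ 2 * β ^ 2) * b ^ 2 * (2 * (s * η) / (1 - (s * η) ^ 2)) := by positivity
  have hs2 : s ^ 2 ≤ 1 / 16 := by nlinarith
  have h3 : s ^ 2 * β ^ 2 ≤ 1 / 16 * β ^ 2 := mul_le_mul_of_nonneg_right hs2 (sq_nonneg _)
  have h4 : (1 + s ^ 2 * β ^ 2) * b ^ 2 * (12 / 5 * s) ≤ (1 + 1 / 16 * β ^ 2) * b ^ 2 * (12 / 5 * s) := by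
    apply mul_le_mul_of_nonneg_right _ (by positivity)
    exact mul_le_mul_of_nonneg_right (by linarith) hb
  have h5 : |4 * s * β * a * b| ≤ s * (1 + β ^ 2) * (a ^ 2 + b ^ 2) := by
    have : |4 * s * β * a * b| = s * (2 * |β|) * (2 * |a| * |b|) := by
      rw [abs_mul, abs_mul, abs_mul, abs_mul, abs_of_nonneg h0, abs_of_pos (by norm_num : (0:ℝ) < 4)]
      ring
    rw [this]
    have q1 : 2 * |β| ≤ 1 + β ^ 2 := by
      have := sq_nonneg (|β| - 1); nlinarith [sq_abs β]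
    have q2 : 2 * |a| * |b| ≤ a ^ 2 + b ^ 2 := by
      have := sq_nonneg (|a| - |b|); nlinarith [sq_abs a, sq_abs b]
    apply mul_le_mul _ q2 (by positivity) (by positivity)
    exact mul_le_mul_of_nonneg_left q1 h0
  have h6 := abs_le.1 h5
  have h7 : 2 * (s * η) * a ^ 2 ≤ 2 * s * a ^ 2 := by
    apply mul_le_mul_of_nonneg_right _ ha; linarith
  have h70 : 0 ≤ 2 * (s * η) * a ^ 2 := by positivity
  have p1 : 0 ≤ s * β ^ 2 * a ^ 2 := by positivity
  have p2 : 0 ≤ s * β ^ 2 * b ^ 2 := by positivity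
  have p3 : 0 ≤ s * a ^ 2 := by positivity
  have p4 : 0 ≤ s * b ^ 2 := by positivity
  rw [abs_le]
  constructor
  · nlinarith
  · nlinarith

end SD

end

end Pool.Agent.MP70c477
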