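import Pool.Agent.MP70c477.AFinal

set_option autoImplicit false
set_option linter.unusedVariables false

open MeasureTheory Set Filter Topology ContinuousLinearMap
open scoped Convolution ENNReal NNReal Pointwise

namespace Pool.Agent.MP70c477

noncomputable section

namespace SD

variable {D : SD} {e : ℝ}

/-- the majorant -/
def Fn (D : SD) (U : PP → ℝ) : PP → ℝ := D.St.indicator (fun v => (1 + D.bt v ^ 2) * gsq U v)

lemma Fn_nonneg (U : PP → ℝ) (v : PP) : 0 ≤ D.Fn U v := by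
  unfold Fn
  apply indicator_nonneg
  intro v _
  have := gsq_nonneg U v
  positivity

lemma Fn_integrable {U : PP → ℝ} {Ω : Set PP} (hU : Tst 1 Ω U) : Integrable (D.Fn U) := by
  have hm : Measurable (D.Fn U) := by
    unfold Fn
    apply Measurable.indicator _ (St_meas D)
    exact (((bt_meas D).pow_const 2).const_add 1).mul hU.gsq_cont.measurable
  refine ((hU.int_gsq le_rfl).const_mul (1 + (D.Lg + D.τ * D.κ) ^ 2)).mono'
    hm.aestronglyMeasurable (Eventually.of_forall (fun v => ?_))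
  rw [Real.norm_eq_abs, abs_of_nonneg (Fn_nonneg U v)]
  have hg := gsq_nonneg U v
  unfold Fn
  by_cases hv : v ∈ D.St
  · rw [indicator_of_mem hv]
    apply mul_le_mul_of_nonneg_right _ hg
    have h1 := bt_abs_le (D := D) v
    have h2 : D.bt v ^ 2 ≤ (D.Lg + D.τ * D.κ) ^ 2 := by
      rw [← sq_abs]; gcongr
    linarith
  · rw [indicator_of_notMem hv]; positivity

lemma s_bd (h0 : 0 ≤ e) (he : e ≤ D.τ / 4) : 0 ≤ e / D.τ ∧ e / D.τ ≤ 1 / 4 := by
  have hτ := D.hτ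
  refine ⟨div_nonneg h0 hτ.le, ?_⟩
  rw [div_le_iff₀ hτ]; linarith

lemma Ed_eq1 (U : PP → ℝ) {v : PP} (hv : v ∈ D.St) : D.Ed e U v =
    (1 - e / D.τ * D.η v.1) * ((fderiv ℝ U v ex - e / D.τ / (1 - e / D.τ * D.η v.1) * D.bt v *
      fderiv ℝ U v ey) ^ 2 + (fderiv ℝ U v ey / (1 - e / D.τ * D.η v.1)) ^ 2) := by
  unfold Ed; rw [if_pos hv]; unfold hh
  have : D.dd e v.1 = 1 - e / D.τ * D.η v.1 := by unfold dd; ring
  rw [this, div_div]

lemma Ed_eq2 (U : PP → ℝ) {v : PP} (hv : v ∈ D.St) : D.Ed (-e) U v =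
    (1 + e / D.τ * D.η v.1) * ((fderiv ℝ U v ex + e / D.τ / (1 + e / D.τ * D.η v.1) * D.bt v *
      fderiv ℝ U v ey) ^ 2 + (fderiv ℝ U v ey / (1 + e / D.τ * D.η v.1)) ^ 2) := by
  rw [Ed_eq1 U hv]
  have h1 : 1 - -e / D.τ * D.η v.1 = 1 + e / D.τ * D.η v.1 := by ring
  rw [h1]
  ring

lemma Ed_sum (h0 : 0 ≤ e) (he : e ≤ D.τ / 4) (U : PP → ℝ) (v : PP) :
    D.Ed e U v + D.Ed (-e) U v ≤ 2 * gsq U v + 3 * (e / D.τ) ^ 2 * D.Fn U v := by
  obtain ⟨s0, s1⟩ := s_bd h0 he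
  by_cases hv : v ∈ D.St
  · rw [Ed_eq1 U hv, Ed_eq2 U hv]
    unfold Fn; rw [indicator_of_mem hv]
    refine (alg_sum s0 s1 (D.hη0 v.1) (D.hη1 v.1)).trans ?_
    have hη2 : D.η v.1 ^ 2 ≤ 1 := by have := D.hη0 v.1; have := D.hη1 v.1; nlinarith
    show 2 * gsq U v + 3 * (e / D.τ) ^ 2 * (D.η v.1 ^ 2 + D.bt v ^ 2) * gsq U v ≤
      2 * gsq U v + 3 * (e / D.τ) ^ 2 * ((1 + D.bt v ^ 2) * gsq U v)
    have hg := gsq_nonneg U v
    have : 3 * (e / D.τ) ^ 2 * (D.η v.1 ^ 2 + D.bt v ^ 2) * gsq U v ≤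
        3 * (e / D.τ) ^ 2 * (1 + D.bt v ^ 2) * gsq U v := by
      apply mul_le_mul_of_nonneg_right _ hg
      apply mul_le_mul_of_nonneg_left _ (by positivity)
      linarith
    linarith
  · unfold Ed Fn; rw [if_neg hv, if_neg hv, indicator_of_notMem hv]; linarith

lemma Ed_diff (h0 : 0 ≤ e) (he : e ≤ D.τ / 4) (U : PP → ℝ) (v : PP) :
    |D.Ed e U v - D.Ed (-e) U v| ≤ 4 * (e / D.τ) * D.Fn U v := by
  obtain ⟨s0, s1⟩ := s_bd h0 he
  by_cases hv : v ∈ D.St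
  · rw [Ed_eq1 U hv, Ed_eq2 U hv]
    unfold Fn; rw [indicator_of_mem hv]
    refine (alg_diff s0 s1 (D.hη0 v.1) (D.hη1 v.1)).trans (le_of_eq ?_)
    show 4 * (e / D.τ) * (1 + D.bt v ^ 2) * gsq U v = 4 * (e / D.τ) * ((1 + D.bt v ^ 2) * gsq U v)
    ring
  · unfold Ed Fn; rw [if_neg hv, if_neg hv, indicator_of_notMem hv]; simp

lemma Nd_int {U : PP → ℝ} {Ω : Set PP} (hU : Tst 1 Ω U) :
    ∫ v, D.Nd e U v = Nm U - e / D.τ * ∫ v in D.St, D.η v.1 * U v ^ 2 := by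
  have hηc := D.hη.continuous
  have hUc := hU.1.continuous
  have hi : Integrable (fun v : PP => D.η v.1 * U v ^ 2) :=
    integrable_of_cont (by fun_prop) (hasCompactSupport_sq hU.2.1).mul_left
  unfold Nm
  rw [← integral_indicator (St_meas D), ← integral_const_mul, ← integral_sub hU.int_sq
    ((hi.indicator (St_meas D)).const_mul _)]
  congr 1; ext v
  unfold Nd dd
  by_cases hv : v ∈ D.St
  · rw [if_pos hv, indicator_of_mem hv]; ring
  · rw [if_neg hv, indicator_of_notMem hv]; ring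

/-- near/far bound for the integral of the majorant -/
lemma Fn_int {U : PP → ℝ} {Ω : Set PP} (hU : Tst 1 Ω U)
    (hbelow : ∀ v : PP, v.1 ∈ Icc D.p D.q → v.2 ≤ D.g v.1 → v ∉ Ω) {Wd K κ' : ℝ}
    (hW : D.q - D.p ≤ Wd) (hW0 : 0 ≤ Wd) (hpq : D.p < D.q) (hκ' : 0 ≤ κ')
    (hη' : ∀ x ∈ Icc (D.p + D.τ) D.q, ∀ x' ∈ Icc (D.p + D.τ) D.q, |D.η x - D.η x'| ≤ κ' * |x - x'|)
    (hK : ∀ x ∈ Icc D.p D.q, ∫ v in disc (x, D.g x) ((2 + D.Lg) * D.τ), gsq U v ≤ K) :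
    ∫ v, D.Fn U v ≤ (1 + 2 * D.Lg ^ 2 + 2 * (D.τ * D.κ) ^ 2) * K
      + (1 + 2 * D.Lg ^ 2 + 2 * (D.τ * κ') ^ 2) * ((Wd / D.τ + 1) * K) := by
  have hτ := D.hτ
  have hgi := hU.int_gsq le_rfl
  have hg0 := gsq_nonneg U
  have hgΩ : ∀ v, v ∉ Ω → gsq U v = 0 := by
    intro v hv
    have : fderiv ℝ U v = 0 := fderiv_zero_of_notMem (fun h => hv (hU.2.2 h))
    unfold gsq; rw [this]; simp
  have h1 := strip_le hg0 hgi hgΩ hbelow hW hW0 hpq hK
  have h2 := (near_le hg0 hgi hgΩ hbelow hpq).trans (hK D.p ⟨le_rfl, hpq.le⟩)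
  have hm : MeasurableSet (D.St ∩ {v : PP | v.1 ≤ D.p + D.τ}) :=
    (St_meas D).inter (measurable_fst measurableSet_Iic)
  rw [← integral_indicator (St_meas D)] at h1
  rw [← integral_indicator hm] at h2
  have hc1 : (0:ℝ) ≤ 1 + 2 * D.Lg ^ 2 + 2 * (D.τ * D.κ) ^ 2 := by positivity
  have hc2 : (0:ℝ) ≤ 1 + 2 * D.Lg ^ 2 + 2 * (D.τ * κ') ^ 2 := by positivity
  calc ∫ v, D.Fn U v ≤ ∫ v, ((1 + 2 * D.Lg ^ 2 + 2 * (D.τ * D.κ) ^ 2) *
        (D.St ∩ {v : PP | v.1 ≤ D.p + D.τ}).indicator (gsq U) v +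
        (1 + 2 * D.Lg ^ 2 + 2 * (D.τ * κ') ^ 2) * D.St.indicator (gsq U) v) := by
        apply integral_mono (Fn_integrable hU) (((hgi.indicator hm).const_mul _).add
          ((hgi.indicator (St_meas D)).const_mul _))
        intro v
        show D.Fn U v ≤ (1 + 2 * D.Lg ^ 2 + 2 * (D.τ * D.κ) ^ 2) *
          (D.St ∩ {v : PP | v.1 ≤ D.p + D.τ}).indicator (gsq U) v +
          (1 + 2 * D.Lg ^ 2 + 2 * (D.τ * κ') ^ 2) * D.St.indicator (gsq U) v
        by_cases hv : v ∈ D.St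
        swap
        · have hv2 : v ∉ D.St ∩ {v : PP | v.1 ≤ D.p + D.τ} := fun h => hv h.1
          unfold Fn; rw [indicator_of_notMem hv, indicator_of_notMem hv, indicator_of_notMem hv2]
          simp
        · unfold Fn; rw [indicator_of_mem hv, indicator_of_mem hv]
          have hgv := hg0 v
          by_cases hv2 : v.1 ≤ D.p + D.τ
          · rw [indicator_of_mem (show v ∈ D.St ∩ {v : PP | v.1 ≤ D.p + D.τ} from ⟨hv, hv2⟩)]
            have h3 := bt_abs_le (D := D) v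
            have h4 : D.bt v ^ 2 ≤ 2 * D.Lg ^ 2 + 2 * (D.τ * D.κ) ^ 2 := by
              have : D.bt v ^ 2 ≤ (D.Lg + D.τ * D.κ) ^ 2 := by rw [← sq_abs]; gcongr
              nlinarith [sq_nonneg ((D.Lg : ℝ) - D.τ * D.κ)]
            have h5 : (1 + D.bt v ^ 2) * gsq U v ≤ (1 + 2 * D.Lg ^ 2 + 2 * (D.τ * D.κ) ^ 2) * gsq U v :=
              mul_le_mul_of_nonneg_right (by linarith) hgv
            have h6 := mul_nonneg hc2 hgv
            linarith
          · rw [indicator_of_notMem (show v ∉ D.St ∩ {v : PP | v.1 ≤ D.p + D.τ} from fun h => hv2 h.2)]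
            push Not at hv2
            have hd : |deriv D.η v.1| ≤ κ' := by
              have hnhds : Icc (D.p + D.τ) D.q ∈ 𝓝 v.1 := Icc_mem_nhds hv2 hv.1.2
              have hlip : LipschitzOnWith (Real.toNNReal κ') D.η (Icc (D.p + D.τ) D.q) := by
                apply LipschitzOnWith.of_dist_le_mul
                intro x hx x' hx'
                rw [Real.dist_eq, Real.dist_eq, Real.coe_toNNReal _ hκ']
                exact hη' x hx x' hx'
              have := norm_deriv_le_of_lipschitzOn hnhds hlip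
              rwa [Real.coe_toNNReal _ hκ'] at this
            have hb : |D.bt v| ≤ D.Lg + D.τ * κ' := by
              unfold bt
              refine (abs_add_le _ _).trans ?_
              have hgd : |deriv D.g v.1| ≤ D.Lg := by
                have := norm_deriv_le_of_lipschitz (x₀ := v.1) D.hg
                simpa using this
              have q1 : |deriv D.g v.1 * D.η v.1| ≤ D.Lg * 1 := by
                rw [abs_mul]
                apply mul_le_mul hgd _ (abs_nonneg _) D.Lg.2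
                rw [abs_of_nonneg (D.hη0 _)]; exact D.hη1 _
              have q2 : |D.w0 v * deriv D.η v.1| ≤ D.τ * κ' := by
                rw [abs_mul, abs_of_nonneg (w0_nonneg v)]
                exact mul_le_mul (w0_le v) hd (abs_nonneg _) hτ.le
              linarith
            have h4 : D.bt v ^ 2 ≤ 2 * D.Lg ^ 2 + 2 * (D.τ * κ') ^ 2 := by
              have : D.bt v ^ 2 ≤ (D.Lg + D.τ * κ') ^ 2 := by rw [← sq_abs]; gcongr
              nlinarith [sq_nonneg ((D.Lg : ℝ) - D.τ * κ')]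
            have h5 : (1 + D.bt v ^ 2) * gsq U v ≤ (1 + 2 * D.Lg ^ 2 + 2 * (D.τ * κ') ^ 2) * gsq U v :=
              mul_le_mul_of_nonneg_right (by linarith) hgv
            linarith
    _ = (1 + 2 * D.Lg ^ 2 + 2 * (D.τ * D.κ) ^ 2) *
        (∫ v, (D.St ∩ {v : PP | v.1 ≤ D.p + D.τ}).indicator (gsq U) v) +
        (1 + 2 * D.Lg ^ 2 + 2 * (D.τ * κ') ^ 2) * ∫ v, D.St.indicator (gsq U) v := by
        rw [integral_add ((hgi.indicator hm).const_mul _) ((hgi.indicator (St_meas D)).const_mul _),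
          integral_const_mul, integral_const_mul]
    _ ≤ _ := add_le_add (mul_le_mul_of_nonneg_left h2 hc1) (mul_le_mul_of_nonneg_left h1 hc2)

end SD

lemma final_alg {lL lM l ν Ep Em S T : ℝ} (hl : 0 ≤ l) (hν0 : 0 ≤ ν) (hν1 : ν ≤ 1 / 4)
    (h1 : lL * (1 - ν) ≤ Ep) (h2 : lM * (1 + ν) ≤ Em) (h3 : Ep + Em ≤ 2 * l + S)
    (h4 : |Ep - Em| ≤ T) (hS : 0 ≤ S) :
    lL + lM ≤ 2 * l * (1 + 2 * ν ^ 2) + 2 * (S + ν * T) := by
  have hT : 0 ≤ T := (abs_nonneg _).trans h4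
  have hν2 : ν ^ 2 ≤ 1 / 16 := by nlinarith
  have hp : 0 < 1 - ν ^ 2 := by linarith
  have h5 : (lL + lM) * (1 - ν ^ 2) ≤ (Ep + Em) + ν * (Ep - Em) := by
    have q1 := mul_le_mul_of_nonneg_right h1 (by linarith : 0 ≤ 1 + ν)
    have q2 := mul_le_mul_of_nonneg_right h2 (by linarith : 0 ≤ 1 - ν)
    nlinarith
  have h6 : ν * (Ep - Em) ≤ ν * T := mul_le_mul_of_nonneg_left ((le_abs_self _).trans h4) hν0
  have h7 : (lL + lM) * (1 - ν ^ 2) ≤ 2 * l + (S + ν * T) := by linarith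
  have h8 : 0 ≤ S + ν * T := by positivity
  have h9 : 2 * l + (S + ν * T) ≤ (2 * l * (1 + 2 * ν ^ 2) + 2 * (S + ν * T)) * (1 - ν ^ 2) := by
    have q1 : 1 ≤ (1 + 2 * ν ^ 2) * (1 - ν ^ 2) := by nlinarith [sq_nonneg ν]
    have q2 : 1 ≤ 2 * (1 - ν ^ 2) := by linarith
    have q3 := mul_le_mul_of_nonneg_left q1 (by linarith : 0 ≤ 2 * l)
    have q4 := mul_le_mul_of_nonneg_left q2 h8
    nlinarith
  exact le_of_mul_le_mul_right (h7.trans h9) hp

/-- **second order upper bound for the first eigenvalue** -/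
theorem second_diff {Ω : Set PP} (hΩ : IsOpen Ω) (hne : Ω.Nonempty) (hconv : Convex ℝ Ω)
    (Lg : ℝ≥0) {Wd τ0 : ℝ} (hWd : 0 ≤ Wd) (hτ0 : 0 < τ0) :
    ∃ C : ℝ, 0 ≤ C ∧ ∀ D : SD, D.Lg = Lg → D.p < D.q → D.q - D.p ≤ Wd → D.τ ≤ τ0 →
      (∀ v : PP, v.1 ∈ Icc D.p D.q → v.2 ≤ D.g v.1 → v ∉ Ω) →
      (∀ x ∈ Icc D.p D.q, ∀ z : ℝ, 0 < z → z ≤ 2 * τ0 → ((x, D.g x + z) : PP) ∈ Ω) →
      ∀ κ' : ℝ, 0 ≤ κ' → (∀ x ∈ Icc (D.p + D.τ) D.q, ∀ x' ∈ Icc (D.p + D.τ) D.q,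
        |D.η x - D.η x'| ≤ κ' * |x - x'|) →
      ∀ e : ℝ, 0 ≤ e → e ≤ D.τ / 4 → ∀ L M : Set PP, IsOpen L → IsOpen M →
      (∀ v ∈ Ω, ¬ (v.1 ∈ Icc D.p D.q ∧ v.2 ≤ D.g v.1 + e * D.η v.1) → v ∈ L) → Ω ⊆ M →
      (∀ v : PP, v.1 ∈ Ioo D.p D.q → D.g v.1 - e * D.η v.1 < v.2 → v.2 ≤ D.g v.1 → v ∈ M) →
      lamP L + lamP M ≤ 2 * lamP Ω +
        C * e ^ 2 * (1 + 1 / D.τ + κ' ^ 2 * D.τ + (D.κ : ℝ) ^ 2 * D.τ ^ 2) := by
  set l := lamP Ω with hl
  have hl0 : 0 ≤ l := lamP_nonneg Ω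
  set Kl : ℝ := 4 * (2 + Lg) ^ 2 * (l ^ 2 + 1) with hKl
  set Km : ℝ := 2 * (2 + Lg) ^ 2 * (l + 1) with hKm
  have hKl0 : 0 ≤ Kl := by positivity
  have hKm0 : 0 ≤ Km := by positivity
  set C1 : ℝ := Kl * ((3 + 2 * Lg ^ 2) + (1 + 2 * Lg ^ 2) * (Wd + 1) + 2 * (Wd + τ0)) with hC1
  have hC10 : 0 ≤ C1 := by positivity
  set Cν : ℝ := (Wd + τ0) * Km with hCν
  have hCν0 : 0 ≤ Cν := by positivity
  set C : ℝ := 4 * l * Cν ^ 2 + 2 * (3 * C1 + Cν * (4 * (τ0 * C1))) with hC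
  have hC0 : 0 ≤ C := by positivity
  refine ⟨C, hC0, ?_⟩
  intro D hDL hpq hW hDτ hbelow habove κ' hκ' hη' e h0 he L M hLo hMo hL hM hM2
  have hτ := D.hτ
  have hea : |e| ≤ D.τ / 4 := by rwa [abs_of_nonneg h0]
  have hea' : |(-e)| ≤ D.τ / 4 := by rwa [abs_neg]
  set τ := D.τ with hτdef
  set κ : ℝ := (D.κ : ℝ) with hκdef
  have hκ0 : 0 ≤ κ := D.κ.2
  have hLg0 : (0:ℝ) ≤ Lg := Lg.2
  set J : ℝ := 1 + 1 / τ + κ' ^ 2 * τ + κ ^ 2 * τ ^ 2 with hJ
  have hJ1 : 1 ≤ J := by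
    have h12 : 0 ≤ 1 / τ + κ' ^ 2 * τ + κ ^ 2 * τ ^ 2 := by positivity
    rw [hJ]; linarith only [h12]
  have hJ0 : 0 ≤ J := by linarith
  set Xb : ℝ := (1 + 2 * Lg ^ 2 + 2 * (τ * κ) ^ 2) * (Kl * τ ^ 2)
      + (1 + 2 * Lg ^ 2 + 2 * (τ * κ') ^ 2) * ((Wd / τ + 1) * (Kl * τ ^ 2)) with hXb
  have hXb0 : 0 ≤ Xb := by positivity
  -- bound Xb
  have hXb1 : Xb ≤ C1 * J * τ ^ 2 := by
    have q1 : 1 + 2 * (Lg:ℝ) ^ 2 + 2 * (τ * κ) ^ 2 ≤ (3 + 2 * Lg ^ 2) * J := by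
      have a1 : (τ * κ) ^ 2 ≤ J := by
        rw [hJ]
        have h12 : 0 ≤ 1 + 1 / τ + κ' ^ 2 * τ := by positivity
        have h13 : (τ * κ) ^ 2 = κ ^ 2 * τ ^ 2 := by ring
        linarith only [h12, h13]
      have a2 : 1 + 2 * (Lg:ℝ) ^ 2 ≤ (1 + 2 * Lg ^ 2) * J := le_mul_of_one_le_right (by positivity) hJ1
      linarith only [a1, a2]
    have q2 : (1 + 2 * (Lg:ℝ) ^ 2) * (Wd / τ + 1) ≤ (1 + 2 * Lg ^ 2) * (Wd + 1) * J := by
      have a1 : Wd / τ + 1 ≤ (Wd + 1) * J := by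
        have b1 : 1 / τ ≤ J := by
          rw [hJ]
          have h12 : 0 ≤ 1 + κ' ^ 2 * τ + κ ^ 2 * τ ^ 2 := by positivity
          linarith only [h12]
        have b2 : Wd / τ = Wd * (1 / τ) := by ring
        rw [b2]
        have b3 := mul_le_mul_of_nonneg_left b1 hWd
        linarith only [b3, hJ1]
      calc (1 + 2 * (Lg:ℝ) ^ 2) * (Wd / τ + 1) ≤ (1 + 2 * (Lg:ℝ) ^ 2) * ((Wd + 1) * J) :=
            mul_le_mul_of_nonneg_left a1 (by positivity)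
        _ = _ := by ring
    have q3 : 2 * (τ * κ') ^ 2 * (Wd / τ + 1) ≤ 2 * (Wd + τ0) * J := by
      have a1 : 2 * (τ * κ') ^ 2 * (Wd / τ + 1) = 2 * (κ' ^ 2 * τ) * (Wd + τ) := by
        field_simp
      rw [a1]
      have a2 : κ' ^ 2 * τ ≤ J := by
        rw [hJ]
        have h12 : 0 ≤ 1 + 1 / τ + κ ^ 2 * τ ^ 2 := by positivity
        linarith only [h12]
      calc 2 * (κ' ^ 2 * τ) * (Wd + τ) ≤ 2 * J * (Wd + τ0) := by
            apply mul_le_mul _ (by linarith) (by positivity) (by positivity)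
            linarith
        _ = _ := by ring
    have q4 : Xb = Kl * τ ^ 2 * ((1 + 2 * (Lg:ℝ) ^ 2 + 2 * (τ * κ) ^ 2) +
        (1 + 2 * (Lg:ℝ) ^ 2) * (Wd / τ + 1) + 2 * (τ * κ') ^ 2 * (Wd / τ + 1)) := by
      rw [hXb]; ring
    rw [q4]
    calc Kl * τ ^ 2 * ((1 + 2 * (Lg:ℝ) ^ 2 + 2 * (τ * κ) ^ 2) +
        (1 + 2 * (Lg:ℝ) ^ 2) * (Wd / τ + 1) + 2 * (τ * κ') ^ 2 * (Wd / τ + 1))
        ≤ Kl * τ ^ 2 * ((3 + 2 * Lg ^ 2) * J + (1 + 2 * Lg ^ 2) * (Wd + 1) * J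
          + 2 * (Wd + τ0) * J) := by
          apply mul_le_mul_of_nonneg_left _ (by positivity)
          linarith only [q1, q2, q3]
      _ = C1 * J * τ ^ 2 := by rw [hC1]; ring
  obtain ⟨s0, s1⟩ := SD.s_bd (D := D) h0 he
  set s := e / τ with hs
  have hse : s * τ = e := by rw [hs]; field_simp
  -- main inequality for each δ
  have hmain : ∀ δ : ℝ, 0 < δ → lamP L + lamP M ≤
      2 * (l + δ) * (1 + 2 * (e * Cν) ^ 2) + 2 * (3 * s ^ 2 * Xb + (e * Cν) * (4 * s * Xb)) := by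
    intro δ hδ
    have hRpos : 0 < (2 + (Lg:ℝ)) * τ := by positivity
    obtain ⟨U, hU, hN, hE, hdisc⟩ := exists_near_discs hΩ hne hRpos hδ
    have hU1 : Tst 1 Ω U := hU.of_le (by simp)
    have hgraph : ∀ x ∈ Icc D.p D.q, ((x, D.g x) : PP) ∉ Ω := fun x hx =>
      hbelow (x, D.g x) hx le_rfl
    have hK1 : ∀ x ∈ Icc D.p D.q, ∫ v in disc (x, D.g x) ((2 + D.Lg) * D.τ), gsq U v ≤ Kl * τ ^ 2 := by
      intro x hx
      obtain ⟨n1, n2, hn⟩ := exists_normal hΩ hconv (hgraph x hx)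
      have := (hdisc (x, D.g x) n1 n2 hn).1
      rw [hDL]
      refine this.trans (le_of_eq ?_)
      rw [hKl]; ring
    have hK2 : ∀ x ∈ Icc D.p D.q, ∫ v in disc (x, D.g x) ((2 + D.Lg) * D.τ), U v ^ 2 ≤ Km * τ ^ 2 := by
      intro x hx
      obtain ⟨n1, n2, hn⟩ := exists_normal hΩ hconv (hgraph x hx)
      have := (hdisc (x, D.g x) n1 n2 hn).2
      rw [hDL]
      refine this.trans (le_of_eq ?_)
      rw [hKm]; ring
    have hF := SD.Fn_int hU1 hbelow hW hWd hpq hκ' hη' hK1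
    rw [hDL] at hF
    have hF' : ∫ v, D.Fn U v ≤ Xb := hF
    have hF0 : 0 ≤ ∫ v, D.Fn U v := integral_nonneg (SD.Fn_nonneg U)
    -- the two Rayleigh inequalities
    have r1 := SD.stretch_test hLo hU1 hea hbelow (SD.incl_cut hDτ h0 he hbelow habove hL)
    have r2 := SD.stretch_test hMo hU1 hea' hbelow (SD.incl_add hDτ h0 he hbelow habove hM hM2)
    rw [SD.Nd_int hU1, hN] at r1 r2
    set ν : ℝ := s * ∫ v in D.St, D.η v.1 * U v ^ 2 with hν
    have r1' : lamP L * (1 - ν) ≤ ∫ v, D.Ed e U v := r1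
    have r2' : lamP M * (1 + ν) ≤ ∫ v, D.Ed (-e) U v := by
      have : (1:ℝ) - -e / D.τ * ∫ v in D.St, D.η v.1 * U v ^ 2 = 1 + ν := by
        rw [hν, hs]; ring
      rwa [this] at r2
    have hηc := D.hη.continuous
    have hUc := hU1.1.continuous
    have hi : Integrable (fun v : PP => D.η v.1 * U v ^ 2) :=
      integrable_of_cont (by fun_prop) (hasCompactSupport_sq hU1.2.1).mul_left
    have hI0 : 0 ≤ ∫ v in D.St, D.η v.1 * U v ^ 2 := by
      apply setIntegral_nonneg (SD.St_meas D)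
      intro v _; exact mul_nonneg (D.hη0 _) (sq_nonneg _)
    have hI1 : ∫ v in D.St, D.η v.1 * U v ^ 2 ≤ ∫ v in D.St, U v ^ 2 := by
      apply setIntegral_mono hi.integrableOn hU1.int_sq.integrableOn
      intro v
      show D.η v.1 * U v ^ 2 ≤ U v ^ 2
      exact mul_le_of_le_one_left (sq_nonneg _) (D.hη1 _)
    have hI2 : ∫ v in D.St, U v ^ 2 ≤ 1 := by
      have := setIntegral_le_integral (s := D.St) hU1.int_sq
        (Eventually.of_forall (fun v => sq_nonneg (U v)))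
      rwa [show ∫ v, U v ^ 2 = Nm U from rfl, hN] at this
    have hI3 : ∫ v in D.St, U v ^ 2 ≤ (Wd / τ + 1) * (Km * τ ^ 2) := by
      apply SD.strip_le (fun v => sq_nonneg (U v)) hU1.int_sq _ hbelow hW hWd hpq hK2
      intro v hv
      have : U v = 0 := image_eq_zero_of_notMem_tsupport (fun h => hv (hU1.2.2 h))
      rw [this]; simp
    have hν0 : 0 ≤ ν := mul_nonneg s0 hI0
    have hν1 : ν ≤ 1 / 4 := by
      calc ν ≤ s * 1 := mul_le_mul_of_nonneg_left (hI1.trans hI2) s0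
        _ ≤ 1 / 4 := by linarith
    have hνb : ν ≤ e * Cν := by
      calc ν ≤ s * ((Wd / τ + 1) * (Km * τ ^ 2)) := mul_le_mul_of_nonneg_left (hI1.trans hI3) s0
        _ = (s * τ) * ((Wd + τ) * Km) := by field_simp
        _ = e * ((Wd + τ) * Km) := by rw [hse]
        _ ≤ e * Cν := by
            apply mul_le_mul_of_nonneg_left _ h0
            rw [hCν]
            exact mul_le_mul_of_nonneg_right (by linarith) hKm0
    -- energies
    have i1 := SD.Ed_integrable hU1 hea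
    have i2 := SD.Ed_integrable hU1 hea'
    have iF := SD.Fn_integrable (D := D) hU1
    have iG := hU1.int_gsq le_rfl
    have hsum : (∫ v, D.Ed e U v) + ∫ v, D.Ed (-e) U v ≤ 2 * (l + δ) + 3 * s ^ 2 * ∫ v, D.Fn U v := by
      rw [← integral_add i1 i2]
      calc ∫ v, (D.Ed e U v + D.Ed (-e) U v) ≤ ∫ v, (2 * gsq U v + 3 * s ^ 2 * D.Fn U v) :=
            integral_mono (i1.add i2) ((iG.const_mul _).add (iF.const_mul _))
              (fun v => SD.Ed_sum h0 he U v)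
        _ = 2 * En U + 3 * s ^ 2 * ∫ v, D.Fn U v := by
            rw [integral_add (iG.const_mul _) (iF.const_mul _), integral_const_mul,
              integral_const_mul]
            rfl
        _ ≤ _ := by linarith only [hE]
    have hdiff : |(∫ v, D.Ed e U v) - ∫ v, D.Ed (-e) U v| ≤ 4 * s * ∫ v, D.Fn U v := by
      rw [← integral_sub i1 i2]
      calc |∫ v, (D.Ed e U v - D.Ed (-e) U v)| ≤ ∫ v, |D.Ed e U v - D.Ed (-e) U v| :=
            abs_integral_le_integral_abs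
        _ ≤ ∫ v, 4 * s * D.Fn U v :=
            integral_mono (i1.sub i2).abs (iF.const_mul _) (fun v => SD.Ed_diff h0 he U v)
        _ = _ := by rw [integral_const_mul]
    have hfin := final_alg (by linarith : 0 ≤ l + δ) hν0 hν1 r1' r2' hsum hdiff (by positivity)
    refine hfin.trans ?_
    have z1 : ν ^ 2 ≤ (e * Cν) ^ 2 := by gcongr
    have z2 : 3 * s ^ 2 * ∫ v, D.Fn U v ≤ 3 * s ^ 2 * Xb := mul_le_mul_of_nonneg_left hF' (by positivity)
    have z3 : ν * (4 * s * ∫ v, D.Fn U v) ≤ (e * Cν) * (4 * s * Xb) := by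
      apply mul_le_mul hνb _ (by positivity) (by positivity)
      exact mul_le_mul_of_nonneg_left hF' (by positivity)
    have z4 : 2 * (l + δ) * (1 + 2 * ν ^ 2) ≤ 2 * (l + δ) * (1 + 2 * (e * Cν) ^ 2) := by
      apply mul_le_mul_of_nonneg_left _ (by positivity); linarith only [z1]
    linarith only [z2, z3, z4]
  -- let δ → 0
  have hlim : lamP L + lamP M ≤
      2 * l * (1 + 2 * (e * Cν) ^ 2) + 2 * (3 * s ^ 2 * Xb + (e * Cν) * (4 * s * Xb)) := by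
    apply le_of_forall_pos_le_add
    intro ε hε
    have hc : 0 < 2 * (1 + 2 * (e * Cν) ^ 2) := by positivity
    have := hmain (ε / (2 * (1 + 2 * (e * Cν) ^ 2))) (by positivity)
    refine this.trans (le_of_eq ?_)
    field_simp
    ring
  refine hlim.trans ?_
  have y1 : s ^ 2 * Xb ≤ e ^ 2 * (C1 * J) := by
    calc s ^ 2 * Xb ≤ s ^ 2 * (C1 * J * τ ^ 2) := mul_le_mul_of_nonneg_left hXb1 (by positivity)
      _ = (s * τ) ^ 2 * (C1 * J) := by ring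
      _ = _ := by rw [hse]
  have y2 : s * Xb ≤ e * (τ0 * C1 * J) := by
    calc s * Xb ≤ s * (C1 * J * τ ^ 2) := mul_le_mul_of_nonneg_left hXb1 s0
      _ = (s * τ) * (τ * C1 * J) := by ring
      _ = e * (τ * C1 * J) := by rw [hse]
      _ ≤ _ := by
          apply mul_le_mul_of_nonneg_left _ h0
          apply mul_le_mul_of_nonneg_right _ hJ0
          exact mul_le_mul_of_nonneg_right hDτ hC10
  have y3 : (e * Cν) * (4 * s * Xb) ≤ e ^ 2 * (Cν * (4 * (τ0 * C1)) * J) := by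
    calc (e * Cν) * (4 * s * Xb) = 4 * (e * Cν) * (s * Xb) := by ring
      _ ≤ 4 * (e * Cν) * (e * (τ0 * C1 * J)) := mul_le_mul_of_nonneg_left y2 (by positivity)
      _ = _ := by ring
  have y4 : 2 * l * (1 + 2 * (e * Cν) ^ 2) ≤ 2 * l + e ^ 2 * (4 * l * Cν ^ 2 * J) := by
    have h11 : e ^ 2 * (4 * l * Cν ^ 2) * 1 ≤ e ^ 2 * (4 * l * Cν ^ 2) * J :=
      mul_le_mul_of_nonneg_left hJ1 (by positivity)
    calc 2 * l * (1 + 2 * (e * Cν) ^ 2) = 2 * l + e ^ 2 * (4 * l * Cν ^ 2) * 1 := by ring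
      _ ≤ 2 * l + e ^ 2 * (4 * l * Cν ^ 2) * J := by linarith only [h11]
      _ = _ := by ring
  have y5 : C * e ^ 2 * J = e ^ 2 * (4 * l * Cν ^ 2 * J) + 2 * (3 * (e ^ 2 * (C1 * J)) +
      e ^ 2 * (Cν * (4 * (τ0 * C1)) * J)) := by rw [hC]; ring
  rw [y5]
  linarith only [y1, y3, y4]

end

end Pool.Agent.MP70c477
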