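import Pool.Agent.MP70c477.AFinal2
import Pool.Agent.MP70c477.ABridge

set_option autoImplicit false
set_option linter.unusedVariables false

open MeasureTheory Set Filter Topology ContinuousLinearMap
open scoped Convolution ENNReal NNReal Pointwise

namespace Pool.Agent.MP70c477

open Pool.MP70c477

/-- **A4**: second order upper bound for the first eigenvalue under a cut / bump pair of
perturbations at a graph part of the boundary. -/
theorem lam_second_diff {Ω : Set Pl} (hΩ : IsPlanarConvex Ω) {Lg Wd τ0 : ℝ} (hLg : 0 ≤ Lg)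
    (hWd : 0 ≤ Wd) (hτ0 : 0 < τ0) :
    ∃ C : ℝ, 0 ≤ C ∧ ∀ (p q : ℝ) (g : ℝ → ℝ), p < q → q - p ≤ Wd →
      (∀ x ∈ Icc p q, ∀ x' ∈ Icc p q, |g x - g x'| ≤ Lg * |x - x'|) →
      (∀ x ∈ Icc p q, ∀ z : ℝ, 0 < z → z ≤ 2 * τ0 → (!₂[x, g x + z] : Pl) ∈ Ω) →
      (∀ x ∈ Icc p q, ∀ z : ℝ, 0 ≤ z → (!₂[x, g x - z] : Pl) ∉ Ω) →
      ∀ (τ κ κ' : ℝ) (η : ℝ → ℝ), 0 < τ → τ ≤ τ0 → 0 ≤ κ → 0 ≤ κ' →
      (∀ x, 0 ≤ η x) → (∀ x, η x ≤ 1) → (∀ x, x ≤ p → η x = 0) → (∀ x, q ≤ x → η x = 0) →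
      (∀ x x', |η x - η x'| ≤ κ * |x - x'|) →
      (∀ x ∈ Icc (p + τ) q, ∀ x' ∈ Icc (p + τ) q, |η x - η x'| ≤ κ' * |x - x'|) →
      ∀ e : ℝ, 0 ≤ e → e ≤ τ / 4 → ∀ L M : Set Pl, IsOpen L → IsOpen M →
      (∀ v ∈ Ω, ¬ (v 0 ∈ Icc p q ∧ v 1 ≤ g (v 0) + e * η (v 0)) → v ∈ L) → Ω ⊆ M →
      (∀ v : Pl, v 0 ∈ Ioo p q → g (v 0) - e * η (v 0) < v 1 → v 1 ≤ g (v 0) → v ∈ M) →
      lam L + lam M ≤ 2 * lam Ω + C * e ^ 2 * (1 + 1 / τ + κ' ^ 2 * τ + κ ^ 2 * τ ^ 2) := by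
  obtain ⟨C, hC0, hC⟩ := second_diff (isOpen_EF hΩ.isOpen) (nonempty_EF hΩ.nonempty)
    (convex_EF hΩ.convex) (Real.toNNReal Lg) hWd hτ0
  refine ⟨C, hC0, ?_⟩
  intro p q g hpq hW hg habove hbelow τ κ κ' η hτ hττ hκ hκ' hη0 hη1 hηp hηq hηL hηL' e he0 he L M
    hLo hMo hL hM hM2
  set G : ℝ → ℝ := fun x => g (max p (min x q)) with hG
  have hproj : ∀ x, max p (min x q) ∈ Icc p q := fun x =>
    ⟨le_max_left _ _, max_le hpq.le (min_le_right _ _)⟩
  have hGeq : ∀ x ∈ Icc p q, G x = g x := by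
    intro x hx
    rw [hG]
    show g (max p (min x q)) = g x
    rw [min_eq_left hx.2, max_eq_right hx.1]
  have hGL : LipschitzWith (Real.toNNReal Lg) G := by
    apply LipschitzWith.of_dist_le_mul
    intro x x'
    rw [Real.dist_eq, Real.dist_eq, Real.coe_toNNReal _ hLg]
    refine (hg _ (hproj x) _ (hproj x')).trans ?_
    apply mul_le_mul_of_nonneg_left _ hLg
    refine (?_ : |max p (min x q) - max p (min x' q)| ≤ |min x q - min x' q|).trans ?_
    · rw [max_comm p, max_comm p]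
      exact abs_max_sub_max_le_abs _ _ _
    · have := abs_min_sub_min_le_max x q x' q
      simpa using this
  have hηLip : LipschitzWith (Real.toNNReal κ) η := by
    apply LipschitzWith.of_dist_le_mul
    intro x x'
    rw [Real.dist_eq, Real.dist_eq, Real.coe_toNNReal _ hκ]
    exact hηL x x'
  let D : SD := 
    { g := G, η := η, p := p, q := q, τ := τ, Lg := Real.toNNReal Lg, κ := Real.toNNReal κ,
      hg := hGL, hη := hηLip, hη0 := hη0, hη1 := hη1,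
      hηs := by
        intro x hx
        by_cases h1 : x ≤ p
        · exact hηp x h1
        · by_cases h2 : q ≤ x
          · exact hηq x h2
          · exact absurd ⟨not_le.1 h1, not_le.1 h2⟩ hx
      hτ := hτ }
  have hres := hC D rfl hpq hW hττ ?_ ?_ κ' hκ' hηL' e he0 he (EF ⁻¹' L) (EF ⁻¹' M)
    (isOpen_EF hLo) (isOpen_EF hMo) ?_ ?_ ?_
  · rw [lam_eq, lam_eq, lam_eq]
    have hk : ((D.κ : ℝ≥0) : ℝ) = κ := Real.coe_toNNReal _ hκ
    rw [hk] at hres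
    exact hres
  · -- below
    intro v hv h2 hmem
    rw [mem_EF] at hmem
    have h3 : v.2 ≤ g v.1 := by
      have : v.2 ≤ G v.1 := h2
      rwa [hGeq _ hv] at this
    apply hbelow v.1 hv (g v.1 - v.2) (by linarith)
    convert hmem using 3
    ring_nf
  · -- above
    intro x hx z hz hz2
    rw [mem_EF]
    have := habove x hx z hz hz2
    show (!₂[x, G x + z] : Pl) ∈ Ω
    rw [hGeq x hx]
    exact this
  · intro v hv hn
    rw [mem_preimage] at hv ⊢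
    apply hL _ hv
    rintro ⟨h1, h2⟩
    rw [EF_apply_zero] at h1
    rw [EF_apply_zero, EF_apply_one] at h2
    apply hn
    refine ⟨h1, ?_⟩
    show v.2 ≤ G v.1 + e * η v.1
    rw [hGeq _ h1]
    exact h2
  · exact preimage_mono hM
  · intro v hv h1 h2
    rw [mem_preimage]
    have hv' : v.1 ∈ Icc p q := ⟨hv.1.le, hv.2.le⟩
    have h1' : G v.1 - e * η v.1 < v.2 := h1
    have h2' : v.2 ≤ G v.1 := h2
    rw [hGeq _ hv'] at h1' h2'
    apply hM2
    · rw [EF_apply_zero]; exact hv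
    · rw [EF_apply_zero, EF_apply_one]; exact h1'
    · rw [EF_apply_zero, EF_apply_one]; exact h2'

end Pool.Agent.MP70c477
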