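import Pool.Agent.MP70c477.AStrict2
import Pool.Agent.MP70c477.ABridge

set_option autoImplicit false
set_option linter.unusedVariables false

open MeasureTheory Set Filter Topology ContinuousLinearMap
open scoped Convolution ENNReal NNReal Pointwise

namespace Pool.Agent.MP70c477

open Pool.MP70c477

/-- **A1** -/
theorem lam_pos {Ω : Set Pl} (hΩ : IsPlanarConvex Ω) : 0 < lam Ω := by
  rw [lam_eq]
  exact lamP_pos (isOpen_EF hΩ.isOpen) (nonempty_EF hΩ.nonempty) (isBounded_EF hΩ.bdd)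

/-- monotonicity -/
theorem lam_anti {Ω Ω' : Set Pl} (hΩ : IsOpen Ω) (hne : Ω.Nonempty) (h : Ω ⊆ Ω') :
    lam Ω' ≤ lam Ω := by
  rw [lam_eq, lam_eq]
  exact lamP_anti (isOpen_EF hΩ) (nonempty_EF hne) (preimage_mono h)

/-- **A3**: strict monotonicity -/
theorem lam_strict {Ω Ω' : Set Pl} (hΩ : IsPlanarConvex Ω) (hΩ' : IsPlanarConvex Ω')
    (hsub : Ω ⊆ Ω') (hne : Ω ≠ Ω') : lam Ω' < lam Ω := by
  have hex : ∃ a ∈ Ω', a ∉ closure Ω := by
    by_contra hcon
    push Not at hcon
    apply hne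
    apply hsub.antisymm
    have h1 : Ω' ⊆ interior (closure Ω) := interior_maximal hcon hΩ'.isOpen
    have h2 : interior (closure Ω) = interior Ω := by
      apply hΩ.convex.interior_closure_eq_interior_of_nonempty_interior
      rw [hΩ.isOpen.interior_eq]; exact hΩ.nonempty
    rw [h2, hΩ.isOpen.interior_eq] at h1
    exact h1
  obtain ⟨a, ha, hnot⟩ := hex
  rw [lam_eq, lam_eq]
  apply lamP_strict (isOpen_EF hΩ.isOpen) (nonempty_EF hΩ.nonempty) (isOpen_EF hΩ'.isOpen)
    (convex_EF hΩ'.convex) (isBounded_EF hΩ'.bdd) (preimage_mono hsub) (a := EF.symm a)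
  · simpa using ha
  · intro h
    apply hnot
    have hcl : closure (EF ⁻¹' Ω) = EF ⁻¹' (closure Ω) :=
      (EF.toHomeomorph.preimage_closure Ω).symm
    rw [hcl] at h
    simpa using h

end Pool.Agent.MP70c477
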