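import Mathlib

set_option autoImplicit false
set_option linter.unusedVariables false

open MeasureTheory Set Filter Topology ContinuousLinearMap
open scoped Convolution ENNReal NNReal Pointwise

namespace Pool.Agent.MP70c477

/-- the plane, with coordinates -/
abbrev PP := ℝ × ℝ

noncomputable section

def ex : PP := (1, 0)
def ey : PP := (0, 1)

/-- squared Euclidean norm of the gradient -/
def gsq (U : PP → ℝ) (p : PP) : ℝ := (fderiv ℝ U p ex) ^ 2 + (fderiv ℝ U p ey) ^ 2
/-- Dirichlet energy -/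
def En (U : PP → ℝ) : ℝ := ∫ p, gsq U p
/-- squared L2 norm -/
def Nm (U : PP → ℝ) : ℝ := ∫ p, U p ^ 2

/-- test functions of class `C^n` with compact support in `Ω` -/
def Tst (n : WithTop ℕ∞) (Ω : Set PP) (U : PP → ℝ) : Prop :=
  ContDiff ℝ n U ∧ HasCompactSupport U ∧ tsupport U ⊆ Ω

/-- first Dirichlet eigenvalue in coordinates -/
def lamP (Ω : Set PP) : ℝ :=
  sInf {q : ℝ | ∃ U : PP → ℝ, Tst ((⊤ : ℕ∞) : WithTop ℕ∞) Ω U ∧ U ≠ 0 ∧ q = En U / Nm U}

lemma gsq_nonneg (U : PP → ℝ) (p : PP) : 0 ≤ gsq U p := by unfold gsq; positivity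
lemma En_nonneg (U : PP → ℝ) : 0 ≤ En U := integral_nonneg (gsq_nonneg U)
lemma Nm_nonneg (U : PP → ℝ) : 0 ≤ Nm U := integral_nonneg (fun p => sq_nonneg _)

/-- convolution with a weight -/
def cv (ψ G : PP → ℝ) (p : PP) : ℝ := ∫ t, ψ t * G (p - t)

lemma cv_eq (ψ G : PP → ℝ) : cv ψ G = (ψ ⋆[lsmul ℝ ℝ, volume] G) := by
  ext p
  simp [cv, convolution_def, lsmul_apply]

lemma integrable_of_cont {G : PP → ℝ} (hG : Continuous G) (hc : HasCompactSupport G) :
    Integrable G := hG.integrable_of_hasCompactSupport hc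

lemma cv_integrable {ψ G : PP → ℝ} (hψ : Continuous ψ) (hψc : HasCompactSupport ψ)
    (hG : Continuous G) (p : PP) : Integrable (fun t => ψ t * G (p - t)) := by
  apply Continuous.integrable_of_hasCompactSupport
  · fun_prop
  · exact hψc.mul_right

/-- Jensen inequality for the square of a convolution -/
lemma cv_sq_le {ψ G : PP → ℝ} (hψ : Continuous ψ) (hψc : HasCompactSupport ψ)
    (hψ0 : ∀ t, 0 ≤ ψ t) (hψ1 : ∫ t, ψ t = 1) (hG : Continuous G) (p : PP) :
    (cv ψ G p) ^ 2 ≤ cv ψ (fun q => G q ^ 2) p := by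
  have h1 := cv_integrable hψ hψc hG p
  have hG2 : Continuous (fun q => G q ^ 2) := by fun_prop
  have h2 : Integrable (fun t => ψ t * G (p - t) ^ 2) := cv_integrable hψ hψc hG2 p
  have h3 : Integrable ψ := integrable_of_cont hψ hψc
  have key : 0 ≤ ∫ t, ψ t * (G (p - t) - cv ψ G p) ^ 2 :=
    integral_nonneg (fun t => mul_nonneg (hψ0 t) (sq_nonneg _))
  have e : ∫ t, ψ t * (G (p - t) - cv ψ G p) ^ 2
      = cv ψ (fun q => G q ^ 2) p - (cv ψ G p) ^ 2 := by
    have : (fun t => ψ t * (G (p - t) - cv ψ G p) ^ 2)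
        = fun t => (ψ t * (G (p - t)) ^ 2 - 2 * cv ψ G p * (ψ t * G (p - t)))
          + (cv ψ G p) ^ 2 * ψ t := by
      ext t; ring
    have i1 : Integrable (fun t => ψ t * (G (p - t)) ^ 2 - 2 * cv ψ G p * (ψ t * G (p - t))) :=
      h2.sub (h1.const_mul _)
    rw [this, integral_add i1 (h3.const_mul _),
      integral_sub h2 (h1.const_mul _), integral_const_mul, integral_const_mul, hψ1]
    have : ∫ t, ψ t * G (p - t) = cv ψ G p := rfl
    rw [this]
    have : ∫ t, ψ t * G (p - t) ^ 2 = cv ψ (fun q => G q ^ 2) p := rfl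
    rw [this]
    ring
  rw [e] at key
  linarith

lemma cv_abs_le {ψ G : PP → ℝ} (hψ : Continuous ψ) (hψc : HasCompactSupport ψ)
    (hψ0 : ∀ t, 0 ≤ ψ t) (hG : Continuous G) (p : PP) :
    |cv ψ G p| ≤ cv ψ (fun q => |G q|) p := by
  unfold cv
  refine (abs_integral_le_integral_abs).trans (le_of_eq ?_)
  congr 1; ext t
  rw [abs_mul, abs_of_nonneg (hψ0 t)]

lemma integral_cv {ψ G : PP → ℝ} (hψ : Continuous ψ) (hψc : HasCompactSupport ψ)
    (hψ1 : ∫ t, ψ t = 1) (hG : Continuous G) (hGc : HasCompactSupport G) :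
    ∫ p, cv ψ G p = ∫ p, G p := by
  rw [cv_eq, integral_convolution _ (integrable_of_cont hψ hψc) (integrable_of_cont hG hGc), hψ1]
  simp

lemma cv_integrable_full {ψ G : PP → ℝ} (hψ : Continuous ψ) (hψc : HasCompactSupport ψ)
    (hG : Continuous G) (hGc : HasCompactSupport G) :
    Integrable (cv ψ G) := by
  rw [cv_eq]
  exact (integrable_of_cont hψ hψc).integrable_convolution _ (integrable_of_cont hG hGc)

lemma hasCompactSupport_sq {G : PP → ℝ} (hGc : HasCompactSupport G) :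
    HasCompactSupport (fun q => G q ^ 2) := by
  have : (fun q => G q ^ 2) = fun q => G q * G q := by ext; ring
  rw [this]; exact hGc.mul_right

lemma cv_continuous {ψ G : PP → ℝ} (hψ : Continuous ψ) (hψc : HasCompactSupport ψ)
    (hG : Continuous G) : Continuous (cv ψ G) := by
  rw [cv_eq]
  exact hψc.continuous_convolution_left _ hψ hG.locallyIntegrable

lemma cv_hasCompactSupport {ψ G : PP → ℝ} (hψc : HasCompactSupport ψ)
    (hGc : HasCompactSupport G) : HasCompactSupport (cv ψ G) := by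
  rw [cv_eq]; exact hψc.convolution _ hGc

lemma integral_cv_sq_le {ψ G : PP → ℝ} (hψ : Continuous ψ) (hψc : HasCompactSupport ψ)
    (hψ0 : ∀ t, 0 ≤ ψ t) (hψ1 : ∫ t, ψ t = 1) (hG : Continuous G) (hGc : HasCompactSupport G) :
    ∫ p, (cv ψ G p) ^ 2 ≤ ∫ p, G p ^ 2 := by
  have hG2 : Continuous (fun q => G q ^ 2) := by fun_prop
  rw [← integral_cv hψ hψc hψ1 hG2 (hasCompactSupport_sq hGc)]
  apply integral_mono
  · apply Continuous.integrable_of_hasCompactSupport
    · exact (cv_continuous hψ hψc hG).pow 2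
    · exact hasCompactSupport_sq (cv_hasCompactSupport hψc hGc)
  · exact cv_integrable_full hψ hψc hG2 (hasCompactSupport_sq hGc)
  · intro p
    exact cv_sq_le hψ hψc hψ0 hψ1 hG p

lemma integral_cv_abs_le {ψ G : PP → ℝ} (hψ : Continuous ψ) (hψc : HasCompactSupport ψ)
    (hψ0 : ∀ t, 0 ≤ ψ t) (hψ1 : ∫ t, ψ t = 1) (hG : Continuous G) (hGc : HasCompactSupport G) :
    ∫ p, |cv ψ G p| ≤ ∫ p, |G p| := by
  have hGa : HasCompactSupport (fun q => |G q|) := hGc.norm
  rw [← integral_cv hψ hψc hψ1 hG.abs hGa]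
  apply integral_mono
  · exact (cv_integrable_full hψ hψc hG hGc).abs
  · exact cv_integrable_full hψ hψc hG.abs hGa
  · intro p
    exact cv_abs_le hψ hψc hψ0 hG p

lemma cv_sub {ψ G H : PP → ℝ} (hψ : Continuous ψ) (hψc : HasCompactSupport ψ)
    (hG : Continuous G) (hH : Continuous H) (p : PP) :
    cv ψ (fun q => G q - H q) p = cv ψ G p - cv ψ H p := by
  unfold cv
  rw [← integral_sub (cv_integrable hψ hψc hG p) (cv_integrable hψ hψc hH p)]
  congr 1; ext t; ring

lemma cv_shift {ψ G : PP → ℝ} (v p : PP) :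
    cv ψ G (p + v) = cv ψ (fun q => G (q + v)) p := by
  unfold cv
  congr 1; ext t
  congr 2
  abel

lemma hasCompactSupport_shift {G : PP → ℝ} (hGc : HasCompactSupport G) (v : PP) :
    HasCompactSupport (fun q => G (q + v)) :=
  hGc.comp_homeomorph (Homeomorph.addRight v)

/-- difference quotients of the mollification are controlled, L2 version -/
lemma integral_cv_diff_sq_le {ψ G : PP → ℝ} (hψ : Continuous ψ) (hψc : HasCompactSupport ψ)
    (hψ0 : ∀ t, 0 ≤ ψ t) (hψ1 : ∫ t, ψ t = 1) (hG : Continuous G) (hGc : HasCompactSupport G)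
    (v : PP) :
    ∫ p, (cv ψ G (p + v) - cv ψ G p) ^ 2 ≤ ∫ p, (G (p + v) - G p) ^ 2 := by
  have h1 : ∀ p, cv ψ G (p + v) - cv ψ G p = cv ψ (fun q => G (q + v) - G q) p := by
    intro p
    rw [cv_shift, cv_sub hψ hψc (by fun_prop) hG]
  simp_rw [h1]
  apply integral_cv_sq_le hψ hψc hψ0 hψ1 (by fun_prop)
  exact (hasCompactSupport_shift hGc v).sub hGc

/-- difference quotients of the mollification are controlled, L1 version -/
lemma integral_cv_diff_abs_le {ψ G : PP → ℝ} (hψ : Continuous ψ) (hψc : HasCompactSupport ψ)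
    (hψ0 : ∀ t, 0 ≤ ψ t) (hψ1 : ∫ t, ψ t = 1) (hG : Continuous G) (hGc : HasCompactSupport G)
    (v : PP) :
    ∫ p, |cv ψ G (p + v) - cv ψ G p| ≤ ∫ p, |G (p + v) - G p| := by
  have h1 : ∀ p, cv ψ G (p + v) - cv ψ G p = cv ψ (fun q => G (q + v) - G q) p := by
    intro p
    rw [cv_shift, cv_sub hψ hψc (by fun_prop) hG]
  simp_rw [h1]
  apply integral_cv_abs_le hψ hψc hψ0 hψ1 (by fun_prop)
  exact (hasCompactSupport_shift hGc v).sub hGc

/-- limit of difference quotients, L2 version -/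
lemma tendsto_diffquot_sq {V : PP → ℝ} {C : ℝ≥0} (hV : LipschitzWith C V)
    (hc : HasCompactSupport V) (v : PP) {a : PP → ℝ}
    (ha : ∀ᵐ p, HasDerivAt (fun t : ℝ => V (p + t • v)) (a p) 0) :
    Tendsto (fun n : ℕ => ∫ p, ((V (p + (1 / ((n : ℝ) + 1)) • v) - V p) / (1 / ((n : ℝ) + 1))) ^ 2)
      atTop (𝓝 (∫ p, a p ^ 2)) := by
  obtain ⟨R, hR⟩ := hc.isBounded.subset_closedBall (0 : PP)
  set B : Set PP := Metric.closedBall (0 : PP) (R + ‖v‖) with hB
  have hBc : IsCompact B := isCompact_closedBall _ _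
  apply tendsto_integral_of_dominated_convergence
    (B.indicator (fun _ => (C * ‖v‖) ^ 2))
  · intro n
    apply Continuous.aestronglyMeasurable
    have := hV.continuous
    fun_prop
  · exact (integrable_indicator_iff hBc.measurableSet).2
      (integrableOn_const (hBc.measure_lt_top.ne))
  · intro n
    refine Eventually.of_forall (fun p => ?_)
    set h : ℝ := 1 / ((n : ℝ) + 1) with hh
    have hpos : 0 < h := by positivity
    have hle1 : h ≤ 1 := by
      rw [hh, div_le_one (by positivity)]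
      have : (0 : ℝ) ≤ n := Nat.cast_nonneg n
      linarith
    by_cases hp : p ∈ B
    · rw [indicator_of_mem hp, Real.norm_eq_abs, abs_of_nonneg (sq_nonneg _)]
      have h1 : |V (p + h • v) - V p| ≤ C * (h * ‖v‖) := by
        have := hV.dist_le_mul (p + h • v) p
        rw [Real.dist_eq, dist_eq_norm] at this
        simpa [norm_smul, abs_of_pos hpos] using this
      have h2 : |(V (p + h • v) - V p) / h| ≤ C * ‖v‖ := by
        rw [abs_div, abs_of_pos hpos, div_le_iff₀ hpos]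
        calc |V (p + h • v) - V p| ≤ C * (h * ‖v‖) := h1
          _ = C * ‖v‖ * h := by ring
      calc ((V (p + h • v) - V p) / h) ^ 2 = |(V (p + h • v) - V p) / h| ^ 2 := by rw [sq_abs]
        _ ≤ (C * ‖v‖) ^ 2 := by gcongr
    · rw [indicator_of_notMem hp]
      have hz : V p = 0 := by
        by_contra hne
        apply hp
        have := hR (subset_tsupport _ hne)
        rw [hB]
        exact Metric.closedBall_subset_closedBall (by linarith [norm_nonneg v]) this
      have hz2 : V (p + h • v) = 0 := by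
        by_contra hne
        apply hp
        have h3 := hR (subset_tsupport _ hne)
        rw [mem_closedBall_zero_iff] at h3
        rw [hB, mem_closedBall_zero_iff]
        calc ‖p‖ = ‖(p + h • v) - h • v‖ := by congr 1; abel
          _ ≤ ‖p + h • v‖ + ‖h • v‖ := norm_sub_le _ _
          _ ≤ R + ‖v‖ := by
              have : ‖h • v‖ ≤ ‖v‖ := by
                rw [norm_smul, Real.norm_eq_abs, abs_of_pos hpos]
                nlinarith [norm_nonneg v]
              linarith
      simp [hz, hz2]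
  · filter_upwards [ha] with p hp
    have h1 : Tendsto (fun n : ℕ => (1 : ℝ) / ((n : ℝ) + 1)) atTop (𝓝[≠] 0) := by
      rw [tendsto_nhdsWithin_iff]
      refine ⟨tendsto_one_div_add_atTop_nhds_zero_nat, Eventually.of_forall (fun n => ?_)⟩
      have : (0:ℝ) < 1 / ((n : ℝ) + 1) := by positivity
      exact this.ne'
    have h2 := (hasDerivAt_iff_tendsto_slope.1 hp).comp h1
    have h3 : Tendsto (fun n : ℕ => (V (p + (1 / ((n : ℝ) + 1)) • v) - V p) / (1 / ((n : ℝ) + 1)))
        atTop (𝓝 (a p)) := by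
      refine h2.congr (fun n => ?_)
      simp only [Function.comp, slope_def_field]
      simp
    exact h3.pow 2

lemma cv_hasCompactSupport' {ψ G : PP → ℝ} (hψc : HasCompactSupport ψ)
    (hGc : HasCompactSupport G) : HasCompactSupport (cv ψ G) := cv_hasCompactSupport hψc hGc

/-- existence of good mollifications -/
theorem exists_mollify {Ω : Set PP} (hΩ : IsOpen Ω) {V : PP → ℝ} (hV : Continuous V)
    (hc : HasCompactSupport V) (hs : tsupport V ⊆ Ω) {δ : ℝ} (hδ : 0 < δ) :
    ∃ W : PP → ℝ, Tst ((⊤ : ℕ∞) : WithTop ℕ∞) Ω W ∧ (∀ p, |W p - V p| ≤ δ) ∧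
      (∀ v : PP, ∫ p, (W (p + v) - W p) ^ 2 ≤ ∫ p, (V (p + v) - V p) ^ 2) ∧
      (∀ v : PP, ∫ p, |W (p + v) - W p| ≤ ∫ p, |V (p + v) - V p|) ∧
      (∀ C : ℝ≥0, LipschitzWith C V → LipschitzWith C W) ∧
      ((∀ p, 0 ≤ V p) → ∀ p, 0 ≤ W p) ∧ (∀ c : ℝ, (∀ p, V p ≤ c) → ∀ p, W p ≤ c) := by
  -- choose the radius
  have hK : IsCompact (tsupport V) := hc
  obtain ⟨r0, hr0, hr0s⟩ := hK.exists_cthickening_subset_open hΩ hs
  have huc : UniformContinuous V := hc.uniformContinuous_of_continuous hV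
  rw [Metric.uniformContinuous_iff] at huc
  obtain ⟨r1, hr1, hr1s⟩ := huc δ hδ
  set r : ℝ := min r0 r1 with hr
  have hrpos : 0 < r := lt_min hr0 hr1
  let φ : ContDiffBump (0 : PP) := ⟨r / 2, r, by positivity, by linarith⟩
  set ψ : PP → ℝ := φ.normed volume with hψdef
  have hψ : Continuous ψ := φ.continuous_normed
  have hψs : ContDiff ℝ ((⊤ : ℕ∞) : WithTop ℕ∞) ψ := φ.contDiff_normed
  have hψc : HasCompactSupport ψ := φ.hasCompactSupport_normed
  have hψ0 : ∀ t, 0 ≤ ψ t := fun t => φ.nonneg_normed t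
  have hψ1 : ∫ t, ψ t = 1 := φ.integral_normed
  have hψint : Integrable ψ := integrable_of_cont hψ hψc
  refine ⟨cv ψ V, ⟨?_, cv_hasCompactSupport hψc hc, ?_⟩, ?_, ?_, ?_, ?_, ?_, ?_⟩
  · rw [cv_eq]
    exact hψc.contDiff_convolution_left _ hψs hV.locallyIntegrable
  · -- support
    have h1 : Function.support (cv ψ V) ⊆ Metric.cthickening r0 (tsupport V) := by
      intro p hp
      rw [cv_eq] at hp
      have h2 := support_convolution_subset (L := lsmul ℝ ℝ) (μ := (volume : Measure PP))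
        (f := ψ) (g := V) hp
      obtain ⟨a, ha, b, hb, hab⟩ := Set.mem_add.1 h2
      have ha2 : a ∈ Metric.ball (0 : PP) r := by
        have := φ.support_normed_eq (μ := (volume : Measure PP))
        rw [hψdef] at ha
        rw [this] at ha
        exact ha
      apply Metric.mem_cthickening_of_dist_le p b r0 _ (subset_tsupport _ hb)
      rw [← hab, dist_eq_norm]
      have : a + b - b = a := by abel
      rw [this]
      have := mem_ball_zero_iff.1 ha2
      exact this.le.trans (min_le_left _ _)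
    exact (closure_minimal h1 Metric.isClosed_cthickening).trans hr0s
  · intro p
    have h1 := φ.dist_normed_convolution_le (x₀ := p) (ε := δ) (μ := (volume : Measure PP))
      (g := V) hV.aestronglyMeasurable (fun x hx => by
        have hx' : dist x p < r1 := lt_of_lt_of_le hx (min_le_right _ _)
        exact (hr1s hx').le)
    rw [cv_eq]
    rw [Real.dist_eq] at h1
    exact h1
  · intro v
    exact integral_cv_diff_sq_le hψ hψc hψ0 hψ1 hV hc v
  · intro v
    exact integral_cv_diff_abs_le hψ hψc hψ0 hψ1 hV hc v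
  · intro C hC
    apply LipschitzWith.of_dist_le_mul
    intro p q
    rw [Real.dist_eq]
    have h1 : cv ψ V p - cv ψ V q = ∫ t, ψ t * (V (p - t) - V (q - t)) := by
      unfold cv
      rw [← integral_sub (cv_integrable hψ hψc hV p) (cv_integrable hψ hψc hV q)]
      congr 1; ext t; ring
    rw [h1]
    calc |∫ t, ψ t * (V (p - t) - V (q - t))|
        ≤ ∫ t, |ψ t * (V (p - t) - V (q - t))| := abs_integral_le_integral_abs
      _ ≤ ∫ t, ψ t * (C * dist p q) := by
          apply integral_mono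
          · have := (cv_integrable hψ hψc hV p).sub (cv_integrable hψ hψc hV q)
            refine Integrable.abs ?_
            convert this using 1
            ext t; simp; ring
          · exact hψint.mul_const _
          · intro t
            show |ψ t * (V (p - t) - V (q - t))| ≤ ψ t * (C * dist p q)
            rw [abs_mul, abs_of_nonneg (hψ0 t)]
            apply mul_le_mul_of_nonneg_left _ (hψ0 t)
            have := hC.dist_le_mul (p - t) (q - t)
            rw [Real.dist_eq, dist_sub_right] at this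
            exact this
      _ = C * dist p q := by rw [integral_mul_const, hψ1, one_mul]
  · intro h p
    exact integral_nonneg (fun t => mul_nonneg (hψ0 t) (h _))
  · intro c h p
    calc cv ψ V p = ∫ t, ψ t * V (p - t) := rfl
      _ ≤ ∫ t, ψ t * c := by
          apply integral_mono (cv_integrable hψ hψc hV p) (hψint.mul_const _)
          intro t
          exact mul_le_mul_of_nonneg_left (h _) (hψ0 t)
      _ = c := by rw [integral_mul_const, hψ1, one_mul]

lemma Tst.lipschitz {n : WithTop ℕ∞} (hn : 1 ≤ n) {Ω : Set PP} {U : PP → ℝ} (h : Tst n Ω U) :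
    ∃ C : ℝ≥0, LipschitzWith C U :=
  ContDiff.lipschitzWith_of_hasCompactSupport h.2.1 (h.1.of_le hn) one_ne_zero

lemma hasDerivAt_line {U : PP → ℝ} {p : PP} (h : DifferentiableAt ℝ U p) (v : PP) :
    HasDerivAt (fun t : ℝ => U (p + t • v)) (fderiv ℝ U p v) 0 := by
  have h1 : HasDerivAt (fun t : ℝ => p + t • v) v 0 := by
    simpa using ((hasDerivAt_id (0:ℝ)).smul_const v).const_add p
  have h2 : HasFDerivAt U (fderiv ℝ U p) (p + (0:ℝ) • v) := by
    simpa using h.hasFDerivAt
  exact h2.comp_hasDerivAt (0:ℝ) h1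

lemma Tst.cont_fderiv {n : WithTop ℕ∞} (hn : 1 ≤ n) {Ω : Set PP} {U : PP → ℝ} (h : Tst n Ω U)
    (v : PP) : Continuous (fun p => fderiv ℝ U p v) :=
  (h.1.continuous_fderiv (by intro h0; rw [h0] at hn; simp at hn)).clm_apply continuous_const

lemma Tst.comp_fderiv {n : WithTop ℕ∞} {Ω : Set PP} {U : PP → ℝ} (h : Tst n Ω U)
    (v : PP) : HasCompactSupport (fun p => fderiv ℝ U p v) :=
  h.2.1.fderiv_apply ℝ v

lemma Tst.int_fderiv_sq {n : WithTop ℕ∞} (hn : 1 ≤ n) {Ω : Set PP} {U : PP → ℝ} (h : Tst n Ω U)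
    (v : PP) : Integrable (fun p => (fderiv ℝ U p v) ^ 2) :=
  integrable_of_cont ((h.cont_fderiv hn v).pow 2) (hasCompactSupport_sq (h.comp_fderiv v))

lemma Tst.int_gsq {n : WithTop ℕ∞} (hn : 1 ≤ n) {Ω : Set PP} {U : PP → ℝ} (h : Tst n Ω U) :
    Integrable (gsq U) :=
  (h.int_fderiv_sq hn ex).add (h.int_fderiv_sq hn ey)

lemma Tst.int_sq {n : WithTop ℕ∞} {Ω : Set PP} {U : PP → ℝ} (h : Tst n Ω U) :
    Integrable (fun p => U p ^ 2) :=
  integrable_of_cont (h.1.continuous.pow 2) (hasCompactSupport_sq h.2.1)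

lemma En_eq {n : WithTop ℕ∞} (hn : 1 ≤ n) {Ω : Set PP} {U : PP → ℝ} (h : Tst n Ω U) :
    En U = (∫ p, (fderiv ℝ U p ex) ^ 2) + ∫ p, (fderiv ℝ U p ey) ^ 2 := by
  unfold En gsq
  exact integral_add (h.int_fderiv_sq hn ex) (h.int_fderiv_sq hn ey)

lemma lamP_bdd (Ω : Set PP) : BddBelow {q : ℝ | ∃ U : PP → ℝ, Tst ((⊤ : ℕ∞) : WithTop ℕ∞) Ω U ∧
    U ≠ 0 ∧ q = En U / Nm U} :=
  ⟨0, by rintro q ⟨U, -, -, rfl⟩; exact div_nonneg (En_nonneg U) (Nm_nonneg U)⟩

lemma lamP_nonneg (Ω : Set PP) : 0 ≤ lamP Ω := by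
  unfold lamP
  apply Real.sInf_nonneg
  rintro q ⟨U, -, -, rfl⟩; exact div_nonneg (En_nonneg U) (Nm_nonneg U)

lemma Nm_pos {n : WithTop ℕ∞} {Ω : Set PP} {U : PP → ℝ} (h : Tst n Ω U) (h0 : U ≠ 0) :
    0 < Nm U := by
  obtain ⟨p, hp⟩ := Function.ne_iff.1 h0
  unfold Nm
  have hcont : Continuous (fun p => U p ^ 2) := h.1.continuous.pow 2
  apply hcont.integral_pos_of_hasCompactSupport_nonneg_nonzero
    (hasCompactSupport_sq h.2.1) (fun p => sq_nonneg _) (x := p)
  simpa using hp

/-- the basic inequality for smooth test functions -/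
lemma lamP_mul_le {Ω : Set PP} {U : PP → ℝ} (h : Tst ((⊤ : ℕ∞) : WithTop ℕ∞) Ω U) :
    lamP Ω * Nm U ≤ En U := by
  by_cases h0 : U = 0
  · have : Nm U = 0 := by simp [Nm, h0]
    rw [this, mul_zero]; exact En_nonneg U
  · have hN := Nm_pos h h0
    have h1 : lamP Ω ≤ En U / Nm U := csInf_le (lamP_bdd Ω) ⟨U, h, h0, rfl⟩
    rwa [le_div_iff₀ hN] at h1

/-- the basic inequality for Lipschitz test functions -/
theorem lamP_mul_le_of_lipschitz {Ω : Set PP} (hΩ : IsOpen Ω) {V : PP → ℝ} {C : ℝ≥0}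
    (hV : LipschitzWith C V) (hc : HasCompactSupport V) (hs : tsupport V ⊆ Ω) {a b : PP → ℝ}
    (ha : ∀ᵐ p, HasDerivAt (fun t : ℝ => V (p + t • ex)) (a p) 0)
    (hb : ∀ᵐ p, HasDerivAt (fun t : ℝ => V (p + t • ey)) (b p) 0) :
    lamP Ω * ∫ p, V p ^ 2 ≤ (∫ p, a p ^ 2) + ∫ p, b p ^ 2 := by
  have hVi : Integrable (fun p => |V p|) := (integrable_of_cont hV.continuous hc).abs
  have hVi2 : Integrable (fun p => V p ^ 2) :=
    integrable_of_cont (hV.continuous.pow 2) (hasCompactSupport_sq hc)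
  have key : ∀ δ > 0, lamP Ω * ((∫ p, V p ^ 2) - 2 * δ * ∫ p, |V p|)
      ≤ (∫ p, a p ^ 2) + ∫ p, b p ^ 2 := by
    intro δ hδ
    obtain ⟨W, hW, hWV, hW2, -, hWL, -, -⟩ := exists_mollify hΩ hV.continuous hc hs hδ
    have hWlip := hWL C hV
    have hdir : ∀ v : PP, ∀ c : PP → ℝ,
        (∀ᵐ p, HasDerivAt (fun t : ℝ => V (p + t • v)) (c p) 0) →
        ∫ p, (fderiv ℝ W p v) ^ 2 ≤ ∫ p, c p ^ 2 := by
      intro v c hcv
      have t1 := tendsto_diffquot_sq hWlip hW.2.1 v (a := fun p => fderiv ℝ W p v)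
        (Eventually.of_forall (fun p => hasDerivAt_line
          (hW.1.differentiable (by simp) p) v))
      have t2 := tendsto_diffquot_sq hV hc v hcv
      apply le_of_tendsto_of_tendsto' t1 t2
      intro n
      simp_rw [div_pow]
      rw [integral_div, integral_div]
      exact div_le_div_of_nonneg_right (hW2 _) (by positivity)
    have h1 : lamP Ω * Nm W ≤ En W := lamP_mul_le hW
    have h2 : En W ≤ (∫ p, a p ^ 2) + ∫ p, b p ^ 2 := by
      rw [En_eq (by simp) hW]
      exact add_le_add (hdir ex a ha) (hdir ey b hb)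
    have h3 : (∫ p, V p ^ 2) - 2 * δ * ∫ p, |V p| ≤ Nm W := by
      unfold Nm
      rw [← integral_const_mul, ← integral_sub hVi2 (hVi.const_mul _)]
      apply integral_mono (hVi2.sub (hVi.const_mul _)) hW.int_sq
      intro p
      show V p ^ 2 - 2 * δ * |V p| ≤ W p ^ 2
      have h4 := hWV p
      have h5 : |V p * (W p - V p)| ≤ |V p| * δ := by
        rw [abs_mul]; exact mul_le_mul_of_nonneg_left h4 (abs_nonneg _)
      have h6 := (abs_le.1 h5).1
      nlinarith [sq_nonneg (W p - V p)]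
    calc lamP Ω * ((∫ p, V p ^ 2) - 2 * δ * ∫ p, |V p|) ≤ lamP Ω * Nm W :=
          mul_le_mul_of_nonneg_left h3 (lamP_nonneg Ω)
      _ ≤ _ := h1.trans h2
  have ht : Tendsto (fun δ : ℝ => lamP Ω * ((∫ p, V p ^ 2) - 2 * δ * ∫ p, |V p|)) (𝓝[>] 0)
      (𝓝 (lamP Ω * ((∫ p, V p ^ 2) - 2 * 0 * ∫ p, |V p|))) := by
    apply Tendsto.mono_left _ nhdsWithin_le_nhds
    apply Continuous.tendsto
    fun_prop
  simp only [mul_zero, zero_mul, sub_zero] at ht
  exact le_of_tendsto ht (eventually_nhdsWithin_of_forall key)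

/-- the basic inequality for `C^1` test functions -/
theorem lamP_mul_le_C1 {Ω : Set PP} (hΩ : IsOpen Ω) {U : PP → ℝ} (h : Tst 1 Ω U) :
    lamP Ω * Nm U ≤ En U := by
  obtain ⟨C, hC⟩ := h.lipschitz le_rfl
  rw [En_eq le_rfl h]
  apply lamP_mul_le_of_lipschitz hΩ hC h.2.1 h.2.2
  · exact Eventually.of_forall (fun p => hasDerivAt_line (h.1.differentiable (by simp) p) ex)
  · exact Eventually.of_forall (fun p => hasDerivAt_line (h.1.differentiable (by simp) p) ey)

end

end Pool.Agent.MP70c477
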