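import Pool.Agent.MP70c477.ASecond

set_option autoImplicit false
set_option linter.unusedVariables false

open MeasureTheory Set Filter Topology ContinuousLinearMap
open scoped Convolution ENNReal NNReal Pointwise

namespace Pool.Agent.MP70c477

noncomputable section

/-- Poincaré inequality -/
lemma poincare {Ω : Set PP} {R : ℝ} (hR : 0 < R) (hΩ : ∀ p ∈ Ω, |p.1| ≤ R) {U : PP → ℝ}
    (hU : Tst 1 Ω U) : Nm U ≤ 4 * R ^ 2 * En U := by
  have cx : Continuous (fun p => fderiv ℝ U p ex) := hU.cont_fderiv le_rfl ex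
  have cU := hU.1.continuous
  have hUd := hU.1.differentiable (by simp)
  have hd : ∀ p, fderiv ℝ (fun p => U p ^ 2) p ex = 2 * U p * fderiv ℝ U p ex := by
    intro p
    have := ((hUd p).hasFDerivAt.pow 2).fderiv
    have h2 : fderiv ℝ (fun p => U p ^ 2) p = _ := this
    rw [h2]; simp
  have hf : ∀ p : PP, fderiv ℝ (fun p : PP => p.1) p ex = 1 := by
    intro p
    have h := (ContinuousLinearMap.fst ℝ ℝ ℝ).hasFDerivAt (x := p)
    have h2 : fderiv ℝ (fun p : PP => p.1) p = ContinuousLinearMap.fst ℝ ℝ ℝ := h.fderiv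
    rw [h2]; simp [ex]
  have i1 : Integrable (fun p : PP => p.1 * (2 * U p * fderiv ℝ U p ex)) :=
    integrable_of_cont (by fun_prop) ((hU.comp_fderiv ex).mul_left.mul_left)
  have key : ∫ p : PP, p.1 * (2 * U p * fderiv ℝ U p ex) = -Nm U := by
    have h := integral_mul_fderiv_eq_neg_fderiv_mul_of_integrable (μ := (volume : Measure PP))
      (f := fun p : PP => p.1) (g := fun p => U p ^ 2) (v := ex) ?_ ?_ ?_ ?_ ?_
    · simp_rw [hd, hf] at h
      rw [h]; unfold Nm; simp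
    · simp_rw [hf, one_mul]; exact hU.int_sq
    · simp_rw [hd]; exact i1
    · exact integrable_of_cont (by fun_prop) (hasCompactSupport_sq hU.2.1).mul_left
    · intro p _; fun_prop
    · intro p _; exact (hUd p).pow 2
  have hb : -(∫ p : PP, p.1 * (2 * U p * fderiv ℝ U p ex)) ≤
      ∫ p, ((1 / 2) * U p ^ 2 + 2 * R ^ 2 * gsq U p) := by
    rw [← integral_neg]
    apply integral_mono i1.neg ((hU.int_sq.const_mul _).add ((hU.int_gsq le_rfl).const_mul _))
    intro p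
    show -(p.1 * (2 * U p * fderiv ℝ U p ex)) ≤ (1 / 2) * U p ^ 2 + 2 * R ^ 2 * gsq U p
    by_cases hp : p ∈ tsupport U
    · have h1 := hΩ p (hU.2.2 hp)
      have h2 : p.1 ^ 2 ≤ R ^ 2 := by rw [← sq_abs]; gcongr
      unfold gsq
      have h3 := sq_nonneg (U p + 2 * p.1 * fderiv ℝ U p ex)
      have h4 : p.1 ^ 2 * (fderiv ℝ U p ex) ^ 2 ≤ R ^ 2 * (fderiv ℝ U p ex) ^ 2 :=
        mul_le_mul_of_nonneg_right h2 (sq_nonneg _)
      have h5 : 0 ≤ R ^ 2 * (fderiv ℝ U p ey) ^ 2 := by positivity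
      nlinarith
    · have : U p = 0 := image_eq_zero_of_notMem_tsupport hp
      rw [this]
      have := gsq_nonneg U p
      have : 0 ≤ 2 * R ^ 2 * gsq U p := by positivity
      simpa using this
  rw [key, neg_neg, integral_add (hU.int_sq.const_mul _) ((hU.int_gsq le_rfl).const_mul _),
    integral_const_mul, integral_const_mul] at hb
  have h1 : ∫ p, U p ^ 2 = Nm U := rfl
  have h2 : ∫ p, gsq U p = En U := rfl
  rw [h1, h2] at hb
  linarith

theorem lamP_pos {Ω : Set PP} (hΩ : IsOpen Ω) (hne : Ω.Nonempty) (hb : Bornology.IsBounded Ω) :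
    0 < lamP Ω := by
  obtain ⟨R, hR⟩ := hb.subset_closedBall (0 : PP)
  set R' := max R 1 with hR'
  have hR'0 : 0 < R' := lt_of_lt_of_le one_pos (le_max_right _ _)
  have hΩR : ∀ p ∈ Ω, |p.1| ≤ R' := by
    intro p hp
    have h1 := hR hp
    rw [mem_closedBall_zero_iff, Prod.norm_def] at h1
    exact ((le_max_left _ _).trans h1).trans (le_max_left _ _)
  have hge : 1 / (4 * R' ^ 2) ≤ lamP Ω := by
    unfold lamP
    obtain ⟨U0, hU0, hU00⟩ := exists_tst hΩ hne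
    have hS : {q : ℝ | ∃ U : PP → ℝ, Tst ((⊤ : ℕ∞) : WithTop ℕ∞) Ω U ∧ U ≠ 0 ∧
      q = En U / Nm U}.Nonempty := ⟨_, U0, hU0, hU00, rfl⟩
    apply le_csInf hS
    rintro q ⟨U, hU, h0, rfl⟩
    have hN := Nm_pos hU h0
    rw [div_le_div_iff₀ (by positivity) hN]
    have := poincare hR'0 hΩR (hU.of_le (by simp))
    linarith
  exact lt_of_lt_of_le (by positivity) hge

/-- monotonicity -/
lemma lamP_anti {Ω Ω' : Set PP} (hΩ : IsOpen Ω) (hne : Ω.Nonempty) (h : Ω ⊆ Ω') :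
    lamP Ω' ≤ lamP Ω := by
  obtain ⟨U0, hU0, hU00⟩ := exists_tst hΩ hne
  have hS : {q : ℝ | ∃ U : PP → ℝ, Tst ((⊤ : ℕ∞) : WithTop ℕ∞) Ω U ∧ U ≠ 0 ∧
      q = En U / Nm U}.Nonempty := ⟨_, U0, hU0, hU00, rfl⟩
  unfold lamP
  apply csInf_le_csInf (lamP_bdd Ω') hS
  rintro q ⟨U, hU, h0, rfl⟩
  exact ⟨U, hU.mono h, h0, rfl⟩

/-- `L^4` bound -/
lemma exists_L4 : ∃ C : ℝ, 0 ≤ C ∧ ∀ (Ω : Set PP) (U : PP → ℝ), Tst 1 Ω U →
    ∫ p, U p ^ 4 ≤ C * (Nm U + 2 * En U) ^ 2 := by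
  have hfr : Module.finrank ℝ PP = 2 := by
    show Module.finrank ℝ (ℝ × ℝ) = 2
    simp
  refine ⟨(lintegralPowLePowLIntegralFDerivConst (volume : Measure PP) 2 : ℝ≥0), NNReal.coe_nonneg _, ?_⟩
  intro Ω U hU
  set C := lintegralPowLePowLIntegralFDerivConst (volume : Measure PP) 2
  have hUd := hU.1.differentiable (by simp)
  have hW : ContDiff ℝ 1 (fun p => U p ^ 2) := hU.1.pow 2
  have hWc : HasCompactSupport (fun p => U p ^ 2) := hasCompactSupport_sq hU.2.1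
  have hhc : Real.HolderConjugate ((Module.finrank ℝ PP : ℕ) : ℝ) 2 := by
    rw [hfr]; push_cast; exact Real.HolderConjugate.two_two
  have h := lintegral_pow_le_pow_lintegral_fderiv (volume : Measure PP) hW hWc hhc
  have hcf : Continuous (fun p => fderiv ℝ (fun p => U p ^ 2) p) := hW.continuous_fderiv (by simp)
  have hcfc : HasCompactSupport (fun p => fderiv ℝ (fun p => U p ^ 2) p) := hWc.fderiv ℝ
  have hif : Integrable (fun p => ‖fderiv ℝ (fun p => U p ^ 2) p‖) :=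
    (hcf.norm).integrable_of_hasCompactSupport hcfc.norm
  have hif2 : ∫⁻ p, ‖fderiv ℝ (fun p => U p ^ 2) p‖ₑ
      = ENNReal.ofReal (∫ p, ‖fderiv ℝ (fun p => U p ^ 2) p‖) := by
    rw [ofReal_integral_norm_eq_lintegral_enorm]
    exact hcf.integrable_of_hasCompactSupport hcfc
  have hi4 : Integrable (fun p => U p ^ 4) := by
    apply integrable_of_cont (hU.1.continuous.pow 4)
    have := hasCompactSupport_sq hWc
    refine this.mono' ?_
    intro p hp
    apply subset_tsupport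
    intro h0
    apply hp
    show U p ^ 4 = 0
    have h0' : (U p ^ 2) ^ 2 = 0 := h0
    nlinarith
  have h4 : ∫⁻ p, ‖U p ^ 2‖ₑ ^ (2:ℝ) = ENNReal.ofReal (∫ p, U p ^ 4) := by
    rw [ofReal_integral_eq_lintegral_ofReal hi4 (Eventually.of_forall (fun p => by positivity))]
    congr 1; ext p
    have h20 : 0 ≤ U p ^ 2 := sq_nonneg _
    rw [show U p ^ 4 = (U p ^ 2) ^ 2 by ring, Real.enorm_eq_ofReal h20,
      ENNReal.ofReal_pow h20]
    norm_cast
  rw [h4, hif2] at h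
  have hI0 : 0 ≤ ∫ p, ‖fderiv ℝ (fun p => U p ^ 2) p‖ := integral_nonneg (fun _ => norm_nonneg _)
  have h5 : (C : ℝ≥0∞) * ENNReal.ofReal (∫ p, ‖fderiv ℝ (fun p => U p ^ 2) p‖) ^ (2:ℝ) =
      ENNReal.ofReal (C * (∫ p, ‖fderiv ℝ (fun p => U p ^ 2) p‖) ^ 2) := by
    rw [ENNReal.ofReal_mul (NNReal.coe_nonneg _), ENNReal.ofReal_pow hI0, ENNReal.ofReal_coe_nnreal]
    norm_cast
  rw [h5, ENNReal.ofReal_le_ofReal_iff (by positivity)] at h
  refine h.trans ?_
  apply mul_le_mul_of_nonneg_left _ (NNReal.coe_nonneg _)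
  have h6 : ∫ p, ‖fderiv ℝ (fun p => U p ^ 2) p‖ ≤ Nm U + 2 * En U := by
    have e : Nm U + 2 * En U = ∫ p, (U p ^ 2 + 2 * gsq U p) := by
      rw [integral_add hU.int_sq ((hU.int_gsq le_rfl).const_mul _), integral_const_mul]
      rfl
    rw [e]
    apply integral_mono hif (hU.int_sq.add ((hU.int_gsq le_rfl).const_mul _))
    intro p
    show ‖fderiv ℝ (fun p => U p ^ 2) p‖ ≤ U p ^ 2 + 2 * gsq U p
    have h7 : fderiv ℝ (fun p => U p ^ 2) p = (2 * U p) • fderiv ℝ U p := by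
      have := ((hUd p).hasFDerivAt.pow 2).fderiv
      have h2 : fderiv ℝ (fun p => U p ^ 2) p = _ := this
      rw [h2]; simp
    have h8 : ‖fderiv ℝ U p‖ ≤ |fderiv ℝ U p ex| + |fderiv ℝ U p ey| := by
      apply ContinuousLinearMap.opNorm_le_bound _ (by positivity)
      intro v
      have hv : v = v.1 • ex + v.2 • ey := by ext <;> simp [ex, ey]
      conv_lhs => rw [hv]
      rw [map_add, map_smul, map_smul]
      have n1 : ‖v.1‖ ≤ ‖v‖ := norm_fst_le v
      have n2 : ‖v.2‖ ≤ ‖v‖ := norm_snd_le v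
      calc ‖v.1 • fderiv ℝ U p ex + v.2 • fderiv ℝ U p ey‖
          ≤ ‖v.1 • fderiv ℝ U p ex‖ + ‖v.2 • fderiv ℝ U p ey‖ := norm_add_le _ _
        _ = ‖v.1‖ * |fderiv ℝ U p ex| + ‖v.2‖ * |fderiv ℝ U p ey| := by
            rw [norm_smul, norm_smul]; rfl
        _ ≤ ‖v‖ * |fderiv ℝ U p ex| + ‖v‖ * |fderiv ℝ U p ey| := by gcongr
        _ = _ := by ring
    rw [h7, norm_smul, Real.norm_eq_abs, abs_mul, abs_of_pos (by norm_num : (0:ℝ) < 2)]
    unfold gsq
    have h9 : 2 * |U p| * ‖fderiv ℝ U p‖ ≤ 2 * |U p| * (|fderiv ℝ U p ex| + |fderiv ℝ U p ey|) :=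
      mul_le_mul_of_nonneg_left h8 (by positivity)
    have q1 := sq_abs (U p)
    have q2 := sq_abs (fderiv ℝ U p ex)
    have q3 := sq_abs (fderiv ℝ U p ey)
    nlinarith [sq_nonneg (|U p| - (|fderiv ℝ U p ex| + |fderiv ℝ U p ey|)),
      sq_nonneg (|fderiv ℝ U p ex| - |fderiv ℝ U p ey|)]
  exact pow_le_pow_left₀ hI0 h6 2

end

end Pool.Agent.MP70c477
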