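import Pool.Agent.MP70c477.AStretch3

set_option autoImplicit false
set_option linter.unusedVariables false

open MeasureTheory Set Filter Topology ContinuousLinearMap
open scoped Convolution ENNReal NNReal Pointwise

namespace Pool.Agent.MP70c477

noncomputable section

/-- existence of test functions -/
lemma exists_tst {Ω : Set PP} (hΩ : IsOpen Ω) (hne : Ω.Nonempty) :
    ∃ U : PP → ℝ, Tst ((⊤ : ℕ∞) : WithTop ℕ∞) Ω U ∧ U ≠ 0 := by
  obtain ⟨c, hc⟩ := hne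
  obtain ⟨r, hr, hrs⟩ := Metric.isOpen_iff.1 hΩ c hc
  let φ : ContDiffBump c := ⟨r / 4, r / 2, by positivity, by linarith⟩
  refine ⟨φ, ⟨φ.contDiff, φ.hasCompactSupport, ?_⟩, ?_⟩
  · rw [φ.tsupport_eq]
    exact (Metric.closedBall_subset_ball (by show r / 2 < r; linarith)).trans hrs
  · intro h
    have h1 : φ c = 1 := φ.one_of_mem_closedBall (Metric.mem_closedBall_self (by
      show 0 ≤ r / 4; positivity))
    rw [h] at h1
    simp at h1

lemma En_const_mul {n : WithTop ℕ∞} (hn : 1 ≤ n) {Ω : Set PP} {U : PP → ℝ} (hU : Tst n Ω U) (c : ℝ) :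
    En (fun p => c * U p) = c ^ 2 * En U := by
  unfold En
  rw [← integral_const_mul]
  congr 1; ext p
  unfold gsq
  have h : ∀ v, fderiv ℝ (fun p => c * U p) p v = c * fderiv ℝ U p v := by
    intro v
    have := ((hU.1.differentiable (by intro h0; rw [h0] at hn; simp at hn) p).hasFDerivAt.const_mul c).fderiv
    have h2 : fderiv ℝ (fun p => c * U p) p = _ := this
    rw [h2]; simp
  rw [h, h]; ring

lemma Nm_const_mul {U : PP → ℝ} (c : ℝ) : Nm (fun p => c * U p) = c ^ 2 * Nm U := by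
  unfold Nm
  rw [← integral_const_mul]
  congr 1; ext p; ring

/-- normalised near minimisers -/
lemma exists_near {Ω : Set PP} (hΩ : IsOpen Ω) (hne : Ω.Nonempty) {δ : ℝ} (hδ : 0 < δ) :
    ∃ U : PP → ℝ, Tst ((⊤ : ℕ∞) : WithTop ℕ∞) Ω U ∧ Nm U = 1 ∧ En U ≤ lamP Ω + δ := by
  obtain ⟨U0, hU0, hU00⟩ := exists_tst hΩ hne
  have hS : {q : ℝ | ∃ U : PP → ℝ, Tst ((⊤ : ℕ∞) : WithTop ℕ∞) Ω U ∧ U ≠ 0 ∧
      q = En U / Nm U}.Nonempty := ⟨_, U0, hU0, hU00, rfl⟩
  obtain ⟨x, ⟨U, hU, hne0, rfl⟩, hx⟩ := exists_lt_of_csInf_lt hS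
    (show lamP Ω < lamP Ω + δ by linarith)
  have hN := Nm_pos hU hne0
  set c : ℝ := (Real.sqrt (Nm U))⁻¹ with hc
  have hc2 : c ^ 2 = (Nm U)⁻¹ := by
    rw [hc, inv_pow, Real.sq_sqrt hN.le]
  refine ⟨fun p => c * U p, hU.const_mul c, ?_, ?_⟩
  · rw [Nm_const_mul, hc2, inv_mul_cancel₀ hN.ne']
  · rw [En_const_mul (by simp) hU, hc2, inv_mul_eq_div]
    exact hx.le

lemma En_ge {Ω : Set PP} (hΩ : IsOpen Ω) {U : PP → ℝ}
    (hU : Tst ((⊤ : ℕ∞) : WithTop ℕ∞) Ω U) (h1 : Nm U = 1) : lamP Ω ≤ En U := by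
  have := lamP_mul_le hU
  rwa [h1, mul_one] at this

/-- near minimisers with small energy in discs at boundary points, uniformly -/
lemma exists_near_discs {Ω : Set PP} (hΩ : IsOpen Ω) (hne : Ω.Nonempty) {R δ : ℝ} (hR : 0 < R)
    (hδ : 0 < δ) :
    ∃ U : PP → ℝ, Tst ((⊤ : ℕ∞) : WithTop ℕ∞) Ω U ∧ Nm U = 1 ∧ En U ≤ lamP Ω + δ ∧ 
      ∀ (P : PP) (n1 n2 : ℝ), (∀ p ∈ Ω, 0 < n1 * (p.1 - P.1) + n2 * (p.2 - P.2)) →
        (∫ p in disc P R, gsq U p) ≤ 4 * R ^ 2 * ((lamP Ω) ^ 2 + 1) ∧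
        (∫ p in disc P R, U p ^ 2) ≤ 2 * R ^ 2 * (lamP Ω + 1) := by
  set l := lamP Ω with hl
  have hl0 : 0 ≤ l := lamP_nonneg Ω
  set K : ℝ := 2 * (R ^ 2)⁻¹ ^ 2 * (l + 1) + 8 * (R ^ 2)⁻¹ ^ 3 * 1 with hK
  have hK0 : 0 ≤ K := by positivity
  -- choose δ'
  have hcont : Tendsto (fun d : ℝ => l * (l + d) + Real.sqrt (d * K)) (𝓝[>] 0)
      (𝓝 (l * (l + 0) + Real.sqrt (0 * K))) := by
    apply Tendsto.mono_left _ nhdsWithin_le_nhds
    apply Continuous.tendsto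
    fun_prop
  have hlt : l * (l + 0) + Real.sqrt (0 * K) < l ^ 2 + 1 := by simp; nlinarith
  have hev := hcont.eventually_lt_const hlt
  have hev2 : ∀ᶠ d : ℝ in 𝓝[>] 0, d < min δ 1 :=
    eventually_nhdsWithin_of_eventually_nhds (eventually_lt_nhds (lt_min hδ one_pos))
  obtain ⟨d, hd1, hd2, hd3⟩ := (hev.and (hev2.and self_mem_nhdsWithin)).exists
  have hd0 : 0 < d := hd3
  obtain ⟨U, hU, hN, hE⟩ := exists_near hΩ hne hd0
  refine ⟨U, hU, hN, hE.trans (by have := hd2.le.trans (min_le_left _ _); linarith), ?_⟩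
  intro P n1 n2 hn
  have hU1 : Tst 1 Ω U := hU.of_le (by simp)
  have hEle : En U ≤ l + 1 := hE.trans (by have := hd2.le.trans (min_le_right _ _); linarith)
  constructor
  · refine (energy_disc_le hΩ hn hU1 hR).trans ?_
    apply mul_le_mul_of_nonneg_left _ (by positivity)
    have hQ : Qf l U ≤ d := by unfold Qf; rw [hN]; linarith
    have hQ0 : 0 ≤ Qf l U := by unfold Qf; rw [hN]; have := En_ge hΩ hU hN; linarith
    have h1 : Qf l U * (2 * (R ^ 2)⁻¹ ^ 2 * En U + 8 * (R ^ 2)⁻¹ ^ 3 * Nm U) ≤ d * K := by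
      apply mul_le_mul hQ _ _ hd0.le
      · rw [hK, hN]
        have : 2 * (R ^ 2)⁻¹ ^ 2 * En U ≤ 2 * (R ^ 2)⁻¹ ^ 2 * (l + 1) :=
          mul_le_mul_of_nonneg_left hEle (by positivity)
        linarith
      · have := En_nonneg U; rw [hN]; positivity
    have h2 := Real.sqrt_le_sqrt h1
    have h3 : l * En U ≤ l * (l + d) := mul_le_mul_of_nonneg_left hE hl0
    linarith
  · refine (L2_disc_le hn hU1 hR).trans ?_
    exact mul_le_mul_of_nonneg_left hEle (by positivity)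

/-- separation of a point from an open convex set, in coordinates -/
lemma exists_normal {Ω : Set PP} (hΩ : IsOpen Ω) (hconv : Convex ℝ Ω) {P : PP} (hP : P ∉ Ω) :
    ∃ n1 n2 : ℝ, ∀ p ∈ Ω, 0 < n1 * (p.1 - P.1) + n2 * (p.2 - P.2) := by
  obtain ⟨f, hf⟩ := geometric_hahn_banach_open_point hconv hΩ hP
  refine ⟨-(f (1, 0)), -(f (0, 1)), fun p hp => ?_⟩
  have h1 := hf p hp
  have h2 : ∀ v : PP, f v = v.1 * f (1, 0) + v.2 * f (0, 1) := by
    intro v
    have : v = v.1 • ((1 : ℝ), (0 : ℝ)) + v.2 • ((0 : ℝ), (1 : ℝ)) := by ext <;> simp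
    conv_lhs => rw [this]
    rw [map_add, map_smul, map_smul]; simp
  rw [h2 p, h2 P] at h1
  linarith

namespace SD

variable {D : SD}

lemma cover_dist {v : PP} {x : ℝ} (h1 : |v.1 - x| ≤ D.τ) (h2 : D.g v.1 < v.2)
    (h3 : v.2 < D.g v.1 + D.τ) : v ∈ disc (x, D.g x) ((2 + D.Lg) * D.τ) := by
  show (v.1 - x) ^ 2 + (v.2 - D.g x) ^ 2 < ((2 + D.Lg) * D.τ) ^ 2
  have hτ := D.hτ
  have hL : (0:ℝ) ≤ D.Lg := D.Lg.2
  have h4 := D.g_lip v.1 x
  have h5 : |v.2 - D.g x| ≤ (1 + D.Lg) * D.τ := by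
    have h6 : |v.2 - D.g v.1| ≤ D.τ := abs_le.2 ⟨by linarith, by linarith⟩
    have h7 : v.2 - D.g x = (v.2 - D.g v.1) + (D.g v.1 - D.g x) := by ring
    rw [h7]
    refine (abs_add_le _ _).trans ?_
    have : (D.Lg : ℝ) * |v.1 - x| ≤ D.Lg * D.τ := mul_le_mul_of_nonneg_left h1 hL
    linarith
  have h8 : (v.1 - x) ^ 2 ≤ D.τ ^ 2 := by rw [← sq_abs]; gcongr
  have h9 : (v.2 - D.g x) ^ 2 ≤ ((1 + D.Lg) * D.τ) ^ 2 := by rw [← sq_abs]; gcongr
  nlinarith [mul_pos hτ hτ, mul_nonneg hL (mul_pos hτ hτ).le]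

/-- covering of the strip by discs -/
lemma strip_le {Ω : Set PP} {f : PP → ℝ} (hf0 : ∀ v, 0 ≤ f v) (hfi : Integrable f)
    (hfΩ : ∀ v, v ∉ Ω → f v = 0)
    (hbelow : ∀ v : PP, v.1 ∈ Icc D.p D.q → v.2 ≤ D.g v.1 → v ∉ Ω) {Wd K : ℝ}
    (hW : D.q - D.p ≤ Wd) (hW0 : 0 ≤ Wd) (hpq : D.p < D.q)
    (hK : ∀ x ∈ Icc D.p D.q, ∫ v in disc (x, D.g x) ((2 + D.Lg) * D.τ), f v ≤ K) :
    ∫ v in D.St, f v ≤ (Wd / D.τ + 1) * K := by
  classical
  have hτ := D.hτ
  have hK0 : 0 ≤ K := le_trans (integral_nonneg (fun v => hf0 v)) (hK D.p ⟨le_rfl, hpq.le⟩)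
  set n : ℕ := ⌊Wd / D.τ⌋₊ + 1 with hn
  set xj : ℕ → ℝ := fun j => min (D.p + j * D.τ) D.q with hxj
  have hxj_mem : ∀ j, xj j ∈ Icc D.p D.q := fun j =>
    ⟨le_min (by have : 0 ≤ (j : ℝ) * D.τ := by positivity
                linarith) hpq.le, min_le_right _ _⟩
  have hpt : ∀ v, D.St.indicator f v ≤
      ∑ j ∈ Finset.range n, (disc (xj j, D.g (xj j)) ((2 + D.Lg) * D.τ)).indicator f v := by
    intro v
    have hnn : ∀ j ∈ Finset.range n,
        0 ≤ (disc (xj j, D.g (xj j)) ((2 + D.Lg) * D.τ)).indicator f v :=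
      fun j _ => indicator_nonneg (fun v _ => hf0 v) v
    by_cases hv : v ∈ D.St
    swap
    · rw [indicator_of_notMem hv]; exact Finset.sum_nonneg hnn
    rw [indicator_of_mem hv]
    by_cases hvΩ : v ∈ Ω
    swap
    · rw [hfΩ v hvΩ]; exact Finset.sum_nonneg hnn
    have habove : D.g v.1 < v.2 := by
      by_contra hcon
      push Not at hcon
      exact hbelow v ⟨hv.1.1.le, hv.1.2.le⟩ hcon hvΩ
    set j : ℕ := ⌊(v.1 - D.p) / D.τ⌋₊ with hj
    have h0 : 0 ≤ (v.1 - D.p) / D.τ := div_nonneg (by have := hv.1.1; linarith) hτ.le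
    have hj1 : (j : ℝ) ≤ (v.1 - D.p) / D.τ := Nat.floor_le h0
    have hj2 : (v.1 - D.p) / D.τ < j + 1 := Nat.lt_floor_add_one _
    have hj1' : (j : ℝ) * D.τ ≤ v.1 - D.p := by rwa [le_div_iff₀ hτ] at hj1
    have hj2' : v.1 - D.p < (j + 1) * D.τ := by rwa [div_lt_iff₀ hτ] at hj2
    have hjn : j ∈ Finset.range n := by
      rw [Finset.mem_range, hn, Nat.lt_succ_iff]
      apply Nat.floor_le_floor
      apply div_le_div_of_nonneg_right _ hτ.le
      have := hv.1.2; linarith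
    have hxjv : xj j = D.p + j * D.τ := by
      rw [hxj]; exact min_eq_left (by have := hv.1.2; linarith)
    have hmem : v ∈ disc (xj j, D.g (xj j)) ((2 + D.Lg) * D.τ) := by
      apply cover_dist _ habove hv.2
      rw [hxjv]
      exact abs_le.2 ⟨by linarith, by linarith⟩
    calc f v = (disc (xj j, D.g (xj j)) ((2 + D.Lg) * D.τ)).indicator f v := by
          rw [indicator_of_mem hmem]
      _ ≤ _ := Finset.single_le_sum (f := fun j =>
          (disc (xj j, D.g (xj j)) ((2 + D.Lg) * D.τ)).indicator f v) hnn hjn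
  calc ∫ v in D.St, f v = ∫ v, D.St.indicator f v := (integral_indicator (St_meas D)).symm
    _ ≤ ∫ v, ∑ j ∈ Finset.range n,
        (disc (xj j, D.g (xj j)) ((2 + D.Lg) * D.τ)).indicator f v := by
        apply integral_mono (hfi.indicator (St_meas D)) _ hpt
        exact integrable_finsetSum _ (fun j _ => hfi.indicator (disc_open _ _).measurableSet)
    _ = ∑ j ∈ Finset.range n, ∫ v in disc (xj j, D.g (xj j)) ((2 + D.Lg) * D.τ), f v := by
        rw [integral_finsetSum _ (fun j _ => hfi.indicator (disc_open _ _).measurableSet)]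
        congr 1; ext j
        exact integral_indicator (disc_open _ _).measurableSet
    _ ≤ ∑ j ∈ Finset.range n, K := Finset.sum_le_sum (fun j _ => hK _ (hxj_mem j))
    _ = n * K := by simp
    _ ≤ (Wd / D.τ + 1) * K := by
        apply mul_le_mul_of_nonneg_right _ hK0
        rw [hn]; push_cast
        have := Nat.floor_le (div_nonneg hW0 hτ.le)
        linarith

/-- the steep part is covered by one disc -/
lemma near_le {Ω : Set PP} {f : PP → ℝ} (hf0 : ∀ v, 0 ≤ f v) (hfi : Integrable f)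
    (hfΩ : ∀ v, v ∉ Ω → f v = 0)
    (hbelow : ∀ v : PP, v.1 ∈ Icc D.p D.q → v.2 ≤ D.g v.1 → v ∉ Ω) (hpq : D.p < D.q) :
    ∫ v in D.St ∩ {v | v.1 ≤ D.p + D.τ}, f v ≤
      ∫ v in disc (D.p, D.g D.p) ((2 + D.Lg) * D.τ), f v := by
  have hm : MeasurableSet (D.St ∩ {v : PP | v.1 ≤ D.p + D.τ}) :=
    (St_meas D).inter (measurable_fst measurableSet_Iic)
  rw [← integral_indicator hm, ← integral_indicator (disc_open _ _).measurableSet]
  apply integral_mono (hfi.indicator hm) (hfi.indicator (disc_open _ _).measurableSet)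
  intro v
  by_cases hv : v ∈ D.St ∩ {v : PP | v.1 ≤ D.p + D.τ}
  swap
  · rw [indicator_of_notMem hv]; exact indicator_nonneg (fun v _ => hf0 v) v
  rw [indicator_of_mem hv]
  by_cases hvΩ : v ∈ Ω
  swap
  · rw [hfΩ v hvΩ]; exact indicator_nonneg (fun v _ => hf0 v) v
  have habove : D.g v.1 < v.2 := by
    by_contra hcon
    push Not at hcon
    exact hbelow v ⟨hv.1.1.1.le, hv.1.1.2.le⟩ hcon hvΩ
  have h2 : v.1 ≤ D.p + D.τ := hv.2
  have h3 := hv.1.1.1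
  have hmem : v ∈ disc (D.p, D.g D.p) ((2 + D.Lg) * D.τ) := by
    apply cover_dist _ habove hv.1.2
    exact abs_le.2 ⟨by have := D.hτ; linarith, by linarith⟩
  rw [indicator_of_mem hmem]

end SD

end

end Pool.Agent.MP70c477
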