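import Pool.Agent.MP70c477.ABall

set_option autoImplicit false
set_option linter.unusedVariables false

open MeasureTheory Set Filter Topology ContinuousLinearMap
open scoped Convolution ENNReal NNReal Pointwise

namespace Pool.Agent.MP70c477

noncomputable section

/-- data of a vertical stretch near a lower boundary graph -/
structure SD where
  g : ℝ → ℝ
  η : ℝ → ℝ
  p : ℝ
  q : ℝ
  τ : ℝ
  Lg : ℝ≥0
  κ : ℝ≥0
  hg : LipschitzWith Lg g
  hη : LipschitzWith κ η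
  hη0 : ∀ x, 0 ≤ η x
  hη1 : ∀ x, η x ≤ 1
  hηs : ∀ x, x ∉ Ioo p q → η x = 0
  hτ : 0 < τ

namespace SD

variable (D : SD) (e : ℝ)

def kk (x : ℝ) : ℝ := e * D.η x / (D.τ - e * D.η x)
def dd (x : ℝ) : ℝ := 1 - e * D.η x / D.τ
def ww (v : PP) : ℝ := max 0 (min (D.τ - v.2 + D.g v.1) (2 * D.τ))
def SS (v : PP) : ℝ := v.2 - D.ww v * D.kk e v.1
def VV (U : PP → ℝ) (v : PP) : ℝ := U (v.1, D.SS e v)
def w0 (v : PP) : ℝ := max 0 (min (D.τ - v.2 + D.g v.1) D.τ)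
def bt (v : PP) : ℝ := deriv D.g v.1 * D.η v.1 + D.w0 v * deriv D.η v.1
def hh (U : PP → ℝ) (v : PP) : ℝ :=
  (fderiv ℝ U v ex - e / (D.τ * D.dd e v.1) * D.bt v * fderiv ℝ U v ey) ^ 2
    + (fderiv ℝ U v ey / D.dd e v.1) ^ 2
def St : Set PP := {v | v.1 ∈ Ioo D.p D.q ∧ v.2 < D.g v.1 + D.τ}
def Sl (v : PP) : ℝ := (1 + D.kk e v.1) * (v.2 - (D.g v.1 + D.τ)) + (D.g v.1 + D.τ)

open Classical in
def Ed (U : PP → ℝ) (v : PP) : ℝ := if v ∈ D.St then D.dd e v.1 * D.hh e U v else gsq U v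
open Classical in
def Nd (U : PP → ℝ) (v : PP) : ℝ := if v ∈ D.St then D.dd e v.1 * U v ^ 2 else U v ^ 2
open Classical in
def Eden (U : PP → ℝ) (v : PP) : ℝ := if v ∈ D.St then D.hh e U (v.1, D.Sl e v) else gsq U v

variable {D e}

lemma eη_le (he : |e| ≤ D.τ / 4) (x : ℝ) : |e * D.η x| ≤ D.τ / 4 := by
  rw [abs_mul, abs_of_nonneg (D.hη0 x)]
  calc |e| * D.η x ≤ |e| * 1 := mul_le_mul_of_nonneg_left (D.hη1 x) (abs_nonneg _)
    _ ≤ D.τ / 4 := by linarith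

lemma den_ge (he : |e| ≤ D.τ / 4) (x : ℝ) : 3 * D.τ / 4 ≤ D.τ - e * D.η x := by
  have := (abs_le.1 (eη_le he x)).2; linarith

lemma den_pos (he : |e| ≤ D.τ / 4) (x : ℝ) : 0 < D.τ - e * D.η x := by
  have := den_ge he x; have := D.hτ; linarith

lemma kk_abs_le (he : |e| ≤ D.τ / 4) (x : ℝ) : |D.kk e x| ≤ 1 / 3 := by
  unfold kk
  rw [abs_div, abs_of_pos (den_pos he x), div_le_iff₀ (den_pos he x)]
  have := eη_le he x; have := den_ge he x; linarith

lemma one_add_kk_pos (he : |e| ≤ D.τ / 4) (x : ℝ) : 0 < 1 + D.kk e x := by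
  have := (abs_le.1 (kk_abs_le he x)).1; linarith

lemma dd_ge (he : |e| ≤ D.τ / 4) (x : ℝ) : 3 / 4 ≤ D.dd e x := by
  unfold dd
  have h := (abs_le.1 (eη_le he x)).2
  have : e * D.η x / D.τ ≤ 1 / 4 := by
    rw [div_le_iff₀ D.hτ]; linarith
  linarith

lemma dd_le (he : |e| ≤ D.τ / 4) (x : ℝ) : D.dd e x ≤ 5 / 4 := by
  unfold dd
  have h := (abs_le.1 (eη_le he x)).1
  have : -(1 / 4) ≤ e * D.η x / D.τ := by
    rw [le_div_iff₀ D.hτ]; linarith
  linarith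

lemma dd_pos (he : |e| ≤ D.τ / 4) (x : ℝ) : 0 < D.dd e x := by
  have := dd_ge he x; linarith

lemma dd_eq (x : ℝ) : D.dd e x = (D.τ - e * D.η x) / D.τ := by
  unfold dd; have := D.hτ.ne'; field_simp

lemma one_add_kk (he : |e| ≤ D.τ / 4) (x : ℝ) : 1 + D.kk e x = (D.dd e x)⁻¹ := by
  rw [dd_eq]; unfold kk
  have h1 := (den_pos he x).ne'
  have h2 := D.hτ.ne'
  field_simp; ring

lemma kk_zero {x : ℝ} (hx : x ∉ Ioo D.p D.q) : D.kk e x = 0 := by
  unfold kk; rw [D.hηs x hx]; simp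

lemma ww_nonneg (v : PP) : 0 ≤ D.ww v := le_max_left _ _
lemma ww_le (v : PP) : D.ww v ≤ 2 * D.τ := by
  unfold ww; have := D.hτ
  exact max_le (by linarith) (min_le_right _ _)
lemma w0_nonneg (v : PP) : 0 ≤ D.w0 v := le_max_left _ _
lemma w0_le (v : PP) : D.w0 v ≤ D.τ := by
  unfold w0; have := D.hτ
  exact max_le this.le (min_le_right _ _)

lemma ww_cont : Continuous D.ww := by
  unfold ww; have := D.hg.continuous; fun_prop
lemma w0_cont : Continuous D.w0 := by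
  unfold w0; have := D.hg.continuous; fun_prop

lemma kk_lip (he : |e| ≤ D.τ / 4) (x x' : ℝ) :
    |D.kk e x - D.kk e x'| ≤ D.κ * |x - x'| / 2 := by
  have h1 := den_pos he x
  have h2 := den_pos he x'
  have h3 := den_ge he x
  have h4 := den_ge he x'
  have hτ := D.hτ
  have e1 : D.kk e x - D.kk e x' = D.τ * (e * (D.η x - D.η x')) /
      ((D.τ - e * D.η x) * (D.τ - e * D.η x')) := by
    unfold kk; field_simp; ring
  rw [e1, abs_div, abs_of_pos (mul_pos h1 h2), div_le_iff₀ (mul_pos h1 h2)]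
  have hlip : |D.η x - D.η x'| ≤ D.κ * |x - x'| := by
    have := D.hη.dist_le_mul x x'; rwa [Real.dist_eq, Real.dist_eq] at this
  rw [abs_mul, abs_mul, abs_of_pos hτ]
  have h5 : (3 * D.τ / 4) * (3 * D.τ / 4) ≤ (D.τ - e * D.η x) * (D.τ - e * D.η x') := by
    apply mul_le_mul h3 h4 (by positivity) h1.le
  have h6 : |e| * |D.η x - D.η x'| ≤ (D.τ / 4) * (D.κ * |x - x'|) :=
    mul_le_mul he hlip (abs_nonneg _) (by positivity)
  have h7 : 0 ≤ (D.κ : ℝ) * |x - x'| := by positivity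
  calc D.τ * (|e| * |D.η x - D.η x'|) ≤ D.τ * ((D.τ / 4) * (D.κ * |x - x'|)) :=
        mul_le_mul_of_nonneg_left h6 hτ.le
    _ ≤ D.κ * |x - x'| / 2 * ((3 * D.τ / 4) * (3 * D.τ / 4)) := by
        nlinarith [mul_nonneg h7 (sq_nonneg D.τ)]
    _ ≤ _ := by
        apply mul_le_mul_of_nonneg_left h5 (by positivity)

lemma g_lip (x x' : ℝ) : |D.g x - D.g x'| ≤ D.Lg * |x - x'| := by
  have := D.hg.dist_le_mul x x'; rwa [Real.dist_eq, Real.dist_eq] at this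

lemma ww_lip (v v' : PP) : |D.ww v - D.ww v'| ≤ |v.2 - v'.2| + D.Lg * |v.1 - v'.1| := by
  unfold ww
  have h1 : |max 0 (min (D.τ - v.2 + D.g v.1) (2 * D.τ)) -
      max 0 (min (D.τ - v'.2 + D.g v'.1) (2 * D.τ))| ≤
      |min (D.τ - v.2 + D.g v.1) (2 * D.τ) - min (D.τ - v'.2 + D.g v'.1) (2 * D.τ)| := by
    rw [max_comm 0, max_comm 0]
    exact abs_max_sub_max_le_abs _ _ _
  have h2 : |min (D.τ - v.2 + D.g v.1) (2 * D.τ) - min (D.τ - v'.2 + D.g v'.1) (2 * D.τ)|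
      ≤ |(D.τ - v.2 + D.g v.1) - (D.τ - v'.2 + D.g v'.1)| := by
    have := abs_min_sub_min_le_max (D.τ - v.2 + D.g v.1) (2 * D.τ) (D.τ - v'.2 + D.g v'.1) (2 * D.τ)
    simpa using this
  have h3 : |(D.τ - v.2 + D.g v.1) - (D.τ - v'.2 + D.g v'.1)| ≤ |v.2 - v'.2| + |D.g v.1 - D.g v'.1| := by
    have : (D.τ - v.2 + D.g v.1) - (D.τ - v'.2 + D.g v'.1) = -(v.2 - v'.2) + (D.g v.1 - D.g v'.1) := by
      ring
    rw [this]
    calc |-(v.2 - v'.2) + (D.g v.1 - D.g v'.1)| ≤ |-(v.2 - v'.2)| + |D.g v.1 - D.g v'.1| :=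
          abs_add_le _ _
      _ = _ := by rw [abs_neg]
  have h4 := D.g_lip v.1 v'.1
  linarith

lemma SS_lip (he : |e| ≤ D.τ / 4) (v v' : PP) :
    |D.SS e v - D.SS e v'| ≤ (2 + D.τ * D.κ + D.Lg) * dist v v' := by
  have hx : |v.1 - v'.1| ≤ dist v v' := by
    rw [Prod.dist_eq, Real.dist_eq]; exact le_max_left _ _
  have hy : |v.2 - v'.2| ≤ dist v v' := by
    rw [Prod.dist_eq, Real.dist_eq]; exact le_max_right _ _
  have e1 : D.SS e v - D.SS e v' = (v.2 - v'.2) - (D.ww v * (D.kk e v.1 - D.kk e v'.1)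
      + D.kk e v'.1 * (D.ww v - D.ww v')) := by unfold SS; ring
  rw [e1]
  have h1 : |D.ww v * (D.kk e v.1 - D.kk e v'.1)| ≤ (2 * D.τ) * (D.κ * |v.1 - v'.1| / 2) := by
    rw [abs_mul, abs_of_nonneg (ww_nonneg v)]
    exact mul_le_mul (ww_le v) (kk_lip he _ _) (abs_nonneg _) (by have := D.hτ; positivity)
  have h2 : |D.kk e v'.1 * (D.ww v - D.ww v')| ≤ (1 / 3) * (|v.2 - v'.2| + D.Lg * |v.1 - v'.1|) := by
    rw [abs_mul]
    exact mul_le_mul (kk_abs_le he _) (ww_lip v v') (abs_nonneg _) (by norm_num)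
  have h3 : |(v.2 - v'.2) - (D.ww v * (D.kk e v.1 - D.kk e v'.1)
      + D.kk e v'.1 * (D.ww v - D.ww v'))| ≤ |v.2 - v'.2| + (|D.ww v * (D.kk e v.1 - D.kk e v'.1)|
      + |D.kk e v'.1 * (D.ww v - D.ww v')|) := by
    refine (abs_sub _ _).trans ?_
    gcongr
    exact abs_add_le _ _
  have hκ : (0:ℝ) ≤ D.κ := D.κ.2
  have hL : (0:ℝ) ≤ D.Lg := D.Lg.2
  have hτ := D.hτ
  have h4 : D.τ * D.κ * |v.1 - v'.1| ≤ D.τ * D.κ * dist v v' :=
    mul_le_mul_of_nonneg_left hx (by positivity)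
  have h5 : D.Lg * |v.1 - v'.1| ≤ D.Lg * dist v v' := mul_le_mul_of_nonneg_left hx hL
  have h6 : 0 ≤ D.Lg * dist v v' := by positivity
  have h7 : 0 ≤ dist v v' := dist_nonneg
  nlinarith

lemma SS_cont (he : |e| ≤ D.τ / 4) : Continuous (D.SS e) := by
  have : LipschitzWith (Real.toNNReal (2 + D.τ * D.κ + D.Lg)) (D.SS e) := by
    apply LipschitzWith.of_dist_le_mul
    intro v v'
    rw [Real.dist_eq, Real.coe_toNNReal _ (by have := D.hτ; positivity)]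
    exact SS_lip he v v'
  exact this.continuous

lemma VV_lip (he : |e| ≤ D.τ / 4) {U : PP → ℝ} {C : ℝ≥0} (hU : LipschitzWith C U) :
    LipschitzWith (C * Real.toNNReal (2 + D.τ * D.κ + D.Lg)) (D.VV e U) := by
  have hpos : 0 ≤ 2 + D.τ * D.κ + D.Lg := by have := D.hτ; positivity
  have h1 : (1:ℝ) ≤ 2 + D.τ * D.κ + D.Lg := by
    have h := D.hτ
    have : 0 ≤ D.τ * D.κ + D.Lg := by positivity
    linarith
  have : LipschitzWith (Real.toNNReal (2 + D.τ * D.κ + D.Lg)) (fun v : PP => ((v.1, D.SS e v) : PP)) := by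
    apply LipschitzWith.of_dist_le_mul
    intro v v'
    rw [Real.coe_toNNReal _ hpos, Prod.dist_eq]
    apply max_le
    · have hx : dist v.1 v'.1 ≤ dist v v' := by rw [Prod.dist_eq]; exact le_max_left _ _
      calc dist v.1 v'.1 ≤ dist v v' := hx
        _ ≤ (2 + D.τ * D.κ + D.Lg) * dist v v' := le_mul_of_one_le_left dist_nonneg h1
    · show dist (D.SS e v) (D.SS e v') ≤ _
      rw [Real.dist_eq]
      exact SS_lip he v v'
  exact hU.comp this

lemma SS_sub_le (he : |e| ≤ D.τ / 4) (v : PP) : |D.SS e v - v.2| ≤ D.τ := by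
  have : D.SS e v - v.2 = -(D.ww v * D.kk e v.1) := by unfold SS; ring
  rw [this, abs_neg, abs_mul, abs_of_nonneg (ww_nonneg v)]
  have h1 := mul_le_mul (ww_le v) (kk_abs_le he v.1) (abs_nonneg _)
    (by have := D.hτ; positivity : (0:ℝ) ≤ 2 * D.τ)
  have := D.hτ
  linarith

lemma VV_compact (he : |e| ≤ D.τ / 4) {U : PP → ℝ} (hU : HasCompactSupport U) :
    HasCompactSupport (D.VV e U) := by
  obtain ⟨R, hR⟩ := hU.isBounded.subset_closedBall (0 : PP)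
  apply HasCompactSupport.intro (isCompact_closedBall (0 : PP) (R + D.τ))
  intro v hv
  by_contra hne
  apply hv
  have h1 : ((v.1, D.SS e v) : PP) ∈ tsupport U := subset_tsupport _ hne
  have h2 := hR h1
  rw [mem_closedBall_zero_iff, Prod.norm_def] at h2 ⊢
  have h3 := (le_max_left _ _).trans h2
  have h4 := (le_max_right _ _).trans h2
  simp only [Real.norm_eq_abs] at h3 h4 ⊢
  have h5 := SS_sub_le he v
  have := D.hτ
  apply max_le
  · linarith
  · have := abs_sub_abs_le_abs_sub v.2 (D.SS e v)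
    rw [abs_sub_comm] at this
    linarith

lemma VV_tsupport (he : |e| ≤ D.τ / 4) {U : PP → ℝ} {Ω Ωe : Set PP} (hUΩ : tsupport U ⊆ Ω)
    (hincl : ∀ v : PP, ((v.1, D.SS e v) : PP) ∈ Ω → v ∈ Ωe) : tsupport (D.VV e U) ⊆ Ωe := by
  have hc : Continuous (fun v : PP => ((v.1, D.SS e v) : PP)) :=
    continuous_fst.prodMk (SS_cont he)
  have h1 : tsupport (D.VV e U) ⊆ (fun v : PP => ((v.1, D.SS e v) : PP)) ⁻¹' (tsupport U) := by
    apply closure_minimal _ ((isClosed_tsupport U).preimage hc)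
    intro v hv
    exact subset_tsupport _ hv
  intro v hv
  exact hincl v (hUΩ (h1 hv))

end SD

end

end Pool.Agent.MP70c477
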