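import Pool.Agent.MP70c477.AStretch

set_option autoImplicit false
set_option linter.unusedVariables false

open MeasureTheory Set Filter Topology ContinuousLinearMap
open scoped Convolution ENNReal NNReal Pointwise

namespace Pool.Agent.MP70c477

noncomputable section

lemma fderiv_zero_of_notMem {U : PP → ℝ} {v : PP} (h : v ∉ tsupport U) : fderiv ℝ U v = 0 := by
  by_contra hne
  exact h (support_fderiv_subset ℝ hne)

namespace SD

variable {D : SD} {e : ℝ}

def Good (D : SD) (v : PP) : Prop :=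
  DifferentiableAt ℝ D.g v.1 ∧ DifferentiableAt ℝ D.η v.1 ∧ v.1 ≠ D.p ∧ v.1 ≠ D.q ∧
    v.2 ≠ D.g v.1 + D.τ ∧ v.2 ≠ D.g v.1 - D.τ

lemma ae_fst {P : ℝ → Prop} (h : ∀ᵐ x, P x) : ∀ᵐ v : PP, P v.1 :=
  (Measure.quasiMeasurePreserving_fst (μ := (volume : Measure ℝ)) (ν := (volume : Measure ℝ))).ae h

lemma ae_not_graph {f : ℝ → ℝ} (hf : Continuous f) : ∀ᵐ v : PP, v.2 ≠ f v.1 := by
  have hm : MeasurableSet {v : PP | v.2 = f v.1} := by
    apply IsClosed.measurableSet
    exact isClosed_eq continuous_snd (hf.comp continuous_fst)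
  have h0 : (volume : Measure PP) {v : PP | v.2 = f v.1} = 0 := by
    rw [Measure.volume_eq_prod, Measure.measure_prod_null hm]
    refine Eventually.of_forall (fun x => ?_)
    have : Prod.mk x ⁻¹' {v : PP | v.2 = f v.1} = {f x} := by ext y; simp
    show (volume : Measure ℝ) (Prod.mk x ⁻¹' {v : PP | v.2 = f v.1}) = 0
    rw [this]; simp
  rw [ae_iff]
  simpa using h0

lemma ae_good (D : SD) : ∀ᵐ v : PP, D.Good v := by
  have h1 := ae_fst (D.hg.ae_differentiableAt_of_real)
  have h2 := ae_fst (D.hη.ae_differentiableAt_of_real)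
  have h0 : ∀ c : ℝ, ∀ᵐ x : ℝ, x ≠ c := by
    intro c
    exact (Set.countable_singleton c).ae_notMem volume
  have h3 : ∀ᵐ v : PP, v.1 ≠ D.p := ae_fst (h0 _)
  have h4 : ∀ᵐ v : PP, v.1 ≠ D.q := ae_fst (h0 _)
  have h5 := ae_not_graph (f := fun x => D.g x + D.τ) (by have := D.hg.continuous; fun_prop)
  have h6 := ae_not_graph (f := fun x => D.g x - D.τ) (by have := D.hg.continuous; fun_prop)
  filter_upwards [h1, h2, h3, h4, h5, h6] with v a b c d e f
  exact ⟨a, b, c, d, e, f⟩

lemma line_tendsto (v w : PP) : Tendsto (fun t : ℝ => v + t • w) (𝓝 0) (𝓝 v) := by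
  have : Continuous (fun t : ℝ => v + t • w) := by fun_prop
  simpa using this.tendsto 0

lemma deriv_of_eventually {F G : PP → ℝ} {v w : PP} {a : ℝ} (h : F =ᶠ[𝓝 v] G)
    (hG : HasDerivAt (fun t : ℝ => G (v + t • w)) a 0) :
    HasDerivAt (fun t : ℝ => F (v + t • w)) a 0 :=
  hG.congr_of_eventuallyEq ((line_tendsto v w).eventually h)

lemma hasDeriv_good {U : PP → ℝ} {Ω : Set PP} (hU : Tst 1 Ω U) (he : |e| ≤ D.τ / 4)
    (hbelow : ∀ v : PP, v.1 ∈ Icc D.p D.q → v.2 ≤ D.g v.1 → v ∉ Ω) {v : PP} (hv : D.Good v) :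
    ∃ a b : ℝ, HasDerivAt (fun t : ℝ => D.VV e U (v + t • ex)) a 0 ∧
      HasDerivAt (fun t : ℝ => D.VV e U (v + t • ey)) b 0 ∧ a ^ 2 + b ^ 2 = D.Eden e U v := by
  obtain ⟨hdg, hdη, hp, hq, hz1, hz2⟩ := hv
  have hτ := D.hτ
  have hgc := D.hg.continuous
  have hUd : Differentiable ℝ U := hU.1.differentiable (by simp)
  have caseA : D.VV e U =ᶠ[𝓝 v] U → v ∉ D.St → ∃ a b : ℝ,
      HasDerivAt (fun t : ℝ => D.VV e U (v + t • ex)) a 0 ∧
      HasDerivAt (fun t : ℝ => D.VV e U (v + t • ey)) b 0 ∧ a ^ 2 + b ^ 2 = D.Eden e U v := by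
    intro hev hst
    refine ⟨fderiv ℝ U v ex, fderiv ℝ U v ey, deriv_of_eventually hev (hasDerivAt_line (hUd v) ex),
      deriv_of_eventually hev (hasDerivAt_line (hUd v) ey), ?_⟩
    unfold Eden; rw [if_neg hst]; rfl
  by_cases hx : v.1 ∈ Ioo D.p D.q
  swap
  · -- outside the vertical strip
    apply caseA
    · have hx' : v.1 ∉ Icc D.p D.q := by
        intro h
        exact hx ⟨lt_of_le_of_ne h.1 (Ne.symm hp), lt_of_le_of_ne h.2 hq⟩
      have hopen : ∀ᶠ v' : PP in 𝓝 v, v'.1 ∉ Icc D.p D.q :=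
        (isClosed_Icc.preimage continuous_fst).isOpen_compl.mem_nhds hx'
      filter_upwards [hopen] with v' hv'
      have : v'.1 ∉ Ioo D.p D.q := fun h => hv' ⟨h.1.le, h.2.le⟩
      unfold VV SS; rw [kk_zero this]; simp
    · intro h; exact hx h.1
  -- inside the strip
  have hxo : ∀ᶠ v' : PP in 𝓝 v, v'.1 ∈ Ioo D.p D.q :=
    (isOpen_Ioo.preimage continuous_fst).mem_nhds hx
  rcases lt_or_gt_of_ne hz1 with hlt | hgt
  swap
  · -- above
    apply caseA
    · have hopen : ∀ᶠ v' : PP in 𝓝 v, D.g v'.1 + D.τ < v'.2 :=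
        (isOpen_lt (by fun_prop) continuous_snd).mem_nhds hgt
      filter_upwards [hopen] with v' hv'
      have hw : D.ww v' = 0 := by
        unfold ww; apply max_eq_left
        exact (min_le_left _ _).trans (by linarith)
      unfold VV SS; rw [hw]; simp
    · intro h
      have := h.2
      linarith
  have hst : v ∈ D.St := ⟨hx, hlt⟩
  rcases lt_or_gt_of_ne hz2 with hlt2 | hgt2
  · -- far below: everything vanishes
    have hev : D.VV e U =ᶠ[𝓝 v] fun _ => 0 := by
      have hopen : ∀ᶠ v' : PP in 𝓝 v, v'.2 < D.g v'.1 - D.τ :=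
        (isOpen_lt continuous_snd (by fun_prop)).mem_nhds hlt2
      filter_upwards [hopen, hxo] with v' hv' hx'
      have hnot : ((v'.1, D.SS e v') : PP) ∉ Ω := by
        refine hbelow (v'.1, D.SS e v') ⟨hx'.1.le, hx'.2.le⟩ ?_
        show D.SS e v' ≤ D.g v'.1
        have h1 := (abs_le.1 (SS_sub_le he v')).2
        linarith
      show U (v'.1, D.SS e v') = 0
      exact image_eq_zero_of_notMem_tsupport (fun h => hnot (hU.2.2 h))
    refine ⟨0, 0, deriv_of_eventually hev (hasDerivAt_const _ _),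
      deriv_of_eventually hev (hasDerivAt_const _ _), ?_⟩
    have hnot : ((v.1, D.Sl e v) : PP) ∉ Ω := by
      refine hbelow (v.1, D.Sl e v) ⟨hx.1.le, hx.2.le⟩ ?_
      show D.Sl e v ≤ D.g v.1
      unfold Sl
      have h1 := (abs_le.1 (kk_abs_le he v.1)).1
      nlinarith
    have hf := fderiv_zero_of_notMem (fun h => hnot (hU.2.2 h))
    unfold Eden; rw [if_pos hst]; unfold hh; rw [hf]; simp
  · -- the main case
    have hev : ∀ᶠ v' : PP in 𝓝 v, D.ww v' = D.τ - v'.2 + D.g v'.1 := by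
      have o1 : ∀ᶠ v' : PP in 𝓝 v, D.g v'.1 - D.τ < v'.2 :=
        (isOpen_lt (by fun_prop) continuous_snd).mem_nhds hgt2
      have o2 : ∀ᶠ v' : PP in 𝓝 v, v'.2 < D.g v'.1 + D.τ :=
        (isOpen_lt continuous_snd (by fun_prop)).mem_nhds hlt
      filter_upwards [o1, o2] with v' h1 h2
      unfold ww
      rw [min_eq_left (by linarith), max_eq_right (by linarith)]
    have hw : D.ww v = D.τ - v.2 + D.g v.1 := hev.self_of_nhds
    have hSS : D.SS e v = v.2 - (D.τ - v.2 + D.g v.1) * D.kk e v.1 := by unfold SS; rw [hw]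
    have hSl : D.Sl e v = D.SS e v := by rw [hSS]; unfold Sl; ring
    set P0 : PP := (v.1, D.SS e v) with hP0
    have hVev : D.VV e U =ᶠ[𝓝 v] fun v' => U (v'.1, v'.2 - (D.τ - v'.2 + D.g v'.1) * D.kk e v'.1) := by
      filter_upwards [hev] with v' h
      unfold VV SS; rw [h]
    have hden := den_pos he v.1
    set k' : ℝ := e * deriv D.η v.1 * D.τ / (D.τ - e * D.η v.1) ^ 2 with hk'
    have hdkk : HasDerivAt (D.kk e) k' v.1 := by
      have h1 : HasDerivAt (fun x => e * D.η x) (e * deriv D.η v.1) v.1 :=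
        (hdη.hasDerivAt).const_mul e
      have h2 : HasDerivAt (fun x => D.τ - e * D.η x) (-(e * deriv D.η v.1)) v.1 :=
        h1.const_sub D.τ
      have h3 := h1.div h2 hden.ne'
      refine h3.congr_deriv ?_
      rw [hk']
      congr 1
      ring
    have hUP : HasFDerivAt U (fderiv ℝ U P0) P0 := (hUd P0).hasFDerivAt
    -- derivative in x
    have hA : HasDerivAt (fun t : ℝ => D.VV e U (v + t • ex))
        (fderiv ℝ U P0 ex + (-(deriv D.g v.1 * D.kk e v.1 + (D.τ - v.2 + D.g v.1) * k'))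
          * fderiv ℝ U P0 ey) 0 := by
      apply deriv_of_eventually hVev
      have hgs : HasDerivAt (fun t : ℝ => D.g (v.1 + t)) (deriv D.g v.1) 0 := by
        have := hdg.hasDerivAt
        have h2 : HasDerivAt D.g (deriv D.g v.1) (v.1 + 0) := by simpa using this
        exact h2.comp_const_add v.1 0
      have hks : HasDerivAt (fun t : ℝ => D.kk e (v.1 + t)) k' 0 := by
        have h2 : HasDerivAt (D.kk e) k' (v.1 + 0) := by simpa using hdkk
        exact h2.comp_const_add v.1 0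
      have hs : HasDerivAt (fun t : ℝ => v.2 - (D.τ - v.2 + D.g (v.1 + t)) * D.kk e (v.1 + t))
          (-(deriv D.g v.1 * D.kk e v.1 + (D.τ - v.2 + D.g v.1) * k')) 0 := by
        have h3 := ((hgs.const_add (D.τ - v.2)).mul hks).const_sub v.2
        refine h3.congr_deriv ?_
        simp
      have h1 : HasDerivAt (fun t : ℝ => v.1 + t) 1 0 := by
        simpa using (hasDerivAt_id (0:ℝ)).const_add v.1
      have hc := h1.prodMk hs
      have hval : ((fun t : ℝ => ((v.1 + t, v.2 - (D.τ - v.2 + D.g (v.1 + t)) * D.kk e (v.1 + t)) : PP)) 0)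
          = P0 := by
        rw [hP0, hSS]; simp
      have hU0 : HasFDerivAt U (fderiv ℝ U P0) ((fun t : ℝ => ((v.1 + t, v.2 - (D.τ - v.2 +
          D.g (v.1 + t)) * D.kk e (v.1 + t)) : PP)) 0) := by rw [hval]; exact hUP
      have h5 := hU0.comp_hasDerivAt (0:ℝ) hc
      have h6 : (U ∘ fun t : ℝ => ((v.1 + t, v.2 - (D.τ - v.2 + D.g (v.1 + t)) * D.kk e (v.1 + t)) : PP))
          = fun t : ℝ => U ((v + t • ex).1, (v + t • ex).2 - (D.τ - (v + t • ex).2 +
            D.g (v + t • ex).1) * D.kk e (v + t • ex).1) := by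
        ext t; simp [ex]
      rw [h6] at h5
      refine h5.congr_deriv ?_
      have h7 : ((1, -(deriv D.g v.1 * D.kk e v.1 + (D.τ - v.2 + D.g v.1) * k')) : PP)
          = ex + (-(deriv D.g v.1 * D.kk e v.1 + (D.τ - v.2 + D.g v.1) * k')) • ey := by
        simp [ex, ey]
      rw [h7, map_add, map_smul]; simp
    have hB : HasDerivAt (fun t : ℝ => D.VV e U (v + t • ey))
        ((1 + D.kk e v.1) * fderiv ℝ U P0 ey) 0 := by
      apply deriv_of_eventually hVev
      have h1 : HasDerivAt (fun t : ℝ => v.2 + t) 1 0 := by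
        simpa using (hasDerivAt_id (0:ℝ)).const_add v.2
      have hs : HasDerivAt (fun t : ℝ => (v.2 + t) - (D.τ - (v.2 + t) + D.g v.1) * D.kk e v.1)
          (1 + D.kk e v.1) 0 := by
        have h3 := h1.sub ((((h1.const_sub D.τ).add_const (D.g v.1))).mul_const (D.kk e v.1))
        refine h3.congr_deriv ?_
        ring
      have hc := (hasDerivAt_const (0:ℝ) v.1).prodMk hs
      have hval : ((fun t : ℝ => ((v.1, (v.2 + t) - (D.τ - (v.2 + t) + D.g v.1) * D.kk e v.1) : PP)) 0)
          = P0 := by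
        rw [hP0, hSS]; simp
      have hU0 : HasFDerivAt U (fderiv ℝ U P0) ((fun t : ℝ => ((v.1, (v.2 + t) - (D.τ - (v.2 + t)
          + D.g v.1) * D.kk e v.1) : PP)) 0) := by rw [hval]; exact hUP
      have h5 := hU0.comp_hasDerivAt (0:ℝ) hc
      have h6 : (U ∘ fun t : ℝ => ((v.1, (v.2 + t) - (D.τ - (v.2 + t) + D.g v.1) * D.kk e v.1) : PP))
          = fun t : ℝ => U ((v + t • ey).1, (v + t • ey).2 - (D.τ - (v + t • ey).2 +
            D.g (v + t • ey).1) * D.kk e (v + t • ey).1) := by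
        ext t; simp [ey]
      rw [h6] at h5
      refine h5.congr_deriv ?_
      have h7 : ((0, 1 + D.kk e v.1) : PP) = (1 + D.kk e v.1) • ey := by simp [ey]
      rw [h7, map_smul]; simp
    refine ⟨_, _, hA, hB, ?_⟩
    unfold Eden; rw [if_pos hst, hSl]
    by_cases hpos : D.SS e v ≤ D.g v.1
    · have hnot : P0 ∉ Ω := hbelow _ ⟨hx.1.le, hx.2.le⟩ hpos
      have hf := fderiv_zero_of_notMem (fun h => hnot (hU.2.2 h))
      unfold hh; rw [← hP0, hf]; simp
    · push Not at hpos
      have hk1 := one_add_kk_pos he v.1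
      have hz : D.SS e v < D.g v.1 + D.τ := by
        have : D.SS e v = (1 + D.kk e v.1) * (v.2 - (D.g v.1 + D.τ)) + (D.g v.1 + D.τ) := by
          rw [hSS]; ring
        rw [this]
        nlinarith
      have hw0 : D.w0 P0 = D.τ - D.SS e v + D.g v.1 := by
        unfold w0; rw [hP0]
        show max 0 (min (D.τ - D.SS e v + D.g v.1) D.τ) = D.τ - D.SS e v + D.g v.1
        rw [min_eq_left (by linarith), max_eq_right (by linarith)]
      have hdd := dd_pos he v.1
      have hkd := one_add_kk he v.1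
      have hbt : e / (D.τ * D.dd e v.1) * D.bt P0 = deriv D.g v.1 * D.kk e v.1
          + (D.τ - v.2 + D.g v.1) * k' := by
        unfold bt; rw [hw0]
        have hP1 : P0.1 = v.1 := rfl
        rw [hP1, hSS, hk']
        have hd2 : D.τ * D.dd e v.1 = D.τ - e * D.η v.1 := by
          rw [dd_eq]; field_simp
        rw [hd2]
        unfold kk
        field_simp
        ring
      unfold hh
      rw [← hP0, show (P0.1 : ℝ) = v.1 from rfl, hbt, hkd]
      ring

end SD

end

end Pool.Agent.MP70c477
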