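import Pool.Agent.MP70c477.AStretch2

set_option autoImplicit false
set_option linter.unusedVariables false

open MeasureTheory Set Filter Topology ContinuousLinearMap
open scoped Convolution ENNReal NNReal Pointwise

namespace Pool.Agent.MP70c477

noncomputable section

lemma affine_int {H : ℝ → ℝ} {m c : ℝ} (hm : 0 < m) :
    ∫ y, H (m * (y - c) + c) = m⁻¹ * ∫ y, H y := by
  have h1 : ∫ y, H (m * (y - c) + c) = ∫ y, H (m * y + c) :=
    integral_sub_right_eq_self (fun y => H (m * y + c)) c
  have h2 : ∫ y, H (m * y + c) = |m⁻¹| • ∫ z, H (z + c) :=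
    Measure.integral_comp_mul_left (fun z => H (z + c)) m
  have h3 : ∫ z, H (z + c) = ∫ z, H z := integral_add_right_eq_self H c
  rw [h1, h2, h3, abs_of_pos (inv_pos.2 hm), smul_eq_mul]

lemma affine_integrable {H : ℝ → ℝ} {m c : ℝ} (hm : 0 < m) (hH : Integrable H) :
    Integrable (fun y => H (m * (y - c) + c)) := by
  have h1 : Integrable (fun z => H (z + c)) := hH.comp_add_right c
  have h2 : Integrable (fun z => H (m * z + c)) := h1.comp_mul_left' hm.ne'
  exact h2.comp_sub_right c

lemma lineDeriv_zero_of_notMem {V : PP → ℝ} {v w : PP} (h : v ∉ tsupport V) :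
    lineDeriv ℝ V v w = 0 := by
  have hev : V =ᶠ[𝓝 v] fun _ => 0 := by
    have : ∀ᶠ v' in 𝓝 v, v' ∉ tsupport V := (isClosed_tsupport V).isOpen_compl.mem_nhds h
    filter_upwards [this] with v' hv'
    exact image_eq_zero_of_notMem_tsupport hv'
  have h1 : HasDerivAt (fun t : ℝ => V (v + t • w)) 0 0 :=
    SD.deriv_of_eventually hev (hasDerivAt_const _ _)
  exact (show HasLineDerivAt ℝ V 0 v w from h1).lineDeriv

lemma integrable_lineDeriv_sq {V : PP → ℝ} {C : ℝ≥0} (hV : LipschitzWith C V)
    (hc : HasCompactSupport V) (w : PP) : Integrable (fun v => (lineDeriv ℝ V v w) ^ 2) := by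
  have hm : Measurable (fun v => lineDeriv ℝ V v w) := measurable_lineDeriv hV.continuous
  have hK : IsCompact (tsupport V) := hc
  have hI : Integrable ((tsupport V).indicator (fun _ : PP => ((C : ℝ) * ‖w‖) ^ 2)) :=
    (integrable_indicator_iff (isClosed_tsupport V).measurableSet).2
      (integrableOn_const hK.measure_lt_top.ne)
  refine hI.mono' (hm.pow_const 2).aestronglyMeasurable (Eventually.of_forall (fun v => ?_))
  by_cases hv : v ∈ tsupport V
  · rw [indicator_of_mem hv, Real.norm_eq_abs, abs_of_nonneg (sq_nonneg _)]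
    have h1 : ‖lineDeriv ℝ V v w‖ ≤ C * ‖w‖ := norm_lineDeriv_le_of_lipschitz ℝ hV
    rw [Real.norm_eq_abs] at h1
    calc (lineDeriv ℝ V v w) ^ 2 = |lineDeriv ℝ V v w| ^ 2 := (sq_abs _).symm
      _ ≤ _ := by gcongr
  · rw [indicator_of_notMem hv, lineDeriv_zero_of_notMem hv]; simp

namespace SD

variable {D : SD} {e : ℝ}

lemma St_meas (D : SD) : MeasurableSet D.St := by
  have h1 : MeasurableSet {v : PP | v.1 ∈ Ioo D.p D.q} := measurable_fst measurableSet_Ioo
  have h2 : MeasurableSet {v : PP | v.2 < D.g v.1 + D.τ} := by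
    have := D.hg.continuous
    exact (isOpen_lt continuous_snd (by fun_prop)).measurableSet
  exact h1.inter h2

lemma dd_cont (D : SD) (e : ℝ) : Continuous (D.dd e) := by
  unfold dd; have := D.hη.continuous; fun_prop

lemma bt_meas (D : SD) : Measurable D.bt := by
  unfold bt
  have h1 : Measurable (fun v : PP => deriv D.g v.1) := (measurable_deriv D.g).comp measurable_fst
  have h2 : Measurable (fun v : PP => deriv D.η v.1) := (measurable_deriv D.η).comp measurable_fst
  have h3 : Measurable (fun v : PP => D.η v.1) := D.hη.continuous.measurable.comp measurable_fst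
  have h4 : Measurable D.w0 := w0_cont.measurable
  exact (h1.mul h3).add (h4.mul h2)

lemma hh_meas {U : PP → ℝ} {Ω : Set PP} (hU : Tst 1 Ω U) : Measurable (D.hh e U) := by
  unfold hh
  have h1 : Measurable (fun v : PP => fderiv ℝ U v ex) := (hU.cont_fderiv le_rfl ex).measurable
  have h2 : Measurable (fun v : PP => fderiv ℝ U v ey) := (hU.cont_fderiv le_rfl ey).measurable
  have h3 : Measurable (fun v : PP => D.dd e v.1) := (dd_cont D e).measurable.comp measurable_fst
  have h4 := bt_meas D
  fun_prop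

lemma bt_abs_le (v : PP) : |D.bt v| ≤ D.Lg + D.τ * D.κ := by
  unfold bt
  have h1 : |deriv D.g v.1| ≤ D.Lg := by
    have := norm_deriv_le_of_lipschitz (x₀ := v.1) D.hg; simpa using this
  have h2 : |deriv D.η v.1| ≤ D.κ := by
    have := norm_deriv_le_of_lipschitz (x₀ := v.1) D.hη; simpa using this
  have h3 : |D.η v.1| ≤ 1 := abs_le.2 ⟨by have := D.hη0 v.1; linarith, D.hη1 v.1⟩
  have h4 : |D.w0 v| ≤ D.τ := by rw [abs_of_nonneg (w0_nonneg v)]; exact w0_le v
  calc |deriv D.g v.1 * D.η v.1 + D.w0 v * deriv D.η v.1|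
      ≤ |deriv D.g v.1 * D.η v.1| + |D.w0 v * deriv D.η v.1| := abs_add_le _ _
    _ = |deriv D.g v.1| * |D.η v.1| + |D.w0 v| * |deriv D.η v.1| := by rw [abs_mul, abs_mul]
    _ ≤ D.Lg * 1 + D.τ * D.κ := by
        have hL : (0:ℝ) ≤ D.Lg := D.Lg.2
        have hτ := D.hτ
        gcongr
    _ = _ := by ring

lemma ee_abs_le (he : |e| ≤ D.τ / 4) (x : ℝ) : |e / (D.τ * D.dd e x)| ≤ 1 / 3 := by
  have h1 := dd_ge he x
  have hτ := D.hτ
  have hpos : 0 < D.τ * D.dd e x := mul_pos hτ (dd_pos he x)
  rw [abs_div, abs_of_pos hpos, div_le_iff₀ hpos]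
  nlinarith

lemma hh_le (he : |e| ≤ D.τ / 4) (U : PP → ℝ) (v : PP) :
    D.hh e U v ≤ (2 + (D.Lg + D.τ * D.κ) ^ 2) * gsq U v := by
  unfold hh gsq
  set a := fderiv ℝ U v ex
  set b := fderiv ℝ U v ey
  set c := e / (D.τ * D.dd e v.1)
  set d := D.dd e v.1
  set B : ℝ := D.Lg + D.τ * D.κ
  have hc : |c| ≤ 1 / 3 := ee_abs_le he v.1
  have hb : |D.bt v| ≤ B := bt_abs_le v
  have hd : 3 / 4 ≤ d := dd_ge he v.1
  have hcb : (c * D.bt v) ^ 2 ≤ (1 / 9) * B ^ 2 := by
    have h1 : |c * D.bt v| ≤ (1 / 3) * B := by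
      rw [abs_mul]; exact mul_le_mul hc hb (abs_nonneg _) (by norm_num)
    calc (c * D.bt v) ^ 2 = |c * D.bt v| ^ 2 := (sq_abs _).symm
      _ ≤ ((1 / 3) * B) ^ 2 := by gcongr
      _ = _ := by ring
  have h2 : (b / d) ^ 2 ≤ (16 / 9) * b ^ 2 := by
    rw [div_pow, div_le_iff₀ (by positivity)]
    have : (9 / 16 : ℝ) ≤ d ^ 2 := by nlinarith
    nlinarith [sq_nonneg b]
  have h3 : (a - c * D.bt v * b) ^ 2 ≤ 2 * a ^ 2 + 2 * ((c * D.bt v) ^ 2 * b ^ 2) := by
    nlinarith [sq_nonneg (a + c * D.bt v * b)]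
  have h4 : (c * D.bt v) ^ 2 * b ^ 2 ≤ (1 / 9) * B ^ 2 * b ^ 2 :=
    mul_le_mul_of_nonneg_right hcb (sq_nonneg b)
  nlinarith [sq_nonneg a, sq_nonneg b, sq_nonneg B, mul_nonneg (sq_nonneg B) (sq_nonneg a),
    mul_nonneg (sq_nonneg B) (sq_nonneg b)]

lemma hh_nonneg (U : PP → ℝ) (v : PP) : 0 ≤ D.hh e U v := by unfold hh; positivity

lemma Ed_nonneg (he : |e| ≤ D.τ / 4) (U : PP → ℝ) (v : PP) : 0 ≤ D.Ed e U v := by
  unfold Ed; split_ifs
  · exact mul_nonneg (dd_pos he _).le (hh_nonneg U v)
  · exact gsq_nonneg U v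

lemma Ed_integrable {U : PP → ℝ} {Ω : Set PP} (hU : Tst 1 Ω U) (he : |e| ≤ D.τ / 4) :
    Integrable (D.Ed e U) := by
  have hm : Measurable (D.Ed e U) := by
    unfold Ed
    apply Measurable.ite (St_meas D)
    · exact ((dd_cont D e).measurable.comp measurable_fst).mul (hh_meas hU)
    · exact hU.gsq_cont.measurable
  refine ((hU.int_gsq le_rfl).const_mul ((5 / 4) * (2 + (D.Lg + D.τ * D.κ) ^ 2))).mono'
    hm.aestronglyMeasurable (Eventually.of_forall (fun v => ?_))
  rw [Real.norm_eq_abs, abs_of_nonneg (Ed_nonneg he U v)]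
  have hg := gsq_nonneg U v
  unfold Ed; split_ifs
  · have h1 := hh_le he U v
    have h2 := dd_le he v.1
    have h3 := dd_pos he v.1
    calc D.dd e v.1 * D.hh e U v ≤ (5 / 4) * ((2 + (D.Lg + D.τ * D.κ) ^ 2) * gsq U v) :=
          mul_le_mul h2 h1 (hh_nonneg U v) (by norm_num)
      _ = _ := by ring
  · nlinarith [sq_nonneg ((D.Lg : ℝ) + D.τ * D.κ), mul_nonneg (sq_nonneg ((D.Lg : ℝ) + D.τ * D.κ)) hg]

lemma Nd_integrable {U : PP → ℝ} {Ω : Set PP} (hU : Tst 1 Ω U) (he : |e| ≤ D.τ / 4) :
    Integrable (D.Nd e U) := by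
  have hc := hU.1.continuous
  have hm : Measurable (D.Nd e U) := by
    unfold Nd
    apply Measurable.ite (St_meas D)
    · exact ((dd_cont D e).measurable.comp measurable_fst).mul (hc.pow 2).measurable
    · exact (hc.pow 2).measurable
  refine (hU.int_sq.const_mul (5 / 4)).mono'
    hm.aestronglyMeasurable (Eventually.of_forall (fun v => ?_))
  have h3 := dd_pos he v.1
  have h2 := dd_le he v.1
  have hs := sq_nonneg (U v)
  rw [Real.norm_eq_abs, abs_of_nonneg]
  · unfold Nd; split_ifs
    · exact mul_le_mul_of_nonneg_right h2 hs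
    · linarith
  · unfold Nd; split_ifs
    · positivity
    · exact hs

lemma Sl_lt_iff (he : |e| ≤ D.τ / 4) (v : PP) :
    (1 + D.kk e v.1) * (v.2 - (D.g v.1 + D.τ)) + (D.g v.1 + D.τ) < D.g v.1 + D.τ
      ↔ v.2 < D.g v.1 + D.τ := by
  have h := one_add_kk_pos he v.1
  constructor
  · intro h1
    by_contra hcon
    push Not at hcon
    have : 0 ≤ (1 + D.kk e v.1) * (v.2 - (D.g v.1 + D.τ)) := mul_nonneg h.le (by linarith)
    linarith
  · intro h1
    have : (1 + D.kk e v.1) * (v.2 - (D.g v.1 + D.τ)) < 0 := mul_neg_of_pos_of_neg h (by linarith)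
    linarith

/-- the one dimensional change of variables, energy -/
lemma inner_E {U : PP → ℝ} {Ω : Set PP} (hU : Tst 1 Ω U) (he : |e| ≤ D.τ / 4) (x : ℝ) :
    ∫ y, D.Eden e U (x, y) = ∫ y, D.Ed e U (x, y) := by
  classical
  by_cases hx : x ∈ Ioo D.p D.q
  swap
  · have h1 : ∀ y, ((x, y) : PP) ∉ D.St := fun y h => hx h.1
    have : (fun y => D.Eden e U (x, y)) = fun y => D.Ed e U (x, y) := by
      ext y; unfold Eden Ed; rw [if_neg (h1 y), if_neg (h1 y)]
    rw [this]
  set m := 1 + D.kk e x with hm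
  have hmpos : 0 < m := one_add_kk_pos he x
  set c := D.g x + D.τ with hc
  set H : ℝ → ℝ := (Iio c).indicator (fun y => D.hh e U (x, y)) with hH
  set G : ℝ → ℝ := (Iio c)ᶜ.indicator (fun y => gsq U (x, y)) with hG
  obtain ⟨R, hR⟩ := hU.2.1.isBounded.subset_closedBall (0 : PP)
  have hzero : ∀ y : ℝ, y ∉ Icc (-R) R → fderiv ℝ U (x, y) = 0 := by
    intro y hy
    apply fderiv_zero_of_notMem
    intro hmem
    have h2 := hR hmem
    rw [mem_closedBall_zero_iff, Prod.norm_def] at h2
    have h3 := (le_max_right _ _).trans h2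
    exact hy (abs_le.1 h3)
  have hcx : Continuous (fun y : ℝ => fderiv ℝ U (x, y) ex) :=
    (hU.cont_fderiv le_rfl ex).comp (by fun_prop : Continuous fun y : ℝ => ((x, y) : PP))
  have hcy : Continuous (fun y : ℝ => fderiv ℝ U (x, y) ey) :=
    (hU.cont_fderiv le_rfl ey).comp (by fun_prop : Continuous fun y : ℝ => ((x, y) : PP))
  have hHi : Integrable H := by
    apply Integrable.indicator _ measurableSet_Iio
    apply Continuous.integrable_of_hasCompactSupport
    · unfold hh bt
      have hw : Continuous (fun y : ℝ => D.w0 (x, y)) := w0_cont.comp (by fun_prop)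
      simp only
      fun_prop
    · apply HasCompactSupport.intro (isCompact_Icc (a := -R) (b := R))
      intro y hy
      unfold hh; rw [hzero y hy]; simp
  have hGi : Integrable G := by
    apply Integrable.indicator _ measurableSet_Iio.compl
    apply Continuous.integrable_of_hasCompactSupport
    · unfold gsq; fun_prop
    · apply HasCompactSupport.intro (isCompact_Icc (a := -R) (b := R))
      intro y hy
      unfold gsq; rw [hzero y hy]; simp
  have e1 : (fun y => D.Eden e U (x, y)) = fun y => H (m * (y - c) + c) + G y := by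
    ext y
    unfold Eden
    by_cases hy : y < c
    · have hst : ((x, y) : PP) ∈ D.St := ⟨hx, hy⟩
      have h2 : m * (y - c) + c < c := (Sl_lt_iff he (x, y)).2 hy
      rw [if_pos hst, hH, hG, indicator_of_mem (show _ ∈ Iio c from h2),
        indicator_of_notMem (by simpa using hy), add_zero]
      rfl
    · have hst : ((x, y) : PP) ∉ D.St := fun h => hy h.2
      have h2 : ¬ (m * (y - c) + c < c) := fun h => hy ((Sl_lt_iff he (x, y)).1 h)
      rw [if_neg hst, hH, hG, indicator_of_notMem (show _ ∉ Iio c from h2),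
        indicator_of_mem (by simpa using hy), zero_add]
  have e2 : (fun y => D.Ed e U (x, y)) = fun y => D.dd e x * H y + G y := by
    ext y
    unfold Ed
    by_cases hy : y < c
    · have hst : ((x, y) : PP) ∈ D.St := ⟨hx, hy⟩
      rw [if_pos hst, hH, hG, indicator_of_mem (show _ ∈ Iio c from hy),
        indicator_of_notMem (by simpa using hy), add_zero]
    · have hst : ((x, y) : PP) ∉ D.St := fun h => hy h.2
      rw [if_neg hst, hH, hG, indicator_of_notMem (show _ ∉ Iio c from hy),
        indicator_of_mem (by simpa using hy), mul_zero, zero_add]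
  rw [e1, e2, integral_add (affine_integrable hmpos hHi) hGi, integral_add (hHi.const_mul _) hGi,
    affine_int hmpos, integral_const_mul, hm, one_add_kk he, inv_inv]

/-- the one dimensional change of variables, L2 norm -/
lemma inner_N {U : PP → ℝ} {Ω : Set PP} (hU : Tst 1 Ω U) (he : |e| ≤ D.τ / 4)
    (hbelow : ∀ v : PP, v.1 ∈ Icc D.p D.q → v.2 ≤ D.g v.1 → v ∉ Ω) (x : ℝ) :
    ∫ y, (D.VV e U (x, y)) ^ 2 = ∫ y, D.Nd e U (x, y) := by
  classical
  by_cases hx : x ∈ Ioo D.p D.q
  swap
  · have h1 : ∀ y, ((x, y) : PP) ∉ D.St := fun y h => hx h.1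
    have : (fun y => (D.VV e U (x, y)) ^ 2) = fun y => D.Nd e U (x, y) := by
      ext y; unfold VV SS Nd; rw [if_neg (h1 y), kk_zero hx]; simp
    rw [this]
  set m := 1 + D.kk e x with hm
  have hmpos : 0 < m := one_add_kk_pos he x
  set c := D.g x + D.τ with hc
  set H : ℝ → ℝ := (Iio c).indicator (fun y => U (x, y) ^ 2) with hH
  set G : ℝ → ℝ := (Iio c)ᶜ.indicator (fun y => U (x, y) ^ 2) with hG
  obtain ⟨R, hR⟩ := hU.2.1.isBounded.subset_closedBall (0 : PP)
  have hzero : ∀ y : ℝ, y ∉ Icc (-R) R → U (x, y) = 0 := by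
    intro y hy
    apply image_eq_zero_of_notMem_tsupport
    intro hmem
    have h2 := hR hmem
    rw [mem_closedBall_zero_iff, Prod.norm_def] at h2
    have h3 := (le_max_right _ _).trans h2
    exact hy (abs_le.1 h3)
  have hcU : Continuous (fun y : ℝ => U (x, y)) :=
    hU.1.continuous.comp (by fun_prop : Continuous fun y : ℝ => ((x, y) : PP))
  have hcU2 : Continuous (fun y => U (x, y) ^ 2) := hcU.pow 2
  have hI : Integrable (fun y => U (x, y) ^ 2) := by
    apply Continuous.integrable_of_hasCompactSupport hcU2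
    apply HasCompactSupport.intro (isCompact_Icc (a := -R) (b := R))
    intro y hy
    show U (x, y) ^ 2 = 0
    rw [hzero y hy]; simp
  have hHi : Integrable H := hI.indicator measurableSet_Iio
  have hGi : Integrable G := hI.indicator measurableSet_Iio.compl
  have hτ := D.hτ
  have e1 : (fun y => (D.VV e U (x, y)) ^ 2) = fun y => H (m * (y - c) + c) + G y := by
    ext y
    by_cases hy : y < c
    · have h2 : m * (y - c) + c < c := (Sl_lt_iff he (x, y)).2 hy
      rw [hH, hG, indicator_of_mem (show _ ∈ Iio c from h2),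
        indicator_of_notMem (by simpa using hy), add_zero]
      by_cases hy2 : y < D.g x - D.τ
      · have z1 : D.VV e U (x, y) = 0 := by
          have hnot : ((x, D.SS e (x, y)) : PP) ∉ Ω := by
            refine hbelow (x, D.SS e (x, y)) ⟨hx.1.le, hx.2.le⟩ ?_
            show D.SS e (x, y) ≤ D.g x
            have h1 := (abs_le.1 (SS_sub_le he ((x, y) : PP))).2
            simp only at h1
            linarith
          show U (x, D.SS e (x, y)) = 0
          exact image_eq_zero_of_notMem_tsupport (fun h => hnot (hU.2.2 h))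
        have z2 : U (x, m * (y - c) + c) = 0 := by
          have hnot : ((x, m * (y - c) + c) : PP) ∉ Ω := by
            refine hbelow (x, m * (y - c) + c) ⟨hx.1.le, hx.2.le⟩ ?_
            show m * (y - c) + c ≤ D.g x
            have h1 := (abs_le.1 (kk_abs_le he x)).1
            rw [hm, hc]
            nlinarith
          exact image_eq_zero_of_notMem_tsupport (fun h => hnot (hU.2.2 h))
        rw [z1, z2]
      · push Not at hy2
        have hw : D.ww (x, y) = D.τ - y + D.g x := by
          unfold ww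
          rw [min_eq_left (by simp only; linarith), max_eq_right (by simp only; linarith)]
        have : D.SS e (x, y) = m * (y - c) + c := by
          unfold SS; rw [hw, hm, hc]; simp only; ring
        unfold VV; rw [this]
    · have h2 : ¬ (m * (y - c) + c < c) := fun h => hy ((Sl_lt_iff he (x, y)).1 h)
      rw [hH, hG, indicator_of_notMem (show _ ∉ Iio c from h2),
        indicator_of_mem (by simpa using hy), zero_add]
      have hw : D.ww (x, y) = 0 := by
        unfold ww; apply max_eq_left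
        refine (min_le_left _ _).trans ?_
        simp only
        push Not at hy
        linarith
      unfold VV SS; rw [hw]; simp
  have e2 : (fun y => D.Nd e U (x, y)) = fun y => D.dd e x * H y + G y := by
    ext y
    unfold Nd
    by_cases hy : y < c
    · have hst : ((x, y) : PP) ∈ D.St := ⟨hx, hy⟩
      rw [if_pos hst, hH, hG, indicator_of_mem (show _ ∈ Iio c from hy),
        indicator_of_notMem (by simpa using hy), add_zero]
    · have hst : ((x, y) : PP) ∉ D.St := fun h => hy h.2
      rw [if_neg hst, hH, hG, indicator_of_notMem (show _ ∉ Iio c from hy),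
        indicator_of_mem (by simpa using hy), mul_zero, zero_add]
  rw [e1, e2, integral_add (affine_integrable hmpos hHi) hGi, integral_add (hHi.const_mul _) hGi,
    affine_int hmpos, integral_const_mul, hm, one_add_kk he, inv_inv]

/-- the Rayleigh inequality with the stretched test function -/
theorem stretch_test {U : PP → ℝ} {Ω Ωe : Set PP} (hΩe : IsOpen Ωe) (hU : Tst 1 Ω U)
    (he : |e| ≤ D.τ / 4)
    (hbelow : ∀ v : PP, v.1 ∈ Icc D.p D.q → v.2 ≤ D.g v.1 → v ∉ Ω)
    (hincl : ∀ v : PP, ((v.1, D.SS e v) : PP) ∈ Ω → v ∈ Ωe) :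
    lamP Ωe * ∫ v, D.Nd e U v ≤ ∫ v, D.Ed e U v := by
  obtain ⟨C, hC⟩ := hU.lipschitz le_rfl
  have hV := VV_lip he hC
  have hVc := VV_compact he hU.2.1
  have hVs := VV_tsupport he hU.2.2 hincl
  have hder : ∀ᵐ v : PP, HasDerivAt (fun t : ℝ => D.VV e U (v + t • ex))
      (lineDeriv ℝ (D.VV e U) v ex) 0 ∧ HasDerivAt (fun t : ℝ => D.VV e U (v + t • ey))
      (lineDeriv ℝ (D.VV e U) v ey) 0 ∧
      (lineDeriv ℝ (D.VV e U) v ex) ^ 2 + (lineDeriv ℝ (D.VV e U) v ey) ^ 2 = D.Eden e U v := by
    filter_upwards [ae_good D] with v hv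
    obtain ⟨a, b, ha, hb, hab⟩ := hasDeriv_good hU he hbelow hv
    have h1 : lineDeriv ℝ (D.VV e U) v ex = a :=
      (show HasLineDerivAt ℝ (D.VV e U) a v ex from ha).lineDeriv
    have h2 : lineDeriv ℝ (D.VV e U) v ey = b :=
      (show HasLineDerivAt ℝ (D.VV e U) b v ey from hb).lineDeriv
    rw [h1, h2]
    exact ⟨ha, hb, hab⟩
  have hmain := lamP_mul_le_of_lipschitz hΩe hV hVc hVs
    (hder.mono fun v h => h.1) (hder.mono fun v h => h.2.1)
  have i1 := integrable_lineDeriv_sq hV hVc ex
  have i2 := integrable_lineDeriv_sq hV hVc ey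
  have hEi : Integrable (D.Eden e U) := (i1.add i2).congr (hder.mono fun v h => h.2.2)
  have e1 : (∫ v, (lineDeriv ℝ (D.VV e U) v ex) ^ 2) + ∫ v, (lineDeriv ℝ (D.VV e U) v ey) ^ 2
      = ∫ v, D.Ed e U v := by
    rw [← integral_add i1 i2, integral_congr_ae (hder.mono fun v h => h.2.2)]
    have hE2 : Integrable (D.Eden e U) ((volume : Measure ℝ).prod (volume : Measure ℝ)) := hEi
    have hE3 : Integrable (D.Ed e U) ((volume : Measure ℝ).prod (volume : Measure ℝ)) :=
      Ed_integrable hU he
    rw [Measure.volume_eq_prod, integral_prod _ hE2, integral_prod _ hE3]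
    congr 1; ext x
    exact inner_E hU he x
  have e2 : ∫ v, (D.VV e U v) ^ 2 = ∫ v, D.Nd e U v := by
    have hV2 : Integrable (fun v => (D.VV e U v) ^ 2)
        ((volume : Measure ℝ).prod (volume : Measure ℝ)) :=
      integrable_of_cont (hV.continuous.pow 2) (hasCompactSupport_sq hVc)
    have hN2 : Integrable (D.Nd e U) ((volume : Measure ℝ).prod (volume : Measure ℝ)) :=
      Nd_integrable hU he
    rw [Measure.volume_eq_prod, integral_prod _ hV2, integral_prod _ hN2]
    congr 1; ext x
    exact inner_N hU he hbelow x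
  rw [e1, e2] at hmain
  exact hmain

end SD

end

end Pool.Agent.MP70c477
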