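import Pool.Agent.MP70c477.ABarrier

set_option autoImplicit false
set_option linter.unusedVariables false

open MeasureTheory Set Filter Topology ContinuousLinearMap
open scoped Convolution ENNReal NNReal Pointwise

namespace Pool.Agent.MP70c477

noncomputable section

/-- nonnegative near minimisers -/
lemma exists_near_nonneg {Ω : Set PP} (hΩ : IsOpen Ω) (hne : Ω.Nonempty) {δ : ℝ} (hδ : 0 < δ) :
    ∃ u : PP → ℝ, Tst 1 Ω u ∧ (∀ p, 0 ≤ u p) ∧ 1 / 2 ≤ Nm u ∧ Nm u ≤ 1 ∧ En u ≤ lamP Ω + 1 ∧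
      Qf (lamP Ω) u ≤ δ := by
  set l := lamP Ω with hl
  have hl0 : 0 ≤ l := lamP_nonneg Ω
  obtain ⟨U, hU, hN, hE⟩ := exists_near hΩ hne (show 0 < min (δ / 2) 1 from
    lt_min (by linarith) one_pos)
  have hU1 : Tst 1 Ω U := hU.of_le (by simp)
  have hUd := hU1.1.differentiable (by simp)
  have iU : Integrable (fun p => |U p|) := (integrable_of_cont hU1.1.continuous hU1.2.1).abs
  set I := ∫ p, |U p| with hI
  have hI0 : 0 ≤ I := integral_nonneg (fun p => abs_nonneg _)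
  -- choose ε
  obtain ⟨ε, hε, hε1, hε2⟩ : ∃ ε : ℝ, 0 < ε ∧ 2 * ε * I ≤ 1 / 2 ∧ l * (2 * ε * I) ≤ δ / 2 := by
    refine ⟨min (1 / 2) (δ / 2) / (2 * (I + 1) * (l + 1)), by positivity, ?_, ?_⟩
    · have h1 : 2 * (min (1 / 2) (δ / 2) / (2 * (I + 1) * (l + 1))) * I
          = min (1 / 2) (δ / 2) * (I / (I + 1)) * (1 / (l + 1)) := by field_simp
      rw [h1]
      have h2 : I / (I + 1) ≤ 1 := by rw [div_le_one (by positivity)]; linarith
      have h3 : 1 / (l + 1) ≤ 1 := by rw [div_le_one (by positivity)]; linarith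
      calc min (1 / 2) (δ / 2) * (I / (I + 1)) * (1 / (l + 1))
          ≤ min (1 / 2) (δ / 2) * 1 * 1 := by gcongr
        _ ≤ 1 / 2 := by rw [mul_one, mul_one]; exact min_le_left _ _
    · have h1 : l * (2 * (min (1 / 2) (δ / 2) / (2 * (I + 1) * (l + 1))) * I)
          = min (1 / 2) (δ / 2) * (I / (I + 1)) * (l / (l + 1)) := by field_simp
      rw [h1]
      have h2 : I / (I + 1) ≤ 1 := by rw [div_le_one (by positivity)]; linarith
      have h3 : l / (l + 1) ≤ 1 := by rw [div_le_one (by positivity)]; linarith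
      calc min (1 / 2) (δ / 2) * (I / (I + 1)) * (l / (l + 1))
          ≤ min (1 / 2) (δ / 2) * 1 * 1 := by gcongr
        _ ≤ δ / 2 := by rw [mul_one, mul_one]; exact min_le_right _ _
  set u : PP → ℝ := fun p => Real.sqrt (U p ^ 2 + ε ^ 2) - ε with hu
  have hpos : ∀ p, U p ^ 2 + ε ^ 2 ≠ 0 := fun p => by positivity
  have hus : ContDiff ℝ 1 u := by
    rw [hu]
    exact (((hU1.1.pow 2).add contDiff_const).sqrt hpos).sub contDiff_const
  have hsub : Function.support u ⊆ Function.support U := by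
    intro p hp h0
    apply hp
    show Real.sqrt (U p ^ 2 + ε ^ 2) - ε = 0
    rw [h0]
    simp [Real.sqrt_sq hε.le]
  have huT : Tst 1 Ω u :=
    ⟨hus, hU1.2.1.mono hsub, (closure_mono hsub).trans hU1.2.2⟩
  have hge : ∀ p, |U p| - ε ≤ u p := by
    intro p
    have : |U p| ≤ Real.sqrt (U p ^ 2 + ε ^ 2) := by
      rw [← Real.sqrt_sq_eq_abs]; exact Real.sqrt_le_sqrt (by nlinarith)
    show |U p| - ε ≤ Real.sqrt (U p ^ 2 + ε ^ 2) - ε
    linarith
  have hle : ∀ p, u p ≤ |U p| := by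
    intro p
    have : Real.sqrt (U p ^ 2 + ε ^ 2) ≤ |U p| + ε := by
      rw [Real.sqrt_le_left (by positivity)]
      nlinarith [sq_abs (U p), abs_nonneg (U p)]
    show Real.sqrt (U p ^ 2 + ε ^ 2) - ε ≤ |U p|
    linarith
  have h0 : ∀ p, 0 ≤ u p := by
    intro p
    have : ε ≤ Real.sqrt (U p ^ 2 + ε ^ 2) := by
      apply Real.le_sqrt_of_sq_le; nlinarith [sq_nonneg (U p)]
    show 0 ≤ Real.sqrt (U p ^ 2 + ε ^ 2) - ε
    linarith
  have hNle : Nm u ≤ 1 := by
    rw [← hN]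
    unfold Nm
    apply integral_mono huT.int_sq hU1.int_sq
    intro p
    show u p ^ 2 ≤ U p ^ 2
    rw [← sq_abs (U p)]
    exact pow_le_pow_left₀ (h0 p) (hle p) 2
  have hNge : 1 - 2 * ε * I ≤ Nm u := by
    rw [← hN, hI]
    unfold Nm
    rw [← integral_const_mul, ← integral_sub hU1.int_sq (iU.const_mul _)]
    apply integral_mono (hU1.int_sq.sub (iU.const_mul _)) huT.int_sq
    intro p
    show U p ^ 2 - 2 * ε * |U p| ≤ u p ^ 2
    have h1 := hge p
    have h2 := h0 p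
    have h3 := abs_nonneg (U p)
    rw [← sq_abs (U p)]
    rcases le_or_gt ε |U p| with h4 | h4
    · have : (|U p| - ε) ^ 2 ≤ u p ^ 2 := pow_le_pow_left₀ (by linarith) h1 2
      nlinarith
    · nlinarith [sq_nonneg (u p)]
  have hdu : ∀ p v, fderiv ℝ u p v = U p / Real.sqrt (U p ^ 2 + ε ^ 2) * fderiv ℝ U p v := by
    intro p v
    have h1 : HasFDerivAt (fun p => U p ^ 2 + ε ^ 2) _ p :=
      ((hUd p).hasFDerivAt.pow 2).add_const (ε ^ 2)
    have h2 := (h1.sqrt (hpos p)).sub_const ε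
    have h3 : fderiv ℝ u p = _ := h2.fderiv
    rw [h3]
    have hs : Real.sqrt (U p ^ 2 + ε ^ 2) ≠ 0 := by positivity
    simp
    field_simp
  have hEle : En u ≤ En U := by
    unfold En
    apply integral_mono (huT.int_gsq le_rfl) (hU1.int_gsq le_rfl)
    intro p
    show gsq u p ≤ gsq U p
    unfold gsq
    rw [hdu, hdu]
    set s := Real.sqrt (U p ^ 2 + ε ^ 2) with hs
    have hs0 : 0 < s := by positivity
    have hs2 : s ^ 2 = U p ^ 2 + ε ^ 2 := Real.sq_sqrt (by positivity)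
    have h1 : (U p / s) ^ 2 ≤ 1 := by
      rw [div_pow, div_le_one (by positivity), hs2]; nlinarith
    have e1 : (U p / s * fderiv ℝ U p ex) ^ 2 + (U p / s * fderiv ℝ U p ey) ^ 2
        = (U p / s) ^ 2 * ((fderiv ℝ U p ex) ^ 2 + (fderiv ℝ U p ey) ^ 2) := by ring
    rw [e1]
    exact mul_le_of_le_one_left (by positivity) h1
  refine ⟨u, huT, h0, by linarith, hNle, ?_, ?_⟩
  · have := min_le_right (δ / 2) (1:ℝ)
    linarith
  · unfold Qf
    have h1 := min_le_left (δ / 2) (1:ℝ)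
    have h2 : l * (1 - 2 * ε * I) ≤ l * Nm u := mul_le_mul_of_nonneg_left hNge hl0
    nlinarith

lemma disc_sub {c c' p : PP} {R : ℝ} (hR : 0 < R) (hc : d2 c c' ≤ (R / 4) ^ 2)
    (hp : p ∈ disc c' (R / 2)) : p ∈ disc c (3 * R / 4) := by
  have h1 : (p.1 - c'.1) ^ 2 + (p.2 - c'.2) ^ 2 < (R / 2) ^ 2 := hp
  have h2 : (c'.1 - c.1) ^ 2 + (c'.2 - c.2) ^ 2 ≤ (R / 4) ^ 2 := hc
  show (p.1 - c.1) ^ 2 + (p.2 - c.2) ^ 2 < (3 * R / 4) ^ 2
  set a := p.1 - c'.1
  set b := p.2 - c'.2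
  set x := c'.1 - c.1
  set y := c'.2 - c.2
  have e1 : p.1 - c.1 = a + x := by simp only [a, x]; ring
  have e2 : p.2 - c.2 = b + y := by simp only [b, y]; ring
  rw [e1, e2]
  have hdot : (a * x + b * y) ^ 2 ≤ (R ^ 2 / 8) ^ 2 := by
    have h3 : (a * x + b * y) ^ 2 ≤ (a ^ 2 + b ^ 2) * (x ^ 2 + y ^ 2) := by
      nlinarith [sq_nonneg (a * y - b * x)]
    have h4 : (a ^ 2 + b ^ 2) * (x ^ 2 + y ^ 2) ≤ (R / 2) ^ 2 * (R / 4) ^ 2 :=
      mul_le_mul h1.le h2 (by positivity) (by positivity)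
    calc _ ≤ _ := h3.trans h4
      _ = _ := by ring
  have hdot2 : a * x + b * y ≤ R ^ 2 / 8 := abs_le_of_sq_le_sq' hdot (by positivity) |>.2
  nlinarith

section seq

variable {Ω' : Set PP} {u : ℕ → PP → ℝ}

lemma step_tendsto (hΩ' : IsOpen Ω') (hl : 0 < lamP Ω') (hu : ∀ k, Tst 1 Ω' (u k))
    (hu0 : ∀ k p, 0 ≤ u k p) (hQ : Tendsto (fun k => Qf (lamP Ω') (u k)) atTop (𝓝 0)) {c : PP}
    {R : ℝ} (hR : 0 < R) (hd : ∀ p, d2 c p ≤ R ^ 2 → p ∈ Ω')
    (hz : Tendsto (fun k => ∫ p in disc c (R / 2), u k p) atTop (𝓝 0)) :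
    Tendsto (fun k => ∫ p in disc c (3 * R / 4), u k p) atTop (𝓝 0) := by
  set l := lamP Ω' with hldef
  set A : ℝ := (7 * R ^ 2 / 16) ^ 4 with hA
  have hA0 : 0 < A := by positivity
  have hub : ∀ k, ∫ p in disc c (3 * R / 4), u k p ≤
      (l * A)⁻¹ * (Real.sqrt (Qf l (u k) * Qf l (bw R c)) + 16 * R ^ 6 *
        ∫ p in disc c (R / 2), u k p) := by
    intro k
    have h1 := barrier_ineq hΩ' hR hd (hu k) (hu0 k)
    have iu : Integrable (u k) := integrable_of_cont (hu k).1.continuous (hu k).2.1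
    have h2 : A * ∫ p in disc c (3 * R / 4), u k p ≤ ∫ p, u k p * bw R c p := by
      have hm := (disc_open c (3 * R / 4)).measurableSet
      rw [← integral_indicator hm, ← integral_const_mul]
      apply integral_mono ((iu.indicator hm).const_mul _) ((hu k).int_prod (bw_tst hR hd))
      intro p
      show A * (disc c (3 * R / 4)).indicator (u k) p ≤ u k p * bw R c p
      have hbw : 0 ≤ bw R c p := by unfold bw; have := mb_nonneg R c p; positivity
      by_cases hp : p ∈ disc c (3 * R / 4)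
      · rw [indicator_of_mem hp, mul_comm]
        apply mul_le_mul_of_nonneg_left _ (hu0 k p)
        have h3 : d2 c p < (3 * R / 4) ^ 2 := hp
        unfold bw
        apply pow_le_pow_left₀ (by positivity)
        unfold mb
        refine le_trans ?_ (le_max_right _ _)
        nlinarith
      · rw [indicator_of_notMem hp, mul_zero]
        exact mul_nonneg (hu0 k p) hbw
    rw [inv_mul_eq_div, le_div_iff₀ (by positivity)]
    calc (∫ p in disc c (3 * R / 4), u k p) * (l * A)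
        = l * (A * ∫ p in disc c (3 * R / 4), u k p) := by ring
      _ ≤ l * ∫ p, u k p * bw R c p := mul_le_mul_of_nonneg_left h2 hl.le
      _ ≤ _ := h1
  have hlim : Tendsto (fun k => (l * A)⁻¹ * (Real.sqrt (Qf l (u k) * Qf l (bw R c)) + 16 * R ^ 6 *
        ∫ p in disc c (R / 2), u k p)) atTop (𝓝 0) := by
    have t1 : Tendsto (fun k => Real.sqrt (Qf l (u k) * Qf l (bw R c))) atTop
        (𝓝 (Real.sqrt (0 * Qf l (bw R c)))) :=
      (Real.continuous_sqrt.tendsto _).comp (hQ.mul_const _)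
    have t2 := (t1.add (hz.const_mul (16 * R ^ 6))).const_mul ((l * A)⁻¹)
    simpa using t2
  refine tendsto_of_tendsto_of_tendsto_of_le_of_le tendsto_const_nhds hlim ?_ hub
  intro k
  exact setIntegral_nonneg (disc_open _ _).measurableSet (fun p _ => hu0 k p)

lemma tendsto_mono {s t : Set PP} (ht : MeasurableSet t) (hs : MeasurableSet s) (hst : s ⊆ t)
    (hu : ∀ k, Tst 1 Ω' (u k)) (hu0 : ∀ k p, 0 ≤ u k p)
    (h : Tendsto (fun k => ∫ p in t, u k p) atTop (𝓝 0)) :
    Tendsto (fun k => ∫ p in s, u k p) atTop (𝓝 0) := by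
  refine tendsto_of_tendsto_of_tendsto_of_le_of_le tendsto_const_nhds h ?_ ?_
  · intro k; exact setIntegral_nonneg hs (fun p _ => hu0 k p)
  · intro k
    apply setIntegral_mono_set
    · exact (integrable_of_cont (hu k).1.continuous (hu k).2.1).integrableOn
    · exact Eventually.of_forall (fun p => hu0 k p)
    · exact hst.eventuallyLE

/-- propagation along a segment -/
lemma chain_tendsto (hΩ' : IsOpen Ω') (hconv : Convex ℝ Ω') (hl : 0 < lamP Ω')
    (hu : ∀ k, Tst 1 Ω' (u k)) (hu0 : ∀ k p, 0 ≤ u k p)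
    (hQ : Tendsto (fun k => Qf (lamP Ω') (u k)) atTop (𝓝 0)) {a : PP} (ha : a ∈ Ω') {r0 : ℝ}
    (hr0 : 0 < r0) (hz : ∀ k p, p ∈ disc a r0 → u k p = 0) {b : PP} (hb : b ∈ Ω') :
    ∃ r : ℝ, 0 < r ∧ Tendsto (fun k => ∫ p in disc b r, u k p) atTop (𝓝 0) := by
  have hK : IsCompact (segment ℝ a b) := by
    rw [segment_eq_image]
    apply isCompact_Icc.image
    fun_prop
  have hKΩ : segment ℝ a b ⊆ Ω' := hconv.segment_subset ha hb
  obtain ⟨d, hd, hdΩ⟩ := hK.exists_cthickening_subset_open hΩ' hKΩ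
  set R := min d (2 * r0) with hRdef
  have hR : 0 < R := lt_min hd (by linarith)
  have hRin : ∀ c ∈ segment ℝ a b, ∀ p, d2 c p ≤ R ^ 2 → p ∈ Ω' := by
    intro c hc p hp
    apply hdΩ
    apply Metric.mem_cthickening_of_dist_le p c d _ hc
    have hp' : (p.1 - c.1) ^ 2 + (p.2 - c.2) ^ 2 ≤ R ^ 2 := hp
    have hRd : R ≤ d := min_le_left _ _
    rw [Prod.dist_eq]
    apply max_le
    · rw [Real.dist_eq]
      have : |p.1 - c.1| ≤ |R| := sq_le_sq.1 (by nlinarith [sq_nonneg (p.2 - c.2)])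
      rw [abs_of_pos hR] at this; linarith
    · rw [Real.dist_eq]
      have : |p.2 - c.2| ≤ |R| := sq_le_sq.1 (by nlinarith [sq_nonneg (p.1 - c.1)])
      rw [abs_of_pos hR] at this; linarith
  obtain ⟨N, hN⟩ := exists_nat_gt (Real.sqrt (d2 a b) / (R / 4))
  have hN0 : 0 < (N : ℝ) := lt_of_le_of_lt (by positivity) hN
  set cj : ℕ → PP := fun j => AffineMap.lineMap a b ((j : ℝ) / N) with hcj
  have hcj1 : ∀ j, (cj j).1 = a.1 + (j : ℝ) / N * (b.1 - a.1) := by
    intro j; rw [hcj]; simp [AffineMap.lineMap_apply]; ring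
  have hcj2 : ∀ j, (cj j).2 = a.2 + (j : ℝ) / N * (b.2 - a.2) := by
    intro j; rw [hcj]; simp [AffineMap.lineMap_apply]; ring
  have hseg : ∀ j ≤ N, cj j ∈ segment ℝ a b := by
    intro j hj
    rw [segment_eq_image_lineMap]
    refine ⟨(j : ℝ) / N, ⟨by positivity, ?_⟩, rfl⟩
    rw [div_le_one hN0]; exact_mod_cast hj
  have hstep : ∀ j, d2 (cj j) (cj (j + 1)) ≤ (R / 4) ^ 2 := by
    intro j
    unfold d2
    rw [hcj1, hcj1, hcj2, hcj2]
    push_cast
    have e : (a.1 + ((j:ℝ) + 1) / N * (b.1 - a.1) - (a.1 + (j:ℝ) / N * (b.1 - a.1))) ^ 2 +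
        (a.2 + ((j:ℝ) + 1) / N * (b.2 - a.2) - (a.2 + (j:ℝ) / N * (b.2 - a.2))) ^ 2
        = d2 a b / N ^ 2 := by
      unfold d2; field_simp; ring
    rw [e, div_le_iff₀ (by positivity)]
    rw [div_lt_iff₀ (by positivity)] at hN
    have h1 := d2_nonneg a b
    have h2 := Real.sq_sqrt h1
    have h3 : Real.sqrt (d2 a b) ^ 2 ≤ (N * (R / 4)) ^ 2 :=
      pow_le_pow_left₀ (Real.sqrt_nonneg _) hN.le 2
    rw [h2] at h3
    linarith [mul_pow (N : ℝ) (R / 4) 2]
  have hind : ∀ j ≤ N, Tendsto (fun k => ∫ p in disc (cj j) (R / 2), u k p) atTop (𝓝 0) := by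
    intro j
    induction j with
    | zero =>
      intro _
      have h0 : cj 0 = a := by rw [hcj]; simp
      rw [h0]
      have : ∀ k, ∫ p in disc a (R / 2), u k p = 0 := by
        intro k
        apply setIntegral_eq_zero_of_forall_eq_zero
        intro p hp
        apply hz k p
        have hp' : d2 a p < (R / 2) ^ 2 := hp
        show d2 a p < r0 ^ 2
        have h1 : R / 2 ≤ r0 := by have := min_le_right d (2 * r0); linarith
        have h2 : (R / 2) ^ 2 ≤ r0 ^ 2 := pow_le_pow_left₀ (by positivity) h1 2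
        linarith
      simp_rw [this]; exact tendsto_const_nhds
    | succ j ih =>
      intro hj
      have h1 := step_tendsto hΩ' hl hu hu0 hQ hR (hRin _ (hseg j (by omega))) (ih (by omega))
      exact tendsto_mono (disc_open _ _).measurableSet (disc_open _ _).measurableSet
        (fun p hp => disc_sub hR (hstep j) hp) hu hu0 h1
  refine ⟨R / 2, by positivity, ?_⟩
  have := hind N le_rfl
  have hNb : cj N = b := by
    rw [hcj]
    show AffineMap.lineMap a b ((N:ℝ) / N) = b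
    rw [div_self hN0.ne']; simp
  rwa [hNb] at this

end seq

end

end Pool.Agent.MP70c477
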