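import Pool.Agent.MP70c477.AStrict

set_option autoImplicit false
set_option linter.unusedVariables false

open MeasureTheory Set Filter Topology ContinuousLinearMap
open scoped Convolution ENNReal NNReal Pointwise

namespace Pool.Agent.MP70c477

noncomputable section

lemma disc_mem_nhds (c : PP) {r : ℝ} (hr : 0 < r) : disc c r ∈ 𝓝 c := by
  apply (disc_open c r).mem_nhds
  show d2 c c < r ^ 2
  unfold d2; simp; positivity

/-- local vanishing implies vanishing of the total mass -/
lemma total_tendsto {Ω' : Set PP} {u : ℕ → PP → ℝ} (hΩ' : IsOpen Ω')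
    (hfin : (volume : Measure PP) Ω' ≠ ∞)
    (hu : ∀ k, Tst 1 Ω' (u k)) (hu0 : ∀ k p, 0 ≤ u k p) (hN : ∀ k, Nm (u k) ≤ 1)
    (hloc : ∀ b ∈ Ω', ∃ r : ℝ, 0 < r ∧ Tendsto (fun k => ∫ p in disc b r, u k p) atTop (𝓝 0)) :
    ∀ ε > 0, ∀ᶠ k in atTop, ∫ p, u k p ≤ ε := by
  intro ε hε
  -- choose the compact set
  have hpos : ENNReal.ofReal (ε ^ 2 / 4) ≠ 0 := by
    rw [ne_eq, ENNReal.ofReal_eq_zero, not_le]; positivity
  obtain ⟨K, hKΩ, hK, hKv⟩ := hΩ'.measurableSet.exists_isCompact_sdiff_lt hfin hpos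
  have hcov : ∃ T : Set PP, MeasurableSet T ∧ K ⊆ T ∧
      Tendsto (fun k => ∫ p in T, u k p) atTop (𝓝 0) := by
    apply hK.induction_on (p := fun K => ∃ T : Set PP, MeasurableSet T ∧ K ⊆ T ∧
      Tendsto (fun k => ∫ p in T, u k p) atTop (𝓝 0))
    · exact ⟨∅, MeasurableSet.empty, subset_rfl, by simp⟩
    · rintro s t hst ⟨T, hT, htT, h⟩
      exact ⟨T, hT, hst.trans htT, h⟩
    · rintro s t ⟨S, hS, hsS, h1⟩ ⟨T, hT, htT, h2⟩
      refine ⟨S ∪ T, hS.union hT, union_subset_union hsS htT, ?_⟩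
      refine tendsto_of_tendsto_of_tendsto_of_le_of_le tendsto_const_nhds
        (by simpa using h1.add h2) ?_ ?_
      · intro k; exact setIntegral_nonneg (hS.union hT) (fun p _ => hu0 k p)
      · intro k
        have iu : Integrable (u k) := integrable_of_cont (hu k).1.continuous (hu k).2.1
        show ∫ p in S ∪ T, u k p ≤ (∫ p in S, u k p) + ∫ p in T, u k p
        rw [← integral_indicator (hS.union hT), ← integral_indicator hS, ← integral_indicator hT,
          ← integral_add (iu.indicator hS) (iu.indicator hT)]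
        apply integral_mono (iu.indicator (hS.union hT)) ((iu.indicator hS).add (iu.indicator hT))
        intro p
        show (S ∪ T).indicator (u k) p ≤ S.indicator (u k) p + T.indicator (u k) p
        have q1 : 0 ≤ S.indicator (u k) p := indicator_nonneg (fun p _ => hu0 k p) p
        have q2 : 0 ≤ T.indicator (u k) p := indicator_nonneg (fun p _ => hu0 k p) p
        by_cases hp1 : p ∈ S
        · rw [indicator_of_mem (mem_union_left T hp1), indicator_of_mem hp1]; linarith
        · by_cases hp2 : p ∈ T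
          · rw [indicator_of_mem (mem_union_right S hp2), indicator_of_mem hp2]; linarith
          · rw [indicator_of_notMem (fun h : p ∈ S ∪ T => h.elim hp1 hp2)]; linarith
    · intro b hb
      obtain ⟨r, hr, h⟩ := hloc b (hKΩ hb)
      exact ⟨disc b r, mem_nhdsWithin_of_mem_nhds (disc_mem_nhds b hr), disc b r,
        (disc_open _ _).measurableSet, subset_rfl, h⟩
  obtain ⟨T, hT, hKT, hTt⟩ := hcov
  have hev : ∀ᶠ k in atTop, ∫ p in T, u k p < ε / 4 := hTt.eventually_lt_const (by linarith)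
  filter_upwards [hev] with k hk
  have iu : Integrable (u k) := integrable_of_cont (hu k).1.continuous (hu k).2.1
  set D := Ω' \ K with hD
  have hDm : MeasurableSet D := hΩ'.measurableSet.diff hK.measurableSet
  have hDfin : (volume : Measure PP) D ≠ ∞ := (hKv.trans ENNReal.ofReal_lt_top).ne
  have hDr : (volume : Measure PP).real D ≤ ε ^ 2 / 4 := by
    rw [Measure.real]
    exact ENNReal.toReal_le_of_le_ofReal (by positivity) hKv.le
  have i1 : Integrable (D.indicator (fun _ : PP => (1:ℝ))) := by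
    rw [integrable_indicator_iff hDm]
    exact integrableOn_const (hs := hDfin)
  calc ∫ p, u k p ≤ ∫ p, (T.indicator (u k) p + (ε / 2 * u k p ^ 2 + 1 / (2 * ε) *
        D.indicator (fun _ => (1:ℝ)) p)) := by
        apply integral_mono iu ((iu.indicator hT).add (((hu k).int_sq.const_mul _).add
          (i1.const_mul _)))
        intro p
        show u k p ≤ T.indicator (u k) p + (ε / 2 * u k p ^ 2 + 1 / (2 * ε) *
          D.indicator (fun _ => (1:ℝ)) p)
        have hn : 0 ≤ D.indicator (fun _ : PP => (1:ℝ)) p := indicator_nonneg (fun _ _ => zero_le_one) p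
        have h0 := hu0 k p
        by_cases hp : p ∈ T
        · rw [indicator_of_mem hp]
          have : 0 ≤ ε / 2 * u k p ^ 2 + 1 / (2 * ε) * D.indicator (fun _ => (1:ℝ)) p := by positivity
          linarith
        · rw [indicator_of_notMem hp, zero_add]
          by_cases hpΩ : p ∈ Ω'
          · have hpD : p ∈ D := ⟨hpΩ, fun h => hp (hKT h)⟩
            rw [indicator_of_mem hpD, mul_one]
            have h1 : 0 ≤ (ε * u k p - 1) ^ 2 := sq_nonneg _
            have h2 : ε / 2 * u k p ^ 2 + 1 / (2 * ε) - u k p = (ε * u k p - 1) ^ 2 / (2 * ε) := by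
              field_simp
              ring
            have h3 : 0 ≤ (ε * u k p - 1) ^ 2 / (2 * ε) := by positivity
            linarith
          · have : u k p = 0 := image_eq_zero_of_notMem_tsupport (fun h => hpΩ ((hu k).2.2 h))
            rw [this]; positivity
    _ = (∫ p in T, u k p) + (ε / 2 * Nm (u k) + 1 / (2 * ε) * (volume : Measure PP).real D) := by
        have s1 : ∫ p, (T.indicator (u k) p + (ε / 2 * u k p ^ 2 + 1 / (2 * ε) *
          D.indicator (fun _ => (1:ℝ)) p)) = (∫ p, T.indicator (u k) p) + ∫ p, (ε / 2 * u k p ^ 2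
          + 1 / (2 * ε) * D.indicator (fun _ => (1:ℝ)) p) :=
          integral_add (iu.indicator hT) (((hu k).int_sq.const_mul _).add (i1.const_mul _))
        have s2 : ∫ p, (ε / 2 * u k p ^ 2 + 1 / (2 * ε) * D.indicator (fun _ => (1:ℝ)) p) =
          (∫ p, ε / 2 * u k p ^ 2) + ∫ p, 1 / (2 * ε) * D.indicator (fun _ => (1:ℝ)) p :=
          integral_add ((hu k).int_sq.const_mul _) (i1.const_mul _)
        rw [s1, s2, integral_indicator hT, integral_const_mul, integral_const_mul,
          integral_indicator hDm]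
        congr 1
        congr 1
        simp
    _ ≤ ε / 4 + (ε / 2 * 1 + 1 / (2 * ε) * (ε ^ 2 / 4)) := by
        have h1 := hN k
        gcongr
    _ ≤ ε := by
        have : 1 / (2 * ε) * (ε ^ 2 / 4) = ε / 8 := by field_simp; norm_num
        rw [this]; linarith

/-- **strict monotonicity** of the first eigenvalue -/
theorem lamP_strict {Ω Ω' : Set PP} (hΩ : IsOpen Ω) (hne : Ω.Nonempty) (hΩ' : IsOpen Ω')
    (hconv : Convex ℝ Ω') (hb : Bornology.IsBounded Ω') (hsub : Ω ⊆ Ω') {a : PP} (ha : a ∈ Ω')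
    (hnot : a ∉ closure Ω) : lamP Ω' < lamP Ω := by
  have hle := lamP_anti hΩ hne hsub
  rcases hle.lt_or_eq with h | heq
  · exact h
  exfalso
  have hne' : Ω'.Nonempty := hne.mono hsub
  have hl : 0 < lamP Ω' := lamP_pos hΩ' hne' hb
  have hex : ∀ k : ℕ, ∃ u : PP → ℝ, Tst 1 Ω u ∧ (∀ p, 0 ≤ u p) ∧ 1 / 2 ≤ Nm u ∧ Nm u ≤ 1 ∧
      En u ≤ lamP Ω + 1 ∧ Qf (lamP Ω) u ≤ 1 / ((k : ℝ) + 1) := fun k =>
    exists_near_nonneg hΩ hne (by positivity)
  choose u hu hu0 hN1 hN2 hE hQ using hex
  have hu' : ∀ k, Tst 1 Ω' (u k) := fun k => (hu k).mono hsub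
  have hQt : Tendsto (fun k => Qf (lamP Ω') (u k)) atTop (𝓝 0) := by
    refine tendsto_of_tendsto_of_tendsto_of_le_of_le tendsto_const_nhds
      tendsto_one_div_add_atTop_nhds_zero_nat ?_ ?_
    · intro k
      have := lamP_mul_le_C1 hΩ' (hu' k)
      show 0 ≤ Qf (lamP Ω') (u k)
      unfold Qf; linarith
    · intro k
      show Qf (lamP Ω') (u k) ≤ 1 / ((k : ℝ) + 1)
      rw [heq]; exact hQ k
  obtain ⟨r0, hr0, hball⟩ := Metric.isOpen_iff.1 isClosed_closure.isOpen_compl a hnot
  have hz : ∀ k p, p ∈ disc a r0 → u k p = 0 := by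
    intro k p hp
    have hp' : (p.1 - a.1) ^ 2 + (p.2 - a.2) ^ 2 < r0 ^ 2 := hp
    have hpb : p ∈ Metric.ball a r0 := by
      rw [Metric.mem_ball, Prod.dist_eq]
      apply max_lt
      · rw [Real.dist_eq]
        exact abs_lt_of_sq_lt_sq (by nlinarith [sq_nonneg (p.2 - a.2)]) hr0.le
      · rw [Real.dist_eq]
        exact abs_lt_of_sq_lt_sq (by nlinarith [sq_nonneg (p.1 - a.1)]) hr0.le
    have h1 := hball hpb
    exact image_eq_zero_of_notMem_tsupport (fun h => h1 (subset_closure ((hu k).2.2 h)))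
  have hloc : ∀ b ∈ Ω', ∃ r : ℝ, 0 < r ∧ Tendsto (fun k => ∫ p in disc b r, u k p) atTop (𝓝 0) :=
    fun b hb' => chain_tendsto hΩ' hconv hl hu' hu0 hQt ha hr0 hz hb'
  have htot := total_tendsto hΩ' hb.measure_lt_top.ne hu' hu0 hN2 hloc
  obtain ⟨C, hC0, hC⟩ := exists_L4
  set C4 : ℝ := C * (1 + 2 * (lamP Ω + 1)) ^ 2 with hC4
  have hlΩ : 0 ≤ lamP Ω := lamP_nonneg Ω
  have hC40 : 0 ≤ C4 := by positivity
  set T : ℝ := 1 + 8 * C4 with hT
  have hT0 : 0 < T := by positivity
  have hev := htot (1 / (8 * T)) (by positivity)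
  obtain ⟨k, hk⟩ := hev.exists
  have h4 : ∫ p, u k p ^ 4 ≤ C4 := by
    refine (hC Ω (u k) (hu k)).trans ?_
    apply mul_le_mul_of_nonneg_left _ hC0
    have h1 := Nm_nonneg (u k)
    have h2 := En_nonneg (u k)
    apply pow_le_pow_left₀ (by positivity)
    have h3 := hN2 k
    have h4 := hE k
    linarith
  have iu : Integrable (u k) := integrable_of_cont (hu k).1.continuous (hu k).2.1
  have i4 : Integrable (fun p => u k p ^ 4) := by
    apply integrable_of_cont ((hu k).1.continuous.pow 4)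
    apply (hu k).2.1.mono
    intro p hp h0
    apply hp
    show u k p ^ 4 = 0
    rw [h0]; simp
  have hsq : Nm (u k) ≤ T * (∫ p, u k p) + 1 / T ^ 2 * ∫ p, u k p ^ 4 := by
    unfold Nm
    rw [← integral_const_mul, ← integral_const_mul, ← integral_add (iu.const_mul _) (i4.const_mul _)]
    apply integral_mono (hu k).int_sq ((iu.const_mul _).add (i4.const_mul _))
    intro p
    show u k p ^ 2 ≤ T * u k p + 1 / T ^ 2 * u k p ^ 4
    have h0 := hu0 k p
    rcases le_or_gt (u k p) T with h1 | h1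
    · have h2 : u k p ^ 2 ≤ T * u k p := by nlinarith
      have h3 : 0 ≤ 1 / T ^ 2 * u k p ^ 4 := by positivity
      linarith
    · have h2 : u k p ^ 2 ≤ 1 / T ^ 2 * u k p ^ 4 := by
        rw [one_div, inv_mul_eq_div, le_div_iff₀ (by positivity)]
        have h5 : T ^ 2 ≤ u k p ^ 2 := pow_le_pow_left₀ hT0.le h1.le 2
        calc u k p ^ 2 * T ^ 2 ≤ u k p ^ 2 * u k p ^ 2 := by gcongr
          _ = _ := by ring
      have h3 : 0 ≤ T * u k p := by positivity
      linarith
  have h5 : T * (∫ p, u k p) ≤ 1 / 8 := by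
    calc T * (∫ p, u k p) ≤ T * (1 / (8 * T)) := mul_le_mul_of_nonneg_left hk hT0.le
      _ = 1 / 8 := by field_simp
  have h6 : 1 / T ^ 2 * ∫ p, u k p ^ 4 ≤ 1 / 8 := by
    calc 1 / T ^ 2 * ∫ p, u k p ^ 4 ≤ 1 / T ^ 2 * C4 := by gcongr
      _ ≤ 1 / 8 := by
          rw [one_div, inv_mul_eq_div, div_le_iff₀ (by positivity)]
          have h7 : 1 ≤ T := by rw [hT]; linarith
          nlinarith
  have h7 := hN1 k
  linarith

end

end Pool.Agent.MP70c477
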