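import Mathlib

/-!
# The circular arc: elementary inequalities
-/

namespace Pool.MP70c477

open Set Filter Topology

/-- half chord: `√(r² - z²)` -/
noncomputable def arc (r z : ℝ) : ℝ := Real.sqrt (r ^ 2 - z ^ 2)

/-- slope of the lower arc of a circle -/
noncomputable def slo (r z : ℝ) : ℝ := z / Real.sqrt (r ^ 2 - z ^ 2)

lemma continuous_arc (r : ℝ) : Continuous (arc r) := by unfold arc; fun_prop

lemma arc_nonneg (r z : ℝ) : 0 ≤ arc r z := Real.sqrt_nonneg _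

lemma arc_pos {r z : ℝ} (hz : |z| < r) : 0 < arc r z := by
  have h := sq_lt_sq' (by linarith [(abs_lt.1 hz).1]) (abs_lt.1 hz).2
  exact Real.sqrt_pos.2 (by linarith)

lemma arc_sq {r z : ℝ} (hz : |z| ≤ r) : arc r z ^ 2 = r ^ 2 - z ^ 2 := by
  have h := sq_le_sq' (by linarith [(abs_le.1 hz).1]) (abs_le.1 hz).2
  exact Real.sq_sqrt (by linarith)

lemma arc_le {r z : ℝ} (hr : 0 ≤ r) : arc r z ≤ r := by
  unfold arc
  rw [Real.sqrt_le_left hr]
  nlinarith [sq_nonneg z]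

lemma slo_eq (r z : ℝ) : slo r z = z / arc r z := rfl

/-- tangent line above the arc -/
lemma arc_le_tangent {r z w : ℝ} (hz : |z| < r) (hw : |w| ≤ r) :
    arc r w ≤ arc r z - slo r z * (w - z) := by
  have hr : 0 < r := (abs_nonneg z).trans_lt hz
  have h0 := arc_pos hz
  have hz2 := arc_sq hz.le
  have hw2 := arc_sq hw
  have hzw : 0 ≤ r ^ 2 - z * w := by
    have : |z * w| ≤ r * r := by
      rw [abs_mul]; exact mul_le_mul hz.le hw (abs_nonneg _) hr.le
    have := (abs_le.1 this).2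
    nlinarith
  have key : arc r w * arc r z ≤ r ^ 2 - z * w := by
    apply le_of_sq_le_sq _ hzw
    rw [mul_pow, hw2, hz2]
    nlinarith [mul_nonneg (sq_nonneg r) (sq_nonneg (w - z))]
  rw [slo_eq, div_mul_eq_mul_div, le_sub_iff_add_le, ← le_sub_iff_add_le', div_le_iff₀ h0]
  nlinarith

lemma one_div_arc_anti {r z w : ℝ} (h : |z| ≤ |w|) : arc r w ≤ arc r z := by
  unfold arc
  apply Real.sqrt_le_sqrt
  have := sq_le_sq.2 h
  linarith

/-- the slope grows at least linearly -/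
lemma slo_sub_ge {r z₁ z₂ : ℝ} (h1 : |z₁| < r) (h2 : |z₂| < r) (h : z₁ ≤ z₂) :
    (z₂ - z₁) / r ≤ slo r z₂ - slo r z₁ := by
  have hr : 0 < r := (abs_nonneg z₁).trans_lt h1
  have a1 := arc_pos h1
  have a2 := arc_pos h2
  have b1 : arc r z₁ ≤ r := arc_le hr.le
  have b2 : arc r z₂ ≤ r := arc_le hr.le
  rw [slo_eq, slo_eq]
  rcases le_total 0 z₁ with hz1 | hz1
  · -- both nonnegative
    have hab : arc r z₂ ≤ arc r z₁ := one_div_arc_anti (by
      rw [abs_of_nonneg hz1, abs_of_nonneg (hz1.trans h)]; exact h)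
    have e1 : z₂ / arc r z₁ ≤ z₂ / arc r z₂ :=
      div_le_div_of_nonneg_left (hz1.trans h) a2 hab
    have e2 : (z₂ - z₁) / r ≤ (z₂ - z₁) / arc r z₁ :=
      div_le_div_of_nonneg_left (by linarith) a1 b1
    have e3 : (z₂ - z₁) / arc r z₁ = z₂ / arc r z₁ - z₁ / arc r z₁ := sub_div _ _ _
    linarith
  · rcases le_total 0 z₂ with hz2 | hz2
    · have e1 : z₂ / r ≤ z₂ / arc r z₂ := div_le_div_of_nonneg_left hz2 a2 b2
      have e2 : (-z₁) / r ≤ (-z₁) / arc r z₁ :=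
        div_le_div_of_nonneg_left (by linarith) a1 b1
      rw [neg_div, neg_div] at e2
      rw [sub_div]
      linarith
    · have hab : arc r z₁ ≤ arc r z₂ := one_div_arc_anti (by
        rw [abs_of_nonpos hz2, abs_of_nonpos hz1]; linarith)
      have e1 : (-z₁) / arc r z₂ ≤ (-z₁) / arc r z₁ :=
        div_le_div_of_nonneg_left (by linarith) a1 hab
      have e2 : (z₂ - z₁) / r ≤ (z₂ - z₁) / arc r z₂ :=
        div_le_div_of_nonneg_left (by linarith) a2 b2
      have e3 : (z₂ - z₁) / arc r z₂ = z₂ / arc r z₂ + (-z₁) / arc r z₂ := by ring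
      rw [neg_div, neg_div] at e1
      rw [neg_div] at e3
      linarith

lemma slo_mono {r z₁ z₂ : ℝ} (h1 : |z₁| < r) (h2 : |z₂| < r) (h : z₁ ≤ z₂) :
    slo r z₁ ≤ slo r z₂ := by
  have hr : 0 < r := (abs_nonneg z₁).trans_lt h1
  have := slo_sub_ge h1 h2 h
  have h3 : 0 ≤ (z₂ - z₁) / r := div_nonneg (by linarith) hr.le
  linarith

lemma slo_strictMono {r z₁ z₂ : ℝ} (h1 : |z₁| < r) (h2 : |z₂| < r) (h : z₁ < z₂) :
    slo r z₁ < slo r z₂ := by
  have hr : 0 < r := (abs_nonneg z₁).trans_lt h1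
  have := slo_sub_ge h1 h2 h.le
  have h3 : 0 < (z₂ - z₁) / r := div_pos (by linarith) hr
  linarith

lemma le_of_slo_le {r z₁ z₂ : ℝ} (h1 : |z₁| < r) (h2 : |z₂| < r) (h : slo r z₁ ≤ slo r z₂) :
    z₁ ≤ z₂ := by
  by_contra hc
  rw [not_le] at hc
  exact absurd (slo_strictMono h2 h1 hc) (not_lt.2 h)

/-- the slope is Lipschitz where the half chord is bounded below -/
lemma slo_sub_le {r D z₁ z₂ : ℝ} (hD : 0 < D) (h1 : |z₁| < r) (h2 : |z₂| < r)
    (d1 : D ≤ arc r z₁) (d2 : D ≤ arc r z₂) (h : z₁ ≤ z₂) :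
    slo r z₂ - slo r z₁ ≤ (1 / D + r ^ 2 / D ^ 3) * (z₂ - z₁) := by
  have hr : 0 < r := (abs_nonneg z₁).trans_lt h1
  have a1 := arc_pos h1
  have a2 := arc_pos h2
  have q1 := arc_sq h1.le
  have q2 := arc_sq h2.le
  set a := arc r z₁ with ha
  set b := arc r z₂ with hb
  rw [slo_eq, slo_eq, ← ha, ← hb]
  -- z₂/b - z₁/a = (z₂ - z₁)/b + z₁ (1/b - 1/a)
  have e1 : z₂ / b - z₁ / a = (z₂ - z₁) / b + z₁ * (z₂ ^ 2 - z₁ ^ 2) / (a * b * (a + b)) := by
    have : a - b = (z₂ ^ 2 - z₁ ^ 2) / (a + b) := by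
      rw [eq_div_iff (by positivity)]
      nlinarith
    have e : z₂ / b - z₁ / a = (z₂ - z₁) / b + z₁ * (a - b) / (a * b) := by
      field_simp; ring
    rw [e, this]
    field_simp
  have e2 : (z₂ - z₁) / b ≤ (z₂ - z₁) / D := div_le_div_of_nonneg_left (by linarith) hD d2
  have e3 : z₁ * (z₂ ^ 2 - z₁ ^ 2) ≤ 2 * r ^ 2 * (z₂ - z₁) := by
    have f1 : z₁ * (z₂ + z₁) ≤ r * (2 * r) := by
      have g1 : |z₁ * (z₂ + z₁)| ≤ r * (2 * r) := by
        rw [abs_mul]
        apply mul_le_mul h1.le _ (abs_nonneg _) hr.le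
        calc |z₂ + z₁| ≤ |z₂| + |z₁| := abs_add_le _ _
          _ ≤ 2 * r := by linarith
      exact (le_abs_self _).trans g1
    nlinarith [mul_le_mul_of_nonneg_right f1 (sub_nonneg.2 h)]
  have e4 : z₁ * (z₂ ^ 2 - z₁ ^ 2) / (a * b * (a + b)) ≤ r ^ 2 / D ^ 3 * (z₂ - z₁) := by
    have f1 : 2 * D ^ 3 ≤ a * b * (a + b) := by
      have g1 : D * D ≤ a * b := mul_le_mul d1 d2 hD.le a1.le
      have g2 : 2 * D ≤ a + b := by linarith
      calc 2 * D ^ 3 = D * D * (2 * D) := by ring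
        _ ≤ a * b * (a + b) := mul_le_mul g1 g2 (by positivity) (by positivity)
    calc z₁ * (z₂ ^ 2 - z₁ ^ 2) / (a * b * (a + b))
        ≤ 2 * r ^ 2 * (z₂ - z₁) / (a * b * (a + b)) := by gcongr
      _ ≤ 2 * r ^ 2 * (z₂ - z₁) / (2 * D ^ 3) := by
          apply div_le_div_of_nonneg_left _ (by positivity) f1
          have : 0 ≤ z₂ - z₁ := by linarith
          positivity
      _ = _ := by field_simp
  have e5 : (1 / D + r ^ 2 / D ^ 3) * (z₂ - z₁) = (z₂ - z₁) / D + r ^ 2 / D ^ 3 * (z₂ - z₁) := by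
    ring
  rw [e1, e5]
  linarith

/-- second order lower bound for the arc -/
lemma arc_ge {r D z w : ℝ} (hD : 0 < D) (hz : |z| < r) (hw : |w| < r)
    (dz : D ≤ arc r z) (dw : D ≤ arc r w) :
    arc r z - slo r z * (w - z) - (1 / D + r ^ 2 / D ^ 3) * (w - z) ^ 2 ≤ arc r w := by
  have h1 := arc_le_tangent hw hz.le
  rcases le_total z w with h | h
  · have h2 := slo_sub_le hD hz hw dz dw h
    have h3 := mul_le_mul_of_nonneg_right h2 (sub_nonneg.2 h)
    nlinarith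
  · have h2 := slo_sub_le hD hw hz dw dz h
    have h3 := mul_le_mul_of_nonneg_right h2 (sub_nonneg.2 h)
    nlinarith

/-- chord inequality -/
lemma arc_chord {r z₀ z₁ : ℝ} (h0 : |z₀| < r) (h1 : |z₁| < r) (h : z₀ ≤ z₁) :
    arc r z₀ - arc r z₁ ≤ slo r z₁ * (z₁ - z₀) - (z₁ - z₀) ^ 2 / (4 * r) := by
  have hr : 0 < r := (abs_nonneg z₀).trans_lt h0
  set w := (z₀ + z₁) / 2 with hw
  have hwr : |w| < r := by
    rw [abs_lt] at *
    constructor <;> (rw [hw]; linarith [h0.1, h0.2, h1.1, h1.2])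
  have e1 := arc_le_tangent hwr h0.le
  have e2 := arc_le_tangent h1 hwr.le
  have e3 := slo_sub_ge hwr h1 (by rw [hw]; linarith)
  have e4 : z₁ - w = (z₁ - z₀) / 2 := by rw [hw]; ring
  have e5 : z₀ - w = -((z₁ - z₀) / 2) := by rw [hw]; ring
  have e6 : w - z₁ = -((z₁ - z₀) / 2) := by rw [hw]; ring
  rw [e4] at e3
  rw [e5] at e1
  rw [e6] at e2
  have e7 : (z₁ - z₀) / 2 / r * ((z₁ - z₀) / 2) = (z₁ - z₀) ^ 2 / (4 * r) := by
    field_simp; ring
  have e8 := mul_le_mul_of_nonneg_right e3 (show 0 ≤ (z₁ - z₀) / 2 by linarith)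
  rw [e7] at e8
  nlinarith

/-- decreasing increments of the arc -/
lemma arc_incr {r u v d : ℝ} (hu : |u| ≤ r) (hvd : |v + d| ≤ r) (huv : u ≤ v) (hd : 0 ≤ d) :
    arc r (v + d) + arc r u ≤ arc r (u + d) + arc r v := by
  rcases eq_or_lt_of_le (show u ≤ v + d by linarith) with h | h
  · have : v = u := by linarith
    have : d = 0 := by linarith
    subst_vars; simp
  have hr0 : 0 ≤ r := (abs_nonneg u).trans hu
  have hconc : ConcaveOn ℝ (Icc (-r) r) (arc r) := by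
    refine ⟨convex_Icc _ _, ?_⟩
    intro x hx y hy a b ha hb hab
    simp only [smul_eq_mul]
    have hx' : |x| ≤ r := abs_le.2 hx
    have hy' : |y| ≤ r := abs_le.2 hy
    have hxx := arc_sq hx'
    have hyy := arc_sq hy'
    have hb' : b = 1 - a := by linarith
    have hxy : arc r x * arc r y ≤ r ^ 2 - x * y := by
      have hzw : 0 ≤ r ^ 2 - x * y := by
        have : |x * y| ≤ r * r := by
          rw [abs_mul]; exact mul_le_mul hx' hy' (abs_nonneg _) hr0
        have := (abs_le.1 this).2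
        nlinarith
      apply le_of_sq_le_sq _ hzw
      rw [mul_pow, hxx, hyy]
      nlinarith [mul_nonneg (sq_nonneg r) (sq_nonneg (x - y))]
    apply Real.le_sqrt_of_sq_le
    have h1 := arc_nonneg r x
    have h2 := arc_nonneg r y
    have h3 : (a * arc r x + b * arc r y) ^ 2 =
        a ^ 2 * (r ^ 2 - x ^ 2) + 2 * (a * b) * (arc r x * arc r y) +
        b ^ 2 * (r ^ 2 - y ^ 2) := by
      rw [← hxx, ← hyy]; ring
    rw [h3]
    have h4 : 2 * (a * b) * (arc r x * arc r y) ≤ 2 * (a * b) * (r ^ 2 - x * y) :=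
      mul_le_mul_of_nonneg_left hxy (by positivity)
    have h5 : a ^ 2 * (r ^ 2 - x ^ 2) + 2 * (a * b) * (r ^ 2 - x * y) + b ^ 2 * (r ^ 2 - y ^ 2) =
        (a + b) ^ 2 * r ^ 2 - (a * x + b * y) ^ 2 := by ring
    rw [hab] at h5
    linarith
  have hlen : 0 < v + d - u := by linarith
  have hu' : u ∈ Icc (-r) r := abs_le.1 hu
  have hv' : v + d ∈ Icc (-r) r := abs_le.1 hvd
  set lam := d / (v + d - u) with hlam
  have hl0 : 0 ≤ lam := div_nonneg hd hlen.le
  have hl1 : lam ≤ 1 := by rw [hlam, div_le_one hlen]; linarith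
  have c1 := hconc.2 hu' hv' (by linarith : 0 ≤ 1 - lam) hl0 (by ring)
  have c2 := hconc.2 hu' hv' hl0 (by linarith : 0 ≤ 1 - lam) (by ring)
  simp only [smul_eq_mul] at c1 c2
  have hmul : lam * (v + d - u) = d := by rw [hlam]; field_simp
  have p1 : (1 - lam) * u + lam * (v + d) = u + d := by nlinarith
  have p2 : lam * u + (1 - lam) * (v + d) = v := by nlinarith
  rw [p1] at c1
  rw [p2] at c2
  linarith

/-- a bound on the slope bounds the half chord from below -/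
lemma arc_ge_of_slo {r z L : ℝ} (hz : |z| < r) (h : |slo r z| ≤ L) :
    r / Real.sqrt (1 + L ^ 2) ≤ arc r z := by
  have hr : 0 < r := (abs_nonneg z).trans_lt hz
  have h0 := arc_pos hz
  have hq := arc_sq hz.le
  have hL : 0 ≤ L := (abs_nonneg _).trans h
  rw [slo_eq, abs_div, abs_of_pos h0, div_le_iff₀ h0] at h
  have h1 : z ^ 2 ≤ L ^ 2 * arc r z ^ 2 := by
    rw [← mul_pow, ← sq_abs z]
    gcongr
  have hs : 0 < Real.sqrt (1 + L ^ 2) := Real.sqrt_pos.2 (by positivity)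
  rw [div_le_iff₀ hs]
  apply le_of_sq_le_sq _ (by positivity)
  rw [mul_pow, Real.sq_sqrt (by positivity)]
  nlinarith

end Pool.MP70c477
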