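import Mathlib

/-!
# MP_70c477_an, Q2: definitions

Planar convex sets, the first Dirichlet eigenvalue and the Cheeger constant, exactly as in the
frozen statement of Q1 (`S05013`).
-/

namespace Pool.MP70c477

open MeasureTheory

/-- The Euclidean plane. -/
abbrev Pl := EuclideanSpace ℝ (Fin 2)

/-- `u` is a nonzero function in `C_c^∞(Ω)`. -/
def IsTest (Ω : Set Pl) (u : Pl → ℝ) : Prop :=
  ContDiff ℝ (⊤ : ℕ∞) u ∧ HasCompactSupport u ∧ tsupport u ⊆ Ω ∧ u ≠ 0

/-- The first Dirichlet eigenvalue of the open set `Ω`: the infimum of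
`∫ |∇u|² / ∫ u²` over the nonzero `u ∈ C_c^∞(Ω)`. -/
noncomputable def lam (Ω : Set Pl) : ℝ :=
  sInf {q : ℝ | ∃ u : Pl → ℝ, IsTest Ω u ∧
    q = (∫ x, ‖fderiv ℝ u x‖ ^ 2) / (∫ x, u x ^ 2)}

/-- The Cheeger constant of the open set `Ω`: the infimum of
`∫ |∇u| / ∫ |u|` over the nonzero `u ∈ C_c^∞(Ω)`. -/
noncomputable def cheeger (Ω : Set Pl) : ℝ :=
  sInf {q : ℝ | ∃ u : Pl → ℝ, IsTest Ω u ∧
    q = (∫ x, ‖fderiv ℝ u x‖) / (∫ x, |u x|)}

/-- A planar convex set: a nonempty bounded open convex subset of the plane. -/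
structure IsPlanarConvex (Ω : Set Pl) : Prop where
  nonempty : Ω.Nonempty
  isOpen : IsOpen Ω
  bdd : Bornology.IsBounded Ω
  convex : Convex ℝ Ω

/-- `c^*`, the infimum of `λ₁(Ω) / h(Ω)²` over all planar convex sets. -/
noncomputable def cstar : ℝ :=
  sInf {q : ℝ | ∃ Ω : Set Pl, IsPlanarConvex Ω ∧ q = lam Ω / cheeger Ω ^ 2}

/-- An optimal set: a planar convex set with `λ₁(Ω) / h(Ω)² = c^*`. -/
def IsOptimal (Ω : Set Pl) : Prop :=
  IsPlanarConvex Ω ∧ lam Ω / cheeger Ω ^ 2 = cstar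

/-- An (open) convex polygon: the interior of the convex hull of finitely many points. -/
def IsPolygon (Ω : Set Pl) : Prop :=
  ∃ s : Finset Pl, Ω = interior (convexHull ℝ (s : Set Pl))

end Pool.MP70c477
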