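import Pool.Agent.MP70c477.LamStrict
import Pool.Agent.MP70c477.Defs

set_option autoImplicit false
set_option linter.unusedVariables false

open MeasureTheory Set Filter Topology ContinuousLinearMap
open scoped ENNReal NNReal

namespace Pool.Agent.MP70c477

open Pool.MP70c477 (Pl lam IsTest IsPlanarConvex)

noncomputable section

/-- Cartesian coordinates on the Euclidean plane -/
def eP : Pl ≃L[ℝ] PP :=
  (EuclideanSpace.equiv (Fin 2) ℝ).trans (ContinuousLinearEquiv.finTwoArrow ℝ ℝ)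

lemma eP_apply (x : Pl) : eP x = (x 0, x 1) := rfl

lemma eP_mp : MeasurePreserving eP :=
  (volume_preserving_finTwoArrow ℝ).comp (PiLp.volume_preserving_ofLp (Fin 2))

lemma eP_emb : MeasurableEmbedding eP := eP.toHomeomorph.measurableEmbedding

lemma integral_eP (f : PP → ℝ) : ∫ x : Pl, f (eP x) = ∫ p, f p :=
  eP_mp.integral_comp eP_emb f

lemma eP_single0 : eP (EuclideanSpace.single 0 (1:ℝ)) = ex := by
  rw [eP_apply]; simp [ex]

lemma eP_single1 : eP (EuclideanSpace.single 1 (1:ℝ)) = ey := by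
  rw [eP_apply]; simp [ey]

lemma norm_sq_dual (L : Pl →L[ℝ] ℝ) :
    ‖L‖ ^ 2 = (L (EuclideanSpace.single 0 (1:ℝ))) ^ 2 + (L (EuclideanSpace.single 1 (1:ℝ))) ^ 2 := by
  set v : Pl := (InnerProductSpace.toDual ℝ Pl).symm L with hv
  have h1 : ∀ w : Pl, L w = inner ℝ v w := by
    intro w; rw [hv, InnerProductSpace.toDual_symm_apply]
  have h2 : ‖L‖ = ‖v‖ := by rw [hv, LinearIsometryEquiv.norm_map]
  rw [h2, EuclideanSpace.norm_sq_eq, Fin.sum_univ_two, h1, h1]
  simp [EuclideanSpace.inner_single_right]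

lemma norm_fderiv_eP {U : PP → ℝ} (hU : Differentiable ℝ U) (x : Pl) :
    ‖fderiv ℝ (fun y => U (eP y)) x‖ ^ 2 = gsq U (eP x) := by
  have h1 : HasFDerivAt (fun y => U (eP y)) ((fderiv ℝ U (eP x)).comp (eP : Pl →L[ℝ] PP)) x :=
    (hU (eP x)).hasFDerivAt.comp x (eP : Pl →L[ℝ] PP).hasFDerivAt
  rw [h1.fderiv, norm_sq_dual]
  unfold gsq
  have e0 : ((fderiv ℝ U (eP x)).comp (eP : Pl →L[ℝ] PP)) (EuclideanSpace.single 0 (1:ℝ))
      = fderiv ℝ U (eP x) ex := by
    show fderiv ℝ U (eP x) (eP (EuclideanSpace.single 0 (1:ℝ))) = _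
    rw [eP_single0]
  have e1 : ((fderiv ℝ U (eP x)).comp (eP : Pl →L[ℝ] PP)) (EuclideanSpace.single 1 (1:ℝ))
      = fderiv ℝ U (eP x) ey := by
    show fderiv ℝ U (eP x) (eP (EuclideanSpace.single 1 (1:ℝ))) = _
    rw [eP_single1]
  rw [e0, e1]

lemma energy_eP {U : PP → ℝ} (hU : Differentiable ℝ U) :
    (∫ x : Pl, ‖fderiv ℝ (fun y => U (eP y)) x‖ ^ 2) = En U := by
  simp_rw [norm_fderiv_eP hU]
  exact integral_eP (gsq U)

lemma isTest_eP {Ω : Set Pl} {U : PP → ℝ} (hU : Tst ((⊤ : ℕ∞) : WithTop ℕ∞) (eP '' Ω) U)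
    (h0 : U ≠ 0) : IsTest Ω (fun x => U (eP x)) := by
  refine ⟨hU.1.comp eP.contDiff, ?_, ?_, ?_⟩
  · exact hU.2.1.comp_homeomorph eP.toHomeomorph
  · intro x hx
    have h1 : eP x ∈ tsupport U := tsupport_comp_subset_preimage U eP.continuous hx
    obtain ⟨y, hy, hyx⟩ := hU.2.2 h1
    rwa [← eP.injective hyx]
  · intro h
    apply h0
    ext p
    have := congrFun h (eP.symm p)
    simpa using this

lemma tst_eP {Ω : Set Pl} {u : Pl → ℝ} (hu : IsTest Ω u) :
    Tst ((⊤ : ℕ∞) : WithTop ℕ∞) (eP '' Ω) (fun p => u (eP.symm p)) ∧ (fun p => u (eP.symm p)) ≠ 0 := by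
  obtain ⟨h1, h2, h3, h4⟩ := hu
  refine ⟨⟨h1.comp eP.symm.contDiff, h2.comp_homeomorph eP.symm.toHomeomorph, ?_⟩, ?_⟩
  · intro p hp
    have h5 : eP.symm p ∈ tsupport u := tsupport_comp_subset_preimage u eP.symm.continuous hp
    exact ⟨eP.symm p, h3 h5, by simp⟩
  · intro h
    apply h4
    ext x
    have := congrFun h (eP x)
    simpa using this

/-- the first eigenvalue in coordinates -/
theorem lam_eq_lamP (Ω : Set Pl) : lam Ω = lamP (eP '' Ω) := by
  unfold lam lamP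
  congr 1
  ext q
  constructor
  · rintro ⟨u, hu, rfl⟩
    obtain ⟨hT, h0⟩ := tst_eP hu
    refine ⟨_, hT, h0, ?_⟩
    have e : (fun x => (fun p => u (eP.symm p)) (eP x)) = u := by ext x; simp
    have e1 := energy_eP (hT.1.differentiable (by simp))
    rw [e] at e1
    rw [e1]
    congr 1
    unfold Nm
    rw [← integral_eP]
    simp
  · rintro ⟨U, hU, h0, rfl⟩
    refine ⟨_, isTest_eP hU h0, ?_⟩
    rw [energy_eP (hU.1.differentiable (by simp))]
    congr 1
    unfold Nm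
    rw [← integral_eP]

lemma image_open {Ω : Set Pl} (h : IsOpen Ω) : IsOpen (eP '' Ω) :=
  eP.toHomeomorph.isOpenMap Ω h

lemma image_bdd {Ω : Set Pl} (h : Bornology.IsBounded Ω) : Bornology.IsBounded (eP '' Ω) :=
  eP.lipschitz.isBounded_image h

theorem lam_pos {Ω : Set Pl} (h : IsPlanarConvex Ω) : 0 < lam Ω := by
  rw [lam_eq_lamP]
  exact lamP_pos (image_open h.isOpen) (h.nonempty.image _) (image_bdd h.bdd)

theorem lam_anti {Ω Ω' : Set Pl} (h : IsPlanarConvex Ω) (hsub : Ω ⊆ Ω') : lam Ω' ≤ lam Ω := by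
  rw [lam_eq_lamP, lam_eq_lamP]
  exact lamP_anti (image_open h.isOpen) (h.nonempty.image _) (image_mono hsub)

/-- strict domain monotonicity on planar convex sets -/
theorem lam_strict {Ω Ω' : Set Pl} (h : IsPlanarConvex Ω) (h' : IsPlanarConvex Ω')
    (hsub : Ω ⊆ Ω') (hne : Ω ≠ Ω') : lam Ω' < lam Ω := by
  have hz : ∃ z ∈ Ω', z ∉ closure Ω := by
    by_contra hcon
    push Not at hcon
    apply hne
    apply Subset.antisymm hsub
    have h1 : Ω' ⊆ interior (closure Ω) := interior_maximal hcon h'.isOpen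
    rw [h.convex.interior_closure_eq_interior_of_nonempty_interior
      (by rw [h.isOpen.interior_eq]; exact h.nonempty), h.isOpen.interior_eq] at h1
    exact h1
  obtain ⟨z, hzΩ', hz⟩ := hz
  rw [lam_eq_lamP, lam_eq_lamP]
  apply lamP_strict (image_open h.isOpen) (h.nonempty.image _) (image_open h'.isOpen)
    (image_bdd h'.bdd) (h'.convex.isPreconnected.image _ eP.continuous.continuousOn)
    (image_mono hsub) (z0 := eP z) (mem_image_of_mem _ hzΩ')
  have h2 : closure (eP '' Ω) = eP '' closure Ω := (eP.toHomeomorph.image_closure Ω).symm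
  rw [h2]
  rintro ⟨y, hy, hyz⟩
  exact hz (eP.injective hyz ▸ hy)

end

end Pool.Agent.MP70c477
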