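import Pool.Agent.MP70c477.Local
import Pool.Agent.MP70c477.AMain
import Pool.Agent.MP70c477.LamTransfer

/-!
# Assembly of the two parts
-/

namespace Pool.MP70c477

open MeasureTheory Set Filter Topology Bornology
open scoped ENNReal NNReal RealInnerProductSpace

theorem a4Statement : A4Statement := by
  intro Ω hΩ Lg Wd τ₀ hLg hWd hτ₀
  obtain ⟨C, hC, H⟩ := Pool.Agent.MP70c477.lam_second_diff hΩ hLg hWd hτ₀
  refine ⟨C, hC, ?_⟩
  intro p q g hpq hW hg hab hbe τ κ κ' hτ hττ hκ hκ' η hη0 hη1 hηp hηq hηL hηL'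
  refine ⟨τ / 4, by positivity, ?_⟩
  intro e he0 he L M hL hM hLs hΩM hMs
  refine H p q g hpq hW hg hab hbe τ κ κ' η hτ hττ hκ hκ' hη0 hη1 hηp hηq hηL
    (fun x hx x' hx' => hηL' x x' hx.1 hx'.1) e he0.le he L M hL.isOpen hM.isOpen ?_ hΩM ?_
  · intro v hv hn
    rw [← pt_eta v]
    apply hLs _ _ (by rw [pt_eta]; exact hv)
    rintro ⟨h1, h2, h3⟩
    exact hn ⟨⟨h1, h2⟩, h3⟩
  · intro v h1 h2 h3
    rw [← pt_eta v]
    exact hMs _ _ h1.1 h1.2 h2 h3

/-- local structure, unconditional -/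
theorem loc_of_opt {Ω : Set Pl} (h : IsPlanarConvex Ω) (hopt : Opt Ω) {p : Pl}
    (hp : p ∈ frontier (inner Ω (rad Ω))) : Loc Ω (rad Ω) p :=
  local_of_opt a4Statement h hopt (Pool.Agent.MP70c477.lam_pos h) hp

end Pool.MP70c477
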