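import Pool.Agent.MP70c477.Select

/-!
# The perturbation function
-/

namespace Pool.MP70c477

open Set Filter Topology

/-- `n` is a subgradient of `g` at `w`. -/
def Sub (g : ℝ → ℝ) (I : Set ℝ) (w n : ℝ) : Prop := w ∈ I ∧ ∀ X ∈ I, g w + n * (X - w) ≤ g X

/-- one-sided excess over a tangent line -/
noncomputable def gam (g : ℝ → ℝ) (w n X : ℝ) : ℝ := if w ≤ X then g X - g w - n * (X - w) else 0

lemma gam_of_le {g : ℝ → ℝ} {w n X : ℝ} (h : X ≤ w) : gam g w n X = 0 := by
  unfold gam
  split_ifs with h1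
  · have : X = w := le_antisymm h h1
    subst this; simp
  · rfl

lemma gam_of_ge {g : ℝ → ℝ} {w n X : ℝ} (h : w ≤ X) : gam g w n X = g X - g w - n * (X - w) := by
  unfold gam; rw [if_pos h]

lemma gam_nonneg {g : ℝ → ℝ} {I : Set ℝ} {w n X : ℝ} (h : Sub g I w n) (hX : X ∈ I) :
    0 ≤ gam g w n X := by
  rcases le_total X w with h1 | h1
  · rw [gam_of_le h1]
  · rw [gam_of_ge h1]; linarith [h.2 X hX]

/-- A function with a subgradient at each point of a convex set is convex. -/
lemma convexOn_of_subgrad {f : ℝ → ℝ} {I : Set ℝ} (hI : Convex ℝ I)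
    (h : ∀ w ∈ I, ∃ n, ∀ X ∈ I, f w + n * (X - w) ≤ f X) : ConvexOn ℝ I f := by
  refine ⟨hI, ?_⟩
  intro x hx y hy a b ha hb hab
  simp only [smul_eq_mul]
  have hw : a * x + b * y ∈ I := by
    have := hI hx hy ha hb hab
    simpa using this
  obtain ⟨n, hn⟩ := h _ hw
  have h1 := mul_le_mul_of_nonneg_left (hn x hx) ha
  have h2 := mul_le_mul_of_nonneg_left (hn y hy) hb
  have h3 : a * (f (a * x + b * y) + n * (x - (a * x + b * y))) +
      b * (f (a * x + b * y) + n * (y - (a * x + b * y))) = f (a * x + b * y) := by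
    have e : b = 1 - a := by linarith
    subst e; ring
  linarith

/-- subgradients exist at every point of an open interval -/
lemma exists_sub {g : ℝ → ℝ} {I : Set ℝ} (hI : IsOpen I) (hg : ConvexOn ℝ I g) {w : ℝ}
    (hw : w ∈ I) : ∃ n, Sub g I w n := by
  obtain ⟨d, hd, hdI⟩ := Metric.isOpen_iff.1 hI w hw
  have hw2 : w + d / 2 ∈ I := hdI (by
    rw [Metric.mem_ball, Real.dist_eq, add_sub_cancel_left, abs_of_pos (by positivity)]; linarith)
  -- the infimum of the right slopes
  set S := {s : ℝ | ∃ X ∈ I, w < X ∧ s = (g X - g w) / (X - w)} with hS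
  have hSne : S.Nonempty := ⟨_, w + d / 2, hw2, by linarith, rfl⟩
  have hkey : ∀ X ∈ I, X < w → ∀ s ∈ S, (g w - g X) / (w - X) ≤ s := by
    rintro X hX hXw s ⟨Z, hZ, hwZ, rfl⟩
    exact hg.slope_mono_adjacent hX hZ hXw hwZ
  have hw3 : w - d / 2 ∈ I := hdI (by
    rw [Metric.mem_ball, Real.dist_eq, sub_sub_cancel_left, abs_neg, abs_of_pos (by positivity)]
    linarith)
  have hbdd : BddBelow S := ⟨_, fun s hs => hkey _ hw3 (by linarith) s hs⟩
  refine ⟨sInf S, hw, fun X hX => ?_⟩
  rcases lt_trichotomy X w with h1 | h1 | h1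
  · have h2 : (g w - g X) / (w - X) ≤ sInf S := le_csInf hSne fun s hs => hkey X hX h1 s hs
    rw [div_le_iff₀ (by linarith)] at h2
    linarith
  · subst h1; simp
  · have h2 : sInf S ≤ (g X - g w) / (X - w) := csInf_le hbdd ⟨X, hX, h1, rfl⟩
    rw [le_div_iff₀ (by linarith)] at h2
    linarith

lemma sub_mono {g : ℝ → ℝ} {I : Set ℝ} {w w' n n' : ℝ} (h : Sub g I w n) (h' : Sub g I w' n')
    (hww : w < w') : n ≤ n' := by
  have h1 := h.2 w' h'.1
  have h2 := h'.2 w h.1
  have : n * (w' - w) ≤ n' * (w' - w) := by nlinarith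
  exact le_of_mul_le_mul_right this (by linarith)

/-- a subgradient bounds increments to the right from below -/
lemma incr_ge {g : ℝ → ℝ} {I : Set ℝ} (hI : IsOpen I) (hg : ConvexOn ℝ I g) {w n X X' : ℝ}
    (h : Sub g I w n) (hX : X ∈ I) (hX' : X' ∈ I) (h1 : w ≤ X) (h2 : X ≤ X') :
    n * (X' - X) ≤ g X' - g X := by
  obtain ⟨k, hk⟩ := exists_sub hI hg hX
  have h3 := hk.2 X' hX'
  have h4 : n ≤ k ∨ w = X := by
    rcases h1.eq_or_lt with h5 | h5
    · right; exact h5
    · left; exact sub_mono h hk h5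
  rcases h4 with h4 | h4
  · have : n * (X' - X) ≤ k * (X' - X) := mul_le_mul_of_nonneg_right h4 (by linarith)
    linarith
  · subst h4; linarith [h.2 X' hX']

/-- a subgradient bounds increments to the left from above -/
lemma incr_le {g : ℝ → ℝ} {I : Set ℝ} (hI : IsOpen I) (hg : ConvexOn ℝ I g) {w n X X' : ℝ}
    (h : Sub g I w n) (hX : X ∈ I) (hX' : X' ∈ I) (h1 : X' ≤ w) (h2 : X ≤ X') :
    g X' - g X ≤ n * (X' - X) := by
  obtain ⟨k, hk⟩ := exists_sub hI hg hX'
  have h3 := hk.2 X hX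
  rcases h1.eq_or_lt with h5 | h5
  · subst h5; linarith [h.2 X hX]
  · have h4 := sub_mono hk h h5
    have : k * (X' - X) ≤ n * (X' - X) := mul_le_mul_of_nonneg_right h4 (by linarith)
    linarith

lemma gam_convex {g : ℝ → ℝ} {I : Set ℝ} (hI : IsOpen I) (hg : ConvexOn ℝ I g) {w n : ℝ}
    (h : Sub g I w n) : ConvexOn ℝ I (gam g w n) := by
  refine convexOn_of_subgrad hg.1 fun v hv => ?_
  rcases le_or_gt v w with h1 | h1
  · refine ⟨0, fun X hX => ?_⟩
    rw [gam_of_le h1]
    have := gam_nonneg h hX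
    linarith
  · obtain ⟨k, hk⟩ := exists_sub hI hg hv
    have hnk := sub_mono h hk h1
    refine ⟨k - n, fun X hX => ?_⟩
    rw [gam_of_ge h1.le]
    rcases le_total X w with h2 | h2
    · rw [gam_of_le h2]
      have h3 := hk.2 w h.1
      have : (k - n) * (X - v) ≤ (k - n) * (w - v) :=
        mul_le_mul_of_nonneg_left (by linarith) (by linarith)
      nlinarith
    · rw [gam_of_ge h2]
      have := hk.2 X hX
      nlinarith

lemma sub_gam_convex {g : ℝ → ℝ} {I : Set ℝ} (hI : IsOpen I) (hg : ConvexOn ℝ I g) {w n : ℝ}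
    (h : Sub g I w n) : ConvexOn ℝ I (fun X => g X - gam g w n X) := by
  refine convexOn_of_subgrad hg.1 fun v hv => ?_
  rcases le_or_gt w v with h1 | h1
  · refine ⟨n, fun X hX => ?_⟩
    rw [gam_of_ge h1]
    rcases le_total X w with h2 | h2
    · rw [gam_of_le h2]
      have := h.2 X hX
      nlinarith
    · rw [gam_of_ge h2]
      nlinarith
  · obtain ⟨k, hk⟩ := exists_sub hI hg hv
    have hkn := sub_mono hk h h1
    refine ⟨k, fun X hX => ?_⟩
    rw [gam_of_le h1.le]
    rcases le_total X w with h2 | h2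
    · rw [gam_of_le h2]
      have := hk.2 X hX
      linarith
    · rw [gam_of_ge h2]
      have h3 := hk.2 w h.1
      have : k * (X - w) ≤ n * (X - w) := mul_le_mul_of_nonneg_right hkn (by linarith)
      nlinarith

/-- linear combinations of excess functions are admissible perturbations -/
lemma convex_perturb {ι : Type*} {g : ℝ → ℝ} {I : Set ℝ} (hI : IsOpen I)
    (hg : ConvexOn ℝ I g) (s : Finset ι) (w n c : ι → ℝ) (h : ∀ i ∈ s, Sub g I (w i) (n i))
    (hc : ∑ i ∈ s, |c i| ≤ 1) :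
    ConvexOn ℝ I (fun X => g X + ∑ i ∈ s, c i * gam g (w i) (n i) X) := by
  have h1 : ConvexOn ℝ I (fun X => (1 - ∑ i ∈ s, |c i|) * g X) := by
    have := hg.smul (c := 1 - ∑ i ∈ s, |c i|) (by linarith)
    simpa using this
  have h2 : ConvexOn ℝ I (fun X => ∑ i ∈ s, |c i| * (g X - gam g (w i) (n i) X)) := by
    have : ∀ t : Finset ι, t ⊆ s →
        ConvexOn ℝ I (fun X => ∑ i ∈ t, |c i| * (g X - gam g (w i) (n i) X)) := by
      classical
      intro t
      induction t using Finset.induction_on with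
      | empty => intro _; simpa using convexOn_const (0:ℝ) hg.1
      | insert a t ha ih =>
        intro hts
        have e1 := ih ((Finset.subset_insert a t).trans hts)
        have e2 := (sub_gam_convex hI hg (h a (hts (Finset.mem_insert_self a t)))).smul
          (abs_nonneg (c a))
        have e3 := e2.add e1
        refine e3.congr fun X _ => ?_
        simp [Finset.sum_insert ha]
    exact this s (Finset.Subset.refl s)
  have h3 : ConvexOn ℝ I (fun X => ∑ i ∈ s, (|c i| + c i) * gam g (w i) (n i) X) := by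
    have : ∀ t : Finset ι, t ⊆ s →
        ConvexOn ℝ I (fun X => ∑ i ∈ t, (|c i| + c i) * gam g (w i) (n i) X) := by
      classical
      intro t
      induction t using Finset.induction_on with
      | empty => intro _; simpa using convexOn_const (0:ℝ) hg.1
      | insert a t ha ih =>
        intro hts
        have e1 := ih ((Finset.subset_insert a t).trans hts)
        have e2 := (gam_convex hI hg (h a (hts (Finset.mem_insert_self a t)))).smul
          (show 0 ≤ |c a| + c a by linarith [neg_abs_le (c a)])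
        have e3 := e2.add e1
        refine e3.congr fun X _ => ?_
        simp [Finset.sum_insert ha]
    exact this s (Finset.Subset.refl s)
  refine ((h1.add h2).add h3).congr fun X _ => ?_
  simp only [Pi.add_apply]
  have e1 : ∑ i ∈ s, |c i| * (g X - gam g (w i) (n i) X) =
      (∑ i ∈ s, |c i|) * g X - ∑ i ∈ s, |c i| * gam g (w i) (n i) X := by
    rw [Finset.sum_mul, ← Finset.sum_sub_distrib]
    exact Finset.sum_congr rfl fun i _ => by ring
  have e2 : ∑ i ∈ s, (|c i| + c i) * gam g (w i) (n i) X =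
      ∑ i ∈ s, |c i| * gam g (w i) (n i) X + ∑ i ∈ s, c i * gam g (w i) (n i) X := by
    rw [← Finset.sum_add_distrib]
    exact Finset.sum_congr rfl fun i _ => by ring
  rw [e1, e2]; ring

/-! ### Ramps -/

/-- a ramp: slope between `0` and `1`, `0` left of `w`, slope `1` right of `w'` -/
noncomputable def ramp (g : ℝ → ℝ) (w n w' n' X : ℝ) : ℝ :=
  (gam g w n X - gam g w' n' X) / (n' - n)

lemma ramp_of_le {g : ℝ → ℝ} {w n w' n' X : ℝ} (hww : w ≤ w') (h : X ≤ w) :
    ramp g w n w' n' X = 0 := by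
  rw [ramp, gam_of_le h, gam_of_le (h.trans hww)]; simp

lemma ramp_incr_right {g : ℝ → ℝ} {w n w' n' X X' : ℝ} (hww : w ≤ w') (hnn : n < n')
    (h : w' ≤ X) (h2 : X ≤ X') : ramp g w n w' n' X' - ramp g w n w' n' X = X' - X := by
  rw [ramp, ramp, gam_of_ge (hww.trans h), gam_of_ge h, gam_of_ge (hww.trans (h.trans h2)),
    gam_of_ge (h.trans h2), ← sub_div, div_eq_iff (by linarith)]
  ring

/-- gluing of increment bounds -/
lemma incr_glue {f : ℝ → ℝ} {c lo hi : ℝ} (h1 : ∀ X X', X ≤ X' → X' ≤ c →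
    lo * (X' - X) ≤ f X' - f X ∧ f X' - f X ≤ hi * (X' - X))
    (h2 : ∀ X X', c ≤ X → X ≤ X' →
    lo * (X' - X) ≤ f X' - f X ∧ f X' - f X ≤ hi * (X' - X)) :
    ∀ X X', X ≤ X' → lo * (X' - X) ≤ f X' - f X ∧ f X' - f X ≤ hi * (X' - X) := by
  intro X X' h
  rcases le_total X' c with h3 | h3
  · exact h1 X X' h h3
  rcases le_total c X with h4 | h4
  · exact h2 X X' h4 h
  have e1 := h1 X c h4 le_rfl
  have e2 := h2 c X' le_rfl h3
  constructor <;> nlinarith [e1.1, e1.2, e2.1, e2.2]

lemma ramp_incr {g : ℝ → ℝ} {I : Set ℝ} (hI : IsOpen I) (hg : ConvexOn ℝ I g) {w n w' n' : ℝ}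
    (hww : w ≤ w') (hnn : n < n') (h : Sub g I w n) (h' : Sub g I w' n') :
    ∀ X X', X ≤ X' → 0 * (X' - X) ≤ ramp g w n w' n' X' - ramp g w n w' n' X ∧
      ramp g w n w' n' X' - ramp g w n w' n' X ≤ 1 * (X' - X) := by
  have hoc : OrdConnected I := hg.1.ordConnected
  refine incr_glue (c := w) ?_ ?_
  · intro X X' h1 h2
    rw [ramp_of_le hww h2, ramp_of_le hww (h1.trans h2)]
    constructor <;> linarith
  · -- to the right of `w`
    have hmid : ∀ X X', w ≤ X → X ≤ X' → X' ≤ w' →
        0 * (X' - X) ≤ ramp g w n w' n' X' - ramp g w n w' n' X ∧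
        ramp g w n w' n' X' - ramp g w n w' n' X ≤ 1 * (X' - X) := by
      intro X X' h1 h2 h3
      have hX : X ∈ I := hoc.out h.1 h'.1 ⟨h1, h2.trans h3⟩
      have hX' : X' ∈ I := hoc.out h.1 h'.1 ⟨h1.trans h2, h3⟩
      have e1 := incr_ge hI hg h hX hX' h1 h2
      have e2 := incr_le hI hg h' hX hX' h3 h2
      have e3 : ramp g w n w' n' X' - ramp g w n w' n' X =
          (g X' - g X - n * (X' - X)) / (n' - n) := by
        rw [ramp, ramp, gam_of_ge h1, gam_of_le (h2.trans h3), gam_of_ge (h1.trans h2),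
          gam_of_le h3, ← sub_div]
        congr 1; ring
      rw [e3]
      have hpos : 0 < n' - n := by linarith
      constructor
      · rw [zero_mul]; exact div_nonneg (by linarith) hpos.le
      · rw [div_le_iff₀ hpos]; nlinarith
    intro X X' h1 h2
    rcases le_total X' w' with h3 | h3
    · exact hmid X X' h1 h2 h3
    rcases le_total w' X with h4 | h4
    · rw [ramp_incr_right hww hnn h4 h2]; constructor <;> linarith
    · have e1 := hmid X w' h1 h4 le_rfl
      have e2 := ramp_incr_right (g := g) hww hnn le_rfl h3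
      constructor <;> linarith [e1.1, e1.2]

/-! ### Bumps: rise from `0` to a plateau -/

/-- rises from `0` (left of `w₁`) to a plateau (right of `w₄`) -/
noncomputable def rise (g : ℝ → ℝ) (w n : Fin 4 → ℝ) (X : ℝ) : ℝ :=
  ramp g (w 0) (n 0) (w 1) (n 1) X - ramp g (w 2) (n 2) (w 3) (n 3) X

/-- admissible nodes -/
structure Nodes (g : ℝ → ℝ) (I : Set ℝ) (w n : Fin 4 → ℝ) : Prop where
  h01 : w 0 ≤ w 1
  h12 : w 1 ≤ w 2
  h23 : w 2 ≤ w 3
  n01 : n 0 < n 1
  n23 : n 2 < n 3
  sub : ∀ i, Sub g I (w i) (n i)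

/-- plateau height -/
noncomputable def height (g : ℝ → ℝ) (w n : Fin 4 → ℝ) : ℝ := rise g w n (w 3)

section
variable {g : ℝ → ℝ} {I : Set ℝ} {w n : Fin 4 → ℝ}

lemma rise_of_le (h : Nodes g I w n) {X : ℝ} (hX : X ≤ w 0) : rise g w n X = 0 := by
  rw [rise, ramp_of_le h.h01 hX, ramp_of_le h.h23 (hX.trans (h.h01.trans h.h12)), sub_zero]

lemma rise_of_ge (h : Nodes g I w n) {X : ℝ} (hX : w 3 ≤ X) : rise g w n X = height g w n := by
  have h1 := ramp_incr_right (g := g) h.h01 h.n01 (h.h12.trans h.h23) hX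
  have h2 := ramp_incr_right (g := g) h.h23 h.n23 le_rfl hX
  rw [height, rise, rise]
  linarith

lemma rise_incr (hI : IsOpen I) (hg : ConvexOn ℝ I g) (h : Nodes g I w n) :
    ∀ X X', X ≤ X' → 0 * (X' - X) ≤ rise g w n X' - rise g w n X ∧
      rise g w n X' - rise g w n X ≤ 1 * (X' - X) := by
  refine incr_glue (c := w 2) ?_ ?_
  · intro X X' h1 h2
    have e1 := ramp_incr hI hg h.h01 h.n01 (h.sub 0) (h.sub 1) X X' h1
    rw [rise, rise, ramp_of_le h.h23 h2, ramp_of_le h.h23 (h1.trans h2)]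
    simpa using e1
  · intro X X' h1 h2
    have e1 := ramp_incr hI hg h.h23 h.n23 (h.sub 2) (h.sub 3) X X' h2
    have e2 := ramp_incr_right (g := g) h.h01 h.n01 (h.h12.trans h1) h2
    rw [rise, rise]
    constructor <;> linarith [e1.1, e1.2]

lemma rise_mono (hI : IsOpen I) (hg : ConvexOn ℝ I g) (h : Nodes g I w n) :
    Monotone (rise g w n) := by
  intro X X' h1
  have := (rise_incr hI hg h X X' h1).1
  linarith

lemma rise_nonneg (hI : IsOpen I) (hg : ConvexOn ℝ I g) (h : Nodes g I w n) (X : ℝ) :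
    0 ≤ rise g w n X := by
  rcases le_total X (w 0) with h1 | h1
  · rw [rise_of_le h h1]
  · rw [← rise_of_le h le_rfl]; exact rise_mono hI hg h h1

lemma rise_le (hI : IsOpen I) (hg : ConvexOn ℝ I g) (h : Nodes g I w n) (X : ℝ) :
    rise g w n X ≤ height g w n := by
  rcases le_total (w 3) X with h1 | h1
  · rw [rise_of_ge h h1]
  · exact rise_mono hI hg h h1

lemma height_ge (hI : IsOpen I) (hg : ConvexOn ℝ I g) (h : Nodes g I w n) :
    w 2 - w 1 ≤ height g w n := by
  have h1 : rise g w n (w 2) - rise g w n (w 1) = w 2 - w 1 := by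
    have e1 := ramp_incr_right (g := g) h.h01 h.n01 le_rfl h.h12
    rw [rise, rise, ramp_of_le h.h23 le_rfl, ramp_of_le h.h23 h.h12]
    linarith
  have h2 := rise_nonneg hI hg h (w 1)
  have h3 := rise_mono hI hg h h.h23
  rw [height]; linarith

lemma height_le (hI : IsOpen I) (hg : ConvexOn ℝ I g) (h : Nodes g I w n) :
    height g w n ≤ w 3 - w 0 := by
  have h0 : w 0 ≤ w 3 := h.h01.trans (h.h12.trans h.h23)
  have h1 := (rise_incr hI hg h (w 0) (w 3) h0).2
  rw [rise_of_le h le_rfl] at h1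
  rw [height]; linarith

end

/-! ### The perturbation -/

/-- the perturbation `φ` -/
noncomputable def pert (g : ℝ → ℝ) (w n w' n' : Fin 4 → ℝ) (X : ℝ) : ℝ :=
  rise g w n X - height g w n / height g w' n' * rise g w' n' X

section
variable {g : ℝ → ℝ} {I : Set ℝ} {w n w' n' : Fin 4 → ℝ}

lemma pert_of_le (h : Nodes g I w n) (h' : Nodes g I w' n') (hww : w 3 ≤ w' 0) {X : ℝ}
    (hX : X ≤ w 0) : pert g w n w' n' X = 0 := by
  have h0 : w 0 ≤ w 3 := h.h01.trans (h.h12.trans h.h23)
  rw [pert, rise_of_le h hX, rise_of_le h' (hX.trans (h0.trans hww))]; ring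

lemma pert_of_ge (h : Nodes g I w n) (h' : Nodes g I w' n') (hww : w 3 ≤ w' 0)
    (hZ : 0 < height g w' n') {X : ℝ} (hX : w' 3 ≤ X) : pert g w n w' n' X = 0 := by
  have h0 : w' 0 ≤ w' 3 := h'.h01.trans (h'.h12.trans h'.h23)
  rw [pert, rise_of_ge h (hww.trans (h0.trans hX)), rise_of_ge h' hX]
  field_simp; ring

lemma pert_plateau (h : Nodes g I w n) (h' : Nodes g I w' n') {X : ℝ}
    (hX : w 3 ≤ X) (hX' : X ≤ w' 0) : pert g w n w' n' X = height g w n := by
  rw [pert, rise_of_ge h hX, rise_of_le h' hX']; ring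

lemma pert_nonneg (hI : IsOpen I) (hg : ConvexOn ℝ I g) (h : Nodes g I w n)
    (h' : Nodes g I w' n') (hww : w 3 ≤ w' 0) (hZ : 0 < height g w' n')
    (hΔ : 0 ≤ height g w n) (X : ℝ) : 0 ≤ pert g w n w' n' X := by
  rcases le_total X (w' 0) with h1 | h1
  · rw [pert, rise_of_le h' h1, mul_zero, sub_zero]; exact rise_nonneg hI hg h X
  · rw [pert, rise_of_ge h (hww.trans h1), sub_nonneg, div_mul_eq_mul_div, div_le_iff₀ hZ]
    exact mul_le_mul_of_nonneg_left (rise_le hI hg h' X) hΔ

lemma pert_le (hI : IsOpen I) (hg : ConvexOn ℝ I g) (h : Nodes g I w n)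
    (h' : Nodes g I w' n') (hZ : 0 < height g w' n')
    (hΔ : 0 ≤ height g w n) (X : ℝ) : pert g w n w' n' X ≤ height g w n := by
  have h1 := rise_le hI hg h X
  have h2 := rise_nonneg hI hg h' X
  have h3 : 0 ≤ height g w n / height g w' n' * rise g w' n' X := by positivity
  rw [pert]; linarith

lemma pert_lip (hI : IsOpen I) (hg : ConvexOn ℝ I g) (h : Nodes g I w n)
    (h' : Nodes g I w' n') (hZ : 0 < height g w' n')
    (hΔ : 0 ≤ height g w n) (hΔZ : height g w n ≤ height g w' n') (X X' : ℝ) :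
    |pert g w n w' n' X - pert g w n w' n' X'| ≤ |X - X'| := by
  wlog hXX : X ≤ X' generalizing X X'
  · have := this X' X (le_of_not_ge hXX)
    rwa [abs_sub_comm, abs_sub_comm X' X] at this
  have h1 := rise_incr hI hg h X X' hXX
  have h2 := rise_incr hI hg h' X X' hXX
  have h3 : height g w n / height g w' n' ≤ 1 := by rw [div_le_one hZ]; exact hΔZ
  have h4 : 0 ≤ height g w n / height g w' n' := by positivity
  rw [abs_sub_comm, abs_sub_comm X X', abs_of_nonneg (show 0 ≤ X' - X by linarith), abs_le]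
  have h5 : height g w n / height g w' n' * (rise g w' n' X' - rise g w' n' X) ≤
      1 * (X' - X) := by
    apply mul_le_mul h3 (by linarith [h2.2]) (by linarith [h2.1]) (by norm_num)
  have h6 : 0 ≤ height g w n / height g w' n' * (rise g w' n' X' - rise g w' n' X) :=
    mul_nonneg h4 (by linarith [h2.1])
  rw [pert, pert]
  constructor <;> nlinarith [h1.1, h1.2]

lemma pert_lip_right (hI : IsOpen I) (hg : ConvexOn ℝ I g) (h : Nodes g I w n)
    (h' : Nodes g I w' n') (hZ : 0 < height g w' n')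
    (hΔ : 0 ≤ height g w n) {X X' : ℝ} (hX : w 3 ≤ X) (hX' : w 3 ≤ X') :
    |pert g w n w' n' X - pert g w n w' n' X'| ≤
      height g w n / height g w' n' * |X - X'| := by
  wlog hXX : X ≤ X' generalizing X X'
  · have := this hX' hX (le_of_not_ge hXX)
    rwa [abs_sub_comm, abs_sub_comm X' X] at this
  have h2 := rise_incr hI hg h' X X' hXX
  have h4 : 0 ≤ height g w n / height g w' n' := by positivity
  rw [abs_sub_comm, abs_sub_comm X X', abs_of_nonneg (show 0 ≤ X' - X by linarith), abs_le]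
  rw [pert, pert, rise_of_ge h hX, rise_of_ge h hX']
  have h5 : height g w n / height g w' n' * (rise g w' n' X' - rise g w' n' X) ≤
      height g w n / height g w' n' * (X' - X) :=
    mul_le_mul_of_nonneg_left (by linarith [h2.2]) h4
  have h6 : 0 ≤ height g w n / height g w' n' * (rise g w' n' X' - rise g w' n' X) :=
    mul_nonneg h4 (by linarith [h2.1])
  have h7 : 0 ≤ height g w n / height g w' n' * (X' - X) := mul_nonneg h4 (by linarith)
  constructor <;> nlinarith

/-- small multiples of the perturbation preserve convexity -/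
lemma exists_convex_pert (hI : IsOpen I) (hg : ConvexOn ℝ I g) (h : Nodes g I w n)
    (h' : Nodes g I w' n') : ∃ t₀ > 0, ∀ t, |t| ≤ t₀ →
      ConvexOn ℝ I (fun X => g X + t * pert g w n w' n' X) := by
  set q := height g w n / height g w' n' with hq
  -- coefficients
  set c : Fin 4 ⊕ Fin 4 → ℝ := Sum.elim
    ![1 / (n 1 - n 0), -(1 / (n 1 - n 0)), -(1 / (n 3 - n 2)), 1 / (n 3 - n 2)]
    ![-(q / (n' 1 - n' 0)), q / (n' 1 - n' 0), q / (n' 3 - n' 2), -(q / (n' 3 - n' 2))] with hc
  set W : Fin 4 ⊕ Fin 4 → ℝ := Sum.elim w w' with hW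
  set N : Fin 4 ⊕ Fin 4 → ℝ := Sum.elim n n' with hN
  set S := ∑ i : Fin 4 ⊕ Fin 4, |c i| with hS
  have hS0 : 0 ≤ S := Finset.sum_nonneg fun _ _ => abs_nonneg _
  have hpert : ∀ X, pert g w n w' n' X = ∑ i : Fin 4 ⊕ Fin 4, c i * gam g (W i) (N i) X := by
    intro X
    rw [Fintype.sum_sum_type]
    simp only [hc, hW, hN, Sum.elim_inl, Sum.elim_inr, Fin.sum_univ_four]
    simp only [Matrix.cons_val_zero, Matrix.cons_val_one, Matrix.cons_val]
    rw [pert, rise, rise, ramp, ramp, ramp, ramp, ← hq]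
    have e1 := h.n01; have e2 := h.n23; have e3 := h'.n01; have e4 := h'.n23
    ring
  refine ⟨1 / (S + 1), by positivity, fun t ht => ?_⟩
  have hsub : ∀ i ∈ (Finset.univ : Finset (Fin 4 ⊕ Fin 4)), Sub g I (W i) (N i) := by
    rintro (i | i) _
    · exact h.sub i
    · exact h'.sub i
  have hsum : ∑ i : Fin 4 ⊕ Fin 4, |t * c i| ≤ 1 := by
    simp only [abs_mul]
    rw [← Finset.mul_sum, ← hS]
    calc |t| * S ≤ 1 / (S + 1) * S := mul_le_mul_of_nonneg_right ht hS0
      _ ≤ 1 := by rw [div_mul_eq_mul_div, div_le_one (by positivity)]; linarith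
  have := convex_perturb hI hg Finset.univ W N (fun i => t * c i) hsub hsum
  refine this.congr fun X _ => ?_
  simp only
  rw [hpert X, Finset.mul_sum]
  congr 1
  exact Finset.sum_congr rfl fun i _ => by ring

end

end Pool.MP70c477
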