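import Pool.Agent.MP70c477.Arc

/-!
# Contact points of discs with a convex graph
-/

namespace Pool.MP70c477

open Set Filter Topology

/-- the standing assumptions on the convex function `g` -/
structure CSet (g : ℝ → ℝ) (I : Set ℝ) (r b L : ℝ) : Prop where
  hr : 0 < r
  hb : 0 < b
  hL : 0 ≤ L
  conv : ConvexOn ℝ I g
  isOpen : IsOpen I
  sub : Icc (-(r + b)) (r + b) ⊆ I
  lip : ∀ X ∈ Icc (-(r + b)) (r + b), ∀ Y ∈ Icc (-(r + b)) (r + b), |g X - g Y| ≤ L * |X - Y|

/-- `X` is a contact point of the disc centred above `x`. -/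
def IsC (g : ℝ → ℝ) (r x X : ℝ) : Prop :=
  X ∈ Icc (x - r) (x + r) ∧
    ∀ X' ∈ Icc (x - r) (x + r), g X' + arc r (X' - x) ≤ g X + arc r (X - x)

namespace CSet

variable {g : ℝ → ℝ} {I : Set ℝ} {r b L : ℝ}

lemma mem_J (_h : CSet g I r b L) {x X : ℝ} (hx : |x| ≤ b) (hX : X ∈ Icc (x - r) (x + r)) :
    X ∈ Icc (-(r + b)) (r + b) := by
  rw [abs_le] at hx
  exact ⟨by linarith [hX.1], by linarith [hX.2]⟩

lemma contOn (h : CSet g I r b L) : ContinuousOn g (Icc (-(r + b)) (r + b)) := by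
  have : LipschitzOnWith (Real.toNNReal L) g (Icc (-(r + b)) (r + b)) := by
    refine LipschitzOnWith.of_dist_le_mul fun x hx y hy => ?_
    rw [Real.dist_eq, Real.dist_eq, Real.coe_toNNReal L h.hL]
    exact h.lip x hx y hy
  exact this.continuousOn

lemma exists_isC (h : CSet g I r b L) {x : ℝ} (hx : |x| ≤ b) : ∃ X, IsC g r x X := by
  have hc : ContinuousOn (fun X => g X + arc r (X - x)) (Icc (x - r) (x + r)) := by
    refine (h.contOn.mono fun X hX => h.mem_J hx hX).add ?_
    exact ((continuous_arc r).comp (continuous_id.sub continuous_const)).continuousOn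
  obtain ⟨X, hX, hmax⟩ := isCompact_Icc.exists_isMaxOn
    (nonempty_Icc.2 (by linarith [h.hr])) hc
  exact ⟨X, hX, fun X' hX' => hmax hX'⟩

lemma abs_lt_of_isC (h : CSet g I r b L) {x X : ℝ} (hx : |x| ≤ b) (hX : IsC g r x X) :
    |X - x| < r := by
  have hr := h.hr
  have hL := h.hL
  have hle : |X - x| ≤ r := by
    rw [abs_le]; exact ⟨by linarith [hX.1.1], by linarith [hX.1.2]⟩
  rcases hle.lt_or_eq with h1 | h1
  · exact h1
  exfalso
  -- choose a small step inward
  set d := r / (1 + L ^ 2) with hd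
  have hd0 : 0 < d := by positivity
  have hdr : d ≤ r := by
    rw [hd]; apply div_le_self hr.le; nlinarith [sq_nonneg L]
  have key : L * d < Real.sqrt (r ^ 2 - (r - d) ^ 2) := by
    apply Real.lt_sqrt_of_sq_lt
    have e1 : r ^ 2 - (r - d) ^ 2 = d * (2 * r - d) := by ring
    have e2 : d * (1 + L ^ 2) = r := by rw [hd]; field_simp
    rw [e1, mul_pow]
    have e3 : L ^ 2 * d < 2 * r - d := by nlinarith
    nlinarith
  have harcX : arc r (X - x) = 0 := by
    unfold arc
    rw [← sq_abs (X - x), h1]; simp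
  rcases abs_cases (X - x) with ⟨h2, _⟩ | ⟨h2, _⟩
  · have hX' : X - d ∈ Icc (x - r) (x + r) := ⟨by linarith, by linarith⟩
    have h3 := hX.2 _ hX'
    have h4 := h.lip X (h.mem_J hx hX.1) (X - d) (h.mem_J hx hX')
    have h5 : |X - (X - d)| = d := by rw [sub_sub_cancel, abs_of_pos hd0]
    rw [h5] at h4
    have h6 := (abs_le.1 h4).2
    have h7 : arc r (X - d - x) = Real.sqrt (r ^ 2 - (r - d) ^ 2) := by
      unfold arc; congr 3; linarith
    rw [harcX, h7] at h3
    linarith
  · have hX' : X + d ∈ Icc (x - r) (x + r) := ⟨by linarith, by linarith⟩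
    have h3 := hX.2 _ hX'
    have h4 := h.lip X (h.mem_J hx hX.1) (X + d) (h.mem_J hx hX')
    have h5 : |X - (X + d)| = d := by
      rw [sub_add_cancel_left, abs_neg, abs_of_pos hd0]
    rw [h5] at h4
    have h6 := (abs_le.1 h4).2
    have h7 : arc r (X + d - x) = Real.sqrt (r ^ 2 - (r - d) ^ 2) := by
      unfold arc
      have : (X + d - x) ^ 2 = (r - d) ^ 2 := by
        have : X + d - x = -(r - d) := by linarith
        rw [this]; ring
      rw [this]
    rw [harcX, h7] at h3
    linarith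

/-- the contact slope is a subgradient -/
lemma subgrad (h : CSet g I r b L) {x X : ℝ} (hx : |x| ≤ b) (hX : IsC g r x X) {X' : ℝ}
    (hX' : X' ∈ I) : g X + slo r (X - x) * (X' - X) ≤ g X' := by
  have hr := h.hr
  have hlt := h.abs_lt_of_isC hx hX
  have hXI : X ∈ I := h.sub (h.mem_J hx hX.1)
  rcases eq_or_ne X' X with rfl | hne
  · simp
  set m := slo r (X - x) with hm
  set D := arc r (X - x) / 2 with hD
  have harc := arc_pos hlt
  have hD0 : 0 < D := by positivity
  set c := 1 / D + r ^ 2 / D ^ 3 with hc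
  have hc0 : 0 < c := by positivity
  -- local upper bound for `g` near `X`
  have hcontarc : ContinuousAt (fun w => arc r (w - x)) X :=
    ((continuous_arc r).comp (continuous_id.sub continuous_const)).continuousAt
  have hev1 : ∀ᶠ w in 𝓝 X, D ≤ arc r (w - x) := by
    have : D < arc r (X - x) := by rw [hD]; linarith
    filter_upwards [hcontarc.eventually (lt_mem_nhds this)] with w hw using hw.le
  have hev2 : ∀ᶠ w in 𝓝 X, |w - x| < r := by
    have : ContinuousAt (fun w : ℝ => |w - x|) X := by fun_prop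
    exact this.eventually (gt_mem_nhds hlt)
  have hev : ∀ᶠ w in 𝓝 X, g w ≤ g X + m * (w - X) + c * (w - X) ^ 2 := by
    filter_upwards [hev1, hev2] with w hw1 hw2
    have hwI : w ∈ Icc (x - r) (x + r) := by
      rw [abs_lt] at hw2; exact ⟨by linarith [hw2.1], by linarith [hw2.2]⟩
    have e1 := hX.2 w hwI
    have e2 := arc_ge hD0 hlt hw2 (by rw [hD]; linarith) hw1
    rw [← hm, ← hc] at e2
    have e3 : w - x - (X - x) = w - X := by ring
    rw [e3] at e2
    linarith
  -- for small `t > 0` compare with the point `X - t (X' - X)`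
  have hlim : Tendsto (fun t : ℝ => m * (X' - X) - c * t * (X' - X) ^ 2) (𝓝[>] 0)
      (𝓝 (m * (X' - X))) := by
    have : Continuous fun t : ℝ => m * (X' - X) - c * t * (X' - X) ^ 2 := by fun_prop
    have h2 := this.tendsto 0
    simp only [mul_zero, zero_mul, sub_zero] at h2
    exact h2.mono_left nhdsWithin_le_nhds
  have hgoal : m * (X' - X) ≤ g X' - g X := by
    refine le_of_tendsto hlim ?_
    have hmap : Tendsto (fun t : ℝ => X - t * (X' - X)) (𝓝[>] 0) (𝓝 X) := by
      have : Continuous fun t : ℝ => X - t * (X' - X) := by fun_prop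
      have h2 := this.tendsto 0
      simp only [zero_mul, sub_zero] at h2
      exact h2.mono_left nhdsWithin_le_nhds
    filter_upwards [hmap.eventually hev, hmap.eventually (h.isOpen.mem_nhds hXI),
      self_mem_nhdsWithin] with t ht1 ht2 ht3
    have ht0 : 0 < t := ht3
    have hcv := h.conv.2 ht2 hX' (show 0 ≤ 1 / (1 + t) by positivity)
      (show 0 ≤ t / (1 + t) by positivity) (by field_simp)
    simp only [smul_eq_mul] at hcv
    have hpt : 1 / (1 + t) * (X - t * (X' - X)) + t / (1 + t) * X' = X := by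
      field_simp; ring
    rw [hpt] at hcv
    have e4 : X - t * (X' - X) - X = -(t * (X' - X)) := by ring
    rw [e4] at ht1
    have e5 : g X * (1 + t) ≤ g (X - t * (X' - X)) + t * g X' := by
      have : g X * (1 + t) ≤ (1 / (1 + t) * g (X - t * (X' - X)) + t / (1 + t) * g X') *
          (1 + t) := mul_le_mul_of_nonneg_right hcv (by positivity)
      calc g X * (1 + t) ≤ _ := this
        _ = _ := by field_simp
    have e6 : t * (m * (X' - X) - c * t * (X' - X) ^ 2) ≤ t * (g X' - g X) := by nlinarith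
    exact le_of_mul_le_mul_left e6 ht0
  linarith

lemma slo_le (h : CSet g I r b L) {x X : ℝ} (hx : |x| ≤ b) (hX : IsC g r x X) :
    |slo r (X - x)| ≤ L := by
  have hlt := h.abs_lt_of_isC hx hX
  have hXJ := h.mem_J hx hX.1
  rw [abs_lt] at hlt
  have hb := abs_le.1 hx
  set d := min (X - x + r) (r - (X - x)) with hd
  have hd0 : 0 < d := lt_min (by linarith [hlt.1]) (by linarith [hlt.2])
  have h1 : X + d ∈ Icc (x - r) (x + r) := by
    have := min_le_right (X - x + r) (r - (X - x))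
    exact ⟨by linarith [hX.1.1], by linarith⟩
  have h2 : X - d ∈ Icc (x - r) (x + r) := by
    have := min_le_left (X - x + r) (r - (X - x))
    exact ⟨by linarith, by linarith [hX.1.2]⟩
  have s1 := h.subgrad hx hX (h.sub (h.mem_J hx h1))
  have s2 := h.subgrad hx hX (h.sub (h.mem_J hx h2))
  have l1 := h.lip _ (h.mem_J hx h1) X hXJ
  have l2 := h.lip _ (h.mem_J hx h2) X hXJ
  have e1 : X + d - X = d := by ring
  have e2 : X - d - X = -d := by ring
  rw [e1] at s1 l1
  rw [e2] at s2 l2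
  rw [abs_of_pos hd0] at l1
  rw [abs_neg, abs_of_pos hd0] at l2
  have l1' := (abs_le.1 l1).2
  have l2' := (abs_le.1 l2).2
  rw [abs_le]
  constructor
  · have : -L * d ≤ slo r (X - x) * d := by linarith
    exact le_of_mul_le_mul_right this hd0
  · have : slo r (X - x) * d ≤ L * d := by linarith
    exact le_of_mul_le_mul_right this hd0

lemma arc_lower (h : CSet g I r b L) {x X : ℝ} (hx : |x| ≤ b) (hX : IsC g r x X) :
    r / Real.sqrt (1 + L ^ 2) ≤ arc r (X - x) :=
  arc_ge_of_slo (h.abs_lt_of_isC hx hX) (h.slo_le hx hX)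

/-- the disc function lies above its tangent: for centres `x, x'` and contact `X` at `x` -/
lemma center_ge (h : CSet g I r b L) {x x' X X' : ℝ} (hx : |x| ≤ b) (hx' : |x'| ≤ b)
    (hX : IsC g r x X) (hX' : IsC g r x' X') :
    g X + arc r (X - x) + slo r (X - x) * (x' - x) ≤ g X' + arc r (X' - x') := by
  have hlt := abs_lt.1 (h.abs_lt_of_isC hx hX)
  have hY : x' + (X - x) ∈ Icc (x' - r) (x' + r) := ⟨by linarith [hlt.1], by linarith [hlt.2]⟩
  have h1 := hX'.2 _ hY
  have h2 := h.subgrad hx hX (h.sub (h.mem_J hx' hY))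
  have e1 : x' + (X - x) - x' = X - x := by ring
  have e2 : x' + (X - x) - X = x' - x := by ring
  rw [e1] at h1
  rw [e2] at h2
  linarith

lemma slo_mono' (h : CSet g I r b L) {x x' X X' : ℝ} (hx : |x| ≤ b) (hx' : |x'| ≤ b)
    (hX : IsC g r x X) (hX' : IsC g r x' X') (hxx : x < x') :
    slo r (X - x) ≤ slo r (X' - x') := by
  have h1 := h.center_ge hx hx' hX hX'
  have h2 := h.center_ge hx' hx hX' hX
  have h3 : slo r (X - x) * (x' - x) ≤ slo r (X' - x') * (x' - x) := by nlinarith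
  exact le_of_mul_le_mul_right h3 (by linarith)

lemma contact_mono (h : CSet g I r b L) {x x' X X' : ℝ} (hx : |x| ≤ b) (hx' : |x'| ≤ b)
    (hX : IsC g r x X) (hX' : IsC g r x' X') (hxx : x < x') : x' - x ≤ X' - X := by
  have h1 := h.slo_mono' hx hx' hX hX' hxx
  have h2 := le_of_slo_le (h.abs_lt_of_isC hx hX) (h.abs_lt_of_isC hx' hX') h1
  linarith

/-- `Kc` is the Lipschitz constant of slopes along contact points -/
noncomputable def Kc (r L : ℝ) : ℝ :=
  1 / (r / Real.sqrt (1 + L ^ 2)) + r ^ 2 / (r / Real.sqrt (1 + L ^ 2)) ^ 3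

lemma D_pos (h : CSet g I r b L) : 0 < r / Real.sqrt (1 + L ^ 2) := by
  have := h.hr; positivity

lemma Kc_pos (h : CSet g I r b L) : 0 < Kc r L := by
  have := h.D_pos
  have := h.hr
  unfold Kc; positivity

lemma slo_sub_le' (h : CSet g I r b L) {x x' X X' : ℝ} (hx : |x| ≤ b) (hx' : |x'| ≤ b)
    (hX : IsC g r x X) (hX' : IsC g r x' X') (hxx : x ≤ x')
    (hz : X - x ≤ X' - x') :
    slo r (X' - x') - slo r (X - x) ≤ Kc r L * (X' - X) := by
  have h1 := slo_sub_le h.D_pos (h.abs_lt_of_isC hx hX) (h.abs_lt_of_isC hx' hX')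
    (h.arc_lower hx hX) (h.arc_lower hx' hX') hz
  have h2 := h.Kc_pos
  change _ ≤ Kc r L * _ at h1
  refine h1.trans (mul_le_mul_of_nonneg_left ?_ h2.le)
  linarith

/-- limits of contact points are contact points -/
lemma isC_of_tendsto (h : CSet g I r b L) {xs Xs : ℕ → ℝ} {x X : ℝ}
    (hxs : ∀ n, |xs n| ≤ b) (hC : ∀ n, IsC g r (xs n) (Xs n))
    (h1 : Tendsto xs atTop (𝓝 x)) (h2 : Tendsto Xs atTop (𝓝 X)) : IsC g r x X := by
  have hx : |x| ≤ b := le_of_tendsto ((continuous_abs.tendsto x).comp h1)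
    (Eventually.of_forall hxs)
  have hXm : X ∈ Icc (x - r) (x + r) := by
    constructor
    · exact le_of_tendsto_of_tendsto' (h1.sub_const r) h2 fun n => (hC n).1.1
    · exact le_of_tendsto_of_tendsto' h2 (h1.add_const r) fun n => (hC n).1.2
  refine ⟨hXm, fun X' hX' => ?_⟩
  have hYn : ∀ n, xs n + (X' - x) ∈ Icc (xs n - r) (xs n + r) := fun n =>
    ⟨by linarith [hX'.1], by linarith [hX'.2]⟩
  have hYt : Tendsto (fun n => xs n + (X' - x)) atTop (𝓝 X') := by
    have := h1.add_const (X' - x)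
    simpa using this
  have hgY : Tendsto (fun n => g (xs n + (X' - x))) atTop (𝓝 (g X')) := by
    have hc := h.contOn X' (h.mem_J hx hX')
    refine hc.tendsto.comp (tendsto_nhdsWithin_of_tendsto_nhds_of_eventually_within _ hYt ?_)
    exact Eventually.of_forall fun n => h.mem_J (hxs n) (hYn n)
  have hgX : Tendsto (fun n => g (Xs n)) atTop (𝓝 (g X)) := by
    have hc := h.contOn X (h.mem_J hx hXm)
    refine hc.tendsto.comp (tendsto_nhdsWithin_of_tendsto_nhds_of_eventually_within _ h2 ?_)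
    exact Eventually.of_forall fun n => h.mem_J (hxs n) (hC n).1
  have harc : Tendsto (fun n => arc r (Xs n - xs n)) atTop (𝓝 (arc r (X - x))) :=
    ((continuous_arc r).tendsto _).comp (h2.sub h1)
  refine le_of_tendsto_of_tendsto' (hgY.add_const (arc r (X' - x))) (hgX.add harc) fun n => ?_
  have := (hC n).2 _ (hYn n)
  rwa [add_sub_cancel_left] at this

end CSet

/-- the largest contact point -/
noncomputable def cm (g : ℝ → ℝ) (r x : ℝ) : ℝ := sSup {X | IsC g r x X}

/-- its slope -/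
noncomputable def sm (g : ℝ → ℝ) (r x : ℝ) : ℝ := slo r (cm g r x - x)

namespace CSet

variable {g : ℝ → ℝ} {I : Set ℝ} {r b L : ℝ}

lemma le_cm {x X : ℝ} (hX : IsC g r x X) : X ≤ cm g r x :=
  le_csSup ⟨x + r, fun _ hY => hY.1.2⟩ hX

lemma isC_cm (h : CSet g I r b L) {x : ℝ} (hx : |x| ≤ b) : IsC g r x (cm g r x) := by
  have hne : {X | IsC g r x X}.Nonempty := h.exists_isC hx
  have hbdd : BddAbove {X | IsC g r x X} := ⟨x + r, fun _ hY => hY.1.2⟩
  obtain ⟨u, hu1, hu2, hu3⟩ := exists_seq_tendsto_sSup hne hbdd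
  exact h.isC_of_tendsto (xs := fun _ => x) (fun _ => hx) hu3 tendsto_const_nhds hu2

lemma cm_strictMono (h : CSet g I r b L) {x x' : ℝ} (hx : |x| ≤ b) (hx' : |x'| ≤ b)
    (hxx : x < x') : x' - x ≤ cm g r x' - cm g r x :=
  h.contact_mono hx hx' (h.isC_cm hx) (h.isC_cm hx') hxx

lemma cm_mono (h : CSet g I r b L) {x x' : ℝ} (hx : |x| ≤ b) (hx' : |x'| ≤ b)
    (hxx : x ≤ x') : cm g r x ≤ cm g r x' := by
  rcases hxx.eq_or_lt with rfl | h1
  · exact le_rfl
  · linarith [h.cm_strictMono hx hx' h1]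

lemma sm_mono (h : CSet g I r b L) {x x' : ℝ} (hx : |x| ≤ b) (hx' : |x'| ≤ b)
    (hxx : x ≤ x') : sm g r x ≤ sm g r x' := by
  rcases hxx.eq_or_lt with rfl | h1
  · exact le_rfl
  · exact h.slo_mono' hx hx' (h.isC_cm hx) (h.isC_cm hx') h1

lemma sm_sub_le (h : CSet g I r b L) {x x' : ℝ} (hx : |x| ≤ b) (hx' : |x'| ≤ b)
    (hxx : x ≤ x') : sm g r x' - sm g r x ≤ Kc r L * (cm g r x' - cm g r x) := by
  rcases hxx.eq_or_lt with rfl | h1
  · simp
  · refine h.slo_sub_le' hx hx' (h.isC_cm hx) (h.isC_cm hx') hxx ?_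
    exact le_of_slo_le (h.abs_lt_of_isC hx (h.isC_cm hx)) (h.abs_lt_of_isC hx' (h.isC_cm hx'))
      (h.sm_mono hx hx' hxx)

/-- right continuity of the largest contact point -/
lemma cm_rightCont (h : CSet g I r b L) {x : ℝ} (hx : |x| ≤ b) (hxb : x < b) {ε : ℝ}
    (hε : 0 < ε) : ∃ δ > 0, ∀ x', x ≤ x' → x' < x + δ → x' ≤ b → cm g r x' < cm g r x + ε := by
  by_contra hcon
  push Not at hcon
  -- every point to the right has `cm ≥ cm x + ε`
  have hall : ∀ x', x < x' → x' ≤ b → cm g r x + ε ≤ cm g r x' := by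
    intro x' h1 h2
    obtain ⟨y, hy1, hy2, hy3, hy4⟩ := hcon (x' - x) (by linarith)
    have hy5 : |y| ≤ b := by
      rw [abs_le] at hx ⊢; exact ⟨by linarith [hx.1], hy3⟩
    have hx'5 : |x'| ≤ b := by
      rw [abs_le] at hx ⊢; exact ⟨by linarith [hx.1], h2⟩
    exact hy4.trans (h.cm_mono hy5 hx'5 (by linarith))
  set xs : ℕ → ℝ := fun n => x + (b - x) / ((n : ℝ) + 1) with hxs
  have hbx : 0 < b - x := by linarith
  have hxs1 : ∀ n, x < xs n := fun n => by
    have : 0 < (b - x) / ((n : ℝ) + 1) := by positivity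
    simp only [hxs]; linarith
  have hxs2 : ∀ n, xs n ≤ b := fun n => by
    have : (b - x) / ((n : ℝ) + 1) ≤ b - x := by
      apply div_le_self hbx.le; linarith [Nat.cast_nonneg (α := ℝ) n]
    simp only [hxs]; linarith
  have hxs3 : ∀ n, |xs n| ≤ b := fun n => by
    rw [abs_le] at hx ⊢
    exact ⟨by linarith [hx.1, hxs1 n], hxs2 n⟩
  have hxs4 : Antitone xs := by
    intro m n hmn
    have : (b - x) / ((n : ℝ) + 1) ≤ (b - x) / ((m : ℝ) + 1) := by
      apply div_le_div_of_nonneg_left hbx.le (by positivity)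
      have : (m : ℝ) ≤ n := by exact_mod_cast hmn
      linarith
    simp only [hxs]; linarith
  have hxs5 : Tendsto xs atTop (𝓝 x) := by
    have h1 : Tendsto (fun n : ℕ => (b - x) * (1 / ((n : ℝ) + 1))) atTop (𝓝 ((b - x) * 0)) :=
      tendsto_one_div_add_atTop_nhds_zero_nat.const_mul _
    have h2 := h1.const_add x
    simp only [mul_zero, add_zero] at h2
    refine h2.congr fun n => ?_
    simp only [hxs]; ring
  have hant : Antitone fun n => cm g r (xs n) := fun m n hmn =>
    h.cm_mono (hxs3 n) (hxs3 m) (hxs4 hmn)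
  have hbd : BddBelow (range fun n => cm g r (xs n)) := by
    refine ⟨cm g r x + ε, ?_⟩
    rintro _ ⟨n, rfl⟩
    exact hall _ (hxs1 n) (hxs2 n)
  have hlim := tendsto_atTop_ciInf hant hbd
  have hC := h.isC_of_tendsto hxs3 (fun n => h.isC_cm (hxs3 n)) hxs5 hlim
  have h1 := le_cm hC
  have h2 : cm g r x + ε ≤ ⨅ n, cm g r (xs n) := le_ciInf fun n => hall _ (hxs1 n) (hxs2 n)
  linarith

end CSet

end Pool.MP70c477
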