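import Pool.Agent.MP70c477.Slice

/-!
# Crofton's formula for Lipschitz functions
-/

namespace Pool.MP70c477

open MeasureTheory Set Filter Topology
open scoped ENNReal NNReal RealInnerProductSpace

/-- the gradient, integrated over lines -/
theorem crofton (u : Pl → ℝ) :
    4 * ∫⁻ x, ‖fderiv ℝ u x‖ₑ =
      ∫⁻ θ in Ioc 0 (2 * Real.pi), ∫⁻ p, ∫⁻ t, ‖fderiv ℝ u (lin θ p t) (dirE θ)‖ₑ := by
  have hm : Measurable (fderiv ℝ u) := measurable_fderiv ℝ u
  have h1 : 4 * ∫⁻ x, ‖fderiv ℝ u x‖ₑ =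
      ∫⁻ x, ∫⁻ θ in Ioc 0 (2 * Real.pi), ‖fderiv ℝ u x (dirE θ)‖ₑ := by
    rw [← lintegral_const_mul _ hm.enorm]
    simp only [lintegral_abs_clm]
  have hj : Measurable (Function.uncurry fun (x : Pl) (θ : ℝ) => ‖fderiv ℝ u x (dirE θ)‖ₑ) := by
    have : Measurable fun q : Pl × ℝ => fderiv ℝ u q.1 (dirE q.2) := by
      have hc : Continuous fun q : (Pl →L[ℝ] ℝ) × Pl => q.1 q.2 :=
        isBoundedBilinearMap_apply.continuous
      exact hc.measurable.comp ((hm.comp measurable_fst).prodMk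
        (continuous_dirE.measurable.comp measurable_snd))
    exact this.enorm
  rw [h1, lintegral_lintegral_swap hj.aemeasurable]
  refine lintegral_congr fun θ => ?_
  exact lintegral_lin ((hm.apply_continuousLinearMap _).enorm) θ

lemma hasDerivAt_line {u : Pl → ℝ} {θ p t : ℝ} (h : DifferentiableAt ℝ u (lin θ p t)) :
    HasDerivAt (fun t => u (lin θ p t)) (fderiv ℝ u (lin θ p t) (dirE θ)) t := by
  have h2 : HasDerivAt (fun t : ℝ => lin θ p t) (dirE θ) t := by
    unfold lin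
    simpa using ((hasDerivAt_id t).smul_const (dirE θ)).const_add (p • dirN θ)
  exact h.hasFDerivAt.comp_hasDerivAt t h2

/-- for fixed `θ`, almost every line consists almost entirely of differentiability points -/
lemma ae_line_differentiable {u : Pl → ℝ} {C : ℝ≥0} (hu : LipschitzWith C u) (θ : ℝ) :
    ∀ᵐ p : ℝ, ∀ᵐ t : ℝ, DifferentiableAt ℝ u (lin θ p t) := by
  have h1 : ∀ᵐ x : Pl, DifferentiableAt ℝ u x := hu.ae_differentiableAt
  have h2 : ∀ᵐ q : ℝ × ℝ, DifferentiableAt ℝ u (linEquiv θ q) :=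
    (measurePreserving_linEquiv θ).quasiMeasurePreserving.ae h1
  have h3 := Measure.ae_ae_of_ae_prod (μ := (volume : Measure ℝ)) (ν := (volume : Measure ℝ)) h2
  simpa only [linEquiv_apply] using h3

lemma lipschitz_line {u : Pl → ℝ} {C : ℝ≥0} (hu : LipschitzWith C u) (θ p : ℝ) :
    LipschitzWith C (fun t => u (lin θ p t)) := by
  have h : LipschitzWith 1 (fun t : ℝ => lin θ p t) := by
    refine LipschitzWith.of_dist_le_mul fun a b => ?_
    rw [dist_eq_norm, dist_eq_norm]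
    simp only [lin, add_sub_add_left_eq_sub, ← sub_smul, norm_smul, norm_dirE]
    simp
  simpa [Function.comp_def] using hu.comp h

/-! ### One-dimensional variation -/

/-- A Lipschitz function vanishing outside a bounded set has variation at least twice any of its
values. -/
lemma var_lower {f : ℝ → ℝ} {C : ℝ≥0} (hf : LipschitzWith C f) {R : ℝ}
    (hR : ∀ t, R ≤ |t| → f t = 0) (t₀ : ℝ) :
    2 * ENNReal.ofReal (f t₀) ≤ ∫⁻ t, ‖deriv f t‖ₑ := by
  set a : ℝ := min t₀ (-|R|) with ha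
  set b : ℝ := max t₀ |R| with hb
  have hat : a ≤ t₀ := min_le_left _ _
  have htb : t₀ ≤ b := le_max_left _ _
  have fa : f a = 0 := by
    apply hR
    have : a ≤ -|R| := min_le_right _ _
    calc R ≤ |R| := le_abs_self R
      _ ≤ -a := by linarith
      _ ≤ |a| := neg_le_abs a
  have fb : f b = 0 := by
    apply hR
    have : |R| ≤ b := le_max_right _ _
    calc R ≤ |R| := le_abs_self R
      _ ≤ b := this
      _ ≤ |b| := le_abs_self b
  have key : ∀ c d : ℝ, c ≤ d →
      ENNReal.ofReal |f d - f c| ≤ ∫⁻ t in Ioc c d, ‖deriv f t‖ₑ := by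
    intro c d hcd
    have hac : AbsolutelyContinuousOnInterval f c d :=
      (hf.lipschitzOnWith (s := uIcc c d)).absolutelyContinuousOnInterval
    have h1 := hac.integral_deriv_eq_sub
    rw [intervalIntegral.integral_of_le hcd] at h1
    rw [← h1]
    have := enorm_integral_le_lintegral_enorm (μ := volume.restrict (Ioc c d)) (deriv f)
    rwa [Real.enorm_eq_ofReal_abs] at this
  calc 2 * ENNReal.ofReal (f t₀)
      ≤ ENNReal.ofReal |f t₀ - f a| + ENNReal.ofReal |f b - f t₀| := by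
        rw [fa, fb, two_mul]
        gcongr
        · rw [sub_zero]; exact le_abs_self _
        · rw [zero_sub, abs_neg]; exact le_abs_self _
    _ ≤ (∫⁻ t in Ioc a t₀, ‖deriv f t‖ₑ) + ∫⁻ t in Ioc t₀ b, ‖deriv f t‖ₑ :=
        add_le_add (key _ _ hat) (key _ _ htb)
    _ = ∫⁻ t in Ioc a t₀ ∪ Ioc t₀ b, ‖deriv f t‖ₑ := by
        rw [lintegral_union measurableSet_Ioc]
        exact Set.disjoint_left.2 fun x h1 h2 => absurd h1.2 (not_le.2 h2.1)
    _ ≤ ∫⁻ t, ‖deriv f t‖ₑ := setLIntegral_le_lintegral _ _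

/-- A unimodal Lipschitz function vanishing outside a bounded set has variation at most twice its
maximum. -/
lemma var_upper {f : ℝ → ℝ} {C : ℝ≥0} (hf : LipschitzWith C f) {R : ℝ}
    (hR : ∀ t, R ≤ |t| → f t = 0) {t₀ : ℝ} (h1 : MonotoneOn f (Iic t₀))
    (h2 : AntitoneOn f (Ici t₀)) :
    ∫⁻ t, ‖deriv f t‖ₑ ≤ 2 * ENNReal.ofReal (f t₀) := by
  set a : ℝ := min t₀ (-|R|) with ha
  set b : ℝ := max t₀ |R| with hb
  have hat : a ≤ t₀ := min_le_left _ _
  have htb : t₀ ≤ b := le_max_left _ _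
  have fa' : ∀ t ≤ a, f t = 0 := by
    intro t ht
    apply hR
    have : a ≤ -|R| := min_le_right _ _
    calc R ≤ |R| := le_abs_self R
      _ ≤ -t := by linarith
      _ ≤ |t| := neg_le_abs t
  have fb' : ∀ t, b ≤ t → f t = 0 := by
    intro t ht
    apply hR
    have : |R| ≤ b := le_max_right _ _
    calc R ≤ |R| := le_abs_self R
      _ ≤ t := this.trans ht
      _ ≤ |t| := le_abs_self t
  have e1 : ∫⁻ t in Ioc a t₀, ‖deriv f t‖ₑ = ENNReal.ofReal (f t₀) := by
    have hac : AbsolutelyContinuousOnInterval f a t₀ :=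
      (hf.lipschitzOnWith (s := uIcc a t₀)).absolutelyContinuousOnInterval
    have h3 := hac.integral_deriv_eq_sub
    rw [intervalIntegral.integral_of_le hat, fa' a le_rfl, sub_zero] at h3
    have h4 := hac.intervalIntegrable_deriv.1
    have hnn : ∀ᵐ t ∂(volume.restrict (Ioc a t₀)), 0 ≤ deriv f t := by
      rw [← restrict_Ioo_eq_restrict_Ioc]
      rw [ae_restrict_iff' measurableSet_Ioo]
      refine Eventually.of_forall fun t ht => ?_
      rw [← derivWithin_of_mem_nhds (Iic_mem_nhds ht.2)]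
      exact h1.derivWithin_nonneg
    rw [← h3, ofReal_integral_eq_lintegral_ofReal h4 hnn]
    apply lintegral_congr_ae
    filter_upwards [hnn] with t ht
    rw [Real.enorm_eq_ofReal ht]
  have e2 : ∫⁻ t in Ioc t₀ b, ‖deriv f t‖ₑ = ENNReal.ofReal (f t₀) := by
    have hac : AbsolutelyContinuousOnInterval f t₀ b :=
      (hf.lipschitzOnWith (s := uIcc t₀ b)).absolutelyContinuousOnInterval
    have h3 := hac.integral_deriv_eq_sub
    rw [intervalIntegral.integral_of_le htb, fb' b le_rfl, zero_sub] at h3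
    have h4 := hac.intervalIntegrable_deriv.1
    have hnn : ∀ᵐ t ∂(volume.restrict (Ioc t₀ b)), 0 ≤ -deriv f t := by
      rw [← restrict_Ioo_eq_restrict_Ioc]
      rw [ae_restrict_iff' measurableSet_Ioo]
      refine Eventually.of_forall fun t ht => ?_
      rw [← derivWithin_of_mem_nhds (Ici_mem_nhds ht.1)]
      have := h2.derivWithin_nonpos (x := t)
      linarith
    have h5 : f t₀ = ∫ t in Ioc t₀ b, -deriv f t := by
      rw [integral_neg, h3, neg_neg]
    rw [h5, ofReal_integral_eq_lintegral_ofReal (f := fun t => -deriv f t) h4.neg hnn]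
    apply lintegral_congr_ae
    filter_upwards [hnn] with t ht
    rw [← Real.enorm_eq_ofReal ht, enorm_neg]
  have hz : ∀ t ∉ Icc a b, deriv f t = 0 := by
    intro t ht
    rw [mem_Icc, not_and_or, not_le, not_le] at ht
    rcases ht with ht | ht
    · have : f =ᶠ[𝓝 t] fun _ => 0 := by
        filter_upwards [Iio_mem_nhds ht] with s hs using fa' s (le_of_lt hs)
      rw [this.deriv_eq]; simp
    · have : f =ᶠ[𝓝 t] fun _ => 0 := by
        filter_upwards [Ioi_mem_nhds ht] with s hs using fb' s (le_of_lt hs)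
      rw [this.deriv_eq]; simp
  calc ∫⁻ t, ‖deriv f t‖ₑ = ∫⁻ t in Icc a b, ‖deriv f t‖ₑ := by
        rw [setLIntegral_eq_of_support_subset]
        intro t ht
        by_contra hc
        rw [Function.mem_support] at ht
        apply ht
        simp [hz t hc]
    _ = ∫⁻ t in Ioc a b, ‖deriv f t‖ₑ := by
        rw [restrict_Ioc_eq_restrict_Icc]
    _ = (∫⁻ t in Ioc a t₀, ‖deriv f t‖ₑ) + ∫⁻ t in Ioc t₀ b, ‖deriv f t‖ₑ := by
        rw [← lintegral_union measurableSet_Ioc, Ioc_union_Ioc_eq_Ioc hat htb]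
        exact Set.disjoint_left.2 fun x h1 h2 => absurd h1.2 (not_le.2 h2.1)
    _ = 2 * ENNReal.ofReal (f t₀) := by rw [e1, e2, two_mul]
    _ ≤ _ := le_rfl

/-! ### Lower and upper Crofton bounds -/

lemma abs_le_norm_lin (θ p t : ℝ) : |t| ≤ ‖lin θ p t‖ := by
  have := abs_real_inner_le_norm (lin θ p t) (dirE θ)
  simpa using this

/-- Lower Crofton bound: if every line `(θ, p)` contains a point where `v ≥ m θ p`, then
`∫∫ m ≤ 2 ∫ |∇v|`. -/
theorem crofton_lower {v : Pl → ℝ} {C : ℝ≥0} (hv : LipschitzWith C v) (hc : HasCompactSupport v)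
    (m : ℝ → ℝ → ℝ≥0∞) (hm : ∀ θ p, m θ p ≠ 0 → ∃ t, m θ p ≤ ENNReal.ofReal (v (lin θ p t))) :
    ∫⁻ θ in Ioc 0 (2 * Real.pi), ∫⁻ p, m θ p ≤ 2 * ∫⁻ x, ‖fderiv ℝ v x‖ₑ := by
  obtain ⟨R, hR⟩ := hc.isBounded.subset_closedBall (0 : Pl)
  have h0 : ∀ x : Pl, R + 1 ≤ ‖x‖ → v x = 0 := by
    intro x hx
    by_contra h
    have h2 : x ∈ tsupport v := subset_tsupport _ h
    have := hR h2
    rw [mem_closedBall_zero_iff] at this
    linarith
  have key : 2 * ∫⁻ θ in Ioc 0 (2 * Real.pi), ∫⁻ p, m θ p ≤ 4 * ∫⁻ x, ‖fderiv ℝ v x‖ₑ := by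
    rw [crofton]
    calc 2 * ∫⁻ θ in Ioc 0 (2 * Real.pi), ∫⁻ p, m θ p
        ≤ ∫⁻ θ in Ioc 0 (2 * Real.pi), 2 * ∫⁻ p, m θ p := lintegral_const_mul_le _ _
      _ ≤ ∫⁻ θ in Ioc 0 (2 * Real.pi), ∫⁻ p, 2 * m θ p :=
          lintegral_mono fun θ => lintegral_const_mul_le _ _
      _ ≤ _ := by
        refine lintegral_mono fun θ => lintegral_mono_ae ?_
        filter_upwards [ae_line_differentiable hv θ] with p hp
        by_cases hmp : m θ p = 0
        · simp [hmp]
        obtain ⟨t₀, ht₀⟩ := hm θ p hmp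
        have h1 : ∫⁻ t, ‖fderiv ℝ v (lin θ p t) (dirE θ)‖ₑ =
            ∫⁻ t, ‖deriv (fun t => v (lin θ p t)) t‖ₑ := by
          apply lintegral_congr_ae
          filter_upwards [hp] with t ht
          rw [(hasDerivAt_line ht).deriv]
        rw [h1]
        refine le_trans ?_ (var_lower (lipschitz_line hv θ p) (R := R + 1) ?_ t₀)
        · gcongr
        · intro t ht
          exact h0 _ (ht.trans (abs_le_norm_lin θ p t))
  have h4 : (4 : ℝ≥0∞) = 2 * 2 := by norm_num
  rw [h4, mul_assoc] at key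
  exact (ENNReal.mul_le_mul_iff_right (by norm_num) (by norm_num)).1 key

/-- Upper Crofton bound for functions that are unimodal on lines. -/
theorem crofton_upper {v : Pl → ℝ} {C : ℝ≥0} (hv : LipschitzWith C v) (hc : HasCompactSupport v)
    (m : ℝ → ℝ → ℝ≥0∞)
    (hm : ∀ θ p, ∃ t₀, MonotoneOn (fun t => v (lin θ p t)) (Iic t₀) ∧
      AntitoneOn (fun t => v (lin θ p t)) (Ici t₀) ∧ ENNReal.ofReal (v (lin θ p t₀)) ≤ m θ p) :
    2 * ∫⁻ x, ‖fderiv ℝ v x‖ₑ ≤ ∫⁻ θ in Ioc 0 (2 * Real.pi), ∫⁻ p, m θ p := by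
  obtain ⟨R, hR⟩ := hc.isBounded.subset_closedBall (0 : Pl)
  have h0 : ∀ x : Pl, R + 1 ≤ ‖x‖ → v x = 0 := by
    intro x hx
    by_contra h
    have h2 : x ∈ tsupport v := subset_tsupport _ h
    have := hR h2
    rw [mem_closedBall_zero_iff] at this
    linarith
  have key : 4 * ∫⁻ x, ‖fderiv ℝ v x‖ₑ ≤ 2 * ∫⁻ θ in Ioc 0 (2 * Real.pi), ∫⁻ p, m θ p := by
    rw [crofton]
    calc ∫⁻ θ in Ioc 0 (2 * Real.pi), ∫⁻ p, ∫⁻ t, ‖fderiv ℝ v (lin θ p t) (dirE θ)‖ₑ
        ≤ ∫⁻ θ in Ioc 0 (2 * Real.pi), ∫⁻ p, 2 * m θ p := by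
          refine lintegral_mono fun θ => lintegral_mono_ae ?_
          filter_upwards [ae_line_differentiable hv θ] with p hp
          obtain ⟨t₀, h1, h2, h3⟩ := hm θ p
          have h4 : ∫⁻ t, ‖fderiv ℝ v (lin θ p t) (dirE θ)‖ₑ =
              ∫⁻ t, ‖deriv (fun t => v (lin θ p t)) t‖ₑ := by
            apply lintegral_congr_ae
            filter_upwards [hp] with t ht
            rw [(hasDerivAt_line ht).deriv]
          rw [h4]
          refine (var_upper (lipschitz_line hv θ p) (R := R + 1) ?_ h1 h2).trans ?_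
          · intro t ht
            exact h0 _ (ht.trans (abs_le_norm_lin θ p t))
          · gcongr
      _ = 2 * ∫⁻ θ in Ioc 0 (2 * Real.pi), ∫⁻ p, m θ p := by
          rw [← lintegral_const_mul' _ _ (by norm_num)]
          refine lintegral_congr fun θ => ?_
          rw [← lintegral_const_mul' _ _ (by norm_num)]
  have h4 : (4 : ℝ≥0∞) = 2 * 2 := by norm_num
  rw [h4, mul_assoc] at key
  exact (ENNReal.mul_le_mul_iff_right (by norm_num) (by norm_num)).1 key

end Pool.MP70c477
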