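import Pool.Agent.MP70c477.Region

/-!
# The frame: a convex set whose inner parallel set contains a disc above the origin
-/

namespace Pool.MP70c477

open MeasureTheory Set Filter Topology Bornology
open scoped ENNReal NNReal RealInnerProductSpace

/-- frame data -/
structure Frame (Ω : Set Pl) (r ρ c : ℝ) : Prop where
  pc : IsPlanarConvex Ω
  hr : 0 < r
  hρ : 0 < ρ
  ball : Metric.ball (pt 0 c) ρ ⊆ inner Ω r

namespace Frame

variable {Ω : Set Pl} {r ρ c : ℝ}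

lemma mem_inner_iff (h : Frame Ω r ρ c) {x y : ℝ} : pt x y ∈ inner Ω r ↔
    ∀ X, |X - x| < r → X ∈ dom Ω ∧ lo Ω X + arc r (X - x) ≤ y ∧
      y + arc r (X - x) ≤ hi Ω X := by
  conv_lhs => rw [eq_region h.pc]
  exact mem_inner_region h.hr

lemma Ioo_subset_dom (h : Frame Ω r ρ c) : Ioo (-(r + ρ)) (r + ρ) ⊆ dom Ω := by
  intro X hX
  have hr := h.hr
  have hρ := h.hρ
  -- centre `x` with `|x| < ρ`, `|X - x| < r`
  have hsum : 0 < r + ρ := by linarith
  set x := ρ / (r + ρ) * X with hx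
  have hXabs : |X| < r + ρ := abs_lt.2 ⟨by linarith [hX.1], hX.2⟩
  have h1 : |x| < ρ := by
    rw [hx, abs_mul, abs_of_pos (by positivity), div_mul_eq_mul_div, div_lt_iff₀ hsum]
    exact mul_lt_mul_of_pos_left hXabs hρ
  have h2 : |X - x| < r := by
    have : X - x = r / (r + ρ) * X := by rw [hx]; field_simp; ring
    rw [this, abs_mul, abs_of_pos (by positivity), div_mul_eq_mul_div, div_lt_iff₀ hsum]
    exact mul_lt_mul_of_pos_left hXabs hr
  have h3 : pt x c ∈ inner Ω r := h.ball (by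
    rw [mem_ball_pt hρ]
    refine ⟨by simpa using h1, ?_⟩
    rw [sub_self, abs_zero]
    exact arc_pos (by simpa using h1))
  exact (h.mem_inner_iff.1 h3 X h2).1

/-- the contact structure -/
theorem exists_cset (h : Frame Ω r ρ c) : ∃ L, CSet (lo Ω) (dom Ω) r (ρ / 2) L := by
  have hr := h.hr
  have hρ := h.hρ
  have hconv := convexOn_lo h.pc
  have hopen := isOpen_dom h.pc.isOpen
  have hsub : Icc (-(r + ρ / 2)) (r + ρ / 2) ⊆ dom Ω := by
    intro X hX
    exact h.Ioo_subset_dom ⟨by linarith [hX.1], by linarith [hX.2]⟩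
  obtain ⟨n1, hn1⟩ := exists_sub hopen hconv (hsub (left_mem_Icc.2 (by linarith)))
  obtain ⟨n2, hn2⟩ := exists_sub hopen hconv (hsub (right_mem_Icc.2 (by linarith)))
  refine ⟨max |n1| |n2|, hr, by positivity, by positivity, hconv, hopen, hsub, ?_⟩
  have key : ∀ X ∈ Icc (-(r + ρ / 2)) (r + ρ / 2), ∀ Y ∈ Icc (-(r + ρ / 2)) (r + ρ / 2),
      X ≤ Y → |lo Ω X - lo Ω Y| ≤ max |n1| |n2| * |X - Y| := by
    intro X hX Y hY hXY
    have e1 := incr_ge hopen hconv hn1 (hsub hX) (hsub hY) hX.1 hXY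
    have e2 := incr_le hopen hconv hn2 (hsub hX) (hsub hY) hY.2 hXY
    rw [abs_sub_comm, abs_sub_comm X Y, abs_of_nonneg (show 0 ≤ Y - X by linarith), abs_le]
    have hd : 0 ≤ Y - X := by linarith
    constructor
    · have : -(max |n1| |n2|) * (Y - X) ≤ n1 * (Y - X) := by
        apply mul_le_mul_of_nonneg_right _ hd
        have := neg_abs_le n1
        have := le_max_left |n1| |n2|
        linarith
      linarith
    · have : n2 * (Y - X) ≤ max |n1| |n2| * (Y - X) := by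
        apply mul_le_mul_of_nonneg_right _ hd
        exact (le_abs_self n2).trans (le_max_right _ _)
      linarith
  intro X hX Y hY
  rcases le_total X Y with h1 | h1
  · exact key X hX Y hY h1
  · have := key Y hY X hX h1
    rwa [abs_sub_comm, abs_sub_comm Y X] at this

/-- the height of the lower boundary of the inner parallel set -/
noncomputable def Gf (Ω : Set Pl) (r x : ℝ) : ℝ :=
  lo Ω (cm (lo Ω) r x) + arc r (cm (lo Ω) r x - x)

/-- the slice of the inner parallel set -/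
def Sl (A : Set Pl) (r x : ℝ) : Set ℝ := {y | pt x y ∈ inner A r}

/-- the top of the slice -/
noncomputable def Hf (Ω : Set Pl) (r x : ℝ) : ℝ := sSup (Sl Ω r x)

lemma measurableSet_inner {A : Set Pl} (hA : IsBounded A) : MeasurableSet (inner A r) :=
  (isClosed_inner hA r).measurableSet

lemma mem_Sl_iff (h : Frame Ω r ρ c) {L : ℝ} (hC : CSet (lo Ω) (dom Ω) r (ρ / 2) L) {x y : ℝ}
    (hx : |x| ≤ ρ / 2) : y ∈ Sl Ω r x ↔
      Gf Ω r x ≤ y ∧ ∀ X, |X - x| < r → y + arc r (X - x) ≤ hi Ω X := by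
  have hcm := hC.isC_cm hx
  have hlt := hC.abs_lt_of_isC hx hcm
  change pt x y ∈ inner Ω r ↔ _
  rw [h.mem_inner_iff]
  constructor
  · intro H
    exact ⟨(H _ hlt).2.1, fun X hX => (H X hX).2.2⟩
  · rintro ⟨H1, H2⟩ X hX
    have hXI : X ∈ Icc (x - r) (x + r) := by
      rw [abs_lt] at hX; exact ⟨by linarith [hX.1], by linarith [hX.2]⟩
    refine ⟨hC.sub (hC.mem_J hx hXI), ?_, H2 X hX⟩
    exact (hcm.2 X hXI).trans H1

lemma Sl_nonempty (h : Frame Ω r ρ c) {x : ℝ} (hx : |x| ≤ ρ / 2) :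
    Ioo (c - ρ / 2) (c + ρ / 2) ⊆ Sl Ω r x := by
  have hρ := h.hρ
  intro y hy
  apply h.ball
  rw [mem_ball_pt hρ, sub_zero]
  have h1 : |x| < ρ := by linarith
  refine ⟨h1, ?_⟩
  apply Real.lt_sqrt_of_sq_lt
  have h2 : |y - c| < ρ / 2 := abs_lt.2 ⟨by linarith [hy.1], by linarith [hy.2]⟩
  have h3 : |y - c| ^ 2 < (ρ / 2) ^ 2 := pow_lt_pow_left₀ h2 (abs_nonneg _) (by norm_num)
  have h4 : x ^ 2 ≤ (ρ / 2) ^ 2 := by rw [← sq_abs]; gcongr
  have h5 : (ρ / 2) ^ 2 + (ρ / 2) ^ 2 ≤ ρ ^ 2 := by nlinarith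
  linarith

lemma Sl_eq (h : Frame Ω r ρ c) {L : ℝ} (hC : CSet (lo Ω) (dom Ω) r (ρ / 2) L) {x : ℝ}
    (hx : |x| ≤ ρ / 2) : Sl Ω r x = Icc (Gf Ω r x) (Hf Ω r x) ∧
      Gf Ω r x + ρ ≤ Hf Ω r x := by
  have hρ := h.hρ
  have hne : (Sl Ω r x).Nonempty := ⟨c, h.Sl_nonempty hx ⟨by linarith, by linarith⟩⟩
  have hbdd : BddAbove (Sl Ω r x) := by
    have hb : IsBounded (inner Ω r) := h.pc.bdd.subset (inner_subset h.hr)
    exact (isBounded_slice hb x).bddAbove
  have htop : ∀ X, |X - x| < r → Hf Ω r x + arc r (X - x) ≤ hi Ω X := by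
    intro X hX
    rw [← le_sub_iff_add_le]
    refine csSup_le hne fun y hy => ?_
    rw [le_sub_iff_add_le]
    exact ((h.mem_Sl_iff hC hx).1 hy).2 X hX
  have heq : Sl Ω r x = Icc (Gf Ω r x) (Hf Ω r x) := by
    ext y
    constructor
    · intro hy
      exact ⟨((h.mem_Sl_iff hC hx).1 hy).1, le_csSup hbdd hy⟩
    · rintro ⟨h1, h2⟩
      rw [h.mem_Sl_iff hC hx]
      exact ⟨h1, fun X hX => by have := htop X hX; linarith⟩
  refine ⟨heq, ?_⟩
  have hsub := h.Sl_nonempty hx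
  rw [heq] at hsub
  have hne2 : (Ioo (c - ρ / 2) (c + ρ / 2)).Nonempty := nonempty_Ioo.2 (by linarith)
  have h1 : Gf Ω r x ≤ c - ρ / 2 := by
    refine le_of_forall_pos_le_add fun ε hε => ?_
    have hm : 0 < min ε (ρ / 2) := by positivity
    have := (hsub (show c - ρ / 2 + min ε (ρ / 2) ∈ Ioo (c - ρ / 2) (c + ρ / 2) from
      ⟨by linarith, by linarith [min_le_right ε (ρ / 2)]⟩)).1
    linarith [min_le_left ε (ρ / 2)]
  have h2 : c + ρ / 2 ≤ Hf Ω r x := by
    refine le_of_forall_pos_le_add fun ε hε => ?_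
    have hm : 0 < min ε (ρ / 2) := by positivity
    have := (hsub (show c + ρ / 2 - min ε (ρ / 2) ∈ Ioo (c - ρ / 2) (c + ρ / 2) from
      ⟨by linarith [min_le_right ε (ρ / 2)], by linarith⟩)).2
    linarith [min_le_left ε (ρ / 2)]
  linarith

/-- slices of the perturbed inner parallel set: they lie below the old top and above any test
value -/
lemma Sl_region_subset (h : Frame Ω r ρ c) {L : ℝ} (hC : CSet (lo Ω) (dom Ω) r (ρ / 2) L)
    {a : ℝ → ℝ} {x X : ℝ} (hx : |x| ≤ ρ / 2) (hX : |X - x| < r) :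
    Sl (region (dom Ω) a (hi Ω)) r x ⊆ Icc (a X + arc r (X - x)) (Hf Ω r x) := by
  intro y hy
  have hy' := (mem_inner_region h.hr).1 hy
  refine ⟨(hy' X hX).2.1, ?_⟩
  by_contra hc
  rw [not_le] at hc
  obtain ⟨heq, hlen⟩ := h.Sl_eq hC hx
  have h1 : y ∈ Sl Ω r x := by
    rw [h.mem_Sl_iff hC hx]
    exact ⟨by linarith [h.hρ], fun Z hZ => (hy' Z hZ).2.2⟩
  rw [heq] at h1
  exact absurd h1.2 (not_le.2 hc)

/-- domination to the left of a contact pair -/
lemma dom_left {g : ℝ → ℝ} {x₁ X₁ x X : ℝ} (hC : IsC g r x₁ X₁) (hlt : |X₁ - x₁| < r)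
    (hx : x ≤ x₁) (hX₁ : X₁ ≤ X) (hX : X - x < r) :
    g X + arc r (X - x) ≤ g X₁ + arc r (X₁ - x) := by
  rw [abs_lt] at hlt
  have hXm : X ∈ Icc (x₁ - r) (x₁ + r) := ⟨by linarith [hlt.1], by linarith⟩
  have h1 := hC.2 X hXm
  have h2 := arc_incr (r := r) (u := X₁ - x₁) (v := X - x₁) (d := x₁ - x)
    (abs_le.2 ⟨by linarith [hlt.1], by linarith [hlt.2]⟩)
    (abs_le.2 ⟨by linarith [hlt.1], by linarith⟩) (by linarith) (by linarith)
  have e1 : X - x₁ + (x₁ - x) = X - x := by ring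
  have e2 : X₁ - x₁ + (x₁ - x) = X₁ - x := by ring
  rw [e1, e2] at h2
  linarith

/-- domination to the right of a contact pair -/
lemma dom_right {g : ℝ → ℝ} {x₁ X₁ x X : ℝ} (hC : IsC g r x₁ X₁) (hlt : |X₁ - x₁| < r)
    (hx : x₁ ≤ x) (hX₁ : X ≤ X₁) (hX : x - X < r) :
    g X + arc r (X - x) ≤ g X₁ + arc r (X₁ - x) := by
  rw [abs_lt] at hlt
  have hXm : X ∈ Icc (x₁ - r) (x₁ + r) := ⟨by linarith, by linarith [hlt.2]⟩
  have h1 := hC.2 X hXm
  -- apply `arc_incr` to the reflected points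
  have h2 := arc_incr (r := r) (u := x₁ - X₁) (v := x₁ - X) (d := x - x₁)
    (abs_le.2 ⟨by linarith [hlt.2], by linarith [hlt.1]⟩)
    (abs_le.2 ⟨by linarith [hlt.2], by linarith⟩) (by linarith) (by linarith)
  have harc : ∀ z, arc r (-z) = arc r z := fun z => by unfold arc; rw [neg_sq]
  have e1 : x₁ - X + (x - x₁) = -(X - x) := by ring
  have e2 : x₁ - X₁ + (x - x₁) = -(X₁ - x) := by ring
  have e3 : x₁ - X₁ = -(X₁ - x₁) := by ring
  have e4 : x₁ - X = -(X - x₁) := by ring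
  rw [e1, e2, harc, harc, e3, e4, harc, harc] at h2
  linarith

end Frame

end Pool.MP70c477
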