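import Pool.Agent.MP70c477.Frame

/-!
# The area gain
-/

namespace Pool.MP70c477

open MeasureTheory Set Filter Topology Bornology
open scoped ENNReal NNReal RealInnerProductSpace

/-- the second order constant -/
noncomputable def C2 (r L : ℝ) : ℝ :=
  1 / (r / Real.sqrt (1 + L ^ 2) / 2) + r ^ 2 / (r / Real.sqrt (1 + L ^ 2) / 2) ^ 3

/-- the maximal step -/
noncomputable def a0 (r L : ℝ) : ℝ := (r / Real.sqrt (1 + L ^ 2)) ^ 2 / (4 * r)

lemma C2_pos {r L : ℝ} (hr : 0 < r) : 0 < C2 r L := by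
  unfold C2; positivity

lemma a0_pos {r L : ℝ} (hr : 0 < r) : 0 < a0 r L := by
  unfold a0; positivity

lemma D_le {r L : ℝ} (hr : 0 < r) : r / Real.sqrt (1 + L ^ 2) ≤ r := by
  apply div_le_self hr.le
  rw [Real.one_le_sqrt]; nlinarith [sq_nonneg L]

/-- shifting a centre by at most `a0` keeps the half chord bounded below -/
lemma arc_shift {r L z w : ℝ} (hr : 0 < r) (hz : |z| < r)
    (hD : r / Real.sqrt (1 + L ^ 2) ≤ arc r z) (hw : |w - z| ≤ a0 r L) :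
    |w| < r ∧ r / Real.sqrt (1 + L ^ 2) / 2 ≤ arc r w := by
  set D := r / Real.sqrt (1 + L ^ 2) with hDdef
  have hD0 : 0 < D := by positivity
  have hDr : D ≤ r := D_le hr
  have ha : a0 r L = D ^ 2 / (4 * r) := rfl
  have ha1 : a0 r L ≤ r / 4 := by
    rw [ha, div_le_div_iff₀ (by positivity) (by norm_num)]
    nlinarith
  have hq := arc_sq hz.le
  have h1 : D ^ 2 ≤ r ^ 2 - z ^ 2 := by
    rw [← hq]; gcongr
  have h2 : w ^ 2 - z ^ 2 ≤ 3 * r * a0 r L := by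
    have e1 : w ^ 2 - z ^ 2 = (w - z) * (2 * z + (w - z)) := by ring
    rw [e1]
    have e2 : |(w - z) * (2 * z + (w - z))| ≤ a0 r L * (3 * r) := by
      rw [abs_mul]
      apply mul_le_mul hw _ (abs_nonneg _) ((abs_nonneg _).trans hw)
      calc |2 * z + (w - z)| ≤ |2 * z| + |w - z| := abs_add_le _ _
        _ ≤ 2 * r + r / 4 := by
            rw [abs_mul, abs_of_pos (by norm_num : (0:ℝ) < 2)]; linarith
        _ ≤ 3 * r := by linarith
    have := (le_abs_self _).trans e2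
    linarith
  have h3 : 3 * r * a0 r L = 3 / 4 * D ^ 2 := by rw [ha]; field_simp
  have h4 : (D / 2) ^ 2 ≤ r ^ 2 - w ^ 2 := by nlinarith
  constructor
  · apply abs_lt_of_sq_lt_sq _ hr.le
    have : 0 < (D / 2) ^ 2 := by positivity
    linarith
  · exact Real.le_sqrt_of_sq_le h4

namespace Frame

variable {Ω : Set Pl} {r ρ c : ℝ}

lemma Sl_mono {A B : Set Pl} (hAB : A ⊆ B) (x : ℝ) : Sl A r x ⊆ Sl B r x := fun _ hy =>
  inner_mono hAB r hy

lemma volume_inner_eq {A : Set Pl} (hA : IsBounded A) :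
    volume (inner A r) = ∫⁻ x : ℝ, volume (Sl A r x) :=
  volume_eq_slices (isClosed_inner hA r).measurableSet

/-- the smaller set -/
noncomputable def setL (Ω : Set Pl) (φ : ℝ → ℝ) (t : ℝ) : Set Pl :=
  region (dom Ω) (fun X => lo Ω X + t * φ X) (hi Ω)

/-- the larger set -/
noncomputable def setM (Ω : Set Pl) (φ : ℝ → ℝ) (t : ℝ) : Set Pl :=
  region (dom Ω) (fun X => lo Ω X - t * φ X) (hi Ω)

lemma setL_subset (h : Frame Ω r ρ c) {φ : ℝ → ℝ} (hφ : ∀ X, 0 ≤ φ X) {t : ℝ} (ht : 0 ≤ t) :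
    setL Ω φ t ⊆ Ω := by
  intro v hv
  rw [eq_region h.pc]
  obtain ⟨h1, h2, h3⟩ := hv
  have := mul_nonneg ht (hφ (v 0))
  exact ⟨h1, by linarith, h3⟩

lemma subset_setM (h : Frame Ω r ρ c) {φ : ℝ → ℝ} (hφ : ∀ X, 0 ≤ φ X) {t : ℝ} (ht : 0 ≤ t) :
    Ω ⊆ setM Ω φ t := by
  intro v hv
  rw [eq_region h.pc] at hv
  obtain ⟨h1, h2, h3⟩ := hv
  have := mul_nonneg ht (hφ (v 0))
  exact ⟨h1, by linarith, h3⟩

/-- sum of slices with two test points -/
lemma slice_sum_le (h : Frame Ω r ρ c) {L : ℝ} (hC : CSet (lo Ω) (dom Ω) r (ρ / 2) L)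
    {φ : ℝ → ℝ} {t Δ : ℝ} (ht : 0 ≤ t) (hφ0 : ∀ X, 0 ≤ φ X) (hφΔ : ∀ X, φ X ≤ Δ)
    (htΔ : t * Δ ≤ ρ) {x X X' : ℝ} (hx : |x| ≤ ρ / 2) (hX : |X - x| < r) (hX' : |X' - x| < r)
    {δ : ℝ} (hδ0 : 0 ≤ δ)
    (hδ : 2 * Gf Ω r x + δ ≤ (lo Ω X + t * φ X + arc r (X - x)) +
      (lo Ω X' - t * φ X' + arc r (X' - x))) :
    volume (Sl (setL Ω φ t) r x) + volume (Sl (setM Ω φ t) r x) + ENNReal.ofReal δ ≤
      2 * volume (Sl Ω r x) := by
  obtain ⟨heq, hlen⟩ := h.Sl_eq hC hx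
  have hcm := hC.isC_cm hx
  have hXI : X ∈ Icc (x - r) (x + r) := by
    rw [abs_lt] at hX; exact ⟨by linarith [hX.1], by linarith [hX.2]⟩
  have hXI' : X' ∈ Icc (x - r) (x + r) := by
    rw [abs_lt] at hX'; exact ⟨by linarith [hX'.1], by linarith [hX'.2]⟩
  have e1 : lo Ω X + arc r (X - x) ≤ Gf Ω r x := hcm.2 X hXI
  have e2 : lo Ω X' + arc r (X' - x) ≤ Gf Ω r x := hcm.2 X' hXI'
  set gl := lo Ω X + t * φ X + arc r (X - x) with hgl
  set gm := lo Ω X' - t * φ X' + arc r (X' - x) with hgm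
  have hgl' : gl ≤ Hf Ω r x := by
    have : t * φ X ≤ t * Δ := mul_le_mul_of_nonneg_left (hφΔ X) ht
    linarith
  have hgm' : gm ≤ Hf Ω r x := by
    have : 0 ≤ t * φ X' := mul_nonneg ht (hφ0 X')
    linarith [h.hρ]
  have v1 : volume (Sl (setL Ω φ t) r x) ≤ ENNReal.ofReal (Hf Ω r x - gl) := by
    refine (measure_mono (h.Sl_region_subset hC hx hX)).trans (le_of_eq ?_)
    rw [Real.volume_Icc]
  have v2 : volume (Sl (setM Ω φ t) r x) ≤ ENNReal.ofReal (Hf Ω r x - gm) := by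
    refine (measure_mono (h.Sl_region_subset hC hx hX')).trans (le_of_eq ?_)
    rw [Real.volume_Icc]
  have v3 : volume (Sl Ω r x) = ENNReal.ofReal (Hf Ω r x - Gf Ω r x) := by
    rw [heq, Real.volume_Icc]
  rw [v3]
  calc volume (Sl (setL Ω φ t) r x) + volume (Sl (setM Ω φ t) r x) + ENNReal.ofReal δ
      ≤ ENNReal.ofReal (Hf Ω r x - gl) + ENNReal.ofReal (Hf Ω r x - gm) + ENNReal.ofReal δ := by
        gcongr
    _ = ENNReal.ofReal ((Hf Ω r x - gl) + (Hf Ω r x - gm) + δ) := by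
        rw [ENNReal.ofReal_add (by linarith) hδ0, ENNReal.ofReal_add (by linarith)
          (by linarith)]
    _ ≤ ENNReal.ofReal (2 * (Hf Ω r x - Gf Ω r x)) := by
        apply ENNReal.ofReal_le_ofReal; linarith
    _ = 2 * ENNReal.ofReal (Hf Ω r x - Gf Ω r x) := by
        rw [ENNReal.ofReal_mul (by norm_num)]; norm_num

/-- the pointwise inequality for all `x` -/
lemma slice_sum_le_all (h : Frame Ω r ρ c) {L : ℝ} (hC : CSet (lo Ω) (dom Ω) r (ρ / 2) L)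
    {φ : ℝ → ℝ} {t Δ : ℝ} (ht : 0 ≤ t) (hφ0 : ∀ X, 0 ≤ φ X) (hφΔ : ∀ X, φ X ≤ Δ)
    (htΔ : t * Δ ≤ ρ) {x₁ x₈ : ℝ} (hx1 : |x₁| ≤ ρ / 2) (hx8 : |x₈| ≤ ρ / 2)
    (hz1 : ∀ X, X ≤ cm (lo Ω) r x₁ → φ X = 0) (hz8 : ∀ X, cm (lo Ω) r x₈ ≤ X → φ X = 0)
    (x : ℝ) :
    volume (Sl (setL Ω φ t) r x) + volume (Sl (setM Ω φ t) r x) ≤ 2 * volume (Sl Ω r x) := by
  have hr := h.hr
  by_cases hxm : x₁ ≤ x ∧ x ≤ x₈
  · have hx : |x| ≤ ρ / 2 := by
      rw [abs_le] at *; exact ⟨by linarith [hx1.1], by linarith [hx8.2]⟩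
    have hcm := hC.isC_cm hx
    have hlt := hC.abs_lt_of_isC hx hcm
    have := h.slice_sum_le hC ht hφ0 hφΔ htΔ hx hlt hlt (δ := 0) le_rfl (by
      unfold Gf; linarith)
    simpa using this
  · have hL : Sl (setL Ω φ t) r x ⊆ Sl Ω r x := Sl_mono (h.setL_subset hφ0 ht) x
    have hM : Sl (setM Ω φ t) r x ⊆ Sl Ω r x := by
      intro y hy
      have hy' := (mem_inner_region hr).1 hy
      change pt x y ∈ inner Ω r
      rw [h.mem_inner_iff]
      intro X hX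
      obtain ⟨k1, k2, k3⟩ := hy' X hX
      refine ⟨k1, ?_, k3⟩
      rcases le_total X (cm (lo Ω) r x₁) with h1 | h1
      · rw [hz1 X h1] at k2; linarith
      rcases le_total (cm (lo Ω) r x₈) X with h8 | h8
      · rw [hz8 X h8] at k2; linarith
      rw [not_and_or, not_le, not_le] at hxm
      rw [abs_lt] at hX
      rcases hxm with hxm | hxm
      · have hcm := hC.isC_cm hx1
        have hlt := hC.abs_lt_of_isC hx1 hcm
        have hd := dom_left hcm hlt hxm.le h1 (by linarith [hX.2])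
        have hlt' : |cm (lo Ω) r x₁ - x| < r := by
          rw [abs_lt] at hlt ⊢; exact ⟨by linarith [hlt.1], by linarith [hX.2]⟩
        have := (hy' _ hlt').2.1
        rw [hz1 _ le_rfl] at this
        linarith
      · have hcm := hC.isC_cm hx8
        have hlt := hC.abs_lt_of_isC hx8 hcm
        have hd := dom_right hcm hlt hxm.le h8 (by linarith [hX.1])
        have hlt' : |cm (lo Ω) r x₈ - x| < r := by
          rw [abs_lt] at hlt ⊢; exact ⟨by linarith [hX.1], by linarith [hlt.2]⟩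
        have := (hy' _ hlt').2.1
        rw [hz8 _ le_rfl] at this
        linarith
    calc volume (Sl (setL Ω φ t) r x) + volume (Sl (setM Ω φ t) r x)
        ≤ volume (Sl Ω r x) + volume (Sl Ω r x) :=
          add_le_add (measure_mono hL) (measure_mono hM)
      _ = _ := (two_mul _).symm

/-- the density of the gain -/
noncomputable def dens (g φ : ℝ → ℝ) (r L t a x : ℝ) : ℝ :=
  t * (φ (cm g r (x + a)) - φ (cm g r (x - a))) - a * (sm g r (x + a) - sm g r (x - a)) -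
    2 * C2 r L * a ^ 2

lemma slice_sum_dens (h : Frame Ω r ρ c) {L : ℝ} (hC : CSet (lo Ω) (dom Ω) r (ρ / 2) L)
    {φ : ℝ → ℝ} {t Δ : ℝ} (ht : 0 ≤ t) (hφ0 : ∀ X, 0 ≤ φ X) (hφΔ : ∀ X, φ X ≤ Δ)
    (htΔ : t * Δ ≤ ρ) {x₁ x₈ : ℝ} (hx1 : |x₁| ≤ ρ / 2) (hx8 : |x₈| ≤ ρ / 2)
    (hz1 : ∀ X, X ≤ cm (lo Ω) r x₁ → φ X = 0) (hz8 : ∀ X, cm (lo Ω) r x₈ ≤ X → φ X = 0)
    {a : ℝ} (ha : 0 ≤ a) (haa : a ≤ a0 r L) {x : ℝ}
    (hxa : |x + a| ≤ ρ / 2) (hxa' : |x - a| ≤ ρ / 2) :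
    volume (Sl (setL Ω φ t) r x) + volume (Sl (setM Ω φ t) r x) +
      ENNReal.ofReal (dens (lo Ω) φ r L t a x) ≤ 2 * volume (Sl Ω r x) := by
  have hr := h.hr
  rcases le_or_gt (dens (lo Ω) φ r L t a x) 0 with hd | hd
  · rw [ENNReal.ofReal_of_nonpos hd, add_zero]
    exact h.slice_sum_le_all hC ht hφ0 hφΔ htΔ hx1 hx8 hz1 hz8 x
  have hx : |x| ≤ ρ / 2 := by
    rw [abs_le] at *; exact ⟨by linarith [hxa'.1], by linarith [hxa.2]⟩
  have hcmp := hC.isC_cm hxa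
  have hcmm := hC.isC_cm hxa'
  have hcm := hC.isC_cm hx
  have hltp := hC.abs_lt_of_isC hxa hcmp
  have hltm := hC.abs_lt_of_isC hxa' hcmm
  set Xp := cm (lo Ω) r (x + a) with hXp
  set Xm := cm (lo Ω) r (x - a) with hXm
  have sp := arc_shift hr hltp (hC.arc_lower hxa hcmp) (w := Xp - x) (by
    rw [show Xp - x - (Xp - (x + a)) = a by ring, abs_of_nonneg ha]; exact haa)
  have smm := arc_shift hr hltm (hC.arc_lower hxa' hcmm) (w := Xm - x) (by
    rw [show Xm - x - (Xm - (x - a)) = -a by ring, abs_neg, abs_of_nonneg ha]; exact haa)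
  have hD2 : 0 < r / Real.sqrt (1 + L ^ 2) / 2 := by positivity
  have hDp : r / Real.sqrt (1 + L ^ 2) / 2 ≤ arc r (Xp - (x + a)) := by
    have := hC.arc_lower hxa hcmp; linarith [hC.D_pos]
  have hDm : r / Real.sqrt (1 + L ^ 2) / 2 ≤ arc r (Xm - (x - a)) := by
    have := hC.arc_lower hxa' hcmm; linarith [hC.D_pos]
  have ap := arc_ge hD2 hltp sp.1 hDp sp.2
  have am := arc_ge hD2 hltm smm.1 hDm smm.2
  rw [show Xp - x - (Xp - (x + a)) = a by ring] at ap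
  rw [show Xm - x - (Xm - (x - a)) = -a by ring, neg_sq] at am
  change arc r (Xp - (x + a)) - sm (lo Ω) r (x + a) * a - C2 r L * a ^ 2 ≤ arc r (Xp - x) at ap
  change arc r (Xm - (x - a)) - sm (lo Ω) r (x - a) * -a - C2 r L * a ^ 2 ≤ arc r (Xm - x) at am
  have gp := hC.center_ge hx hxa hcm hcmp
  have gm := hC.center_ge hx hxa' hcm hcmm
  change Gf Ω r x + sm (lo Ω) r x * (x + a - x) ≤ lo Ω Xp + arc r (Xp - (x + a)) at gp
  change Gf Ω r x + sm (lo Ω) r x * (x - a - x) ≤ lo Ω Xm + arc r (Xm - (x - a)) at gm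
  refine h.slice_sum_le hC ht hφ0 hφΔ htΔ hx sp.1 smm.1 hd.le ?_
  unfold dens
  rw [← hXp, ← hXm]
  nlinarith

end Frame

end Pool.MP70c477
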