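import Pool.Agent.MP70c477.Gain

/-!
# The integrated area gain
-/

namespace Pool.MP70c477

open MeasureTheory Set Filter Topology Bornology
open scoped ENNReal NNReal RealInnerProductSpace

/-- composition of a bounded continuous function with a monotone one is integrable -/
lemma intervalIntegrable_comp_mono {f φ : ℝ → ℝ} {p q M : ℝ} (hpq : p ≤ q)
    (hf : MonotoneOn f (Icc p q)) (hφ : Continuous φ) (hM : ∀ X, |φ X| ≤ M) :
    IntervalIntegrable (fun x => φ (f x)) volume p q := by
  set F : ℝ → ℝ := fun x => f (max p (min x q)) with hF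
  have hmono : Monotone F := by
    intro x y hxy
    apply hf
    · exact ⟨le_max_left _ _, max_le hpq (min_le_right _ _)⟩
    · exact ⟨le_max_left _ _, max_le hpq (min_le_right _ _)⟩
    · exact max_le_max le_rfl (min_le_min hxy le_rfl)
  have hmeas : Measurable fun x => φ (F x) := hφ.measurable.comp hmono.measurable
  have h1 : IntervalIntegrable (fun x => φ (F x)) volume p q := by
    rw [intervalIntegrable_iff_integrableOn_Ioc_of_le hpq]
    refine Measure.integrableOn_of_bounded (M := M) (by simp) hmeas.aestronglyMeasurable ?_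
    exact Eventually.of_forall fun x => by rw [Real.norm_eq_abs]; exact hM _
  refine h1.congr_ae ?_
  rw [EventuallyEq, ae_restrict_iff' measurableSet_uIoc]
  refine Eventually.of_forall fun x hx => ?_
  rw [uIoc_of_le hpq] at hx
  simp only [hF]
  rw [min_eq_left hx.2, max_eq_right hx.1.le]

/-- integral of a symmetric difference -/
lemma integral_shift_diff {F : ℝ → ℝ} {p q A B a : ℝ} (hF : IntervalIntegrable F volume p q)
    (hpA : p ≤ A - a) (hAB : A ≤ B) (hBq : B + a ≤ q) (ha : 0 ≤ a) :
    ∫ x in A..B, (F (x + a) - F (x - a)) =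
      (∫ x in (B - a)..(B + a), F x) - ∫ x in (A - a)..(A + a), F x := by
  have hsub : ∀ u v : ℝ, p ≤ u → u ≤ q → p ≤ v → v ≤ q → IntervalIntegrable F volume u v := by
    intro u v hu hu' hv hv'
    refine hF.mono_set ?_
    rw [uIcc_of_le (show p ≤ q by linarith)]
    exact uIcc_subset_Icc ⟨hu, hu'⟩ ⟨hv, hv'⟩
  have i1 : IntervalIntegrable (fun x => F (x + a)) volume A B := by
    have := (hsub (A + a) (B + a) (by linarith) (by linarith) (by linarith) hBq).comp_add_right a
    simpa using this
  have i2 : IntervalIntegrable (fun x => F (x - a)) volume A B := by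
    have := (hsub (A - a) (B - a) hpA (by linarith) (by linarith) (by linarith)).comp_sub_right a
    simpa using this
  rw [intervalIntegral.integral_sub i1 i2, intervalIntegral.integral_comp_add_right,
    intervalIntegral.integral_comp_sub_right]
  have e1 := intervalIntegral.integral_add_adjacent_intervals
    (hsub (A - a) (A + a) hpA (by linarith) (by linarith) (by linarith))
    (hsub (A + a) (B + a) (by linarith) (by linarith) (by linarith) hBq)
  have e2 := intervalIntegral.integral_add_adjacent_intervals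
    (hsub (A - a) (B - a) hpA (by linarith) (by linarith) (by linarith))
    (hsub (B - a) (B + a) (by linarith) (by linarith) (by linarith) hBq)
  linarith

namespace Frame

variable {Ω : Set Pl} {r ρ c : ℝ}

lemma measurable_volume_Sl {A : Set Pl} (hA : IsBounded A) :
    Measurable fun x => volume (Sl A r x) := by
  have hmeas : MeasurableSet (inner A r) := (isClosed_inner hA r).measurableSet
  have h1 := measurable_measure_prodMk_left (ν := (volume : Measure ℝ))
    (ptEquiv.measurable hmeas)
  have h2 : (fun x => volume (Sl A r x)) =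
      fun x => volume (Prod.mk x ⁻¹' (ptEquiv ⁻¹' inner A r)) := by
    funext x
    congr 1
  rw [h2]; exact h1

theorem area_gain (h : Frame Ω r ρ c) {L : ℝ} (hC : CSet (lo Ω) (dom Ω) r (ρ / 2) L)
    {φ : ℝ → ℝ} {t Δ : ℝ} (ht : 0 ≤ t) (hφc : Continuous φ) (hφ0 : ∀ X, 0 ≤ φ X)
    (hφΔ : ∀ X, φ X ≤ Δ) (htΔ : t * Δ ≤ ρ)
    {x₁ x₈ B₁ B₂ : ℝ} (hx1 : 0 < x₁) (h1B : x₁ ≤ B₁) (hBB : B₁ < B₂) (hB8 : B₂ ≤ x₈)
    (hx8 : x₈ ≤ ρ / 2)
    (hz1 : ∀ X, X ≤ cm (lo Ω) r x₁ → φ X = 0) (hz8 : ∀ X, cm (lo Ω) r x₈ ≤ X → φ X = 0)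
    (hpl : ∀ X, cm (lo Ω) r B₁ ≤ X → X ≤ cm (lo Ω) r B₂ → φ X = Δ)
    {a : ℝ} (ha : 0 ≤ a) (haa : a ≤ a0 r L) (hax : a ≤ x₁ / 2) (haB : a ≤ (B₂ - B₁) / 2)
    (hbdM : IsBounded (setM Ω φ t)) :
    volume (inner (setL Ω φ t) r) + volume (inner (setM Ω φ t) r) +
      ENNReal.ofReal (2 * a * t * Δ -
        a ^ 2 * (2 * (sm (lo Ω) r B₂ - sm (lo Ω) r 0) + 2 * C2 r L * B₂)) ≤
      2 * volume (inner Ω r) := by
  have hr := h.hr
  have hρ := h.hρ
  have hx1b : |x₁| ≤ ρ / 2 := by rw [abs_of_pos hx1]; linarith
  have hx8b : |x₈| ≤ ρ / 2 := by rw [abs_of_pos (by linarith)]; linarith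
  set g := lo Ω with hg
  set A := x₁ / 2 with hA
  set B := (B₁ + B₂) / 2 with hB
  have hAB : A ≤ B := by rw [hA, hB]; linarith
  have hbdL : IsBounded (setL Ω φ t) := h.pc.bdd.subset (h.setL_subset hφ0 ht)
  rw [volume_inner_eq hbdL, volume_inner_eq hbdM, volume_inner_eq h.pc.bdd]
  have habs : ∀ x, 0 ≤ x → x ≤ ρ / 2 → |x| ≤ ρ / 2 := fun x h1 h2 => by
    rwa [abs_of_nonneg h1]
  have hcm_mono : MonotoneOn (cm g r) (Icc 0 (ρ / 2)) := fun x hx y hy hxy =>
    hC.cm_mono (habs x hx.1 hx.2) (habs y hy.1 hy.2) hxy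
  have hsm_mono : MonotoneOn (sm g r) (Icc 0 (ρ / 2)) := fun x hx y hy hxy =>
    hC.sm_mono (habs x hx.1 hx.2) (habs y hy.1 hy.2) hxy
  have hi1 : IntervalIntegrable (fun x => φ (cm g r x)) volume 0 (ρ / 2) :=
    intervalIntegrable_comp_mono (by linarith) hcm_mono hφc (M := Δ) (fun X => by
      rw [abs_of_nonneg (hφ0 X)]; exact hφΔ X)
  have hi2 : IntervalIntegrable (sm g r) volume 0 (ρ / 2) := by
    apply MonotoneOn.intervalIntegrable
    rwa [uIcc_of_le (by linarith)]
  -- the integral of the density
  have hj1 := integral_shift_diff (A := A) (B := B) (a := a) hi1 (by linarith) hAB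
    (by rw [hB]; linarith) ha
  have hj2 := integral_shift_diff (A := A) (B := B) (a := a) hi2 (by linarith) hAB
    (by rw [hB]; linarith) ha
  have hp1 : ∫ x in (B - a)..(B + a), φ (cm g r x) = 2 * a * Δ := by
    have : ∫ x in (B - a)..(B + a), φ (cm g r x) = ∫ x in (B - a)..(B + a), Δ := by
      apply intervalIntegral.integral_congr
      intro x hx
      rw [uIcc_of_le (by linarith)] at hx
      apply hpl
      · exact hC.cm_mono (habs _ (by linarith) (by linarith)) (habs _ (by linarith [hx.1])
          (by linarith [hx.2])) (by linarith [hx.1])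
      · exact hC.cm_mono (habs _ (by linarith [hx.1]) (by linarith [hx.2])) (habs _ (by linarith)
          (by linarith)) (by linarith [hx.2])
    rw [this, intervalIntegral.integral_const, smul_eq_mul]; ring
  have hp2 : ∫ x in (A - a)..(A + a), φ (cm g r x) = 0 := by
    have : ∫ x in (A - a)..(A + a), φ (cm g r x) = ∫ x in (A - a)..(A + a), (0:ℝ) := by
      apply intervalIntegral.integral_congr
      intro x hx
      rw [uIcc_of_le (by linarith)] at hx
      apply hz1
      exact hC.cm_mono (habs _ (by linarith [hx.1]) (by linarith [hx.2])) hx1b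
        (by linarith [hx.2])
    rw [this]; simp
  have hp3 : ∫ x in (B - a)..(B + a), sm g r x ≤ 2 * a * sm g r B₂ := by
    have h1 : ∫ x in (B - a)..(B + a), sm g r x ≤ ∫ x in (B - a)..(B + a), sm g r B₂ := by
      apply intervalIntegral.integral_mono_on (by linarith)
      · refine hi2.mono_set ?_
        rw [uIcc_of_le (show (0:ℝ) ≤ ρ / 2 by linarith)]
        exact uIcc_subset_Icc ⟨by linarith, by linarith⟩ ⟨by linarith, by linarith⟩
      · exact intervalIntegrable_const
      · intro x hx
        exact hC.sm_mono (habs _ (by linarith [hx.1]) (by linarith [hx.2])) (habs _ (by linarith)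
          (by linarith)) (by linarith [hx.2])
    refine h1.trans (le_of_eq ?_)
    rw [intervalIntegral.integral_const, smul_eq_mul]; ring
  have hp4 : 2 * a * sm g r 0 ≤ ∫ x in (A - a)..(A + a), sm g r x := by
    have h1 : ∫ x in (A - a)..(A + a), sm g r 0 ≤ ∫ x in (A - a)..(A + a), sm g r x := by
      apply intervalIntegral.integral_mono_on (by linarith)
      · exact intervalIntegrable_const
      · refine hi2.mono_set ?_
        rw [uIcc_of_le (show (0:ℝ) ≤ ρ / 2 by linarith)]
        exact uIcc_subset_Icc ⟨by linarith, by linarith⟩ ⟨by linarith, by linarith⟩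
      · intro x hx
        exact hC.sm_mono (habs _ le_rfl (by linarith)) (habs _ (by linarith [hx.1])
          (by linarith [hx.2])) (by linarith [hx.1])
    refine le_trans (le_of_eq ?_) h1
    rw [intervalIntegral.integral_const, smul_eq_mul]; ring
  have k1 : IntervalIntegrable (fun x => φ (cm g r (x + a)) - φ (cm g r (x - a))) volume A B := by
    have m1 : IntervalIntegrable (fun x => φ (cm g r x)) volume (A + a) (B + a) :=
      hi1.mono_set (by
        rw [uIcc_of_le (show (0:ℝ) ≤ ρ / 2 by linarith)]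
        exact uIcc_subset_Icc ⟨by linarith, by linarith⟩ ⟨by linarith, by linarith⟩)
    have m2 : IntervalIntegrable (fun x => φ (cm g r x)) volume (A - a) (B - a) :=
      hi1.mono_set (by
        rw [uIcc_of_le (show (0:ℝ) ≤ ρ / 2 by linarith)]
        exact uIcc_subset_Icc ⟨by linarith, by linarith⟩ ⟨by linarith, by linarith⟩)
    have m3 := m1.comp_add_right a
    have m4 := m2.comp_sub_right a
    simp only [add_sub_cancel_right, sub_add_cancel] at m3 m4
    exact m3.sub m4
  have k2 : IntervalIntegrable (fun x => sm g r (x + a) - sm g r (x - a)) volume A B := by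
    have m1 : IntervalIntegrable (sm g r) volume (A + a) (B + a) :=
      hi2.mono_set (by
        rw [uIcc_of_le (show (0:ℝ) ≤ ρ / 2 by linarith)]
        exact uIcc_subset_Icc ⟨by linarith, by linarith⟩ ⟨by linarith, by linarith⟩)
    have m2 : IntervalIntegrable (sm g r) volume (A - a) (B - a) :=
      hi2.mono_set (by
        rw [uIcc_of_le (show (0:ℝ) ≤ ρ / 2 by linarith)]
        exact uIcc_subset_Icc ⟨by linarith, by linarith⟩ ⟨by linarith, by linarith⟩)
    have m3 := m1.comp_add_right a
    have m4 := m2.comp_sub_right a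
    simp only [add_sub_cancel_right, sub_add_cancel] at m3 m4
    exact m3.sub m4
  have hdi : IntervalIntegrable (dens g φ r L t a) volume A B := by
    unfold dens
    exact ((k1.const_mul t).sub (k2.const_mul a)).sub intervalIntegrable_const
  have hint : 2 * a * t * Δ - a ^ 2 * (2 * (sm g r B₂ - sm g r 0) + 2 * C2 r L * B₂) ≤
      ∫ x in A..B, dens g φ r L t a x := by
    have e1 : ∫ x in A..B, dens g φ r L t a x =
        t * (∫ x in A..B, (φ (cm g r (x + a)) - φ (cm g r (x - a)))) -
        a * (∫ x in A..B, (sm g r (x + a) - sm g r (x - a))) - 2 * C2 r L * a ^ 2 * (B - A) := by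
      unfold dens
      rw [intervalIntegral.integral_sub ((k1.const_mul t).sub (k2.const_mul a))
        intervalIntegrable_const, intervalIntegral.integral_sub (k1.const_mul t) (k2.const_mul a),
        intervalIntegral.integral_const_mul, intervalIntegral.integral_const_mul,
        intervalIntegral.integral_const, smul_eq_mul]
      ring
    rw [e1, hj1, hj2, hp1, hp2]
    have e2 : a * ((∫ x in (B - a)..(B + a), sm g r x) - ∫ x in (A - a)..(A + a), sm g r x) ≤
        a * (2 * a * sm g r B₂ - 2 * a * sm g r 0) :=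
      mul_le_mul_of_nonneg_left (by linarith) ha
    have e3 : 2 * C2 r L * a ^ 2 * (B - A) ≤ 2 * C2 r L * a ^ 2 * B₂ := by
      have hC2 := C2_pos (L := L) hr
      apply mul_le_mul_of_nonneg_left _ (by positivity)
      rw [hB]; linarith
    nlinarith
  -- conclusion
  have hm : Measurable fun x => volume (Sl (setM Ω φ t) r x) := measurable_volume_Sl hbdM
  have hmL : Measurable fun x => volume (Sl (setL Ω φ t) r x) := measurable_volume_Sl hbdL
  have hsum : Measurable fun x => volume (Sl (setL Ω φ t) r x) +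
    volume (Sl (setM Ω φ t) r x) := hmL.add hm
  have hofReal : ENNReal.ofReal (∫ x in A..B, dens g φ r L t a x) ≤
      ∫⁻ x in Ioc A B, ENNReal.ofReal (dens g φ r L t a x) := by
    rw [intervalIntegral.integral_of_le hAB]
    have e1 : ∫ x in Ioc A B, dens g φ r L t a x ≤ ∫ x in Ioc A B, max (dens g φ r L t a x) 0 :=
      integral_mono hdi.1 (hdi.1.pos_part) fun x => le_max_left _ _
    refine (ENNReal.ofReal_le_ofReal e1).trans (le_of_eq ?_)
    rw [ofReal_integral_eq_lintegral_ofReal hdi.1.pos_part
      (Eventually.of_forall fun x => le_max_right _ _)]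
    refine lintegral_congr fun x => ?_
    rw [ENNReal.ofReal_max, ENNReal.ofReal_zero, max_eq_left (by exact bot_le)]
  calc (∫⁻ x, volume (Sl (setL Ω φ t) r x)) + (∫⁻ x, volume (Sl (setM Ω φ t) r x)) +
        ENNReal.ofReal (2 * a * t * Δ -
          a ^ 2 * (2 * (sm g r B₂ - sm g r 0) + 2 * C2 r L * B₂))
      ≤ (∫⁻ x, volume (Sl (setL Ω φ t) r x)) + (∫⁻ x, volume (Sl (setM Ω φ t) r x)) +
        ∫⁻ x in Ioc A B, ENNReal.ofReal (dens g φ r L t a x) := by
        gcongr
        exact (ENNReal.ofReal_le_ofReal hint).trans hofReal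
    _ ≤ ∫⁻ x, 2 * volume (Sl Ω r x) := by
        rw [← lintegral_indicator measurableSet_Ioc, ← lintegral_add_left hmL,
          ← lintegral_add_left hsum]
        refine lintegral_mono fun x => ?_
        by_cases hx : x ∈ Ioc A B
        · rw [indicator_of_mem hx]
          exact h.slice_sum_dens hC ht hφ0 hφΔ htΔ hx1b hx8b hz1 hz8 ha haa
            (habs _ (by linarith [hx.1]) (by linarith [hx.2]))
            (habs _ (by linarith [hx.1]) (by linarith [hx.2]))
        · rw [indicator_of_notMem hx, add_zero]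
          exact h.slice_sum_le_all hC ht hφ0 hφΔ htΔ hx1b hx8b hz1 hz8 x
    _ = 2 * ∫⁻ x, volume (Sl Ω r x) := by
        rw [lintegral_const_mul' _ _ (by norm_num)]

end Frame

end Pool.MP70c477
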