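import Pool.Agent.MP70c477.KLRLower

/-!
# The Cheeger radius and its second order behaviour
-/

namespace Pool.MP70c477

open MeasureTheory Set Filter Topology Bornology
open scoped ENNReal NNReal RealInnerProductSpace

lemma exists_split {x y : Pl} {s e : ℝ} (hs : 0 < s) (he : 0 < e) (h : dist y x < s + e) :
    ∃ z, dist z x < e ∧ dist y z < s := by
  refine ⟨x + (e / (s + e)) • (y - x), ?_, ?_⟩
  · rw [dist_eq_norm, add_sub_cancel_left, norm_smul, Real.norm_of_nonneg (by positivity),
      ← dist_eq_norm, div_mul_eq_mul_div, div_lt_iff₀ (by positivity)]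
    exact mul_lt_mul_of_pos_left (by linarith) he
  · have : y - (x + (e / (s + e)) • (y - x)) = (s / (s + e)) • (y - x) := by
      have h1 : s / (s + e) = 1 - e / (s + e) := by field_simp; ring
      rw [h1, sub_smul, one_smul]; abel
    rw [dist_eq_norm, this, norm_smul, Real.norm_of_nonneg (by positivity),
      ← dist_eq_norm, div_mul_eq_mul_div, div_lt_iff₀ (by positivity)]
    exact mul_lt_mul_of_pos_left h hs

lemma inner_inner_subset {A B : Set Pl} {s e : ℝ} (hs : 0 < s) (he : 0 < e)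
    (hB : B ⊆ inner A s) : inner B e ⊆ inner A (s + e) := by
  intro x hx y hy
  rw [Metric.mem_ball] at hy
  obtain ⟨z, hz1, hz2⟩ := exists_split hs he hy
  exact hB (hx (Metric.mem_ball.2 hz1)) (Metric.mem_ball.2 hz2)

lemma subset_inner_inner {A : Set Pl} {s e : ℝ} {x : Pl} (hx : x ∈ inner A (s + e)) :
    x ∈ inner (inner A s) e := by
  intro z hz y hy
  apply hx
  rw [Metric.mem_ball] at *
  calc dist y x ≤ dist y z + dist z x := dist_triangle _ _ _
    _ < s + e := by linarith

/-- (P2) for inner parallel sets -/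
lemma volume_inner_le {Ω : Set Pl} (hΩ : IsPlanarConvex Ω) {s e : ℝ} (hs : 0 < s) (he : 0 < e) :
    volume (inner Ω s) ≤ volume (inner Ω (s + e)) + ENNReal.ofReal (e * per (inner Ω s)) := by
  have hc : Convex ℝ (inner Ω s) := convex_inner hΩ.convex s
  have hb : IsBounded (inner Ω s) := hΩ.bdd.subset (inner_subset hs)
  have hA : IsOpen (interior (inner Ω s)) := isOpen_interior
  have hAb : IsBounded (interior (inner Ω s)) := hb.subset interior_subset
  have h1 := volume_le_inner_add hA hAb hc.interior he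
  have h2 : volume (inner Ω s) ≤ volume (interior (inner Ω s)) := by
    have h3 : inner Ω s ⊆ interior (inner Ω s) ∪ frontier (inner Ω s) := by
      intro x hx
      by_cases h : x ∈ interior (inner Ω s)
      · left; exact h
      · right; exact ⟨subset_closure hx, h⟩
    refine (measure_mono h3).trans ((measure_union_le _ _).trans ?_)
    rw [hc.addHaar_frontier volume, add_zero]
  refine h2.trans (h1.trans ?_)
  gcongr
  · exact inner_inner_subset hs he interior_subset
  · exact per_mono interior_subset hb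

/-- (P1) for inner parallel sets -/
lemma volume_inner_ge {Ω : Set Pl} (hΩ : IsPlanarConvex Ω) {s e : ℝ} (hs : 0 < s) (he : 0 < e)
    (hne : (inner Ω (s + e)).Nonempty) :
    volume (inner Ω (s + e)) +
      ENNReal.ofReal (e * per (inner Ω (s + e)) + Real.pi * e ^ 2) ≤ volume (inner Ω s) := by
  have hK : IsCompact (inner Ω (s + e)) := isCompact_inner hΩ.bdd (by linarith)
  refine (volume_thickening_ge hne hK (convex_inner hΩ.convex _) he).trans
    (measure_mono ?_)
  intro z hz
  rw [Metric.mem_thickening_iff] at hz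
  obtain ⟨x, hx, hzx⟩ := hz
  exact subset_inner_inner hx (Metric.mem_ball.2 hzx)

/-- area of the inner parallel set -/
noncomputable def marea (Ω : Set Pl) (s : ℝ) : ℝ := (volume (inner Ω s)).toReal

lemma volume_inner_ne_top {Ω : Set Pl} (hb : IsBounded Ω) {s : ℝ} (hs : 0 < s) :
    volume (inner Ω s) ≠ ⊤ := (isCompact_inner hb hs).measure_lt_top.ne

lemma marea_nonneg (Ω : Set Pl) (s : ℝ) : 0 ≤ marea Ω s := ENNReal.toReal_nonneg

lemma marea_le {Ω : Set Pl} (hΩ : IsPlanarConvex Ω) {s e : ℝ} (hs : 0 < s) (he : 0 ≤ e) :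
    marea Ω s ≤ marea Ω (s + e) + e * per (inner Ω s) := by
  rcases he.eq_or_lt with rfl | he
  · simp
  have h := volume_inner_le hΩ hs he
  have hp := per_nonneg (inner Ω s)
  have h2 := ENNReal.toReal_mono (ENNReal.add_ne_top.2
    ⟨volume_inner_ne_top hΩ.bdd (by linarith), ENNReal.ofReal_ne_top⟩) h
  rwa [ENNReal.toReal_add (volume_inner_ne_top hΩ.bdd (by linarith)) ENNReal.ofReal_ne_top,
    ENNReal.toReal_ofReal (by positivity)] at h2

lemma marea_ge {Ω : Set Pl} (hΩ : IsPlanarConvex Ω) {s e : ℝ} (hs : 0 < s) (he : 0 ≤ e)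
    (hne : (inner Ω (s + e)).Nonempty) :
    marea Ω (s + e) + e * per (inner Ω (s + e)) + Real.pi * e ^ 2 ≤ marea Ω s := by
  rcases he.eq_or_lt with rfl | he
  · simp
  have h := volume_inner_ge hΩ hs he hne
  have hp := per_nonneg (inner Ω (s + e))
  have h2 := ENNReal.toReal_mono (volume_inner_ne_top hΩ.bdd hs) h
  rw [ENNReal.toReal_add (volume_inner_ne_top hΩ.bdd (by linarith)) ENNReal.ofReal_ne_top,
    ENNReal.toReal_ofReal (by positivity)] at h2
  unfold marea
  linarith

lemma marea_mono {A B : Set Pl} (h : A ⊆ B) (hB : IsBounded B) {s : ℝ} (hs : 0 < s) :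
    marea A s ≤ marea B s :=
  ENNReal.toReal_mono (volume_inner_ne_top hB hs) (measure_mono (inner_mono h s))

lemma marea_anti {Ω : Set Pl} (hb : IsBounded Ω) {s t : ℝ} (hs : 0 < s) (h : s ≤ t) :
    marea Ω t ≤ marea Ω s :=
  ENNReal.toReal_mono (volume_inner_ne_top hb hs) (measure_mono (inner_anti h))

/-! ### The Cheeger radius -/

lemma cheeger_pos {Ω : Set Pl} (hΩ : IsPlanarConvex Ω) : 0 < cheeger Ω := by
  have hfin : volume Ω ≠ ⊤ := hΩ.bdd.measure_lt_top.ne
  set V := (volume Ω).toReal with hV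
  have hV0 : 0 ≤ V := ENNReal.toReal_nonneg
  have hr : 0 < V + 1 := by linarith
  have h1 : volume (inner Ω (V + 1)) ≤ ENNReal.ofReal (Real.pi * (V + 1) ^ 2) := by
    calc volume (inner Ω (V + 1)) ≤ volume Ω := measure_mono (inner_subset hr)
      _ = ENNReal.ofReal V := (ENNReal.ofReal_toReal hfin).symm
      _ ≤ _ := by
        apply ENNReal.ofReal_le_ofReal
        nlinarith [Real.pi_gt_three]
  have h2 := one_le_cheeger_mul hΩ hr h1
  by_contra hcon
  rw [not_lt] at hcon
  nlinarith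

/-- the Cheeger radius `1/h(Ω)` -/
noncomputable def rad (Ω : Set Pl) : ℝ := 1 / cheeger Ω

lemma rad_pos {Ω : Set Pl} (hΩ : IsPlanarConvex Ω) : 0 < rad Ω :=
  one_div_pos.2 (cheeger_pos hΩ)

lemma cheeger_mul_rad {Ω : Set Pl} (hΩ : IsPlanarConvex Ω) : cheeger Ω * rad Ω = 1 := by
  have := cheeger_pos hΩ
  rw [rad]; field_simp

/-- **(KLR)** The Cheeger radius `r` satisfies `|Ω_{-r}| = π r²`. -/
theorem marea_rad {Ω : Set Pl} (hΩ : IsPlanarConvex Ω) :
    marea Ω (rad Ω) = Real.pi * rad Ω ^ 2 := by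
  set r := rad Ω with hr
  have hr0 : 0 < r := rad_pos hΩ
  have hcr := cheeger_mul_rad hΩ
  rw [← hr] at hcr
  have hc0 := cheeger_pos hΩ
  apply le_antisymm
  · by_contra hcon
    rw [not_le] at hcon
    -- `marea r > π r²`, hence also slightly beyond
    have hcont : Tendsto (fun e : ℝ => Real.pi * (r + e) ^ 2 + e * per (inner Ω r)) (𝓝[>] 0)
        (𝓝 (Real.pi * r ^ 2)) := by
      have : Continuous fun e : ℝ => Real.pi * (r + e) ^ 2 + e * per (inner Ω r) := by fun_prop
      have h2 := this.tendsto 0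
      simp only [add_zero, zero_mul] at h2
      exact h2.mono_left nhdsWithin_le_nhds
    have hev := hcont.eventually (gt_mem_nhds hcon)
    obtain ⟨e, he1, he2⟩ := (hev.and self_mem_nhdsWithin).exists
    have he0 : 0 < e := he2
    have h3 := marea_le hΩ hr0 he0.le
    have h4 : Real.pi * (r + e) ^ 2 ≤ marea Ω (r + e) := by linarith
    have h5 := cheeger_le_of_inner hΩ (r := r + e) (by linarith) h4
    nlinarith
  · by_contra hcon
    rw [not_le] at hcon
    have hcont : Tendsto (fun e : ℝ => marea Ω r + e * per Ω - Real.pi * (r - e) ^ 2) (𝓝[>] 0)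
        (𝓝 (marea Ω r - Real.pi * r ^ 2)) := by
      have : Continuous fun e : ℝ => marea Ω r + e * per Ω - Real.pi * (r - e) ^ 2 := by fun_prop
      have h2 := this.tendsto 0
      simp only [add_zero, zero_mul, sub_zero] at h2
      exact h2.mono_left nhdsWithin_le_nhds
    have hev := hcont.eventually (gt_mem_nhds (show marea Ω r - Real.pi * r ^ 2 < 0 by linarith))
    obtain ⟨e, he1, he2⟩ := (hev.and (Ioo_mem_nhdsGT hr0)).exists
    have h3 := marea_le hΩ (s := r - e) (e := e) (by linarith [he2.2]) he2.1.le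
    rw [sub_add_cancel] at h3
    have h4 : per (inner Ω (r - e)) ≤ per Ω :=
      per_mono (inner_subset (by linarith [he2.2])) hΩ.bdd
    have h5 : e * per (inner Ω (r - e)) ≤ e * per Ω := mul_le_mul_of_nonneg_left h4 he2.1.le
    have h6 : marea Ω (r - e) ≤ Real.pi * (r - e) ^ 2 := by linarith
    have h7 : volume (inner Ω (r - e)) ≤ ENNReal.ofReal (Real.pi * (r - e) ^ 2) := by
      rw [← ENNReal.ofReal_toReal (volume_inner_ne_top hΩ.bdd (by linarith [he2.2]))]
      exact ENNReal.ofReal_le_ofReal h6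
    have h8 := one_le_cheeger_mul hΩ (r := r - e) (by linarith [he2.2]) h7
    nlinarith [he2.1]

lemma cheeger_anti {A B : Set Pl} (hA : IsPlanarConvex A) (h : A ⊆ B) :
    cheeger B ≤ cheeger A := by
  obtain ⟨u, hu⟩ := exists_isTest hA.isOpen hA.nonempty
  refine csInf_le_csInf (cheeger_bddBelow B) ⟨_, u, hu, rfl⟩ ?_
  rintro q ⟨v, hv, rfl⟩
  exact ⟨v, ⟨hv.1, hv.2.1, hv.2.2.1.trans h, hv.2.2.2⟩, rfl⟩

lemma rad_mono {A B : Set Pl} (hA : IsPlanarConvex A) (hB : IsPlanarConvex B) (h : A ⊆ B) :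
    rad A ≤ rad B :=
  one_div_le_one_div_of_le (cheeger_pos hB) (cheeger_anti hA h)

/-- If `|Ω_{-r}| ≤ π r²` then `rad Ω ≤ r`. -/
lemma rad_le {Ω : Set Pl} (hΩ : IsPlanarConvex Ω) {r : ℝ} (hr : 0 < r)
    (h : marea Ω r ≤ Real.pi * r ^ 2) : rad Ω ≤ r := by
  have h1 : volume (inner Ω r) ≤ ENNReal.ofReal (Real.pi * r ^ 2) := by
    rw [← ENNReal.ofReal_toReal (volume_inner_ne_top hΩ.bdd hr)]
    exact ENNReal.ofReal_le_ofReal h
  have h2 := one_le_cheeger_mul hΩ hr h1
  rw [rad, div_le_iff₀ (cheeger_pos hΩ)]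
  linarith

/-- contraction towards an interior point -/
lemma contract_inner {Ω : Set Pl} (hc : Convex ℝ Ω) {o z : Pl} {R s c : ℝ}
    (hR : Metric.ball o R ⊆ Ω) (hs : 0 < s) (hR0 : 0 < R) (hc0 : 0 ≤ c) (hc1 : c ≤ 1)
    (hz : z ∈ inner Ω s) : o + (1 - c) • (z - o) ∈ inner Ω ((1 - c) * s + c * R) := by
  intro y hy
  rw [Metric.mem_ball, dist_eq_norm] at hy
  set w := y - (o + (1 - c) • (z - o)) with hw
  set T := (1 - c) * s + c * R with hT
  have hT0 : 0 < T := by
    rcases hc0.eq_or_lt with rfl | h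
    · rw [hT]; simpa using hs
    · have : 0 ≤ (1 - c) * s := mul_nonneg (by linarith) hs.le
      have : 0 < c * R := by positivity
      linarith
  have h1 : z + (s / T) • w ∈ Ω := hz (by
    rw [Metric.mem_ball, dist_eq_norm, add_sub_cancel_left, norm_smul,
      Real.norm_of_nonneg (by positivity), div_mul_eq_mul_div, div_lt_iff₀ hT0]
    exact mul_lt_mul_of_pos_left hy hs)
  have h2 : o + (R / T) • w ∈ Ω := hR (by
    rw [Metric.mem_ball, dist_eq_norm, add_sub_cancel_left, norm_smul,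
      Real.norm_of_nonneg (by positivity), div_mul_eq_mul_div, div_lt_iff₀ hT0]
    exact mul_lt_mul_of_pos_left hy hR0)
  have h3 := hc h1 h2 (by linarith : 0 ≤ 1 - c) hc0 (by ring)
  have h4 : (1 - c) • (z + (s / T) • w) + c • (o + (R / T) • w) = y := by
    have h5 : (1 - c) * (s / T) + c * (R / T) = 1 := by
      field_simp; rw [hT]
    have h6 : (1 - c) • (z + (s / T) • w) + c • (o + (R / T) • w) =
        (1 - c) • z + c • o + ((1 - c) * (s / T) + c * (R / T)) • w := by
      simp only [smul_add, smul_smul, add_smul]; abel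
    rw [h6, h5, one_smul, hw]
    simp only [smul_sub, sub_smul, one_smul]; abel
  rwa [h4] at h3

/-- **Second order bound.** If `Ω` is optimal, two-sided convex perturbations `L ⊆ Ω ⊆ M` of
size `e` cannot decrease the sum of the areas of the inner parallel sets more than the
eigenvalues increase. -/
theorem second_order_bound {Ω : Set Pl} (hΩ : IsPlanarConvex Ω) (hlam : 0 < lam Ω)
    (hopt : ∀ Ω', IsPlanarConvex Ω' → lam Ω / cheeger Ω ^ 2 ≤ lam Ω' / cheeger Ω' ^ 2)
    {o : Pl} {ρ : ℝ} (hρ : 0 < ρ) (ho : Metric.ball o ρ ⊆ inner Ω (rad Ω)) :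
    ∃ e₀ > 0, ∃ C ≥ 0, ∀ e, 0 < e → e ≤ e₀ → ∀ L M : Set Pl, IsPlanarConvex L →
      IsPlanarConvex M → L ⊆ Ω → Ω ⊆ M → inner Ω e ⊆ L → ∀ G B : ℝ, 0 ≤ B → 0 ≤ G →
      marea L (rad Ω) + marea M (rad Ω) ≤ 2 * marea Ω (rad Ω) - G →
      lam L + lam M ≤ 2 * lam Ω + B * e ^ 2 → G ≤ e ^ 2 * (C * (1 + B)) := by
  set r := rad Ω with hr
  have hr0 : 0 < r := rad_pos hΩ
  set P := per (inner Ω r) with hP
  have hP0 : 0 ≤ P := per_nonneg _
  set p := 2 * Real.pi * r + P with hp
  have hp0 : 0 < p := by positivity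
  set Ch := 2 * (P / ρ) * (P / (Real.pi * r)) ^ 2 with hCh
  have hCh0 : 0 ≤ Ch := by positivity
  have hballΩ : Metric.ball o (r + ρ) ⊆ Ω := by
    intro y hy
    rw [Metric.mem_ball] at hy
    obtain ⟨z, hz1, hz2⟩ := exists_split hr0 hρ hy
    exact ho (Metric.mem_ball.2 hz1) (Metric.mem_ball.2 hz2)
  refine ⟨ρ * Real.pi * r / (P + 1), by positivity, Ch + p * r / (2 * lam Ω), by positivity, ?_⟩
  intro e he hee L M hL hM hLΩ hΩM hinn G B hB hG hG1 hlamLM
  set rL := rad L with hrL
  set rM := rad M with hrM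
  have hrL0 : 0 < rL := rad_pos hL
  have hrM0 : 0 < rM := rad_pos hM
  have hLr : rL ≤ r := rad_mono hL hΩ hLΩ
  have hrMr : r ≤ rM := rad_mono hΩ hM hΩM
  have hmΩ : marea Ω r = Real.pi * r ^ 2 := marea_rad hΩ
  have hmL : marea L rL = Real.pi * rL ^ 2 := marea_rad hL
  have hmM : marea M rM = Real.pi * rM ^ 2 := marea_rad hM
  set x := rM - r with hx
  set y := r - rL with hy
  have hx0 : 0 ≤ x := by linarith
  have hy0 : 0 ≤ y := by linarith
  set δ := marea Ω r - marea L r with hδ
  -- `δ ≤ e P`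
  have hδe : δ ≤ e * P := by
    have h1 := marea_le hΩ hr0 he.le
    have h2 : marea Ω (r + e) ≤ marea L r := by
      refine ENNReal.toReal_mono (volume_inner_ne_top hL.bdd hr0) (measure_mono ?_)
      intro z hz
      rw [add_comm] at hz
      exact inner_mono hinn r (subset_inner_inner hz)
    linarith
  have hδ0 : 0 ≤ δ := by
    have := marea_mono hLΩ hΩ.bdd hr0
    linarith
  have hMδ : marea M r - marea Ω r ≤ δ - G := by linarith
  -- bound for `x`
  have hxM : x * (2 * Real.pi * r) + x * per (inner M rM) ≤ marea M r - marea Ω r := by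
    have hne : (inner M (r + x)).Nonempty := by
      by_contra h
      rw [not_nonempty_iff_eq_empty] at h
      have h1 : marea M rM = 0 := by
        rw [show rM = r + x by linarith, marea, h]; simp
      rw [hmM] at h1
      have : 0 < Real.pi * rM ^ 2 := by positivity
      linarith
    have h2 := marea_ge hM hr0 hx0 hne
    rw [show r + x = rM by linarith, hmM] at h2
    rw [hmΩ]
    have h3 : Real.pi * rM ^ 2 = Real.pi * r ^ 2 + x * (2 * Real.pi * r) + Real.pi * x ^ 2 := by
      rw [show rM = r + x by linarith]; ring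
    have h4 : 0 ≤ Real.pi * x ^ 2 := by positivity
    linarith
  have hxb : x * (2 * Real.pi * r) ≤ δ := by
    have : 0 ≤ x * per (inner M rM) := mul_nonneg hx0 (per_nonneg _)
    linarith
  -- bound for `y`
  have hyb : y * (Real.pi * r) ≤ δ := by
    have h1 := marea_anti hL.bdd hrL0 hLr
    rw [hmL] at h1
    have h2 : Real.pi * rL ^ 2 = Real.pi * r ^ 2 - y * (2 * Real.pi * r) + Real.pi * y ^ 2 := by
      rw [show rL = r - y by linarith]; ring
    have h3 : Real.pi * y ^ 2 ≤ Real.pi * (r * y) := by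
      apply mul_le_mul_of_nonneg_left _ Real.pi_pos.le
      nlinarith
    rw [hδ, hmΩ]
    nlinarith
  have hxρ : x < ρ := by
    have h1 : x * (2 * Real.pi * r) ≤ e * P := hxb.trans hδe
    have h2 : e * P ≤ ρ * Real.pi * r / (P + 1) * P := mul_le_mul_of_nonneg_right hee hP0
    have h3 : ρ * Real.pi * r / (P + 1) * P ≤ ρ * Real.pi * r := by
      rw [div_mul_eq_mul_div, div_le_iff₀ (by positivity)]
      have : 0 ≤ ρ * Real.pi * r := by positivity
      nlinarith
    have h4 : x * (2 * (Real.pi * r)) ≤ ρ * (Real.pi * r) := by nlinarith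
    have h5 : 0 < Real.pi * r := by positivity
    nlinarith
  -- perimeter comparisons
  have hperM : (1 - x / ρ) * P ≤ per (inner M rM) := by
    have hc0 : 0 ≤ x / ρ := by positivity
    have hc1 : x / ρ < 1 := by rw [div_lt_one hρ]; exact hxρ
    have h1 : ∀ z ∈ inner Ω r, o + (1 - x / ρ) • (z - o) ∈ inner M rM := by
      intro z hz
      have h2 := contract_inner hΩ.convex hballΩ hr0 (by positivity) hc0 hc1.le hz
      have h3 : (1 - x / ρ) * r + x / ρ * (r + ρ) = rM := by
        field_simp; rw [show rM = r + x by linarith]; ring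
      rw [h3] at h2
      exact inner_mono hΩM _ h2
    have hbM : IsBounded (inner M rM) := hM.bdd.subset (inner_subset hrM0)
    have h4 := per_le_of_wid (A := inner Ω r) (B := inner M rM)
      (hΩ.bdd.subset (inner_subset hr0)) hbM (c := 1 - x / ρ) (d := 0) (fun θ => by
        rw [add_zero]; exact wid_homothety (by linarith) hbM h1 θ)
    linarith
  have hperL : per (inner L rL) ≤ (1 + y / ρ) * P := by
    have hc0 : 0 ≤ y / (ρ + y) := by positivity
    have hc1 : y / (ρ + y) < 1 := by rw [div_lt_one (by positivity)]; linarith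
    have h1 : ∀ z ∈ inner L rL, o + (1 - y / (ρ + y)) • (z - o) ∈ inner Ω r := by
      intro z hz
      have h2 := contract_inner hΩ.convex hballΩ hrL0 (by positivity) hc0 hc1.le
        (inner_mono hLΩ _ hz)
      have h3 : (1 - y / (ρ + y)) * rL + y / (ρ + y) * (r + ρ) = r := by
        have : ρ + y ≠ 0 := by positivity
        field_simp; rw [show rL = r - y by linarith]; ring
      rwa [h3] at h2
    have hbΩ : IsBounded (inner Ω r) := hΩ.bdd.subset (inner_subset hr0)
    have h4 := per_le_of_wid (A := inner L rL) (B := inner Ω r)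
      (hL.bdd.subset (inner_subset hrL0)) hbΩ (c := 1 - y / (ρ + y)) (d := 0) (fun θ => by
        rw [add_zero]; exact wid_homothety (by linarith) hbΩ h1 θ)
    have h5 : 1 - y / (ρ + y) = ρ / (ρ + y) := by
      have : ρ + y ≠ 0 := by positivity
      field_simp; ring
    rw [h5, mul_zero, add_zero, div_mul_eq_mul_div, div_le_iff₀ (by positivity)] at h4
    have h6 : (1 + y / ρ) * P = P * (ρ + y) / ρ := by field_simp
    rw [h6, le_div_iff₀ hρ]
    linarith
  -- second order inequalities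
  have hineqM : x * p - (P / ρ) * x ^ 2 ≤ δ - G := by
    have h1 : x * ((1 - x / ρ) * P) ≤ x * per (inner M rM) :=
      mul_le_mul_of_nonneg_left hperM hx0
    have h2 : x * ((1 - x / ρ) * P) = x * P - (P / ρ) * x ^ 2 := by field_simp
    rw [hp]
    linarith
  have hineqL : δ ≤ y * p + (P / ρ) * y ^ 2 := by
    have h1 := marea_le hL hrL0 hy0
    rw [show rL + y = r by linarith, hmL] at h1
    have h2 : Real.pi * rL ^ 2 = Real.pi * r ^ 2 - y * (2 * Real.pi * r) + Real.pi * y ^ 2 := by
      rw [show rL = r - y by linarith]; ring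
    have h3 : y * per (inner L rL) ≤ y * ((1 + y / ρ) * P) :=
      mul_le_mul_of_nonneg_left hperL hy0
    have h4 : y * ((1 + y / ρ) * P) = y * P + (P / ρ) * y ^ 2 := by field_simp
    have h5 : 0 ≤ Real.pi * y ^ 2 := by positivity
    rw [hp, hδ, hmΩ]
    linarith
  have hπr : 0 < Real.pi * r := by positivity
  have hx2 : x ≤ e * (P / (Real.pi * r)) := by
    have h1 : x * (Real.pi * r) ≤ e * P := by nlinarith
    rw [← mul_div_assoc, le_div_iff₀ hπr]; exact h1
  have hy2 : y ≤ e * (P / (Real.pi * r)) := by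
    rw [← mul_div_assoc, le_div_iff₀ hπr]; linarith
  have hsq : (P / ρ) * x ^ 2 + (P / ρ) * y ^ 2 ≤ Ch * e ^ 2 := by
    have h1 : x ^ 2 ≤ (e * (P / (Real.pi * r))) ^ 2 := by gcongr
    have h2 : y ^ 2 ≤ (e * (P / (Real.pi * r))) ^ 2 := by gcongr
    have h3 : 0 ≤ P / ρ := by positivity
    calc (P / ρ) * x ^ 2 + (P / ρ) * y ^ 2
        ≤ (P / ρ) * (e * (P / (Real.pi * r))) ^ 2 + (P / ρ) * (e * (P / (Real.pi * r))) ^ 2 := by
          gcongr
      _ = Ch * e ^ 2 := by rw [hCh]; ring
  have hmain : G - Ch * e ^ 2 ≤ (y - x) * p := by linarith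
  -- the eigenvalue side
  have hcL := cheeger_pos hL
  have hcM := cheeger_pos hM
  have hcΩ := cheeger_pos hΩ
  have hquot : ∀ A : Set Pl, IsPlanarConvex A → lam A / cheeger A ^ 2 = lam A * rad A ^ 2 := by
    intro A hA
    rw [rad]; have := cheeger_pos hA; field_simp
  have h1 := hopt L hL
  have h2 := hopt M hM
  rw [hquot Ω hΩ, hquot L hL, ← hr, ← hrL] at h1
  rw [hquot Ω hΩ, hquot M hM, ← hr, ← hrM] at h2
  set s := B * e ^ 2 / (2 * lam Ω) with hs
  have hs0 : 0 ≤ s := by positivity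
  have hlamL : 0 < lam L := by
    have : 0 < lam Ω * r ^ 2 := by positivity
    have h3 : 0 < lam L * rL ^ 2 := lt_of_lt_of_le this h1
    exact (mul_pos_iff_of_pos_right (by positivity : 0 < rL ^ 2)).1 h3
  have hlamM : 0 < lam M := by
    have : 0 < lam Ω * r ^ 2 := by positivity
    have h3 : 0 < lam M * rM ^ 2 := lt_of_lt_of_le this h2
    exact (mul_pos_iff_of_pos_right (by positivity : 0 < rM ^ 2)).1 h3
  have h3 : lam L + lam M ≤ 2 * (lam Ω * (1 + s)) := by
    have : 2 * (lam Ω * (1 + s)) = 2 * lam Ω + B * e ^ 2 := by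
      rw [hs]; field_simp
    linarith
  have h4 : lam L * lam M ≤ (lam Ω * (1 + s)) ^ 2 := by
    nlinarith [sq_nonneg (lam L - lam M)]
  have h5 : (lam Ω * r ^ 2) * (lam Ω * r ^ 2) ≤ (lam L * rL ^ 2) * (lam M * rM ^ 2) :=
    mul_le_mul h1 h2 (by positivity) (by positivity)
  have h6 : (lam Ω * r ^ 2) ^ 2 ≤ (lam Ω * ((1 + s) * (rL * rM))) ^ 2 := by
    calc (lam Ω * r ^ 2) ^ 2 = (lam Ω * r ^ 2) * (lam Ω * r ^ 2) := by ring
      _ ≤ (lam L * rL ^ 2) * (lam M * rM ^ 2) := h5
      _ = (lam L * lam M) * (rL * rM) ^ 2 := by ring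
      _ ≤ (lam Ω * (1 + s)) ^ 2 * (rL * rM) ^ 2 := by gcongr
      _ = _ := by ring
  have h7 : lam Ω * r ^ 2 ≤ lam Ω * ((1 + s) * (rL * rM)) :=
    le_of_sq_le_sq h6 (by positivity)
  have h8 : r ^ 2 ≤ (1 + s) * (rL * rM) := le_of_mul_le_mul_left h7 hlam
  have h9 : rL * rM ≤ r ^ 2 - r * (y - x) := by
    have : rL * rM = r ^ 2 - r * (y - x) - x * y := by
      rw [show rL = r - y by linarith, show rM = r + x by linarith]; ring
    have h10 : 0 ≤ x * y := by positivity
    linarith
  have h10 : y - x ≤ s * r := by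
    have h11 : r ^ 2 ≤ (1 + s) * (r ^ 2 - r * (y - x)) :=
      h8.trans (mul_le_mul_of_nonneg_left h9 (by linarith))
    have h12 : (1 + s) * (r * (y - x)) ≤ s * r ^ 2 := by
      have e1 : (1 + s) * (r ^ 2 - r * (y - x)) =
          r ^ 2 + s * r ^ 2 - (1 + s) * (r * (y - x)) := by ring
      rw [e1] at h11
      linarith
    rcases le_total (y - x) 0 with h | h
    · exact h.trans (by positivity)
    · have h13 : r * (y - x) ≤ (1 + s) * (r * (y - x)) := by
        have e1 : 0 ≤ s * (r * (y - x)) := mul_nonneg hs0 (mul_nonneg hr0.le h)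
        have e2 : (1 + s) * (r * (y - x)) = r * (y - x) + s * (r * (y - x)) := by ring
        linarith
      have h14 : r * (y - x) ≤ r * (s * r) := by
        have e3 : r * (s * r) = s * r ^ 2 := by ring
        linarith
      exact le_of_mul_le_mul_left h14 hr0
  have h11 : (y - x) * p ≤ s * r * p := mul_le_mul_of_nonneg_right h10 hp0.le
  have h12 : s * r * p = e ^ 2 * (p * r / (2 * lam Ω) * B) := by rw [hs]; field_simp
  have h13 : G ≤ e ^ 2 * (Ch + p * r / (2 * lam Ω) * B) := by
    have e1 : e ^ 2 * (Ch + p * r / (2 * lam Ω) * B) =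
        Ch * e ^ 2 + e ^ 2 * (p * r / (2 * lam Ω) * B) := by ring
    rw [e1]; linarith
  refine h13.trans ?_
  apply mul_le_mul_of_nonneg_left _ (by positivity)
  have h14 : 0 ≤ p * r / (2 * lam Ω) := by positivity
  have e1 : (Ch + p * r / (2 * lam Ω)) * (1 + B) =
      Ch + p * r / (2 * lam Ω) * B + (Ch * B + p * r / (2 * lam Ω)) := by ring
  have e2 := mul_nonneg hCh0 hB
  rw [e1]; linarith

end Pool.MP70c477
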