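import Pool.Agent.MP70c477.Defs

/-!
# Bounded open finite intersections of half-planes are polygons
-/

namespace Pool.MP70c477

open MeasureTheory Set

private lemma closure_eq {Om : Set Pl} (h : IsPlanarConvex Om) (F : Finset (Pl × ℝ))
    (hF : Om = {x | ∀ q ∈ F, inner ℝ q.1 x < q.2}) :
    closure Om = {x | ∀ q ∈ F, inner ℝ q.1 x ≤ q.2} := by
  apply Subset.antisymm
  · apply closure_minimal
    · intro x hx q hq
      rw [hF] at hx
      exact (hx q hq).le
    · have : {x : Pl | ∀ q ∈ F, inner ℝ q.1 x ≤ q.2} = ⋂ q ∈ F, {x : Pl | inner ℝ q.1 x ≤ q.2} := by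
        ext x; simp
      rw [this]
      refine isClosed_biInter fun q _ => isClosed_le ?_ continuous_const
      exact (innerSL ℝ q.1).continuous
  · intro x hx
    obtain ⟨x0, hx0⟩ := h.nonempty
    have hmem : ∀ s : ℝ, s ∈ Ioo (0 : ℝ) 1 → x + s • (x0 - x) ∈ Om := by
      intro s hs
      rw [hF]
      intro q hq
      have h1 := hx q hq
      have h2 : inner ℝ q.1 x0 < q.2 := by rw [hF] at hx0; exact hx0 q hq
      rw [inner_add_right, inner_smul_right, inner_sub_right]
      nlinarith [hs.1, hs.2]
    have hlim : Filter.Tendsto (fun s : ℝ => x + s • (x0 - x)) (nhdsWithin 0 (Ioi 0)) (nhds x) := by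
      have hc : Continuous fun s : ℝ => x + s • (x0 - x) := by fun_prop
      have := hc.tendsto 0
      simp only [zero_smul, add_zero] at this
      exact this.mono_left nhdsWithin_le_nhds
    refine mem_closure_of_tendsto hlim ?_
    filter_upwards [Ioo_mem_nhdsGT (zero_lt_one (α := ℝ))] with s hs
    exact hmem s hs

private lemma finite_extreme (F : Finset (Pl × ℝ)) :
    (extremePoints ℝ {x : Pl | ∀ q ∈ F, inner ℝ q.1 x ≤ q.2}).Finite := by
  classical
  set C : Set Pl := {x : Pl | ∀ q ∈ F, inner ℝ q.1 x ≤ q.2} with hC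
  refine Set.Finite.of_injOn (f := fun e : Pl => F.filter fun q => inner ℝ q.1 e = q.2)
    (t := (F.powerset : Set (Finset (Pl × ℝ)))) ?_ ?_ (Finset.finite_toSet _)
  · intro e _
    simp only [Finset.coe_powerset, mem_preimage, mem_powerset_iff]
    intro q hq
    exact (Finset.mem_filter.mp hq).1
  · intro e he e' he' hee
    by_contra hne
    simp only at hee
    have heC := he.1
    have heC' := he'.1
    -- small motion
    have key : ∀ q ∈ F, ∃ ε > 0, ∀ s : ℝ, |s| ≤ ε → inner ℝ q.1 (e + s • (e - e')) ≤ q.2 := by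
      intro q hq
      by_cases hact : inner ℝ q.1 e = q.2
      · have : q ∈ F.filter fun q => inner ℝ q.1 e = q.2 := by simp [hq, hact]
        rw [hee] at this
        have hact' := (Finset.mem_filter.mp this).2
        refine ⟨1, one_pos, fun s _ => ?_⟩
        rw [inner_add_right, inner_smul_right, inner_sub_right, hact, hact']
        simp
      · have hlt : inner ℝ q.1 e < q.2 := lt_of_le_of_ne (heC q hq) hact
        refine ⟨(q.2 - inner ℝ q.1 e) / (|inner ℝ q.1 (e - e')| + 1), by
          have := sub_pos.mpr hlt; positivity, fun s hs => ?_⟩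
        rw [inner_add_right, inner_smul_right]
        have h1 : s * inner ℝ q.1 (e - e') ≤ |s| * |inner ℝ q.1 (e - e')| := by
          rw [← abs_mul]; exact le_abs_self _
        have h2 : |s| * (|inner ℝ q.1 (e - e')| + 1) ≤ q.2 - inner ℝ q.1 e := by
          rwa [← le_div_iff₀ (by positivity)]
        nlinarith [abs_nonneg s]
    choose! ε hε hmove using key
    obtain ⟨δ, hδ, hδε⟩ : ∃ δ > 0, ∀ q ∈ F, δ ≤ ε q := by
      rcases F.eq_empty_or_nonempty with hF | hF
      · exact ⟨1, one_pos, by simp [hF]⟩
      · refine ⟨F.inf' hF ε, ?_, fun q hq => Finset.inf'_le _ hq⟩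
        rw [gt_iff_lt, Finset.lt_inf'_iff]
        exact fun q hq => hε q hq
    have hp : e + δ • (e - e') ∈ C := fun q hq =>
      hmove q hq δ (by rw [abs_of_pos hδ]; exact hδε q hq)
    have hm : e + (-δ) • (e - e') ∈ C := fun q hq =>
      hmove q hq (-δ) (by rw [abs_neg, abs_of_pos hδ]; exact hδε q hq)
    have hseg : e ∈ openSegment ℝ (e + δ • (e - e')) (e + (-δ) • (e - e')) := by
      refine ⟨1 / 2, 1 / 2, by norm_num, by norm_num, by norm_num, ?_⟩
      module
    have := he.2 hp hm hseg
    have h0 : δ • (e - e') = 0 := by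
      have h1 : e + δ • (e - e') = e := this
      simpa using h1
    rcases smul_eq_zero.mp h0 with h1 | h1
    · exact hδ.ne' h1
    · exact hne (sub_eq_zero.mp h1)

/-- A planar convex set that is a finite intersection of open half-planes is a polygon. -/
theorem isPolygon_of_halfspaces {Om : Set Pl} (h : IsPlanarConvex Om) (F : Finset (Pl × ℝ))
    (hF : Om = {x | ∀ q ∈ F, inner ℝ q.1 x < q.2}) : IsPolygon Om := by
  have hcl := closure_eq h F hF
  have hfin : (extremePoints ℝ (closure Om)).Finite := by
    rw [hcl]; exact finite_extreme F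
  have hcomp : IsCompact (closure Om) := h.bdd.isCompact_closure
  have hconv : Convex ℝ (closure Om) := h.convex.closure
  have hKM := closure_convexHull_extremePoints hcomp hconv
  have hcl2 : convexHull ℝ (extremePoints ℝ (closure Om)) = closure Om := by
    rw [← hKM, hKM]
    rw [(hfin.isClosed_convexHull ℝ).closure_eq] at hKM
    exact hKM
  refine ⟨hfin.toFinset, ?_⟩
  rw [Set.Finite.coe_toFinset, hcl2,
    h.convex.interior_closure_eq_interior_of_nonempty_interior
      (by rw [h.isOpen.interior_eq]; exact h.nonempty), h.isOpen.interior_eq]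

end Pool.MP70c477
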