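import Pool.Agent.MP70c477.HSide

/-!
# Invariance under isometries
-/

namespace Pool.MP70c477

open MeasureTheory Set Filter Topology Bornology
open scoped ENNReal NNReal RealInnerProductSpace ContDiff

/-- the isometry `x ↦ R x + c` -/
noncomputable def isoMap (R : Pl ≃ₗᵢ[ℝ] Pl) (c : Pl) : Pl → Pl := fun x => R x + c

/-- its inverse -/
noncomputable def isoInv (R : Pl ≃ₗᵢ[ℝ] Pl) (c : Pl) : Pl → Pl := fun y => R.symm (y - c)

@[simp] lemma isoInv_isoMap (R : Pl ≃ₗᵢ[ℝ] Pl) (c x : Pl) : isoInv R c (isoMap R c x) = x := by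
  simp [isoInv, isoMap]

@[simp] lemma isoMap_isoInv (R : Pl ≃ₗᵢ[ℝ] Pl) (c x : Pl) : isoMap R c (isoInv R c x) = x := by
  simp [isoInv, isoMap]

lemma isoInv_eq (R : Pl ≃ₗᵢ[ℝ] Pl) (c : Pl) : isoInv R c = isoMap R.symm (-(R.symm c)) := by
  ext y : 1
  simp [isoInv, isoMap, sub_eq_add_neg]

lemma isoMap_eq_inv (R : Pl ≃ₗᵢ[ℝ] Pl) (c : Pl) :
    isoMap R c = isoInv R.symm (-(R.symm c)) := by
  ext y : 1
  simp [isoInv, isoMap]

lemma image_isoMap (R : Pl ≃ₗᵢ[ℝ] Pl) (c : Pl) (S : Set Pl) :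
    isoMap R c '' S = isoInv R c ⁻¹' S := by
  ext y
  constructor
  · rintro ⟨x, hx, rfl⟩; simpa using hx
  · intro hy; exact ⟨isoInv R c y, hy, by simp⟩

lemma dist_isoMap (R : Pl ≃ₗᵢ[ℝ] Pl) (c x y : Pl) :
    dist (isoMap R c x) (isoMap R c y) = dist x y := by
  simp [isoMap]

lemma dist_isoInv (R : Pl ≃ₗᵢ[ℝ] Pl) (c x y : Pl) :
    dist (isoInv R c x) (isoInv R c y) = dist x y := by
  simp [isoInv]

lemma continuous_isoMap (R : Pl ≃ₗᵢ[ℝ] Pl) (c : Pl) : Continuous (isoMap R c) := by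
  unfold isoMap
  exact R.continuous.add continuous_const

lemma continuous_isoInv (R : Pl ≃ₗᵢ[ℝ] Pl) (c : Pl) : Continuous (isoInv R c) := by
  rw [isoInv_eq]; exact continuous_isoMap _ _

lemma measurePreserving_isoMap (R : Pl ≃ₗᵢ[ℝ] Pl) (c : Pl) :
    MeasurePreserving (isoMap R c) := by
  have h1 : MeasurePreserving (R : Pl → Pl) := R.measurePreserving
  have h2 : MeasurePreserving (fun x : Pl => x + c) := measurePreserving_add_right volume c
  exact h2.comp h1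

lemma measurePreserving_isoInv (R : Pl ≃ₗᵢ[ℝ] Pl) (c : Pl) :
    MeasurePreserving (isoInv R c) := by
  rw [isoInv_eq]; exact measurePreserving_isoMap _ _

/-- as a measurable equivalence -/
noncomputable def isoEquiv (R : Pl ≃ₗᵢ[ℝ] Pl) (c : Pl) : Pl ≃ᵐ Pl where
  toFun := isoMap R c
  invFun := isoInv R c
  left_inv := isoInv_isoMap R c
  right_inv := isoMap_isoInv R c
  measurable_toFun := (continuous_isoMap R c).measurable
  measurable_invFun := (continuous_isoInv R c).measurable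

lemma integral_comp_isoInv (R : Pl ≃ₗᵢ[ℝ] Pl) (c : Pl) (f : Pl → ℝ) :
    ∫ x, f (isoInv R c x) = ∫ x, f x := by
  have h : MeasurePreserving (isoEquiv R c).symm := measurePreserving_isoInv R c
  exact h.integral_comp' (g := f)

lemma norm_fderiv_comp_isoInv (R : Pl ≃ₗᵢ[ℝ] Pl) (c : Pl) {u : Pl → ℝ}
    (hu : Differentiable ℝ u) (x : Pl) :
    ‖fderiv ℝ (fun y => u (isoInv R c y)) x‖ = ‖fderiv ℝ u (isoInv R c x)‖ := by
  have h1 : HasFDerivAt (isoInv R c) (R.symm.toContinuousLinearEquiv : Pl →L[ℝ] Pl) x := by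
    have := (R.symm.toContinuousLinearEquiv : Pl →L[ℝ] Pl).hasFDerivAt (x := x - c)
    have h2 : HasFDerivAt (fun y : Pl => y - c) (ContinuousLinearMap.id ℝ Pl) x :=
      (hasFDerivAt_id x).sub_const c
    have h3 := this.comp x h2
    rw [ContinuousLinearMap.comp_id] at h3
    exact h3
  have h4 := ((hu (isoInv R c x)).hasFDerivAt.comp x h1).fderiv
  have h5 : (fun y => u (isoInv R c y)) = u ∘ isoInv R c := rfl
  rw [h5, h4]
  exact ContinuousLinearMap.opNorm_comp_linearIsometryEquiv _ R.symm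

lemma isTest_comp {R : Pl ≃ₗᵢ[ℝ] Pl} {c : Pl} {Ω : Set Pl} {u : Pl → ℝ} (hu : IsTest Ω u) :
    IsTest (isoMap R c '' Ω) (fun y => u (isoInv R c y)) := by
  have hemb : IsClosedEmbedding (isoInv R c) := by
    have hi : Isometry (isoInv R c) := Isometry.of_dist_eq (dist_isoInv R c)
    exact hi.isClosedEmbedding
  refine ⟨?_, hu.2.1.comp_isClosedEmbedding hemb, ?_, ?_⟩
  · have : ContDiff ℝ ∞ (isoInv R c) := by
      unfold isoInv
      exact R.symm.toContinuousLinearEquiv.contDiff.comp (contDiff_id.sub contDiff_const)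
    exact hu.1.comp this
  · have h1 : tsupport (fun y => u (isoInv R c y)) ⊆ isoInv R c ⁻¹' tsupport u := by
      refine closure_minimal ?_ ((isClosed_tsupport u).preimage (continuous_isoInv R c))
      intro y hy
      exact subset_tsupport _ hy
    rw [image_isoMap]
    exact h1.trans (preimage_mono hu.2.2.1)
  · intro h0
    apply hu.2.2.2
    funext x
    have := congrFun h0 (isoMap R c x)
    simpa using this

lemma lam_image_le (R : Pl ≃ₗᵢ[ℝ] Pl) (c : Pl) {Ω : Set Pl} (hΩ : IsPlanarConvex Ω) :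
    lam (isoMap R c '' Ω) ≤ lam Ω := by
  obtain ⟨u, hu⟩ := exists_isTest hΩ.isOpen hΩ.nonempty
  refine csInf_le_csInf ?_ ⟨_, u, hu, rfl⟩ ?_
  · refine ⟨0, ?_⟩
    rintro q ⟨v, _, rfl⟩
    exact div_nonneg (integral_nonneg fun _ => by positivity)
      (integral_nonneg fun _ => by positivity)
  · rintro q ⟨v, hv, rfl⟩
    refine ⟨fun y => v (isoInv R c y), isTest_comp hv, ?_⟩
    have hd : Differentiable ℝ v := hv.1.differentiable (by simp)
    simp only [norm_fderiv_comp_isoInv R c hd]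
    rw [integral_comp_isoInv R c (fun x => ‖fderiv ℝ v x‖ ^ 2),
      integral_comp_isoInv R c (fun x => v x ^ 2)]

lemma cheeger_image_le (R : Pl ≃ₗᵢ[ℝ] Pl) (c : Pl) {Ω : Set Pl} (hΩ : IsPlanarConvex Ω) :
    cheeger (isoMap R c '' Ω) ≤ cheeger Ω := by
  obtain ⟨u, hu⟩ := exists_isTest hΩ.isOpen hΩ.nonempty
  refine csInf_le_csInf (cheeger_bddBelow _) ⟨_, u, hu, rfl⟩ ?_
  rintro q ⟨v, hv, rfl⟩
  refine ⟨fun y => v (isoInv R c y), isTest_comp hv, ?_⟩
  have hd : Differentiable ℝ v := hv.1.differentiable (by simp)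
  simp only [norm_fderiv_comp_isoInv R c hd]
  rw [integral_comp_isoInv R c (fun x => ‖fderiv ℝ v x‖),
    integral_comp_isoInv R c (fun x => |v x|)]

lemma isPlanarConvex_image (R : Pl ≃ₗᵢ[ℝ] Pl) (c : Pl) {Ω : Set Pl} (hΩ : IsPlanarConvex Ω) :
    IsPlanarConvex (isoMap R c '' Ω) where
  nonempty := hΩ.nonempty.image _
  isOpen := by
    rw [image_isoMap]; exact hΩ.isOpen.preimage (continuous_isoInv R c)
  bdd := by
    have : LipschitzWith 1 (isoMap R c) :=
      LipschitzWith.of_dist_le_mul fun x y => by rw [dist_isoMap]; simp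
    exact this.isBounded_image hΩ.bdd
  convex := by
    rintro _ ⟨x, hx, rfl⟩ _ ⟨y, hy, rfl⟩ a b ha hb hab
    refine ⟨a • x + b • y, hΩ.convex hx hy ha hb hab, ?_⟩
    simp only [isoMap, map_add, map_smul, smul_add]
    have : c = a • c + b • c := by rw [← add_smul, hab, one_smul]
    nth_rw 1 [this]
    abel

lemma image_symm_image (R : Pl ≃ₗᵢ[ℝ] Pl) (c : Pl) (S : Set Pl) :
    isoMap R.symm (-(R.symm c)) '' (isoMap R c '' S) = S := by
  rw [← isoInv_eq, image_image]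
  simp

theorem lam_image (R : Pl ≃ₗᵢ[ℝ] Pl) (c : Pl) {Ω : Set Pl} (hΩ : IsPlanarConvex Ω) :
    lam (isoMap R c '' Ω) = lam Ω := by
  apply le_antisymm (lam_image_le R c hΩ)
  have h := lam_image_le R.symm (-(R.symm c)) (isPlanarConvex_image R c hΩ)
  rwa [image_symm_image] at h

theorem cheeger_image (R : Pl ≃ₗᵢ[ℝ] Pl) (c : Pl) {Ω : Set Pl} (hΩ : IsPlanarConvex Ω) :
    cheeger (isoMap R c '' Ω) = cheeger Ω := by
  apply le_antisymm (cheeger_image_le R c hΩ)
  have h := cheeger_image_le R.symm (-(R.symm c)) (isPlanarConvex_image R c hΩ)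
  rwa [image_symm_image] at h

lemma mem_inner_image (R : Pl ≃ₗᵢ[ℝ] Pl) (c : Pl) {Ω : Set Pl} {s : ℝ} {x : Pl} :
    isoMap R c x ∈ inner (isoMap R c '' Ω) s ↔ x ∈ inner Ω s := by
  constructor
  · intro h y hy
    have h1 : isoMap R c y ∈ isoMap R c '' Ω := h (by rw [Metric.mem_ball, dist_isoMap]; exact hy)
    rw [image_isoMap, mem_preimage, isoInv_isoMap] at h1
    exact h1
  · intro h y hy
    rw [image_isoMap, mem_preimage]
    apply h
    rw [Metric.mem_ball] at hy ⊢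
    rw [← dist_isoMap R c, isoMap_isoInv]
    exact hy

lemma inner_image (R : Pl ≃ₗᵢ[ℝ] Pl) (c : Pl) (Ω : Set Pl) (s : ℝ) :
    inner (isoMap R c '' Ω) s = isoMap R c '' inner Ω s := by
  ext y
  rw [image_isoMap R c (inner Ω s), mem_preimage,
    ← mem_inner_image R c (x := isoInv R c y), isoMap_isoInv]

/-- optimality in quantified form -/
def Opt (Ω : Set Pl) : Prop :=
  ∀ Ω', IsPlanarConvex Ω' → lam Ω / cheeger Ω ^ 2 ≤ lam Ω' / cheeger Ω' ^ 2

lemma opt_image (R : Pl ≃ₗᵢ[ℝ] Pl) (c : Pl) {Ω : Set Pl} (hΩ : IsPlanarConvex Ω)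
    (h : Opt Ω) : Opt (isoMap R c '' Ω) := by
  intro Ω' hΩ'
  rw [lam_image R c hΩ, cheeger_image R c hΩ]
  exact h Ω' hΩ'

lemma lam_nonneg (Ω : Set Pl) : 0 ≤ lam Ω :=
  Real.sInf_nonneg (by
    rintro q ⟨u, _, rfl⟩
    exact div_nonneg (integral_nonneg fun _ => by positivity)
      (integral_nonneg fun _ => by positivity))

lemma opt_of_isOptimal {Ω : Set Pl} (h : IsOptimal Ω) : Opt Ω := by
  intro Ω' hΩ'
  rw [h.2]
  refine csInf_le ⟨0, ?_⟩ ⟨Ω', hΩ', rfl⟩
  rintro q ⟨A, _, rfl⟩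
  exact div_nonneg (lam_nonneg A) (sq_nonneg _)

lemma rad_image (R : Pl ≃ₗᵢ[ℝ] Pl) (c : Pl) {Ω : Set Pl} (hΩ : IsPlanarConvex Ω) :
    rad (isoMap R c '' Ω) = rad Ω := by
  rw [rad, rad, cheeger_image R c hΩ]

end Pool.MP70c477
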