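import Pool.Agent.MP70c477.MollLip

/-!
# The lower bound for the Cheeger constant
-/

namespace Pool.MP70c477

open MeasureTheory Set Filter Topology Bornology
open scoped ENNReal NNReal RealInnerProductSpace

/-! ### Convex subsets -/

lemma per_ge_of_inner {A : Set Pl} (hb : IsBounded A) {r : ℝ} (hne : (inner A r).Nonempty) :
    2 * Real.pi * r ≤ per A := by
  obtain ⟨c, hc⟩ := hne
  have h14 : ∀ θ, 2 * r ≤ wid A θ := fun θ => ball_wid hb (c := c) (ρ := r) hc θ
  have h15 := per_le_of_wid (A := ∅) (B := A) Bornology.isBounded_empty hb (c := 0)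
    (d := 2 * r) (fun θ => by simpa using h14 θ)
  linarith

/-- For convex `A ⊆ Ω` with `|Ω_{-r}| ≤ π r²`: `|A| ≤ r P(A)`. -/
lemma volume_le_mul_per {Ω A : Set Pl} (hΩ : IsBounded Ω) {r : ℝ} (hr : 0 < r)
    (h : volume (inner Ω r) ≤ ENNReal.ofReal (Real.pi * r ^ 2)) (hA : IsOpen A)
    (hc : Convex ℝ A) (hsub : A ⊆ Ω) : volume A ≤ ENNReal.ofReal (r * per A) := by
  have hb : IsBounded A := hΩ.subset hsub
  by_cases hne : (inner A r).Nonempty
  · have h1 := volume_le_inner_add' hA hb hc hr hne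
    have h2 : volume (inner A r) ≤ ENNReal.ofReal (Real.pi * r ^ 2) :=
      (measure_mono (inner_mono hsub r)).trans h
    have h3 := per_ge_of_inner hb hne
    refine h1.trans ((add_le_add_left h2 _).trans (le_of_eq ?_))
    have h4 : 0 ≤ r * per A - Real.pi * r ^ 2 := by
      have h5 : r * (2 * Real.pi * r) ≤ r * per A := mul_le_mul_of_nonneg_left h3 hr.le
      have h6 : 0 ≤ Real.pi * r ^ 2 := by positivity
      nlinarith
    rw [← ENNReal.ofReal_add (by positivity) h4]
    congr 1; ring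
  · rw [not_nonempty_iff_eq_empty] at hne
    have h1 := volume_le_inner_add hA hb hc hr
    rw [hne, measure_empty, zero_add] at h1
    exact h1

/-! ### Projections of open sets -/

/-- the set of lines (in the `(θ, p)` plane) meeting `U` -/
def lines (U : Set Pl) : Set (ℝ × ℝ) := ⋃ τ : ℝ, {q | lin q.1 q.2 τ ∈ U}

lemma isOpen_lines {U : Set Pl} (hU : IsOpen U) : IsOpen (lines U) := by
  refine isOpen_iUnion fun τ => ?_
  have : Continuous fun q : ℝ × ℝ => lin q.1 q.2 τ :=
    continuous_lin.comp (continuous_fst.prodMk (continuous_snd.prodMk continuous_const))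
  exact hU.preimage this

lemma mem_lines {U : Set Pl} {θ p : ℝ} : (θ, p) ∈ lines U ↔ p ∈ proj θ U := by
  simp only [lines, mem_iUnion, mem_ofPred_eq, proj, mem_image]
  constructor
  · rintro ⟨τ, h⟩
    exact ⟨_, h, by simp⟩
  · rintro ⟨x, hx, rfl⟩
    exact ⟨⟪x, dirE θ⟫, by rwa [lin_of_inner]⟩

lemma lines_mono {U V : Set Pl} (h : U ⊆ V) : lines U ⊆ lines V := by
  rintro ⟨θ, p⟩ hq
  rw [mem_lines] at hq ⊢
  exact proj_mono h hq

/-- the measure on the space of lines -/
noncomputable def lmu : Measure (ℝ × ℝ) :=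
  ((volume : Measure ℝ).restrict (Ioc 0 (2 * Real.pi))).prod volume

lemma lmu_lines {U : Set Pl} (hU : IsOpen U) :
    lmu (lines U) = ∫⁻ θ in Ioc 0 (2 * Real.pi), volume (proj θ U) := by
  rw [lmu, Measure.prod_apply (isOpen_lines hU).measurableSet]
  refine lintegral_congr fun θ => ?_
  congr 1
  ext p
  exact mem_lines

/-- For a connected open set the measure of the lines meeting it is at least twice its
perimeter. -/
lemma lmu_lines_ge {U : Set Pl} (hU : IsOpen U) (hb : IsBounded U) (hc : IsConnected U) :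
    ENNReal.ofReal (2 * per U) ≤ lmu (lines U) := by
  rw [lmu_lines hU]
  have h1 := lintegral_ofReal_wid hb (c := 1) (d := 0)
    (fun θ => by have := wid_nonneg U θ; linarith)
  have h2 : ENNReal.ofReal (2 * per U) =
      ∫⁻ θ in Ioc 0 (2 * Real.pi), ENNReal.ofReal (1 * wid U θ + 0) := by
    rw [h1]; congr 1; ring
  rw [h2]
  refine lintegral_mono fun θ => ?_
  have h3 : IsConnected (proj θ U) := hc.image _ (by fun_prop)
  have hbp := isBounded_proj (θ := θ) hb
  have h4 := h3.Ioo_csInf_csSup_subset hbp.bddBelow hbp.bddAbove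
  calc ENNReal.ofReal (1 * wid U θ + 0) = volume (Ioo (sInf (proj θ U)) (sSup (proj θ U))) := by
        rw [Real.volume_Ioo, wid_eq hb]; congr 1; ring
    _ ≤ volume (proj θ U) := measure_mono h4

lemma wid_convexHull {A : Set Pl} (hb : IsBounded A) (θ : ℝ) :
    wid (convexHull ℝ A) θ ≤ wid A θ := by
  have hlin : IsLinearMap ℝ (fun x : Pl => ⟪x, dirN θ⟫) :=
    ⟨fun x y => inner_add_left _ _ _, fun c x => by simp [inner_smul_left]⟩
  refine wid_le (wid_nonneg A θ) fun x hx y hy => ?_
  have hx2 : ⟪x, dirN θ⟫ ≤ sSup (proj θ A) := by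
    have hsub : A ⊆ {z : Pl | ⟪z, dirN θ⟫ ≤ sSup (proj θ A)} := fun z hz =>
      le_csSup (isBounded_proj hb).bddAbove (mem_image_of_mem _ hz)
    exact convexHull_min hsub (convex_halfSpace_le hlin _) hx
  have hy2 : sInf (proj θ A) ≤ ⟪y, dirN θ⟫ := by
    have hsub : A ⊆ {z : Pl | sInf (proj θ A) ≤ ⟪z, dirN θ⟫} := fun z hz =>
      csInf_le (isBounded_proj hb).bddBelow (mem_image_of_mem _ hz)
    exact convexHull_min hsub (convex_halfSpace_ge hlin _) hy
  rw [wid_eq hb]; linarith

lemma per_convexHull {A : Set Pl} (hb : IsBounded A) : per (convexHull ℝ A) ≤ per A := by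
  have hb' : IsBounded (convexHull ℝ A) := isBounded_convexHull.2 hb
  have := per_le_of_wid hb' hb (c := 1) (d := 0) (fun θ => by
    have := wid_convexHull hb θ; linarith)
  linarith

/-- the key inequality for connected open subsets -/
lemma volume_le_lmu {Ω U : Set Pl} (hΩ : IsPlanarConvex Ω) {r : ℝ} (hr : 0 < r)
    (h : volume (inner Ω r) ≤ ENNReal.ofReal (Real.pi * r ^ 2)) (hU : IsOpen U)
    (hc : IsConnected U) (hsub : U ⊆ Ω) :
    2 * volume U ≤ ENNReal.ofReal r * lmu (lines U) := by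
  have hb : IsBounded U := hΩ.bdd.subset hsub
  have h1 : convexHull ℝ U ⊆ Ω := convexHull_min hsub hΩ.convex
  have h2 := volume_le_mul_per hΩ.bdd hr h hU.convexHull (convex_convexHull ℝ U) h1
  calc 2 * volume U ≤ 2 * volume (convexHull ℝ U) := by
        gcongr; exact subset_convexHull ℝ U
    _ ≤ 2 * ENNReal.ofReal (r * per (convexHull ℝ U)) := by gcongr
    _ ≤ 2 * ENNReal.ofReal (r * per U) := by
        gcongr; exact per_convexHull hb
    _ = ENNReal.ofReal r * ENNReal.ofReal (2 * per U) := by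
        rw [← ENNReal.ofReal_mul hr.le, show (2 : ℝ≥0∞) = ENNReal.ofReal 2 by norm_num,
          ← ENNReal.ofReal_mul (by norm_num)]
        congr 1; ring
    _ ≤ _ := by gcongr; exact lmu_lines_ge hU hb hc

/-! ### Slab functions on components -/

/-- the slab function `min((u - t)_+, d)` restricted to `D` -/
noncomputable def slab (u : Pl → ℝ) (t d : ℝ) (D : Set Pl) : Pl → ℝ :=
  D.indicator fun x => max 0 (min (u x - t) d)

lemma slab_nonneg (u : Pl → ℝ) (t d : ℝ) (D : Set Pl) (x : Pl) : 0 ≤ slab u t d D x :=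
  indicator_nonneg (fun _ _ => le_max_left _ _) x

lemma slab_le (u : Pl → ℝ) (t : ℝ) {d : ℝ} (hd : 0 ≤ d) (D : Set Pl) (x : Pl) :
    slab u t d D x ≤ d := by
  unfold slab
  by_cases hx : x ∈ D
  · rw [indicator_of_mem hx]; exact max_le hd (min_le_right _ _)
  · rw [indicator_of_notMem hx]; exact hd

/-- `D` behaves like a union of components of `{u > t}`: any connected subset of `{u > t}`
meeting `D` is contained in `D`. -/
def IsComp (u : Pl → ℝ) (t : ℝ) (D : Set Pl) : Prop :=
  IsOpen D ∧ D ⊆ {x | t < u x} ∧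
    ∀ x ∈ D, ∀ y, segment ℝ x y ⊆ {x | t < u x} → y ∈ D

lemma slab_lipschitz {u : Pl → ℝ} {C : ℝ≥0} (hu : LipschitzWith C u) {t : ℝ} (d : ℝ)
    {D : Set Pl} (hD : IsComp u t D) : LipschitzWith C (slab u t d D) := by
  have hw : LipschitzWith C fun x => max 0 (min (u x - t) d) := by
    have h1 : LipschitzWith C fun x => u x - t := by
      refine LipschitzWith.of_dist_le_mul fun x y => ?_
      rw [dist_sub_right]; exact hu.dist_le_mul x y
    exact (h1.min_const d).const_max 0
  have hside : ∀ x ∈ D, ∀ y ∉ D, slab u t d D x ≤ C * dist x y := by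
    intro x hx y hy
    have h1 : ¬ segment ℝ x y ⊆ {x | t < u x} := fun h => hy (hD.2.2 x hx y h)
    rw [not_subset] at h1
    obtain ⟨z, hz, hz2⟩ := h1
    simp only [mem_ofPred_eq, not_lt] at hz2
    have h2 : max 0 (min (u z - t) d) = 0 :=
      max_eq_left ((min_le_left _ _).trans (by linarith))
    have h3 := hw.dist_le_mul x z
    rw [Real.dist_eq, h2, sub_zero] at h3
    rw [slab, indicator_of_mem hx]
    refine (le_abs_self _).trans (h3.trans ?_)
    have h4 : dist x z ≤ dist x y := by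
      rw [segment_eq_image'] at hz
      obtain ⟨s, hs, rfl⟩ := hz
      rw [dist_eq_norm, dist_eq_norm]
      have : x - (x + s • (y - x)) = s • (x - y) := by
        rw [← neg_sub x y, smul_neg]; abel
      rw [this, norm_smul, Real.norm_of_nonneg hs.1]
      calc s * ‖x - y‖ ≤ 1 * ‖x - y‖ := mul_le_mul_of_nonneg_right hs.2 (norm_nonneg _)
        _ = _ := one_mul _
    gcongr
  refine LipschitzWith.of_dist_le_mul fun x y => ?_
  rw [Real.dist_eq]
  by_cases hx : x ∈ D <;> by_cases hy : y ∈ D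
  · have := hw.dist_le_mul x y
    rw [Real.dist_eq] at this
    simpa [slab, hx, hy] using this
  · have h1 := hside x hx y hy
    have h2 : slab u t d D y = 0 := indicator_of_notMem hy _
    rw [h2, sub_zero, abs_of_nonneg (slab_nonneg _ _ _ _ _)]
    exact h1
  · have h1 := hside y hy x hx
    have h2 : slab u t d D x = 0 := indicator_of_notMem hx _
    rw [h2, zero_sub, abs_neg, abs_of_nonneg (slab_nonneg _ _ _ _ _), dist_comm]
    exact h1
  · have h1 : slab u t d D x = 0 := indicator_of_notMem hx _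
    have h2 : slab u t d D y = 0 := indicator_of_notMem hy _
    rw [h1, h2]; simp; positivity

lemma slab_fderiv_le {u : Pl → ℝ} (hu : Continuous u) {t d : ℝ} (hd : 0 < d)
    {D : Set Pl} (hD : IsComp u t D) (x : Pl) :
    ‖fderiv ℝ (slab u t d D) x‖ₑ ≤
      (D ∩ {x | t < u x ∧ u x < t + d}).indicator (fun x => ‖fderiv ℝ u x‖ₑ) x := by
  by_cases h0 : slab u t d D x = 0
  · have : IsLocalMin (slab u t d D) x := Eventually.of_forall fun y => by
      rw [h0]; exact slab_nonneg _ _ _ _ _
    rw [this.fderiv_eq_zero, ← ofReal_norm, norm_zero, ENNReal.ofReal_zero]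
    exact bot_le
  by_cases h1 : slab u t d D x = d
  · have : IsLocalMax (slab u t d D) x := Eventually.of_forall fun y => by
      rw [h1]; exact slab_le _ _ hd.le _ _
    rw [this.fderiv_eq_zero, ← ofReal_norm, norm_zero, ENNReal.ofReal_zero]
    exact bot_le
  have hx : x ∈ D := by
    by_contra h; exact h0 (indicator_of_notMem h _)
  have hval : slab u t d D x = max 0 (min (u x - t) d) := indicator_of_mem hx _
  have h2 : t < u x := hD.2.1 hx
  have h3 : u x < t + d := by
    by_contra h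
    rw [not_lt] at h
    apply h1
    rw [hval, min_eq_right (by linarith), max_eq_right hd.le]
  have hev : slab u t d D =ᶠ[𝓝 x] fun y => u y - t := by
    have e1 : ∀ᶠ y in 𝓝 x, y ∈ D := hD.1.mem_nhds hx
    have e2 : ∀ᶠ y in 𝓝 x, u y < t + d := (isOpen_lt hu continuous_const).mem_nhds h3
    filter_upwards [e1, e2] with y hy hy2
    have h4 : t < u y := hD.2.1 hy
    rw [slab, indicator_of_mem hy, min_eq_left (by linarith), max_eq_right (by linarith)]
  rw [indicator_of_mem (show x ∈ D ∩ {x | t < u x ∧ u x < t + d} from ⟨hx, h2, h3⟩),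
    hev.fderiv_eq, fderiv_sub_const]

/-- Crofton for a slab function. -/
lemma slab_crofton {u : Pl → ℝ} {C : ℝ≥0} (hu : LipschitzWith C u) (hc : HasCompactSupport u)
    {t d : ℝ} (ht : 0 ≤ t) (hd : 0 < d) {D : Set Pl} (hD : IsComp u t D) :
    ENNReal.ofReal d * lmu (lines (D ∩ {x | t + d < u x})) ≤
      2 * ∫⁻ x in D ∩ {x | t < u x ∧ u x < t + d}, ‖fderiv ℝ u x‖ₑ := by
  have hU : IsOpen (D ∩ {x | t + d < u x}) :=
    hD.1.inter (isOpen_lt continuous_const hu.continuous)
  have hcs : HasCompactSupport (slab u t d D) := by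
    refine HasCompactSupport.intro hc.isCompact fun x hx => ?_
    have h1 : u x = 0 := image_eq_zero_of_notMem_tsupport hx
    have h2 : x ∉ D := fun h => by
      have := hD.2.1 h
      simp only [mem_ofPred_eq] at this
      linarith
    exact indicator_of_notMem h2 _
  have hmeas : MeasurableSet (D ∩ {x | t < u x ∧ u x < t + d}) :=
    hD.1.measurableSet.inter ((isOpen_lt continuous_const hu.continuous).inter
      (isOpen_lt hu.continuous continuous_const)).measurableSet
  have h1 := crofton_lower (slab_lipschitz hu d hD) hcs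
    (fun θ p => (lines (D ∩ {x | t + d < u x})).indicator (fun _ => ENNReal.ofReal d) (θ, p)) (by
      intro θ p hm
      have hmem : (θ, p) ∈ lines (D ∩ {x | t + d < u x}) := by
        by_contra h; exact hm (indicator_of_notMem h _)
      rw [indicator_of_mem hmem]
      rw [lines, mem_iUnion] at hmem
      obtain ⟨τ, hτ⟩ := hmem
      refine ⟨τ, ENNReal.ofReal_le_ofReal ?_⟩
      simp only [mem_ofPred_eq, mem_inter_iff] at hτ
      rw [slab, indicator_of_mem hτ.1, min_eq_right (by linarith [hτ.2])]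
      exact le_max_right _ _)
  have h2 : ∫⁻ θ in Ioc 0 (2 * Real.pi), ∫⁻ p,
      (lines (D ∩ {x | t + d < u x})).indicator (fun _ => ENNReal.ofReal d) (θ, p) =
      ENNReal.ofReal d * lmu (lines (D ∩ {x | t + d < u x})) := by
    rw [lmu_lines hU, ← lintegral_const_mul' _ _ ENNReal.ofReal_ne_top]
    refine lintegral_congr fun θ => ?_
    have h3 : ∀ p, (lines (D ∩ {x | t + d < u x})).indicator (fun _ => ENNReal.ofReal d) (θ, p) =
        (proj θ (D ∩ {x | t + d < u x})).indicator (fun _ => ENNReal.ofReal d) p := by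
      intro p
      by_cases hp : (θ, p) ∈ lines (D ∩ {x | t + d < u x})
      · rw [indicator_of_mem hp, indicator_of_mem (mem_lines.1 hp)]
      · rw [indicator_of_notMem hp, indicator_of_notMem (fun h => hp (mem_lines.2 h))]
    simp only [h3]
    have hm : MeasurableSet (proj θ (D ∩ {x | t + d < u x})) := by
      have : proj θ (D ∩ {x | t + d < u x}) =
          (fun p : ℝ => (θ, p)) ⁻¹' lines (D ∩ {x | t + d < u x}) := by
        ext p; exact mem_lines.symm
      rw [this]
      exact (isOpen_lines hU).measurableSet.preimage (measurable_const.prodMk measurable_id)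
    rw [lintegral_indicator hm, setLIntegral_const]
  rw [h2] at h1
  refine h1.trans ?_
  rw [← lintegral_indicator hmeas]
  exact mul_le_mul_right (lintegral_mono fun x => slab_fderiv_le hu.continuous hd hD x) _

/-! ### Components of superlevel sets -/

/-- the components of `{u > t}` -/
def comps (u : Pl → ℝ) (t : ℝ) : Set (Set Pl) :=
  (fun x => connectedComponentIn {x | t < u x} x) '' {x | t < u x}

lemma isComp_of_mem_comps {u : Pl → ℝ} (hu : Continuous u) {t : ℝ} {D : Set Pl}
    (hD : D ∈ comps u t) : IsComp u t D := by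
  obtain ⟨x, hx, rfl⟩ := hD
  have hE : IsOpen {x | t < u x} := isOpen_lt continuous_const hu
  refine ⟨hE.connectedComponentIn, connectedComponentIn_subset _ _, ?_⟩
  intro x' hx' y hy
  have h1 : connectedComponentIn {x | t < u x} x = connectedComponentIn {x | t < u x} x' :=
    connectedComponentIn_eq hx'
  change y ∈ connectedComponentIn {x | t < u x} x
  rw [h1]
  exact (convex_segment x' y).isPreconnected.subset_connectedComponentIn
    (left_mem_segment ℝ x' y) hy (right_mem_segment ℝ x' y)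

lemma isConnected_of_mem_comps {u : Pl → ℝ} {t : ℝ} {D : Set Pl}
    (hD : D ∈ comps u t) : IsConnected D := by
  obtain ⟨x, hx, rfl⟩ := hD
  exact isConnected_connectedComponentIn_iff.2 hx

lemma pairwiseDisjoint_comps (u : Pl → ℝ) (t : ℝ) : (comps u t).PairwiseDisjoint id := by
  rintro _ ⟨x, hx, rfl⟩ _ ⟨y, hy, rfl⟩ hne
  rw [Function.onFun, id, id, disjoint_left]
  intro z hz1 hz2
  apply hne
  change connectedComponentIn _ x = connectedComponentIn _ y
  rw [connectedComponentIn_eq hz1, connectedComponentIn_eq hz2]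

lemma countable_comps {u : Pl → ℝ} (hu : Continuous u) (t : ℝ) : (comps u t).Countable :=
  (pairwiseDisjoint_comps u t).countable_of_isOpen
    (fun _ hD => (isComp_of_mem_comps hu hD).1)
    (fun _ hD => (isConnected_of_mem_comps hD).nonempty)

lemma sUnion_comps (u : Pl → ℝ) (t : ℝ) : ⋃₀ comps u t = {x | t < u x} := by
  apply Subset.antisymm
  · rintro x ⟨D, ⟨y, hy, rfl⟩, hx⟩
    exact connectedComponentIn_subset _ _ hx
  · intro x hx
    exact ⟨_, ⟨x, hx, rfl⟩, mem_connectedComponentIn hx⟩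

/-- finite families of components: the Crofton bound in a slab -/
lemma slab_sum {u : Pl → ℝ} {C : ℝ≥0} (hu : LipschitzWith C u) (hc : HasCompactSupport u)
    {t d₀ d : ℝ} (ht : 0 ≤ t) (hd : 0 < d) (hdd : d ≤ d₀) (F : Finset (comps u t)) :
    ENNReal.ofReal d * ∑ D ∈ F, lmu (lines ((D : Set Pl) ∩ {x | t + d₀ < u x})) ≤
      2 * ∫⁻ x in {x | t < u x ∧ u x < t + d}, ‖fderiv ℝ u x‖ₑ := by
  have hmeas : ∀ D : comps u t, MeasurableSet ((D : Set Pl) ∩ {x | t < u x ∧ u x < t + d}) :=
    fun D => (isComp_of_mem_comps hu.continuous D.2).1.measurableSet.inter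
      ((isOpen_lt continuous_const hu.continuous).inter
      (isOpen_lt hu.continuous continuous_const)).measurableSet
  rw [Finset.mul_sum]
  calc ∑ D ∈ F, ENNReal.ofReal d * lmu (lines ((D : Set Pl) ∩ {x | t + d₀ < u x}))
      ≤ ∑ D ∈ F, 2 * ∫⁻ x in (D : Set Pl) ∩ {x | t < u x ∧ u x < t + d}, ‖fderiv ℝ u x‖ₑ := by
        refine Finset.sum_le_sum fun D _ => ?_
        refine le_trans ?_ (slab_crofton hu hc ht hd (isComp_of_mem_comps hu.continuous D.2))
        gcongr
        apply lines_mono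
        intro x hx
        refine ⟨hx.1, ?_⟩
        have := hx.2
        simp only [mem_ofPred_eq] at this ⊢
        linarith
    _ = 2 * ∫⁻ x in ⋃ D ∈ F, (D : Set Pl) ∩ {x | t < u x ∧ u x < t + d}, ‖fderiv ℝ u x‖ₑ := by
        rw [← Finset.mul_sum, lintegral_biUnion_finset]
        · intro D1 _ D2 _ hne
          rw [Function.onFun]
          have h1 : (D1 : Set Pl) ≠ D2 := fun h => hne (Subtype.ext h)
          have h2 := pairwiseDisjoint_comps u t D1.2 D2.2 h1
          exact h2.mono inter_subset_left inter_subset_left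
        · exact fun D _ => hmeas D
    _ ≤ _ := by
        gcongr
        exact iUnion₂_subset fun D _ => inter_subset_right

/-- the integral of the gradient below level `s` -/
noncomputable def Psi (u : Pl → ℝ) (s : ℝ) : ℝ :=
  ∫ x in {x | 0 < u x ∧ u x ≤ s}, ‖fderiv ℝ u x‖

lemma measurableSet_level {u : Pl → ℝ} (hu : Continuous u) (a b : ℝ) :
    MeasurableSet {x | a < u x ∧ u x ≤ b} :=
  (isOpen_lt continuous_const hu).measurableSet.inter
    (isClosed_le hu continuous_const).measurableSet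

lemma Psi_mono {u : Pl → ℝ} (hi : Integrable (fun x => ‖fderiv ℝ u x‖)) : Monotone (Psi u) := by
  intro s t hst
  refine setIntegral_mono_set hi.integrableOn (Eventually.of_forall fun _ => norm_nonneg _) ?_
  exact LE.le.eventuallyLE (fun x hx => ⟨hx.1, hx.2.trans hst⟩ :
    {x | 0 < u x ∧ u x ≤ s} ≤ {x | 0 < u x ∧ u x ≤ t})

lemma Psi_sub {u : Pl → ℝ} (hu : Continuous u) (hi : Integrable (fun x => ‖fderiv ℝ u x‖))
    {t d : ℝ} (ht : 0 ≤ t) (hd : 0 < d) :
    ∫⁻ x in {x | t < u x ∧ u x < t + d}, ‖fderiv ℝ u x‖ₑ ≤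
      ENNReal.ofReal (Psi u (t + d) - Psi u t) := by
  have h1 : {x | 0 < u x ∧ u x ≤ t + d} =
      {x | 0 < u x ∧ u x ≤ t} ∪ {x | t < u x ∧ u x ≤ t + d} := by
    ext x
    simp only [mem_ofPred_eq, mem_union]
    constructor
    · rintro ⟨h1, h2⟩
      rcases le_or_gt (u x) t with h | h
      · left; exact ⟨h1, h⟩
      · right; exact ⟨h, h2⟩
    · rintro (⟨h1, h2⟩ | ⟨h1, h2⟩)
      · exact ⟨h1, by linarith⟩
      · exact ⟨by linarith, h2⟩
  have h2 : Psi u (t + d) - Psi u t = ∫ x in {x | t < u x ∧ u x ≤ t + d}, ‖fderiv ℝ u x‖ := by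
    unfold Psi
    rw [h1, setIntegral_union _ (measurableSet_level hu _ _) hi.integrableOn hi.integrableOn]
    · ring
    · rw [disjoint_left]
      rintro x ⟨_, h3⟩ ⟨h4, _⟩
      linarith
  rw [h2, ofReal_integral_eq_lintegral_ofReal hi.integrableOn
    (Eventually.of_forall fun _ => norm_nonneg _)]
  simp only [ofReal_norm]
  exact lintegral_mono_set fun x hx => ⟨hx.1, hx.2.le⟩

/-- at differentiability points of `Psi`, the derivative controls the area of the superlevel
set -/
lemma volume_le_deriv_Psi {Ω : Set Pl} (hΩ : IsPlanarConvex Ω) {r : ℝ} (hr : 0 < r)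
    (h : volume (inner Ω r) ≤ ENNReal.ofReal (Real.pi * r ^ 2))
    {u : Pl → ℝ} {C : ℝ≥0} (hu : LipschitzWith C u) (hc : HasCompactSupport u)
    (hsub : tsupport u ⊆ Ω) (hi : Integrable (fun x => ‖fderiv ℝ u x‖)) {t : ℝ} (ht : 0 ≤ t)
    (hd : DifferentiableAt ℝ (Psi u) t) :
    volume {x | t < u x} ≤ ENNReal.ofReal (r * deriv (Psi u) t) := by
  have hpos : 0 ≤ deriv (Psi u) t := (Psi_mono hi).deriv_nonneg
  -- finite families at fixed `d₀`
  have step1 : ∀ (F : Finset (comps u t)) (d₀ : ℝ), 0 < d₀ →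
      ∑ D ∈ F, lmu (lines ((D : Set Pl) ∩ {x | t + d₀ < u x})) ≤
        ENNReal.ofReal (2 * deriv (Psi u) t) := by
    intro F d₀ hd₀
    have h1 : Tendsto (fun d => d⁻¹ * (Psi u (t + d) - Psi u t)) (𝓝[>] 0)
        (𝓝 (deriv (Psi u) t)) := by
      have := hd.hasDerivAt.tendsto_slope_zero_right
      simpa only [smul_eq_mul] using this
    have h2 : Tendsto (fun d => ENNReal.ofReal (2 * (d⁻¹ * (Psi u (t + d) - Psi u t)))) (𝓝[>] 0)
        (𝓝 (ENNReal.ofReal (2 * deriv (Psi u) t))) :=
      (ENNReal.continuous_ofReal.tendsto _).comp (h1.const_mul 2)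
    refine ge_of_tendsto h2 ?_
    filter_upwards [Ioc_mem_nhdsGT hd₀] with d hdm
    have h3 := slab_sum hu hc ht hdm.1 hdm.2 F
    have h4 := Psi_sub hu.continuous hi ht hdm.1
    have h5 : ENNReal.ofReal d * ∑ D ∈ F, lmu (lines ((D : Set Pl) ∩ {x | t + d₀ < u x})) ≤
        2 * ENNReal.ofReal (Psi u (t + d) - Psi u t) := h3.trans (by gcongr)
    have h6 : ENNReal.ofReal d⁻¹ * (ENNReal.ofReal d *
        ∑ D ∈ F, lmu (lines ((D : Set Pl) ∩ {x | t + d₀ < u x}))) ≤
        ENNReal.ofReal d⁻¹ * (2 * ENNReal.ofReal (Psi u (t + d) - Psi u t)) := by gcongr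
    rw [← mul_assoc, ← ENNReal.ofReal_mul (inv_nonneg.2 hdm.1.le), inv_mul_cancel₀ hdm.1.ne',
      ENNReal.ofReal_one, one_mul] at h6
    refine h6.trans (le_of_eq ?_)
    have h7 : 0 ≤ Psi u (t + d) - Psi u t :=
      sub_nonneg.2 (Psi_mono hi (by linarith [hdm.1]))
    rw [show (2 : ℝ≥0∞) = ENNReal.ofReal 2 by norm_num, ← ENNReal.ofReal_mul (by norm_num),
      ← ENNReal.ofReal_mul (inv_nonneg.2 hdm.1.le)]
    congr 1; ring
  -- let `d₀ → 0`
  have step2 : ∀ F : Finset (comps u t), ∑ D ∈ F, lmu (lines (D : Set Pl)) ≤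
      ENNReal.ofReal (2 * deriv (Psi u) t) := by
    intro F
    have h1 : ∀ D : comps u t, Tendsto (fun n : ℕ => lmu (lines ((D : Set Pl) ∩
        {x | t + 1 / ((n : ℝ) + 1) < u x}))) atTop (𝓝 (lmu (lines (D : Set Pl)))) := by
      intro D
      have hmono : Monotone fun n : ℕ => lines ((D : Set Pl) ∩
          {x | t + 1 / ((n : ℝ) + 1) < u x}) := by
        intro m n hmn
        apply lines_mono
        intro x hx
        refine ⟨hx.1, ?_⟩
        have h2 := hx.2
        simp only [mem_ofPred_eq] at h2 ⊢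
        have h3 : 1 / ((n : ℝ) + 1) ≤ 1 / ((m : ℝ) + 1) := by
          apply one_div_le_one_div_of_le (by positivity)
          have : (m : ℝ) ≤ n := by exact_mod_cast hmn
          linarith
        linarith
      have hU : lines (D : Set Pl) = ⋃ n : ℕ, lines ((D : Set Pl) ∩
          {x | t + 1 / ((n : ℝ) + 1) < u x}) := by
        apply Subset.antisymm
        · rintro ⟨θ, p⟩ hq
          rw [lines, mem_iUnion] at hq
          obtain ⟨τ, hτ⟩ := hq
          simp only [mem_ofPred_eq] at hτ
          have h2 : t < u (lin θ p τ) := (isComp_of_mem_comps hu.continuous D.2).2.1 hτ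
          obtain ⟨n, hn⟩ := exists_nat_one_div_lt (sub_pos.2 h2)
          rw [mem_iUnion]
          refine ⟨n, ?_⟩
          rw [lines, mem_iUnion]
          refine ⟨τ, hτ, ?_⟩
          simp only [mem_ofPred_eq]
          linarith
        · exact iUnion_subset fun n => lines_mono inter_subset_left
      rw [hU]
      exact tendsto_measure_iUnion_atTop hmono
    have h2 : Tendsto (fun n : ℕ => ∑ D ∈ F, lmu (lines ((D : Set Pl) ∩
        {x | t + 1 / ((n : ℝ) + 1) < u x}))) atTop (𝓝 (∑ D ∈ F, lmu (lines (D : Set Pl)))) :=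
      tendsto_finsetSum F fun D _ => h1 D
    exact le_of_tendsto h2 (Eventually.of_forall fun n => step1 F _ (by positivity))
  -- conclusion
  have hsubset : {x | t < u x} ⊆ Ω := by
    intro x hx
    apply hsub
    apply subset_tsupport
    simp only [mem_ofPred_eq] at hx
    rw [Function.mem_support]
    linarith
  have step3 : ∀ F : Finset (comps u t), ∑ D ∈ F, volume (D : Set Pl) ≤
      ENNReal.ofReal (r * deriv (Psi u) t) := by
    intro F
    have h1 : 2 * ∑ D ∈ F, volume (D : Set Pl) ≤ ENNReal.ofReal r *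
        ENNReal.ofReal (2 * deriv (Psi u) t) := by
      calc 2 * ∑ D ∈ F, volume (D : Set Pl) = ∑ D ∈ F, 2 * volume (D : Set Pl) :=
            Finset.mul_sum _ _ _
        _ ≤ ∑ D ∈ F, ENNReal.ofReal r * lmu (lines (D : Set Pl)) := by
            refine Finset.sum_le_sum fun D _ => ?_
            have hcomp := isComp_of_mem_comps hu.continuous D.2
            exact volume_le_lmu hΩ hr h hcomp.1 (isConnected_of_mem_comps D.2)
              (hcomp.2.1.trans hsubset)
        _ = ENNReal.ofReal r * ∑ D ∈ F, lmu (lines (D : Set Pl)) := (Finset.mul_sum _ _ _).symm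
        _ ≤ _ := by gcongr; exact step2 F
    rw [← ENNReal.ofReal_mul hr.le, show r * (2 * deriv (Psi u) t) = 2 * (r * deriv (Psi u) t)
      by ring, ENNReal.ofReal_mul (by norm_num), show ENNReal.ofReal 2 = 2 by norm_num] at h1
    exact (ENNReal.mul_le_mul_iff_right (by norm_num) (by norm_num)).1 h1
  rw [← sUnion_comps u t, measure_sUnion (countable_comps hu.continuous t)
    (pairwiseDisjoint_comps u t) (fun D hD => (isComp_of_mem_comps hu.continuous hD).1.measurableSet)]
  rw [ENNReal.tsum_eq_iSup_sum]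
  exact iSup_le step3

/-- One half of the lower bound. -/
theorem lintegral_pos_part_le {Ω : Set Pl} (hΩ : IsPlanarConvex Ω) {r : ℝ} (hr : 0 < r)
    (h : volume (inner Ω r) ≤ ENNReal.ofReal (Real.pi * r ^ 2))
    {u : Pl → ℝ} (hu : IsTest Ω u) :
    ∫⁻ x, ENNReal.ofReal (u x) ≤
      ENNReal.ofReal r * ∫⁻ x in {x | 0 < u x}, ‖fderiv ℝ u x‖ₑ := by
  obtain ⟨C, hC⟩ := hu.1.lipschitzWith_of_hasCompactSupport hu.2.1 (by simp)
  have hi := hu.integrable_fderiv
  have hcont : Continuous u := hu.1.continuous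
  obtain ⟨M, hM⟩ := hu.2.1.exists_bound_of_continuous hcont
  have hM' : ∀ x, u x ≤ |M| := fun x => (le_abs_self _).trans ((hM x).trans (le_abs_self _))
  have hmono := Psi_mono hi
  have h1 : ∫⁻ x, ENNReal.ofReal (u x) = ∫⁻ x, ENNReal.ofReal (max (u x) 0) := by
    refine lintegral_congr fun x => ?_
    rw [ENNReal.ofReal_max, ENNReal.ofReal_zero, max_eq_left (by exact bot_le)]
  have h2 := lintegral_eq_lintegral_meas_lt (μ := volume) (f := fun x => max (u x) 0)
    (Eventually.of_forall fun x => le_max_right _ _)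
    (hcont.max continuous_const).measurable.aemeasurable
  have h3 : ∫⁻ t in Ioi (0:ℝ), volume {a | t < max (u a) 0} ≤
      ∫⁻ t in Ioc (0:ℝ) |M|, volume {a | t < max (u a) 0} := by
    rw [← lintegral_indicator measurableSet_Ioi, ← lintegral_indicator measurableSet_Ioc]
    refine lintegral_mono fun t => ?_
    by_cases ht : t ∈ Ioc 0 |M|
    · rw [indicator_of_mem ht, indicator_of_mem (mem_Ioi.2 ht.1)]
    · rw [indicator_of_notMem ht]
      by_cases ht2 : t ∈ Ioi (0:ℝ)
      · rw [indicator_of_mem ht2]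
        have h4 : |M| < t := by
          by_contra hc
          exact ht ⟨ht2, not_lt.1 hc⟩
        have h5 : {a | t < max (u a) 0} = ∅ := by
          ext a
          simp only [mem_ofPred_eq, mem_empty_iff_false, iff_false, not_lt]
          exact max_le ((hM' a).trans h4.le) (le_of_lt ht2)
        rw [h5, measure_empty]
      · rw [indicator_of_notMem ht2]
  have h4 : ∫⁻ t in Ioc (0:ℝ) |M|, volume {a | t < max (u a) 0} ≤
      ∫⁻ t in Ioc (0:ℝ) |M|, ENNReal.ofReal (r * deriv (Psi u) t) := by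
    refine lintegral_mono_ae ?_
    rw [ae_restrict_iff' measurableSet_Ioc]
    filter_upwards [hmono.ae_differentiableAt] with t ht htm
    have h5 : {a | t < max (u a) 0} = {a | t < u a} := by
      ext a
      simp only [mem_ofPred_eq, lt_max_iff]
      constructor
      · rintro (h | h)
        · exact h
        · linarith [htm.1]
      · intro h; exact Or.inl h
    rw [h5]
    exact volume_le_deriv_Psi hΩ hr h hC hu.2.1 hu.2.2.1 hi htm.1.le ht
  have hmo : MonotoneOn (Psi u) (uIcc 0 |M|) := hmono.monotoneOn _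
  have h6 := hmo.intervalIntegral_deriv_mem_uIcc
  have h7 := hmo.intervalIntegrable_deriv
  have hM0 : Psi u 0 ≤ Psi u |M| := hmono (abs_nonneg M)
  rw [uIcc_of_le (sub_nonneg.2 hM0)] at h6
  have h8 : ∫⁻ t in Ioc (0:ℝ) |M|, ENNReal.ofReal (r * deriv (Psi u) t) =
      ENNReal.ofReal (r * ∫ t in (0)..|M|, deriv (Psi u) t) := by
    rw [intervalIntegral.integral_of_le (abs_nonneg M), ← integral_const_mul,
      ofReal_integral_eq_lintegral_ofReal (h7.1.const_mul r)
      (Eventually.of_forall fun t => mul_nonneg hr.le (hmono.deriv_nonneg))]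
  have h9 : Psi u 0 = 0 := by
    have : {x | 0 < u x ∧ u x ≤ 0} = ∅ := by
      ext x
      simp only [mem_ofPred_eq, mem_empty_iff_false, iff_false, not_and, not_le]
      exact fun h => h
    simp [Psi, this]
  calc ∫⁻ x, ENNReal.ofReal (u x)
      ≤ ENNReal.ofReal (r * ∫ t in (0)..|M|, deriv (Psi u) t) := by
        rw [h1, h2]; exact h3.trans (h4.trans h8.le)
    _ ≤ ENNReal.ofReal (r * Psi u |M|) := by
        apply ENNReal.ofReal_le_ofReal
        apply mul_le_mul_of_nonneg_left _ hr.le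
        rw [h9, sub_zero] at h6
        exact h6.2
    _ = ENNReal.ofReal r * ∫⁻ x in {x | 0 < u x ∧ u x ≤ |M|}, ‖fderiv ℝ u x‖ₑ := by
        rw [ENNReal.ofReal_mul hr.le, Psi, ofReal_integral_eq_lintegral_ofReal hi.integrableOn
          (Eventually.of_forall fun _ => norm_nonneg _)]
        simp only [ofReal_norm]
    _ ≤ _ := by
        gcongr
        exact fun hx => hx.1

/-- **(L)** If `|Ω_{-r}| ≤ π r²` then `h(Ω) ≥ 1/r`. -/
theorem one_le_cheeger_mul {Ω : Set Pl} (hΩ : IsPlanarConvex Ω) {r : ℝ} (hr : 0 < r)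
    (h : volume (inner Ω r) ≤ ENNReal.ofReal (Real.pi * r ^ 2)) : 1 ≤ cheeger Ω * r := by
  have key : ∀ u, IsTest Ω u → 1 / r ≤ (∫ x, ‖fderiv ℝ u x‖) / (∫ x, |u x|) := by
    intro u hu
    have hun : IsTest Ω (fun x => -u x) := by
      refine ⟨hu.1.neg, hu.2.1.neg, ?_, ?_⟩
      · have : tsupport (fun x => -u x) = tsupport u := by
          unfold tsupport
          congr 1
          ext x; simp
        rw [this]; exact hu.2.2.1
      · intro h0
        apply hu.2.2.2
        funext x
        have := congrFun h0 x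
        simpa using this
    have h1 := lintegral_pos_part_le hΩ hr h hu
    have h2 := lintegral_pos_part_le hΩ hr h hun
    have h3 : ∀ x, fderiv ℝ (fun x => -u x) x = -fderiv ℝ u x := fun x => fderiv_fun_neg
    have hm : ∀ s : Set Pl, MeasurableSet s → ∫⁻ x in s, ‖fderiv ℝ (fun x => -u x) x‖ₑ =
        ∫⁻ x in s, ‖fderiv ℝ u x‖ₑ := by
      intro s _
      refine lintegral_congr fun x => ?_
      rw [h3, ← ofReal_norm, norm_neg, ofReal_norm]
    have hcont : Continuous u := hu.1.continuous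
    have hmn : MeasurableSet {x | 0 < -u x} := (isOpen_lt continuous_const hcont.neg).measurableSet
    have hmp : MeasurableSet {x | 0 < u x} := (isOpen_lt continuous_const hcont).measurableSet
    rw [hm _ hmn] at h2
    have h4 : ∫⁻ x, ENNReal.ofReal |u x| =
        (∫⁻ x, ENNReal.ofReal (u x)) + ∫⁻ x, ENNReal.ofReal (-u x) := by
      rw [← lintegral_add_left hcont.measurable.ennreal_ofReal]
      refine lintegral_congr fun x => ?_
      rcases le_total 0 (u x) with hx | hx
      · rw [abs_of_nonneg hx, ENNReal.ofReal_of_nonpos (p := -u x) (by linarith), add_zero]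
      · rw [abs_of_nonpos hx, ENNReal.ofReal_of_nonpos (p := u x) hx, zero_add]
    have h5 : (∫⁻ x in {x | 0 < u x}, ‖fderiv ℝ u x‖ₑ) +
        ∫⁻ x in {x | 0 < -u x}, ‖fderiv ℝ u x‖ₑ ≤ ∫⁻ x, ‖fderiv ℝ u x‖ₑ := by
      rw [← lintegral_union hmn]
      · exact setLIntegral_le_lintegral _ _
      · rw [disjoint_left]
        intro x h6 h7
        simp only [mem_ofPred_eq] at h6 h7
        linarith
    have h6 : ∫⁻ x, ENNReal.ofReal |u x| ≤ ENNReal.ofReal r * ∫⁻ x, ‖fderiv ℝ u x‖ₑ := by
      rw [h4]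
      calc (∫⁻ x, ENNReal.ofReal (u x)) + ∫⁻ x, ENNReal.ofReal (-u x)
          ≤ ENNReal.ofReal r * (∫⁻ x in {x | 0 < u x}, ‖fderiv ℝ u x‖ₑ) +
            ENNReal.ofReal r * ∫⁻ x in {x | 0 < -u x}, ‖fderiv ℝ u x‖ₑ := add_le_add h1 h2
        _ = ENNReal.ofReal r * ((∫⁻ x in {x | 0 < u x}, ‖fderiv ℝ u x‖ₑ) +
            ∫⁻ x in {x | 0 < -u x}, ‖fderiv ℝ u x‖ₑ) := by rw [mul_add]
        _ ≤ _ := by gcongr
    have h7 : ∫⁻ x, ENNReal.ofReal |u x| = ENNReal.ofReal (∫ x, |u x|) :=
      (ofReal_integral_eq_lintegral_ofReal hu.integrable_abs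
        (Eventually.of_forall fun _ => abs_nonneg _)).symm
    have h8 : ∫⁻ x, ‖fderiv ℝ u x‖ₑ = ENNReal.ofReal (∫ x, ‖fderiv ℝ u x‖) := by
      rw [ofReal_integral_eq_lintegral_ofReal hu.integrable_fderiv
        (Eventually.of_forall fun _ => norm_nonneg _)]
      simp only [ofReal_norm]
    rw [h7, h8, ← ENNReal.ofReal_mul hr.le, ENNReal.ofReal_le_ofReal_iff (mul_nonneg hr.le
      (integral_nonneg fun _ => norm_nonneg _))] at h6
    rw [div_le_div_iff₀ hr hu.integral_abs_pos]
    linarith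
  obtain ⟨u, hu⟩ := exists_isTest hΩ.isOpen hΩ.nonempty
  have h1 : 1 / r ≤ cheeger Ω := by
    refine le_csInf ⟨_, u, hu, rfl⟩ ?_
    rintro q ⟨v, hv, rfl⟩
    exact key v hv
  rwa [div_le_iff₀ hr] at h1

end Pool.MP70c477
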