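import Pool.Agent.MP70c477.LamPos

set_option autoImplicit false
set_option linter.unusedVariables false

open MeasureTheory Set Filter Topology ContinuousLinearMap
open scoped Convolution ENNReal NNReal Pointwise

namespace Pool.Agent.MP70c477

noncomputable section

/-- positive part power -/
def pp (j : ℕ) (t : ℝ) : ℝ := (max 0 t) ^ j

lemma pp_nonneg (j : ℕ) (t : ℝ) : 0 ≤ pp j t := by unfold pp; positivity

lemma pp_cont (j : ℕ) : Continuous (pp j) := by unfold pp; fun_prop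

lemma pp_hasDeriv (j : ℕ) (hj : 1 ≤ j) (t : ℝ) :
    HasDerivAt (pp (j + 1)) (((j : ℝ) + 1) * pp j t) t := by
  have hz : ∀ s ≤ (0:ℝ), pp (j + 1) s = 0 := by
    intro s hs; unfold pp; rw [max_eq_left hs]; simp
  have hp : ∀ s, 0 ≤ s → pp (j + 1) s = s ^ (j + 1) := by
    intro s hs; unfold pp; rw [max_eq_right hs]
  have hpow : ∀ s : ℝ, HasDerivAt (fun s => s ^ (j + 1)) (((j : ℝ) + 1) * s ^ j) s := by
    intro s
    simpa using hasDerivAt_pow (j + 1) s
  rcases lt_trichotomy t 0 with ht | ht | ht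
  · have h1 : pp j t = 0 := by unfold pp; rw [max_eq_left ht.le]; exact zero_pow (by omega)
    rw [h1, mul_zero]
    apply (hasDerivAt_const t (0:ℝ)).congr_of_eventuallyEq
    filter_upwards [eventually_lt_nhds ht] with s hs
    exact hz s hs.le
  · subst ht
    have h1 : pp j 0 = 0 := by unfold pp; rw [max_self]; exact zero_pow (by omega)
    rw [h1, mul_zero, ← hasDerivWithinAt_univ, ← Iic_union_Ici (a := (0:ℝ))]
    apply HasDerivWithinAt.union
    · apply (hasDerivWithinAt_const (0:ℝ) (Iic 0) (0:ℝ)).congr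
      · intro s hs; exact hz s hs
      · exact hz 0 le_rfl
    · have h2 := (hpow 0).hasDerivWithinAt (s := Ici 0)
      rw [zero_pow (by omega), mul_zero] at h2
      apply h2.congr
      · intro s hs; exact hp s hs
      · exact hp 0 le_rfl
  · have h1 : pp j t = t ^ j := by unfold pp; rw [max_eq_right ht.le]
    rw [h1]
    apply (hpow t).congr_of_eventuallyEq
    filter_upwards [eventually_gt_nhds ht] with s hs
    exact hp s hs.le

lemma pp_contDiff (j : ℕ) (hj : 1 ≤ j) : ContDiff ℝ 1 (pp (j + 1)) := by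
  rw [contDiff_one_iff_deriv]
  refine ⟨fun t => (pp_hasDeriv j hj t).differentiableAt, ?_⟩
  have h : deriv (pp (j + 1)) = fun t => ((j : ℝ) + 1) * pp j t := by
    ext t; exact (pp_hasDeriv j hj t).deriv
  rw [h]
  exact continuous_const.mul (pp_cont j)

/-- `R² - |p - z|²` -/
def qd (z : PP) (R : ℝ) (p : PP) : ℝ := R ^ 2 - d2 z p

lemma qd_contDiff (z : PP) (R : ℝ) {n : WithTop ℕ∞} : ContDiff ℝ n (qd z R) := by
  unfold qd d2; fun_prop

lemma qd_hasFDeriv (z : PP) (R : ℝ) (p : PP) :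
    HasFDerivAt (qd z R) (-((2 * (p.1 - z.1)) • ContinuousLinearMap.fst ℝ ℝ ℝ
      + (2 * (p.2 - z.2)) • ContinuousLinearMap.snd ℝ ℝ ℝ)) p := by
  have h1 := (hasFDerivAt_fst_sub z.1 p).pow 2
  have h2 := (hasFDerivAt_snd_sub z.2 p).pow 2
  have h3 := (h1.add h2).const_sub (R ^ 2)
  have h4 : HasFDerivAt (qd z R) _ p := h3
  apply h4.congr_fderiv
  refine ContinuousLinearMap.ext (fun v => ?_)
  simp

/-- the barrier -/
def bar (z : PP) (R : ℝ) (j : ℕ) (p : PP) : ℝ := pp (j + 1) (qd z R p)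

lemma bar_nonneg (z : PP) (R : ℝ) (j : ℕ) (p : PP) : 0 ≤ bar z R j p := pp_nonneg _ _

lemma bar_hasFDeriv (z : PP) (R : ℝ) (j : ℕ) (hj : 1 ≤ j) (p : PP) :
    HasFDerivAt (bar z R j) ((((j : ℝ) + 1) * pp j (qd z R p)) •
      (-((2 * (p.1 - z.1)) • ContinuousLinearMap.fst ℝ ℝ ℝ
      + (2 * (p.2 - z.2)) • ContinuousLinearMap.snd ℝ ℝ ℝ))) p :=
  (pp_hasDeriv j hj (qd z R p)).comp_hasFDerivAt p (qd_hasFDeriv z R p)

lemma bar_contDiff (z : PP) (R : ℝ) (j : ℕ) (hj : 1 ≤ j) : ContDiff ℝ 1 (bar z R j) :=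
  (pp_contDiff j hj).comp (qd_contDiff z R)

lemma bar_support (z : PP) (R : ℝ) (j : ℕ) : Function.support (bar z R j) ⊆ {p | d2 z p ≤ R ^ 2} := by
  intro p hp
  by_contra hcon
  simp only [mem_ofPred_eq, not_le] at hcon
  apply hp
  show pp (j + 1) (R ^ 2 - d2 z p) = 0
  unfold pp
  rw [max_eq_left (by linarith)]
  simp

lemma isClosed_cd (z : PP) (R : ℝ) : IsClosed {p : PP | d2 z p ≤ R ^ 2} := by
  apply isClosed_le _ continuous_const
  unfold d2; fun_prop

lemma cd_compact (z : PP) (R : ℝ) : IsCompact {p : PP | d2 z p ≤ R ^ 2} := by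
  apply Metric.isCompact_of_isClosed_isBounded (isClosed_cd z R)
  apply (Metric.isBounded_closedBall (x := z) (r := |R|)).subset
  intro p hp
  simp only [mem_ofPred_eq, d2] at hp
  rw [Metric.mem_closedBall, dist_eq_norm, Prod.norm_def, max_le_iff]
  constructor
  · rw [Real.norm_eq_abs]; exact sq_le_sq.1 (by simpa using (by nlinarith [sq_nonneg (p.2 - z.2)] :
      (p.1 - z.1) ^ 2 ≤ R ^ 2))
  · rw [Real.norm_eq_abs]; exact sq_le_sq.1 (by simpa using (by nlinarith [sq_nonneg (p.1 - z.1)] :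
      (p.2 - z.2) ^ 2 ≤ R ^ 2))

lemma bar_tst (z : PP) (R : ℝ) (j : ℕ) (hj : 1 ≤ j) {Ω : Set PP} (h : {p | d2 z p ≤ R ^ 2} ⊆ Ω) :
    Tst 1 Ω (bar z R j) := by
  have h1 : tsupport (bar z R j) ⊆ {p | d2 z p ≤ R ^ 2} :=
    closure_minimal (bar_support z R j) (isClosed_cd z R)
  exact ⟨bar_contDiff z R j hj, (cd_compact z R).of_isClosed_subset (isClosed_tsupport _) h1,
    h1.trans h⟩

/-- the Laplacian of the barrier -/
def lapb (z : PP) (R : ℝ) (j : ℕ) (p : PP) : ℝ :=
  4 * ((j : ℝ) + 2) * pp j (qd z R p) * (((j : ℝ) + 1) * d2 z p - max 0 (qd z R p))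

/-- integration by parts against the barrier, one direction -/
lemma ibp_bar_aux {W : PP → ℝ} (hW : ContDiff ℝ 1 W) (hWc : HasCompactSupport W) (z : PP) (R : ℝ)
    (j : ℕ) (hj : 1 ≤ j) (c : ℝ) (L : PP →L[ℝ] ℝ) (v : PP) :
    ∫ p, (-2 * (L p - c) * (((j : ℝ) + 2) * pp (j + 1) (qd z R p))) * fderiv ℝ W p v
      = -∫ p, (-2 * (L v) * (((j : ℝ) + 2) * pp (j + 1) (qd z R p))
        + (-2 * (L p - c)) * (((j : ℝ) + 2) * ((((j : ℝ) + 1) * pp j (qd z R p)) *
          (-((2 * (p.1 - z.1)) * v.1 + (2 * (p.2 - z.2)) * v.2))))) * W p := by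
  have hT : Tst 1 Set.univ W := ⟨hW, hWc, subset_univ _⟩
  set F : PP → ℝ := fun p => -2 * (L p - c) * (((j : ℝ) + 2) * pp (j + 1) (qd z R p)) with hF
  have hd : ∀ p, HasFDerivAt F ((-2 * (L p - c)) • (((j : ℝ) + 2) • ((((j : ℝ) + 1) * pp j (qd z R p)) •
      (-((2 * (p.1 - z.1)) • ContinuousLinearMap.fst ℝ ℝ ℝ
      + (2 * (p.2 - z.2)) • ContinuousLinearMap.snd ℝ ℝ ℝ))))
      + (((j : ℝ) + 2) * pp (j + 1) (qd z R p)) • ((-2 : ℝ) • L)) p := by
    intro p
    have h1 : HasFDerivAt (fun p => -2 * (L p - c)) ((-2 : ℝ) • L) p :=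
      (L.hasFDerivAt.sub_const c).const_mul (-2)
    have h2 : HasFDerivAt (fun p => ((j : ℝ) + 2) * pp (j + 1) (qd z R p))
      (((j : ℝ) + 2) • ((((j : ℝ) + 1) * pp j (qd z R p)) •
      (-((2 * (p.1 - z.1)) • ContinuousLinearMap.fst ℝ ℝ ℝ
      + (2 * (p.2 - z.2)) • ContinuousLinearMap.snd ℝ ℝ ℝ)))) p :=
      (bar_hasFDeriv z R j hj p).const_mul _
    exact h1.mul h2
  have hfd : ∀ p, fderiv ℝ F p v = -2 * (L v) * (((j : ℝ) + 2) * pp (j + 1) (qd z R p))
        + (-2 * (L p - c)) * (((j : ℝ) + 2) * ((((j : ℝ) + 1) * pp j (qd z R p)) *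
          (-((2 * (p.1 - z.1)) * v.1 + (2 * (p.2 - z.2)) * v.2)))) := by
    intro p
    rw [(hd p).fderiv]
    simp only [add_apply, smul_apply, neg_apply, coe_fst', coe_snd', smul_eq_mul]
    ring
  have hqc : Continuous (qd z R) := (qd_contDiff z R (n := 1)).continuous
  have hpc : ∀ i, Continuous (fun p => pp i (qd z R p)) := fun i => (pp_cont i).comp hqc
  have hFc : Continuous F := by
    have := hpc (j + 1)
    simp only [hF]; fun_prop
  have hfdc : Continuous (fun p => fderiv ℝ F p v) := by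
    simp only [hfd]
    have := hpc (j + 1)
    have := hpc j
    fun_prop
  have hWcont := hW.continuous
  have hWfc := hT.cont_fderiv le_rfl v
  rw [show (∫ p, (-2 * (L p - c) * (((j : ℝ) + 2) * pp (j + 1) (qd z R p))) * fderiv ℝ W p v)
    = ∫ p, F p * fderiv ℝ W p v from rfl]
  rw [integral_mul_fderiv_eq_neg_fderiv_mul_of_integrable]
  · simp only [hfd]
  · exact integrable_of_cont (hfdc.mul hWcont) hWc.mul_left
  · exact integrable_of_cont (hFc.mul hWfc) (hT.comp_fderiv v).mul_left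
  · exact integrable_of_cont (hFc.mul hWcont) hWc.mul_left
  · intro p _; exact (hd p).differentiableAt
  · intro p _; exact hW.differentiable (by simp) p

lemma Bf_bar {W : PP → ℝ} (hW : ContDiff ℝ 1 W) (hWc : HasCompactSupport W) (l : ℝ) (z : PP)
    (R : ℝ) (j : ℕ) (hj : 1 ≤ j) :
    Bf l W (bar z R (j + 1)) = -∫ p, (lapb z R j p + l * bar z R (j + 1) p) * W p := by
  have hT : Tst 1 Set.univ W := ⟨hW, hWc, subset_univ _⟩
  have hqc : Continuous (qd z R) := (qd_contDiff z R (n := 1)).continuous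
  have hpc : ∀ i, Continuous (fun p => pp i (qd z R p)) := fun i => (pp_cont i).comp hqc
  have hWcont := hW.continuous
  have c0 := hpc j
  have c1 := hpc (j + 1)
  have c2 := hpc (j + 1 + 1)
  have cx := hT.cont_fderiv le_rfl ex
  have cy := hT.cont_fderiv le_rfl ey
  have cd : Continuous (d2 z) := by unfold d2; fun_prop
  have hb := bar_hasFDeriv z R (j + 1) (by omega)
  have ebx : ∀ p, fderiv ℝ (bar z R (j + 1)) p ex
      = -2 * (p.1 - z.1) * (((j : ℝ) + 2) * pp (j + 1) (qd z R p)) := by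
    intro p
    rw [(hb p).fderiv]
    simp [ex]; push_cast; ring
  have eby : ∀ p, fderiv ℝ (bar z R (j + 1)) p ey
      = -2 * (p.2 - z.2) * (((j : ℝ) + 2) * pp (j + 1) (qd z R p)) := by
    intro p
    rw [(hb p).fderiv]
    simp [ey]; push_cast; ring
  have hx := ibp_bar_aux hW hWc z R j hj z.1 (ContinuousLinearMap.fst ℝ ℝ ℝ) ex
  have hy := ibp_bar_aux hW hWc z R j hj z.2 (ContinuousLinearMap.snd ℝ ℝ ℝ) ey
  simp only [coe_fst', coe_snd', ex, ey] at hx hy
  unfold Bf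
  simp only [ebx, eby]
  have ix : Integrable (fun p : PP => (-2 * (p.1 - z.1) * (((j : ℝ) + 2) * pp (j + 1) (qd z R p)))
      * fderiv ℝ W p ex) := integrable_of_cont (by fun_prop) (hT.comp_fderiv ex).mul_left
  have iy : Integrable (fun p : PP => (-2 * (p.2 - z.2) * (((j : ℝ) + 2) * pp (j + 1) (qd z R p)))
      * fderiv ℝ W p ey) := integrable_of_cont (by fun_prop) (hT.comp_fderiv ey).mul_left
  have il : Integrable (fun p : PP => l * (W p * bar z R (j + 1) p)) :=
    integrable_of_cont (by unfold bar; fun_prop) ((hWc.mul_right).mul_left (f := fun _ => l))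
  have e1 : (fun p : PP => fderiv ℝ W p ex * (-2 * (p.1 - z.1) * (((j : ℝ) + 2) * pp (j + 1) (qd z R p)))
      + fderiv ℝ W p ey * (-2 * (p.2 - z.2) * (((j : ℝ) + 2) * pp (j + 1) (qd z R p)))
      - l * (W p * bar z R (j + 1) p)) = fun p : PP =>
      ((-2 * (p.1 - z.1) * (((j : ℝ) + 2) * pp (j + 1) (qd z R p))) * fderiv ℝ W p ex
      + (-2 * (p.2 - z.2) * (((j : ℝ) + 2) * pp (j + 1) (qd z R p))) * fderiv ℝ W p ey)
      - l * (W p * bar z R (j + 1) p) := by
    ext p; ring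
  have ixy : Integrable (fun p : PP =>
      (-2 * (p.1 - z.1) * (((j : ℝ) + 2) * pp (j + 1) (qd z R p))) * fderiv ℝ W p ex
      + (-2 * (p.2 - z.2) * (((j : ℝ) + 2) * pp (j + 1) (qd z R p))) * fderiv ℝ W p ey) := ix.add iy
  rw [e1, integral_sub ixy il, integral_add ix iy]
  simp only [ex, ey]
  rw [hx, hy, ← neg_add, ← neg_add']
  congr 1
  rw [← integral_add, ← integral_add]
  · congr 1
    ext p
    unfold lapb bar
    have e3 : pp (j + 1) (qd z R p) = pp j (qd z R p) * max 0 (qd z R p) := by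
      unfold pp; rw [pow_succ]
    have e4 : d2 z p = (p.1 - z.1) ^ 2 + (p.2 - z.2) ^ 2 := rfl
    rw [e3, e4]
    ring
  · refine Integrable.add ?_ ?_
    · exact integrable_of_cont (by fun_prop) hWc.mul_left
    · exact integrable_of_cont (by fun_prop) hWc.mul_left
  · exact il
  · exact integrable_of_cont (by fun_prop) hWc.mul_left
  · exact integrable_of_cont (by fun_prop) hWc.mul_left

end

end Pool.Agent.MP70c477
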