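import Pool.Agent.MP70c477.ASecond
import Pool.Agent.MP70c477.ABall

set_option autoImplicit false
set_option linter.unusedVariables false

open MeasureTheory Set Filter Topology ContinuousLinearMap
open scoped Convolution ENNReal NNReal Pointwise

namespace Pool.Agent.MP70c477

noncomputable section

/-- Friedrichs' inequality in a vertical strip -/
lemma Nm_le_of_strip {Ω : Set PP} {a b : ℝ} (hab : ∀ p ∈ Ω, a ≤ p.1 ∧ p.1 ≤ b) {U : PP → ℝ}
    (hU : Tst 1 Ω U) : Nm U ≤ 4 * (b - a) ^ 2 * En U := by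
  have hc : Continuous (fun p => fderiv ℝ U p ex) := hU.cont_fderiv le_rfl ex
  have hUc : Continuous U := hU.1.continuous
  have hd2 : ∀ p, HasFDerivAt (fun p => U p ^ 2) ((2 * U p) • fderiv ℝ U p) p := by
    intro p
    have := ((hU.1.differentiable (by simp) p).hasFDerivAt).pow 2
    simpa using this
  have hfd : ∀ p, fderiv ℝ (fun p => U p ^ 2) p ex = 2 * U p * fderiv ℝ U p ex := by
    intro p; rw [(hd2 p).fderiv]; simp
  have hz : ∀ p : PP, fderiv ℝ (fun p : PP => p.1 - a) p ex = 1 := by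
    intro p; rw [(hasFDerivAt_fst_sub a p).fderiv]; simp [ex]
  have i1 : Integrable (fun p : PP => (p.1 - a) * (2 * U p * fderiv ℝ U p ex)) :=
    integrable_of_cont (by fun_prop) ((hU.2.1.mul_left (f := fun _ => (2:ℝ))).mul_right
      |>.mul_left (f := fun p : PP => p.1 - a))
  have hibp : ∫ p : PP, (p.1 - a) * (2 * U p * fderiv ℝ U p ex) = - ∫ p, U p ^ 2 := by
    have h := integral_mul_fderiv_eq_neg_fderiv_mul_of_integrable
      (f := fun p : PP => p.1 - a) (g := fun p => U p ^ 2) (v := ex) (μ := volume) (𝕜 := ℝ) ?_ ?_ ?_ ?_ ?_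
    · simp only [hfd, hz, one_mul] at h
      exact h
    · simp only [hz, one_mul]; exact hU.int_sq
    · simp only [hfd]; exact i1
    · exact integrable_of_cont (by fun_prop) ((hasCompactSupport_sq hU.2.1).mul_left)
    · intro p _; exact (hasFDerivAt_fst_sub a p).differentiableAt
    · intro p _; exact (hd2 p).differentiableAt
  have hx := hU.int_fderiv_sq le_rfl ex
  have hbound : ∀ p : PP, -((p.1 - a) * (2 * U p * fderiv ℝ U p ex))
      ≤ (1 / 2) * U p ^ 2 + 2 * (b - a) ^ 2 * (fderiv ℝ U p ex) ^ 2 := by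
    intro p
    by_cases hp : p ∈ Ω
    · obtain ⟨h1, h2⟩ := hab p hp
      have h3 : (p.1 - a) ^ 2 ≤ (b - a) ^ 2 := by
        apply pow_le_pow_left₀ (by linarith) (by linarith)
      have h4 : 0 ≤ (fderiv ℝ U p ex) ^ 2 := sq_nonneg _
      nlinarith [sq_nonneg (U p + 2 * (p.1 - a) * fderiv ℝ U p ex), mul_le_mul_of_nonneg_right h3 h4]
    · have h0 : U p = 0 := image_eq_zero_of_notMem_tsupport (fun h => hp (hU.2.2 h))
      rw [h0]
      have : 0 ≤ 2 * (b - a) ^ 2 * (fderiv ℝ U p ex) ^ 2 := by positivity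
      simpa using this
  have h5 : ∫ p, U p ^ 2 ≤ (1 / 2) * (∫ p, U p ^ 2)
      + 2 * (b - a) ^ 2 * ∫ p, (fderiv ℝ U p ex) ^ 2 := by
    have h6 := integral_mono (i1.neg) ((hU.int_sq.const_mul (1 / 2)).add
      (hx.const_mul (2 * (b - a) ^ 2))) hbound
    simp only [Pi.neg_apply, Pi.add_apply] at h6
    rw [integral_neg, hibp, neg_neg, integral_add (hU.int_sq.const_mul (1 / 2))
      (hx.const_mul (2 * (b - a) ^ 2)), integral_const_mul, integral_const_mul] at h6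
    exact h6
  have h7 : ∫ p, (fderiv ℝ U p ex) ^ 2 ≤ En U := by
    rw [En_eq le_rfl hU]
    have : 0 ≤ ∫ p, (fderiv ℝ U p ey) ^ 2 := integral_nonneg (fun p => sq_nonneg _)
    linarith
  have h8 : 2 * (b - a) ^ 2 * ∫ p, (fderiv ℝ U p ex) ^ 2 ≤ 2 * (b - a) ^ 2 * En U :=
    mul_le_mul_of_nonneg_left h7 (by positivity)
  unfold Nm
  linarith

lemma exists_strip {Ω : Set PP} (hb : Bornology.IsBounded Ω) :
    ∃ a b : ℝ, a < b ∧ ∀ p ∈ Ω, a ≤ p.1 ∧ p.1 ≤ b := by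
  obtain ⟨C, hC⟩ := hb.exists_norm_le
  refine ⟨-(|C| + 1), |C| + 1, by have := abs_nonneg C; linarith, fun p hp => ?_⟩
  have h1 := hC p hp
  have h2 : |p.1| ≤ ‖p‖ := by rw [← Real.norm_eq_abs]; exact norm_fst_le p
  have h3 := abs_le.1 (h2.trans (h1.trans (le_abs_self C)))
  constructor <;> linarith [h3.1, h3.2]

/-- positivity of the first eigenvalue of a bounded set -/
theorem lamP_pos {Ω : Set PP} (hΩ : IsOpen Ω) (hne : Ω.Nonempty) (hb : Bornology.IsBounded Ω) :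
    0 < lamP Ω := by
  obtain ⟨a, b, hab, h⟩ := exists_strip hb
  have hba : 0 < 4 * (b - a) ^ 2 := by have : 0 < b - a := by linarith
                                       positivity
  obtain ⟨U0, hU0, hU00⟩ := exists_tst hΩ hne
  have h1 : (4 * (b - a) ^ 2)⁻¹ ≤ lamP Ω := by
    unfold lamP
    have hS : {q : ℝ | ∃ U : PP → ℝ, Tst ((⊤ : ℕ∞) : WithTop ℕ∞) Ω U ∧ U ≠ 0 ∧
      q = En U / Nm U}.Nonempty := ⟨_, U0, hU0, hU00, rfl⟩
    apply le_csInf hS
    rintro q ⟨U, hU, hU1, rfl⟩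
    have hN := Nm_pos hU hU1
    rw [le_div_iff₀ hN, inv_mul_le_iff₀ hba]
    exact Nm_le_of_strip h (hU.of_le (by exact_mod_cast le_top))
  exact lt_of_lt_of_le (inv_pos.2 hba) h1

lemma lamP_anti {Ω Ω' : Set PP} (hΩ : IsOpen Ω) (hne : Ω.Nonempty) (hsub : Ω ⊆ Ω') :
    lamP Ω' ≤ lamP Ω := by
  obtain ⟨U0, hU0, hU00⟩ := exists_tst hΩ hne
  have hS : {q : ℝ | ∃ U : PP → ℝ, Tst ((⊤ : ℕ∞) : WithTop ℕ∞) Ω U ∧ U ≠ 0 ∧
      q = En U / Nm U}.Nonempty := ⟨_, U0, hU0, hU00, rfl⟩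
  unfold lamP
  apply csInf_le_csInf (lamP_bdd Ω') hS
  rintro q ⟨U, hU, hU1, rfl⟩
  exact ⟨U, hU.mono hsub, hU1, rfl⟩

/-- a smooth nonnegative modification of a test function -/
lemma exists_smooth_abs {Ω : Set PP} {U : PP → ℝ} (hU : Tst ((⊤ : ℕ∞) : WithTop ℕ∞) Ω U)
    {η : ℝ} (hη : 0 < η) : ∃ W : PP → ℝ, Tst ((⊤ : ℕ∞) : WithTop ℕ∞) Ω W ∧ (∀ p, 0 ≤ W p) ∧
      En W ≤ En U ∧ Nm U - 2 * η * (∫ p, |U p|) ≤ Nm W := by
  set W : PP → ℝ := fun p => Real.sqrt (U p ^ 2 + η ^ 2) - η with hW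
  have hpos : ∀ p, 0 < U p ^ 2 + η ^ 2 := fun p => by positivity
  have hsub : Function.support W ⊆ Function.support U := by
    intro p hp h0
    apply hp
    simp [hW, h0, Real.sqrt_sq hη.le]
  have hT : Tst ((⊤ : ℕ∞) : WithTop ℕ∞) Ω W := by
    refine ⟨?_, hU.2.1.mono hsub, (closure_mono hsub).trans hU.2.2⟩
    apply ContDiff.sub _ contDiff_const
    apply ContDiff.sqrt
    · exact (hU.1.pow 2).add contDiff_const
    · exact fun p => (hpos p).ne'
  have hW0 : ∀ p, 0 ≤ W p := by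
    intro p
    simp only [hW, sub_nonneg]
    apply Real.le_sqrt_of_sq_le
    nlinarith [sq_nonneg (U p)]
  have hWU : ∀ p, |U p| - η ≤ W p := by
    intro p
    simp only [hW]
    have : |U p| ≤ Real.sqrt (U p ^ 2 + η ^ 2) := Real.abs_le_sqrt (by nlinarith [sq_nonneg η])
    linarith
  have hfd : ∀ p v, (fderiv ℝ W p v) ^ 2 ≤ (fderiv ℝ U p v) ^ 2 := by
    intro p v
    have h1 : HasFDerivAt (fun p => U p ^ 2 + η ^ 2) ((2 * U p) • fderiv ℝ U p) p := by
      have := (((hU.1.differentiable (by simp) p).hasFDerivAt).pow 2).add_const (η ^ 2)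
      simpa using this
    have h2 := (h1.sqrt (hpos p).ne').sub_const η
    have h3 : fderiv ℝ W p = _ := h2.fderiv
    rw [h3]
    simp only [smul_apply, smul_eq_mul]
    have hs : 0 < Real.sqrt (U p ^ 2 + η ^ 2) := Real.sqrt_pos.2 (hpos p)
    have hs2 : Real.sqrt (U p ^ 2 + η ^ 2) ^ 2 = U p ^ 2 + η ^ 2 := Real.sq_sqrt (hpos p).le
    have h4 : (1 / (2 * Real.sqrt (U p ^ 2 + η ^ 2)) * (2 * U p * fderiv ℝ U p v)) ^ 2
        = U p ^ 2 / (U p ^ 2 + η ^ 2) * (fderiv ℝ U p v) ^ 2 := by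
      rw [mul_pow, div_pow, mul_pow 2 (Real.sqrt _), hs2]
      have := (hpos p).ne'
      field_simp
    rw [h4]
    have h5 : U p ^ 2 / (U p ^ 2 + η ^ 2) ≤ 1 := by
      rw [div_le_one (hpos p)]; nlinarith [sq_nonneg η]
    nlinarith [sq_nonneg (fderiv ℝ U p v)]
  refine ⟨W, hT, hW0, ?_, ?_⟩
  · unfold En
    apply integral_mono (hT.int_gsq (by simp)) (hU.int_gsq (by simp))
    intro p
    exact add_le_add (hfd p ex) (hfd p ey)
  · unfold Nm
    have hUi : Integrable (fun p => |U p|) := (integrable_of_cont hU.1.continuous hU.2.1).abs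
    rw [← integral_const_mul, ← integral_sub hU.int_sq (hUi.const_mul _)]
    apply integral_mono (hU.int_sq.sub (hUi.const_mul _)) hT.int_sq
    intro p
    show U p ^ 2 - 2 * η * |U p| ≤ W p ^ 2
    rw [← sq_abs (U p)]
    by_cases hc : η ≤ |U p|
    · have := hWU p
      nlinarith [pow_le_pow_left₀ (by linarith : (0:ℝ) ≤ |U p| - η) this 2, sq_nonneg η]
    · push Not at hc
      nlinarith [sq_nonneg (W p), abs_nonneg (U p)]

/-- normalised nonnegative near minimisers -/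
lemma exists_near_nonneg {Ω : Set PP} (hΩ : IsOpen Ω) (hne : Ω.Nonempty) {δ : ℝ} (hδ : 0 < δ) :
    ∃ W : PP → ℝ, Tst ((⊤ : ℕ∞) : WithTop ℕ∞) Ω W ∧ (∀ p, 0 ≤ W p) ∧ Nm W = 1 ∧
      En W ≤ lamP Ω + δ := by
  obtain ⟨U, hU, hN, hE⟩ := exists_near hΩ hne (half_pos hδ)
  set l := lamP Ω with hl
  have hl0 : 0 ≤ l := lamP_nonneg Ω
  set I := ∫ p, |U p| with hI
  have hI0 : 0 ≤ I := integral_nonneg (fun p => abs_nonneg _)
  set η : ℝ := δ / (4 * (I + 1) * (l + δ)) with hηd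
  have hη : 0 < η := by rw [hηd]; positivity
  obtain ⟨W, hW, hW0, hEW, hNW⟩ := exists_smooth_abs hU hη
  rw [hN, ← hI] at hNW
  have h1 : 2 * η * I * (l + δ) ≤ δ / 2 := by
    have e : 2 * η * I * (l + δ) = δ / 2 * (I / (I + 1)) := by
      rw [hηd]; field_simp; ring
    rw [e]
    have : I / (I + 1) ≤ 1 := by rw [div_le_one (by linarith)]; linarith
    nlinarith
  have h2 : 2 * η * I ≤ 1 / 2 := by
    have h3 : 2 * η * I * δ ≤ 2 * η * I * (l + δ) :=
      mul_le_mul_of_nonneg_left (by linarith) (by positivity)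
    have h4 : 2 * η * I * δ ≤ 1 / 2 * δ := by linarith
    exact le_of_mul_le_mul_right h4 hδ
  have hNpos : 0 < Nm W := by linarith
  set c : ℝ := (Real.sqrt (Nm W))⁻¹ with hc
  have hc2 : c ^ 2 = (Nm W)⁻¹ := by rw [hc, inv_pow, Real.sq_sqrt hNpos.le]
  have hc0 : 0 ≤ c := by rw [hc]; positivity
  refine ⟨fun p => c * W p, hW.const_mul c, fun p => mul_nonneg hc0 (hW0 p), ?_, ?_⟩
  · rw [Nm_const_mul, hc2, inv_mul_cancel₀ hNpos.ne']
  · rw [En_const_mul (by simp) hW, hc2, inv_mul_le_iff₀ hNpos]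
    calc En W ≤ l + δ / 2 := hEW.trans hE
      _ ≤ (1 - 2 * η * I) * (l + δ) := by nlinarith
      _ ≤ Nm W * (l + δ) := mul_le_mul_of_nonneg_right hNW (by linarith)

end

end Pool.Agent.MP70c477
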