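import Pool.Agent.MP70c477.LamBar

set_option autoImplicit false
set_option linter.unusedVariables false
set_option linter.unusedTactic false

open MeasureTheory Set Filter Topology ContinuousLinearMap
open scoped Convolution ENNReal NNReal Pointwise

namespace Pool.Agent.MP70c477

noncomputable section

lemma d2_tri (a b c : PP) : d2 a c ≤ 2 * (d2 a b + d2 b c) := by
  unfold d2
  nlinarith [sq_nonneg (2 * b.1 - a.1 - c.1), sq_nonneg (2 * b.2 - a.2 - c.2)]

lemma d2_comm (a b : PP) : d2 a b = d2 b a := by unfold d2; ring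

/-- smallness of the mean spreads: one step of the Harnack chain -/
lemma spread {Ω : Set PP} (hΩ : IsOpen Ω) {l : ℝ} (hl0 : 0 < l) (hl : l ≤ lamP Ω) {z : PP}
    {ρ R R' : ℝ} (hρ : 0 < ρ) (hR' : 0 < R') (hR'R : R' < R) (hsub : {p | d2 z p ≤ R ^ 2} ⊆ Ω) :
    ∃ C1 C2 : ℝ, 0 ≤ C1 ∧ 0 ≤ C2 ∧ ∀ W : PP → ℝ, Tst 1 Ω W → (∀ p, 0 ≤ W p) →
      (∫ p in disc z R', W p) ≤ C1 * Real.sqrt (Qf l W) + C2 * ∫ p in disc z ρ, W p := by
  obtain ⟨j, hj⟩ := exists_nat_ge (R ^ 2 / ρ ^ 2)
  have hjρ : R ^ 2 ≤ ((j : ℝ) + 2) * ρ ^ 2 := by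
    rw [div_le_iff₀ (by positivity)] at hj
    nlinarith [sq_nonneg ρ]
  have hR0 : 0 < R := hR'.trans hR'R
  set ψ := bar z R (j + 1 + 1) with hψ
  have hψT : Tst 1 Ω ψ := bar_tst z R (j + 1 + 1) (by omega) hsub
  have hgap : 0 < R ^ 2 - R' ^ 2 := by nlinarith
  set m : ℝ := l * (R ^ 2 - R' ^ 2) ^ (j + 3) with hm
  have hm0 : 0 < m := by rw [hm]; positivity
  set C : ℝ := 4 * ((j : ℝ) + 3) * (R ^ 2) ^ (j + 1) * R ^ 2 with hC
  have hC0 : 0 ≤ C := by rw [hC]; positivity
  refine ⟨m⁻¹ * Real.sqrt (Qf l ψ), m⁻¹ * C, by positivity, by positivity, ?_⟩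
  intro W hW hW0
  have hWc := hW.1.continuous
  have hQψ : 0 ≤ Qf l ψ := by
    unfold Qf
    have h1 := lamP_mul_le_C1 hΩ hψT
    have h2 := Nm_nonneg ψ
    nlinarith
  have hQW : 0 ≤ Qf l W := by
    unfold Qf
    have h1 := lamP_mul_le_C1 hΩ hW
    have h2 := Nm_nonneg W
    nlinarith
  have hB := Bf_sq_le hΩ hl hW hψT
  have hB' : |Bf l W ψ| ≤ Real.sqrt (Qf l W) * Real.sqrt (Qf l ψ) := by
    rw [← Real.sqrt_mul hQW]
    exact Real.abs_le_sqrt hB
  have hid := Bf_bar hW.1 hW.2.1 l z R (j + 1) (by omega)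
  rw [← hψ] at hid
  have hWi : Integrable W := integrable_of_cont hWc hW.2.1
  -- pointwise inequality
  have hqc : Continuous (qd z R) := (qd_contDiff z R (n := 1)).continuous
  have hpc : ∀ i, Continuous (fun p => pp i (qd z R p)) := fun i => (pp_cont i).comp hqc
  have c1 := hpc (j + 1)
  have cd : Continuous (d2 z) := by unfold d2; fun_prop
  have cψ : Continuous ψ := hψT.1.continuous
  have hint : Integrable (fun p => (lapb z R (j + 1) p + l * ψ p) * W p) := by
    apply integrable_of_cont _ hW.2.1.mul_left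
    unfold lapb
    fun_prop
  have hpt : ∀ p, (disc z R').indicator (fun p => m * W p) p
      - (disc z ρ).indicator (fun p => C * W p) p ≤ (lapb z R (j + 1) p + l * ψ p) * W p := by
    intro p
    have hWp := hW0 p
    have hψp : 0 ≤ ψ p := bar_nonneg _ _ _ _
    have hpp : 0 ≤ pp (j + 1) (qd z R p) := pp_nonneg _ _
    have hmax : max 0 (qd z R p) ≤ R ^ 2 := by
      apply max_le (by positivity)
      unfold qd; have := d2_nonneg z p; linarith
    have h1 : (disc z R').indicator (fun p => m * W p) p ≤ l * ψ p * W p := by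
      by_cases hp : p ∈ disc z R'
      · rw [indicator_of_mem hp]
        apply mul_le_mul_of_nonneg_right _ hWp
        rw [hm]
        apply mul_le_mul_of_nonneg_left _ hl0.le
        have h2 : R ^ 2 - R' ^ 2 ≤ max 0 (qd z R p) := by
          apply le_max_of_le_right
          have : d2 z p < R' ^ 2 := hp
          unfold qd; linarith
        show _ ≤ pp (j + 1 + 1 + 1) (qd z R p)
        unfold pp
        exact pow_le_pow_left₀ hgap.le h2 _
      · rw [indicator_of_notMem hp]
        positivity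
    have h2 : - (disc z ρ).indicator (fun p => C * W p) p ≤ lapb z R (j + 1) p * W p := by
      by_cases hp : p ∈ disc z ρ
      · rw [indicator_of_mem hp, ← neg_mul]
        apply mul_le_mul_of_nonneg_right _ hWp
        unfold lapb
        have h3 : pp (j + 1) (qd z R p) ≤ (R ^ 2) ^ (j + 1) := by
          unfold pp; exact pow_le_pow_left₀ (le_max_left _ _) hmax _
        have h4 : pp (j + 1) (qd z R p) * max 0 (qd z R p) ≤ (R ^ 2) ^ (j + 1) * R ^ 2 :=
          mul_le_mul h3 hmax (le_max_left _ _) (by positivity)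
        have h5 := d2_nonneg z p
        have h6 : 0 ≤ 4 * ((j : ℝ) + 3) * pp (j + 1) (qd z R p) * (((j : ℝ) + 2) * d2 z p) := by
          positivity
        have h7 : 4 * ((j : ℝ) + 3) * (pp (j + 1) (qd z R p) * max 0 (qd z R p)) ≤ C := by
          rw [hC]
          calc _ ≤ 4 * ((j : ℝ) + 3) * ((R ^ 2) ^ (j + 1) * R ^ 2) :=
                mul_le_mul_of_nonneg_left h4 (by positivity)
            _ = _ := by ring
        push_cast
        nlinarith
      · rw [indicator_of_notMem hp, neg_zero]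
        apply mul_nonneg _ hWp
        unfold lapb
        apply mul_nonneg (by positivity)
        push_cast
        have h3 : ρ ^ 2 ≤ d2 z p := not_lt.1 hp
        have h4 : R ^ 2 ≤ ((j : ℝ) + 1 + 1) * d2 z p := by
          calc R ^ 2 ≤ ((j : ℝ) + 2) * ρ ^ 2 := hjρ
            _ ≤ ((j : ℝ) + 2) * d2 z p := mul_le_mul_of_nonneg_left h3 (by positivity)
            _ = _ := by ring
        linarith
    have e : (lapb z R (j + 1) p + l * ψ p) * W p = l * ψ p * W p + lapb z R (j + 1) p * W p := by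
      ring
    rw [e]
    linarith
  have hm1 : MeasurableSet (disc z R') := (disc_open z R').measurableSet
  have hm2 : MeasurableSet (disc z ρ) := (disc_open z ρ).measurableSet
  have i1 : Integrable ((disc z R').indicator (fun p => m * W p)) :=
    (hWi.const_mul m).indicator hm1
  have i2 : Integrable ((disc z ρ).indicator (fun p => C * W p)) :=
    (hWi.const_mul C).indicator hm2
  have h8 := integral_mono (i1.sub i2) hint hpt
  simp only [Pi.sub_apply] at h8
  rw [integral_sub i1 i2, integral_indicator hm1, integral_indicator hm2, integral_const_mul,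
    integral_const_mul] at h8
  have h9 : (∫ p, (lapb z R (j + 1) p + l * ψ p) * W p) ≤ |Bf l W ψ| := by
    have : (∫ p, (lapb z R (j + 1) p + l * ψ p) * W p) = - Bf l W ψ := by rw [hid]; ring
    rw [this]; exact neg_le_abs _
  have h10 : m * (∫ p in disc z R', W p) ≤ Real.sqrt (Qf l W) * Real.sqrt (Qf l ψ)
      + C * ∫ p in disc z ρ, W p := by linarith
  calc (∫ p in disc z R', W p) = m⁻¹ * (m * (∫ p in disc z R', W p)) := by
        rw [inv_mul_cancel_left₀ hm0.ne']
    _ ≤ m⁻¹ * (Real.sqrt (Qf l W) * Real.sqrt (Qf l ψ) + C * ∫ p in disc z ρ, W p) :=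
        mul_le_mul_of_nonneg_left h10 (by positivity)
    _ = _ := by ring

/-- mean of a nonneg test function over a set, monotone in the set -/
lemma setInt_mono {Ω : Set PP} {W : PP → ℝ} (hW : Tst 1 Ω W) (hW0 : ∀ p, 0 ≤ W p) {s t : Set PP}
    (hst : s ⊆ t) : (∫ p in s, W p) ≤ ∫ p in t, W p := by
  have hWi : Integrable W := integrable_of_cont hW.1.continuous hW.2.1
  exact setIntegral_mono_set hWi.integrableOn (Eventually.of_forall hW0) hst.eventuallyLE

lemma setInt_nonneg {W : PP → ℝ} (hW0 : ∀ p, 0 ≤ W p) (s : Set PP) : 0 ≤ ∫ p in s, W p :=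
  integral_nonneg hW0

lemma setInt_union {Ω : Set PP} {W : PP → ℝ} (hW : Tst 1 Ω W) (hW0 : ∀ p, 0 ≤ W p) (s t : Set PP) :
    (∫ p in s ∪ t, W p) ≤ (∫ p in s, W p) + ∫ p in t, W p := by
  have hWi : Integrable W := integrable_of_cont hW.1.continuous hW.2.1
  rw [← integral_add_measure hWi.integrableOn hWi.integrableOn]
  apply integral_mono_measure (Measure.restrict_union_le s t) (Eventually.of_forall hW0)
  exact Integrable.add_measure hWi.integrableOn hWi.integrableOn

/-- If near-minimisers lose all their mass near one point, they lose it near every compact set. -/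
lemma tendsto_compact {Ω : Set PP} (hΩ : IsOpen Ω) (hc : IsPreconnected Ω) {l : ℝ} (hl0 : 0 < l)
    (hl : l ≤ lamP Ω) {W : ℕ → PP → ℝ} (hW : ∀ n, Tst 1 Ω (W n)) (hW0 : ∀ n p, 0 ≤ W n p)
    (hQ : Tendsto (fun n => Qf l (W n)) atTop (𝓝 0)) {z0 : PP} (hz0 : z0 ∈ Ω) {ρ0 : ℝ}
    (hρ0 : 0 < ρ0) (hstart : Tendsto (fun n => ∫ p in disc z0 ρ0, W n p) atTop (𝓝 0))
    {K : Set PP} (hK : IsCompact K) (hKΩ : K ⊆ Ω) :
    Tendsto (fun n => ∫ p in K, W n p) atTop (𝓝 0) := by
  set G : Set PP := {z | ∃ ρ > 0, Tendsto (fun n => ∫ p in disc z ρ, W n p) atTop (𝓝 0)} with hG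
  have hmono : ∀ s t : Set PP, s ⊆ t → Tendsto (fun n => ∫ p in t, W n p) atTop (𝓝 0) →
      Tendsto (fun n => ∫ p in s, W n p) atTop (𝓝 0) := by
    intro s t hst ht
    exact squeeze_zero (fun n => setInt_nonneg (hW0 n) s) (fun n => setInt_mono (hW n) (hW0 n) hst) ht
  have hself : ∀ (z : PP) (r : ℝ), 0 < r → z ∈ disc z r := by
    intro z r hr
    show d2 z z < r ^ 2
    unfold d2; simp; positivity
  have hnear : ∀ z z' : PP, ∀ r : ℝ, 0 < r → z' ∈ disc z (r / 2) → disc z' (r / 2) ⊆ disc z r := by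
    intro z z' r hr hz' p hp
    have h1 : d2 z z' < (r / 2) ^ 2 := hz'
    have h2 : d2 z' p < (r / 2) ^ 2 := hp
    have h3 := d2_tri z z' p
    show d2 z p < r ^ 2
    nlinarith
  have hGopen : IsOpen G := by
    rw [isOpen_iff_mem_nhds]
    rintro z ⟨ρ, hρ, hz⟩
    apply mem_of_superset ((disc_open z (ρ / 2)).mem_nhds (hself z _ (by positivity)))
    intro z' hz'
    exact ⟨ρ / 2, by positivity, hmono _ _ (hnear z z' ρ hρ hz') hz⟩
  have hsq : Tendsto (fun n => Real.sqrt (Qf l (W n))) atTop (𝓝 0) := by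
    have := (Real.continuous_sqrt.tendsto 0).comp hQ
    rw [Real.sqrt_zero] at this
    exact this
  have hclosed : closure G ∩ Ω ⊆ G := by
    rintro z ⟨hzc, hzΩ⟩
    obtain ⟨r, hr, hrs⟩ := Metric.isOpen_iff.1 hΩ z hzΩ
    have hdisc : disc z r ⊆ Ω := by
      intro p hp
      apply hrs
      have h1 : d2 z p < r ^ 2 := hp
      unfold d2 at h1
      rw [Metric.mem_ball, dist_eq_norm, Prod.norm_def, max_lt_iff]
      constructor
      · rw [Real.norm_eq_abs]
        exact abs_lt_of_sq_lt_sq (by show (p.1 - z.1) ^ 2 < r ^ 2; nlinarith [sq_nonneg (p.2 - z.2)]) hr.le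
      · rw [Real.norm_eq_abs]
        exact abs_lt_of_sq_lt_sq (by show (p.2 - z.2) ^ 2 < r ^ 2; nlinarith [sq_nonneg (p.1 - z.1)]) hr.le
    set R := r / 4 with hR
    have hR0 : 0 < R := by positivity
    obtain ⟨z', hz'd, ρ, hρ, hz'⟩ := mem_closure_iff.1 hzc (disc z (R / 2)) (disc_open _ _)
      (hself z _ (by positivity))
    have hzz' : d2 z z' < (R / 2) ^ 2 := hz'd
    have hsub : {p | d2 z' p ≤ (2 * R) ^ 2} ⊆ Ω := by
      intro p hp
      apply hdisc
      have h2 : d2 z' p ≤ (2 * R) ^ 2 := hp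
      have h3 := d2_tri z z' p
      show d2 z p < r ^ 2
      have h4 : r = 4 * R := by rw [hR]; ring
      rw [h4]
      nlinarith
    obtain ⟨C1, C2, hC1, hC2, hsp⟩ := spread hΩ hl0 hl hρ hR0 (by linarith : R < 2 * R) hsub
    have h5 : Tendsto (fun n => ∫ p in disc z' R, W n p) atTop (𝓝 0) := by
      apply squeeze_zero (fun n => setInt_nonneg (hW0 n) _) (fun n => hsp (W n) (hW n) (hW0 n))
      have := (hsq.const_mul C1).add (hz'.const_mul C2)
      simpa using this
    refine ⟨R / 2, by positivity, hmono _ _ ?_ h5⟩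
    apply hnear z' z R hR0
    show d2 z' z < (R / 2) ^ 2
    rw [d2_comm]; exact hzz'
  have hall : Ω ⊆ G := hc.subset_of_closure_inter_subset hGopen ⟨z0, hz0, ρ0, hρ0, hstart⟩ hclosed
  refine hK.induction_on (p := fun s => Tendsto (fun n => ∫ p in s, W n p) atTop (𝓝 0)) ?_ ?_ ?_ ?_
  · simp
  · intro s t hst ht; exact hmono s t hst ht
  · intro s t hs ht
    apply squeeze_zero (fun n => setInt_nonneg (hW0 n) _) (fun n => setInt_union (hW n) (hW0 n) s t)
    have := hs.add ht
    simpa using this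
  · intro z hz
    obtain ⟨ρ, hρ, h⟩ := hall (hKΩ hz)
    exact ⟨disc z ρ, mem_nhdsWithin_of_mem_nhds ((disc_open z ρ).mem_nhds (hself z ρ hρ)), h⟩

/-- ... and hence their total mass tends to zero -/
lemma tendsto_total {Ω : Set PP} (hΩ : IsOpen Ω) (hb : Bornology.IsBounded Ω)
    (hc : IsPreconnected Ω) {l : ℝ} (hl0 : 0 < l)
    (hl : l ≤ lamP Ω) {W : ℕ → PP → ℝ} (hW : ∀ n, Tst 1 Ω (W n)) (hW0 : ∀ n p, 0 ≤ W n p)
    (hN : ∀ n, Nm (W n) = 1)
    (hQ : Tendsto (fun n => Qf l (W n)) atTop (𝓝 0)) {z0 : PP} (hz0 : z0 ∈ Ω) {ρ0 : ℝ}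
    (hρ0 : 0 < ρ0) (hstart : Tendsto (fun n => ∫ p in disc z0 ρ0, W n p) atTop (𝓝 0)) :
    Tendsto (fun n => ∫ p, W n p) atTop (𝓝 0) := by
  rw [Metric.tendsto_atTop]
  intro ε hε
  have hvol : volume Ω ≠ ∞ := hb.measure_lt_top.ne
  obtain ⟨K, hKΩ, hK, hKv⟩ := hΩ.measurableSet.exists_isCompact_sdiff_lt hvol
    (ε := ENNReal.ofReal ((ε / 2) ^ 2)) (by positivity)
  have h1 := tendsto_compact hΩ hc hl0 hl hW hW0 hQ hz0 hρ0 hstart hK hKΩ
  rw [Metric.tendsto_atTop] at h1
  obtain ⟨N, hNN⟩ := h1 (ε / 2) (by positivity)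
  refine ⟨N, fun n hn => ?_⟩
  have h2 := hNN n hn
  rw [Real.dist_eq, sub_zero, abs_of_nonneg (setInt_nonneg (hW0 n) _)] at h2
  have hWi : Integrable (W n) := integrable_of_cont (hW n).1.continuous (hW n).2.1
  have hcover : (∫ p, W n p) ≤ (∫ p in K, W n p) + ∫ p in Ω \ K, W n p := by
    have h3 : (∫ p, W n p) = ∫ p in Ω, W n p := by
      symm
      apply setIntegral_eq_integral_of_forall_compl_eq_zero
      intro p hp
      exact image_eq_zero_of_notMem_tsupport (fun h => hp ((hW n).2.2 h))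
    rw [h3]
    calc (∫ p in Ω, W n p) ≤ ∫ p in K ∪ (Ω \ K), W n p :=
          setInt_mono (hW n) (hW0 n) (by
            intro x hx
            by_cases hxK : x ∈ K
            · exact Or.inl hxK
            · exact Or.inr ⟨hx, hxK⟩)
      _ ≤ _ := setInt_union (hW n) (hW0 n) _ _
  have hrest : (∫ p in Ω \ K, W n p) ≤ ε / 2 := by
    have hvol2 : volume (Ω \ K) ≠ ∞ := ne_top_of_le_ne_top hvol (measure_mono sdiff_subset)
    have hv : (volume (Ω \ K)).toReal ≤ (ε / 2) ^ 2 := by
      apply ENNReal.toReal_le_of_le_ofReal (by positivity) hKv.le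
    have hpt : ∀ p, W n p ≤ (ε / 4) * W n p ^ 2 + ε⁻¹ := by
      intro p
      have h4 : 0 ≤ (ε * W n p - 2) ^ 2 := sq_nonneg _
      have h5 : (ε / 4) * W n p ^ 2 + ε⁻¹ - W n p = (ε * W n p - 2) ^ 2 / (4 * ε) := by
        field_simp; ring
      have h6 : 0 ≤ (ε * W n p - 2) ^ 2 / (4 * ε) := by positivity
      linarith
    have : IsFiniteMeasure (volume.restrict (Ω \ K)) := ⟨by
      rw [Measure.restrict_apply_univ]; exact hvol2.lt_top⟩
    have h7 : (∫ p in Ω \ K, W n p) ≤ ∫ p in Ω \ K, ((ε / 4) * W n p ^ 2 + ε⁻¹) := by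
      apply integral_mono hWi.integrableOn
      · exact (((hW n).int_sq.const_mul (ε / 4)).integrableOn).add (integrable_const _)
      · exact hpt
    rw [integral_add (((hW n).int_sq.const_mul (ε / 4)).integrableOn) (integrable_const _),
      integral_const_mul, integral_const] at h7
    have h8 : (∫ p in Ω \ K, W n p ^ 2) ≤ 1 := by
      rw [← hN n]
      unfold Nm
      exact setIntegral_le_integral (hW n).int_sq (Eventually.of_forall (fun p => sq_nonneg _))
    have h9 : (volume.restrict (Ω \ K)).real univ • ε⁻¹ ≤ ε / 4 := by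
      rw [smul_eq_mul, Measure.real, Measure.restrict_apply_univ]
      calc _ ≤ (ε / 2) ^ 2 * ε⁻¹ := mul_le_mul_of_nonneg_right hv (by positivity)
        _ = ε / 4 := by field_simp; ring
    have h10 : (ε / 4) * (∫ p in Ω \ K, W n p ^ 2) ≤ (ε / 4) * 1 :=
      mul_le_mul_of_nonneg_left h8 (by positivity)
    linarith
  rw [Real.dist_eq, sub_zero, abs_of_nonneg (integral_nonneg (hW0 n))]
  linarith

lemma abs_le_int_deriv {f : ℝ → ℝ} (hf : ContDiff ℝ 1 f) (hc : HasCompactSupport f) (x : ℝ) :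
    |f x| ≤ ∫ t, |deriv f t| := by
  have hi : Integrable (deriv f) :=
    (hf.continuous_deriv le_rfl).integrable_of_hasCompactSupport hc.deriv
  rw [← hc.integral_Iic_deriv_eq hf x]
  calc |∫ t in Iic x, deriv f t| ≤ ∫ t in Iic x, |deriv f t| := abs_integral_le_integral_abs
    _ ≤ ∫ t, |deriv f t| := setIntegral_le_integral hi.abs (Eventually.of_forall (fun _ => abs_nonneg _))

lemma slice_x {U : PP → ℝ} (hU : ContDiff ℝ 1 U) (hc : HasCompactSupport U) (y : ℝ) :
    ContDiff ℝ 1 (fun x => U (x, y)) ∧ HasCompactSupport (fun x => U (x, y)) ∧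
      ∀ x, deriv (fun x => U (x, y)) x = fderiv ℝ U (x, y) ex := by
  refine ⟨hU.comp (contDiff_id.prodMk contDiff_const), ?_, ?_⟩
  · have h1 : HasCompactSupport (fun x => U (x, y)) := by
      apply HasCompactSupport.intro (hc.isCompact.image continuous_fst)
      intro x hx
      by_contra h0
      exact hx ⟨(x, y), subset_tsupport _ h0, rfl⟩
    exact h1
  · intro x
    have h1 : HasDerivAt (fun x : ℝ => ((x, y) : PP)) ex x := by
      unfold ex
      exact (hasDerivAt_id x).prodMk (hasDerivAt_const x y)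
    have h2 : HasDerivAt (fun x => U (x, y)) (fderiv ℝ U (x, y) ex) x :=
      ((hU.differentiable (by simp) (x, y)).hasFDerivAt).comp_hasDerivAt x h1
    exact h2.deriv

lemma slice_y {U : PP → ℝ} (hU : ContDiff ℝ 1 U) (hc : HasCompactSupport U) (x : ℝ) :
    ContDiff ℝ 1 (fun y => U (x, y)) ∧ HasCompactSupport (fun y => U (x, y)) ∧
      ∀ y, deriv (fun y => U (x, y)) y = fderiv ℝ U (x, y) ey := by
  refine ⟨hU.comp (contDiff_const.prodMk contDiff_id), ?_, ?_⟩
  · have h1 : HasCompactSupport (fun y => U (x, y)) := by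
      apply HasCompactSupport.intro (hc.isCompact.image continuous_snd)
      intro y hy
      by_contra h0
      exact hy ⟨(x, y), subset_tsupport _ h0, rfl⟩
    exact h1
  · intro y
    have h1 : HasDerivAt (fun y : ℝ => ((x, y) : PP)) ey y := by
      unfold ey
      exact (hasDerivAt_const y x).prodMk (hasDerivAt_id y)
    have h2 : HasDerivAt (fun y => U (x, y)) (fderiv ℝ U (x, y) ey) y :=
      ((hU.differentiable (by simp) (x, y)).hasFDerivAt).comp_hasDerivAt y h1
    exact h2.deriv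

/-- planar `L³` bound by slicing -/
lemma int_cube_le {U : PP → ℝ} (hU : ContDiff ℝ 1 U) (hc : HasCompactSupport U)
    (hU0 : ∀ p, 0 ≤ U p) :
    (∫ p, U p ^ 3) ≤ (∫ p, |2 * U p * fderiv ℝ U p ex|) * ∫ p, |fderiv ℝ U p ey| := by
  have hT : Tst 1 Set.univ U := ⟨hU, hc, subset_univ _⟩
  have cx := hT.cont_fderiv le_rfl ex
  have cy := hT.cont_fderiv le_rfl ey
  have cU := hU.continuous
  have hd2 : ∀ p, HasFDerivAt (fun p => U p ^ 2) ((2 * U p) • fderiv ℝ U p) p := by
    intro p
    have := ((hU.differentiable (by simp) p).hasFDerivAt).pow 2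
    simpa using this
  have hfd : ∀ p, fderiv ℝ (fun p => U p ^ 2) p ex = 2 * U p * fderiv ℝ U p ex := by
    intro p; rw [(hd2 p).fderiv]; simp
  have hU2 : ContDiff ℝ 1 (fun p => U p ^ 2) := hU.pow 2
  have hc2 : HasCompactSupport (fun p => U p ^ 2) := hasCompactSupport_sq hc
  set A : PP → ℝ := fun p => |2 * U p * fderiv ℝ U p ex| with hA
  set B : PP → ℝ := fun p => |fderiv ℝ U p ey| with hB
  have hAi : Integrable A := by
    apply Integrable.abs
    exact integrable_of_cont (by fun_prop) ((hc.mul_left (f := fun _ => (2:ℝ))).mul_right)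
  have hBi : Integrable B := (integrable_of_cont cy (hT.comp_fderiv ey)).abs
  have hAi' : Integrable A (volume.prod volume) := hAi
  have hBi' : Integrable B (volume.prod volume) := hBi
  set a : ℝ → ℝ := fun y => ∫ x, A (x, y) with ha
  set b : ℝ → ℝ := fun x => ∫ y, B (x, y) with hb
  have hai : Integrable a := hAi'.integral_prod_right
  have hbi : Integrable b := hBi'.integral_prod_left
  have ha1 : ∫ y, a y = ∫ p, A p := by
    rw [show (∫ p, A p) = ∫ p, A p ∂(volume.prod volume) from rfl, integral_prod_symm _ hAi']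
  have hb1 : ∫ x, b x = ∫ p, B p := by
    rw [show (∫ p, B p) = ∫ p, B p ∂(volume.prod volume) from rfl, integral_prod _ hBi']
  have hab : ∀ p : PP, U p ^ 3 ≤ b p.1 * a p.2 := by
    rintro ⟨x, y⟩
    have h1 : U (x, y) ≤ b x := by
      obtain ⟨s1, s2, s3⟩ := slice_y hU hc x
      have h := abs_le_int_deriv s1 s2 y
      simp only [s3] at h
      exact (le_abs_self _).trans h
    have h2 : U (x, y) ^ 2 ≤ a y := by
      obtain ⟨s1, s2, s3⟩ := slice_x hU2 hc2 y
      have h := abs_le_int_deriv s1 s2 x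
      simp only [s3, hfd] at h
      exact (le_abs_self _).trans h
    have h3 := hU0 (x, y)
    calc U (x, y) ^ 3 = U (x, y) * U (x, y) ^ 2 := by ring
      _ ≤ b x * a y := mul_le_mul h1 h2 (sq_nonneg _) (h3.trans h1)
  calc (∫ p, U p ^ 3) ≤ ∫ p : PP, b p.1 * a p.2 := by
        apply integral_mono _ _ hab
        · apply integrable_of_cont (by fun_prop)
          have : (fun p => U p ^ 3) = fun p => U p ^ 2 * U p := by ext p; ring
          rw [this]
          exact hc.mul_left
        · exact hbi.mul_prod hai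
    _ = (∫ x, b x) * ∫ y, a y := by
        rw [← integral_prod_mul]
        rfl
    _ = _ := by rw [ha1, hb1]; ring

/-- Cauchy-Schwarz in the weak form -/
lemma int_abs_le_of_bdd {Ω : Set PP} (hb : Bornology.IsBounded Ω) {f : PP → ℝ}
    (hf : Continuous f) (hc : HasCompactSupport f) (hs : ∀ p, p ∉ Ω → f p = 0) (hΩ : MeasurableSet Ω) :
    (∫ p, |f p|) ≤ (volume Ω).toReal + ∫ p, f p ^ 2 := by
  have hfi := (integrable_of_cont hf hc).abs
  have hf2 : Integrable (fun p => f p ^ 2) := integrable_of_cont (hf.pow 2) (hasCompactSupport_sq hc)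
  have hi : Integrable (Ω.indicator (fun _ => (1:ℝ))) :=
    (integrable_indicator_iff hΩ).2 (integrableOn_const hb.measure_lt_top.ne)
  have h1 : (∫ p, |f p|) ≤ ∫ p, (Ω.indicator (fun _ => (1:ℝ)) p + f p ^ 2) := by
    apply integral_mono hfi (hi.add hf2)
    intro p
    show |f p| ≤ Ω.indicator (fun _ => (1:ℝ)) p + f p ^ 2
    by_cases hp : p ∈ Ω
    · rw [indicator_of_mem hp]
      have := sq_abs (f p)
      nlinarith [sq_nonneg (|f p| - 1), abs_nonneg (f p)]
    · rw [indicator_of_notMem hp, hs p hp]; simp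
  rw [integral_add hi hf2, integral_indicator hΩ] at h1
  simpa [Measure.real] using h1

/-- strict domain monotonicity of the first eigenvalue -/
theorem lamP_strict {Ω Ω' : Set PP} (hΩ : IsOpen Ω) (hne : Ω.Nonempty) (hΩ' : IsOpen Ω')
    (hb : Bornology.IsBounded Ω') (hc : IsPreconnected Ω') (hsub : Ω ⊆ Ω')
    {z0 : PP} (hz0 : z0 ∈ Ω') (hz0' : z0 ∉ closure Ω) : lamP Ω' < lamP Ω := by
  have hle := lamP_anti hΩ hne hsub
  rcases hle.lt_or_eq with h | heq
  · exact h
  exfalso
  have hne' : Ω'.Nonempty := hne.mono hsub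
  set l := lamP Ω' with hl
  have hl0 : 0 < l := lamP_pos hΩ' hne' hb
  have hex : ∀ n : ℕ, ∃ W : PP → ℝ, Tst ((⊤ : ℕ∞) : WithTop ℕ∞) Ω W ∧ (∀ p, 0 ≤ W p) ∧ Nm W = 1 ∧
      En W ≤ lamP Ω + 1 / ((n : ℝ) + 1) := fun n => exists_near_nonneg hΩ hne (by positivity)
  choose W hW hW0 hN hE using hex
  have hW1 : ∀ n, Tst 1 Ω' (W n) := fun n => ((hW n).of_le (by exact_mod_cast le_top)).mono hsub
  have hQ0 : ∀ n, 0 ≤ Qf l (W n) := by
    intro n
    have h1 := lamP_mul_le_C1 hΩ' (hW1 n)
    unfold Qf; linarith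
  have hQ : Tendsto (fun n => Qf l (W n)) atTop (𝓝 0) := by
    apply squeeze_zero hQ0 (g := fun n : ℕ => 1 / ((n : ℝ) + 1))
    · intro n
      have := hE n
      unfold Qf
      rw [hN n, heq]
      linarith
    · exact tendsto_one_div_add_atTop_nhds_zero_nat
  -- start of the chain
  obtain ⟨ρ, hρ, hρs⟩ := Metric.isOpen_iff.1 (isClosed_closure (s := Ω)).isOpen_compl z0 hz0'
  have hstart : Tendsto (fun n => ∫ p in disc z0 ρ, W n p) atTop (𝓝 0) := by
    have h0 : ∀ n, ∫ p in disc z0 ρ, W n p = 0 := by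
      intro n
      apply setIntegral_eq_zero_of_forall_eq_zero
      intro p hp
      apply image_eq_zero_of_notMem_tsupport
      intro h
      have h1 : p ∈ Metric.ball z0 ρ := by
        have h1 : d2 z0 p < ρ ^ 2 := hp
        unfold d2 at h1
        rw [Metric.mem_ball, dist_eq_norm, Prod.norm_def, max_lt_iff]
        constructor
        · rw [Real.norm_eq_abs]
          exact abs_lt_of_sq_lt_sq (by show (p.1 - z0.1) ^ 2 < ρ ^ 2; nlinarith [sq_nonneg (p.2 - z0.2)]) hρ.le
        · rw [Real.norm_eq_abs]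
          exact abs_lt_of_sq_lt_sq (by show (p.2 - z0.2) ^ 2 < ρ ^ 2; nlinarith [sq_nonneg (p.1 - z0.1)]) hρ.le
      exact hρs h1 (subset_closure ((hW n).2.2 h))
    simp only [h0]
    exact tendsto_const_nhds
  have htot := tendsto_total hΩ' hb hc hl0 hl.le hW1 hW0 hN hQ hz0 hρ hstart
  -- energy bound and the cube bound
  set E : ℝ := lamP Ω + 1 with hEdef
  have hEn : ∀ n, En (W n) ≤ E := by
    intro n
    have h1 : 1 / ((n : ℝ) + 1) ≤ 1 := by
      rw [div_le_one (by positivity)]; linarith [Nat.cast_nonneg (α := ℝ) n]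
    linarith [hE n]
  set V : ℝ := (volume Ω').toReal with hV
  have hV0 : 0 ≤ V := ENNReal.toReal_nonneg
  have hE0 : 0 ≤ E := le_trans (En_nonneg _) (hEn 0)
  set M : ℝ := (1 + E) * (V + E) + 1 with hM
  have hM0 : 0 < M := by rw [hM]; positivity
  have hcube : ∀ n, (∫ p, W n p ^ 3) ≤ M := by
    intro n
    have h1 := int_cube_le (hW1 n).1 (hW1 n).2.1 (hW0 n)
    have hx := (hW1 n).int_fderiv_sq le_rfl ex
    have hy := (hW1 n).int_fderiv_sq le_rfl ey
    have hEq := En_eq le_rfl (hW1 n)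
    have hx0 : 0 ≤ ∫ p, (fderiv ℝ (W n) p ex) ^ 2 := integral_nonneg (fun p => sq_nonneg _)
    have hy0 : 0 ≤ ∫ p, (fderiv ℝ (W n) p ey) ^ 2 := integral_nonneg (fun p => sq_nonneg _)
    have cU := (hW1 n).1.continuous
    have cx := (hW1 n).cont_fderiv le_rfl ex
    have h2 : (∫ p, |2 * W n p * fderiv ℝ (W n) p ex|) ≤ 1 + E := by
      calc (∫ p, |2 * W n p * fderiv ℝ (W n) p ex|)
          ≤ ∫ p, (W n p ^ 2 + (fderiv ℝ (W n) p ex) ^ 2) := by
            apply integral_mono _ ((hW1 n).int_sq.add hx)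
            · intro p
              show |2 * W n p * fderiv ℝ (W n) p ex| ≤ W n p ^ 2 + (fderiv ℝ (W n) p ex) ^ 2
              rw [abs_le]
              constructor
              · nlinarith [sq_nonneg (W n p + fderiv ℝ (W n) p ex)]
              · nlinarith [sq_nonneg (W n p - fderiv ℝ (W n) p ex)]
            · apply Integrable.abs
              exact integrable_of_cont (by fun_prop)
                (((hW1 n).2.1.mul_left (f := fun _ => (2:ℝ))).mul_right)
        _ = Nm (W n) + ∫ p, (fderiv ℝ (W n) p ex) ^ 2 := integral_add (hW1 n).int_sq hx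
        _ ≤ 1 + E := by rw [hN n]; linarith [hEn n]
    have h3 : (∫ p, |fderiv ℝ (W n) p ey|) ≤ V + E := by
      have h4 := int_abs_le_of_bdd hb ((hW1 n).cont_fderiv le_rfl ey) ((hW1 n).comp_fderiv ey)
        (by
          intro p hp
          have : p ∉ tsupport (W n) := fun h => hp ((hW1 n).2.2 h)
          rw [fderiv_zero_of_notMem this]; simp) hΩ'.measurableSet
      have := hEn n
      linarith
    have h5 : 0 ≤ ∫ p, |fderiv ℝ (W n) p ey| := integral_nonneg (fun p => abs_nonneg _)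
    calc (∫ p, W n p ^ 3) ≤ (1 + E) * (V + E) :=
          h1.trans (mul_le_mul h2 h3 h5 (by positivity))
      _ ≤ M := by rw [hM]; linarith
  have hlow : ∀ n, M⁻¹ ≤ ∫ p, W n p := by
    intro n
    have hWi : Integrable (W n) := integrable_of_cont (hW1 n).1.continuous (hW1 n).2.1
    have hW3 : Integrable (fun p => W n p ^ 3) := by
      have cU := (hW1 n).1.continuous
      apply integrable_of_cont (by fun_prop)
      have : (fun p => W n p ^ 3) = fun p => W n p ^ 2 * W n p := by ext p; ring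
      rw [this]
      exact (hW1 n).2.1.mul_left
    have h1 : Nm (W n) ≤ ∫ p, ((M / 2) * W n p + (2 * M)⁻¹ * W n p ^ 3) := by
      unfold Nm
      apply integral_mono (hW1 n).int_sq ((hWi.const_mul _).add (hW3.const_mul _))
      intro p
      show W n p ^ 2 ≤ (M / 2) * W n p + (2 * M)⁻¹ * W n p ^ 3
      have h2 := hW0 n p
      have h3 : (M / 2) * W n p + (2 * M)⁻¹ * W n p ^ 3 - W n p ^ 2
          = W n p * (W n p - M) ^ 2 / (2 * M) := by
        field_simp; ring
      have h4 : 0 ≤ W n p * (W n p - M) ^ 2 / (2 * M) := by positivity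
      linarith
    rw [hN n, integral_add (hWi.const_mul _) (hW3.const_mul _), integral_const_mul,
      integral_const_mul] at h1
    have h5 : (2 * M)⁻¹ * (∫ p, W n p ^ 3) ≤ 1 / 2 := by
      calc (2 * M)⁻¹ * (∫ p, W n p ^ 3) ≤ (2 * M)⁻¹ * M :=
            mul_le_mul_of_nonneg_left (hcube n) (by positivity)
        _ = 1 / 2 := by field_simp
    have h6 : 1 / 2 ≤ (M / 2) * ∫ p, W n p := by linarith
    rw [inv_eq_one_div, div_le_iff₀ hM0]
    linarith
  have hfin : M⁻¹ ≤ 0 := ge_of_tendsto' htot hlow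
  have : 0 < M⁻¹ := by positivity
  linarith

end

end Pool.Agent.MP70c477
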