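import Pool.Agent.MP70c477.NonFlat

/-!
# Local structure of the inner parallel set of an optimal set
-/

namespace Pool.MP70c477

open MeasureTheory Set Filter Topology Bornology
open scoped ENNReal NNReal RealInnerProductSpace

/-- near `p` the set `inner Ω r` is the intersection of two half-planes, whose parallels at
distance `r` support `Ω` -/
def Loc (Ω : Set Pl) (r : ℝ) (p : Pl) : Prop :=
  ∃ (n₁ n₂ : Pl) (c₁ c₂ ε : ℝ), ‖n₁‖ = 1 ∧ ‖n₂‖ = 1 ∧ 0 < ε ∧
    (∀ x ∈ Ω, ⟪n₁, x⟫ < c₁ + r) ∧ (∀ x ∈ Ω, ⟪n₂, x⟫ < c₂ + r) ∧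
    ∀ x ∈ Metric.ball p ε, ⟪n₁, x⟫ ≤ c₁ → ⟪n₂, x⟫ ≤ c₂ → x ∈ inner Ω r

lemma loc_of_image {R : Pl ≃ₗᵢ[ℝ] Pl} {c p : Pl} {Ω : Set Pl} {r : ℝ}
    (h : Loc (isoMap R c '' Ω) r (isoMap R c p)) : Loc Ω r p := by
  obtain ⟨n₁, n₂, c₁, c₂, ε, hn1, hn2, hε, h1, h2, h3⟩ := h
  have key : ∀ n x : Pl, ⟪R.symm n, x⟫ = ⟪n, isoMap R c x⟫ - ⟪n, c⟫ := by
    intro n x
    rw [isoMap, inner_add_right, add_sub_cancel_right]
    have := R.inner_map_map (R.symm n) x
    rw [R.apply_symm_apply] at this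
    exact this.symm
  refine ⟨R.symm n₁, R.symm n₂, c₁ - ⟪n₁, c⟫, c₂ - ⟪n₂, c⟫, ε, by simpa using hn1,
    by simpa using hn2, hε, ?_, ?_, ?_⟩
  · intro x hx
    rw [key]
    have := h1 _ (mem_image_of_mem _ hx)
    linarith
  · intro x hx
    rw [key]
    have := h2 _ (mem_image_of_mem _ hx)
    linarith
  · intro x hx e1 e2
    rw [key] at e1 e2
    rw [← mem_inner_image R c]
    apply h3 _ _ (by linarith) (by linarith)
    rw [Metric.mem_ball, dist_isoMap]; exact hx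

namespace Frame

variable {Ω : Set Pl} {r ρ c : ℝ}

/-- flatness on the right gives a supporting line and the local shape on the right -/
lemma right_local (h : Frame Ω r ρ c)
    (hflat : ∃ x, 0 < x ∧ x ≤ ρ / 2 ∧ sm (lo Ω) r x ≤ sm (lo Ω) r 0) :
    ∃ m x₁ : ℝ, 0 < x₁ ∧
      (∀ x y, pt x y ∈ Ω → Gf Ω r 0 + m * x - r * Real.sqrt (1 + m ^ 2) < y) ∧
      (∀ x y, 0 ≤ x → x ≤ x₁ → Gf Ω r 0 + m * x ≤ y → y ≤ Gf Ω r 0 + m * x + ρ →
        pt x y ∈ inner Ω r) := by
  obtain ⟨x₁, hx0, hx1, hle⟩ := hflat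
  obtain ⟨L, hC⟩ := h.exists_cset
  have hr := h.hr
  have hρ := h.hρ
  have k0 : |(0:ℝ)| ≤ ρ / 2 := by rw [abs_zero]; positivity
  have k1 : |x₁| ≤ ρ / 2 := by rwa [abs_of_pos hx0]
  have hc0 := hC.isC_cm k0
  have hlt := hC.abs_lt_of_isC k0 hc0
  set g := lo Ω with hg
  set X0 := cm g r 0 with hX0
  have hm0 : sm g r 0 = slo r (X0 - 0) := rfl
  have hG0 : Gf Ω r 0 = g X0 + arc r (X0 - 0) := rfl
  refine ⟨sm g r 0, x₁, hx0, ?_, ?_⟩
  · intro x y hxy
    have hx : x ∈ dom Ω := ⟨y, hxy⟩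
    have h1 := ((mem_iff_lo_hi h.pc hx).1 hxy).1
    have h2 := hC.subgrad k0 hc0 hx
    have ha := arc_pos hlt
    have hasq := arc_sq hlt.le
    have hs : Real.sqrt (1 + sm g r 0 ^ 2) = r / arc r (X0 - 0) := by
      rw [Real.sqrt_eq_iff_mul_self_eq (by positivity) (by positivity), hm0, slo_eq]
      field_simp
      rw [hasq]; ring
    rw [hs, hG0]
    have h3 : r * (r / arc r (X0 - 0)) = slo r (X0 - 0) * X0 + arc r (X0 - 0) := by
      rw [slo_eq]
      field_simp
      rw [hasq]; ring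
    rw [h3, hm0]
    have h4 : slo r (X0 - 0) * (x - X0) = slo r (X0 - 0) * x - slo r (X0 - 0) * X0 := by ring
    rw [h4] at h2
    linarith
  · intro x y hx0' hx1' hy1 hy2
    have kx : |x| ≤ ρ / 2 := by rw [abs_of_nonneg hx0']; linarith
    have hsx : sm g r x = sm g r 0 := by
      apply le_antisymm
      · exact (hC.sm_mono kx k1 hx1').trans hle
      · exact hC.sm_mono k0 kx hx0'
    have hcx := hC.isC_cm kx
    have e1 := hC.center_ge k0 kx hc0 hcx
    have e2 := hC.center_ge kx k0 hcx hc0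
    have hGx : Gf Ω r x = Gf Ω r 0 + sm g r 0 * x := by
      have i1 : Gf Ω r 0 + sm g r 0 * x ≤ Gf Ω r x := by
        have : slo r (cm g r 0 - 0) * (x - 0) = sm g r 0 * x := by rw [sub_zero x]; rfl
        rw [this] at e1
        exact e1
      have i2 : Gf Ω r x - sm g r x * x ≤ Gf Ω r 0 := by
        have : slo r (cm g r x - x) * (0 - x) = - (sm g r x * x) := by
          rw [zero_sub, mul_neg]; rfl
        rw [this] at e2
        exact e2
      rw [hsx] at i2
      linarith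
    obtain ⟨heq, hlen⟩ := h.Sl_eq hC kx
    have : y ∈ Sl Ω r x := by
      rw [heq, hGx]; rw [hGx] at hlen
      exact ⟨hy1, by linarith⟩
    exact this

end Frame

/-- the reflection in the second axis -/
noncomputable def refl2 : Pl ≃ₗᵢ[ℝ] Pl :=
  LinearIsometryEquiv.piLpCongrRight 2 ![LinearIsometryEquiv.neg ℝ, LinearIsometryEquiv.refl ℝ ℝ]

lemma refl2_pt (x y : ℝ) : refl2 (pt x y) = pt (-x) y := by
  ext i
  fin_cases i
  · simp [refl2, pt]
  · simp [refl2, pt]

lemma isoMap_refl2 (x y : ℝ) : isoMap refl2 0 (pt x y) = pt (-x) y := by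
  rw [isoMap, add_zero, refl2_pt]

lemma mem_image_refl2 {S : Set Pl} {x y : ℝ} : pt x y ∈ isoMap refl2 0 '' S ↔ pt (-x) y ∈ S := by
  constructor
  · rintro ⟨v, hv, hvx⟩
    rw [← pt_eta v, isoMap_refl2] at hvx
    obtain ⟨h1, h2⟩ := pt_inj hvx
    rw [← h1, ← h2, neg_neg, pt_eta]; exact hv
  · intro h
    refine ⟨_, h, ?_⟩
    rw [isoMap_refl2, neg_neg]

namespace Frame

variable {Ω : Set Pl} {r ρ c : ℝ}

lemma reflect (h : Frame Ω r ρ c) : Frame (isoMap refl2 0 '' Ω) r ρ c := by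
  refine ⟨isPlanarConvex_image _ _ h.pc, h.hr, h.hρ, ?_⟩
  intro v hv
  rw [inner_image, ← pt_eta v, mem_image_refl2]
  apply h.ball
  rw [← pt_eta v, mem_ball_pt h.hρ, sub_zero] at hv
  rw [mem_ball_pt h.hρ, sub_zero, abs_neg]
  refine ⟨hv.1, ?_⟩
  have : arc ρ (-v 0) = arc ρ (v 0) := by unfold arc; rw [neg_sq]
  rw [this]
  exact hv.2

lemma Gf_reflect (h : Frame Ω r ρ c) : Gf (isoMap refl2 0 '' Ω) r 0 = Gf Ω r 0 := by
  obtain ⟨L, hC⟩ := h.exists_cset
  obtain ⟨L', hC'⟩ := h.reflect.exists_cset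
  have hρ := h.hρ
  have k0 : |(0:ℝ)| ≤ ρ / 2 := by rw [abs_zero]; positivity
  obtain ⟨e1, l1⟩ := h.Sl_eq hC k0
  obtain ⟨e2, l2⟩ := h.reflect.Sl_eq hC' k0
  have e3 : Sl (isoMap refl2 0 '' Ω) r 0 = Sl Ω r 0 := by
    ext y
    change pt 0 y ∈ inner _ r ↔ pt 0 y ∈ inner Ω r
    rw [inner_image, mem_image_refl2, neg_zero]
  rw [e3, e1] at e2
  have := (Icc_eq_Icc_iff (by linarith)).1 e2
  exact this.1.symm

/-- a boundary point of the inner parallel set on the vertical axis -/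
lemma loc (h : Frame Ω r ρ c)
    (hflat : ∃ x, 0 < x ∧ x ≤ ρ / 2 ∧ sm (lo Ω) r x ≤ sm (lo Ω) r 0)
    (hflat' : ∃ x, 0 < x ∧ x ≤ ρ / 2 ∧
      sm (lo (isoMap refl2 0 '' Ω)) r x ≤ sm (lo (isoMap refl2 0 '' Ω)) r 0) :
    Loc Ω r (pt 0 (Gf Ω r 0)) := by
  obtain ⟨m₁, x₁, hx₁, S1, T1⟩ := h.right_local hflat
  obtain ⟨m₂, x₂, hx₂, S2, T2⟩ := h.reflect.right_local hflat'
  rw [h.Gf_reflect] at S2 T2
  have hρ := h.hρ
  set G := Gf Ω r 0 with hG
  set s₁ := Real.sqrt (1 + m₁ ^ 2) with hs₁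
  set s₂ := Real.sqrt (1 + m₂ ^ 2) with hs₂
  have hs₁0 : 0 < s₁ := Real.sqrt_pos.2 (by positivity)
  have hs₂0 : 0 < s₂ := Real.sqrt_pos.2 (by positivity)
  have hs₁2 : s₁ ^ 2 = 1 + m₁ ^ 2 := Real.sq_sqrt (by positivity)
  have hs₂2 : s₂ ^ 2 = 1 + m₂ ^ 2 := Real.sq_sqrt (by positivity)
  set ε := min (min x₁ x₂) (min (ρ / (1 + |m₁|)) (ρ / (1 + |m₂|))) with hε
  have hε0 : 0 < ε := by positivity
  have f1 : ε ≤ x₁ := (min_le_left _ _).trans (min_le_left _ _)
  have f2 : ε ≤ x₂ := (min_le_left _ _).trans (min_le_right _ _)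
  have f3 : ε * (1 + |m₁|) ≤ ρ := by
    rw [← le_div_iff₀ (by positivity)]; exact (min_le_right _ _).trans (min_le_left _ _)
  have f4 : ε * (1 + |m₂|) ≤ ρ := by
    rw [← le_div_iff₀ (by positivity)]; exact (min_le_right _ _).trans (min_le_right _ _)
  refine ⟨pt (m₁ / s₁) (-1 / s₁), pt (-m₂ / s₂) (-1 / s₂), -G / s₁, -G / s₂, ε, ?_, ?_, hε0,
    ?_, ?_, ?_⟩
  · rw [← sq_eq_sq₀ (norm_nonneg _) (by norm_num), norm_sq_pl, pt_zero, pt_one]
    field_simp; linarith
  · rw [← sq_eq_sq₀ (norm_nonneg _) (by norm_num), norm_sq_pl, pt_zero, pt_one]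
    field_simp; linarith
  · intro v hv
    rw [← pt_eta v] at hv
    have := S1 _ _ hv
    rw [inner_pl, pt_zero, pt_one]
    have e : -G / s₁ + r - (m₁ / s₁ * v 0 + -1 / s₁ * v 1) =
        (v 1 - (G + m₁ * v 0 - r * s₁)) / s₁ := by field_simp; ring
    have : 0 < (v 1 - (G + m₁ * v 0 - r * s₁)) / s₁ := div_pos (by linarith) hs₁0
    linarith
  · intro v hv
    have hv' : pt (-v 0) (v 1) ∈ isoMap refl2 0 '' Ω := by
      rw [mem_image_refl2, neg_neg, pt_eta]; exact hv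
    have := S2 _ _ hv'
    rw [inner_pl, pt_zero, pt_one]
    have e : -G / s₂ + r - (-m₂ / s₂ * v 0 + -1 / s₂ * v 1) =
        (v 1 - (G + m₂ * (-v 0) - r * s₂)) / s₂ := by field_simp; ring
    have : 0 < (v 1 - (G + m₂ * (-v 0) - r * s₂)) / s₂ := div_pos (by linarith) hs₂0
    linarith
  · intro v hv i1 i2
    rw [inner_pl, pt_zero, pt_one] at i1 i2
    have j1 : G + m₁ * v 0 ≤ v 1 := by
      have e : -G / s₁ - (m₁ / s₁ * v 0 + -1 / s₁ * v 1) = (v 1 - (G + m₁ * v 0)) / s₁ := by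
        field_simp; ring
      have : 0 ≤ (v 1 - (G + m₁ * v 0)) / s₁ := by linarith
      by_contra hc
      rw [not_le] at hc
      have := div_neg_of_neg_of_pos (show v 1 - (G + m₁ * v 0) < 0 by linarith) hs₁0
      linarith
    have j2 : G - m₂ * v 0 ≤ v 1 := by
      have e : -G / s₂ - (-m₂ / s₂ * v 0 + -1 / s₂ * v 1) = (v 1 - (G - m₂ * v 0)) / s₂ := by
        field_simp; ring
      have : 0 ≤ (v 1 - (G - m₂ * v 0)) / s₂ := by linarith
      by_contra hc
      rw [not_le] at hc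
      have := div_neg_of_neg_of_pos (show v 1 - (G - m₂ * v 0) < 0 by linarith) hs₂0
      linarith
    rw [← pt_eta v, Metric.mem_ball] at hv
    have hd := dist_pt_sq (v 0) (v 1) 0 G
    have hd0 : 0 ≤ dist (pt (v 0) (v 1)) (pt 0 G) := dist_nonneg
    have hd2 : dist (pt (v 0) (v 1)) (pt 0 G) ^ 2 < ε ^ 2 := by gcongr
    have k1 : |v 0| < ε := by
      apply abs_lt_of_sq_lt_sq _ hε0.le
      nlinarith [sq_nonneg (v 1 - G)]
    have k2 : |v 1 - G| < ε := by
      apply abs_lt_of_sq_lt_sq _ hε0.le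
      nlinarith [sq_nonneg (v 0 - 0)]
    have k3 := abs_lt.1 k1
    have k4 := abs_lt.1 k2
    rw [← pt_eta v]
    rcases le_total 0 (v 0) with hs | hs
    · apply T1 _ _ hs (by linarith) j1
      have b1 : -(m₁ * v 0) ≤ |m₁| * ε := by
        calc -(m₁ * v 0) ≤ |m₁ * v 0| := neg_le_abs _
          _ = |m₁| * |v 0| := abs_mul _ _
          _ ≤ |m₁| * ε := by gcongr
      have b2 : ε * (1 + |m₁|) = ε + |m₁| * ε := by ring
      linarith
    · have hm : pt (-v 0) (v 1) ∈ inner (isoMap refl2 0 '' Ω) r := by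
        apply T2 _ _ (by linarith) (by linarith) (by linarith)
        have b1 : -(m₂ * (-v 0)) ≤ |m₂| * ε := by
          calc -(m₂ * (-v 0)) ≤ |m₂ * (-v 0)| := neg_le_abs _
            _ = |m₂| * |v 0| := by rw [abs_mul, abs_neg]
            _ ≤ |m₂| * ε := by gcongr
        have b2 : ε * (1 + |m₂|) = ε + |m₂| * ε := by ring
        linarith
      rw [inner_image, mem_image_refl2, neg_neg] at hm
      exact hm

end Frame

open Pool.MP70c477.Frame in
/-- **Local structure.** -/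
theorem local_of_opt (hA4 : A4Statement) {Ω : Set Pl} (h : IsPlanarConvex Ω) (hopt : Opt Ω)
    (hlam : 0 < lam Ω) {p : Pl} (hp : p ∈ frontier (inner Ω (rad Ω))) : Loc Ω (rad Ω) p := by
  set r := rad Ω with hr
  have hr0 : 0 < r := rad_pos h
  set K := inner Ω r with hK
  have hKc : Convex ℝ K := convex_inner h.convex r
  have hKcl : IsClosed K := isClosed_inner h.bdd r
  have hint : (interior K).Nonempty := by
    by_contra hc
    rw [not_nonempty_iff_eq_empty] at hc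
    have h1 : volume K = 0 := by
      have := hKc.addHaar_frontier (volume : Measure Pl)
      rw [frontier, hKcl.closure_eq, hc, sdiff_empty] at this
      exact this
    have h2 := marea_rad h
    rw [marea, ← hr, ← hK, h1, ENNReal.toReal_zero] at h2
    have : 0 < Real.pi * r ^ 2 := by positivity
    linarith
  obtain ⟨o, ho⟩ := hint
  obtain ⟨ρ, hρ, hball⟩ := Metric.isOpen_iff.1 isOpen_interior o ho
  have hball' : Metric.ball o ρ ⊆ K := hball.trans interior_subset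
  have hpK : p ∈ K := hKcl.frontier_subset hp
  have hpi : p ∉ interior K := fun hh => hp.2 hh
  have hop : 0 < ‖o - p‖ := by
    rw [norm_pos_iff, sub_ne_zero]
    rintro rfl
    exact hpi ho
  set d := ‖o - p‖ with hd
  -- the isometry
  have hn : ‖o - p‖ = ‖pt 0 d‖ := by
    rw [← sq_eq_sq₀ (norm_nonneg _) (norm_nonneg _), norm_sq_pl (pt 0 d), pt_zero, pt_one, hd]
    ring
  set R : Pl ≃ₗᵢ[ℝ] Pl := (ℝ ∙ ((o - p) - pt 0 d))ᗮ.reflection with hR
  have hRo : R (o - p) = pt 0 d := Submodule.reflection_sub hn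
  set cc : Pl := -(R p) with hcc
  have hmp : isoMap R cc p = pt 0 0 := by
    rw [isoMap, hcc, add_neg_cancel]
    ext i; fin_cases i <;> simp [pt]
  have hmo : isoMap R cc o = pt 0 d := by
    rw [isoMap, hcc, ← sub_eq_add_neg, ← map_sub, hRo]
  set Ω' := isoMap R cc '' Ω with hΩ'
  have hrad : rad Ω' = r := rad_image R cc h
  have hF : Frame Ω' r ρ d := by
    refine ⟨isPlanarConvex_image _ _ h, hr0, hρ, ?_⟩
    rw [hΩ', inner_image]
    intro v hv
    rw [image_isoMap, mem_preimage]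
    apply hball'
    rw [Metric.mem_ball, ← dist_isoMap R cc, isoMap_isoInv, hmo]
    exact hv
  have hopt' : Opt Ω' := opt_image R cc h hopt
  have hlam' : 0 < lam Ω' := by rw [lam_image R cc h]; exact hlam
  have hF1 : Frame Ω' (rad Ω') ρ d := by rw [hrad]; exact hF
  have hfl := flat_of_opt hA4 hF1 hopt' hlam'
  have hF2 := hF1.reflect
  have hrad2 : rad (isoMap refl2 0 '' Ω') = rad Ω' := rad_image refl2 0 hF.pc
  have hF3 : Frame (isoMap refl2 0 '' Ω') (rad (isoMap refl2 0 '' Ω')) ρ d := by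
    rw [hrad2]; exact hF2
  have hfl2 := flat_of_opt hA4 hF3 (opt_image refl2 0 hF.pc hopt')
    (by rw [lam_image refl2 0 hF.pc]; exact hlam')
  rw [hrad2, hrad] at hfl2
  rw [hrad] at hfl
  have hloc := hF.loc hfl hfl2
  -- the lower boundary point is the origin
  have hG : Gf Ω' r 0 = 0 := by
    obtain ⟨L, hC⟩ := hF.exists_cset
    have k0 : |(0:ℝ)| ≤ ρ / 2 := by rw [abs_zero]; positivity
    obtain ⟨e1, l1⟩ := hF.Sl_eq hC k0
    have hmem : (0:ℝ) ∈ Sl Ω' r 0 := by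
      change pt 0 0 ∈ inner Ω' r
      rw [← hmp, hΩ', mem_inner_image]; exact hpK
    rw [e1] at hmem
    rcases hmem.1.eq_or_lt with h1 | h1
    · exact h1
    exfalso
    -- the point below is in `K`
    have hb : Gf Ω' r 0 ∈ Sl Ω' r 0 := by rw [e1]; exact ⟨le_rfl, by linarith⟩
    set q := isoInv R cc (pt 0 (Gf Ω' r 0)) with hq
    have hqK : q ∈ K := by
      rw [hK, ← mem_inner_image R cc, hq, isoMap_isoInv]; exact hb
    have hpseg : p ∈ openSegment ℝ o q := by
      set G := Gf Ω' r 0 with hGdef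
      refine ⟨-G / (d - G), d / (d - G), div_pos (by linarith) (by linarith),
        div_pos hop (by linarith), ?_, ?_⟩
      · rw [← add_div, div_eq_one_iff_eq (by linarith)]; ring
      · have hinj : Function.Injective (isoMap R cc) :=
          Function.LeftInverse.injective (isoInv_isoMap R cc)
        apply hinj
        have hab : -G / (d - G) + d / (d - G) = 1 := by
          rw [← add_div, div_eq_one_iff_eq (by linarith)]; ring
        have : isoMap R cc ((-G / (d - G)) • o + (d / (d - G)) • q) =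
            (-G / (d - G)) • isoMap R cc o + (d / (d - G)) • isoMap R cc q := by
          unfold isoMap
          rw [map_add, map_smul, map_smul, smul_add, smul_add]
          have : cc = (-G / (d - G)) • cc + (d / (d - G)) • cc := by
            rw [← add_smul, hab, one_smul]
          nth_rewrite 1 [this]
          abel
        rw [this, hmo, hq, isoMap_isoInv, smul_pt, smul_pt, pt_add, hmp]
        have hdG : d - G ≠ 0 := by linarith
        congr 1
        · ring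
        · field_simp; ring
    exact hpi (hKc.openSegment_interior_self_subset_interior ho hqK hpseg)
  rw [hG, ← hmp] at hloc
  exact loc_of_image hloc

end Pool.MP70c477
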