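import Pool.Agent.MP70c477.Shell

/-!
# Mollification of Lipschitz functions; first facts on the Cheeger constant
-/

namespace Pool.MP70c477

open MeasureTheory Set Filter Topology Bornology
open scoped ENNReal NNReal RealInnerProductSpace ContDiff Convolution

/-- Mollification of a nonnegative compactly supported Lipschitz function. -/
theorem exists_smooth_of_lipschitz {v : Pl → ℝ} {C : ℝ≥0} (hv : LipschitzWith C v)
    (hc : HasCompactSupport v) (hv0 : ∀ x, 0 ≤ v x) {Ω : Set Pl} (hΩ : IsOpen Ω)
    (hsub : tsupport v ⊆ Ω) :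
    ∃ ψ : Pl → ℝ, ContDiff ℝ ∞ ψ ∧ HasCompactSupport ψ ∧ tsupport ψ ⊆ Ω ∧ (∀ x, 0 ≤ ψ x) ∧
      ∫⁻ x, ‖fderiv ℝ ψ x‖ₑ ≤ ∫⁻ x, ‖fderiv ℝ v x‖ₑ ∧ ∫ x, ψ x = ∫ x, v x := by
  have hcv : Continuous v := hv.continuous
  obtain ⟨d, hd, hdsub⟩ := hc.isCompact.exists_cthickening_subset_open hΩ hsub
  set φ : ContDiffBump (0 : Pl) := ⟨d / 2, d, by positivity, by linarith⟩ with hφ
  set L : ℝ →L[ℝ] ℝ →L[ℝ] ℝ := ContinuousLinearMap.lsmul ℝ ℝ with hL
  set ψ : Pl → ℝ := φ.normed volume ⋆[L, volume] v with hψ
  have hφs : ContDiff ℝ ∞ (φ.normed (volume : Measure Pl)) := φ.contDiff_normed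
  have hφc : HasCompactSupport (φ.normed (volume : Measure Pl)) := φ.hasCompactSupport_normed
  have hφi : Integrable (φ.normed (volume : Measure Pl)) volume :=
    φ.continuous_normed.integrable_of_hasCompactSupport hφc
  have hφ0 : ∀ x, 0 ≤ φ.normed (volume : Measure Pl) x := φ.nonneg_normed
  have hvi : Integrable v volume := hcv.integrable_of_hasCompactSupport hc
  have hψx : ∀ x, ψ x = ∫ t, φ.normed volume t * v (x - t) := by
    intro x
    rw [hψ, convolution_def]
    simp [hL]
  have hsup : Function.support ψ ⊆ Metric.thickening d (tsupport v) := by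
    refine (support_convolution_subset L).trans ?_
    rw [φ.support_normed_eq]
    rintro _ ⟨a, ha, b, hb, rfl⟩
    rw [Metric.mem_thickening_iff]
    refine ⟨b, subset_closure hb, ?_⟩
    simpa [dist_eq_norm] using ha
  have hts : tsupport ψ ⊆ Metric.cthickening d (tsupport v) := by
    refine closure_minimal (hsup.trans ?_) Metric.isClosed_cthickening
    exact Metric.thickening_subset_cthickening _ _
  have hder : ∀ x, HasFDerivAt ψ (∫ t, φ.normed volume t • fderiv ℝ v (x - t)) x := by
    intro x
    have h1 : HasFDerivAt (fun x => ∫ t, φ.normed volume t * v (x - t))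
        (∫ t, φ.normed volume t • fderiv ℝ v (x - t)) x := by
      refine (hasFDerivAt_integral_of_dominated_loc_of_lip (s := univ)
        (F' := fun t => φ.normed volume t • fderiv ℝ v (x - t))
        (bound := fun t => φ.normed volume t * C) univ_mem ?_ ?_ ?_ ?_ ?_ ?_).2
      · refine Eventually.of_forall fun y => ?_
        exact (φ.continuous_normed.mul (hcv.comp (continuous_const.sub
          continuous_id))).aestronglyMeasurable
      · exact (φ.continuous_normed.mul (hcv.comp (continuous_const.sub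
          continuous_id))).integrable_of_hasCompactSupport hφc.mul_right
      · refine φ.continuous_normed.aestronglyMeasurable.smul ?_
        exact ((measurable_fderiv ℝ v).comp (measurable_const.sub
          measurable_id)).aestronglyMeasurable
      · refine Eventually.of_forall fun t => ?_
        refine LipschitzOnWith.of_dist_le_mul fun y _ z _ => ?_
        rw [Real.dist_eq, ← mul_sub, abs_mul]
        have h2 := hv.dist_le_mul (y - t) (z - t)
        rw [Real.dist_eq, dist_sub_right] at h2
        have h3 : ((Real.nnabs (φ.normed volume t * (C : ℝ)) : ℝ≥0) : ℝ) =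
            |φ.normed volume t| * C := by
          simp
        rw [h3, mul_assoc]
        exact mul_le_mul_of_nonneg_left h2 (abs_nonneg _)
      · exact hφi.mul_const _
      · have hqm : Measure.QuasiMeasurePreserving (fun t : Pl => x - t) volume volume :=
          quasiMeasurePreserving_sub_left_of_right_invariant volume x
        filter_upwards [hqm.ae hv.ae_differentiableAt] with t ht
        have h4 : HasFDerivAt (fun y => v (y - t)) (fderiv ℝ v (x - t)) x := by
          have h5 : HasFDerivAt (fun y : Pl => y - t) (ContinuousLinearMap.id ℝ Pl) x :=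
            (hasFDerivAt_id x).sub_const t
          have := ht.hasFDerivAt.comp x h5
          rw [ContinuousLinearMap.comp_id] at this
          exact this
        exact h4.const_mul (φ.normed volume t)
    have h2 : ψ = fun x => ∫ t, φ.normed volume t * v (x - t) := funext hψx
    rw [h2]; exact h1
  refine ⟨ψ, ?_, ?_, hts.trans hdsub, ?_, ?_, ?_⟩
  · exact hφc.contDiff_convolution_left L hφs (hcv.locallyIntegrable)
  · exact HasCompactSupport.of_support_subset_isCompact
      (hc.isCompact.cthickening (r := d)) ((subset_tsupport _).trans hts)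
  · intro x
    rw [hψx]
    exact integral_nonneg fun t => mul_nonneg (hφ0 t) (hv0 _)
  · have hm : Measurable (fderiv ℝ v) := measurable_fderiv ℝ v
    calc ∫⁻ x, ‖fderiv ℝ ψ x‖ₑ
        ≤ ∫⁻ x, ∫⁻ t, ‖φ.normed volume t‖ₑ * ‖fderiv ℝ v (x - t)‖ₑ := by
          refine lintegral_mono fun x => ?_
          rw [(hder x).fderiv]
          refine (enorm_integral_le_lintegral_enorm _).trans (le_of_eq ?_)
          refine lintegral_congr fun t => ?_
          rw [enorm_smul]
      _ = ∫⁻ t, ∫⁻ x, ‖φ.normed volume t‖ₑ * ‖fderiv ℝ v (x - t)‖ₑ := by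
          rw [lintegral_lintegral_swap]
          refine Measurable.aemeasurable ?_
          exact ((φ.continuous_normed.measurable.comp measurable_snd).enorm).mul
            ((hm.comp (measurable_fst.sub measurable_snd)).enorm)
      _ = ∫⁻ t, ‖φ.normed volume t‖ₑ * ∫⁻ x, ‖fderiv ℝ v x‖ₑ := by
          refine lintegral_congr fun t => ?_
          rw [lintegral_const_mul' _ _ (by simp)]
          congr 1
          exact lintegral_sub_right_eq_self (fun x => ‖fderiv ℝ v x‖ₑ) t
      _ = (∫⁻ t, ‖φ.normed volume t‖ₑ) * ∫⁻ x, ‖fderiv ℝ v x‖ₑ := by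
          rw [lintegral_mul_const _ φ.continuous_normed.measurable.enorm]
      _ = ∫⁻ x, ‖fderiv ℝ v x‖ₑ := by
          have h1 : ∫⁻ t, ‖φ.normed volume t‖ₑ = 1 := by
            rw [← ofReal_integral_norm_eq_lintegral_enorm hφi]
            have : ∫ t, ‖φ.normed (volume : Measure Pl) t‖ = 1 := by
              rw [← φ.integral_normed (μ := volume)]
              refine integral_congr_ae (Eventually.of_forall fun t => ?_)
              exact Real.norm_of_nonneg (hφ0 t)
            rw [this]; simp
          rw [h1, one_mul]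
      _ ≤ _ := le_rfl
  · rw [hψ, integral_convolution L hφi hvi, φ.integral_normed]
    simp [hL]

/-! ### First facts on the Cheeger constant -/

lemma IsTest.integrable_fderiv {Ω : Set Pl} {u : Pl → ℝ} (hu : IsTest Ω u) :
    Integrable (fun x => ‖fderiv ℝ u x‖) := by
  have h1 : Continuous (fderiv ℝ u) := hu.1.continuous_fderiv (by simp)
  exact (h1.integrable_of_hasCompactSupport (hu.2.1.fderiv ℝ)).norm

lemma IsTest.integrable_abs {Ω : Set Pl} {u : Pl → ℝ} (hu : IsTest Ω u) :
    Integrable (fun x => |u x|) :=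
  (hu.1.continuous.integrable_of_hasCompactSupport hu.2.1).abs

lemma IsTest.integral_abs_pos {Ω : Set Pl} {u : Pl → ℝ} (hu : IsTest Ω u) :
    0 < ∫ x, |u x| := by
  rw [integral_pos_iff_support_of_nonneg (fun x => abs_nonneg _) hu.integrable_abs]
  have h1 : Function.support (fun x => |u x|) = Function.support u := by
    ext x; simp
  rw [h1]
  have h2 : IsOpen (Function.support u) := hu.1.continuous.isOpen_support
  exact h2.measure_pos volume (Function.support_nonempty_iff.2 hu.2.2.2)

lemma cheeger_bddBelow (Ω : Set Pl) : BddBelow {q : ℝ | ∃ u : Pl → ℝ, IsTest Ω u ∧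
    q = (∫ x, ‖fderiv ℝ u x‖) / (∫ x, |u x|)} := by
  refine ⟨0, ?_⟩
  rintro q ⟨u, _, rfl⟩
  exact div_nonneg (integral_nonneg fun _ => norm_nonneg _) (integral_nonneg fun _ => abs_nonneg _)

lemma cheeger_le {Ω : Set Pl} {u : Pl → ℝ} (hu : IsTest Ω u) :
    cheeger Ω ≤ (∫ x, ‖fderiv ℝ u x‖) / (∫ x, |u x|) :=
  csInf_le (cheeger_bddBelow Ω) ⟨u, hu, rfl⟩

/-- a bump function as a test function -/
lemma exists_isTest {Ω : Set Pl} (hΩ : IsOpen Ω) (hne : Ω.Nonempty) : ∃ u, IsTest Ω u := by
  obtain ⟨x, hx⟩ := hne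
  obtain ⟨d, hd, hdsub⟩ := Metric.isOpen_iff.1 hΩ x hx
  set φ : ContDiffBump x := ⟨d / 4, d / 2, by positivity, by linarith⟩ with hφ
  refine ⟨φ, φ.contDiff, φ.hasCompactSupport, ?_, ?_⟩
  · rw [φ.tsupport_eq]
    exact (Metric.closedBall_subset_ball (by simp [hφ]; linarith)).trans hdsub
  · intro h
    have h1 : φ x = 1 := φ.one_of_mem_closedBall (Metric.mem_closedBall_self φ.rIn_pos.le)
    have h2 : φ x = 0 := congrFun h x
    linarith

/-- a Lipschitz test function bounds the Cheeger constant -/
lemma cheeger_mul_le {Ω : Set Pl} (hΩ : IsOpen Ω) {v : Pl → ℝ} {C : ℝ≥0}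
    (hv : LipschitzWith C v) (hc : HasCompactSupport v) (hv0 : ∀ x, 0 ≤ v x)
    (hsub : tsupport v ⊆ Ω) {M : ℝ} (hM0 : 0 ≤ M)
    (hM : ∫⁻ x, ‖fderiv ℝ v x‖ₑ ≤ ENNReal.ofReal M) :
    cheeger Ω * ∫ x, v x ≤ M := by
  obtain ⟨ψ, h1, h2, h3, h4, h5, h6⟩ := exists_smooth_of_lipschitz hv hc hv0 hΩ hsub
  rcases eq_or_ne ψ 0 with h0 | h0
  · rw [← h6, h0]; simpa using hM0
  have hT : IsTest Ω ψ := ⟨h1, h2, h3, h0⟩
  have h7 := cheeger_le hT
  have h8 : ∫ x, |ψ x| = ∫ x, v x := by
    rw [← h6]; exact integral_congr_ae (Eventually.of_forall fun x => abs_of_nonneg (h4 x))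
  have h9 := hT.integral_abs_pos
  rw [le_div_iff₀ h9, h8] at h7
  refine h7.trans ?_
  have h10 := ofReal_integral_norm_eq_lintegral_enorm (μ := volume)
    (((h1.continuous_fderiv (by simp)).integrable_of_hasCompactSupport (h2.fderiv ℝ)))
  rw [← h10] at h5
  exact (ENNReal.ofReal_le_ofReal_iff hM0).1 (h5.trans hM)

/-- `h(Ω) |A_{-ε}| ≤ P(A)` for convex `A ⊂⊂ Ω`. -/
lemma cheeger_mul_volume_inner_le {Ω A : Set Pl} (hΩ : IsOpen Ω) (hb : IsBounded A)
    (hc : Convex ℝ A) (hsub : closure A ⊆ Ω) {ε : ℝ} (hε : 0 < ε) (h0 : 0 ≤ cheeger Ω) :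
    cheeger Ω * (volume (inner A ε)).toReal ≤ per A := by
  have hts : tsupport (trd A ε) ⊆ Ω := (closure_mono (trd_support hε)).trans hsub
  have h1 := cheeger_mul_le hΩ (trd_lipschitz A ε) (trd_hasCompactSupport hb hε)
    (trd_nonneg hε.le) hts (M := ε * per A) (mul_nonneg hε.le (per_nonneg A))
    (lintegral_trd_le_per hb hc hε)
  have hi : Integrable (trd A ε) := (trd_lipschitz A ε).continuous.integrable_of_hasCompactSupport
    (trd_hasCompactSupport hb hε)
  have hK : IsCompact (inner A ε) := isCompact_inner hb hε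
  have h2 : ε * (volume (inner A ε)).toReal ≤ ∫ x, trd A ε x := by
    have h3 : ∫ x in inner A ε, ε = (volume (inner A ε)).toReal * ε := by
      rw [setIntegral_const]; simp [Measure.real]
    calc ε * (volume (inner A ε)).toReal = ∫ x in inner A ε, ε := by rw [h3]; ring
      _ ≤ ∫ x in inner A ε, trd A ε x := by
          refine setIntegral_mono_on (integrableOn_const hK.measure_lt_top.ne) hi.integrableOn
            hK.measurableSet fun x hx => ?_
          exact le_min ((mem_inner_iff_infDist (compl_nonempty hb)).1 hx) le_rfl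
      _ ≤ ∫ x, trd A ε x := setIntegral_le_integral hi (Eventually.of_forall (trd_nonneg hε.le))
  have h4 : ε * (cheeger Ω * (volume (inner A ε)).toReal) ≤ ε * per A := by
    calc ε * (cheeger Ω * (volume (inner A ε)).toReal)
        = cheeger Ω * (ε * (volume (inner A ε)).toReal) := by ring
      _ ≤ cheeger Ω * ∫ x, trd A ε x := mul_le_mul_of_nonneg_left h2 h0
      _ ≤ ε * per A := h1
  exact le_of_mul_le_mul_left h4 hε

lemma cheeger_nonneg (Ω : Set Pl) : 0 ≤ cheeger Ω :=
  Real.sInf_nonneg (by
    rintro q ⟨u, _, rfl⟩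
    exact div_nonneg (integral_nonneg fun _ => norm_nonneg _)
      (integral_nonneg fun _ => abs_nonneg _))

/-- `h(Ω) |A| ≤ P(A)` for open convex `A ⊂⊂ Ω`. -/
lemma cheeger_mul_volume_le {Ω A : Set Pl} (hΩ : IsOpen Ω) (hA : IsOpen A) (hb : IsBounded A)
    (hc : Convex ℝ A) (hsub : closure A ⊆ Ω) :
    cheeger Ω * (volume A).toReal ≤ per A := by
  have h0 := cheeger_nonneg Ω
  have key : ∀ ε > 0, cheeger Ω * (volume A).toReal ≤ per A + cheeger Ω * (ε * per A) := by
    intro ε hε
    have h1 := cheeger_mul_volume_inner_le hΩ hb hc hsub hε h0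
    have h2 := volume_le_inner_add hA hb hc hε
    have h3 : (volume A).toReal ≤ (volume (inner A ε)).toReal + ε * per A := by
      have h4 := ENNReal.toReal_mono (ENNReal.add_ne_top.2
        ⟨(isCompact_inner hb hε).measure_lt_top.ne, ENNReal.ofReal_ne_top⟩) h2
      rwa [ENNReal.toReal_add (isCompact_inner hb hε).measure_lt_top.ne ENNReal.ofReal_ne_top,
        ENNReal.toReal_ofReal (mul_nonneg hε.le (per_nonneg A))] at h4
    calc cheeger Ω * (volume A).toReal
        ≤ cheeger Ω * ((volume (inner A ε)).toReal + ε * per A) :=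
          mul_le_mul_of_nonneg_left h3 h0
      _ = cheeger Ω * (volume (inner A ε)).toReal + cheeger Ω * (ε * per A) := by ring
      _ ≤ _ := by linarith
  refine le_of_forall_pos_le_add fun η hη => ?_
  set c := cheeger Ω * per A with hcd
  have hc0 : 0 ≤ c := mul_nonneg h0 (per_nonneg A)
  have h5 := key (η / (c + 1)) (by positivity)
  have h6 : cheeger Ω * (η / (c + 1) * per A) = η * (c / (c + 1)) := by
    rw [hcd]; ring
  have h7 : c / (c + 1) ≤ 1 := by rw [div_le_one (by positivity)]; linarith
  have h8 : η * (c / (c + 1)) ≤ η * 1 := mul_le_mul_of_nonneg_left h7 hη.le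
  linarith

/-- **(U)** If `|Ω_{-r}| ≥ π r²` then `h(Ω) ≤ 1/r`. -/
theorem cheeger_le_of_inner {Ω : Set Pl} (hΩ : IsPlanarConvex Ω) {r : ℝ} (hr : 0 < r)
    (h : Real.pi * r ^ 2 ≤ (volume (inner Ω r)).toReal) : cheeger Ω * r ≤ 1 := by
  have h0 := cheeger_nonneg Ω
  have hK : IsCompact (inner Ω r) := isCompact_inner hΩ.bdd hr
  have hKfin : volume (inner Ω r) ≠ ⊤ := hK.measure_lt_top.ne
  have hKc : Convex ℝ (inner Ω r) := convex_inner hΩ.convex r
  have hKne : (inner Ω r).Nonempty := by
    by_contra hne
    rw [not_nonempty_iff_eq_empty] at hne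
    rw [hne] at h
    simp at h
    have : 0 < Real.pi * r ^ 2 := by positivity
    linarith
  have key : ∀ s, 0 < s → s < r → cheeger Ω * s ≤ 1 := by
    intro s hs hsr
    set A := Metric.thickening s (inner Ω r) with hA
    have hAo : IsOpen A := Metric.isOpen_thickening
    have hAb : IsBounded A := isBounded_thickening hK.isBounded s
    have hAc : Convex ℝ A := hKc.thickening s
    have hcl : closure A ⊆ Ω := by
      refine (Metric.closure_thickening_subset_cthickening s _).trans ?_
      intro x hx
      rw [hK.cthickening_eq_biUnion_closedBall hs.le] at hx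
      simp only [mem_iUnion] at hx
      obtain ⟨y, hy, hxy⟩ := hx
      exact hy (Metric.closedBall_subset_ball hsr hxy)
    have h1 := cheeger_mul_volume_le hΩ.isOpen hAo hAb hAc hcl
    have h2 := volume_thickening_ge hKne hK hKc hs
    have h3 := per_thickening hK.isBounded hs.le (A := inner Ω r)
    have hAfin : volume A ≠ ⊤ := hAb.measure_lt_top.ne
    have hp := per_nonneg (inner Ω r)
    have h4 : (volume (inner Ω r)).toReal + (s * per (inner Ω r) + Real.pi * s ^ 2) ≤
        (volume A).toReal := by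
      have h5 := ENNReal.toReal_mono hAfin h2
      rwa [ENNReal.toReal_add hKfin ENNReal.ofReal_ne_top, ENNReal.toReal_ofReal
        (by positivity)] at h5
    have h6 : s * per A ≤ (volume A).toReal := by
      have h7 : s * per A ≤ s * (per (inner Ω r) + 2 * Real.pi * s) :=
        mul_le_mul_of_nonneg_left h3 hs.le
      have h8 : Real.pi * s ^ 2 ≤ Real.pi * r ^ 2 := by gcongr
      nlinarith
    have hpA : 0 < per A := by
      have h9 : 0 < (volume A).toReal := by
        have : 0 < Real.pi * r ^ 2 := by positivity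
        have h10 : 0 ≤ s * per (inner Ω r) + Real.pi * s ^ 2 := by positivity
        linarith
      by_contra hcon
      rw [not_lt] at hcon
      have h11 : per A = 0 := le_antisymm hcon (per_nonneg A)
      have h12 := volume_le_inner_add hAo hAb hAc hs
      rw [h11] at h1
      have h13 : cheeger Ω = 0 := by
        by_contra hne
        have : 0 < cheeger Ω := lt_of_le_of_ne h0 (Ne.symm hne)
        have := mul_pos this h9
        linarith
      -- `per A = 0` contradicts that `A` contains a disc
      obtain ⟨c, hc⟩ := hKne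
      have h14 : ∀ θ, 2 * s ≤ wid A θ := fun θ => ball_wid hAb (c := c) (ρ := s)
        (fun y hy => Metric.mem_thickening_iff.2 ⟨c, hc, hy⟩) θ
      have h15 := per_le_of_wid (A := ∅) (B := A) Bornology.isBounded_empty hAb (c := 0)
        (d := 2 * s) (fun θ => by simpa using h14 θ)
      have : 0 < Real.pi * (2 * s) := by positivity
      linarith
    have h16 : cheeger Ω * (s * per A) ≤ per A :=
      (mul_le_mul_of_nonneg_left h6 h0).trans h1
    have h17 : (cheeger Ω * s) * per A ≤ 1 * per A := by linarith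
    exact le_of_mul_le_mul_right h17 hpA
  by_contra hcon
  rw [not_le] at hcon
  have hcp : 0 < cheeger Ω := by
    by_contra hne
    have : cheeger Ω = 0 := le_antisymm (not_lt.1 hne) h0
    rw [this] at hcon; linarith
  obtain ⟨s, hs1, hs2⟩ := exists_between (show 1 / cheeger Ω < r by
    rw [div_lt_iff₀ hcp]; linarith)
  have hs0 : 0 < s := (by positivity : (0:ℝ) < 1 / cheeger Ω).trans hs1
  have h1 := key s hs0 hs2
  rw [div_lt_iff₀ hcp] at hs1
  linarith

end Pool.MP70c477
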