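import Pool.Agent.MP70c477.Window

/-!
# The non-flat case is impossible for optimal sets
-/

namespace Pool.MP70c477

open MeasureTheory Set Filter Topology Bornology
open scoped ENNReal NNReal RealInnerProductSpace

/-- the second difference estimate for the eigenvalue (to be proved separately) -/
def A4Statement : Prop :=
  ∀ Ω : Set Pl, IsPlanarConvex Ω → ∀ Lg Wd τ₀ : ℝ, 0 ≤ Lg → 0 ≤ Wd → 0 < τ₀ →
  ∃ C : ℝ, 0 ≤ C ∧ ∀ (p q : ℝ) (g : ℝ → ℝ), p < q → q - p ≤ Wd →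
    (∀ x ∈ Icc p q, ∀ y ∈ Icc p q, |g x - g y| ≤ Lg * |x - y|) →
    (∀ x ∈ Icc p q, ∀ z, 0 < z → z ≤ 2 * τ₀ → pt x (g x + z) ∈ Ω) →
    (∀ x ∈ Icc p q, ∀ z, 0 ≤ z → pt x (g x - z) ∉ Ω) →
    ∀ τ κ κ' : ℝ, 0 < τ → τ ≤ τ₀ → 0 ≤ κ → 0 ≤ κ' →
    ∀ η : ℝ → ℝ, (∀ x, 0 ≤ η x) → (∀ x, η x ≤ 1) → (∀ x, x ≤ p → η x = 0) →
    (∀ x, q ≤ x → η x = 0) → (∀ x y, |η x - η y| ≤ κ * |x - y|) →
    (∀ x y, p + τ ≤ x → p + τ ≤ y → |η x - η y| ≤ κ' * |x - y|) →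
    ∃ e₀ > 0, ∀ e, 0 < e → e ≤ e₀ → ∀ L M : Set Pl, IsPlanarConvex L → IsPlanarConvex M →
      (∀ x y, pt x y ∈ Ω → ¬ (p ≤ x ∧ x ≤ q ∧ y ≤ g x + e * η x) → pt x y ∈ L) →
      Ω ⊆ M →
      (∀ x y, p < x → x < q → g x - e * η x < y → y ≤ g x → pt x y ∈ M) →
      lam L + lam M ≤ 2 * lam Ω + C * e ^ 2 * (1 + 1 / τ + κ' ^ 2 * τ + κ ^ 2 * τ ^ 2)

namespace Frame

variable {Ω : Set Pl} {r ρ c : ℝ}

lemma exists_gap (h : Frame Ω r ρ c) : ∃ τ₀ > 0, ∀ X ∈ Icc (-(r + ρ / 2)) (r + ρ / 2),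
    2 * τ₀ < hi Ω X - lo Ω X := by
  have hr := h.hr
  have hρ := h.hρ
  have hsub : Icc (-(r + ρ / 2)) (r + ρ / 2) ⊆ dom Ω := by
    intro X hX
    exact h.Ioo_subset_dom ⟨by linarith [hX.1], by linarith [hX.2]⟩
  have hopen := isOpen_dom h.pc.isOpen
  have hc : ContinuousOn (fun X => hi Ω X - lo Ω X) (Icc (-(r + ρ / 2)) (r + ρ / 2)) :=
    (((concaveOn_hi h.pc).continuousOn hopen).sub
      ((convexOn_lo h.pc).continuousOn hopen)).mono hsub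
  obtain ⟨X0, hX0, hmin⟩ := isCompact_Icc.exists_isMinOn
    (nonempty_Icc.2 (by linarith)) hc
  have hpos : 0 < hi Ω X0 - lo Ω X0 := sub_pos.2 (lo_lt_hi h.pc (hsub hX0))
  refine ⟨(hi Ω X0 - lo Ω X0) / 4, by positivity, fun X hX => ?_⟩
  have : hi Ω X0 - lo Ω X0 ≤ hi Ω X - lo Ω X := hmin hX
  linarith

lemma bdd_setM (h : Frame Ω r ρ c) {φ : ℝ → ℝ} {t Δ : ℝ} (ht : 0 ≤ t) (hφ0 : ∀ X, 0 ≤ φ X)
    (hφΔ : ∀ X, φ X ≤ Δ) : IsBounded (setM Ω φ t) := by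
  obtain ⟨R, hR⟩ := h.pc.bdd.subset_closedBall (0 : Pl)
  have hΔ : 0 ≤ Δ := (hφ0 0).trans (hφΔ 0)
  refine (Metric.isBounded_closedBall (x := (0 : Pl)) (r := R + t * Δ)).subset ?_
  intro v hv
  obtain ⟨h1, h2, h3⟩ := hv
  rw [mem_closedBall_zero_iff]
  by_cases hv1 : lo Ω (v 0) < v 1
  · have : v ∈ Ω := by
      rw [← pt_eta v, mem_iff_lo_hi h.pc h1]; exact ⟨hv1, h3⟩
    have h4 := hR this
    rw [mem_closedBall_zero_iff] at h4
    have : 0 ≤ t * Δ := by positivity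
    linarith
  · rw [not_lt] at hv1
    have hlt := lo_lt_hi h.pc h1
    have hle : t * φ (v 0) ≤ t * Δ := mul_le_mul_of_nonneg_left (hφΔ _) ht
    -- the point slightly above the lower graph
    refine le_of_forall_pos_le_add fun ε hε => ?_
    obtain ⟨y, hy1, hy2⟩ := exists_between (show lo Ω (v 0) < min (hi Ω (v 0))
      (lo Ω (v 0) + ε) from lt_min hlt (by linarith))
    have hmem : pt (v 0) y ∈ Ω := (mem_iff_lo_hi h.pc h1).2
      ⟨hy1, hy2.trans_le (min_le_left _ _)⟩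
    have h4 := hR hmem
    rw [mem_closedBall_zero_iff] at h4
    have h5 : ‖v‖ ≤ ‖pt (v 0) y‖ + ‖v - pt (v 0) y‖ := by
      have := norm_add_le (pt (v 0) y) (v - pt (v 0) y)
      rwa [add_sub_cancel] at this
    have h6 : ‖v - pt (v 0) y‖ ≤ t * Δ + ε := by
      have e1 : ‖v - pt (v 0) y‖ ^ 2 = (v 1 - y) ^ 2 := by
        rw [norm_sq_pl]; simp
      have e2 : |v 1 - y| ≤ t * Δ + ε := by
        have hy3 := hy2.trans_le (min_le_right _ _)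
        rw [abs_le]; constructor
        · linarith
        · have : 0 ≤ t * Δ := by positivity
          linarith
      have e3 : ‖v - pt (v 0) y‖ = |v 1 - y| := by
        rw [← abs_of_nonneg (norm_nonneg (v - pt (v 0) y))]
        exact (sq_eq_sq_iff_abs_eq_abs _ _).1 e1
      rw [e3]; exact e2
    linarith

lemma inner_subset_setL (h : Frame Ω r ρ c) {φ : ℝ → ℝ} {t Δ : ℝ} (ht : 0 < t)
    (hΔ : 0 < Δ) (hφΔ : ∀ X, φ X ≤ Δ) : inner Ω (2 * (t * Δ)) ⊆ setL Ω φ t := by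
  intro v hv
  have htΔ : 0 < t * Δ := by positivity
  have h1 : pt (v 0) (v 1 - 3 / 2 * (t * Δ)) ∈ Ω := by
    apply hv
    rw [← pt_eta v, mem_ball_pt (by positivity)]
    simp only [pt_zero, pt_one]
    refine ⟨by simpa using htΔ, ?_⟩
    rw [sub_self]
    have : arc (2 * (t * Δ)) 0 = 2 * (t * Δ) := by
      unfold arc; simp [htΔ.le]
    rw [this, sub_sub_cancel_left, abs_neg, abs_of_pos (by positivity)]
    linarith
  have h2 : v ∈ Ω := hv (Metric.mem_ball_self (by positivity))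
  have hdom : v 0 ∈ dom Ω := ⟨_, h1⟩
  have h3 := (mem_iff_lo_hi h.pc hdom).1 h1
  rw [← pt_eta v] at h2
  have h4 := (mem_iff_lo_hi h.pc hdom).1 h2
  refine ⟨hdom, ?_, h4.2⟩
  have : t * φ (v 0) ≤ t * Δ := mul_le_mul_of_nonneg_left (hφΔ _) ht.le
  linarith [h3.1]

end Frame

open Pool.MP70c477.Frame CSet

/-- the numerical contradiction -/
lemma num_contra {e Λ ℓ Cs C4 Z Δ τ₀ N κ : ℝ} (he0 : 0 < e) (hΛ0 : 0 < Λ) (hℓ0 : 0 < ℓ)
    (hCs : 0 ≤ Cs) (hC4 : 0 ≤ C4) (hZ : 0 < Z) (hΔ0 : 0 < Δ) (hτ₀ : 0 < τ₀)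
    (hN : N = 1 + 2 * Λ * Cs * C4) (hN0 : 0 < N) (hκ : 0 < κ) (hℓ2 : κ / 4 * ℓ ≤ Δ)
    (hττ₀ : N * ℓ ≤ τ₀) {C9 : ℝ}
    (hC9 : C9 = 4 * Cs + Cs * C4 * (1 + τ₀ / Z ^ 2 + 16 * N ^ 2 / κ ^ 2))
    (hℓC : ℓ < 1 / (2 * Λ * (C9 + 1)))
    (hfin : e ^ 2 / (Λ * ℓ) ≤ (2 * e) ^ 2 * (Cs * (1 + C4 / 4 *
      (1 + 1 / (N * ℓ) + (1 / Z) ^ 2 * (N * ℓ) + (1 / Δ) ^ 2 * (N * ℓ) ^ 2)))) : False := by
  have hC90 : 0 ≤ C9 := by rw [hC9]; positivity
  have hstep1 : 1 / (Λ * ℓ) ≤ 4 * Cs + Cs * C4 *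
      (1 + 1 / (N * ℓ) + (1 / Z) ^ 2 * (N * ℓ) + (1 / Δ) ^ 2 * (N * ℓ) ^ 2) := by
    have h1 : e ^ 2 * (1 / (Λ * ℓ)) ≤ e ^ 2 * (4 * Cs + Cs * C4 *
        (1 + 1 / (N * ℓ) + (1 / Z) ^ 2 * (N * ℓ) + (1 / Δ) ^ 2 * (N * ℓ) ^ 2)) := by
      calc e ^ 2 * (1 / (Λ * ℓ)) = e ^ 2 / (Λ * ℓ) := by ring
        _ ≤ _ := hfin
        _ = _ := by ring
    exact le_of_mul_le_mul_left h1 (by positivity)
  have hQle : (1 + 1 / (N * ℓ) + (1 / Z) ^ 2 * (N * ℓ) + (1 / Δ) ^ 2 * (N * ℓ) ^ 2) ≤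
      1 + τ₀ / Z ^ 2 + 16 * N ^ 2 / κ ^ 2 + 1 / (N * ℓ) := by
    have q1 : (1 / Z) ^ 2 * (N * ℓ) ≤ τ₀ / Z ^ 2 := by
      rw [div_pow, one_pow, div_mul_eq_mul_div, one_mul]
      gcongr
    have q2 : (1 / Δ) ^ 2 * (N * ℓ) ^ 2 ≤ 16 * N ^ 2 / κ ^ 2 := by
      have h1 : (1 / Δ) ^ 2 * (N * ℓ) ^ 2 = (N * ℓ / Δ) ^ 2 := by rw [← mul_pow]; congr 1; ring
      have h2 : N * ℓ / Δ ≤ 4 * N / κ := by
        rw [div_le_div_iff₀ hΔ0 hκ]
        nlinarith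
      have h3 : 16 * N ^ 2 / κ ^ 2 = (4 * N / κ) ^ 2 := by rw [div_pow]; ring
      rw [h1, h3]
      gcongr
    linarith
  have hCC : 0 ≤ Cs * C4 := by positivity
  have hstep2 : 1 / (Λ * ℓ) ≤ C9 + Cs * C4 * (1 / (N * ℓ)) := by
    have h1 := mul_le_mul_of_nonneg_left hQle hCC
    rw [hC9]; linarith
  have hstep3 : Cs * C4 * (1 / (N * ℓ)) ≤ 1 / (2 * (Λ * ℓ)) := by
    have h1 : Cs * C4 * (2 * Λ) ≤ N := by rw [hN]; linarith
    rw [mul_one_div, div_le_div_iff₀ (by positivity) (by positivity)]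
    have h2 : Cs * C4 * (2 * Λ) * ℓ ≤ N * ℓ := mul_le_mul_of_nonneg_right h1 hℓ0.le
    linarith
  have hstep4 : 1 / (2 * (Λ * ℓ)) ≤ C9 := by
    have : 1 / (Λ * ℓ) = 1 / (2 * (Λ * ℓ)) + 1 / (2 * (Λ * ℓ)) := by field_simp; norm_num
    linarith
  rw [lt_div_iff₀ (by positivity)] at hℓC
  rw [div_le_iff₀ (by positivity)] at hstep4
  have : C9 * (2 * (Λ * ℓ)) < 1 := by
    have h1 : ℓ * (2 * Λ * (C9 + 1)) = C9 * (2 * (Λ * ℓ)) + 2 * Λ * ℓ := by ring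
    have h2 : 0 < 2 * Λ * ℓ := by positivity
    linarith
  linarith

/-- **The non-flat case is impossible.** -/
theorem flat_of_opt (hA4 : A4Statement) {Ω : Set Pl} {ρ c : ℝ} (h : Frame Ω (rad Ω) ρ c)
    (hopt : Opt Ω) (hlam : 0 < lam Ω) :
    ∃ x, 0 < x ∧ x ≤ ρ / 2 ∧ sm (lo Ω) (rad Ω) x ≤ sm (lo Ω) (rad Ω) 0 := by
  by_contra hcon
  push Not at hcon
  set r := rad Ω with hrdef
  set g := lo Ω with hg
  have hr := h.hr
  have hρ := h.hρ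
  obtain ⟨L, hC⟩ := h.exists_cset
  have hb : 0 < ρ / 2 := by positivity
  have hnf : ∀ x, 0 < x → x ≤ ρ / 2 → sm g r 0 < sm g r x := hcon
  have habs : ∀ x, 0 ≤ x → x ≤ ρ / 2 → |x| ≤ ρ / 2 := fun x h1 h2 => by rwa [abs_of_nonneg h1]
  have hopen := hC.isOpen
  have hconv := hC.conv
  -- second order bound
  obtain ⟨e₁, he₁, Cs, hCs, HS⟩ := second_order_bound h.pc hlam hopt hρ h.ball
  -- far nodes
  obtain ⟨w', n', xa, x8, hN', hZ, hxa, hxa8, hx8, hw0', hw3'⟩ := hC.exists_far hnf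
  set Z := height g w' n' with hZdef
  -- gap
  obtain ⟨τ₀, hτ₀, hgap⟩ := h.exists_gap
  -- A4 constant
  obtain ⟨C4, hC4, HA⟩ := hA4 Ω h.pc L (2 * (r + ρ / 2)) τ₀ hC.hL (by positivity) hτ₀
  have hK := hC.Kc_pos
  have hC2 := C2_pos (L := L) hr
  have hκ := hC.kap_pos
  set Λ := 2 * Kc r L + 2 * C2 r L with hΛ
  have hΛ0 : 0 < Λ := by positivity
  -- the constant N
  set N := 1 + 2 * Λ * Cs * C4 with hN
  have hN1 : 1 ≤ N := by
    have : 0 ≤ 2 * Λ * Cs * C4 := by positivity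
    linarith
  have hN0 : 0 < N := by linarith
  set C9 := 4 * Cs + Cs * C4 * (1 + τ₀ / Z ^ 2 + 16 * N ^ 2 / kap r L ^ 2) with hC9
  have hC90 : 0 ≤ C9 := by positivity
  set ε := min (min (τ₀ / N) Z) (1 / (2 * Λ * (C9 + 1))) with hε
  have hε0 : 0 < ε := by positivity
  obtain ⟨w, n, x₁, B₁, B₂, ℓ, hNn, hx₁, hx₁B, hBB, hBxa, hw0, hw3, hℓ0, hℓε, hℓ1, hℓ2, hℓ3⟩ :=
    hC.exists_window hnf hxa (by linarith) hε0
  have hℓτ : ℓ < τ₀ / N := hℓε.trans_le ((min_le_left _ _).trans (min_le_left _ _))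
  have hℓZ : ℓ < Z := hℓε.trans_le ((min_le_left _ _).trans (min_le_right _ _))
  have hℓC : ℓ < 1 / (2 * Λ * (C9 + 1)) := hℓε.trans_le (min_le_right _ _)
  set Δ := height g w n with hΔ
  have hΔ0 : 0 < Δ := lt_of_lt_of_le (by positivity) hℓ2
  have hΔZ : Δ ≤ Z := by linarith
  -- ordering of nodes
  have kB1 := habs B₁ (by linarith) (by linarith)
  have kB2 := habs B₂ (by linarith) (by linarith)
  have kxa := habs xa hxa.le (by linarith)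
  have k1 := habs x₁ hx₁.le (by linarith)
  have k8 := habs x8 (by linarith) hx8
  have k0 : |(0:ℝ)| ≤ ρ / 2 := by simpa using hb.le
  have hww : w 3 ≤ w' 0 := by
    rw [hw3, hw0']; exact hC.cm_mono kB1 kxa (by linarith)
  set φ := pert g w n w' n' with hφ
  have hφ0 : ∀ X, 0 ≤ φ X := pert_nonneg hopen hconv hNn hN' hww hZ hΔ0.le
  have hφΔ : ∀ X, φ X ≤ Δ := pert_le hopen hconv hNn hN' hZ hΔ0.le
  have hφlip : ∀ X Y, |φ X - φ Y| ≤ |X - Y| := pert_lip hopen hconv hNn hN' hZ hΔ0.le hΔZ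
  have hφc : Continuous φ := by
    have : LipschitzWith 1 φ := LipschitzWith.of_dist_le_mul fun x y => by
      rw [Real.dist_eq, Real.dist_eq]; simpa using hφlip x y
    exact this.continuous
  have hz1 : ∀ X, X ≤ cm g r x₁ → φ X = 0 := fun X hX =>
    pert_of_le hNn hN' hww (by rw [hw0]; exact hX)
  have hz8 : ∀ X, cm g r x8 ≤ X → φ X = 0 := fun X hX =>
    pert_of_ge hNn hN' hww hZ (by rw [hw3']; exact hX)
  have hpl : ∀ X, cm g r B₁ ≤ X → X ≤ cm g r B₂ → φ X = Δ := fun X hX hX' =>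
    pert_plateau hNn hN' (by rw [hw3]; exact hX) (by
      rw [hw0']; exact hX'.trans (hC.cm_mono kB2 kxa hBxa))
  -- A4 data
  set p := cm g r x₁ with hp
  set q := cm g r x8 with hq
  have hpJ := hC.mem_J k1 (hC.isC_cm k1).1
  have hqJ := hC.mem_J k8 (hC.isC_cm k8).1
  have hpq : p < q := by
    have := hC.cm_strictMono k1 k8 (by linarith); linarith
  have hIcc : Icc p q ⊆ Icc (-(r + ρ / 2)) (r + ρ / 2) := Icc_subset_Icc hpJ.1 hqJ.2
  set τ := N * ℓ with hτ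
  have hτ0 : 0 < τ := by positivity
  have hττ₀ : τ ≤ τ₀ := by
    rw [hτ]; rw [lt_div_iff₀ hN0] at hℓτ; linarith
  have hℓτ' : ℓ ≤ τ := by rw [hτ]; nlinarith
  have hpτ : w 3 ≤ p + τ := by
    rw [hw3]
    have h1 : cm g r B₁ ≤ cm g r B₂ := hC.cm_mono kB1 kB2 hBB.le
    have h2 : cm g r 0 ≤ p := hC.cm_mono k0 k1 hx₁.le
    linarith
  obtain ⟨e₂, he₂, HA2⟩ := HA p q g hpq (by linarith [hpJ.1, hqJ.2])
    (fun x hx y hy => hC.lip x (hIcc hx) y (hIcc hy))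
    (fun x hx z hz1 hz2 => by
      have hxI : x ∈ dom Ω := hC.sub (hIcc hx)
      rw [mem_iff_lo_hi h.pc hxI]
      have := hgap x (hIcc hx)
      exact ⟨by linarith, by linarith⟩)
    (fun x hx z hz hmem => by
      have hxI : x ∈ dom Ω := hC.sub (hIcc hx)
      rw [mem_iff_lo_hi h.pc hxI] at hmem
      linarith [hmem.1])
    τ (1 / Δ) (1 / Z) hτ0 hττ₀ (by positivity) (by positivity)
    (fun X => φ X / Δ) (fun X => div_nonneg (hφ0 X) hΔ0.le)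
    (fun X => by rw [div_le_one hΔ0]; exact hφΔ X)
    (fun X hX => by rw [hz1 X hX, zero_div])
    (fun X hX => by rw [hz8 X hX, zero_div])
    (fun X Y => by
      rw [← sub_div, abs_div, abs_of_pos hΔ0, div_le_iff₀ hΔ0]
      have := hφlip X Y
      calc |φ X - φ Y| ≤ |X - Y| := this
        _ = 1 / Δ * |X - Y| * Δ := by field_simp)
    (fun X Y hX hY => by
      rw [← sub_div, abs_div, abs_of_pos hΔ0, div_le_iff₀ hΔ0]
      have := pert_lip_right hopen hconv hNn hN' hZ hΔ0.le (hpτ.trans hX) (hpτ.trans hY)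
      calc |φ X - φ Y| ≤ Δ / Z * |X - Y| := this
        _ = 1 / Z * |X - Y| * Δ := by field_simp)
  -- convexity for small t
  obtain ⟨t₀, ht₀, Hconv⟩ := exists_convex_pert hopen hconv hNn hN'
  -- choose t
  have ha0 := a0_pos (L := L) hr
  set T := min (min (min (e₂ / Δ) (e₁ / (2 * Δ))) (min (ρ / Δ) t₀))
    (min (min (a0 r L * (Λ * ℓ) / Δ) (x₁ / 2 * (Λ * ℓ) / Δ))
      (min ((B₂ - B₁) / 2 * (Λ * ℓ) / Δ) (r / (2 * Δ)))) with hT
  have hBB' : 0 < (B₂ - B₁) / 2 := by linarith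
  have hT0 : 0 < T := by positivity
  have b1 : T ≤ e₂ / Δ := (min_le_left _ _).trans ((min_le_left _ _).trans (min_le_left _ _))
  have b2 : T ≤ e₁ / (2 * Δ) :=
    (min_le_left _ _).trans ((min_le_left _ _).trans (min_le_right _ _))
  have b3 : T ≤ ρ / Δ := (min_le_left _ _).trans ((min_le_right _ _).trans (min_le_left _ _))
  have b4 : T ≤ t₀ := (min_le_left _ _).trans ((min_le_right _ _).trans (min_le_right _ _))
  have b5 : T ≤ a0 r L * (Λ * ℓ) / Δ :=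
    (min_le_right _ _).trans ((min_le_left _ _).trans (min_le_left _ _))
  have b6 : T ≤ x₁ / 2 * (Λ * ℓ) / Δ :=
    (min_le_right _ _).trans ((min_le_left _ _).trans (min_le_right _ _))
  have b7 : T ≤ (B₂ - B₁) / 2 * (Λ * ℓ) / Δ :=
    (min_le_right _ _).trans ((min_le_right _ _).trans (min_le_left _ _))
  have b8 : T ≤ r / (2 * Δ) :=
    (min_le_right _ _).trans ((min_le_right _ _).trans (min_le_right _ _))
  rw [le_div_iff₀ hΔ0] at b1 b3 b5 b6 b7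
  rw [le_div_iff₀ (by positivity)] at b2 b8
  set e := T * Δ with he
  have he0 : 0 < e := by positivity
  set a := e / (Λ * ℓ) with ha
  have ha0' : 0 < a := by positivity
  have haa : a ≤ a0 r L := by rw [ha, div_le_iff₀ (by positivity)]; exact b5
  have hax : a ≤ x₁ / 2 := by rw [ha, div_le_iff₀ (by positivity)]; exact b6
  have haB : a ≤ (B₂ - B₁) / 2 := by rw [ha, div_le_iff₀ (by positivity)]; exact b7
  -- the two sets
  have hbdM := h.bdd_setM hT0.le hφ0 hφΔ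
  have hLΩ := h.setL_subset hφ0 hT0.le
  have hΩM := h.subset_setM hφ0 hT0.le
  have hinnL : inner Ω (2 * e) ⊆ setL Ω φ T := h.inner_subset_setL hT0 hΔ0 hφΔ
  have hLpc : IsPlanarConvex (setL Ω φ T) := by
    refine isPlanarConvex_region hopen ?_ (concaveOn_hi h.pc) ?_ (h.pc.bdd.subset hLΩ)
    · exact Hconv T (by rw [abs_of_pos hT0]; exact b4)
    · have h1 : pt 0 c ∈ inner Ω r := h.ball (Metric.mem_ball_self hρ)
      have h2 : pt 0 c ∈ inner Ω (2 * e) := inner_anti (by linarith) h1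
      exact ⟨_, hinnL h2⟩
  have hMpc : IsPlanarConvex (setM Ω φ T) := by
    refine isPlanarConvex_region hopen ?_ (concaveOn_hi h.pc) ?_ hbdM
    · have := Hconv (-T) (by rw [abs_neg, abs_of_pos hT0]; exact b4)
      refine this.congr fun X _ => ?_
      simp only; ring
    · exact h.pc.nonempty.mono hΩM
  -- area gain
  have hgain := h.area_gain hC hT0.le hφc hφ0 hφΔ (by linarith) hx₁ hx₁B hBB
    (show B₂ ≤ x8 by linarith) hx8 hz1 hz8 hpl ha0'.le haa hax haB hbdM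
  have hB2ℓ : B₂ ≤ ℓ := by
    have := hC.cm_strictMono k0 kB2 (by linarith); linarith
  have hsm : sm g r B₂ - sm g r 0 ≤ Kc r L * ℓ := by
    refine (hC.sm_sub_le k0 kB2 (by linarith)).trans ?_
    exact mul_le_mul_of_nonneg_left hℓ1 hK.le
  have hG : e ^ 2 / (Λ * ℓ) ≤ 2 * a * T * Δ -
      a ^ 2 * (2 * (sm g r B₂ - sm g r 0) + 2 * C2 r L * B₂) := by
    have h1 : 2 * (sm g r B₂ - sm g r 0) + 2 * C2 r L * B₂ ≤ Λ * ℓ := by
      have : 2 * C2 r L * B₂ ≤ 2 * C2 r L * ℓ := by gcongr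
      rw [hΛ]; nlinarith
    have h2 : a ^ 2 * (2 * (sm g r B₂ - sm g r 0) + 2 * C2 r L * B₂) ≤ a ^ 2 * (Λ * ℓ) :=
      mul_le_mul_of_nonneg_left h1 (by positivity)
    have h3 : 2 * a * T * Δ - a ^ 2 * (Λ * ℓ) = e ^ 2 / (Λ * ℓ) := by
      rw [show 2 * a * T * Δ = 2 * a * e by rw [he]; ring, ha]
      field_simp; ring
    linarith
  set G := e ^ 2 / (Λ * ℓ) with hGdef
  have hG0 : 0 < G := by positivity
  have hmar : marea (setL Ω φ T) r + marea (setM Ω φ T) r ≤ 2 * marea Ω r - G := by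
    have hfL := volume_inner_ne_top hLpc.bdd hr
    have hfM := volume_inner_ne_top hMpc.bdd hr
    have hfΩ := volume_inner_ne_top h.pc.bdd hr
    have h1 : volume (inner (setL Ω φ T) r) + volume (inner (setM Ω φ T) r) +
        ENNReal.ofReal G ≤ 2 * volume (inner Ω r) := by
      refine le_trans ?_ hgain
      gcongr
    have h2 := ENNReal.toReal_mono (ENNReal.mul_ne_top (by norm_num) hfΩ) h1
    rw [ENNReal.toReal_add (ENNReal.add_ne_top.2 ⟨hfL, hfM⟩) ENNReal.ofReal_ne_top,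
      ENNReal.toReal_add hfL hfM, ENNReal.toReal_ofReal hG0.le, ENNReal.toReal_mul] at h2
    simp only [ENNReal.toReal_ofNat] at h2
    unfold marea
    linarith
  -- eigenvalues
  have hlamLM := HA2 e he0 b1 (setL Ω φ T) (setM Ω φ T) hLpc hMpc
    (fun x y hxy hne => by
      have hx : x ∈ dom Ω := ⟨y, hxy⟩
      have h1 := (mem_iff_lo_hi h.pc hx).1 hxy
      refine mem_region.2 ⟨hx, ?_, h1.2⟩
      have h2 : T * φ x = e * (φ x / Δ) := by rw [he]; field_simp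
      rw [h2]
      by_cases hxp : x ≤ p
      · rw [hz1 x hxp]; simpa using h1.1
      by_cases hxq : q ≤ x
      · rw [hz8 x hxq]; simpa using h1.1
      rw [not_le] at hxp hxq
      by_contra hcc
      rw [not_lt] at hcc
      exact hne ⟨hxp.le, hxq.le, hcc⟩)
    hΩM
    (fun x y hxp hxq hy1 hy2 => by
      have hx : x ∈ dom Ω := hC.sub (hIcc ⟨hxp.le, hxq.le⟩)
      have h2 : T * φ x = e * (φ x / Δ) := by rw [he]; field_simp
      refine mem_region.2 ⟨hx, ?_, ?_⟩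
      · rw [h2]; exact hy1
      · exact hy2.trans_lt (lo_lt_hi h.pc hx))
  set Q := 1 + 1 / τ + (1 / Z) ^ 2 * τ + (1 / Δ) ^ 2 * τ ^ 2 with hQ
  have hQ0 : 0 ≤ Q := by positivity
  have hfin := HS (2 * e) (by positivity) (by linarith) (setL Ω φ T) (setM Ω φ T) hLpc hMpc hLΩ
    hΩM hinnL G (C4 / 4 * Q) (by positivity) hG0.le hmar (by
      refine hlamLM.trans (le_of_eq ?_); ring)
  exact num_contra he0 hΛ0 hℓ0 hCs hC4 hZ hΔ0 hτ₀ hN hN0 hκ hℓ2 hττ₀ rfl hℓC hfin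

end Pool.MP70c477
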