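import Pool.Agent.MP70c477.Isom
import Pool.Agent.MP70c477.Halfspaces

set_option autoImplicit false
set_option linter.unusedVariables false

/-!
# From a local to a global polygon description
-/

namespace Pool.MP70c477

open MeasureTheory Set Filter Topology Bornology
open scoped ENNReal NNReal RealInnerProductSpace

lemma inner_le_of_ball {Om : Set Pl} {r c : ℝ} (hr : 0 < r) {n x : Pl} (hn : ‖n‖ = 1)
    (hOm : ∀ y ∈ Om, ⟪n, y⟫ < c + r) (hx : x ∈ inner Om r) : ⟪n, x⟫ ≤ c := by
  by_contra hcon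
  push Not at hcon
  set δ := ⟪n, x⟫ - c with hδ
  have hδ0 : 0 < δ := by linarith
  set s := max 0 (r - δ) with hs
  have hs0 : 0 ≤ s := le_max_left _ _
  have hsr : s < r := max_lt hr (by linarith)
  have h1 : x + s • n ∈ Om := hx (by
    rw [Metric.mem_ball, dist_eq_norm, add_sub_cancel_left, norm_smul, hn, mul_one,
      Real.norm_of_nonneg hs0]
    exact hsr)
  have h2 := hOm _ h1
  rw [inner_add_right, inner_smul_right, real_inner_self_eq_norm_sq, hn] at h2
  have h3 : r - δ ≤ s := le_max_right _ _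
  have h4 : ⟪n, x⟫ = c + δ := by rw [hδ]; ring
  rw [h4] at h2
  linarith

theorem polygon_of_local {Om : Set Pl} (h : IsPlanarConvex Om) (hopt : Opt Om)
    (hstrict : ∀ Om', IsPlanarConvex Om' → Om ⊆ Om' → Om ≠ Om' → lam Om' < lam Om)
    (hloc : ∀ p ∈ frontier (inner Om (rad Om)), ∃ (n1 n2 : Pl) (c1 c2 e : ℝ),
      ‖n1‖ = 1 ∧ ‖n2‖ = 1 ∧ 0 < e ∧ (∀ x ∈ Om, ⟪n1, x⟫ < c1 + rad Om) ∧
      (∀ x ∈ Om, ⟪n2, x⟫ < c2 + rad Om) ∧
      ∀ x ∈ Metric.ball p e, ⟪n1, x⟫ ≤ c1 → ⟪n2, x⟫ ≤ c2 → x ∈ inner Om (rad Om)) :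
    IsPolygon Om := by
  classical
  set r := rad Om with hrdef
  have hr : 0 < r := rad_pos h
  set K := inner Om r with hK
  have hKc : IsCompact K := isCompact_inner h.bdd hr
  have hKcl : IsClosed K := hKc.isClosed
  have hKconv : Convex ℝ K := convex_inner h.convex r
  -- interior point
  have hint : (interior K).Nonempty := by
    by_contra hcon
    rw [not_nonempty_iff_eq_empty] at hcon
    have h1 : frontier K = K := by rw [frontier, hKcl.closure_eq, hcon, sdiff_empty]
    have h2 : volume K = 0 := by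
      have := hKconv.addHaar_frontier (volume : Measure Pl)
      rwa [h1] at this
    have h3 := marea_rad h
    rw [marea, ← hrdef, ← hK, h2] at h3
    have : 0 < Real.pi * r ^ 2 := by positivity
    simp at h3
    linarith
  obtain ⟨o, ho⟩ := hint
  have hoK : o ∈ K := interior_subset ho
  -- finite cover of the frontier
  choose! n1 n2 c1 c2 e hn1 hn2 he hO1 hO2 hloc using hloc
  have hfc : IsCompact (frontier K) := hKc.of_isClosed_subset isClosed_frontier hKcl.frontier_subset
  obtain ⟨t, htF, htc⟩ := hfc.elim_nhds_subcover (fun p => Metric.ball p (e p))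
    (fun p hp => Metric.ball_mem_nhds p (he p hp))
  set F : Finset (Pl × ℝ) := t.image (fun p => (n1 p, c1 p)) ∪ t.image (fun p => (n2 p, c2 p)) with hF
  have hFprop : ∀ q ∈ F, ‖q.1‖ = 1 ∧ ∀ x ∈ Om, ⟪q.1, x⟫ < q.2 + r := by
    intro q hq
    rw [hF, Finset.mem_union, Finset.mem_image, Finset.mem_image] at hq
    rcases hq with ⟨p, hp, rfl⟩ | ⟨p, hp, rfl⟩
    · exact ⟨hn1 p (htF p hp), hO1 p (htF p hp)⟩
    · exact ⟨hn2 p (htF p hp), hO2 p (htF p hp)⟩
  have hKP : ∀ x ∈ K, ∀ q ∈ F, ⟪q.1, x⟫ ≤ q.2 := fun x hx q hq =>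
    inner_le_of_ball hr (hFprop q hq).1 (hFprop q hq).2 hx
  have hPK : ∀ x : Pl, (∀ q ∈ F, ⟪q.1, x⟫ ≤ q.2) → x ∈ K := by
    intro x hx
    have hcont : Continuous (fun s : ℝ => o + s • (x - o)) := by fun_prop
    have hseg : ∀ s ∈ Icc (0:ℝ) 1, ∀ q ∈ F, ⟪q.1, o + s • (x - o)⟫ ≤ q.2 := by
      intro s hs q hq
      have h1 := hKP o hoK q hq
      have h2 := hx q hq
      rw [inner_add_right, inner_smul_right, inner_sub_right]
      nlinarith [hs.1, hs.2]
    have hsub : Icc (0:ℝ) 1 ⊆ {s : ℝ | o + s • (x - o) ∈ K} := by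
      apply IsClosed.Icc_subset_of_forall_mem_nhdsWithin
      · exact (hKcl.preimage hcont).inter isClosed_Icc
      · simpa using hoK
      · rintro s ⟨hsK, hs0, hs1⟩
        have hsK' : o + s • (x - o) ∈ K := hsK
        by_cases hi : o + s • (x - o) ∈ interior K
        · apply mem_nhdsWithin_of_mem_nhds
          have := hcont.continuousAt.preimage_mem_nhds (isOpen_interior.mem_nhds hi)
          apply mem_of_superset this
          intro s hs
          exact interior_subset (s := K) hs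
        · have hfr : o + s • (x - o) ∈ frontier K := ⟨subset_closure hsK', hi⟩
          obtain ⟨p, hp, hpb⟩ := mem_iUnion₂.1 (htc hfr)
          have h1 : ∀ᶠ s' in 𝓝 s, o + s' • (x - o) ∈ Metric.ball p (e p) :=
            hcont.continuousAt.preimage_mem_nhds (Metric.isOpen_ball.mem_nhds hpb)
          filter_upwards [mem_nhdsWithin_of_mem_nhds h1, Ioc_mem_nhdsGT hs1] with s' hs' hs''
          have hs01 : s' ∈ Icc (0:ℝ) 1 := ⟨hs0.trans hs''.1.le, hs''.2⟩
          apply hloc p (htF p hp) _ hs'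
          · exact hseg s' hs01 (n1 p, c1 p) (by
              rw [hF, Finset.mem_union]; exact Or.inl (Finset.mem_image_of_mem _ hp))
          · exact hseg s' hs01 (n2 p, c2 p) (by
              rw [hF, Finset.mem_union]; exact Or.inr (Finset.mem_image_of_mem (fun p => (n2 p, c2 p)) hp))
    have := hsub (right_mem_Icc.2 zero_le_one)
    simpa using this
  -- the outer polygon
  set Q : Set Pl := {x | ∀ q ∈ F, ⟪q.1, x⟫ < q.2 + r} with hQ
  have hOQ : Om ⊆ Q := fun x hx q hq => (hFprop q hq).2 x hx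
  have hQopen : IsOpen Q := by
    have : Q = ⋂ q ∈ F, {x : Pl | ⟪q.1, x⟫ < q.2 + r} := by ext x; simp [hQ]
    rw [this]
    apply isOpen_biInter_finset
    intro q _
    exact isOpen_lt (by fun_prop) continuous_const
  have hQconv : Convex ℝ Q := by
    have : Q = ⋂ q ∈ F, {x : Pl | ⟪q.1, x⟫ < q.2 + r} := by ext x; simp [hQ]
    rw [this]
    apply convex_iInter₂
    intro q _
    exact convex_halfSpace_lt (innerSL ℝ q.1).isLinear (q.2 + r)
  have hQK : inner Q r = K := by
    apply Subset.antisymm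
    · intro x hx
      apply hPK
      intro q hq
      have hQq : ∀ y ∈ Q, ⟪q.1, y⟫ < q.2 + r := fun y hy => hy q hq
      exact inner_le_of_ball hr (hFprop q hq).1 hQq hx
    · exact inner_mono hOQ r
  -- boundedness
  obtain ⟨ε, hε, hεK⟩ := Metric.isOpen_iff.1 isOpen_interior o ho
  have hball : Metric.ball o (r + ε / 2) ⊆ Q := by
    intro y hy
    rw [Metric.mem_ball, dist_eq_norm] at hy
    apply hOQ
    set T := r + ε / 2 with hT
    have hT0 : 0 < T := by positivity
    set x := o + ((ε / 2) / T) • (y - o) with hx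
    have hxK : x ∈ K := by
      apply interior_subset
      apply hεK
      rw [Metric.mem_ball, dist_eq_norm, hx, add_sub_cancel_left, norm_smul,
        Real.norm_of_nonneg (by positivity), div_mul_eq_mul_div, div_lt_iff₀ hT0]
      nlinarith
    apply hxK
    rw [Metric.mem_ball, dist_eq_norm]
    have h1 : y - x = (r / T) • (y - o) := by
      have h2 : (1:ℝ) - (ε / 2) / T = r / T := by field_simp; rw [hT]; ring
      rw [← h2, hx, sub_smul, one_smul]; abel
    rw [h1, norm_smul, Real.norm_of_nonneg (by positivity), div_mul_eq_mul_div, div_lt_iff₀ hT0]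
    exact mul_lt_mul_of_pos_left hy hr
  have hQbdd : IsBounded Q := by
    obtain ⟨C, hC⟩ := hKc.isBounded.exists_norm_le
    set T := r + ε / 2 with hT
    have hT0 : 0 < T := by positivity
    set c := r / T with hc
    have hc0 : 0 ≤ c := by positivity
    have hc1 : c < 1 := by rw [hc, div_lt_one hT0]; linarith
    have h1c : 0 < 1 - c := by linarith
    rw [isBounded_iff_forall_norm_le]
    refine ⟨‖o‖ + (C + ‖o‖) / (1 - c), fun z hz => ?_⟩
    obtain ⟨s, hs, hsz⟩ := Metric.isOpen_iff.1 hQopen z hz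
    have h1 := contract_inner hQconv hball hs hT0 hc0 hc1.le (z := z) hsz
    have h2 : o + (1 - c) • (z - o) ∈ inner Q r := by
      apply inner_anti _ h1
      have : c * T = r := by rw [hc]; field_simp
      rw [this]
      nlinarith
    rw [hQK] at h2
    have h3 := hC _ h2
    have h4 : ‖(1 - c) • (z - o)‖ ≤ C + ‖o‖ := by
      calc ‖(1 - c) • (z - o)‖ = ‖(o + (1 - c) • (z - o)) - o‖ := by rw [add_sub_cancel_left]
        _ ≤ ‖o + (1 - c) • (z - o)‖ + ‖o‖ := norm_sub_le _ _
        _ ≤ C + ‖o‖ := by linarith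
    rw [norm_smul, Real.norm_of_nonneg h1c.le] at h4
    have h5 : ‖z - o‖ ≤ (C + ‖o‖) / (1 - c) := by rw [le_div_iff₀ h1c]; linarith
    calc ‖z‖ = ‖o + (z - o)‖ := by congr 1; abel
      _ ≤ ‖o‖ + ‖z - o‖ := norm_add_le _ _
      _ ≤ _ := by linarith
  have hQpc : IsPlanarConvex Q := ⟨h.nonempty.mono hOQ, hQopen, hQbdd, hQconv⟩
  have hradQ : rad Q ≤ r := by
    apply rad_le hQpc hr
    rw [marea, hQK]
    exact (marea_rad h).le
  have hcQ : cheeger Om ≤ cheeger Q := by
    have h1 := cheeger_mul_rad h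
    have h2 := cheeger_mul_rad hQpc
    have h3 := cheeger_pos h
    have h4 := cheeger_pos hQpc
    by_contra hcon
    push Not at hcon
    have h5 := rad_pos hQpc
    nlinarith
  have hEq : Om = Q := by
    by_contra hne
    have h1 := hstrict Q hQpc hOQ hne
    have h2 := hopt Q hQpc
    have h3 := cheeger_pos h
    have h4 : lam Q / cheeger Q ^ 2 ≤ lam Q / cheeger Om ^ 2 := by
      apply div_le_div_of_nonneg_left (lam_nonneg Q) (by positivity)
      exact pow_le_pow_left₀ h3.le hcQ 2
    have h5 : lam Q / cheeger Om ^ 2 < lam Om / cheeger Om ^ 2 :=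
      div_lt_div_of_pos_right h1 (by positivity)
    linarith
  apply isPolygon_of_halfspaces h (F.image (fun q => (q.1, q.2 + r)))
  rw [hEq]
  ext x
  simp only [hQ, Finset.mem_image, mem_ofPred_eq]
  constructor
  · rintro hx q ⟨q', hq', rfl⟩
    exact hx q' hq'
  · intro hx q hq
    exact hx _ ⟨q, hq, rfl⟩

end Pool.MP70c477
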