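import Pool.Agent.MP70c477.Isom
import Pool.Agent.MP70c477.Bump

/-!
# Planar convex sets as regions between graphs
-/

namespace Pool.MP70c477

open MeasureTheory Set Filter Topology Bornology
open scoped ENNReal NNReal RealInnerProductSpace

/-- the point `(x, y)` -/
noncomputable def pt (x y : ℝ) : Pl := !₂[x, y]

@[simp] lemma pt_zero (x y : ℝ) : pt x y 0 = x := by simp [pt]
@[simp] lemma pt_one (x y : ℝ) : pt x y 1 = y := by simp [pt]

lemma pt_eta (v : Pl) : pt (v 0) (v 1) = v := by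
  ext i; fin_cases i <;> simp

lemma pt_inj {x y x' y' : ℝ} (h : pt x y = pt x' y') : x = x' ∧ y = y' := by
  constructor
  · have := congrArg (fun v : Pl => v 0) h; simpa using this
  · have := congrArg (fun v : Pl => v 1) h; simpa using this

lemma continuous_pt : Continuous (fun q : ℝ × ℝ => pt q.1 q.2) := by
  unfold pt
  refine (PiLp.continuous_toLp 2 _).comp (continuous_pi fun i => ?_)
  fin_cases i
  · simpa using continuous_fst
  · simpa using continuous_snd

lemma smul_pt (a x y : ℝ) : a • pt x y = pt (a * x) (a * y) := by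
  ext i; fin_cases i <;> simp

lemma pt_add (x y x' y' : ℝ) : pt x y + pt x' y' = pt (x + x') (y + y') := by
  ext i; fin_cases i <;> simp

lemma dist_pt_sq (x y x' y' : ℝ) : dist (pt x y) (pt x' y') ^ 2 = (x - x') ^ 2 + (y - y') ^ 2 := by
  rw [dist_eq_norm, norm_sq_pl]; simp

lemma mem_ball_pt {x y X Y r : ℝ} (hr : 0 < r) :
    pt X Y ∈ Metric.ball (pt x y) r ↔ |X - x| < r ∧ |Y - y| < arc r (X - x) := by
  rw [Metric.mem_ball]
  constructor
  · intro h
    have h1 : (X - x) ^ 2 + (Y - y) ^ 2 < r ^ 2 := by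
      rw [← dist_pt_sq]
      exact pow_lt_pow_left₀ h dist_nonneg (by norm_num)
    have h2 : |X - x| < r := by
      apply abs_lt_of_sq_lt_sq _ hr.le
      nlinarith [sq_nonneg (Y - y)]
    refine ⟨h2, ?_⟩
    apply Real.lt_sqrt_of_sq_lt
    rw [sq_abs]; linarith
  · rintro ⟨h1, h2⟩
    have h3 := arc_sq h1.le
    have h4 : (Y - y) ^ 2 < arc r (X - x) ^ 2 := by
      rw [← sq_abs]
      exact pow_lt_pow_left₀ h2 (abs_nonneg _) (by norm_num)
    have h5 : dist (pt X Y) (pt x y) ^ 2 < r ^ 2 := by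
      rw [dist_pt_sq]; linarith
    exact lt_of_pow_lt_pow_left₀ 2 hr.le h5

/-- projection on the first axis -/
def dom (Ω : Set Pl) : Set ℝ := {x | ∃ y, pt x y ∈ Ω}

/-- lower graph -/
noncomputable def lo (Ω : Set Pl) (x : ℝ) : ℝ := sInf {y | pt x y ∈ Ω}

/-- upper graph -/
noncomputable def hi (Ω : Set Pl) (x : ℝ) : ℝ := sSup {y | pt x y ∈ Ω}

/-- the region between two graphs -/
def region (I : Set ℝ) (a b : ℝ → ℝ) : Set Pl := {v | v 0 ∈ I ∧ a (v 0) < v 1 ∧ v 1 < b (v 0)}

lemma mem_region {I : Set ℝ} {a b : ℝ → ℝ} {x y : ℝ} :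
    pt x y ∈ region I a b ↔ x ∈ I ∧ a x < y ∧ y < b x := by
  simp [region]

section graph
variable {Ω : Set Pl}

lemma isOpen_slice (hΩ : IsOpen Ω) (x : ℝ) : IsOpen {y | pt x y ∈ Ω} :=
  hΩ.preimage (continuous_pt.comp (continuous_const.prodMk continuous_id))

lemma isBounded_slice (hΩ : IsBounded Ω) (x : ℝ) : IsBounded {y | pt x y ∈ Ω} := by
  obtain ⟨R, hR⟩ := hΩ.subset_closedBall (0 : Pl)
  refine (Metric.isBounded_closedBall (x := (0:ℝ)) (r := R)).subset fun y hy => ?_
  have h1 := hR hy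
  rw [mem_closedBall_zero_iff] at h1 ⊢
  have h2 : ‖y‖ ≤ ‖pt x y‖ := by
    have := PiLp.norm_apply_le (pt x y) 1
    simpa using this
  linarith

lemma convex_slice (hΩ : Convex ℝ Ω) (x : ℝ) : Convex ℝ {y | pt x y ∈ Ω} := by
  intro y hy z hz a b ha hb hab
  have := hΩ hy hz ha hb hab
  rw [smul_pt, smul_pt, pt_add, ← add_mul, hab, one_mul] at this
  simpa using this

lemma mem_iff_lo_hi (hΩ : IsPlanarConvex Ω) {x y : ℝ} (hx : x ∈ dom Ω) :
    pt x y ∈ Ω ↔ lo Ω x < y ∧ y < hi Ω x := by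
  have hb := isBounded_slice hΩ.bdd x
  have ho := isOpen_slice hΩ.isOpen x
  have hc : IsConnected {y | pt x y ∈ Ω} := ⟨hx, (convex_slice hΩ.convex x).isPreconnected⟩
  constructor
  · intro h
    obtain ⟨d, hd, hdsub⟩ := Metric.isOpen_iff.1 ho y h
    have h1 : y - d / 2 ∈ {y | pt x y ∈ Ω} := hdsub (by
      rw [Metric.mem_ball, Real.dist_eq, sub_sub_cancel_left, abs_neg, abs_of_pos (by positivity)]
      linarith)
    have h2 : y + d / 2 ∈ {y | pt x y ∈ Ω} := hdsub (by
      rw [Metric.mem_ball, Real.dist_eq, add_sub_cancel_left, abs_of_pos (by positivity)]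
      linarith)
    have h3 := csInf_le hb.bddBelow h1
    have h4 := le_csSup hb.bddAbove h2
    constructor
    · unfold lo; linarith
    · unfold hi; linarith
  · intro h
    exact hc.Ioo_csInf_csSup_subset hb.bddBelow hb.bddAbove h

lemma eq_region (hΩ : IsPlanarConvex Ω) : Ω = region (dom Ω) (lo Ω) (hi Ω) := by
  ext v
  rw [← pt_eta v, mem_region]
  constructor
  · intro h
    have hx : v 0 ∈ dom Ω := ⟨_, h⟩
    exact ⟨hx, (mem_iff_lo_hi hΩ hx).1 h⟩
  · rintro ⟨hx, h⟩
    exact (mem_iff_lo_hi hΩ hx).2 h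

lemma isOpen_dom (hΩ : IsOpen Ω) : IsOpen (dom Ω) := by
  have : dom Ω = ⋃ y, {x | pt x y ∈ Ω} := by ext x; simp [dom]
  rw [this]
  exact isOpen_iUnion fun y =>
    hΩ.preimage (continuous_pt.comp (continuous_id.prodMk continuous_const))

lemma convex_dom (hΩ : Convex ℝ Ω) : Convex ℝ (dom Ω) := by
  rintro x ⟨y, hy⟩ x' ⟨y', hy'⟩ a b ha hb hab
  have := hΩ hy hy' ha hb hab
  rw [smul_pt, smul_pt, pt_add] at this
  exact ⟨_, by simpa using this⟩

lemma lo_lt_hi (hΩ : IsPlanarConvex Ω) {x : ℝ} (hx : x ∈ dom Ω) : lo Ω x < hi Ω x := by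
  obtain ⟨y, hy⟩ := hx
  have h := (mem_iff_lo_hi hΩ ⟨y, hy⟩).1 hy
  exact h.1.trans h.2

lemma convexOn_lo (hΩ : IsPlanarConvex Ω) : ConvexOn ℝ (dom Ω) (lo Ω) := by
  refine ⟨convex_dom hΩ.convex, ?_⟩
  intro x hx x' hx' a b ha hb hab
  simp only [smul_eq_mul]
  have h1 := lo_lt_hi hΩ hx
  have h2 := lo_lt_hi hΩ hx'
  refine le_of_forall_pos_le_add fun ε hε => ?_
  obtain ⟨y, hy1, hy2⟩ := exists_between (show lo Ω x < min (hi Ω x) (lo Ω x + ε) from
    lt_min h1 (by linarith))
  obtain ⟨y', hy1', hy2'⟩ := exists_between (show lo Ω x' < min (hi Ω x') (lo Ω x' + ε) from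
    lt_min h2 (by linarith))
  have m1 : pt x y ∈ Ω := (mem_iff_lo_hi hΩ hx).2 ⟨hy1, hy2.trans_le (min_le_left _ _)⟩
  have m2 : pt x' y' ∈ Ω := (mem_iff_lo_hi hΩ hx').2 ⟨hy1', hy2'.trans_le (min_le_left _ _)⟩
  have m3 := hΩ.convex m1 m2 ha hb hab
  rw [smul_pt, smul_pt, pt_add] at m3
  have m4 := ((mem_iff_lo_hi hΩ ⟨_, m3⟩).1 m3).1
  have k1 : y ≤ lo Ω x + ε := (hy2.trans_le (min_le_right _ _)).le
  have k2 : y' ≤ lo Ω x' + ε := (hy2'.trans_le (min_le_right _ _)).le
  calc lo Ω (a * x + b * x') ≤ a * y + b * y' := m4.le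
    _ ≤ a * (lo Ω x + ε) + b * (lo Ω x' + ε) := by gcongr
    _ = a * lo Ω x + b * lo Ω x' + (a + b) * ε := by ring
    _ = _ := by rw [hab, one_mul]

lemma concaveOn_hi (hΩ : IsPlanarConvex Ω) : ConcaveOn ℝ (dom Ω) (hi Ω) := by
  refine ⟨convex_dom hΩ.convex, ?_⟩
  intro x hx x' hx' a b ha hb hab
  simp only [smul_eq_mul]
  have h1 := lo_lt_hi hΩ hx
  have h2 := lo_lt_hi hΩ hx'
  refine le_of_forall_pos_le_add fun ε hε => ?_
  obtain ⟨y, hy1, hy2⟩ := exists_between (show max (lo Ω x) (hi Ω x - ε) < hi Ω x from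
    max_lt h1 (by linarith))
  obtain ⟨y', hy1', hy2'⟩ := exists_between (show max (lo Ω x') (hi Ω x' - ε) < hi Ω x' from
    max_lt h2 (by linarith))
  have m1 : pt x y ∈ Ω := (mem_iff_lo_hi hΩ hx).2 ⟨(le_max_left _ _).trans_lt hy1, hy2⟩
  have m2 : pt x' y' ∈ Ω := (mem_iff_lo_hi hΩ hx').2 ⟨(le_max_left _ _).trans_lt hy1', hy2'⟩
  have m3 := hΩ.convex m1 m2 ha hb hab
  rw [smul_pt, smul_pt, pt_add] at m3
  have m4 := ((mem_iff_lo_hi hΩ ⟨_, m3⟩).1 m3).2
  have k1 : hi Ω x - ε ≤ y := ((le_max_right _ _).trans_lt hy1).le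
  have k2 : hi Ω x' - ε ≤ y' := ((le_max_right _ _).trans_lt hy1').le
  have k3 : a * (hi Ω x - ε) + b * (hi Ω x' - ε) ≤ a * y + b * y' := by gcongr
  have k4 : a * (hi Ω x - ε) + b * (hi Ω x' - ε) =
      a * hi Ω x + b * hi Ω x' - (a + b) * ε := by ring
  rw [k4, hab, one_mul] at k3
  linarith

end graph

/-- regions are planar convex sets -/
lemma isPlanarConvex_region {I : Set ℝ} {a b : ℝ → ℝ} (hI : IsOpen I)
    (ha : ConvexOn ℝ I a) (hb : ConcaveOn ℝ I b) (hne : (region I a b).Nonempty)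
    (hbd : IsBounded (region I a b)) : IsPlanarConvex (region I a b) where
  nonempty := hne
  bdd := hbd
  isOpen := by
    have h0 : Continuous fun v : Pl => v 0 := by fun_prop
    have h1 : Continuous fun v : Pl => v 1 := by fun_prop
    have hca : ContinuousOn (fun v : Pl => a (v 0)) ((fun v : Pl => v 0) ⁻¹' I) :=
      (ha.continuousOn hI).comp h0.continuousOn (fun v hv => hv)
    have hcb : ContinuousOn (fun v : Pl => b (v 0)) ((fun v : Pl => v 0) ⁻¹' I) :=
      (hb.continuousOn hI).comp h0.continuousOn (fun v hv => hv)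
    have hU : IsOpen ((fun v : Pl => v 0) ⁻¹' I) := hI.preimage h0
    have e1 : IsOpen (((fun v : Pl => v 0) ⁻¹' I) ∩ (fun v : Pl => v 1 - a (v 0)) ⁻¹' Ioi 0) :=
      (h1.continuousOn.sub hca).isOpen_inter_preimage hU isOpen_Ioi
    have e2 : IsOpen (((fun v : Pl => v 0) ⁻¹' I) ∩ (fun v : Pl => b (v 0) - v 1) ⁻¹' Ioi 0) :=
      (hcb.sub h1.continuousOn).isOpen_inter_preimage hU isOpen_Ioi
    have : region I a b = (((fun v : Pl => v 0) ⁻¹' I) ∩
        (fun v : Pl => v 1 - a (v 0)) ⁻¹' Ioi 0) ∩ (((fun v : Pl => v 0) ⁻¹' I) ∩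
        (fun v : Pl => b (v 0) - v 1) ⁻¹' Ioi 0) := by
      ext v
      simp only [region, mem_ofPred_eq, mem_inter_iff, mem_preimage, mem_Ioi, sub_pos]
      tauto
    rw [this]
    exact e1.inter e2
  convex := by
    intro v hv w hw s t hs ht hst
    rw [← pt_eta v] at hv ⊢
    rw [← pt_eta w] at hw ⊢
    rw [mem_region] at hv hw
    rw [smul_pt, smul_pt, pt_add, mem_region]
    have hI' : s * v 0 + t * w 0 ∈ I := by
      have := ha.1 hv.1 hw.1 hs ht hst
      simpa using this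
    refine ⟨hI', ?_, ?_⟩
    · have h1 := ha.2 hv.1 hw.1 hs ht hst
      simp only [smul_eq_mul] at h1
      refine h1.trans_lt ?_
      rcases hs.eq_or_lt with h2 | h2
      · have : t = 1 := by linarith
        subst h2; subst this; simpa using hw.2.1
      · have h3 := mul_lt_mul_of_pos_left hv.2.1 h2
        have h4 := mul_le_mul_of_nonneg_left hw.2.1.le ht
        linarith
    · have h1 := hb.2 hv.1 hw.1 hs ht hst
      simp only [smul_eq_mul] at h1
      refine lt_of_lt_of_le ?_ h1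
      rcases hs.eq_or_lt with h2 | h2
      · have : t = 1 := by linarith
        subst h2; subst this; simpa using hw.2.2
      · have h3 := mul_lt_mul_of_pos_left hv.2.2 h2
        have h4 := mul_le_mul_of_nonneg_left hw.2.2.le ht
        linarith

/-- the inner parallel set of a region -/
lemma mem_inner_region {I : Set ℝ} {a b : ℝ → ℝ} {r x y : ℝ} (hr : 0 < r) :
    pt x y ∈ inner (region I a b) r ↔
      ∀ X, |X - x| < r → X ∈ I ∧ a X + arc r (X - x) ≤ y ∧ y + arc r (X - x) ≤ b X := by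
  constructor
  · intro h X hX
    have hpos := arc_pos hX
    have key : ∀ Y, |Y - y| < arc r (X - x) → X ∈ I ∧ a X < Y ∧ Y < b X := fun Y hY =>
      mem_region.1 (h ((mem_ball_pt hr).2 ⟨hX, hY⟩))
    refine ⟨(key y (by simpa using hpos)).1, ?_, ?_⟩
    · by_contra hc
      rw [not_le] at hc
      have h1 := (key (max (y - arc r (X - x) / 2) (min y (a X))) (by
        rw [abs_lt]
        constructor
        · have := le_max_left (y - arc r (X - x) / 2) (min y (a X))
          linarith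
        · have : max (y - arc r (X - x) / 2) (min y (a X)) ≤ y :=
            max_le (by linarith) (min_le_left _ _)
          linarith)).2.1
      rcases le_total (a X) (y - arc r (X - x) / 2) with h2 | h2
      · -- `a X` itself is admissible
        have h3 := (key (a X) (by rw [abs_lt]; constructor <;> linarith)).2.1
        exact lt_irrefl _ h3
      · rcases le_total y (a X) with h3 | h3
        · rw [min_eq_left h3] at h1
          have : max (y - arc r (X - x) / 2) y = y := max_eq_right (by linarith)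
          rw [this] at h1; linarith
        · rw [min_eq_right h3, max_eq_right h2] at h1
          exact lt_irrefl _ h1
    · by_contra hc
      rw [not_le] at hc
      have h4 : b X < y + arc r (X - x) := hc
      rcases le_total (b X) y with h3 | h3
      · have := (key y (by simpa using hpos)).2.2
        linarith
      · have h5 := (key (b X) (by rw [abs_lt]; constructor <;> linarith)).2.2
        exact lt_irrefl _ h5
  · intro h v hv
    rw [← pt_eta v] at hv ⊢
    rw [mem_ball_pt hr] at hv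
    obtain ⟨h1, h2, h3⟩ := h _ hv.1
    rw [mem_region]
    have h4 := abs_lt.1 hv.2
    exact ⟨h1, by linarith [h4.1], by linarith [h4.2]⟩

/-! ### Fubini in the vertical direction -/

/-- `(x, y) ↦ pt x y` as a measurable equivalence -/
noncomputable def ptEquiv : ℝ × ℝ ≃ᵐ Pl :=
  (MeasurableEquiv.finTwoArrow (α := ℝ)).symm.trans (MeasurableEquiv.toLp 2 (Fin 2 → ℝ))

lemma ptEquiv_apply (q : ℝ × ℝ) : ptEquiv q = pt q.1 q.2 := by
  simp [ptEquiv, pt]

lemma measurePreserving_ptEquiv : MeasurePreserving ptEquiv := by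
  have h1 : MeasurePreserving (MeasurableEquiv.finTwoArrow (α := ℝ)).symm
      (volume : Measure (ℝ × ℝ)) (volume : Measure (Fin 2 → ℝ)) :=
    (volume_preserving_finTwoArrow ℝ).symm
  have h2 : MeasurePreserving (MeasurableEquiv.toLp 2 (Fin 2 → ℝ)) :=
    EuclideanSpace.volume_preserving_symm_measurableEquiv_toLp (Fin 2) |>.symm _ |> fun h => by
      simpa using h
  exact h2.comp h1

lemma volume_eq_slices {S : Set Pl} (hS : MeasurableSet S) :
    volume S = ∫⁻ x : ℝ, volume {y | pt x y ∈ S} := by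
  rw [← (measurePreserving_ptEquiv).measure_preimage hS.nullMeasurableSet,
    Measure.volume_eq_prod, Measure.prod_apply (ptEquiv.measurable hS)]
  refine lintegral_congr fun x => ?_
  congr 1

end Pool.MP70c477
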