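import Pool.Agent.MP70c477.Contact

/-!
# Selection of a window
-/

namespace Pool.MP70c477

open Set Filter Topology

namespace CSet

variable {g : ℝ → ℝ} {I : Set ℝ} {r b L : ℝ}

/-- the proportion used in the selection -/
noncomputable def kap (r L : ℝ) : ℝ := 1 / (8 * r * Kc r L)

lemma kap_pos (h : CSet g I r b L) : 0 < kap r L := by
  have := h.Kc_pos; have := h.hr
  unfold kap; positivity

lemma kap_le (h : CSet g I r b L) : kap r L ≤ 1 / 8 := by
  have h0 := h.hr
  have hK : 1 / r ≤ Kc r L := by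
    unfold Kc
    have h1 : 1 / r ≤ 1 / (r / Real.sqrt (1 + L ^ 2)) := by
      apply one_div_le_one_div_of_le h.D_pos
      apply div_le_self h0.le
      rw [Real.one_le_sqrt]; nlinarith [sq_nonneg L]
    have h2 : 0 ≤ r ^ 2 / (r / Real.sqrt (1 + L ^ 2)) ^ 3 := by positivity
    linarith
  have h3 : 1 ≤ r * Kc r L := by
    have := mul_le_mul_of_nonneg_left hK h0.le
    rwa [mul_one_div, div_self h0.ne'] at this
  unfold kap
  apply one_div_le_one_div_of_le (by norm_num)
  nlinarith

/-- **Selection lemma.** If the graph is not flat to the right of `0`, there are arbitrarily small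
centres `B` such that `g` is not affine on the stretch `[Y, X(B)]`. -/
theorem select (h : CSet g I r b L) (hnf : ∀ x, 0 < x → x ≤ b → sm g r 0 < sm g r x)
    {ι : ℝ} (hι : 0 < ι) : ∃ B, 0 < B ∧ B < ι ∧ B < b ∧
      g (cm g r B) - g (cm g r 0 + kap r L * (cm g r B - cm g r 0)) <
        sm g r B * (cm g r B - (cm g r 0 + kap r L * (cm g r B - cm g r 0))) := by
  by_contra hcon
  push Not at hcon
  have hr := h.hr
  have hb := h.hb
  have hK := h.Kc_pos
  have hκ := h.kap_pos
  have hκ1 := h.kap_le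
  set X0 := cm g r 0 with hX0
  have h0b : |(0:ℝ)| ≤ b := by simpa using hb.le
  obtain ⟨B1, hB10, hB1⟩ : ∃ B1, 0 < B1 ∧ B1 < min ι b := ⟨min ι b / 2, by
    have : 0 < min ι b := lt_min hι hb
    constructor <;> linarith⟩
  have hB1ι : B1 < ι := hB1.trans_le (min_le_left _ _)
  have hB1b : B1 < b := hB1.trans_le (min_le_right _ _)
  have habs : ∀ x, 0 ≤ x → x ≤ B1 → |x| ≤ b := fun x h1 h2 => by
    rw [abs_of_nonneg h1]; linarith
  set m1 := sm g r B1 with hm1
  have hm01 : sm g r 0 < m1 := hnf B1 hB10 hB1b.le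
  set S := {x | 0 ≤ x ∧ x ≤ B1 ∧ m1 ≤ sm g r x} with hS
  have hBS : B1 ∈ S := ⟨hB10.le, le_rfl, le_rfl⟩
  have hSbdd : BddBelow S := ⟨0, fun x hx => hx.1⟩
  set xs := sInf S with hxs
  have hxs0 : 0 ≤ xs := le_csInf ⟨B1, hBS⟩ fun x hx => hx.1
  have hxsB : xs ≤ B1 := csInf_le hSbdd hBS
  have hxsb : |xs| ≤ b := habs xs hxs0 hxsB
  -- the slope at `xs` is `m1`
  have hxsm : m1 ≤ sm g r xs := by
    by_contra hc
    rw [not_le] at hc
    obtain ⟨δ, hδ, hδ2⟩ := h.cm_rightCont hxsb (by linarith)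
      (ε := (m1 - sm g r xs) / Kc r L) (by apply div_pos _ hK; linarith)
    obtain ⟨x, hxS, hxlt⟩ := exists_lt_of_csInf_lt ⟨B1, hBS⟩ (show sInf S < xs + δ by linarith)
    have hxge : xs ≤ x := csInf_le hSbdd hxS
    have h1 := hδ2 x hxge hxlt (by linarith [hxS.2.1])
    have h2 := h.sm_sub_le hxsb (habs x hxS.1 hxS.2.1) hxge
    have h3 : Kc r L * (cm g r x - cm g r xs) < Kc r L * ((m1 - sm g r xs) / Kc r L) :=
      mul_lt_mul_of_pos_left (by linarith) hK
    have h4 : Kc r L * ((m1 - sm g r xs) / Kc r L) = m1 - sm g r xs := by field_simp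
    have h5 := hxS.2.2
    linarith
  have hxspos : 0 < xs := by
    rcases hxs0.eq_or_lt with h1 | h1
    · rw [← h1] at hxsm; linarith
    · exact h1
  have hxsm' : sm g r xs = m1 :=
    le_antisymm (h.sm_mono hxsb (habs B1 hB10.le le_rfl) hxsB) hxsm
  have hlow : ∀ x, 0 ≤ x → x < xs → sm g r x < m1 := by
    intro x h1 h2
    by_contra hc
    rw [not_lt] at hc
    have : xs ≤ x := csInf_le hSbdd ⟨h1, by linarith, hc⟩
    linarith
  set Xs := cm g r xs with hXs
  have hXsX0 : xs ≤ Xs - X0 := by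
    have := h.cm_strictMono h0b hxsb hxspos; simpa using this
  set Y := X0 + kap r L * (Xs - X0) with hY
  have hYX : Y < Xs := by
    have : kap r L * (Xs - X0) ≤ 1 / 8 * (Xs - X0) :=
      mul_le_mul_of_nonneg_right hκ1 (by linarith)
    rw [hY]; linarith
  have hYX0 : X0 < Y := by
    rw [hY]; have : 0 < kap r L * (Xs - X0) := mul_pos hκ (by linarith); linarith
  have haff := hcon xs hxspos (by linarith) (by linarith)
  rw [hxsm'] at haff
  change m1 * (Xs - Y) ≤ g Xs - g Y at haff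
  have hCs := h.isC_cm hxsb
  have hslo : slo r (Xs - xs) = m1 := hxsm'
  have hX0J := h.mem_J h0b (h.isC_cm h0b).1
  have hXsJ := h.mem_J hxsb hCs.1
  have hYJ : Y ∈ Icc (-(r + b)) (r + b) := ⟨hX0J.1.trans hYX0.le, hYX.le.trans hXsJ.2⟩
  have hYI : Y ∈ I := h.sub hYJ
  -- contact points of smaller centres lie to the left of `Y`
  have hleft : ∀ x, 0 < x → x < xs → cm g r x ≤ Y := by
    intro x h1 h2
    by_contra hc
    rw [not_le] at hc
    have hxb := habs x h1.le (by linarith)
    have hC := h.isC_cm hxb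
    have e1 := h.subgrad hxsb hCs (h.sub (h.mem_J hxb hC.1))
    have e2 := h.subgrad hxb hC hYI
    change g (cm g r x) + sm g r x * (Y - cm g r x) ≤ g Y at e2
    change g Xs + slo r (Xs - xs) * (cm g r x - Xs) ≤ g (cm g r x) at e1
    rw [hslo] at e1
    have e3 := hlow x h1.le h2
    nlinarith
  -- the left limit contact point
  set us : ℕ → ℝ := fun n => xs - xs / ((n : ℝ) + 2) with hus
  have hus1 : ∀ n, 0 < us n := fun n => by
    have : xs / ((n : ℝ) + 2) < xs := by
      apply div_lt_self hxspos; linarith [Nat.cast_nonneg (α := ℝ) n]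
    simp only [hus]; linarith
  have hus2 : ∀ n, us n < xs := fun n => by
    have : 0 < xs / ((n : ℝ) + 2) := by positivity
    simp only [hus]; linarith
  have hus3 : ∀ n, |us n| ≤ b := fun n => habs _ (hus1 n).le (by linarith [hus2 n])
  have hus4 : Monotone us := by
    intro m n hmn
    have : xs / ((n : ℝ) + 2) ≤ xs / ((m : ℝ) + 2) := by
      apply div_le_div_of_nonneg_left hxspos.le (by positivity)
      have : (m : ℝ) ≤ n := by exact_mod_cast hmn
      linarith
    simp only [hus]; linarith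
  have hus5 : Tendsto us atTop (𝓝 xs) := by
    have h1 : Tendsto (fun n : ℕ => (n : ℝ) + 2) atTop atTop :=
      tendsto_natCast_atTop_atTop.atTop_add tendsto_const_nhds
    have h2 : Tendsto (fun n : ℕ => xs / ((n : ℝ) + 2)) atTop (𝓝 0) := h1.const_div_atTop xs
    have h3 := h2.const_sub xs
    simpa using h3
  have hmon : Monotone fun n => cm g r (us n) := fun m n hmn =>
    h.cm_mono (hus3 m) (hus3 n) (hus4 hmn)
  have hbd : BddAbove (range fun n => cm g r (us n)) := by
    refine ⟨Y, ?_⟩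
    rintro _ ⟨n, rfl⟩
    exact hleft _ (hus1 n) (hus2 n)
  have hlim := tendsto_atTop_ciSup hmon hbd
  set Xm := ⨆ n, cm g r (us n) with hXm
  have hCm : IsC g r xs Xm := h.isC_of_tendsto hus3 (fun n => h.isC_cm (hus3 n)) hus5 hlim
  have hXmY : Xm ≤ Y := ciSup_le fun n => hleft _ (hus1 n) (hus2 n)
  have hXmX0 : X0 ≤ Xm := by
    have h1 : cm g r (us 0) ≤ Xm := le_ciSup hbd 0
    have h2 := h.cm_strictMono h0b (hus3 0) (hus1 0)
    linarith [hus1 0]
  -- both `Xm` and `Xs` are contact points of the disc centred at `xs`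
  have hltm := h.abs_lt_of_isC hxsb hCm
  have hlts := h.abs_lt_of_isC hxsb hCs
  have heq : g Xm + arc r (Xm - xs) = g Xs + arc r (Xs - xs) :=
    le_antisymm (hCs.2 _ hCm.1) (hCm.2 _ hCs.1)
  have hchord := arc_chord hltm hlts (show Xm - xs ≤ Xs - xs by linarith)
  have e1 : Xs - xs - (Xm - xs) = Xs - Xm := by ring
  rw [e1, hslo] at hchord
  have hsubm := h.subgrad hxsb hCm hYI
  set mm := slo r (Xm - xs) with hmm
  have hslm : m1 - mm ≤ Kc r L * (Xs - Xm) := by
    have h1 := slo_sub_le h.D_pos hltm hlts (h.arc_lower hxsb hCm) (h.arc_lower hxsb hCs)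
      (show Xm - xs ≤ Xs - xs by linarith)
    rw [e1, hslo] at h1
    exact h1
  set H := Xs - Xm with hH
  have hH0 : 0 < H := by rw [hH]; linarith
  have hkey : H ^ 2 / (4 * r) ≤ (m1 - mm) * (Y - Xm) := by nlinarith
  have hkey2 : H ^ 2 / (4 * r) ≤ Kc r L * H * (Y - Xm) :=
    hkey.trans (mul_le_mul_of_nonneg_right hslm (by linarith))
  have hkey3 : H ≤ 4 * r * Kc r L * (Y - Xm) := by
    rw [div_le_iff₀ (by positivity)] at hkey2
    have : H * H ≤ H * (4 * r * Kc r L * (Y - Xm)) := by nlinarith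
    exact le_of_mul_le_mul_left this hH0
  have hκeq : kap r L * (8 * r * Kc r L) = 1 := by
    unfold kap; field_simp
  have hYm : Y - Xm = kap r L * (Xs - X0) - (Xm - X0) := by rw [hY]; ring
  -- `2 κ H ≤ Y - Xm`
  have hfin : 2 * kap r L * H ≤ Y - Xm := by
    have h1 : kap r L * H ≤ kap r L * (4 * r * Kc r L * (Y - Xm)) :=
      mul_le_mul_of_nonneg_left hkey3 hκ.le
    have h2 : kap r L * (4 * r * Kc r L * (Y - Xm)) =
        (kap r L * (8 * r * Kc r L)) * (Y - Xm) / 2 := by ring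
    rw [h2, hκeq] at h1
    linarith
  have hpos : 0 < kap r L * (Xs - X0) := mul_pos hκ (by linarith)
  have hH2 : H = (Xs - X0) - (Xm - X0) := by rw [hH]; ring
  rw [hYm, hH2] at hfin
  have h3 : 2 * kap r L * (Xm - X0) ≤ (Xm - X0) := by
    have : 2 * kap r L ≤ 1 := by linarith
    nlinarith
  nlinarith

end CSet

end Pool.MP70c477
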