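import Pool.Agent.MP70c477.Width

/-!
# Areas of outer and inner shells
-/

namespace Pool.MP70c477

open MeasureTheory Set Filter Topology Bornology
open scoped ENNReal NNReal RealInnerProductSpace

/-- inner parallel set -/
def inner (A : Set Pl) (s : ℝ) : Set Pl := {x | Metric.ball x s ⊆ A}

lemma mem_inner_iff_infDist {A : Set Pl} (hA : Aᶜ.Nonempty) {s : ℝ} {x : Pl} :
    x ∈ inner A s ↔ s ≤ Metric.infDist x Aᶜ := by
  rw [Metric.le_infDist hA]
  constructor
  · intro h y hy
    by_contra hc
    exact hy (h (by rw [Metric.mem_ball, dist_comm]; exact not_le.1 hc))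
  · intro h y hy
    by_contra hc
    have := h hc
    rw [Metric.mem_ball, dist_comm] at hy
    linarith

lemma compl_nonempty {A : Set Pl} (hA : IsBounded A) : Aᶜ.Nonempty := by
  by_contra h
  rw [not_nonempty_iff_eq_empty, compl_empty_iff] at h
  rw [h] at hA
  exact NormedSpace.unbounded_univ ℝ Pl hA

lemma convex_inner {A : Set Pl} (hA : Convex ℝ A) (s : ℝ) : Convex ℝ (inner A s) := by
  intro x hx y hy a b ha hb hab z hz
  rw [Metric.mem_ball, dist_eq_norm] at hz
  set w := z - (a • x + b • y) with hw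
  have h1 : x + w ∈ A := hx (by rw [Metric.mem_ball, dist_eq_norm, add_sub_cancel_left]; exact hz)
  have h2 : y + w ∈ A := hy (by rw [Metric.mem_ball, dist_eq_norm, add_sub_cancel_left]; exact hz)
  have h3 := hA h1 h2 ha hb hab
  have : a • (x + w) + b • (y + w) = z := by
    have : a • (x + w) + b • (y + w) = (a • x + b • y) + (a + b) • w := by
      simp only [smul_add, add_smul]; abel
    rw [this, hab, one_smul, hw]; abel
  rwa [this] at h3

lemma isClosed_inner {A : Set Pl} (hA : IsBounded A) (s : ℝ) : IsClosed (inner A s) := by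
  have : inner A s = {x | s ≤ Metric.infDist x Aᶜ} := by
    ext x; exact mem_inner_iff_infDist (compl_nonempty hA)
  rw [this]
  exact isClosed_le continuous_const (Metric.continuous_infDist_pt _)

lemma inner_subset {A : Set Pl} {s : ℝ} (hs : 0 < s) : inner A s ⊆ A := fun _ hx =>
  hx (Metric.mem_ball_self hs)

lemma inner_anti {A : Set Pl} {s t : ℝ} (h : s ≤ t) : inner A t ⊆ inner A s := fun _ hx =>
  (Metric.ball_subset_ball h).trans hx

lemma inner_mono {A B : Set Pl} (h : A ⊆ B) (s : ℝ) : inner A s ⊆ inner B s := fun _ hx =>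
  hx.trans h

lemma isCompact_inner {A : Set Pl} (hA : IsBounded A) {s : ℝ} (hs : 0 < s) :
    IsCompact (inner A s) :=
  Metric.isCompact_of_isClosed_isBounded (isClosed_inner hA s) (hA.subset (inner_subset hs))

/-- the truncated distance to the complement -/
noncomputable def trd (A : Set Pl) (ε : ℝ) (x : Pl) : ℝ := min (Metric.infDist x Aᶜ) ε

lemma trd_nonneg {A : Set Pl} {ε : ℝ} (hε : 0 ≤ ε) (x : Pl) : 0 ≤ trd A ε x :=
  le_min Metric.infDist_nonneg hε

lemma trd_lipschitz (A : Set Pl) (ε : ℝ) : LipschitzWith 1 (trd A ε) := by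
  exact (Metric.lipschitz_infDist_pt (Aᶜ)).min_const ε

lemma trd_support {A : Set Pl} {ε : ℝ} (hε : 0 < ε) :
    Function.support (trd A ε) ⊆ A := by
  intro x hx
  by_contra hc
  apply hx
  have : Metric.infDist x Aᶜ = 0 := Metric.infDist_zero_of_mem hc
  simp [trd, this, hε.le]

lemma trd_pos {A : Set Pl} (hA : IsOpen A) (hb : IsBounded A) {ε : ℝ} (hε : 0 < ε) {x : Pl}
    (hx : x ∈ A) : 0 < trd A ε x := by
  refine lt_min ?_ hε
  rw [← (hA.isClosed_compl).notMem_iff_infDist_pos (compl_nonempty hb)]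
  simpa using hx

lemma trd_hasCompactSupport {A : Set Pl} (hb : IsBounded A) {ε : ℝ}
    (hε : 0 < ε) : HasCompactSupport (trd A ε) := by
  refine HasCompactSupport.of_support_subset_isCompact (hb.isCompact_closure) ?_
  exact (trd_support hε).trans subset_closure

lemma trd_quasi {A : Set Pl} (hA : Convex ℝ A) (hb : IsBounded A) (ε : ℝ) {x y z : Pl}
    (hz : z ∈ segment ℝ x y) : min (trd A ε x) (trd A ε y) ≤ trd A ε z := by
  set s := min (trd A ε x) (trd A ε y) with hs
  have hne := compl_nonempty hb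
  have hx : x ∈ inner A s := (mem_inner_iff_infDist hne).2
    ((min_le_left _ _).trans (min_le_left _ _))
  have hy : y ∈ inner A s := (mem_inner_iff_infDist hne).2
    ((min_le_right _ _).trans (min_le_left _ _))
  have h1 := (convex_inner hA s).segment_subset hx hy hz
  exact le_min ((mem_inner_iff_infDist hne).1 h1) ((min_le_left _ _).trans (min_le_right _ _))

lemma lin_mem_segment {θ p t₁ t₂ t₃ : ℝ} (h1 : t₁ ≤ t₂) (h2 : t₂ ≤ t₃) :
    lin θ p t₂ ∈ segment ℝ (lin θ p t₁) (lin θ p t₃) := by
  rcases eq_or_lt_of_le (h1.trans h2) with h | h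
  · have : t₂ = t₁ := le_antisymm (by linarith) h1
    rw [this]; exact left_mem_segment _ _ _
  · refine ⟨(t₃ - t₂) / (t₃ - t₁), (t₂ - t₁) / (t₃ - t₁), by
      apply div_nonneg <;> linarith, by apply div_nonneg <;> linarith, by
      rw [← add_div]; rw [div_eq_one_iff_eq] <;> linarith, ?_⟩
    have h3 : t₃ - t₁ ≠ 0 := by linarith
    ext i
    simp only [lin, PiLp.add_apply, PiLp.smul_apply, smul_eq_mul]
    field_simp
    ring

/-- Upper bound for the gradient integral of the truncated distance. -/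
lemma lintegral_trd_le {A : Set Pl} (hb : IsBounded A) (hc : Convex ℝ A)
    {ε : ℝ} (hε : 0 < ε) :
    2 * ∫⁻ x, ‖fderiv ℝ (trd A ε) x‖ₑ ≤ ∫⁻ θ in Ioc 0 (2 * Real.pi), ∫⁻ p,
      ENNReal.ofReal (min ε (min (p - sInf (proj θ A)) (sSup (proj θ A) - p))) := by
  refine crofton_upper (trd_lipschitz A ε) (trd_hasCompactSupport hb hε) _ ?_
  intro θ p
  have hcont : Continuous fun t => trd A ε (lin θ p t) :=
    (lipschitz_line (trd_lipschitz A ε) θ p).continuous
  obtain ⟨R, hR⟩ := hb.subset_closedBall (0 : Pl)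
  have hz : ∀ t, R + 1 ≤ |t| → trd A ε (lin θ p t) = 0 := by
    intro t ht
    by_contra h
    have h1 := hR (trd_support hε h)
    rw [mem_closedBall_zero_iff] at h1
    have := abs_le_norm_lin θ p t
    linarith
  have hcs : HasCompactSupport fun t => trd A ε (lin θ p t) := by
    refine HasCompactSupport.intro (isCompact_Icc (a := -(R + 1)) (b := R + 1)) ?_
    intro t ht
    apply hz
    rw [mem_Icc, not_and_or, not_le, not_le] at ht
    rcases ht with ht | ht
    · exact (by linarith : R + 1 ≤ -t).trans (neg_le_abs t)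
    · exact ht.le.trans (le_abs_self t)
  obtain ⟨t₀, ht₀⟩ := hcont.exists_forall_ge_of_hasCompactSupport hcs
  refine ⟨t₀, ?_, ?_, ?_⟩
  · intro t₁ h1 t₂ h2 h12
    have := trd_quasi hc hb ε (lin_mem_segment (θ := θ) (p := p) h12 h2)
    rwa [min_eq_left (ht₀ t₁)] at this
  · intro t₁ h1 t₂ h2 h12
    have := trd_quasi hc hb ε (lin_mem_segment (θ := θ) (p := p) h1 h12)
    rwa [min_eq_right (ht₀ t₂)] at this
  · apply ENNReal.ofReal_le_ofReal_iff' |>.2
    by_cases hx : lin θ p t₀ ∈ A
    · left
      have hd : ∀ s < Metric.infDist (lin θ p t₀) Aᶜ, Metric.ball (lin θ p t₀) s ⊆ A := by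
        intro s hs
        exact (mem_inner_iff_infDist (compl_nonempty hb)).2 hs.le
      refine le_min (min_le_right _ _) (le_min ?_ ?_)
      · refine (min_le_left _ _).trans ?_
        refine le_of_forall_lt_imp_le_of_dense fun s hs => ?_
        obtain ⟨s', hs', hs''⟩ := exists_between hs
        rcases lt_or_ge s 0 with h0 | h0
        · have h1 : sInf (proj θ A) ≤ p := csInf_le (isBounded_proj hb).bddBelow
            ⟨_, hx, by simp⟩
          linarith
        have h1 : lin θ p t₀ - s • dirN θ ∈ A := hd s' hs'' (by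
          rw [Metric.mem_ball, dist_eq_norm, sub_sub_cancel_left, norm_neg, norm_smul, norm_dirN,
            mul_one, Real.norm_of_nonneg h0]; exact hs')
        have h2 : sInf (proj θ A) ≤ p - s := csInf_le (isBounded_proj hb).bddBelow
          ⟨_, h1, by simp [inner_sub_left, inner_smul_left]⟩
        linarith
      · refine (min_le_left _ _).trans ?_
        refine le_of_forall_lt_imp_le_of_dense fun s hs => ?_
        obtain ⟨s', hs', hs''⟩ := exists_between hs
        rcases lt_or_ge s 0 with h0 | h0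
        · have h1 : p ≤ sSup (proj θ A) := le_csSup (isBounded_proj hb).bddAbove
            ⟨_, hx, by simp⟩
          linarith
        have h1 : lin θ p t₀ + s • dirN θ ∈ A := hd s' hs'' (by
          rw [Metric.mem_ball, dist_eq_norm, add_sub_cancel_left, norm_smul, norm_dirN,
            mul_one, Real.norm_of_nonneg h0]; exact hs')
        have h2 : p + s ≤ sSup (proj θ A) := le_csSup (isBounded_proj hb).bddAbove
          ⟨_, h1, by simp [inner_add_left, inner_smul_left]⟩
        linarith
    · right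
      have : trd A ε (lin θ p t₀) = 0 := by
        by_contra h; exact hx (trd_support hε h)
      exact this.le

lemma lintegral_ofReal_wid {A : Set Pl} (hA : IsBounded A) {c d : ℝ}
    (h : ∀ θ, 0 ≤ c * wid A θ + d) :
    ∫⁻ θ in Ioc 0 (2 * Real.pi), ENNReal.ofReal (c * wid A θ + d) =
      ENNReal.ofReal (2 * (c * per A + Real.pi * d)) := by
  have hi := wid_intervalIntegrable hA 0 (2 * Real.pi)
  have hi2 : IntervalIntegrable (fun θ => c * wid A θ + d) volume 0 (2 * Real.pi) :=
    (hi.const_mul c).add intervalIntegrable_const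
  rw [← ofReal_integral_eq_lintegral_ofReal hi2.1 (Eventually.of_forall h),
    ← intervalIntegral.integral_of_le (by positivity),
    intervalIntegral.integral_add (hi.const_mul c) intervalIntegrable_const,
    intervalIntegral.integral_const_mul, intervalIntegral.integral_const, per]
  congr 1
  simp only [smul_eq_mul]
  ring

/-- `∫|∇ min(d, ε)| ≤ ε P(A)` for convex `A`. -/
lemma lintegral_trd_le_per {A : Set Pl} (hb : IsBounded A) (hc : Convex ℝ A)
    {ε : ℝ} (hε : 0 < ε) :
    ∫⁻ x, ‖fderiv ℝ (trd A ε) x‖ₑ ≤ ENNReal.ofReal (ε * per A) := by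
  have h1 := lintegral_trd_le hb hc hε
  have h2 : ∫⁻ θ in Ioc 0 (2 * Real.pi), ∫⁻ p,
      ENNReal.ofReal (min ε (min (p - sInf (proj θ A)) (sSup (proj θ A) - p))) ≤
      ∫⁻ θ in Ioc 0 (2 * Real.pi), ENNReal.ofReal (ε * wid A θ + 0) := by
    refine lintegral_mono fun θ => ?_
    rw [wid_eq hb, add_zero]
    exact lintegral_trapezoid_le hε.le
  rw [lintegral_ofReal_wid hb (fun θ => by have := wid_nonneg A θ; positivity)] at h2
  have h3 := h1.trans h2
  rw [ENNReal.ofReal_mul (by norm_num : (0:ℝ) ≤ 2), mul_zero, add_zero] at h3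
  have h4 : ENNReal.ofReal 2 = 2 := by norm_num
  rw [h4] at h3
  exact (ENNReal.mul_le_mul_iff_right (by norm_num) (by norm_num)).1 h3

/-- the refined bound, when `A` contains a disc of radius `ε` -/
lemma lintegral_trd_le_per' {A : Set Pl} (hb : IsBounded A) (hc : Convex ℝ A)
    {ε : ℝ} (hε : 0 < ε) (hne : (inner A ε).Nonempty) :
    ∫⁻ x, ‖fderiv ℝ (trd A ε) x‖ₑ ≤ ENNReal.ofReal (ε * per A - Real.pi * ε ^ 2) := by
  obtain ⟨c, hcA⟩ := hne
  have h1 := lintegral_trd_le hb hc hε
  have hw : ∀ θ, 2 * ε ≤ wid A θ := fun θ => ball_wid hb hcA θ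
  have h2 : ∫⁻ θ in Ioc 0 (2 * Real.pi), ∫⁻ p,
      ENNReal.ofReal (min ε (min (p - sInf (proj θ A)) (sSup (proj θ A) - p))) =
      ∫⁻ θ in Ioc 0 (2 * Real.pi), ENNReal.ofReal (ε * wid A θ + (-ε ^ 2)) := by
    refine lintegral_congr fun θ => ?_
    rw [lintegral_trapezoid hε.le (by have := hw θ; rw [wid_eq hb] at this; linarith), wid_eq hb]
    congr 1
  rw [lintegral_ofReal_wid hb (fun θ => by nlinarith [hw θ])] at h2
  have h3 := h1.trans h2.le
  rw [ENNReal.ofReal_mul (by norm_num : (0:ℝ) ≤ 2)] at h3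
  have h4 : ENNReal.ofReal 2 = 2 := by norm_num
  rw [h4] at h3
  have h5 := (ENNReal.mul_le_mul_iff_right (by norm_num) (by norm_num)).1 h3
  refine h5.trans (le_of_eq ?_)
  congr 1; ring

/-- In the shell the gradient of the truncated distance has norm at least one. -/
lemma one_le_norm_fderiv_trd {A : Set Pl} (hA : IsOpen A) (hb : IsBounded A)
    {ε : ℝ} {x : Pl} (hx : x ∈ A) (hx2 : Metric.infDist x Aᶜ < ε)
    (hd : DifferentiableAt ℝ (trd A ε) x) : 1 ≤ ‖fderiv ℝ (trd A ε) x‖ := by
  have hcl : IsClosed Aᶜ := hA.isClosed_compl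
  obtain ⟨q, hq, hqd⟩ := hcl.exists_infDist_eq_dist (compl_nonempty hb) x
  set d := Metric.infDist x Aᶜ with hdd
  have hdpos : 0 < d := by
    rw [hdd, ← hcl.notMem_iff_infDist_pos (compl_nonempty hb)]; simpa using hx
  set L := fderiv ℝ (trd A ε) x with hL
  have hline : HasDerivAt (fun t : ℝ => trd A ε (x + t • (q - x))) (L (q - x)) 0 := by
    have h1 : HasDerivAt (fun t : ℝ => x + t • (q - x)) (q - x) 0 := by
      simpa using ((hasDerivAt_id (0:ℝ)).smul_const (q - x)).const_add x
    have h2 : HasFDerivAt (trd A ε) L (x + (0:ℝ) • (q - x)) := by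
      simpa using hd.hasFDerivAt
    exact h2.comp_hasDerivAt (0:ℝ) h1
  have hub : ∀ t ∈ Icc (0:ℝ) 1, trd A ε (x + t • (q - x)) ≤ (1 - t) * d := by
    intro t ht
    refine (min_le_left _ _).trans ((Metric.infDist_le_dist_of_mem hq).trans ?_)
    rw [dist_eq_norm]
    have : x + t • (q - x) - q = -((1 - t) • (q - x)) := by
      rw [sub_smul, one_smul]; abel
    rw [this, norm_neg, norm_smul, Real.norm_of_nonneg (by linarith [ht.2]), hqd,
      dist_eq_norm, norm_sub_rev]
  have hval : trd A ε x = d := min_eq_left hx2.le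
  have hL1 : L (q - x) ≤ -d := by
    have h3 := hline.tendsto_slope_zero_right
    refine le_of_tendsto h3 ?_
    filter_upwards [Ioo_mem_nhdsGT (zero_lt_one)] with t ht
    simp only [zero_add, zero_smul, add_zero, smul_eq_mul]
    rw [hval]
    have h4 := hub t ⟨ht.1.le, ht.2.le⟩
    rw [inv_mul_le_iff₀ ht.1]
    linarith
  have h5 : d ≤ ‖L‖ * d := by
    calc d ≤ |L (q - x)| := by
          have := neg_le_abs (L (q - x)); linarith
      _ ≤ ‖L‖ * ‖q - x‖ := L.le_opNorm _
      _ = ‖L‖ * d := by rw [hqd, dist_eq_norm, norm_sub_rev]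
  by_contra hc
  rw [not_le] at hc
  nlinarith

lemma volume_shell_le {A : Set Pl} (hA : IsOpen A) (hb : IsBounded A) {ε : ℝ} :
    volume (A \ inner A ε) ≤ ∫⁻ x, ‖fderiv ℝ (trd A ε) x‖ₑ := by
  have hmeas : MeasurableSet (A \ inner A ε) := hA.measurableSet.diff
    (isClosed_inner hb ε).measurableSet
  calc volume (A \ inner A ε) = ∫⁻ x in A \ inner A ε, 1 := by simp
    _ ≤ ∫⁻ x in A \ inner A ε, ‖fderiv ℝ (trd A ε) x‖ₑ := by
      refine lintegral_mono_ae ?_
      rw [ae_restrict_iff' hmeas]
      filter_upwards [(trd_lipschitz A ε).ae_differentiableAt] with x hx hxA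
      have h1 := one_le_norm_fderiv_trd hA hb (ε := ε) hxA.1 (by
        have := hxA.2
        rw [mem_inner_iff_infDist (compl_nonempty hb), not_le] at this
        exact this) hx
      rw [← ofReal_norm]
      rw [← ENNReal.ofReal_one]
      exact ENNReal.ofReal_le_ofReal h1
    _ ≤ _ := setLIntegral_le_lintegral _ _

/-- **(P2)** `|A| ≤ |A_{-ε}| + ε P(A)`. -/
theorem volume_le_inner_add {A : Set Pl} (hA : IsOpen A) (hb : IsBounded A) (hc : Convex ℝ A)
    {ε : ℝ} (hε : 0 < ε) :
    volume A ≤ volume (inner A ε) + ENNReal.ofReal (ε * per A) := by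
  have h1 : A ⊆ inner A ε ∪ (A \ inner A ε) := by
    intro x hx
    by_cases h : x ∈ inner A ε
    · left; exact h
    · right; exact ⟨hx, h⟩
  refine (measure_mono h1).trans ((measure_union_le _ _).trans ?_)
  gcongr
  exact (volume_shell_le hA hb).trans (lintegral_trd_le_per hb hc hε)

/-- **(P2')** `|A| ≤ |A_{-ε}| + ε P(A) - π ε²` if `A` contains a disc of radius `ε`. -/
theorem volume_le_inner_add' {A : Set Pl} (hA : IsOpen A) (hb : IsBounded A) (hc : Convex ℝ A)
    {ε : ℝ} (hε : 0 < ε) (hne : (inner A ε).Nonempty) :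
    volume A ≤ volume (inner A ε) + ENNReal.ofReal (ε * per A - Real.pi * ε ^ 2) := by
  have h1 : A ⊆ inner A ε ∪ (A \ inner A ε) := by
    intro x hx
    by_cases h : x ∈ inner A ε
    · left; exact h
    · right; exact ⟨hx, h⟩
  refine (measure_mono h1).trans ((measure_union_le _ _).trans ?_)
  gcongr
  exact (volume_shell_le hA hb).trans (lintegral_trd_le_per' hb hc hε hne)

/-! ### The outer shell -/

/-- the truncated outer distance function -/
noncomputable def otd (T : Set Pl) (ε : ℝ) (x : Pl) : ℝ := max 0 (ε - Metric.infDist x T)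

lemma otd_lipschitz (T : Set Pl) (ε : ℝ) : LipschitzWith 1 (otd T ε) := by
  have h1 : LipschitzWith 1 (fun x => ε - Metric.infDist x T) := by
    have := (LipschitzWith.const (α := Pl) ε).sub (Metric.lipschitz_infDist_pt T)
    simpa using this
  exact h1.const_max 0

lemma otd_nonneg (T : Set Pl) (ε : ℝ) (x : Pl) : 0 ≤ otd T ε x := le_max_left _ _

lemma otd_le (T : Set Pl) {ε : ℝ} (hε : 0 ≤ ε) (x : Pl) : otd T ε x ≤ ε :=
  max_le hε (by linarith [Metric.infDist_nonneg (x := x) (s := T)])

lemma otd_support {T : Set Pl} (hT : T.Nonempty) {ε : ℝ} :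
    Function.support (otd T ε) ⊆ Metric.thickening ε T := by
  intro x hx
  by_contra hc
  apply hx
  rw [Metric.mem_thickening_iff_infDist_lt hT] at hc
  exact max_eq_left (by linarith)

lemma otd_hasCompactSupport {T : Set Pl} (hT : T.Nonempty) (hb : IsBounded T) {ε : ℝ} :
    HasCompactSupport (otd T ε) :=
  HasCompactSupport.of_support_subset_isCompact
    ((isBounded_thickening hb ε).isCompact_closure) ((otd_support hT).trans subset_closure)

/-- The gradient of the outer distance function is bounded by the indicator of the shell. -/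
lemma lintegral_otd_le {T : Set Pl} (hT : T.Nonempty) (hcl : IsClosed T) {ε : ℝ}
    (hε : 0 < ε) :
    ∫⁻ x, ‖fderiv ℝ (otd T ε) x‖ₑ ≤ volume (Metric.thickening ε T \ T) := by
  have hm : MeasurableSet (Metric.thickening ε T \ T) :=
    Metric.isOpen_thickening.measurableSet.diff hcl.measurableSet
  rw [← lintegral_indicator_one hm]
  refine lintegral_mono fun x => ?_
  by_cases hx : x ∈ Metric.thickening ε T \ T
  · rw [indicator_of_mem hx]
    have := norm_fderiv_le_of_lipschitz ℝ (otd_lipschitz T ε) (x₀ := x)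
    rw [← ofReal_norm, Pi.one_apply, ← ENNReal.ofReal_one]
    exact ENNReal.ofReal_le_ofReal (by simpa using this)
  · rw [indicator_of_notMem hx]
    have h0 : fderiv ℝ (otd T ε) x = 0 := by
      by_cases h1 : x ∈ T
      · have hv : otd T ε x = ε := by
          simp [otd, Metric.infDist_zero_of_mem h1, hε.le]
        have : IsLocalMax (otd T ε) x := Eventually.of_forall fun y => by
          rw [hv]; exact otd_le T hε.le y
        exact this.fderiv_eq_zero
      · have h2 : x ∉ Metric.thickening ε T := fun h => hx ⟨h, h1⟩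
        have hv : otd T ε x = 0 := by
          by_contra h; exact h2 (otd_support hT h)
        have : IsLocalMin (otd T ε) x := Eventually.of_forall fun y => by
          rw [hv]; exact otd_nonneg T ε y
        exact this.fderiv_eq_zero
    rw [h0, ← ofReal_norm, norm_zero, ENNReal.ofReal_zero]

/-- **(P1)** `|T + B_ε| ≥ |T| + ε P(T) + π ε²` for compact convex `T`. -/
theorem volume_thickening_ge {T : Set Pl} (hT : T.Nonempty) (hK : IsCompact T)
    (hc : Convex ℝ T) {ε : ℝ} (hε : 0 < ε) :
    volume T + ENNReal.ofReal (ε * per T + Real.pi * ε ^ 2) ≤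
      volume (Metric.thickening ε T) := by
  have hb : IsBounded T := hK.isBounded
  have hcomp : ∀ θ, IsCompact (proj θ T) := fun θ =>
    hK.image (by fun_prop)
  have hproj : ∀ θ, proj θ T = Icc (sInf (proj θ T)) (sSup (proj θ T)) := by
    intro θ
    have h1 : IsConnected (proj θ T) :=
      (hc.isConnected hT).image _ (by fun_prop)
    exact eq_Icc_of_connected_compact h1 (hcomp θ)
  have key : ∫⁻ θ in Ioc 0 (2 * Real.pi), ∫⁻ p, ENNReal.ofReal (min ε
      (min (p - (sInf (proj θ T) - ε)) ((sSup (proj θ T) + ε) - p))) ≤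
      2 * ∫⁻ x, ‖fderiv ℝ (otd T ε) x‖ₑ := by
    refine crofton_lower (otd_lipschitz T ε) (otd_hasCompactSupport hT hb) (fun θ p =>
      ENNReal.ofReal (min ε (min (p - (sInf (proj θ T) - ε)) ((sSup (proj θ T) + ε) - p)))) ?_
    intro θ p hm
    have hm' : 0 < min ε (min (p - (sInf (proj θ T) - ε)) ((sSup (proj θ T) + ε) - p)) := by
      rw [Ne, ENNReal.ofReal_eq_zero, not_le] at hm
      exact hm
    rw [lt_min_iff, lt_min_iff] at hm'
    have hgen : ∀ x ∈ T, ∃ t, ENNReal.ofReal (ε - |p - ⟪x, dirN θ⟫|) ≤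
        ENNReal.ofReal (otd T ε (lin θ p t)) := by
      intro x hx
      refine ⟨⟪x, dirE θ⟫, ENNReal.ofReal_le_ofReal ?_⟩
      refine le_trans ?_ (le_max_right _ _)
      have h1 : Metric.infDist (lin θ p ⟪x, dirE θ⟫) T ≤ |p - ⟪x, dirN θ⟫| := by
        refine (Metric.infDist_le_dist_of_mem hx).trans ?_
        have h2 : lin θ p ⟪x, dirE θ⟫ - x = (p - ⟪x, dirN θ⟫) • dirN θ := by
          conv_lhs => rw [← lin_of_inner θ x]
          simp only [inner_lin_dirE]
          simp only [lin, sub_smul]
          abel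
        rw [dist_eq_norm, h2, norm_smul, norm_dirN, mul_one, Real.norm_eq_abs]
      linarith
    rcases lt_or_ge p (sInf (proj θ T)) with h | h
    · obtain ⟨x, hx, hxe⟩ := (hcomp θ).sInf_mem (hT.image _)
      obtain ⟨t, ht⟩ := hgen x hx
      refine ⟨t, le_trans (ENNReal.ofReal_le_ofReal ?_) ht⟩
      refine (min_le_right _ _).trans ((min_le_left _ _).trans ?_)
      simp only at hxe
      rw [hxe, abs_of_neg (by linarith)]
      linarith
    rcases lt_or_ge (sSup (proj θ T)) p with h' | h'
    · obtain ⟨x, hx, hxe⟩ := (hcomp θ).sSup_mem (hT.image _)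
      obtain ⟨t, ht⟩ := hgen x hx
      refine ⟨t, le_trans (ENNReal.ofReal_le_ofReal ?_) ht⟩
      refine (min_le_right _ _).trans ((min_le_right _ _).trans ?_)
      simp only at hxe
      rw [hxe, abs_of_pos (by linarith)]
      linarith
    · have : p ∈ proj θ T := by rw [hproj θ]; exact ⟨h, h'⟩
      obtain ⟨x, hx, hxe⟩ := this
      obtain ⟨t, ht⟩ := hgen x hx
      refine ⟨t, le_trans (ENNReal.ofReal_le_ofReal ?_) ht⟩
      refine (min_le_left _ _).trans ?_
      simp only at hxe
      rw [hxe]; simp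
  have h2 : ∫⁻ θ in Ioc 0 (2 * Real.pi), ∫⁻ p, ENNReal.ofReal (min ε
      (min (p - (sInf (proj θ T) - ε)) ((sSup (proj θ T) + ε) - p))) =
      ∫⁻ θ in Ioc 0 (2 * Real.pi), ENNReal.ofReal (ε * wid T θ + ε ^ 2) := by
    refine lintegral_congr fun θ => ?_
    have h3 : 0 ≤ sSup (proj θ T) - sInf (proj θ T) := by
      rw [← wid_eq hb]; exact wid_nonneg _ _
    rw [lintegral_trapezoid hε.le (by linarith), wid_eq hb]
    congr 1; ring
  rw [h2, lintegral_ofReal_wid hb (fun θ => by have := wid_nonneg T θ; positivity),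
    ENNReal.ofReal_mul (by norm_num : (0:ℝ) ≤ 2)] at key
  have h4 : ENNReal.ofReal 2 = 2 := by norm_num
  rw [h4] at key
  have h5 := (ENNReal.mul_le_mul_iff_right (by norm_num) (by norm_num)).1 key
  have h6 := h5.trans (lintegral_otd_le hT hK.isClosed hε)
  calc volume T + ENNReal.ofReal (ε * per T + Real.pi * ε ^ 2)
      ≤ volume T + volume (Metric.thickening ε T \ T) := by gcongr
    _ = volume (T ∪ (Metric.thickening ε T \ T)) := by
        rw [measure_union disjoint_sdiff_right (Metric.isOpen_thickening.measurableSet.diff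
          hK.isClosed.measurableSet)]
    _ = volume (Metric.thickening ε T) := by
        rw [union_sdiff_cancel (Metric.self_subset_thickening hε T)]

end Pool.MP70c477
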