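import Pool.Agent.MP70c477.Crofton

/-!
# Widths and the perimeter functional
-/

namespace Pool.MP70c477

open MeasureTheory Set Filter Topology Bornology
open scoped ENNReal NNReal RealInnerProductSpace

/-- the projection of `A` on the normal direction `n(θ)` -/
def proj (θ : ℝ) (A : Set Pl) : Set ℝ := (fun x => ⟪x, dirN θ⟫) '' A

/-- the width of `A` in direction `n(θ)` -/
noncomputable def wid (A : Set Pl) (θ : ℝ) : ℝ := Metric.diam (proj θ A)

/-- the perimeter (for convex sets), by Cauchy's formula -/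
noncomputable def per (A : Set Pl) : ℝ := (∫ θ in (0)..(2 * Real.pi), wid A θ) / 2

lemma proj_mono {θ : ℝ} {A B : Set Pl} (h : A ⊆ B) : proj θ A ⊆ proj θ B := image_mono h

lemma isBounded_proj {θ : ℝ} {A : Set Pl} (hA : IsBounded A) : IsBounded (proj θ A) := by
  have h : LipschitzWith 1 (fun x : Pl => ⟪x, dirN θ⟫) := by
    refine LipschitzWith.of_dist_le_mul fun x y => ?_
    rw [Real.dist_eq, ← inner_sub_left, dist_eq_norm]
    simpa using abs_real_inner_le_norm (x - y) (dirN θ)
  exact h.isBounded_image hA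

lemma wid_nonneg (A : Set Pl) (θ : ℝ) : 0 ≤ wid A θ := Metric.diam_nonneg

lemma wid_mono {A B : Set Pl} (h : A ⊆ B) (hB : IsBounded B) (θ : ℝ) : wid A θ ≤ wid B θ :=
  Metric.diam_mono (proj_mono h) (isBounded_proj hB)

lemma dist_le_wid {A : Set Pl} (hA : IsBounded A) {θ : ℝ} {x y : Pl} (hx : x ∈ A) (hy : y ∈ A) :
    |⟪x, dirN θ⟫ - ⟪y, dirN θ⟫| ≤ wid A θ := by
  rw [← Real.dist_eq]
  exact Metric.dist_le_diam_of_mem (isBounded_proj hA) (mem_image_of_mem _ hx)
    (mem_image_of_mem _ hy)

lemma wid_le {A : Set Pl} {θ M : ℝ} (hM : 0 ≤ M)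
    (h : ∀ x ∈ A, ∀ y ∈ A, ⟪x, dirN θ⟫ - ⟪y, dirN θ⟫ ≤ M) : wid A θ ≤ M := by
  refine Metric.diam_le_of_forall_dist_le hM ?_
  rintro _ ⟨x, hx, rfl⟩ _ ⟨y, hy, rfl⟩
  rw [Real.dist_eq, abs_le]
  constructor
  · have := h y hy x hx; simp only at *; linarith
  · exact h x hx y hy

lemma continuous_wid {A : Set Pl} (hA : IsBounded A) : Continuous (wid A) := by
  obtain ⟨R, hR⟩ := hA.subset_closedBall (0 : Pl)
  have key : ∀ θ θ', wid A θ ≤ wid A θ' + 2 * |R| * ‖dirN θ - dirN θ'‖ := by
    intro θ θ'
    refine wid_le (by have := wid_nonneg A θ'; positivity) fun x hx y hy => ?_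
    have h1 : ⟪x, dirN θ⟫ - ⟪y, dirN θ⟫ =
        (⟪x, dirN θ'⟫ - ⟪y, dirN θ'⟫) + ⟪x - y, dirN θ - dirN θ'⟫ := by
      simp only [inner_sub_left, inner_sub_right]; ring
    have h2 : ⟪x - y, dirN θ - dirN θ'⟫ ≤ ‖x - y‖ * ‖dirN θ - dirN θ'‖ :=
      real_inner_le_norm _ _
    have h3 : ‖x - y‖ ≤ 2 * |R| := by
      have h4 := hR hx
      have h5 := hR hy
      rw [mem_closedBall_zero_iff] at h4 h5
      calc ‖x - y‖ ≤ ‖x‖ + ‖y‖ := norm_sub_le _ _
        _ ≤ 2 * |R| := by linarith [le_abs_self R]
    have h6 : ‖x - y‖ * ‖dirN θ - dirN θ'‖ ≤ 2 * |R| * ‖dirN θ - dirN θ'‖ :=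
      mul_le_mul_of_nonneg_right h3 (norm_nonneg _)
    have h7 := (le_abs_self _).trans (dist_le_wid hA (θ := θ') hx hy)
    rw [h1]; linarith
  rw [continuous_iff_continuousAt]
  intro θ₀
  rw [ContinuousAt, tendsto_iff_dist_tendsto_zero]
  have h1 : Tendsto (fun θ => 2 * |R| * ‖dirN θ - dirN θ₀‖) (𝓝 θ₀) (𝓝 0) := by
    have : ContinuousAt (fun θ => 2 * |R| * ‖dirN θ - dirN θ₀‖) θ₀ :=
      ((continuous_dirN.sub continuous_const).norm.const_mul (2 * |R|)).continuousAt
    have h2 := this.tendsto
    simpa using h2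
  refine squeeze_zero (fun _ => dist_nonneg) (fun θ => ?_) h1
  rw [Real.dist_eq, abs_le]
  have h2 := key θ θ₀
  have h3 := key θ₀ θ
  rw [norm_sub_rev] at h3
  constructor <;> linarith

lemma wid_intervalIntegrable {A : Set Pl} (hA : IsBounded A) (a b : ℝ) :
    IntervalIntegrable (wid A) volume a b := (continuous_wid hA).intervalIntegrable a b

lemma per_nonneg (A : Set Pl) : 0 ≤ per A := by
  unfold per
  have : 0 ≤ ∫ θ in (0)..(2 * Real.pi), wid A θ :=
    intervalIntegral.integral_nonneg (by positivity) fun θ _ => wid_nonneg A θ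
  positivity

lemma per_mono {A B : Set Pl} (h : A ⊆ B) (hB : IsBounded B) : per A ≤ per B := by
  unfold per
  have := intervalIntegral.integral_mono_on (a := 0) (b := 2 * Real.pi) (by positivity)
    (wid_intervalIntegrable (hB.subset h) _ _) (wid_intervalIntegrable hB _ _)
    (fun θ _ => wid_mono h hB θ)
  linarith

/-- comparison of perimeters from comparison of widths -/
lemma per_le_of_wid {A B : Set Pl} (hA : IsBounded A) (hB : IsBounded B) {c d : ℝ}
    (h : ∀ θ, c * wid A θ + d ≤ wid B θ) : c * per A + Real.pi * d ≤ per B := by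
  unfold per
  have h1 := intervalIntegral.integral_mono_on (a := 0) (b := 2 * Real.pi) (by positivity)
    (((wid_intervalIntegrable hA 0 (2 * Real.pi)).const_mul c).add
      (intervalIntegrable_const (c := d))) (wid_intervalIntegrable hB _ _)
    (fun θ _ => h θ)
  rw [intervalIntegral.integral_add ((wid_intervalIntegrable hA _ _).const_mul c)
    intervalIntegrable_const, intervalIntegral.integral_const_mul,
    intervalIntegral.integral_const] at h1
  simp only [smul_eq_mul] at h1
  linarith

lemma ball_wid {A : Set Pl} (hA : IsBounded A) {c : Pl} {ρ : ℝ}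
    (h : Metric.ball c ρ ⊆ A) (θ : ℝ) : 2 * ρ ≤ wid A θ := by
  refine le_of_forall_lt_imp_le_of_dense fun s hs => ?_
  rcases lt_or_ge s 0 with h0 | h0
  · exact h0.le.trans (wid_nonneg _ _)
  have h1 : c + (s / 2) • dirN θ ∈ A := h (by
    rw [Metric.mem_ball, dist_eq_norm, add_sub_cancel_left, norm_smul, norm_dirN, mul_one,
      Real.norm_of_nonneg (by positivity)]; linarith)
  have h2 : c - (s / 2) • dirN θ ∈ A := h (by
    rw [Metric.mem_ball, dist_eq_norm, sub_sub_cancel_left, norm_neg, norm_smul, norm_dirN,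
      mul_one, Real.norm_of_nonneg (by positivity)]; linarith)
  have h3 := (le_abs_self _).trans (dist_le_wid hA (θ := θ) h1 h2)
  simp only [inner_add_left, inner_sub_left, inner_smul_left, inner_dirN_dirN] at h3
  simp at h3
  linarith

lemma wid_thickening {A : Set Pl} (hA : IsBounded A) {s : ℝ} (hs : 0 ≤ s) (θ : ℝ) :
    wid (Metric.thickening s A) θ ≤ wid A θ + 2 * s := by
  refine wid_le (by have := wid_nonneg A θ; positivity) fun x hx y hy => ?_
  rw [Metric.mem_thickening_iff] at hx hy
  obtain ⟨x', hx', hxx⟩ := hx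
  obtain ⟨y', hy', hyy⟩ := hy
  have h1 := (le_abs_self _).trans (dist_le_wid hA (θ := θ) hx' hy')
  have h2 : ⟪x, dirN θ⟫ - ⟪x', dirN θ⟫ ≤ s := by
    rw [← inner_sub_left]
    refine (real_inner_le_norm _ _).trans ?_
    rw [norm_dirN, mul_one, ← dist_eq_norm]; exact hxx.le
  have h3 : ⟪y', dirN θ⟫ - ⟪y, dirN θ⟫ ≤ s := by
    rw [← inner_sub_left]
    refine (real_inner_le_norm _ _).trans ?_
    rw [norm_dirN, mul_one, ← dist_eq_norm, dist_comm]; exact hyy.le
  linarith

lemma isBounded_thickening {A : Set Pl} (hA : IsBounded A) (s : ℝ) :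
    IsBounded (Metric.thickening s A) := hA.thickening

lemma per_thickening {A : Set Pl} (hA : IsBounded A) {s : ℝ} (hs : 0 ≤ s) :
    per (Metric.thickening s A) ≤ per A + 2 * Real.pi * s := by
  have := per_le_of_wid (isBounded_thickening hA s) hA (c := 1) (d := -(2 * s))
    (fun θ => by have := wid_thickening hA hs θ; linarith)
  linarith

lemma wid_homothety {A : Set Pl} {o : Pl} {c : ℝ} (hc : 0 < c) {B : Set Pl} (hB : IsBounded B)
    (h : ∀ x ∈ A, o + c • (x - o) ∈ B) (θ : ℝ) : c * wid A θ ≤ wid B θ := by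
  have h1 : wid A θ ≤ wid B θ / c := by
    refine wid_le (by have := wid_nonneg B θ; positivity) fun x hx y hy => ?_
    rw [le_div_iff₀ hc]
    have h2 := (le_abs_self _).trans (dist_le_wid hB (θ := θ) (h x hx) (h y hy))
    simp only [inner_add_left, inner_sub_left, inner_smul_left] at h2
    simp at h2
    linarith
  rw [le_div_iff₀ hc] at h1
  linarith

/-- The projection of a nonempty bounded set lies between its extreme values. -/
lemma wid_eq {A : Set Pl} (hA : IsBounded A) (θ : ℝ) :
    wid A θ = sSup (proj θ A) - sInf (proj θ A) := Real.diam_eq (isBounded_proj hA)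

/-- integral of a trapezoid -/
lemma lintegral_trapezoid {α β ε : ℝ} (hε : 0 ≤ ε) (h : α + 2 * ε ≤ β) :
    ∫⁻ p, ENNReal.ofReal (min ε (min (p - α) (β - p))) =
      ENNReal.ofReal (ε * (β - α) - ε ^ 2) := by
  have hαβ : α ≤ β := by linarith
  have hc : Continuous fun p : ℝ => min ε (min (p - α) (β - p)) := by fun_prop
  have h1 : ∫⁻ p, ENNReal.ofReal (min ε (min (p - α) (β - p))) =
      ∫⁻ p in Icc α β, ENNReal.ofReal (min ε (min (p - α) (β - p))) := by
    rw [setLIntegral_eq_of_support_subset]
    intro p hp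
    by_contra hc
    rw [Function.mem_support] at hp
    apply hp
    rw [ENNReal.ofReal_eq_zero]
    rw [mem_Icc, not_and_or, not_le, not_le] at hc
    rcases hc with hc | hc
    · exact (min_le_right _ _).trans ((min_le_left _ _).trans (by linarith))
    · exact (min_le_right _ _).trans ((min_le_right _ _).trans (by linarith))
  rw [h1, ← restrict_Ioc_eq_restrict_Icc, ← ofReal_integral_eq_lintegral_ofReal
    (hc.intervalIntegrable α β).1]
  · rw [← intervalIntegral.integral_of_le hαβ]
    congr 1
    have hi : ∀ a b : ℝ, IntervalIntegrable (fun p : ℝ => min ε (min (p - α) (β - p))) volume a b :=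
      fun a b => hc.intervalIntegrable a b
    rw [← intervalIntegral.integral_add_adjacent_intervals (hi α (α + ε)) (hi (α + ε) β),
      ← intervalIntegral.integral_add_adjacent_intervals (hi (α + ε) (β - ε)) (hi (β - ε) β)]
    have e1 : ∫ p in α..(α + ε), min ε (min (p - α) (β - p)) = ε ^ 2 / 2 := by
      have : ∫ p in α..(α + ε), min ε (min (p - α) (β - p)) = ∫ p in α..(α + ε), (p - α) := by
        apply intervalIntegral.integral_congr
        intro p hp
        rw [uIcc_of_le (by linarith)] at hp
        have h2 := hp.1; have h3 := hp.2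
        change min ε (min (p - α) (β - p)) = p - α
        rw [min_eq_left (a := p - α) (by linarith), min_eq_right (by linarith)]
      rw [this, intervalIntegral.integral_sub (by simp) (by simp)]
      simp; ring
    have e2 : ∫ p in (α + ε)..(β - ε), min ε (min (p - α) (β - p)) = ε * (β - α - 2 * ε) := by
      have : ∫ p in (α + ε)..(β - ε), min ε (min (p - α) (β - p)) =
          ∫ p in (α + ε)..(β - ε), ε := by
        apply intervalIntegral.integral_congr
        intro p hp
        rw [uIcc_of_le (by linarith)] at hp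
        have h2 := hp.1; have h3 := hp.2
        change min ε (min (p - α) (β - p)) = ε
        rw [min_eq_left (le_min (by linarith) (by linarith))]
      rw [this, intervalIntegral.integral_const, smul_eq_mul]; ring
    have e3 : ∫ p in (β - ε)..β, min ε (min (p - α) (β - p)) = ε ^ 2 / 2 := by
      have : ∫ p in (β - ε)..β, min ε (min (p - α) (β - p)) = ∫ p in (β - ε)..β, (β - p) := by
        apply intervalIntegral.integral_congr
        intro p hp
        rw [uIcc_of_le (by linarith)] at hp
        have h2 := hp.1; have h3 := hp.2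
        change min ε (min (p - α) (β - p)) = β - p
        rw [min_eq_right (a := p - α) (by linarith), min_eq_right (by linarith)]
      rw [this, intervalIntegral.integral_sub (by simp) (by simp)]
      simp; ring
    rw [e1, e2, e3]; ring
  · rw [EventuallyLE, ae_restrict_iff' measurableSet_Ioc]
    refine Eventually.of_forall fun p hp => ?_
    have h2 := hp.1; have h3 := hp.2
    exact le_min hε (le_min (sub_nonneg.2 h2.le) (sub_nonneg.2 h3))

/-- crude bound for the integral of a trapezoid -/
lemma lintegral_trapezoid_le {α β ε : ℝ} (hε : 0 ≤ ε) :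
    ∫⁻ p, ENNReal.ofReal (min ε (min (p - α) (β - p))) ≤ ENNReal.ofReal (ε * (β - α)) := by
  calc ∫⁻ p, ENNReal.ofReal (min ε (min (p - α) (β - p)))
      ≤ ∫⁻ p, (Icc α β).indicator (fun _ => ENNReal.ofReal ε) p := by
        refine lintegral_mono fun p => ?_
        by_cases hp : p ∈ Icc α β
        · rw [indicator_of_mem hp]
          exact ENNReal.ofReal_le_ofReal (min_le_left _ _)
        · rw [indicator_of_notMem hp, nonpos_iff_eq_zero, ENNReal.ofReal_eq_zero]
          rw [mem_Icc, not_and_or, not_le, not_le] at hp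
          rcases hp with hp | hp
          · exact (min_le_right _ _).trans ((min_le_left _ _).trans (by linarith))
          · exact (min_le_right _ _).trans ((min_le_right _ _).trans (by linarith))
    _ = ENNReal.ofReal (ε * (β - α)) := by
        rw [lintegral_indicator measurableSet_Icc, setLIntegral_const, Real.volume_Icc,
          ← ENNReal.ofReal_mul hε]

end Pool.MP70c477
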