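import Pool.Agent.MP70c477.GainInt

/-!
# Construction of the windows
-/

namespace Pool.MP70c477

open MeasureTheory Set Filter Topology Bornology
open scoped ENNReal NNReal RealInnerProductSpace

namespace CSet

variable {g : ℝ → ℝ} {I : Set ℝ} {r b L : ℝ}

lemma near_zero (h : CSet g I r b L) {ε : ℝ} (hε : 0 < ε) : ∃ δ > 0, δ ≤ b ∧ ∀ x, 0 ≤ x →
    x < δ → cm g r x < cm g r 0 + ε ∧ sm g r x < sm g r 0 + ε := by
  have hb := h.hb
  have hK := h.Kc_pos
  have h0 : |(0:ℝ)| ≤ b := by simpa using hb.le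
  have hm : 0 < min ε (ε / Kc r L) := by positivity
  obtain ⟨δ, hδ, H⟩ := h.cm_rightCont h0 hb hm
  refine ⟨min δ b, lt_min hδ hb, min_le_right _ _, fun x hx0 hx => ?_⟩
  have hxb : x ≤ b := (hx.trans_le (min_le_right _ _)).le
  have hxδ : x < 0 + δ := by rw [zero_add]; exact hx.trans_le (min_le_left _ _)
  have h1 := H x hx0 hxδ hxb
  have h2 := h.sm_sub_le h0 (by rw [abs_of_nonneg hx0]; exact hxb) hx0
  refine ⟨h1.trans_le (by linarith [min_le_left ε (ε / Kc r L)]), ?_⟩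
  have h3 : Kc r L * (cm g r x - cm g r 0) < Kc r L * (ε / Kc r L) :=
    mul_lt_mul_of_pos_left (by linarith [min_le_right ε (ε / Kc r L)]) hK
  have h4 : Kc r L * (ε / Kc r L) = ε := by field_simp
  linarith

lemma sub_cm (h : CSet g I r b L) {x : ℝ} (hx : |x| ≤ b) : Sub g I (cm g r x) (sm g r x) :=
  ⟨h.sub (h.mem_J hx (h.isC_cm hx).1), fun _ hX => h.subgrad hx (h.isC_cm hx) hX⟩

/-- the far nodes -/
theorem exists_far (h : CSet g I r b L) (hnf : ∀ x, 0 < x → x ≤ b → sm g r 0 < sm g r x) :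
    ∃ (w' n' : Fin 4 → ℝ) (xa x8 : ℝ), Nodes g I w' n' ∧ 0 < height g w' n' ∧ 0 < xa ∧
      xa < x8 ∧ x8 ≤ b ∧ w' 0 = cm g r xa ∧ w' 3 = cm g r x8 := by
  have hb := h.hb
  have habs : ∀ x, 0 ≤ x → x ≤ b → |x| ≤ b := fun x h1 h2 => by rwa [abs_of_nonneg h1]
  have hstep : ∀ x, 0 < x → x ≤ b → ∃ y, 0 < y ∧ y < x ∧ sm g r y < sm g r x := by
    intro x hx hxb
    obtain ⟨δ, hδ, _, H⟩ := h.near_zero (sub_pos.2 (hnf x hx hxb))
    refine ⟨min (δ / 2) (x / 2), by positivity, ?_, ?_⟩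
    · exact (min_le_right _ _).trans_lt (by linarith)
    · have := (H (min (δ / 2) (x / 2)) (by positivity)
        ((min_le_left _ _).trans_lt (by linarith))).2
      linarith
  obtain ⟨xd, hxd0, hxd, hsd⟩ := hstep b hb le_rfl
  set xc := xd / 2 with hxc
  have hxc0 : 0 < xc := by positivity
  have hxcd : xc < xd := by rw [hxc]; linarith
  obtain ⟨xa, hxa0, hxa, hsa⟩ := hstep xc hxc0 (by linarith)
  have ka := habs xa hxa0.le (by linarith)
  have kc := habs xc hxc0.le (by linarith)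
  have kd := habs xd hxd0.le (by linarith)
  have kb := habs b hb.le le_rfl
  have m1 := h.cm_strictMono ka kc hxa
  have m2 := h.cm_strictMono kc kd hxcd
  have m3 := h.cm_strictMono kd kb hxd
  have hN : Nodes g I ![cm g r xa, cm g r xc, cm g r xd, cm g r b]
      ![sm g r xa, sm g r xc, sm g r xd, sm g r b] := by
    refine ⟨?_, ?_, ?_, ?_, ?_, ?_⟩
    · simp; linarith
    · simp; linarith
    · simp; linarith
    · simpa using hsa
    · simpa using hsd
    · intro i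
      fin_cases i
      · exact h.sub_cm ka
      · exact h.sub_cm kc
      · exact h.sub_cm kd
      · exact h.sub_cm kb
  refine ⟨_, _, xa, b, hN, ?_, hxa0, by linarith, le_rfl, rfl, rfl⟩
  have := height_ge h.isOpen h.conv hN
  simp at this
  linarith

/-- the window nodes -/
theorem exists_window (h : CSet g I r b L) (hnf : ∀ x, 0 < x → x ≤ b → sm g r 0 < sm g r x)
    {xa ε : ℝ} (hxa : 0 < xa) (hxab : xa ≤ b) (hε : 0 < ε) :
    ∃ (w n : Fin 4 → ℝ) (x₁ B₁ B₂ ℓ : ℝ), Nodes g I w n ∧ 0 < x₁ ∧ x₁ ≤ B₁ ∧ B₁ < B₂ ∧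
      B₂ ≤ xa ∧ w 0 = cm g r x₁ ∧ w 3 = cm g r B₁ ∧ 0 < ℓ ∧ ℓ < ε ∧
      cm g r B₂ - cm g r 0 ≤ ℓ ∧ kap r L / 4 * ℓ ≤ height g w n ∧ height g w n ≤ ℓ := by
  have hb := h.hb
  have hr := h.hr
  have habs : ∀ x, 0 ≤ x → x ≤ b → |x| ≤ b := fun x h1 h2 => by rwa [abs_of_nonneg h1]
  have hκ := h.kap_pos
  have hκ1 := h.kap_le
  obtain ⟨δ, hδ, hδb, Hδ⟩ := h.near_zero (show 0 < ε / 2 by positivity)
  obtain ⟨B, hB0, hBι, hBb, hB⟩ := h.select hnf (lt_min hδ hxa)
  have hBδ : B < δ := hBι.trans_le (min_le_left _ _)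
  have hBxa : B < xa := hBι.trans_le (min_le_right _ _)
  have kB := habs B hB0.le hBb.le
  have k0 : |(0:ℝ)| ≤ b := by simpa using hb.le
  set X0 := cm g r 0 with hX0
  set bB := cm g r B - X0 with hbB
  have hbB0 : B ≤ bB := by
    have := h.cm_strictMono k0 kB hB0; rw [sub_zero] at this; exact this
  have hbBpos : 0 < bB := by linarith
  have hbBε : bB < ε / 2 := by have := (Hδ B hB0.le hBδ).1; linarith
  set Y := X0 + kap r L * bB with hY
  set W2 := X0 + kap r L / 2 * bB with hW2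
  have hκb : 0 < kap r L * bB := by positivity
  have hκb2 : kap r L * bB ≤ 1 / 8 * bB := mul_le_mul_of_nonneg_right hκ1 hbBpos.le
  have hW2Y : W2 < Y := by rw [hW2, hY]; linarith
  have hYB : Y < cm g r B := by rw [hY]; linarith
  have hX0W : X0 < W2 := by rw [hW2]; linarith
  have s0 := h.sub_cm k0
  have sB := h.sub_cm kB
  have hoc : OrdConnected I := h.conv.1.ordConnected
  have hYI : Y ∈ I := hoc.out s0.1 sB.1 ⟨by linarith, by linarith⟩
  have hWI : W2 ∈ I := hoc.out s0.1 sB.1 ⟨by linarith, by linarith⟩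
  obtain ⟨n3, hn3⟩ := exists_sub h.isOpen h.conv hYI
  obtain ⟨n2, hn2⟩ := exists_sub h.isOpen h.conv hWI
  have hn23 : n2 ≤ n3 := sub_mono hn2 hn3 hW2Y
  have hn3B : n3 < sm g r B := by
    have h1 := hn3.2 _ sB.1
    have h2 : n3 * (cm g r B - Y) < sm g r B * (cm g r B - Y) := by linarith
    exact lt_of_mul_lt_mul_right h2 (by linarith)
  have hn2lt : sm g r 0 < n2 := by
    obtain ⟨δ', hδ', hδb', H'⟩ := h.near_zero (show 0 < W2 - X0 by linarith)
    have k : |δ' / 2| ≤ b := habs _ (by positivity) (by linarith)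
    have h1 := (H' (δ' / 2) (by positivity) (by linarith)).1
    have h2 : sm g r (δ' / 2) ≤ n2 := sub_mono (h.sub_cm k) hn2 (by linarith)
    have h3 := hnf (δ' / 2) (by positivity) (by linarith)
    linarith
  -- the left node
  obtain ⟨δ', hδ', hδb', H'⟩ := h.near_zero (show 0 < min (W2 - X0) (n2 - sm g r 0) from
    lt_min (by linarith) (by linarith))
  set x₁ := min (δ' / 2) (B / 2) with hx₁
  have hx₁0 : 0 < x₁ := by positivity
  have hx₁B : x₁ ≤ B / 2 := min_le_right _ _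
  have hH := H' x₁ hx₁0.le ((min_le_left _ _).trans_lt (by linarith))
  have hcx : cm g r x₁ < W2 := by linarith [min_le_left (W2 - X0) (n2 - sm g r 0)]
  have hsx : sm g r x₁ < n2 := by linarith [min_le_right (W2 - X0) (n2 - sm g r 0)]
  have k1 := habs x₁ hx₁0.le (by linarith)
  -- the right end
  obtain ⟨δ'', hδ'', H''⟩ := h.cm_rightCont kB hBb hbBpos
  set B₂ := B + min (δ'' / 2) ((xa - B) / 2) with hB₂
  have hmin : 0 < min (δ'' / 2) ((xa - B) / 2) := lt_min (by positivity) (by linarith)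
  have hB₂B : B < B₂ := by rw [hB₂]; linarith
  have hB₂xa : B₂ ≤ xa := by
    rw [hB₂]; linarith [min_le_right (δ'' / 2) ((xa - B) / 2)]
  have hcB₂ := H'' B₂ hB₂B.le (by
    rw [hB₂]; linarith [min_le_left (δ'' / 2) ((xa - B) / 2)]) (by linarith)
  have hN : Nodes g I ![cm g r x₁, W2, Y, cm g r B] ![sm g r x₁, n2, n3, sm g r B] := by
    refine ⟨?_, ?_, ?_, ?_, ?_, ?_⟩
    · simpa using hcx.le
    · simpa using hW2Y.le
    · simpa using hYB.le
    · simpa using hsx
    · simpa using hn3B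
    · intro i
      fin_cases i
      · exact h.sub_cm k1
      · exact hn2
      · exact hn3
      · exact sB
  refine ⟨_, _, x₁, B, B₂, 2 * bB, hN, hx₁0, by linarith, hB₂B, hB₂xa, rfl, rfl,
    by linarith, by linarith, ?_, ?_, ?_⟩
  · linarith
  · have := height_ge h.isOpen h.conv hN
    simp at this
    have e : kap r L / 4 * (2 * bB) = Y - W2 := by rw [hY, hW2]; ring
    rw [e]; linarith
  · have := height_le h.isOpen h.conv hN
    simp at this
    have h1 := h.cm_strictMono k0 k1 hx₁0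
    linarith

end CSet

end Pool.MP70c477
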